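import Pool.Agent.MTD.Defs

/-! # MTD : basic lemmas -/

namespace Pool.Agent.MTD

open Matrix
open Pool.Agent.MP_c45d35_ag (chi UpUni LowUni chi_add chi_mul chi_zero chi_one chi_inv chi_map)

section ev
variable {n : ℕ} {R : Type*} [CommRing R]

theorem ev_add (μ : Fin n → ℤ) (x y : Fin n → R) : ev μ (x + y) = ev μ x + ev μ y := by
  simp [ev, mul_add, Finset.sum_add_distrib]

theorem ev_sub (μ : Fin n → ℤ) (x y : Fin n → R) : ev μ (x - y) = ev μ x - ev μ y := by
  simp [ev, mul_sub, Finset.sum_sub_distrib]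

theorem ev_neg (μ : Fin n → ℤ) (x : Fin n → R) : ev μ (-x) = - ev μ x := by
  simp [ev, Finset.sum_neg_distrib]

theorem ev_smul (μ : Fin n → ℤ) (c : R) (x : Fin n → R) : ev μ (c • x) = c * ev μ x := by
  simp only [ev, Pi.smul_apply, smul_eq_mul, Finset.mul_sum]
  exact Finset.sum_congr rfl fun k _ => by ring

theorem ev_zero (μ : Fin n → ℤ) : ev μ (0 : Fin n → R) = 0 := by simp [ev]

theorem ev_add_smul (μ : Fin n → ℤ) (x v : Fin n → R) (t : R) :
    ev μ (x + t • v) = ev μ x + t * ev μ v := by rw [ev_add, ev_smul]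

theorem ev_add_left (μ ν : Fin n → ℤ) (x : Fin n → R) : ev (μ + ν) x = ev μ x + ev ν x := by
  simp [ev, add_mul, Finset.sum_add_distrib]

theorem ev_sub_left (μ ν : Fin n → ℤ) (x : Fin n → R) : ev (μ - ν) x = ev μ x - ev ν x := by
  simp [ev, sub_mul, Finset.sum_sub_distrib]

theorem ev_neg_left (μ : Fin n → ℤ) (x : Fin n → R) : ev (-μ) x = - ev μ x := by
  simp [ev, Finset.sum_neg_distrib]

theorem ev_smul_left (c : ℤ) (μ : Fin n → ℤ) (x : Fin n → R) : ev (c • μ) x = (c : R) * ev μ x := by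
  simp only [ev, Pi.smul_apply, smul_eq_mul, Int.cast_mul, Finset.mul_sum]
  exact Finset.sum_congr rfl fun k _ => by ring

theorem ev_zero_left (x : Fin n → R) : ev (0 : Fin n → ℤ) x = 0 := by simp [ev]

theorem ev_sum_left {κ : Type*} (s : Finset κ) (f : κ → Fin n → ℤ) (x : Fin n → R) :
    ev (∑ i ∈ s, f i) x = ∑ i ∈ s, ev (f i) x := by
  classical
  induction s using Finset.induction_on with
  | empty => simp [ev_zero_left]
  | insert a s ha ih => rw [Finset.sum_insert ha, Finset.sum_insert ha, ev_add_left, ih]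

theorem ev_sum {κ : Type*} (μ : Fin n → ℤ) (s : Finset κ) (f : κ → Fin n → R) :
    ev μ (∑ i ∈ s, f i) = ∑ i ∈ s, ev μ (f i) := by
  classical
  induction s using Finset.induction_on with
  | empty => simp [ev_zero]
  | insert a s ha ih => rw [Finset.sum_insert ha, Finset.sum_insert ha, ev_add, ih]

theorem ev_map {S : Type*} [CommRing S] (φ : R →+* S) (μ : Fin n → ℤ) (x : Fin n → R) :
    φ (ev μ x) = ev μ (fun k => φ (x k)) := by
  simp [ev]

theorem ev_comm (μ ν : Fin n → ℤ) : ev μ ν = ev ν μ := by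
  simp only [ev, Int.cast_id]
  exact Finset.sum_congr rfl fun k _ => mul_comm _ _

end ev

namespace Dat

variable {n N : ℕ} {ι : Type} (D : Dat n N ι)

/-- the transpose of the reflection -/
theorem ev_sr {R : Type*} [CommRing R] (β : ι) (μ : Fin n → ℤ) (x : Fin n → R) :
    ev μ (D.sr β x) = ev (D.sw β μ) x := by
  unfold sr sw
  rw [ev_sub_left, ev_smul_left]
  have h1 : ev μ (fun k => x k - ev (D.rt β) x * (D.cr β k : R)) =
      ev μ x - ev (D.rt β) x * ev μ (fun k => (D.cr β k : R)) := by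
    simp only [ev, mul_sub, Finset.sum_sub_distrib]
    congr 1
    rw [Finset.mul_sum]
    exact Finset.sum_congr rfl fun k _ => by ring
  have h2 : ev μ (fun k => (D.cr β k : R)) = ((ev (D.cr β) μ : ℤ) : R) := by
    simp only [ev, Int.cast_id, Int.cast_sum, Int.cast_mul]
    exact Finset.sum_congr rfl fun k _ => mul_comm _ _
  rw [h1, h2]
  ring

theorem Dx_map {R S : Type*} [CommRing R] [CommRing S] (φ : R →+* S) (x : Fin n → R) :
    (D.Dx x).map φ = D.Dx fun k => φ (x k) := by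
  unfold Dx
  rw [Matrix.diagonal_map (map_zero φ)]
  congr 1
  funext i
  exact ev_map φ _ _

theorem Dx_add_smul {R : Type*} [CommRing R] (x v : Fin n → R) (t : R) :
    D.Dx (x + t • v) = D.Dx x + t • D.Dx v := by
  ext i j
  by_cases h : i = j
  · subst h; simp [Dx, ev_add_smul]
  · simp [Dx, h]

theorem Tt_mul {R : Type*} [CommRing R] (t t' : Fin n → Rˣ) :
    D.Tt (t * t') = D.Tt t * D.Tt t' := by
  unfold Tt
  rw [Matrix.diagonal_mul_diagonal]
  congr 1
  funext i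
  rw [chi_mul]
  rfl

theorem Tt_one {R : Type*} [CommRing R] : D.Tt (1 : Fin n → Rˣ) = 1 := by
  unfold Tt
  simp [chi_one]

theorem Tt_mul_inv {R : Type*} [CommRing R] (t : Fin n → Rˣ) : D.Tt t * D.Tt t⁻¹ = 1 := by
  rw [← Tt_mul, mul_inv_cancel, Tt_one]

theorem Tt_inv_mul {R : Type*} [CommRing R] (t : Fin n → Rˣ) : D.Tt t⁻¹ * D.Tt t = 1 := by
  rw [← Tt_mul, inv_mul_cancel, Tt_one]

theorem Tt_inv {R : Type*} [CommRing R] (t : Fin n → Rˣ) : (D.Tt t)⁻¹ = D.Tt t⁻¹ :=
  Matrix.inv_eq_left_inv (D.Tt_inv_mul t)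

theorem Tt_comm {R : Type*} [CommRing R] (t t' : Fin n → Rˣ) :
    D.Tt t * D.Tt t' = D.Tt t' * D.Tt t := by
  rw [← Tt_mul, ← Tt_mul, mul_comm]

theorem Tt_pow {R : Type*} [CommRing R] (t : Fin n → Rˣ) (j : ℕ) :
    D.Tt (t ^ j) = D.Tt t ^ j := by
  induction j with
  | zero => simp [Tt_one]
  | succ j ih => rw [pow_succ, pow_succ, Tt_mul, ih]

theorem Tt_Dx_comm {R : Type*} [CommRing R] (t : Fin n → Rˣ) (x : Fin n → R) :
    D.Tt t * D.Dx x = D.Dx x * D.Tt t := by
  unfold Tt Dx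
  rw [Matrix.diagonal_mul_diagonal, Matrix.diagonal_mul_diagonal]
  congr 1
  funext i
  ring

theorem Tt_map {R S : Type*} [CommRing R] [CommRing S] (φ : R →+* S) (t : Fin n → Rˣ) :
    (D.Tt t).map φ = D.Tt fun k => Units.map (φ : R →* S) (t k) := by
  unfold Tt
  rw [Matrix.diagonal_map (map_zero φ)]
  congr 1
  funext i
  have h := chi_map (Units.map (φ : R →* S)) (D.wt i) t
  rw [← h]
  rfl

theorem IsG.map {D : Dat n N ι} {R S : Type*} [CommRing R] [CommRing S] [Algebra ℂ R]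
    [Algebra ℂ S] (φ : R →ₐ[ℂ] S) {g : Matrix (Fin N) (Fin N) R} (hg : D.IsG g) :
    D.IsG (g.map φ) := by
  intro p hp
  have h := congrArg φ (hg p hp)
  rw [map_zero] at h
  rw [← h]
  have h2 := MvPolynomial.comp_aeval_apply (fun ij : Fin N × Fin N => g ij.1 ij.2) φ p
  exact h2.symm

variable [Fintype ι]

theorem Y_apply {R : Type*} [CommRing R] [Algebra ℂ R] (Z : ι → R) (i j : Fin N) :
    D.Y Z i j = ∑ β, Z β * algebraMap ℂ R (D.E β i j) := by
  simp [Y, Matrix.sum_apply]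

theorem Y_map {R S : Type*} [CommRing R] [CommRing S] [Algebra ℂ R] [Algebra ℂ S]
    (φ : R →ₐ[ℂ] S) (Z : ι → R) : (D.Y Z).map φ = D.Y fun β => φ (Z β) := by
  ext i j
  simp [Y_apply]

theorem Y_zero {R : Type*} [CommRing R] [Algebra ℂ R] : D.Y (0 : ι → R) = 0 := by
  ext i j
  simp [Y_apply]

theorem Y_add {R : Type*} [CommRing R] [Algebra ℂ R] (Z Z' : ι → R) :
    D.Y (Z + Z') = D.Y Z + D.Y Z' := by
  ext i j
  simp [Y_apply, add_mul, Finset.sum_add_distrib]

theorem Y_sub {R : Type*} [CommRing R] [Algebra ℂ R] (Z Z' : ι → R) :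
    D.Y (Z - Z') = D.Y Z - D.Y Z' := by
  ext i j
  simp [Y_apply, sub_mul, Finset.sum_sub_distrib]

theorem Y_smul {R : Type*} [CommRing R] [Algebra ℂ R] (c : R) (Z : ι → R) :
    D.Y (c • Z) = c • D.Y Z := by
  ext i j
  simp [Y_apply, Finset.mul_sum, mul_assoc]

theorem e_map {R : Type*} [CommRing R] [Algebra ℂ R] :
    D.e.map (algebraMap ℂ R) = D.Y fun β => algebraMap ℂ R (D.ze β) := by
  have h := D.Y_map (Algebra.ofId ℂ R) D.ze
  exact h

end Dat

namespace Ax

variable {n N : ℕ} {ι : Type} [Fintype ι] {D : Dat n N ι} (A : Ax D)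
include A

theorem ne_zero_rt (β : ι) : D.rt β ≠ 0 := by
  intro h
  have h1 := A.lexpos β
  rw [h] at h1
  exact lt_irrefl _ h1

theorem rt_inj {β γ : ι} (h : D.rt β = D.rt γ) : β = γ := by
  by_contra hne
  have := A.rt_indep β γ 1 1 hne (by rw [h])
  exact one_ne_zero this.1

theorem E_supp_lt {β : ι} {i j : Fin N} (h : D.E β i j ≠ 0) : i < j := by
  have h1 := (A.E_supp β i j h).1
  have h2 := A.dep_pos β
  have : (i : ℕ) < j := by omega
  exact this

theorem E_eq_zero {β : ι} {i j : Fin N} (h : ¬ ((j : ℕ) = (i : ℕ) + D.dep β)) :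
    D.E β i j = 0 := by
  by_contra hne
  exact h (A.E_supp β i j hne).1

theorem Y_upper {R : Type*} [CommRing R] [Algebra ℂ R] (Z : ι → R) (i j : Fin N) (h : j ≤ i) :
    D.Y Z i j = 0 := by
  rw [D.Y_apply]
  refine Finset.sum_eq_zero fun β _ => ?_
  have h1 : D.E β i j = 0 := by
    by_contra hne
    exact absurd (A.E_supp_lt hne) (not_lt.2 h)
  rw [h1, map_zero, mul_zero]

/-- the entries of `Y Z` read off the coefficients -/
theorem Y_entry {R : Type*} [CommRing R] [Algebra ℂ R] (Z : ι → R) {β : ι} {i j : Fin N}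
    (h : D.E β i j ≠ 0) : D.Y Z i j = Z β * algebraMap ℂ R (D.E β i j) := by
  rw [D.Y_apply, Finset.sum_eq_single β]
  · intro γ _ hγ
    have h1 : D.E γ i j = 0 := by
      by_contra hne
      have h2 := (A.E_supp β i j h).2
      have h3 := (A.E_supp γ i j hne).2
      exact hγ (A.rt_inj (h3.symm.trans h2))
    rw [h1, map_zero, mul_zero]
  · intro h1
    exact absurd (Finset.mem_univ β) h1

/-- an entry of `Y Z` outside the positions of roots vanishes -/
theorem Y_entry_zero {R : Type*} [CommRing R] [Algebra ℂ R] (Z : ι → R) {i j : Fin N}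
    (h : ∀ β, D.wt i - D.wt j ≠ D.rt β) : D.Y Z i j = 0 := by
  rw [D.Y_apply]
  refine Finset.sum_eq_zero fun β _ => ?_
  have h1 : D.E β i j = 0 := by
    by_contra hne
    exact h β (A.E_supp β i j hne).2
  rw [h1, map_zero, mul_zero]

/-- every root vector has a nonzero entry -/
theorem exists_entry (β : ι) : ∃ i j, D.E β i j ≠ 0 := by
  by_contra h
  push Not at h
  apply A.E_ne β
  ext i j
  exact h i j

theorem Y_inj {R : Type*} [CommRing R] [Algebra ℂ R] {Z Z' : ι → R} (h : D.Y Z = D.Y Z') :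
    Z = Z' := by
  funext β
  obtain ⟨i, j, hij⟩ := A.exists_entry β
  have h1 := congrFun (congrFun h i) j
  rw [A.Y_entry Z hij, A.Y_entry Z' hij] at h1
  have hu : IsUnit (algebraMap ℂ R (D.E β i j)) := (isUnit_iff_ne_zero.2 hij).map _
  exact hu.mul_right_cancel h1

theorem DxY_upper {R : Type*} [CommRing R] [Algebra ℂ R] (x : Fin n → R) (Z : ι → R)
    (i j : Fin N) (h : j < i) : (D.Dx x + D.Y Z) i j = 0 := by
  rw [Matrix.add_apply, A.Y_upper Z i j h.le, add_zero]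
  exact Matrix.diagonal_apply_ne _ (ne_of_gt h)

theorem DxY_diag {R : Type*} [CommRing R] [Algebra ℂ R] (x : Fin n → R) (Z : ι → R)
    (i : Fin N) : (D.Dx x + D.Y Z) i i = ev (D.wt i) x := by
  rw [Matrix.add_apply, A.Y_upper Z i i le_rfl, add_zero]
  exact Matrix.diagonal_apply_eq _ _

theorem one {R : Type} [CommRing R] [Algebra ℂ R] : D.IsG (1 : Matrix (Fin N) (Fin N) R) := by
  have h := A.torus (1 : Fin n → Rˣ)
  rwa [D.Tt_one] at h

theorem inv_mul {R : Type} [CommRing R] [Algebra ℂ R] {g : Matrix (Fin N) (Fin N) R}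
    (hg : D.IsG g) : g⁻¹ * g = 1 :=
  Matrix.nonsing_inv_mul g (by rw [A.det g hg]; exact isUnit_one)

theorem mul_inv {R : Type} [CommRing R] [Algebra ℂ R] {g : Matrix (Fin N) (Fin N) R}
    (hg : D.IsG g) : g * g⁻¹ = 1 :=
  Matrix.mul_nonsing_inv g (by rw [A.det g hg]; exact isUnit_one)

/-- the inverse is the adjugate -/
theorem inv_eq {R : Type} [CommRing R] [Algebra ℂ R] {g : Matrix (Fin N) (Fin N) R}
    (hg : D.IsG g) : g⁻¹ = g.adjugate := by
  rw [Matrix.inv_def, A.det g hg]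
  simp

/-- `E_β` is a weight vector of the torus -/
theorem Tt_E {R : Type*} [CommRing R] [Algebra ℂ R] (t : Fin n → Rˣ) (β : ι) :
    D.Tt t * (D.E β).map (algebraMap ℂ R) =
      ((chi (D.rt β) t : Rˣ) : R) • ((D.E β).map (algebraMap ℂ R) * D.Tt t) := by
  ext i j
  unfold Dat.Tt
  rw [Matrix.smul_apply, Matrix.diagonal_mul, Matrix.mul_diagonal, Matrix.map_apply, smul_eq_mul]
  by_cases h : D.E β i j = 0
  · rw [h, map_zero]; simp
  · have h1 := (A.E_supp β i j h).2
    have h2 : D.wt i = D.rt β + D.wt j := by rw [← h1]; abel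
    rw [h2, chi_add]
    push_cast
    ring

/-- conjugation of `Y Z` by the torus -/
theorem Tt_Y {R : Type*} [CommRing R] [Algebra ℂ R] (t : Fin n → Rˣ) (Z : ι → R) :
    D.Tt t * D.Y Z = D.Y (fun β => ((chi (D.rt β) t : Rˣ) : R) * Z β) * D.Tt t := by
  unfold Dat.Y
  rw [Finset.mul_sum, Finset.sum_mul]
  refine Finset.sum_congr rfl fun β _ => ?_
  rw [Matrix.mul_smul, A.Tt_E, Matrix.smul_mul, smul_smul, mul_comm (Z β)]

theorem sr_reg {x : Fin n → ℂ} (hx : D.Reg x) (β : ι) : D.Reg (D.sr β x) := by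
  intro γ
  rw [D.ev_sr]
  obtain ⟨γ', h | h⟩ := A.refl_rt β γ
  · rw [h]; exact hx γ'
  · rw [h, ev_neg_left]; exact neg_ne_zero.2 (hx γ')

theorem sw_sw (β : ι) (μ : Fin n → ℤ) : D.sw β (D.sw β μ) = μ := by
  unfold Dat.sw
  have h1 : ev (D.cr β) (μ - ev (D.cr β) μ • D.rt β) = - ev (D.cr β) μ := by
    rw [ev_sub]
    have : ev (D.cr β) (ev (D.cr β) μ • D.rt β) = ev (D.cr β) μ * ev (D.cr β) (D.rt β) :=
      ev_smul _ _ _
    rw [this, A.cr_rt]
    ring
  rw [h1]
  module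

theorem ev_cr_sw (β : ι) (μ : Fin n → ℤ) : ev (D.cr β) (D.sw β μ) = - ev (D.cr β) μ := by
  unfold Dat.sw
  rw [ev_sub]
  have : ev (D.cr β) (ev (D.cr β) μ • D.rt β) = ev (D.cr β) μ * ev (D.cr β) (D.rt β) :=
    ev_smul _ _ _
  rw [this, A.cr_rt]
  ring

end Ax

end Pool.Agent.MTD
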