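import Pool.Agent.MP_c45d35_ag.Basic

/-!
# MTD : abstract Moore–Tachikawa data

`Dat n N ι` : a matrix group `G` of size `N` with a diagonal torus `T` of rank `n`, whose positive
roots are indexed by `ι`, with root vectors that are strictly upper triangular matrices, a slice
`S`, and a polynomial parametrisation `x ↦ sx(x)` of `S` by `𝔱 = ℂ^n` with conjugators `px(x)`.
`Ax D` : the properties from which finite generation of the Moore–Tachikawa rings follows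
(together with the existence of the top elements, `Gens`).
-/

namespace Pool.Agent.MTD

open Matrix
open Pool.Agent.MP_c45d35_ag (chi UpUni LowUni)

/-- The pairing `∑ μ_k x_k`. -/
def ev {n : ℕ} {R : Type*} [CommRing R] (μ : Fin n → ℤ) (x : Fin n → R) : R :=
  ∑ k, (μ k : R) * x k

/-- The truncated exponential `∑_{k < N} A^k / k!` of an `N × N` matrix. -/
noncomputable def expN {N : ℕ} {R : Type*} [CommRing R] [Algebra ℂ R]
    (A : Matrix (Fin N) (Fin N) R) : Matrix (Fin N) (Fin N) R :=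
  ∑ k ∈ Finset.range N, (algebraMap ℂ R (1 / (k.factorial : ℂ))) • A ^ k

/-- Index set of the coordinates on `Mat^b × Mat`. -/
abbrev Idx (N b : ℕ) := (Fin b × Fin N × Fin N) ⊕ (Fin N × Fin N)

/-- Coordinates of a point of `Mat^b × Mat`. -/
def co {R : Type*} {N b : ℕ} (g : Fin b → Matrix (Fin N) (Fin N) R) (s : Matrix (Fin N) (Fin N) R) :
    Idx N b → R :=
  Sum.elim (fun p => g p.1 p.2.1 p.2.2) (fun p => s p.1 p.2)

/-- Points of `G^b × S`. -/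
abbrev Pt {N : ℕ} (G S : Set (Matrix (Fin N) (Fin N) ℂ)) (b : ℕ) := (Fin b → G) × S

/-- The Moore–Tachikawa ring of the matrix group `G` and the slice `S`: the functions on
`G^b × S` that are given by a polynomial in the matrix entries and are invariant under
`(g_a) ↦ (g_a h_a)` for all `h_a ∈ G` commuting with `s`, `∏ h_a = 1`. -/
def MTR {N : ℕ} (G S : Set (Matrix (Fin N) (Fin N) ℂ)) (b : ℕ) : Subalgebra ℂ (Pt G S b → ℂ) where
  carrier := {F | (∃ P : MvPolynomial (Idx N b) ℂ, ∀ y : Pt G S b,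
      F y = MvPolynomial.eval (co (fun a => (y.1 a).1) y.2.1) P) ∧
    ∀ (y y' : Pt G S b) (h : Fin b → Matrix (Fin N) (Fin N) ℂ),
      (∀ a, h a ∈ G ∧ Commute (h a) y.2.1) → (List.ofFn h).prod = 1 → y'.2 = y.2 →
      (∀ a, (y'.1 a).1 = (y.1 a).1 * h a) → F y' = F y}
  mul_mem' := by
    rintro F F' ⟨⟨P, hP⟩, h1⟩ ⟨⟨P', hP'⟩, h1'⟩
    refine ⟨⟨P * P', fun y => by simp [hP, hP']⟩, fun y y' h hh hp hs hg => ?_⟩
    simp only [Pi.mul_apply]
    rw [h1 y y' h hh hp hs hg, h1' y y' h hh hp hs hg]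
  add_mem' := by
    rintro F F' ⟨⟨P, hP⟩, h1⟩ ⟨⟨P', hP'⟩, h1'⟩
    refine ⟨⟨P + P', fun y => by simp [hP, hP']⟩, fun y y' h hh hp hs hg => ?_⟩
    simp only [Pi.add_apply]
    rw [h1 y y' h hh hp hs hg, h1' y y' h hh hp hs hg]
  algebraMap_mem' := by
    intro r
    exact ⟨⟨MvPolynomial.C r, fun y => by simp [Pi.algebraMap_apply]⟩, fun _ _ _ _ _ _ _ => rfl⟩

/-- Data (no conditions).  `eqs`: equations of the group; `wt i`: the weight of the `i`-th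
coordinate; `rt β`, `cr β`: the positive root `β` and its coroot; `E β`: the root vector, with
entries in the positions `(i, i + dep β)` only; `ze`: the coefficients of the principal nilpotent
`e = ∑ ze β • E β`; `S`: the slice; `sx`, `px`: the generic slice element and its conjugator from
`e + x`. -/
structure Dat (n N : ℕ) (ι : Type) where
  eqs : Set (MvPolynomial (Fin N × Fin N) ℂ)
  wt : Fin N → Fin n → ℤ
  rt : ι → Fin n → ℤ
  cr : ι → Fin n → ℤ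
  dep : ι → ℕ
  E : ι → Matrix (Fin N) (Fin N) ℂ
  ze : ι → ℂ
  S : Set (Matrix (Fin N) (Fin N) ℂ)
  sx : Matrix (Fin N) (Fin N) (MvPolynomial (Fin n) ℂ)
  px : Matrix (Fin N) (Fin N) (MvPolynomial (Fin n) ℂ)

namespace Dat

variable {n N : ℕ} {ι : Type} (D : Dat n N ι)

/-- `R`-points of the group. -/
def IsG {R : Type*} [CommRing R] [Algebra ℂ R] (g : Matrix (Fin N) (Fin N) R) : Prop :=
  ∀ p ∈ D.eqs, MvPolynomial.aeval (fun ij : Fin N × Fin N => g ij.1 ij.2) p = 0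

/-- The group of complex points. -/
def Gs : Set (Matrix (Fin N) (Fin N) ℂ) := {g | D.IsG g}

/-- The diagonal matrix `x ∈ 𝔱`. -/
def Dx {R : Type*} [CommRing R] (x : Fin n → R) : Matrix (Fin N) (Fin N) R :=
  Matrix.diagonal fun i => ev (D.wt i) x

/-- The diagonal matrix `t ∈ T`. -/
def Tt {R : Type*} [CommRing R] (t : Fin n → Rˣ) : Matrix (Fin N) (Fin N) R :=
  Matrix.diagonal fun i => ((chi (D.wt i) t : Rˣ) : R)

/-- The nilpotent matrix `∑ Z_β E_β`. -/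
noncomputable def Y [Fintype ι] {R : Type*} [CommRing R] [Algebra ℂ R] (Z : ι → R) :
    Matrix (Fin N) (Fin N) R :=
  ∑ β, Z β • (D.E β).map (algebraMap ℂ R)

/-- The principal nilpotent. -/
noncomputable def e [Fintype ι] : Matrix (Fin N) (Fin N) ℂ := D.Y D.ze

/-- Regular elements of `𝔱`. -/
def Reg (x : Fin n → ℂ) : Prop := ∀ β, ev (D.rt β) x ≠ 0

/-- Regular elements of `𝔱`, as a type. -/
abbrev RegX := {x : Fin n → ℂ // D.Reg x}

/-- Generic points of the hyperplane `β = 0`. -/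
def GenW (β : ι) (x : Fin n → ℂ) : Prop := ev (D.rt β) x = 0 ∧ ∀ γ, γ ≠ β → ev (D.rt γ) x ≠ 0

/-- The reflection `x ↦ x - β(x) β^∨` of `𝔱`. -/
def sr {R : Type*} [CommRing R] (β : ι) (x : Fin n → R) : Fin n → R :=
  fun k => x k - ev (D.rt β) x * (D.cr β k : R)

/-- The reflection `μ ↦ μ - ⟨μ, β^∨⟩ β` of the weights. -/
def sw (β : ι) (μ : Fin n → ℤ) : Fin n → ℤ := μ - ev (D.cr β) μ • D.rt β

/-- Dominant weights. -/
def Dom (μ : Fin n → ℤ) : Prop := ∀ β, 0 ≤ ev (D.cr β) μ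

end Dat

/-- The conditions on the data. -/
structure Ax {n N : ℕ} {ι : Type} [Fintype ι] (D : Dat n N ι) : Prop where
  wt_inj : Function.Injective D.wt
  wt_std : ∀ k, ∃ i, D.wt i = Pi.single k 1
  rt_indep : ∀ (β γ : ι) (a b : ℤ), β ≠ γ → a • D.rt β = b • D.rt γ → a = 0 ∧ b = 0
  lexpos : ∀ β, 0 < toLex (D.rt β)
  cr_rt : ∀ β, ev (D.cr β) (D.rt β) = 2
  cr_sep : ∀ μ : Fin n → ℤ, (∀ β, ev (D.cr β) μ = 0) → μ = 0
  refl_rt : ∀ β γ, ∃ γ', D.sw β (D.rt γ) = D.rt γ' ∨ D.sw β (D.rt γ) = - D.rt γ'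
  E_supp : ∀ β i j, D.E β i j ≠ 0 → (j : ℕ) = (i : ℕ) + D.dep β ∧ D.wt i - D.wt j = D.rt β
  E_ne : ∀ β, D.E β ≠ 0
  dep_pos : ∀ β, 0 < D.dep β
  mul : ∀ {R : Type} [CommRing R] [Algebra ℂ R] (g h : Matrix (Fin N) (Fin N) R),
    D.IsG g → D.IsG h → D.IsG (g * h)
  det : ∀ {R : Type} [CommRing R] [Algebra ℂ R] (g : Matrix (Fin N) (Fin N) R), D.IsG g → g.det = 1
  inv : ∀ {R : Type} [CommRing R] [Algebra ℂ R] (g : Matrix (Fin N) (Fin N) R),
    D.IsG g → D.IsG g⁻¹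
  torus : ∀ {R : Type} [CommRing R] [Algebra ℂ R] (t : Fin n → Rˣ), D.IsG (D.Tt t)
  exp : ∀ {R : Type} [CommRing R] [Algebra ℂ R] (Z : ι → R), D.IsG (expN (D.Y Z))
  conj : ∀ {R : Type} [CommRing R] [Algebra ℂ R] (g : Matrix (Fin N) (Fin N) R) (x : Fin n → R)
    (Z : ι → R), D.IsG g → (∀ i j, j < i → g i j = 0) →
    ∃ Z' : ι → R, g * (D.Dx x + D.Y Z) = (D.Dx x + D.Y Z') * g
  levi : ∀ {K : Type} [Field K] [Algebra ℂ K] (g : Matrix (Fin N) (Fin N) K), D.IsG g →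
    (∀ i j, j < i → g i j = 0) → ∃ t : Fin n → Kˣ, ∀ i, g i i = ((chi (D.wt i) t : Kˣ) : K)
  cent : ∀ (g : Matrix (Fin N) (Fin N) ℂ) (x : Fin n → ℂ), D.IsG g → D.Reg x →
    Commute g (D.Dx x) → ∃ t : Fin n → ℂˣ, g = D.Tt t
  weyl : ∀ β, ∃ (w : Matrix (Fin N) (Fin N) ℂ) (π : Equiv.Perm (Fin N)), D.IsG w ∧
    (∀ d : Fin N → ℂ, w * Matrix.diagonal d = Matrix.diagonal (fun i => d (π.symm i)) * w) ∧
    ∀ i, D.wt (π.symm i) = D.sw β (D.wt i)
  iwa : ∀ {K : Type} [Field K] [Algebra ℂ K] (V : ValuationSubring K),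
    (∀ z : ℂ, algebraMap ℂ K z ∈ V) → ∀ g : Matrix (Fin N) (Fin N) K, D.IsG g →
    ∃ k b : Matrix (Fin N) (Fin N) K, D.IsG k ∧ (∀ i j, k i j ∈ V) ∧ D.IsG b ∧
      (∀ i j, j < i → b i j = 0) ∧ g = k * b
  px_G : D.IsG D.px
  px_conj : D.px * (D.Y (fun β => MvPolynomial.C (D.ze β)) + D.Dx MvPolynomial.X) = D.sx * D.px
  sx_mem : ∀ x : Fin n → ℂ, D.sx.map (MvPolynomial.eval x) ∈ D.S
  sx_surj : ∀ s ∈ D.S, ∃ x : Fin n → ℂ, s = D.sx.map (MvPolynomial.eval x)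
  sx_refl : ∀ (β : ι) (x : Fin n → ℂ),
    D.sx.map (MvPolynomial.eval (D.sr β x)) = D.sx.map (MvPolynomial.eval x)
  nonss : ∀ (β : ι) (x : Fin n → ℂ), D.GenW β x →
    ¬ ∃ g : Matrix (Fin N) (Fin N) ℂ, IsUnit g.det ∧ g * D.Dx x = (D.Dx x + D.e) * g
  zc : ∀ β, ∃ z : Fin n → ℂˣ, (∀ γ, chi (D.rt γ) z = 1) ∧
    ∀ ν : Fin n → ℤ, (∃ a b : ℤ, a ≠ 0 ∧ a • ν = b • D.rt β) → chi ν z = 1 →
      ∃ k : ℤ, ν = k • D.rt β

end Pool.Agent.MTD
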