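import Pool.Agent.MTD.Exp1
import Pool.Agent.MP_c45d35_ag.WeylChar

namespace Pool.Agent.MTD

open Matrix
open Pool.Agent.MP_c45d35_ag (chi UpUni LowUni chi_add chi_mul chi_zero chi_one chi_inv chi_map chi_indep)

/-! ## The expansion in torus weights -/

section expansion
variable {n N : ℕ} {ι : Type} [Fintype ι]

/-- Points of `G^b × 𝔱^reg`. -/
abbrev XX {n N : ℕ} {ι : Type} (D : Dat n N ι) (b : ℕ) := (Fin b → D.Gs) × D.RegX

variable {D : Dat n N ι} {b : ℕ}

/-- the Laurent polynomial ring over functions on `G^{b+1} × 𝔱^reg` -/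
abbrev LL (D : Dat n N ι) (b : ℕ) := AddMonoidAlgebra (XX D (b + 1) → ℂ) (Fin n → ℤ)

/-- coordinates of the point `(g_0 T q⁻¹, g_a q⁻¹; s)` over `LL` -/
noncomputable def genL (D : Dat n N ι) (b : ℕ) : Idx N (b + 1) → LL D b
  | .inl (a, i, j) => ∑ l, AddMonoidAlgebra.single (if a = 0 then D.wt l else 0)
      (fun y => (y.1 a).1 i l * (D.qC y.2.1)⁻¹ l j)
  | .inr (i, j) => AddMonoidAlgebra.single 0 (fun y => D.sC y.2.1 i j)

/-- the expansion of the polynomial `P` -/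
noncomputable def Lx (D : Dat n N ι) (P : MvPolynomial (Idx N (b + 1)) ℂ) : LL D b :=
  MvPolynomial.aeval (genL D b) P

/-- the character `μ ↦ t^μ` -/
noncomputable def chiHom {n : ℕ} (t : Fin n → ℂˣ) : Multiplicative (Fin n → ℤ) →* ℂ where
  toFun μ := ((chi μ.toAdd t : ℂˣ) : ℂ)
  map_one' := by simp [chi_zero]
  map_mul' μ ν := by simp [chi_add]

/-- evaluation of a Laurent polynomial at a point and a torus element -/
noncomputable def evL (D : Dat n N ι) (y : XX D (b + 1)) (t : Fin n → ℂˣ) : LL D b →+* ℂ :=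
  AddMonoidAlgebra.liftNCRingHom (Pi.evalRingHom _ y) (chiHom t) (fun _ _ => Commute.all _ _)

theorem evL_single (y : XX D (b + 1)) (t : Fin n → ℂˣ) (μ : Fin n → ℤ)
    (f : XX D (b + 1) → ℂ) :
    evL D y t (AddMonoidAlgebra.single μ f) = f y * ((chi μ t : ℂˣ) : ℂ) :=
  AddMonoidAlgebra.liftNCRingHom_single _ _ _ _ _

/-- the value of `P` at the point attached to `(g, x)` and `t` -/
noncomputable def Phi (D : Dat n N ι) (P : MvPolynomial (Idx N (b + 1)) ℂ) (y : XX D (b + 1))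
    (t : Fin n → ℂˣ) : ℂ :=
  MvPolynomial.eval (co (fun a => (y.1 a).1 * (if a = 0 then D.Tt t else 1) * (D.qC y.2.1)⁻¹)
    (D.sC y.2.1)) P

theorem evL_Lx (P : MvPolynomial (Idx N (b + 1)) ℂ) (y : XX D (b + 1))
    (t : Fin n → ℂˣ) : evL D y t (Lx D P) = Phi D P y t := by
  unfold Lx Phi
  have h : (evL D y t).comp (MvPolynomial.aeval (genL D b)).toRingHom =
      MvPolynomial.eval (co (fun a => (y.1 a).1 * (if a = 0 then D.Tt t else 1) * (D.qC y.2.1)⁻¹)
        (D.sC y.2.1)) := by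
    refine MvPolynomial.ringHom_ext (fun c => ?_) (fun i => ?_)
    · have h1 : (MvPolynomial.aeval (genL D b)) (MvPolynomial.C c : MvPolynomial (Idx N (b + 1)) ℂ) =
          AddMonoidAlgebra.single 0 (fun _ => c) := by
        rw [MvPolynomial.aeval_C]
        rfl
      simp only [RingHom.comp_apply, AlgHom.toRingHom_eq_coe, RingHom.coe_coe, h1, evL_single,
        chi_zero, MvPolynomial.eval_C]
      simp
    · simp only [RingHom.comp_apply, AlgHom.toRingHom_eq_coe, RingHom.coe_coe,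
        MvPolynomial.aeval_X, MvPolynomial.eval_X]
      rcases i with ⟨a, i, j⟩ | ⟨i, j⟩
      · simp only [genL, map_sum, evL_single, co, Sum.elim_inl]
        by_cases ha : a = 0
        · simp only [ha, if_true]
          rw [Matrix.mul_apply]
          refine Finset.sum_congr rfl fun l _ => ?_
          rw [Dat.Tt, Matrix.mul_diagonal]
          ring
        · simp only [ha, if_false, Matrix.mul_one]
          rw [Matrix.mul_apply]
          refine Finset.sum_congr rfl fun l _ => ?_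
          simp [chi_zero]
      · simp [genL, evL_single, co, chi_zero]
  exact RingHom.congr_fun h P

/-- the support of the expansion -/
noncomputable def supp (D : Dat n N ι) (P : MvPolynomial (Idx N (b + 1)) ℂ) : Finset (Fin n → ℤ) :=
  (Lx D P).coeff.support

/-- the coefficient functions -/
noncomputable def cf (D : Dat n N ι) (P : MvPolynomial (Idx N (b + 1)) ℂ) (μ : Fin n → ℤ) :
    XX D (b + 1) → ℂ := (Lx D P).coeff μ

theorem cf_eq_zero {P : MvPolynomial (Idx N (b + 1)) ℂ} {μ : Fin n → ℤ}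
    (h : μ ∉ supp D P) : cf D P μ = 0 := by
  unfold cf
  exact Finsupp.notMem_support_iff.1 h

theorem mem_supp {P : MvPolynomial (Idx N (b + 1)) ℂ} {μ : Fin n → ℤ} :
    μ ∈ supp D P ↔ ∃ y, cf D P μ y ≠ 0 := by
  rw [supp, Finsupp.mem_support_iff, Ne, funext_iff]
  push Not
  rfl

theorem Phi_eq_sum {P : MvPolynomial (Idx N (b + 1)) ℂ} {s : Finset (Fin n → ℤ)}
    (hs : supp D P ⊆ s) (y : XX D (b + 1)) (t : Fin n → ℂˣ) :
    Phi D P y t = ∑ μ ∈ s, cf D P μ y * ((chi μ t : ℂˣ) : ℂ) := by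
  rw [← evL_Lx]
  conv_lhs => rw [← AddMonoidAlgebra.sum_coeff_single (Lx D P)]
  rw [Finsupp.sum, map_sum]
  simp only [evL_single]
  refine Finset.sum_subset hs fun μ _ hμ => ?_
  have := cf_eq_zero hμ
  unfold cf at this
  rw [this]
  simp

/-- linear independence of characters, finset form -/
theorem chi_indep' {n : ℕ} (s : Finset (Fin n → ℤ)) (c : (Fin n → ℤ) → ℂ)
    (h : ∀ t : Fin n → ℂˣ, ∑ μ ∈ s, c μ * ((chi μ t : ℂˣ) : ℂ) = 0) : ∀ μ ∈ s, c μ = 0 := by
  classical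
  have h0 := chi_indep (Finsupp.indicator s fun μ _ => c μ) (fun t => by
    rw [Finsupp.sum_of_support_subset _ (Finsupp.support_indicator_subset s _) _
      (by intros; simp)]
    rw [← h t]
    refine Finset.sum_congr rfl fun μ hμ => ?_
    rw [Finsupp.indicator_of_mem hμ])
  intro μ hμ
  have := DFunLike.congr_fun h0 μ
  rwa [Finsupp.indicator_of_mem hμ] at this

/-- coefficient functions are determined by the values -/
theorem cf_unique {P : MvPolynomial (Idx N (b + 1)) ℂ} {s : Finset (Fin n → ℤ)}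
    (hs : supp D P ⊆ s) (y : XX D (b + 1)) (c : (Fin n → ℤ) → ℂ)
    (h : ∀ t, Phi D P y t = ∑ μ ∈ s, c μ * ((chi μ t : ℂˣ) : ℂ)) : ∀ μ ∈ s, cf D P μ y = c μ := by
  intro μ hμ
  have := chi_indep' s (fun μ => cf D P μ y - c μ) (fun t => by
    simp only [sub_mul, Finset.sum_sub_distrib]
    rw [← Phi_eq_sum hs, ← h t, sub_self]) μ hμ
  exact sub_eq_zero.1 this

/-- the coordinate functions on `G^{b+1}` -/
def gS (D : Dat n N ι) (b : ℕ) : Set (XX D b → ℂ) := {f | ∃ a i j, f = fun y => (y.1 a).1 i j}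

theorem cf_mem (A : Ax D) (P : MvPolynomial (Idx N (b + 1)) ℂ) (μ : Fin n → ℤ) :
    cf D P μ ∈ Rt D (fun y : XX D (b + 1) => y.2) (gS D (b + 1)) := by
  unfold cf Lx
  induction P using MvPolynomial.induction_on generalizing μ with
  | C a =>
    rw [MvPolynomial.aeval_C]
    have : (algebraMap ℂ (LL D b)) a = AddMonoidAlgebra.single 0 (fun _ => a) := rfl
    rw [this, AddMonoidAlgebra.coeff_single]
    classical
    rw [Finsupp.single_apply]
    split_ifs
    · exact Rt_const _ _ a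
    · exact Subalgebra.zero_mem _
  | add p q hp hq =>
    rw [map_add, AddMonoidAlgebra.coeff_add, Finsupp.add_apply]
    exact Subalgebra.add_mem _ (hp μ) (hq μ)
  | mul_X p i hp =>
    rw [map_mul, MvPolynomial.aeval_X]
    have hg : ∀ (a : Fin (b + 1)) (i l : Fin N),
        (fun y : XX D (b + 1) => (y.1 a).1 i l) ∈ Rt D (fun y : XX D (b + 1) => y.2) (gS D (b + 1)) :=
      fun a i l => Rt_of_mem ⟨a, i, l, rfl⟩
    rcases i with ⟨a, i, j⟩ | ⟨i, j⟩
    · simp only [genL, Finset.mul_sum]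
      rw [AddMonoidAlgebra.coeff_sum, Finsupp.finsetSum_apply]
      refine Subalgebra.sum_mem _ fun l _ => ?_
      rw [AddMonoidAlgebra.coeff_mul_single_apply]
      refine Subalgebra.mul_mem _ (hp _) ?_
      exact Subalgebra.mul_mem _ (hg a i l) (Rt_qCinv A (fun y : XX D (b + 1) => y.2) _ l j)
    · simp only [genL]
      rw [AddMonoidAlgebra.coeff_mul_single_apply]
      exact Subalgebra.mul_mem _ (hp _) (Rt_sC (fun y : XX D (b + 1) => y.2) _ i j)

theorem Lx_mul (P Q : MvPolynomial (Idx N (b + 1)) ℂ) : Lx D (P * Q) = Lx D P * Lx D Q := by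
  simp [Lx]

theorem Lx_add (P Q : MvPolynomial (Idx N (b + 1)) ℂ) : Lx D (P + Q) = Lx D P + Lx D Q := by
  simp [Lx]

theorem cf_add (P Q : MvPolynomial (Idx N (b + 1)) ℂ) (μ : Fin n → ℤ) :
    cf D (P + Q) μ = cf D P μ + cf D Q μ := by
  simp [cf, Lx_add]

theorem cf_smul (c : ℂ) (P : MvPolynomial (Idx N (b + 1)) ℂ) (μ : Fin n → ℤ) :
    cf D (c • P) μ = c • cf D P μ := by
  simp [cf, Lx]

theorem cf_one (μ : Fin n → ℤ) :
    cf D (1 : MvPolynomial (Idx N (b + 1)) ℂ) μ = if μ = 0 then 1 else 0 := by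
  classical
  unfold cf Lx
  rw [map_one, AddMonoidAlgebra.one_def, AddMonoidAlgebra.coeff_single, Finsupp.single_apply]
  simp only [eq_comm]

theorem cf_zero (μ : Fin n → ℤ) :
    cf D (0 : MvPolynomial (Idx N (b + 1)) ℂ) μ = 0 := by
  unfold cf Lx
  simp

/-- leading coefficient of a product, for an order-like bound -/
theorem cf_mul_lead (P Q : MvPolynomial (Idx N (b + 1)) ℂ) (μ ν : Fin n → ℤ)
    (hP : ∀ κ ∈ supp D P, toLex κ ≤ toLex μ) (hQ : ∀ κ ∈ supp D Q, toLex κ ≤ toLex ν) :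
    cf D (P * Q) (μ + ν) = cf D P μ * cf D Q ν ∧ ∀ κ ∈ supp D (P * Q), toLex κ ≤ toLex (μ + ν) := by
  classical
  have hco : ∀ κ, cf D (P * Q) κ =
      ∑ α ∈ supp D P, cf D P α * cf D Q (-α + κ) := by
    intro κ
    unfold cf
    rw [Lx_mul, AddMonoidAlgebra.coeff_mul_apply_left]
    rfl
  constructor
  · rw [hco]
    by_cases hμ : μ ∈ supp D P
    · rw [Finset.sum_eq_single μ]
      · rw [neg_add_cancel_left]
      · intro α hα hne
        have hlt : toLex α < toLex μ := lt_of_le_of_ne (hP α hα) fun h => hne (toLex_inj.1 h)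
        have : -α + (μ + ν) ∉ supp D Q := by
          intro hmem
          have h1 := hQ _ hmem
          have h2 : toLex (α + (-α + (μ + ν))) < toLex (μ + ν) := by
            rw [toLex_add, toLex_add]
            exact add_lt_add_of_lt_of_le hlt h1
          rw [add_neg_cancel_left] at h2
          exact lt_irrefl _ h2
        rw [cf_eq_zero this, mul_zero]
      · intro h; exact absurd hμ h
    · rw [cf_eq_zero hμ, zero_mul]
      refine Finset.sum_eq_zero fun α hα => ?_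
      have hne : α ≠ μ := fun h => hμ (h ▸ hα)
      have hlt : toLex α < toLex μ := lt_of_le_of_ne (hP α hα) fun h => hne (toLex_inj.1 h)
      have : -α + (μ + ν) ∉ supp D Q := by
        intro hmem
        have h1 := hQ _ hmem
        have h2 : toLex (α + (-α + (μ + ν))) < toLex (μ + ν) := by
          rw [toLex_add, toLex_add]
          exact add_lt_add_of_lt_of_le hlt h1
        rw [add_neg_cancel_left] at h2
        exact lt_irrefl _ h2
      rw [cf_eq_zero this, mul_zero]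
  · intro κ hκ
    by_contra hlt
    rw [not_le] at hlt
    obtain ⟨y, hy⟩ := mem_supp.1 hκ
    apply hy
    rw [hco]
    have : ∑ α ∈ supp D P, cf D P α * cf D Q (-α + κ) = 0 := by
      refine Finset.sum_eq_zero fun α hα => ?_
      have : -α + κ ∉ supp D Q := by
        intro hmem
        have h1 := hQ _ hmem
        have h2 : toLex (α + (-α + κ)) ≤ toLex (μ + ν) := by
          rw [toLex_add, toLex_add]
          exact add_le_add (hP α hα) h1
        rw [add_neg_cancel_left] at h2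
        exact absurd hlt (not_lt.2 h2)
      rw [cf_eq_zero this, mul_zero]
    rw [this]; rfl

/-! ## Invariant polynomials -/

/-- invariance under the group scheme `K` -/
def InvP (D : Dat n N ι) (b : ℕ) (P : MvPolynomial (Idx N b) ℂ) : Prop :=
  ∀ (g g' h : Fin b → Matrix (Fin N) (Fin N) ℂ) (s : Matrix (Fin N) (Fin N) ℂ),
    (∀ a, D.IsG (g a)) → s ∈ D.S → (∀ a, D.IsG (h a) ∧ Commute (h a) s) →
    (List.ofFn h).prod = 1 → (∀ a, g' a = g a * h a) →
    MvPolynomial.eval (co g' s) P = MvPolynomial.eval (co g s) P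

/-- the torus in the centralizer of `s(x)` -/
theorem qTq_commute (A : Ax D) (x : D.RegX) (t : Fin n → ℂˣ) :
    D.IsG (D.qC x.1 * D.Tt t * (D.qC x.1)⁻¹) ∧ Commute (D.qC x.1 * D.Tt t * (D.qC x.1)⁻¹) (D.sC x.1) := by
  refine ⟨A.mul _ _ (A.mul _ _ (A.qC_isG x.1) (A.torus t)) (A.inv _ (A.qC_isG x.1)), ?_⟩
  have h1 := A.qC_conj x.2
  have h2 : (D.qC x.1)⁻¹ * D.sC x.1 = D.Dx x.1 * (D.qC x.1)⁻¹ := by
    calc (D.qC x.1)⁻¹ * D.sC x.1 = (D.qC x.1)⁻¹ * (D.sC x.1 * (D.qC x.1 * (D.qC x.1)⁻¹)) := by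
          rw [A.mul_inv (A.qC_isG x.1), Matrix.mul_one]
      _ = (D.qC x.1)⁻¹ * ((D.sC x.1 * D.qC x.1) * (D.qC x.1)⁻¹) := by rw [Matrix.mul_assoc]
      _ = (D.qC x.1)⁻¹ * (D.qC x.1 * D.Dx x.1 * (D.qC x.1)⁻¹) := by rw [h1]
      _ = ((D.qC x.1)⁻¹ * D.qC x.1) * D.Dx x.1 * (D.qC x.1)⁻¹ := by simp only [Matrix.mul_assoc]
      _ = D.Dx x.1 * (D.qC x.1)⁻¹ := by rw [A.inv_mul (A.qC_isG x.1), Matrix.one_mul]
  show D.qC x.1 * D.Tt t * (D.qC x.1)⁻¹ * D.sC x.1 = D.sC x.1 * (D.qC x.1 * D.Tt t * (D.qC x.1)⁻¹)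
  calc D.qC x.1 * D.Tt t * (D.qC x.1)⁻¹ * D.sC x.1 = D.qC x.1 * D.Tt t * ((D.qC x.1)⁻¹ * D.sC x.1) := by
        simp only [Matrix.mul_assoc]
    _ = D.qC x.1 * (D.Tt t * D.Dx x.1) * (D.qC x.1)⁻¹ := by rw [h2]; simp only [Matrix.mul_assoc]
    _ = (D.qC x.1 * D.Dx x.1) * D.Tt t * (D.qC x.1)⁻¹ := by rw [D.Tt_Dx_comm]; simp only [Matrix.mul_assoc]
    _ = D.sC x.1 * (D.qC x.1 * D.Tt t * (D.qC x.1)⁻¹) := by rw [h1]; simp only [Matrix.mul_assoc]

theorem prod_ofFn_conj (A : Ax D) (q : Matrix (Fin N) (Fin N) ℂ) (hq : D.IsG q) {b : ℕ}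
    (t : Fin b → Fin n → ℂˣ) :
    (List.ofFn fun a => q * D.Tt (t a) * q⁻¹).prod = q * D.Tt (∏ a, t a) * q⁻¹ := by
  induction b with
  | zero => simp [D.Tt_one, A.mul_inv hq]
  | succ b ih =>
    rw [List.ofFn_succ, List.prod_cons, ih, Fin.prod_univ_succ, D.Tt_mul]
    calc q * D.Tt (t 0) * q⁻¹ * (q * D.Tt (∏ a : Fin b, t a.succ) * q⁻¹) =
        q * D.Tt (t 0) * (q⁻¹ * q) * D.Tt (∏ a : Fin b, t a.succ) * q⁻¹ := by
          simp only [Matrix.mul_assoc]
      _ = _ := by rw [A.inv_mul hq, Matrix.mul_one]; simp only [Matrix.mul_assoc]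

/-- only the product of the torus elements matters -/
theorem eval_torus (A : Ax D) {P : MvPolynomial (Idx N b) ℂ} (hP : InvP D b P)
    (g : Fin b → Matrix (Fin N) (Fin N) ℂ) (hg : ∀ a, D.IsG (g a)) (x : D.RegX)
    (t t' : Fin b → Fin n → ℂˣ) (h : ∏ a, t a = ∏ a, t' a) :
    MvPolynomial.eval (co (fun a => g a * D.Tt (t a) * (D.qC x.1)⁻¹) (D.sC x.1)) P =
      MvPolynomial.eval (co (fun a => g a * D.Tt (t' a) * (D.qC x.1)⁻¹) (D.sC x.1)) P := by
  refine hP _ _ (fun a => D.qC x.1 * D.Tt ((t' a)⁻¹ * t a) * (D.qC x.1)⁻¹) (D.sC x.1)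
    (fun a => A.mul _ _ (A.mul _ _ (hg a) (A.torus _)) (A.inv _ (A.qC_isG x.1))) (A.sC_mem x.1)
    (fun a => qTq_commute A x _) ?_ (fun a => ?_)
  · rw [prod_ofFn_conj A _ (A.qC_isG x.1) (fun a => (t' a)⁻¹ * t a), Finset.prod_mul_distrib, h,
      Finset.prod_inv_distrib, inv_mul_cancel, D.Tt_one, Matrix.mul_one, A.mul_inv (A.qC_isG x.1)]
  · rw [D.Tt_mul]
    calc g a * D.Tt (t a) * (D.qC x.1)⁻¹ = g a * (D.Tt (t' a) * D.Tt (t' a)⁻¹) * D.Tt (t a) * (D.qC x.1)⁻¹ := by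
          rw [← D.Tt_mul, mul_inv_cancel, D.Tt_one, Matrix.mul_one]
      _ = g a * D.Tt (t' a) * 1 * (D.Tt (t' a)⁻¹ * D.Tt (t a)) * (D.qC x.1)⁻¹ := by
          simp only [Matrix.mul_assoc, Matrix.one_mul]
      _ = g a * D.Tt (t' a) * ((D.qC x.1)⁻¹ * D.qC x.1) * (D.Tt (t' a)⁻¹ * D.Tt (t a)) * (D.qC x.1)⁻¹ := by
          rw [A.inv_mul (A.qC_isG x.1)]
      _ = _ := by simp only [Matrix.mul_assoc]

/-- `Phi` at a point translated by torus elements -/
theorem Phi_torus (A : Ax D) {P : MvPolynomial (Idx N (b + 1)) ℂ} (hP : InvP D (b + 1) P)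
    (g g' : Fin (b + 1) → D.Gs) (x : D.RegX) (t : Fin (b + 1) → Fin n → ℂˣ)
    (hg : ∀ a, (g' a).1 = (g a).1 * D.Tt (t a)) (t' : Fin n → ℂˣ) :
    Phi D P (g', x) t' = Phi D P (g, x) (t' * ∏ a, t a) := by
  unfold Phi
  have e1 : (fun a => (g' a).1 * (if a = 0 then (D.Tt t' : Matrix (Fin N) (Fin N) ℂ) else 1) *
      (D.qC x.1)⁻¹) =
      fun a => (g a).1 * D.Tt (t a * (if a = 0 then t' else 1)) * (D.qC x.1)⁻¹ := by
    funext a
    rw [hg a, D.Tt_mul]
    by_cases ha : a = 0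
    · simp only [ha, if_true, Matrix.mul_assoc]
    · simp only [ha, if_false, D.Tt_one, Matrix.mul_one]
  have e2 : (fun a => (g a).1 *
      (if a = 0 then (D.Tt (t' * ∏ a, t a) : Matrix (Fin N) (Fin N) ℂ) else 1) * (D.qC x.1)⁻¹) =
      fun a => (g a).1 * D.Tt (if a = 0 then (t' * ∏ a, t a) else 1) * (D.qC x.1)⁻¹ := by
    funext a
    by_cases ha : a = 0
    · simp only [ha, if_true]
    · simp only [ha, if_false, D.Tt_one]
  simp only [e1, e2]
  refine eval_torus A hP _ (fun a => (g a).2) x _ _ ?_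
  rw [Finset.prod_mul_distrib, Finset.prod_ite_eq' Finset.univ (0 : Fin (b + 1)) (fun _ => t'),
    Finset.prod_ite_eq' Finset.univ (0 : Fin (b + 1)) (fun _ => t' * ∏ a, t a)]
  simp [mul_comm]

/-- semi-invariance of the coefficient functions -/
theorem cf_torus (A : Ax D) {P : MvPolynomial (Idx N (b + 1)) ℂ} (hP : InvP D (b + 1) P)
    (μ : Fin n → ℤ) (g g' : Fin (b + 1) → D.Gs) (x : D.RegX)
    (t : Fin (b + 1) → Fin n → ℂˣ) (hg : ∀ a, (g' a).1 = (g a).1 * D.Tt (t a)) :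
    cf D P μ (g', x) = ((∏ a, chi μ (t a) : ℂˣ) : ℂ) * cf D P μ (g, x) := by
  by_cases hμ : μ ∈ supp D P
  · refine cf_unique (subset_refl _) (g', x)
      (fun μ => ((∏ a, chi μ (t a) : ℂˣ) : ℂ) * cf D P μ (g, x)) (fun t' => ?_) μ hμ
    rw [Phi_torus A hP g g' x t hg, Phi_eq_sum (subset_refl _)]
    refine Finset.sum_congr rfl fun μ _ => ?_
    rw [chi_mul]
    have : chi μ (∏ a, t a) = ∏ a, chi μ (t a) := by
      classical
      induction (Finset.univ : Finset (Fin (b + 1))) using Finset.induction_on with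
      | empty => simp [chi_one]
      | insert a s ha ih => rw [Finset.prod_insert ha, Finset.prod_insert ha, chi_mul, ih]
    rw [this]
    push_cast
    ring
  · rw [cf_eq_zero hμ]
    simp

end expansion

end Pool.Agent.MTD
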