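import Pool.Agent.MTD.Int2
import Pool.Agent.MP_c45d35_ag.ICL

/-! # MTD : finite generation

Port of `Pool/Agent/MP_c45d35_ag/Sagbi.lean`, `FinA.lean`, `FinB.lean`, `FinC.lean`. -/

namespace Pool.Agent.MTD

open Matrix Filter Topology
open Pool.Agent.MP_c45d35_ag (chi UpUni LowUni chi_add chi_mul chi_zero chi_one chi_inv chi_map
  fg_of_integral)

theorem sagbi {A Γ : Type*} [CommRing A] [Algebra ℂ A] [CommRing Γ] [Algebra ℂ Γ] {σ : Type}
    (Good : (σ →₀ ℕ) → A → Γ → Prop) (hone : Good 0 1 1) (hzero : ∀ m, Good m 0 0)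
    (hadd : ∀ m f b f' b', Good m f b → Good m f' b' → Good m (f + f') (b + b'))
    (hsmul : ∀ m f b (c : ℂ), Good m f b → Good m (c • f) (c • b))
    (hmul : ∀ m m' f b f' b', Good m f b → Good m' f' b' → Good (m + m') (f * f') (b * b'))
    (lt : (σ →₀ ℕ) → (σ →₀ ℕ) → Prop) (hwf : WellFounded lt)
    (hdesc : ∀ m f, Good m f 0 → f = 0 ∨ ∃ m' b', lt m' m ∧ Good m' f b')
    (hex : ∀ f, ∃ m b, Good m f b) (B : Subalgebra ℂ (MvPolynomial σ Γ))
    (hB : ∀ p, p ∈ B ↔ ∀ m, ∃ f, Good m f (MvPolynomial.coeff m p)) (hfg : B.FG) :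
    Algebra.FiniteType ℂ A := by
  classical
  obtain ⟨T, hT⟩ := hfg
  have hTB : ∀ p ∈ T, p ∈ B := by
    intro p hp
    rw [← hT]
    exact Algebra.subset_adjoin hp
  have hch : ∀ (p : MvPolynomial σ Γ) (m : σ →₀ ℕ), ∃ f : A, p ∈ T →
      Good m f (MvPolynomial.coeff m p) := by
    intro p m
    by_cases hp : p ∈ T
    · obtain ⟨f, hf⟩ := (hB p).1 (hTB p hp) m
      exact ⟨f, fun _ => hf⟩
    · exact ⟨0, fun h => absurd h hp⟩
  choose F hF using hch
  set G : Finset A := T.biUnion fun p => p.support.image fun m => F p m with hG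
  set A0 : Subalgebra ℂ A := Algebra.adjoin ℂ (G : Set A) with hA0
  have hsum : ∀ {ι : Type} (s : Finset ι) (m : σ →₀ ℕ) (f : ι → A) (b : ι → Γ),
      (∀ i ∈ s, Good m (f i) (b i)) → Good m (∑ i ∈ s, f i) (∑ i ∈ s, b i) := by
    intro ι s m f b
    induction s using Finset.induction_on with
    | empty => intro _; simpa using hzero m
    | insert a s ha ih =>
      intro h
      rw [Finset.sum_insert ha, Finset.sum_insert ha]
      exact hadd _ _ _ _ _ (h a (Finset.mem_insert_self a s))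
        (ih fun i hi => h i (Finset.mem_insert_of_mem hi))
  have key : ∀ p ∈ B, ∀ m, ∃ f ∈ A0, Good m f (MvPolynomial.coeff m p) := by
    intro p hp
    rw [← hT] at hp
    induction hp using Algebra.adjoin_induction with
    | mem p hp =>
      intro m
      by_cases hm : m ∈ p.support
      · refine ⟨F p m, ?_, hF p m hp⟩
        apply Algebra.subset_adjoin
        rw [hG]
        simp only [Finset.coe_biUnion, Finset.mem_coe, Set.mem_iUnion]
        exact ⟨p, hp, Finset.mem_coe.2 (Finset.mem_image.2 ⟨m, hm, rfl⟩)⟩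
      · rw [MvPolynomial.notMem_support_iff.1 hm]
        exact ⟨0, A0.zero_mem, hzero m⟩
    | algebraMap r =>
      intro m
      rw [MvPolynomial.algebraMap_apply, MvPolynomial.coeff_C]
      split_ifs with h
      · subst h
        refine ⟨algebraMap ℂ A r, A0.algebraMap_mem r, ?_⟩
        rw [Algebra.algebraMap_eq_smul_one, Algebra.algebraMap_eq_smul_one]
        exact hsmul _ _ _ _ hone
      · exact ⟨0, A0.zero_mem, hzero m⟩
    | add p q _ _ ihp ihq =>
      intro m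
      obtain ⟨f, hf, hf'⟩ := ihp m
      obtain ⟨g, hg, hg'⟩ := ihq m
      rw [MvPolynomial.coeff_add]
      exact ⟨f + g, A0.add_mem hf hg, hadd _ _ _ _ _ hf' hg'⟩
    | mul p q _ _ ihp ihq =>
      intro m
      choose f hf hf' using ihp
      choose g hg hg' using ihq
      rw [MvPolynomial.coeff_mul]
      refine ⟨∑ x ∈ Finset.HasAntidiagonal.antidiagonal m, f x.1 * g x.2,
        A0.sum_mem fun x _ => A0.mul_mem (hf _) (hg _), ?_⟩
      apply hsum
      intro x hx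
      have := hmul _ _ _ _ _ _ (hf' x.1) (hg' x.2)
      rwa [Finset.HasAntidiagonal.mem_antidiagonal.1 hx] at this
  have hall : ∀ m f b, Good m f b → f ∈ A0 := by
    intro m
    induction m using hwf.induction with
    | h m ih =>
    intro f b hf
    have hp : MvPolynomial.monomial m b ∈ B := by
      rw [hB]
      intro m'
      rw [MvPolynomial.coeff_monomial]
      split_ifs with h
      · subst h
        exact ⟨f, hf⟩
      · exact ⟨0, hzero m'⟩
    obtain ⟨f', hf', hgood⟩ := key _ hp m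
    rw [MvPolynomial.coeff_monomial, if_pos rfl] at hgood
    have h1 := hadd _ _ _ _ _ hf (hsmul _ _ _ (-1) hgood)
    have h2 : b + (-1 : ℂ) • b = 0 := by rw [neg_one_smul, add_neg_cancel]
    rw [h2, neg_one_smul, ← sub_eq_add_neg] at h1
    have h3 : f - f' ∈ A0 := by
      rcases hdesc _ _ h1 with h | ⟨m', b', hlt, hg⟩
      · rw [h]
        exact A0.zero_mem
      · exact ih m' hlt _ _ hg
    have h4 := A0.add_mem h3 hf'
    rwa [sub_add_cancel] at h4
  refine ⟨⟨G, ?_⟩⟩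
  rw [eq_top_iff]
  intro f _
  obtain ⟨m, b, h⟩ := hex f
  exact hall m f b h


section final
variable {n N : ℕ} {ι : Type} [Fintype ι] {D : Dat n N ι} {b : ℕ}

/-- `P` represents `F` -/
def Rep (D : Dat n N ι) (P : MvPolynomial (Idx N b) ℂ) (F : Pt D.Gs D.S b → ℂ) : Prop :=
  ∀ y : Pt D.Gs D.S b, F y = MvPolynomial.eval (co (fun a => (y.1 a).1) y.2.1) P

theorem invP_of_rep (A : Ax D) {P : MvPolynomial (Idx N b) ℂ} {F : Pt D.Gs D.S b → ℂ}
    (hF : F ∈ MTR D.Gs D.S b) (h : Rep D P F) : InvP D b P := by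
  intro g g' hh s hg hs hc hprod hg'
  have hg'G : ∀ a, D.IsG (g' a) := fun a => by rw [hg' a]; exact A.mul _ _ (hg a) (hc a).1
  have h1 := h (fun a => ⟨g' a, hg'G a⟩, ⟨s, hs⟩)
  have h2 := h (fun a => ⟨g a, hg a⟩, ⟨s, hs⟩)
  have h3 := hF.2 (fun a => ⟨g a, hg a⟩, ⟨s, hs⟩) (fun a => ⟨g' a, hg'G a⟩, ⟨s, hs⟩) hh hc hprod
    rfl hg'
  rw [h1, h2] at h3
  exact h3

theorem rep_of_invP {P : MvPolynomial (Idx N b) ℂ} (h : InvP D b P) :
    ∃ F : ↥(MTR D.Gs D.S b), Rep D P F.1 := by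
  refine ⟨⟨fun y => MvPolynomial.eval (co (fun a => (y.1 a).1) y.2.1) P,
    ⟨P, fun y => rfl⟩, ?_⟩, fun y => rfl⟩
  intro y y' hh hc hp hs hg
  have h1 := h (fun a => (y.1 a).1) (fun a => (y'.1 a).1) hh y.2.1 (fun a => (y.1 a).2) y.2.2 hc
    hp hg
  show MvPolynomial.eval (co (fun a => (y'.1 a).1) y'.2.1) P =
    MvPolynomial.eval (co (fun a => (y.1 a).1) y.2.1) P
  rw [hs]
  exact h1

/-- `f` has a representative with leading weight at most `λ` and normalised leading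
coefficient `c` -/
def Good0 (D : Dat n N ι) (b : ℕ) (lam : Fin n → ℤ) (f : ↥(MTR D.Gs D.S (b + 1)))
    (c : GamT D (b + 1)) : Prop :=
  ∃ P : MvPolynomial (Idx N (b + 1)) ℂ, Rep D P f.1 ∧ IsLead D P lam ∧
    ∀ y, GamT.fn c y = Eu D lam y.2.1 * cf D P lam y

theorem good0_one : Good0 D b 0 1 1 := by
  refine ⟨1, fun y => by simp, ?_, fun y => ?_⟩
  · intro κ hκ
    obtain ⟨y, hy⟩ := mem_supp.1 hκ
    rw [cf_one] at hy
    by_cases h : κ = 0
    · rw [h]
    · rw [if_neg h] at hy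
      exact absurd rfl hy
  · rw [Eu_zero, cf_one, if_pos rfl, map_one]
    simp

theorem supp_zero : supp D (0 : MvPolynomial (Idx N (b + 1)) ℂ) = ∅ := by
  rw [Finset.eq_empty_iff_forall_notMem]
  intro κ hκ
  obtain ⟨y, hy⟩ := mem_supp.1 hκ
  rw [cf_zero] at hy
  exact hy rfl

theorem good0_zero (lam : Fin n → ℤ) : Good0 D b lam 0 0 := by
  refine ⟨0, fun y => by simp, ?_, fun y => ?_⟩
  · intro κ hκ
    rw [supp_zero] at hκ
    exact absurd hκ (Finset.notMem_empty κ)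
  · rw [cf_zero, map_zero]
    simp

theorem good0_add (lam : Fin n → ℤ) (f : ↥(MTR D.Gs D.S (b + 1))) (c : GamT D (b + 1))
    (f' : ↥(MTR D.Gs D.S (b + 1))) (c' : GamT D (b + 1)) (h : Good0 D b lam f c)
    (h' : Good0 D b lam f' c') : Good0 D b lam (f + f') (c + c') := by
  obtain ⟨P, h1, h2, h3⟩ := h
  obtain ⟨P', h1', h2', h3'⟩ := h'
  refine ⟨P + P', fun y => ?_, ?_, fun y => ?_⟩
  · rw [map_add, ← h1 y, ← h1' y]
    rfl
  · intro κ hκ
    obtain ⟨y, hy⟩ := mem_supp.1 hκ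
    rw [cf_add, Pi.add_apply] at hy
    by_cases h4 : κ ∈ supp D P
    · exact h2 κ h4
    · by_cases h5 : κ ∈ supp D P'
      · exact h2' κ h5
      · rw [cf_eq_zero h4, cf_eq_zero h5] at hy
        simp at hy
  · rw [map_add, cf_add, Pi.add_apply, Pi.add_apply, mul_add, h3, h3']

theorem good0_smul (lam : Fin n → ℤ) (f : ↥(MTR D.Gs D.S (b + 1))) (c : GamT D (b + 1)) (z : ℂ)
    (h : Good0 D b lam f c) : Good0 D b lam (z • f) (z • c) := by
  obtain ⟨P, h1, h2, h3⟩ := h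
  refine ⟨z • P, fun y => ?_, ?_, fun y => ?_⟩
  · rw [MvPolynomial.smul_eval, ← h1 y]
    rfl
  · intro κ hκ
    obtain ⟨y, hy⟩ := mem_supp.1 hκ
    rw [cf_smul, Pi.smul_apply] at hy
    by_cases h4 : κ ∈ supp D P
    · exact h2 κ h4
    · rw [cf_eq_zero h4] at hy
      simp at hy
  · rw [map_smul, cf_smul, Pi.smul_apply, Pi.smul_apply, h3]
    simp only [smul_eq_mul]
    ring

theorem good0_mul (lam lam' : Fin n → ℤ) (hl : D.Dom lam) (hl' : D.Dom lam')
    (f : ↥(MTR D.Gs D.S (b + 1))) (c : GamT D (b + 1))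
    (f' : ↥(MTR D.Gs D.S (b + 1))) (c' : GamT D (b + 1)) (h : Good0 D b lam f c)
    (h' : Good0 D b lam' f' c') : Good0 D b (lam + lam') (f * f') (c * c') := by
  obtain ⟨P, h1, h2, h3⟩ := h
  obtain ⟨P', h1', h2', h3'⟩ := h'
  obtain ⟨h4, h5⟩ := cf_mul_lead P P' lam lam' h2 h2'
  refine ⟨P * P', fun y => ?_, ?_, fun y => ?_⟩
  · rw [map_mul, ← h1 y, ← h1' y]
    rfl
  · exact h5
  · rw [map_mul, h4, Pi.mul_apply, Pi.mul_apply, h3, h3', Eu_add hl hl']
    ring

/-! ### Functions with the pole bound are polynomial -/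

theorem exists_gam_of_PB (A : Ax D) (lam : Fin n → ℤ) (f : XX D b → ℂ) (hf : PB D b lam f) :
    ∃ c : GamT D b, GamT.fn c = f := by
  obtain ⟨H, hH⟩ := hf
  set φ : Par N ι b ⊕ Fin n → MvPolynomial (IdxX n N b) ℂ :=
    Sum.elim (Sum.elim (fun p => MvPolynomial.X (Sum.inl p)) (fun _ => 0))
      (fun k => MvPolynomial.X (Sum.inr k)) with hφ
  refine ⟨toGam D b (MvPolynomial.bind₁ φ H), ?_⟩
  funext y
  rw [fn_toGam]
  have h1 := hH y.1 y.1 (fun _ => 0) (fun _ => 1) (fun _ => 1) y.2 (fun a => by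
    refine ⟨Pool.Agent.MP_c45d35_ag.UpUni.one, A.one, ?_, ?_⟩
    · rw [D.Y_zero, add_zero, Matrix.one_mul, Matrix.mul_one]
    · rw [D.Tt_one, Matrix.mul_one, Matrix.mul_one])
  simp only [chi_one, Finset.prod_const_one, Units.val_one, one_mul] at h1
  have h2 : f y = f (y.1, y.2) := rfl
  rw [h2, h1]
  have h3 : MvPolynomial.eval (coX (fun a => (y.1 a).1) y.2.1) (MvPolynomial.bind₁ φ H) =
      MvPolynomial.eval (fun i => MvPolynomial.eval (coX (fun a => (y.1 a).1) y.2.1) (φ i)) H := by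
    rw [MvPolynomial.eval, MvPolynomial.eval₂Hom_bind₁]
    rfl
  rw [h3]
  congr 1
  refine congrArg _ ?_
  funext i
  rcases i with (p | p) | p
  · simp [hφ, coX, parOf]
  · simp [hφ, coX, parOf]
  · simp [hφ, coX]

theorem exists_coef (A : Ax D) {f : ↥(MTR D.Gs D.S (b + 1))}
    {P : MvPolynomial (Idx N (b + 1)) ℂ}
    (hP : Rep D P f.1) (lam : Fin n → ℤ) (hlead : IsLead D P lam) :
    ∃ c : GamT D (b + 1), Good0 D b lam f c := by
  obtain ⟨c, hc⟩ := exists_gam_of_PB A lam _ (pole_bound A (invP_of_rep A f.2 hP) lam hlead)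
  exact ⟨c, P, hP, hlead, fun y => by rw [hc]⟩

/-! ### A function with empty support vanishes -/

theorem Phi_one (A : Ax D) (P : MvPolynomial (Idx N (b + 1)) ℂ) (g : Fin (b + 1) → D.Gs)
    (x : D.RegX) :
    Phi D P ((fun a => ⟨(g a).1 * D.qC x.1, A.mul _ _ (g a).2 (A.qC_isG x.1)⟩), x) 1 =
      MvPolynomial.eval (co (fun a => (g a).1) (D.sC x.1)) P := by
  unfold Phi
  have h : (fun a : Fin (b + 1) => ((g a).1 * D.qC x.1 *
      (if a = 0 then (D.Tt (1 : Fin n → ℂˣ) : Matrix (Fin N) (Fin N) ℂ) else 1) *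
        (D.qC x.1)⁻¹)) = fun a => (g a).1 := by
    funext a
    have : (if a = 0 then (D.Tt (1 : Fin n → ℂˣ) : Matrix (Fin N) (Fin N) ℂ) else 1) = 1 := by
      rw [D.Tt_one, ite_self]
    rw [this, Matrix.mul_one, Matrix.mul_assoc, A.mul_inv (A.qC_isG x.1), Matrix.mul_one]
  show MvPolynomial.eval (co (fun a : Fin (b + 1) => ((g a).1 * D.qC x.1 *
      (if a = 0 then (D.Tt (1 : Fin n → ℂˣ) : Matrix (Fin N) (Fin N) ℂ) else 1) *
        (D.qC x.1)⁻¹)) (D.sC x.1)) P = _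
  rw [h]

theorem eval_eq_zero_of_supp (A : Ax D) {P : MvPolynomial (Idx N (b + 1)) ℂ}
    (h : supp D P = ∅) (g : Fin (b + 1) → D.Gs) (x : Fin n → ℂ) :
    MvPolynomial.eval (co (fun a => (g a).1) (D.sC x)) P = 0 := by
  have hreg : ∀ x : D.RegX, MvPolynomial.eval (co (fun a => (g a).1) (D.sC x.1)) P = 0 := by
    intro x
    rw [← Phi_one A, Phi_eq_sum (subset_refl _), h, Finset.sum_empty]
  obtain ⟨v, hv⟩ := exists_reg A
  have hc : Continuous fun t : ℂ =>
      MvPolynomial.eval (co (fun a => (g a).1) (D.sC (x + t • v))) P := by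
    refine (MvPolynomial.continuous_eval P).comp (continuous_pi fun i => ?_)
    rcases i with i | ⟨i, j⟩
    · exact continuous_const
    · exact (continuous_id.matrix_elem i j).comp (continuous_sC.comp (continuous_curve x v))
  have hz : ∀ᶠ t in 𝓝[≠] (0 : ℂ),
      MvPolynomial.eval (co (fun a => (g a).1) (D.sC (x + t • v))) P = 0 := by
    filter_upwards [eventually_reg x v hv] with t ht
    exact hreg ⟨_, ht⟩
  have h1 : Tendsto (fun t : ℂ => MvPolynomial.eval (co (fun a => (g a).1) (D.sC (x + t • v))) P)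
      (𝓝[≠] (0 : ℂ)) (𝓝 (MvPolynomial.eval (co (fun a => (g a).1) (D.sC x)) P)) := by
    have h0 := hc.tendsto 0
    simp only [zero_smul, add_zero] at h0
    exact h0.mono_left nhdsWithin_le_nhds
  have h2 : Tendsto (fun t : ℂ => MvPolynomial.eval (co (fun a => (g a).1) (D.sC (x + t • v))) P)
      (𝓝[≠] (0 : ℂ)) (𝓝 0) :=
    (tendsto_const_nhds (x := (0 : ℂ)) (f := 𝓝[≠] (0 : ℂ))).congr' (hz.mono fun t ht => ht.symm)
  exact tendsto_nhds_unique h1 h2

theorem eq_zero_of_supp (A : Ax D) {f : ↥(MTR D.Gs D.S (b + 1))}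
    {P : MvPolynomial (Idx N (b + 1)) ℂ}
    (hP : Rep D P f.1) (h : supp D P = ∅) : f = 0 := by
  refine Subtype.ext ?_
  funext y
  obtain ⟨x, hx⟩ := A.exists_sC y.2.2
  rw [hP y, hx]
  exact eval_eq_zero_of_supp A h y.1 x

/-- the lexicographically largest weight -/
theorem exists_lead (A : Ax D) {P : MvPolynomial (Idx N (b + 1)) ℂ} (h : supp D P ≠ ∅) :
    ∃ μ : Fin n → ℤ, D.Dom μ ∧ μ ∈ supp D P ∧ IsLead D P μ := by
  obtain ⟨μ, hμ, hmax⟩ := Finset.exists_max_image (supp D P) (fun κ => toLex κ)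
    (Finset.nonempty_iff_ne_empty.2 h)
  exact ⟨μ, dom_of_lead A (fun κ hκ => hmax κ hκ) hμ, hμ, fun κ hκ => hmax κ hκ⟩

theorem good0_desc (A : Ax D) (lam : Fin n → ℤ) (f : ↥(MTR D.Gs D.S (b + 1)))
    (h : Good0 D b lam f 0) :
    f = 0 ∨ ∃ μ c', D.Dom μ ∧ toLex μ < toLex lam ∧ Good0 D b μ f c' := by
  obtain ⟨P, h1, h2, h3⟩ := h
  by_cases hs : supp D P = ∅
  · exact Or.inl (eq_zero_of_supp A h1 hs)
  · right
    obtain ⟨μ, hdom, hμ, hlead⟩ := exists_lead A hs
    obtain ⟨c', hc'⟩ := exists_coef A h1 μ hlead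
    refine ⟨μ, c', hdom, ?_, hc'⟩
    refine lt_of_le_of_ne (h2 _ hμ) fun heq => ?_
    have h4 : μ = lam := toLex_inj.1 heq
    rw [h4] at hμ
    obtain ⟨y, hy⟩ := mem_supp.1 hμ
    have h5 := h3 y
    rw [map_zero] at h5
    exact hy ((mul_eq_zero.1 h5.symm).resolve_left (Eu_ne_zero lam y.2.2))

theorem good0_ex (A : Ax D) (f : ↥(MTR D.Gs D.S (b + 1))) :
    ∃ μ c, D.Dom μ ∧ Good0 D b μ f c := by
  obtain ⟨P, hP⟩ := f.2.1
  by_cases hs : supp D P = ∅
  · have : f = 0 := eq_zero_of_supp A hP hs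
    rw [this]
    exact ⟨0, 0, dom_zero, good0_zero 0⟩
  · obtain ⟨μ, hdom, _, hlead⟩ := exists_lead A hs
    obtain ⟨c', hc'⟩ := exists_coef A (f := f) hP μ hlead
    exact ⟨μ, c', hdom, hc'⟩

/-! ### The order on the exponents -/

/-- `Good0` indexed by exponents -/
def Good (D : Dat n N ι) (b : ℕ) (m : ι →₀ ℕ) (f : ↥(MTR D.Gs D.S (b + 1)))
    (c : GamT D (b + 1)) : Prop :=
  (∃ μ, D.Dom μ ∧ ex D μ = m ∧ Good0 D b μ f c) ∨ (f = 0 ∧ c = 0)

/-- the order on the exponents -/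
def ltL (D : Dat n N ι) (m' m : ι →₀ ℕ) : Prop :=
  ∃ μ' μ, D.Dom μ' ∧ D.Dom μ ∧ ex D μ' = m' ∧ ex D μ = m ∧ toLex μ' < toLex μ

theorem ltL_wf (A : Ax D) {κ : Type} [Fintype κ] {G : Gens N κ} (B : GAx D G) :
    WellFounded (ltL D) := by
  classical
  obtain ⟨M, hM, hcone⟩ := B.cone
  rw [wellFounded_iff_isEmpty_descending_chain]
  refine ⟨fun ⟨f, hf⟩ => ?_⟩
  choose μ' μ hμ' hμ he' he hlt using hf
  -- `μ k` is the weight of `f k`, and `μ' k` that of `f (k + 1)`
  have hnext : ∀ k, μ' k = μ (k + 1) := fun k =>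
    ex_inj A (hμ' k) (hμ (k + 1)) (by rw [he', he])
  have hanti : ∀ k, toLex (μ (k + 1)) < toLex (μ k) := fun k => by
    rw [← hnext]; exact hlt k
  have hanti' : StrictAnti fun k => toLex (μ k) := strictAnti_nat_of_succ_lt hanti
  choose c hc using fun k => hcone (μ k) (hμ k)
  obtain ⟨i, j, hij, hle⟩ := wellQuasiOrdered_le (α := κ → ℕ) c
  have h1 : M • μ j = M • μ i + ∑ k, (c j k - c i k) • G.lam D k := by
    rw [hc, hc, ← Finset.sum_add_distrib]
    refine Finset.sum_congr rfl fun k _ => ?_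
    rw [← add_smul, Nat.add_sub_cancel' (hle k)]
  have h2 : 0 ≤ toLex (∑ k, (c j k - c i k) • G.lam D k) := by
    have h3 : ∀ s : Finset κ, 0 ≤ toLex (∑ k ∈ s, (c j k - c i k) • G.lam D k) := by
      intro s
      induction s using Finset.induction_on with
      | empty => exact le_of_eq (by rw [Finset.sum_empty]; rfl)
      | insert a s ha ih =>
        rw [Finset.sum_insert ha, toLex_add]
        refine add_nonneg ?_ ih
        have : toLex ((c j a - c i a) • G.lam D a) = (c j a - c i a) • toLex (G.lam D a) := rfl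
        rw [this]
        exact nsmul_nonneg (B.lpos a) _
    exact h3 Finset.univ
  have h4 : toLex (M • μ i) ≤ toLex (M • μ j) := by
    rw [h1, toLex_add]
    exact le_add_of_nonneg_right h2
  have h5 : toLex (M • μ j) < toLex (M • μ i) := by
    have h6 := hanti' hij
    have h7 : ∀ ν : Fin n → ℤ, toLex (M • ν) = M • toLex ν := fun _ => rfl
    rw [h7, h7]
    exact nsmul_lt_nsmul_right hM.ne' h6
  exact absurd h4 (not_le.2 h5)

/-! ### The algebra of leading coefficients -/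

theorem good_zero (m : ι →₀ ℕ) : Good D b m 0 0 := Or.inr ⟨rfl, rfl⟩

theorem good_one : Good D b 0 1 1 := Or.inl ⟨0, dom_zero, ex_zero, good0_one⟩

theorem good_add (A : Ax D) (m : ι →₀ ℕ) (f : ↥(MTR D.Gs D.S (b + 1))) (c : GamT D (b + 1))
    (f' : ↥(MTR D.Gs D.S (b + 1))) (c' : GamT D (b + 1)) (h : Good D b m f c)
    (h' : Good D b m f' c') : Good D b m (f + f') (c + c') := by
  rcases h with ⟨μ, h1, h2, h3⟩ | ⟨rfl, rfl⟩
  · rcases h' with ⟨μ', h1', h2', h3'⟩ | ⟨rfl, rfl⟩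
    · have he : μ' = μ := ex_inj A h1' h1 (by rw [h2, h2'])
      subst he
      exact Or.inl ⟨μ', h1, h2, good0_add _ _ _ _ _ h3 h3'⟩
    · rw [add_zero, add_zero]
      exact Or.inl ⟨μ, h1, h2, h3⟩
  · rw [zero_add, zero_add]
    exact h'

theorem good_smul (m : ι →₀ ℕ) (f : ↥(MTR D.Gs D.S (b + 1))) (c : GamT D (b + 1)) (z : ℂ)
    (h : Good D b m f c) : Good D b m (z • f) (z • c) := by
  rcases h with ⟨μ, h1, h2, h3⟩ | ⟨rfl, rfl⟩
  · exact Or.inl ⟨μ, h1, h2, good0_smul _ _ _ _ h3⟩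
  · rw [smul_zero, smul_zero]
    exact Or.inr ⟨rfl, rfl⟩

theorem good_mul (m m' : ι →₀ ℕ) (f : ↥(MTR D.Gs D.S (b + 1))) (c : GamT D (b + 1))
    (f' : ↥(MTR D.Gs D.S (b + 1))) (c' : GamT D (b + 1)) (h : Good D b m f c)
    (h' : Good D b m' f' c') : Good D b (m + m') (f * f') (c * c') := by
  rcases h with ⟨μ, h1, h2, h3⟩ | ⟨rfl, rfl⟩
  · rcases h' with ⟨μ', h1', h2', h3'⟩ | ⟨rfl, rfl⟩
    · exact Or.inl ⟨μ + μ', dom_add h1 h1', by rw [ex_add h1 h1', h2, h2'],
        good0_mul _ _ h1 h1' _ _ _ _ h3 h3'⟩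
    · rw [mul_zero, mul_zero]
      exact Or.inr ⟨rfl, rfl⟩
  · rw [zero_mul, zero_mul]
    exact Or.inr ⟨rfl, rfl⟩

theorem good_desc (A : Ax D) (m : ι →₀ ℕ) (f : ↥(MTR D.Gs D.S (b + 1)))
    (h : Good D b m f 0) : f = 0 ∨ ∃ m' c', ltL D m' m ∧ Good D b m' f c' := by
  rcases h with ⟨μ, h1, h2, h3⟩ | ⟨rfl, _⟩
  · rcases good0_desc A μ f h3 with h | ⟨μ', c', h4, h5, h6⟩
    · exact Or.inl h
    · exact Or.inr ⟨ex D μ', c', ⟨μ', μ, h4, h1, rfl, h2, h5⟩, Or.inl ⟨μ', h4, rfl, h6⟩⟩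
  · exact Or.inl rfl

theorem good_ex (A : Ax D) (f : ↥(MTR D.Gs D.S (b + 1))) : ∃ m c, Good D b m f c := by
  obtain ⟨μ, c, h1, h2⟩ := good0_ex A f
  exact ⟨ex D μ, c, Or.inl ⟨μ, h1, rfl, h2⟩⟩

theorem good_sum (A : Ax D) {σ : Type*} (s : Finset σ) (m : ι →₀ ℕ)
    (c : σ → GamT D (b + 1)) (h : ∀ i ∈ s, ∃ f, Good D b m f (c i)) :
    ∃ f, Good D b m f (∑ i ∈ s, c i) := by
  classical
  induction s using Finset.induction_on with
  | empty => exact ⟨0, by simpa using good_zero m⟩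
  | insert i s hi ih =>
    obtain ⟨f, hf⟩ := h i (Finset.mem_insert_self i s)
    obtain ⟨f', hf'⟩ := ih fun j hj => h j (Finset.mem_insert_of_mem hj)
    rw [Finset.sum_insert hi]
    exact ⟨f + f', good_add A m f _ f' _ hf hf'⟩

/-- the algebra of leading coefficients -/
noncomputable def BB (A : Ax D) (b : ℕ) : Subalgebra ℂ (MvPolynomial ι (GamT D (b + 1))) where
  carrier := {p | ∀ m, ∃ f, Good D b m f (MvPolynomial.coeff m p)}
  mul_mem' := by
    classical
    intro p q hp hq m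
    rw [MvPolynomial.coeff_mul]
    refine good_sum A _ m _ fun ij hij => ?_
    obtain ⟨f, hf⟩ := hp ij.1
    obtain ⟨f', hf'⟩ := hq ij.2
    rw [← Finset.HasAntidiagonal.mem_antidiagonal.1 hij]
    exact ⟨f * f', good_mul _ _ f _ f' _ hf hf'⟩
  add_mem' := by
    intro p q hp hq m
    obtain ⟨f, hf⟩ := hp m
    obtain ⟨f', hf'⟩ := hq m
    exact ⟨f + f', by rw [MvPolynomial.coeff_add]; exact good_add A m f _ f' _ hf hf'⟩
  algebraMap_mem' := by
    classical
    intro r m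
    rw [MvPolynomial.algebraMap_apply, MvPolynomial.coeff_C]
    split_ifs with h
    · subst h
      refine ⟨r • 1, ?_⟩
      rw [Algebra.algebraMap_eq_smul_one]
      exact good_smul 0 1 1 r good_one
    · exact ⟨0, good_zero m⟩

/-- finite generation of the algebra of leading coefficients implies that of the ring -/
theorem finiteType_of_BB (A : Ax D) {κ : Type} [Fintype κ] {G : Gens N κ} (B : GAx D G)
    (h : (BB A b).FG) : Algebra.FiniteType ℂ ↥(MTR D.Gs D.S (b + 1)) :=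
  sagbi (fun m f c => Good D b m f c) good_one good_zero (good_add A) good_smul good_mul (ltL D)
    (ltL_wf A B) (good_desc A) (good_ex A) (BB A b) (fun _ => Iff.rfl) h

/-! ### The moment map -/

/-- reading off the expansion from the values -/
theorem cf_of_Phi {P : MvPolynomial (Idx N (b + 1)) ℂ} (s : Finset (Fin n → ℤ))
    (c : (Fin n → ℤ) → XX D (b + 1) → ℂ)
    (h : ∀ y t, Phi D P y t = ∑ μ ∈ s, c μ y * ((chi μ t : ℂˣ) : ℂ)) :
    (∀ μ ∈ s, cf D P μ = c μ) ∧ supp D P ⊆ s := by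
  classical
  have key : ∀ y : XX D (b + 1), ∀ μ ∈ supp D P ∪ s, cf D P μ y = if μ ∈ s then c μ y else 0 := by
    intro y
    refine cf_unique (s := supp D P ∪ s) Finset.subset_union_left y
      (fun μ => if μ ∈ s then c μ y else 0) (fun t => ?_)
    rw [h y t]
    have h1 : ∑ μ ∈ s, c μ y * ((chi μ t : ℂˣ) : ℂ) =
        ∑ μ ∈ s, (if μ ∈ s then c μ y else 0) * ((chi μ t : ℂˣ) : ℂ) :=
      Finset.sum_congr rfl fun μ hμ => by rw [if_pos hμ]
    rw [h1]
    exact Finset.sum_subset Finset.subset_union_right fun μ _ hμ => by rw [if_neg hμ, zero_mul]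
  refine ⟨fun μ hμ => ?_, fun μ hμ => ?_⟩
  · funext y
    rw [key y μ (Finset.mem_union_right _ hμ), if_pos hμ]
  · by_contra hn
    obtain ⟨y, hy⟩ := mem_supp.1 hμ
    rw [key y μ (Finset.mem_union_left _ hμ), if_neg hn] at hy
    exact hy rfl

/-- the polynomial of an entry of the moment map -/
noncomputable def momP {N b : ℕ} (a : Fin b) (i j : Fin N) : MvPolynomial (Idx N b) ℂ :=
  ((Matrix.of fun i j => MvPolynomial.X (Sum.inl (a, i, j))) *
    (Matrix.of fun i j => MvPolynomial.X (Sum.inr (i, j))) *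
    (Matrix.of fun i j => MvPolynomial.X (Sum.inl (a, i, j))).adjugate :
    Matrix (Fin N) (Fin N) (MvPolynomial (Idx N b) ℂ)) i j

omit [Fintype ι] in
theorem eval_momP {N b : ℕ} (a : Fin b) (i j : Fin N) (g : Fin b → Matrix (Fin N) (Fin N) ℂ)
    (s : Matrix (Fin N) (Fin N) ℂ) :
    MvPolynomial.eval (co g s) (momP a i j) = (g a * s * (g a).adjugate) i j := by
  have hG : ((Matrix.of fun i j => MvPolynomial.X (Sum.inl (a, i, j)) :
      Matrix (Fin N) (Fin N) (MvPolynomial (Idx N b) ℂ))).map (MvPolynomial.eval (co g s)) =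
      g a := by
    ext i j
    simp [co]
  have hS : ((Matrix.of fun i j => MvPolynomial.X (Sum.inr (i, j)) :
      Matrix (Fin N) (Fin N) (MvPolynomial (Idx N b) ℂ))).map (MvPolynomial.eval (co g s)) = s := by
    ext i j
    simp [co]
  have hA := RingHom.map_adjugate (MvPolynomial.eval (co g s))
    (Matrix.of fun i j => MvPolynomial.X (Sum.inl (a, i, j)) :
      Matrix (Fin N) (Fin N) (MvPolynomial (Idx N b) ℂ))
  rw [RingHom.mapMatrix_apply, RingHom.mapMatrix_apply, hG] at hA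
  have h : ((Matrix.of fun i j => MvPolynomial.X (Sum.inl (a, i, j))) *
      (Matrix.of fun i j => MvPolynomial.X (Sum.inr (i, j))) *
      (Matrix.of fun i j => MvPolynomial.X (Sum.inl (a, i, j))).adjugate :
      Matrix (Fin N) (Fin N) (MvPolynomial (Idx N b) ℂ)).map (MvPolynomial.eval (co g s)) =
      g a * s * (g a).adjugate := by
    rw [Matrix.map_mul, Matrix.map_mul, hA, hG, hS]
  exact congrFun (congrFun h i) j

theorem good0_mom (A : Ax D) (a : Fin (b + 1)) (i j : Fin N) :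
    ∃ f, Good0 D b 0 f (momG D a i j) := by
  have hinv : InvP D (b + 1) (momP a i j) := by
    intro g g' h s hg hs hc hp hg'
    rw [eval_momP, eval_momP]
    have h1 := (hc a).1
    have h2 : h a * s = s * h a := (hc a).2
    have h3 : g' a * s * (g' a).adjugate = g a * s * (g a).adjugate := by
      have h4 : h a * (h a).adjugate = 1 := by rw [← A.inv_eq h1]; exact A.mul_inv h1
      rw [hg' a, Matrix.adjugate_mul_distrib]
      calc g a * h a * s * ((h a).adjugate * (g a).adjugate) =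
          g a * (h a * s) * (h a).adjugate * (g a).adjugate := by simp only [Matrix.mul_assoc]
        _ = g a * s * (h a * (h a).adjugate) * (g a).adjugate := by
            rw [h2]; simp only [Matrix.mul_assoc]
        _ = _ := by rw [h4, Matrix.mul_one]
    rw [h3]
  obtain ⟨F, hF⟩ := rep_of_invP hinv
  have hexp : ∀ (y : XX D (b + 1)) (t : Fin n → ℂˣ), Phi D (momP a i j) y t =
      ∑ μ ∈ ({0} : Finset (Fin n → ℤ)),
        ((y.1 a).1 * D.Dx y.2.1 * (y.1 a).1⁻¹) i j * ((chi μ t : ℂˣ) : ℂ) := by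
    intro y t
    rw [Finset.sum_singleton, chi_zero, Units.val_one, mul_one]
    unfold Phi
    rw [eval_momP]
    set T : Matrix (Fin N) (Fin N) ℂ := if a = 0 then D.Tt t else 1 with hT
    have hTG : D.IsG T := by
      rw [hT]
      split_ifs
      · exact A.torus t
      · exact A.one
    have hTD : T * D.Dx y.2.1 = D.Dx y.2.1 * T := by
      rw [hT]
      split_ifs
      · exact D.Tt_Dx_comm t _
      · rw [Matrix.one_mul, Matrix.mul_one]
    have hq := A.qC_isG y.2.1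
    have hs : D.sC y.2.1 = D.qC y.2.1 * D.Dx y.2.1 * (D.qC y.2.1)⁻¹ := by
      rw [A.qC_conj y.2.2, Matrix.mul_assoc, A.mul_inv hq, Matrix.mul_one]
    have hG : D.IsG ((y.1 a).1 * T * (D.qC y.2.1)⁻¹) :=
      A.mul _ _ (A.mul _ _ (y.1 a).2 hTG) (A.inv _ hq)
    rw [← A.inv_eq hG, Matrix.mul_inv_rev, Matrix.mul_inv_rev, hs]
    have hqq : (D.qC y.2.1)⁻¹⁻¹ = D.qC y.2.1 := Matrix.nonsing_inv_nonsing_inv _
      (by rw [A.det _ hq]; exact isUnit_one)
    rw [hqq]
    have h1 : (y.1 a).1 * T * (D.qC y.2.1)⁻¹ * (D.qC y.2.1 * D.Dx y.2.1 * (D.qC y.2.1)⁻¹) *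
        (D.qC y.2.1 * (T⁻¹ * (y.1 a).1⁻¹)) = (y.1 a).1 * D.Dx y.2.1 * (y.1 a).1⁻¹ := by
      calc (y.1 a).1 * T * (D.qC y.2.1)⁻¹ * (D.qC y.2.1 * D.Dx y.2.1 * (D.qC y.2.1)⁻¹) *
          (D.qC y.2.1 * (T⁻¹ * (y.1 a).1⁻¹)) =
          (y.1 a).1 * T * ((D.qC y.2.1)⁻¹ * D.qC y.2.1) * D.Dx y.2.1 *
            ((D.qC y.2.1)⁻¹ * D.qC y.2.1) * (T⁻¹ * (y.1 a).1⁻¹) := by
            simp only [Matrix.mul_assoc]
        _ = (y.1 a).1 * (T * D.Dx y.2.1) * (T⁻¹ * (y.1 a).1⁻¹) := by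
            rw [A.inv_mul hq]; simp only [Matrix.mul_assoc, Matrix.one_mul]
        _ = (y.1 a).1 * D.Dx y.2.1 * (T * T⁻¹) * (y.1 a).1⁻¹ := by
            rw [hTD]; simp only [Matrix.mul_assoc]
        _ = _ := by rw [A.mul_inv hTG, Matrix.mul_one]
    rw [h1]
  obtain ⟨h1, h2⟩ := cf_of_Phi (P := momP a i j) {0}
    (fun _ y => ((y.1 a).1 * D.Dx y.2.1 * (y.1 a).1⁻¹) i j) hexp
  refine ⟨F, momP a i j, hF, fun κ hκ => ?_, fun y => ?_⟩
  · rw [Finset.mem_singleton.1 (h2 hκ)]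
  · rw [Eu_zero, one_mul, h1 0 (Finset.mem_singleton_self _), fn_momG A]

theorem C_momG_mem (A : Ax D) (a : Fin (b + 1)) (i j : Fin N) :
    (MvPolynomial.C (momG D a i j) : MvPolynomial ι (GamT D (b + 1))) ∈ BB A b := by
  classical
  intro m
  rw [MvPolynomial.coeff_C]
  split_ifs with h
  · subst h
    obtain ⟨f, hf⟩ := good0_mom A a i j
    exact ⟨f, Or.inl ⟨0, dom_zero, ex_zero, hf⟩⟩
  · exact ⟨0, good_zero m⟩

theorem monomial_minG_mem (A : Ax D) {κ : Type} [Fintype κ] {G : Gens N κ} (B : GAx D G) (l : κ)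
    (I : Fin (b + 1) → Fin (G.m l) → Fin N) :
    (MvPolynomial.monomial (ex D (G.lam D l)) (minG D G l I) :
      MvPolynomial ι (GamT D (b + 1))) ∈ BB A b := by
  classical
  intro m
  rw [MvPolynomial.coeff_monomial]
  split_ifs with h
  · subst h
    obtain ⟨P, h1, h2, h3⟩ := B.top b l I
    obtain ⟨F, hF⟩ := rep_of_invP h1
    exact ⟨F, Or.inl ⟨_, B.dom l, rfl, P, hF, h2, fun y => by rw [fn_minG, h3]⟩⟩
  · exact ⟨0, good_zero m⟩

/-- The algebra of leading coefficients is finitely generated. -/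
theorem BB_fg (A : Ax D) {κ : Type} [Fintype κ] {G : Gens N κ} (B : GAx D G) (b : ℕ) :
    (BB A b).FG := by
  classical
  set T : Set (MvPolynomial ι (GamT D (b + 1))) :=
    (Set.range fun p : Fin (b + 1) × Fin N × Fin N => MvPolynomial.C (momG D p.1 p.2.1 p.2.2)) ∪
    (Set.range fun p : (l : κ) × (Fin (b + 1) → Fin (G.m l) → Fin N) =>
      MvPolynomial.monomial (ex D (G.lam D p.1)) (minG D G p.1 p.2)) with hT
  have hTfin : T.Finite := (Set.finite_range _).union (Set.finite_range _)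
  have hfin : Algebra.FiniteType ℂ (MvPolynomial ι (GamT D (b + 1))) := by
    have h1 : Algebra.FiniteType ℂ (GamT D (b + 1)) :=
      Algebra.FiniteType.of_surjective (toGam D (b + 1)) (toGam_surj D (b + 1))
    exact h1.trans inferInstance
  refine fg_of_integral hfin (Algebra.adjoin ℂ T) (BB A b) ?_ ?_ ?_
  · exact Subalgebra.fg_def.2 ⟨T, hTfin, rfl⟩
  · refine Algebra.adjoin_le ?_
    rintro p (⟨q, rfl⟩ | ⟨q, rfl⟩)
    · exact C_momG_mem A _ _ _
    · exact monomial_minG_mem A B _ _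
  · intro p hp
    rw [← MvPolynomial.support_sum_monomial_coeff p]
    refine IsIntegral.sum _ fun m _ => ?_
    obtain ⟨f, ⟨μ, hμ, rfl, P, hrep, hlead, hc⟩ | ⟨-, h0⟩⟩ := hp m
    · refine integral_of_PB A B (Nat.succ_pos b) (Algebra.adjoin ℂ T) ?_ ?_ μ hμ _ ?_
      · intro a i j
        exact Algebra.subset_adjoin (Or.inl ⟨(a, i, j), rfl⟩)
      · intro l I
        exact Algebra.subset_adjoin (Or.inr ⟨⟨l, I⟩, rfl⟩)
      · have h1 : GamT.fn (MvPolynomial.coeff (ex D μ) p) =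
            fun y => Eu D μ y.2.1 * cf D P μ y := funext hc
        rw [h1]
        exact pole_bound A (invP_of_rep A f.2 hrep) μ hlead
    · rw [h0, MvPolynomial.monomial_zero]
      exact isIntegral_zero

omit [Fintype ι] in
/-- the case without punctures -/
theorem mt_fg_zero {N : ℕ} (G S : Set (Matrix (Fin N) (Fin N) ℂ)) : (MTR G S 0).FG := by
  set φ : MvPolynomial (Idx N 0) ℂ →ₐ[ℂ] (Pt G S 0 → ℂ) :=
    MvPolynomial.aeval fun i => fun y : Pt G S 0 => co (fun a => (y.1 a).1) y.2.1 i with hφ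
  have hφe : ∀ P y, φ P y = MvPolynomial.eval (co (fun a => (y.1 a).1) y.2.1) P := by
    intro P y
    have h2 : φ P y = (Pi.evalAlgHom ℂ (fun _ : Pt G S 0 => ℂ) y) (φ P) := rfl
    rw [h2, hφ, Pool.Agent.MP_c45d35_ag.BlockL.hom_aeval, Pool.Agent.MP_c45d35_ag.BlockL.aeval_eval]
    rfl
  have h : MTR G S 0 = (⊤ : Subalgebra ℂ (MvPolynomial (Idx N 0) ℂ)).map φ := by
    ext F
    rw [Subalgebra.mem_map]
    constructor
    · rintro ⟨⟨P, hP⟩, -⟩
      exact ⟨P, Algebra.mem_top, funext fun y => by rw [hφe, hP]⟩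
    · rintro ⟨P, -, rfl⟩
      refine ⟨⟨P, hφe P⟩, ?_⟩
      intro y y' _ _ _ hs _
      have : y' = y := Prod.ext (Subsingleton.elim _ _) hs
      rw [this]
  rw [h]
  exact Subalgebra.FG.map φ Algebra.FiniteType.out

/-- **Finite generation of the Moore–Tachikawa rings.** -/
theorem mt_fg (A : Ax D) {κ : Type} [Fintype κ] {G : Gens N κ} (B : GAx D G) (b : ℕ) :
    (MTR D.Gs D.S b).FG := by
  cases b with
  | zero => exact mt_fg_zero _ _
  | succ b => exact Subalgebra.fg_iff_finiteType _ |>.2 (finiteType_of_BB A B (BB_fg A B b))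

end final

end Pool.Agent.MTD
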