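import Pool.Agent.MTD.Fin
import Pool.Agent.MP_c45d35_ag.FK

/-! # MTD : top elements for groups whose slice consists of Hessenberg matrices -/

namespace Pool.Agent.MTD

open Matrix
open Pool.Agent.MP_c45d35_ag (chi UpUni LowUni chi_add chi_mul chi_zero chi_one IsHess
  hess_commute)


/-- first row of the upper unipotent conjugating `x` into `e + x` -/
theorem ue_row {N : ℕ} (d : Fin N → ℂ) (ue : Matrix (Fin N) (Fin N) ℂ)
    (hu : UpUni ue) (h : ue * Matrix.diagonal d = (Matrix.diagonal d + Pool.Agent.MP_c45d35_ag.em ℂ N) * ue)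
    (i0 r : Fin N) (h0 : (i0 : ℕ) = 0) :
    ue i0 r * ∏ l ∈ Finset.univ.filter (· < r), (d r - d l) = 1 := by
  have hrec : ∀ (i i' : Fin N), (i' : ℕ) = (i : ℕ) + 1 →
      ue i' r = (d r - d i) * ue i r := by
    intro i i' hi
    have h1 := congrFun (congrFun h i) r
    rw [Matrix.add_mul, Matrix.add_apply, Matrix.mul_diagonal, Matrix.diagonal_mul,
      Matrix.mul_apply, Finset.sum_eq_single i'] at h1
    · simp only [Pool.Agent.MP_c45d35_ag.em, Matrix.of_apply, if_pos hi, one_mul] at h1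
      linear_combination -h1
    · intro l _ hl
      have : ¬ ((l : ℕ) = (i : ℕ) + 1) := fun h' => hl (Fin.ext (h'.trans hi.symm))
      simp only [Pool.Agent.MP_c45d35_ag.em, Matrix.of_apply, if_neg this, zero_mul]
    · simp
  have key : ∀ m : ℕ, ∀ i : Fin N, (i : ℕ) = m →
      ue i r = ue i0 r * ∏ l ∈ Finset.univ.filter (· < i), (d r - d l) := by
    intro m
    induction m with
    | zero =>
      intro i hi
      have : i = i0 := Fin.ext (hi.trans h0.symm)
      subst this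
      have : Finset.univ.filter (· < i) = ∅ := by
        apply Finset.filter_eq_empty_iff.mpr
        intro l _ hl
        have : (l : ℕ) < i := hl
        omega
      rw [this]; simp
    | succ m ih =>
      intro i hi
      have hm : m < N := by have := i.2; omega
      have h1 := hrec ⟨m, hm⟩ i hi
      have h2 := ih ⟨m, hm⟩ rfl
      have h3 : Finset.univ.filter (· < i) =
          insert (⟨m, hm⟩ : Fin N) (Finset.univ.filter (· < (⟨m, hm⟩ : Fin N))) := by
        ext l
        simp only [Finset.mem_filter, Finset.mem_univ, true_and, Finset.mem_insert, Fin.lt_def,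
          Fin.ext_iff]
        omega
      rw [h1, h2, h3, Finset.prod_insert (by simp)]
      ring
  rw [← key r r rfl]
  exact hu.2 r

variable {n N : ℕ} {ι : Type} [Fintype ι] {D : Dat n N ι} {b : ℕ}

theorem qC_row (A : Ax D) (he : D.e = Pool.Agent.MP_c45d35_ag.em ℂ N) (hp : LowUni D.px) {x : Fin n → ℂ} (hx : D.Reg x)
    (i0 r : Fin N) (h0 : (i0 : ℕ) = 0) :
    D.qC x i0 r * ∏ l ∈ Finset.univ.filter (· < r), (ev (D.wt r) x - ev (D.wt l) x) = 1 := by
  have hpc : LowUni (D.pC x) := ⟨fun i j h => by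
    show MvPolynomial.eval x (D.px i j) = 0
    rw [hp.1 i j h, map_zero], fun i => by
    show MvPolynomial.eval x (D.px i i) = 1
    rw [hp.2 i, map_one]⟩
  have h : D.qC x i0 r = D.ueC x i0 r := by
    unfold Dat.qC
    rw [Matrix.mul_apply, Finset.sum_eq_single i0]
    · rw [hpc.2, one_mul]
    · intro k _ hk
      have : i0 < k := by
        have h1 : (k : ℕ) ≠ i0 := fun h => hk (Fin.ext h)
        have : (i0 : ℕ) < k := by omega
        exact this
      rw [hpc.1 i0 k this, zero_mul]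
    · simp
  rw [h]
  have h1 := A.ueC_conj hx
  rw [he] at h1
  exact ue_row (fun i => ev (D.wt i) x) _ (A.ueC_upUni x) h1 i0 r h0

omit [Fintype ι] in
/-- minors of `g T` -/
theorem det_mul_Tt {k : ℕ} (g : Matrix (Fin N) (Fin N) ℂ) (t : Fin n → ℂˣ)
    (I r : Fin k → Fin N) :
    Matrix.det (fun i j => (g * D.Tt t) (I i) (r j)) =
      ((chi (∑ j, D.wt (r j)) t : ℂˣ) : ℂ) * Matrix.det (fun i j => g (I i) (r j)) := by
  have h1 : (fun i j => (g * D.Tt t) (I i) (r j) : Matrix (Fin k) (Fin k) ℂ) =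
      Matrix.of fun i j => ((chi (D.wt (r j)) t : ℂˣ) : ℂ) * g (I i) (r j) := by
    funext i j
    show (g * D.Tt t) (I i) (r j) = ((chi (D.wt (r j)) t : ℂˣ) : ℂ) * g (I i) (r j)
    rw [Dat.Tt, Matrix.mul_diagonal, mul_comm]
  have h2 := Matrix.det_mul_row (fun j => ((chi (D.wt (r j)) t : ℂˣ) : ℂ))
    (fun i j => g (I i) (r j) : Matrix (Fin k) (Fin k) ℂ)
  rw [h1]
  refine h2.trans ?_
  congr 1
  rw [chi_sum, Units.coe_prod]

/-- **Top elements** for the minors on the first `k` columns, when the slice consists of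
Hessenberg matrices. -/
theorem top_GL (A : Ax D) (he : D.e = Pool.Agent.MP_c45d35_ag.em ℂ N) (hp : LowUni D.px) (hS : ∀ s ∈ D.S, IsHess s)
    (hinj : ∀ x : Fin n → ℂ, D.Reg x → Function.Injective fun i => ev (D.wt i) x)
    (k : ℕ) (hk : k ≤ N) (lam : Fin n → ℤ) (hlam : lam = ∑ j : Fin k, D.wt (Fin.castLE hk j))
    (hlt : ∀ r : Fin k → Fin N, Function.Injective r → toLex (∑ j, D.wt (r j)) < toLex lam ∨
      ∃ π : Equiv.Perm (Fin k), r = fun j => Fin.castLE hk (π j))
    (c0 : ℂ) (hc0 : c0 ≠ 0)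
    (hE : ∀ x : Fin n → ℂ, (∏ i : Fin N, ∏ j : Fin N, if (i : ℕ) < k ∧ k ≤ (j : ℕ) then
      ev (D.wt i) x - ev (D.wt j) x else 1) = c0 * Eu D lam x)
    (b : ℕ) (I : Fin (b + 1) → Fin k → Fin N) :
    ∃ P : MvPolynomial (Idx N (b + 1)) ℂ, InvP D (b + 1) P ∧ IsLead D P lam ∧
      ∀ y : XX D (b + 1), Eu D lam y.2.1 * cf D P lam y =
        ∏ a, ((y.1 a).1.submatrix (I a) (fun j => Fin.castLE hk j)).det := by
  classical
  set G : Fin (b + 1) → Matrix (Fin N) (Fin N) (MvPolynomial (Idx N (b + 1)) ℂ) := fun a =>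
    Matrix.of fun i j => MvPolynomial.X (Sum.inl (a, i, j)) with hG
  set S : Matrix (Fin N) (Fin N) (MvPolynomial (Idx N (b + 1)) ℂ) :=
    Matrix.of fun i j => MvPolynomial.X (Sum.inr (i, j)) with hS'
  obtain ⟨P, hPdef⟩ : ∃ P, P = Pool.Agent.MP_c45d35_ag.FK.Phi I G S := ⟨_, rfl⟩
  have hP : ∀ (g : Fin (b + 1) → Matrix (Fin N) (Fin N) ℂ) (s : Matrix (Fin N) (Fin N) ℂ),
      MvPolynomial.eval (co g s) P = Pool.Agent.MP_c45d35_ag.FK.Phi I g s := by
    intro g s
    rw [hPdef, Pool.Agent.MP_c45d35_ag.FK.Phi_map]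
    have h1 : (fun a => (G a).map (MvPolynomial.eval (co g s))) = g := by
      ext a i j
      simp [hG, co]
    have h2 : S.map (MvPolynomial.eval (co g s)) = s := by
      ext i j
      simp [hS', co]
    rw [h1, h2]
  have hinv : InvP D (b + 1) P := by
    intro g g' h s hg hs hc hp' hg'
    have hs' := hS s hs
    choose Q hQ using fun a => hess_commute hs' (hc a).2
    rw [hP, hP]
    have h1 : g' = fun a => g a * Polynomial.aeval s (Q a) := by
      ext1 a
      rw [hg' a, ← hQ a]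
    rw [h1]
    apply Pool.Agent.MP_c45d35_ag.FK.Phi_inv I g hs' Q
    rw [← hp', ← List.prod_ofFn, map_list_prod, List.map_ofFn]
    congr 2
    ext1 a
    exact (hQ a).symm
  -- the minors
  obtain ⟨De, hDe⟩ : ∃ De : (Fin k → Fin N) → XX D (b + 1) → ℂ,
      De = fun r y => ∏ a, Matrix.det (fun i j => (y.1 a).1 (I a i) (r j)) := ⟨_, rfl⟩
  obtain ⟨Aa, hAa⟩ : ∃ Aa : (Fin k → Fin N) → (Fin n → ℂ) → ℂ,
      Aa = fun r x => Pool.Agent.MP_c45d35_ag.FK.Ar (b + 1) r fun i => ev (D.wt i) x := ⟨_, rfl⟩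
  -- the expansion
  have hexp0 : ∀ (y : XX D (b + 1)) (t : Fin n → ℂˣ), Phi D P y t =
      ∑ r : Fin k → Fin N, Aa r y.2.1 * De r y * ((chi (∑ j, D.wt (r j)) t : ℂˣ) : ℂ) := by
    intro y t
    have h1 := Pool.Agent.MP_c45d35_ag.FK.Phi_formula I
      (fun a => (y.1 a).1 * (if a = 0 then (D.Tt t : Matrix (Fin N) (Fin N) ℂ) else 1))
      (s := D.sC y.2.1) (q := D.qC y.2.1) (x := fun i => ev (D.wt i) y.2.1)
      (hS _ (A.sC_mem _)) (hinj _ y.2.2)
      (by rw [A.det _ (A.qC_isG y.2.1)]; exact isUnit_one) (A.qC_conj y.2.2)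
      (qC_row A he hp y.2.2)
    rw [← hP] at h1
    refine Eq.trans h1 ?_
    refine Finset.sum_congr rfl fun r _ => ?_
    rw [mul_assoc, hAa]
    congr 1
    have h2 : ∀ a : Fin (b + 1), Matrix.det (fun i j => ((y.1 a).1 *
        (if a = 0 then (D.Tt t : Matrix (Fin N) (Fin N) ℂ) else 1)) (I a i) (r j)) =
        (if a = 0 then ((chi (∑ j, D.wt (r j)) t : ℂˣ) : ℂ) else 1) *
          Matrix.det (fun i j => (y.1 a).1 (I a i) (r j)) := by
      intro a
      by_cases ha : a = 0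
      · rw [if_pos ha, if_pos ha]
        exact det_mul_Tt _ t (I a) r
      · rw [if_neg ha, if_neg ha, Matrix.mul_one, one_mul]
    rw [Finset.prod_congr rfl fun a _ => h2 a, Finset.prod_mul_distrib,
      Finset.prod_ite_eq' Finset.univ (0 : Fin (b + 1)), if_pos (Finset.mem_univ _), hDe, mul_comm]
  set s : Finset (Fin n → ℤ) :=
    (Finset.univ.filter fun r : Fin k → Fin N => Function.Injective r).image
      (fun r => ∑ j, D.wt (r j)) with hs
  obtain ⟨c, hc⟩ : ∃ c : (Fin n → ℤ) → XX D (b + 1) → ℂ, c = fun μ y =>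
    ∑ r ∈ (Finset.univ.filter fun r : Fin k → Fin N => Function.Injective r).filter
      (fun r => ∑ j, D.wt (r j) = μ), Aa r y.2.1 * De r y := ⟨_, rfl⟩
  have hexp : ∀ (y : XX D (b + 1)) (t : Fin n → ℂˣ), Phi D P y t =
      ∑ μ ∈ s, c μ y * ((chi μ t : ℂˣ) : ℂ) := by
    intro y t
    rw [hexp0 y t]
    have h1 : ∑ r : Fin k → Fin N,
        Aa r y.2.1 * De r y * ((chi (∑ j, D.wt (r j)) t : ℂˣ) : ℂ) =
        ∑ r ∈ Finset.univ.filter fun r : Fin k → Fin N => Function.Injective r,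
          Aa r y.2.1 * De r y * ((chi (∑ j, D.wt (r j)) t : ℂˣ) : ℂ) := by
      refine (Finset.sum_subset (Finset.filter_subset _ _) fun r _ hr => ?_).symm
      have hr' : ¬ Function.Injective r := fun h =>
        hr (Finset.mem_filter.2 ⟨Finset.mem_univ _, h⟩)
      have h0 : Aa r y.2.1 = 0 := by
        rw [hAa]
        exact Pool.Agent.MP_c45d35_ag.FK.Ar_eq_zero (b + 1) hr' _
      rw [h0, zero_mul, zero_mul]
    rw [h1, ← Finset.sum_fiberwise_of_maps_to
      (s := Finset.univ.filter fun r : Fin k → Fin N => Function.Injective r)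
      (t := s) (g := fun r => ∑ j, D.wt (r j)) (fun r hr => Finset.mem_image_of_mem _ hr)]
    refine Finset.sum_congr rfl fun μ _ => ?_
    rw [hc, Finset.sum_mul]
    refine Finset.sum_congr rfl fun r hr => ?_
    rw [(Finset.mem_filter.1 hr).2]
  obtain ⟨h1, h2⟩ := cf_of_Phi s c hexp
  have hperm : ∀ π : Equiv.Perm (Fin k), ∑ j, D.wt (Fin.castLE hk (π j)) = lam := fun π => by
    rw [hlam]
    exact Equiv.sum_comp π fun j => D.wt (Fin.castLE hk j)
  have hlead : IsLead D P lam := by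
    intro κ hκ
    obtain ⟨r, hr, rfl⟩ := Finset.mem_image.1 (h2 hκ)
    rcases hlt r (Finset.mem_filter.1 hr).2 with h | ⟨π, rfl⟩
    · exact h.le
    · rw [hperm π]
  have hmem : lam ∈ s :=
    Finset.mem_image.2 ⟨fun j => Fin.castLE hk ((1 : Equiv.Perm (Fin k)) j),
      Finset.mem_filter.2 ⟨Finset.mem_univ _, Fin.castLE_injective hk⟩, hperm 1⟩
  -- the leading coefficient
  have hset : (Finset.univ.filter fun r : Fin k → Fin N =>
      Function.Injective r).filter (fun r => ∑ j, D.wt (r j) = lam) =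
      Finset.univ.image fun (π : Equiv.Perm (Fin k)) j => Fin.castLE hk (π j) := by
    ext r
    rw [Finset.mem_filter, Finset.mem_filter, Finset.mem_image]
    constructor
    · rintro ⟨⟨_, hr⟩, hr'⟩
      rcases hlt r hr with h | ⟨π, hπ⟩
      · rw [hr'] at h
        exact absurd h (lt_irrefl _)
      · exact ⟨π, Finset.mem_univ _, hπ.symm⟩
    · rintro ⟨π, _, rfl⟩
      exact ⟨⟨Finset.mem_univ _, (Fin.castLE_injective hk).comp π.injective⟩, hperm π⟩
  have hlc : ∀ y : XX D (b + 1), c0 * (Eu D lam y.2.1 * c lam y) =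
      (k.factorial : ℂ) * ∏ a, ((y.1 a).1.submatrix (I a) (fun j => Fin.castLE hk j)).det := by
    intro y
    have hterm : ∀ π : Equiv.Perm (Fin k), c0 * (Eu D lam y.2.1 *
        (Aa (fun j => Fin.castLE hk (π j)) y.2.1 * De (fun j => Fin.castLE hk (π j)) y)) =
        ∏ a, ((y.1 a).1.submatrix (I a) (fun j => Fin.castLE hk j)).det := by
      intro π
      have h3 := Pool.Agent.MP_c45d35_ag.FK.Ar_mul_E (b + 1) hk (hinj _ y.2.2) π
      rw [hE y.2.1] at h3
      have h4 : De (fun j => Fin.castLE hk (π j)) y =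
          (((Equiv.Perm.sign π : ℤˣ) : ℤ) : ℂ) ^ (b + 1) *
            ∏ a, ((y.1 a).1.submatrix (I a) (fun j => Fin.castLE hk j)).det := by
        rw [hDe]
        show ∏ a, Matrix.det (fun i j => (y.1 a).1 (I a i) (Fin.castLE hk (π j))) = _
        have h5 : ∀ a : Fin (b + 1),
            Matrix.det (fun i j => (y.1 a).1 (I a i) (Fin.castLE hk (π j))) =
            (((Equiv.Perm.sign π : ℤˣ) : ℤ) : ℂ) *
              ((y.1 a).1.submatrix (I a) (fun j => Fin.castLE hk j)).det := by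
          intro a
          exact Matrix.det_permute' π
            ((y.1 a).1.submatrix (I a) (fun j => Fin.castLE hk j))
        rw [Finset.prod_congr rfl fun a _ => h5 a, Finset.prod_mul_distrib, Finset.prod_const,
          Finset.card_univ, Fintype.card_fin]
      rw [h4]
      have h6 : (((Equiv.Perm.sign π : ℤˣ) : ℤ) : ℂ) ^ (b + 1) *
          (((Equiv.Perm.sign π : ℤˣ) : ℤ) : ℂ) ^ (b + 1) = 1 := by
        rw [← mul_pow]
        rcases Int.units_eq_one_or (Equiv.Perm.sign π) with h7 | h7 <;> rw [h7] <;> simp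
      have h8 : Aa (fun j => Fin.castLE hk (π j)) y.2.1 * (c0 * Eu D lam y.2.1) =
          (((Equiv.Perm.sign π : ℤˣ) : ℤ) : ℂ) ^ (b + 1) := by
        rw [hAa]
        exact h3
      linear_combination ((((Equiv.Perm.sign π : ℤˣ) : ℤ) : ℂ) ^ (b + 1) *
        ∏ a, ((y.1 a).1.submatrix (I a) (fun j => Fin.castLE hk j)).det) * h8 +
        (∏ a, ((y.1 a).1.submatrix (I a) (fun j => Fin.castLE hk j)).det) * h6
    rw [hc]
    show c0 * (Eu D lam y.2.1 *
      ∑ r ∈ (Finset.univ.filter fun r : Fin k → Fin N =>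
        Function.Injective r).filter (fun r => ∑ j, D.wt (r j) = lam), Aa r y.2.1 * De r y) = _
    rw [hset, Finset.sum_image (fun π _ π' _ h => by
      refine Equiv.ext fun j => ?_
      exact Fin.castLE_injective hk (congrFun h j)), Finset.mul_sum, Finset.mul_sum,
      Finset.sum_congr rfl fun π _ => hterm π, Finset.sum_const, Finset.card_univ,
      Fintype.card_perm, Fintype.card_fin, nsmul_eq_mul]
  have hfac : ((k.factorial : ℕ) : ℂ) ≠ 0 := Nat.cast_ne_zero.2 (Nat.factorial_ne_zero _)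
  refine ⟨(c0 * ((k.factorial : ℕ) : ℂ)⁻¹) • P, ?_, ?_, ?_⟩
  · intro g g' h s hg hs hc hp' hg'
    rw [MvPolynomial.smul_eval, MvPolynomial.smul_eval, hinv g g' h s hg hs hc hp' hg']
  · intro κ hκ
    obtain ⟨y, hy⟩ := mem_supp.1 hκ
    refine hlead κ (mem_supp.2 ⟨y, fun h => hy ?_⟩)
    rw [cf_smul, Pi.smul_apply, h, smul_zero]
  · intro y
    rw [cf_smul, Pi.smul_apply, h1 lam hmem, smul_eq_mul]
    have h3 := hlc y
    field_simp
    linear_combination h3

end Pool.Agent.MTD
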