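import Pool.Agent.MTD.Fin
import Pool.Agent.MP_c45d35_ag.Slice
import Pool.Agent.MP_c45d35_ag.Iwa

/-! # MTD : slices `e + ∑ a_m f^(κ m)` in `gl_N` -/

namespace Pool.Agent.MTD

open Matrix
open Pool.Agent.MP_c45d35_ag (chi UpUni LowUni IsHess fm hess_diff)
open Pool.Agent.MP_c45d35_ag.SL (Fk Fk_pos fm_pow_apply fm_map commute_eq_zero commute_pow_sum
  charpoly_coeff_of_lt charpoly_coeff_self isUnit_sum_Fk)


section
variable {R : Type*} [CommRing R] {N r : ℕ}

/-- The elements `e + ∑ a_m f^(κ m)`. -/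
noncomputable def Slk (N : ℕ) (κ : Fin r → ℕ) (a : Fin r → R) : Matrix (Fin N) (Fin N) R :=
  Pool.Agent.MP_c45d35_ag.em R N + ∑ m, a m • (fm R N) ^ (κ m)

variable {κ : Fin r → ℕ}

theorem Slk_apply (a : Fin r → R) (i l : Fin N) : Slk N κ a i l = Pool.Agent.MP_c45d35_ag.em R N i l +
    ∑ m, a m * (if (i : ℕ) = (l : ℕ) + κ m then ((Fk N (κ m) l : ℕ) : R) else 0) := by
  unfold Slk
  rw [Matrix.add_apply, Matrix.sum_apply]
  congr 1
  refine Finset.sum_congr rfl fun m _ => ?_
  rw [Matrix.smul_apply, fm_pow_apply, smul_eq_mul]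

theorem isHess_Slk (hκ : ∀ m, 1 ≤ κ m) (a : Fin r → R) : IsHess (Slk N κ a) := by
  constructor
  · intro i j h
    rw [Slk_apply, Finset.sum_eq_zero, add_zero]
    · simp [Pool.Agent.MP_c45d35_ag.em, h]
    · intro m _
      rw [if_neg (by omega), mul_zero]
  · intro i j h
    rw [Slk_apply, Finset.sum_eq_zero, add_zero]
    · simp only [Pool.Agent.MP_c45d35_ag.em, Matrix.of_apply]
      rw [if_neg (by omega)]
    · intro m _
      rw [if_neg (by omega), mul_zero]

theorem Slk_map {S : Type*} [CommRing S] (φ : R →+* S) (a : Fin r → R) :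
    (Slk N κ a).map φ = Slk N κ (fun m => φ (a m)) := by
  ext i l
  rw [Matrix.map_apply, Slk_apply, Slk_apply, map_add, map_sum]
  congr 1
  · have := congrFun (congrFun (Pool.Agent.MP_c45d35_ag.em_map (N := N) φ) i) l
    rwa [Matrix.map_apply] at this
  · refine Finset.sum_congr rfl fun m _ => ?_
    rw [map_mul]
    congr 1
    split_ifs <;> simp

theorem commute_Slk_sub (a : Fin r → R) : Commute (Slk N κ a - Pool.Agent.MP_c45d35_ag.em R N) (fm R N) := by
  unfold Slk
  rw [add_sub_cancel_left]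
  refine Commute.sum_left _ _ _ fun m _ => ?_
  exact ((Commute.refl (fm R N)).pow_left _).smul_left _

theorem Slk_sub_apply (a a' : Fin r → R) (i l : Fin N) : Slk N κ a i l - Slk N κ a' i l =
    ∑ m, (a m - a' m) * (if (i : ℕ) = (l : ℕ) + κ m then ((Fk N (κ m) l : ℕ) : R) else 0) := by
  rw [Slk_apply, Slk_apply, add_sub_add_left_eq_sub, ← Finset.sum_sub_distrib]
  refine Finset.sum_congr rfl fun m _ => ?_
  ring

/-- effect of changing the coordinates from the index `m` on -/
theorem Slk_diff (hκm : StrictMono κ) (hκN : ∀ m, κ m < N) (a a' : Fin r → R) (m : Fin r)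
    (hκ1 : ∀ m, 1 ≤ κ m) (h : ∀ m' < m, a m' = a' m') :
    (∀ k, N < k + κ m + 1 → ((Slk N κ a).charpoly - (Slk N κ a').charpoly).coeff k = 0) ∧
    ((Slk N κ a).charpoly - (Slk N κ a').charpoly).coeff (N - 1 - κ m) =
      - ((a m - a' m) * ∑ l : Fin (N - κ m), ((Fk N (κ m) l : ℕ) : R)) := by
  have hj : κ m < N := hκN m
  have key : ∀ i l : Fin N, (i : ℕ) < (l : ℕ) + κ m → Slk N κ a i l = Slk N κ a' i l := by
    intro i l hil
    rw [← sub_eq_zero, Slk_sub_apply]
    refine Finset.sum_eq_zero fun m' _ => ?_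
    by_cases hm' : m' < m
    · rw [h m' hm', sub_self, zero_mul]
    · rw [if_neg, mul_zero]
      have : κ m ≤ κ m' := hκm.monotone (not_lt.1 hm')
      omega
  have h2 := hess_diff (isHess_Slk hκ1 a) (isHess_Slk hκ1 a') (κ m) hj key
  refine ⟨h2.1, ?_⟩
  rw [h2.2, Finset.mul_sum]
  congr 1
  refine Finset.sum_congr rfl fun l _ => ?_
  rw [Slk_sub_apply, Finset.sum_eq_single m]
  · rw [if_pos rfl]
  · intro b _ hb
    rw [if_neg, mul_zero]
    intro h'
    apply hb
    apply hκm.injective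
    simp only at h'
    omega
  · intro h'
    exact absurd (Finset.mem_univ _) h'

theorem Slk_injective [Algebra ℂ R] (hκm : StrictMono κ) (hκN : ∀ m, κ m < N)
    (hκ1 : ∀ m, 1 ≤ κ m) {a a' : Fin r → R}
    (h : (Slk N κ a).charpoly = (Slk N κ a').charpoly) : a = a' := by
  have key : ∀ (n : ℕ) (hn : n < r), a ⟨n, hn⟩ = a' ⟨n, hn⟩ := by
    intro n
    induction n using Nat.strong_induction_on with
    | _ n ih =>
    intro hn
    have h1 := (Slk_diff hκm hκN a a' ⟨n, hn⟩ hκ1 (fun m' hm' => ih m' hm' m'.2)).2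
    rw [h, sub_self, Polynomial.coeff_zero] at h1
    have h2 : (a ⟨n, hn⟩ - a' ⟨n, hn⟩) * ∑ l : Fin (N - κ ⟨n, hn⟩),
        ((Fk N (κ ⟨n, hn⟩) l : ℕ) : R) = 0 := by
      rw [← neg_eq_zero]
      exact h1.symm
    have h3 := isUnit_sum_Fk (R := R) (N := N) (hκN ⟨n, hn⟩)
    exact sub_eq_zero.1 ((h3.mul_left_eq_zero).1 h2)
  funext m
  exact key m m.2

end

/-- matrices commuting with `f` are the polynomials in `f` -/
theorem commute_fm_eq {N : ℕ} {X : Matrix (Fin N) (Fin N) ℂ} (h : Commute X (fm ℂ N)) :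
    ∃ c : Fin N → ℂ, X = ∑ j : Fin N, c j • (fm ℂ N) ^ (j : ℕ) ∧
      ∀ z : Fin N, (z : ℕ) = 0 → ∀ i, X i z = c i * ((Fk N i 0 : ℕ) : ℂ) := by
  rcases Nat.eq_zero_or_pos N with h0 | h0
  · subst h0
    exact ⟨fun _ => 0, Subsingleton.elim _ _, fun z => z.elim0⟩
  set z : Fin N := ⟨0, h0⟩ with hz
  set c : Fin N → ℂ := fun j => X j z / ((Fk N j 0 : ℕ) : ℂ) with hc
  have hF : ∀ j : Fin N, ((Fk N j 0 : ℕ) : ℂ) ≠ 0 := by
    intro j
    have := Fk_pos (N := N) (k := j) (j := 0) (by have := j.2; omega)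
    exact_mod_cast this.ne'
  have hcol : ∀ (d : Fin N → ℂ) (i : Fin N) (w : Fin N), (w : ℕ) = 0 →
      (∑ j : Fin N, d j • (fm ℂ N) ^ (j : ℕ)) i w = d i * ((Fk N i 0 : ℕ) : ℂ) := by
    intro d i w hw
    rw [Matrix.sum_apply, Finset.sum_eq_single i]
    · rw [Matrix.smul_apply, fm_pow_apply, if_pos (by omega), smul_eq_mul, hw]
    · intro b _ hb
      rw [Matrix.smul_apply, fm_pow_apply, if_neg, smul_zero]
      intro h'
      exact hb (Fin.ext (by omega))
    · intro h'
      exact absurd (Finset.mem_univ _) h'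
  refine ⟨c, ?_, ?_⟩
  · have h1 : Commute (X - ∑ j : Fin N, c j • (fm ℂ N) ^ (j : ℕ)) (fm ℂ N) :=
      h.sub_left (commute_pow_sum _ _ _)
    have h2 := commute_eq_zero h1 (by
      intro i w hw
      have hwz : w = z := Fin.ext (by omega)
      rw [Matrix.sub_apply, hcol c i w hw, hwz, hc]
      simp only
      rw [div_mul_cancel₀ _ (hF i), sub_self])
    exact sub_eq_zero.1 h2
  · intro w hw i
    have hwz : w = z := Fin.ext (by omega)
    rw [hwz, hc]
    simp only
    rw [div_mul_cancel₀ _ (hF i)]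

/-! ### `e + x` -/

section ex
variable {R : Type*} [CommRing R] {N : ℕ}

theorem isHess_em_add (d : Fin N → R) : IsHess (Pool.Agent.MP_c45d35_ag.em R N + Matrix.diagonal d) := by
  constructor
  · intro i j h
    rw [Matrix.add_apply, Matrix.diagonal_apply_ne _ (by
      intro h'
      rw [h'] at h
      omega)]
    simp [Pool.Agent.MP_c45d35_ag.em, h]
  · intro i j h
    rw [Matrix.add_apply, Matrix.diagonal_apply_ne _ (by
      intro h'
      rw [h'] at h
      omega)]
    simp only [Pool.Agent.MP_c45d35_ag.em, Matrix.of_apply]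
    rw [if_neg (by omega), add_zero]

theorem charpoly_em_add (d : Fin N → R) : (Pool.Agent.MP_c45d35_ag.em R N + Matrix.diagonal d).charpoly =
    ∏ i : Fin N, (Polynomial.X - Polynomial.C (d i)) := by
  rw [Matrix.charpoly_of_isUpperTriangular]
  · refine Finset.prod_congr rfl fun i _ => ?_
    rw [Matrix.add_apply, Matrix.diagonal_apply_eq]
    simp [Pool.Agent.MP_c45d35_ag.em]
  · intro i j hij
    have hij' : (j : ℕ) < (i : ℕ) := hij
    rw [Matrix.add_apply, Matrix.diagonal_apply_ne _ (by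
      intro h'
      rw [h'] at hij'
      omega)]
    simp only [Pool.Agent.MP_c45d35_ag.em, Matrix.of_apply]
    rw [if_neg (by omega), add_zero]

/-- an eigenvector of `e + D` with vanishing first coordinate vanishes -/
theorem em_eigen (d : Fin N → ℂ) (z : ℂ) (v : Fin N → ℂ)
    (hv : (Pool.Agent.MP_c45d35_ag.em ℂ N + Matrix.diagonal d).mulVec v = z • v)
    (h0 : ∀ i : Fin N, (i : ℕ) = 0 → v i = 0) : v = 0 := by
  have key : ∀ m : ℕ, ∀ i : Fin N, (i : ℕ) = m → v i = 0 := by
    intro m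
    induction m with
    | zero => exact h0
    | succ m ih =>
      intro i hi
      have hm : m < N := by have := i.2; omega
      have h1 := congrFun hv ⟨m, hm⟩
      rw [Matrix.add_mulVec, Pi.add_apply, Matrix.mulVec_diagonal] at h1
      have h2 : (Pool.Agent.MP_c45d35_ag.em ℂ N).mulVec v ⟨m, hm⟩ = v i := by
        rw [Matrix.mulVec, dotProduct, Finset.sum_eq_single i]
        · simp only [Pool.Agent.MP_c45d35_ag.em, Matrix.of_apply, if_pos hi, one_mul]
        · intro l _ hl
          have : ¬ ((l : ℕ) = m + 1) := fun h' => hl (Fin.ext (h'.trans hi.symm))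
          simp only [Pool.Agent.MP_c45d35_ag.em, Matrix.of_apply, if_neg this, zero_mul]
        · simp
      rw [h2, ih ⟨m, hm⟩ rfl] at h1
      simp only [Pi.smul_apply, smul_eq_mul, mul_zero, add_zero] at h1
      rw [h1, ih ⟨m, hm⟩ rfl, mul_zero]
  funext i
  exact key i i rfl

/-- two eigenvectors of `e + D` for the same eigenvalue are proportional, so `e + D` is not
conjugate to a diagonal matrix with a repeated entry -/
theorem em_not_diag (d' : Fin N → ℂ) (d : Fin N → ℂ) (p q : Fin N) (hpq : p ≠ q)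
    (hd : d p = d q) (a : Matrix (Fin N) (Fin N) ℂ) (ha : IsUnit a.det)
    (h : (Pool.Agent.MP_c45d35_ag.em ℂ N + Matrix.diagonal d') * a = a * Matrix.diagonal d) : False := by
  have hcol : ∀ k : Fin N, (Pool.Agent.MP_c45d35_ag.em ℂ N + Matrix.diagonal d').mulVec (fun i => a i k) =
      d k • (fun i => a i k) := by
    intro k
    funext i
    have h1 := congrFun (congrFun h i) k
    rw [Matrix.mul_diagonal] at h1
    rw [Pi.smul_apply, smul_eq_mul, mul_comm, ← h1]
    rfl
  by_cases hN : 0 < N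
  swap
  · exact hN (lt_of_le_of_lt (Nat.zero_le _) p.2)
  set i0 : Fin N := ⟨0, hN⟩ with hi0
  set w : Fin N → ℂ := fun i => a i0 q * a i p - a i0 p * a i q with hw
  have hw1 : (Pool.Agent.MP_c45d35_ag.em ℂ N + Matrix.diagonal d').mulVec w = d p • w := by
    have e1 : w = a i0 q • (fun i => a i p) - a i0 p • (fun i => a i q) := by
      funext i; simp [hw]
    rw [e1, Matrix.mulVec_sub, Matrix.mulVec_smul, Matrix.mulVec_smul, hcol, hcol, ← hd]
    funext i
    simp only [Pi.sub_apply, Pi.smul_apply, smul_eq_mul]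
    ring
  have hw0 : w = 0 := by
    apply em_eigen d' (d p) w hw1
    intro i hi
    have : i = i0 := Fin.ext hi
    subst this
    simp only [hw]; ring
  -- linear independence of the columns
  have hinj : ∀ v : Fin N → ℂ, a.mulVec v = 0 → v = 0 := by
    intro v hv
    have := congrArg (fun y => a⁻¹.mulVec y) hv
    simp only [Matrix.mulVec_mulVec, Matrix.nonsing_inv_mul a ha, Matrix.one_mulVec,
      Matrix.mulVec_zero] at this
    exact this
  have h2 : a.mulVec (Pi.single p (a i0 q) - Pi.single q (a i0 p)) = 0 := by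
    rw [Matrix.mulVec_sub, Matrix.mulVec_single, Matrix.mulVec_single]
    funext i
    have := congrFun hw0 i
    simp only [hw, Pi.zero_apply] at this
    simp only [Pi.sub_apply, Pi.smul_apply, Matrix.col_apply, MulOpposite.smul_eq_mul_unop,
      MulOpposite.unop_op, Pi.zero_apply]
    linear_combination this
  have h3 := hinj _ h2
  have hq0 : a i0 q = 0 := by
    have := congrFun h3 p
    simpa [hpq] using this
  have hqv : (fun i => a i q) = 0 := by
    apply em_eigen d' (d q) _ (hcol q)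
    intro i hi
    have : i = i0 := Fin.ext hi
    rw [this]
    exact hq0
  have h4 : a.mulVec (Pi.single q 1) = 0 := by
    rw [Matrix.mulVec_single_one]
    exact hqv
  have h5 := congrFun (hinj _ h4) q
  simp at h5

end ex

end Pool.Agent.MTD
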