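import Pool.Agent.MTD.PoleD
import Pool.Agent.MP_c45d35_ag.Int

/-! # MTD : integrality of the functions with the pole bound property

Port of `Pool/Agent/MP_c45d35_ag/Int.lean`. -/

namespace Pool.Agent.MTD

open Matrix
open Pool.Agent.MP_c45d35_ag (chi UpUni LowUni chi_add chi_mul chi_zero chi_one chi_inv chi_map
  isIntegral_of_valuations)
open Pool.Agent.MP_c45d35_ag.BlockL (adjoin_sep hom_aeval aeval_eval aeval_mem UpUni_reflect
  UpUni_map)

/-! ## Generators -/

/-- Generator data: for each `κ` a set of columns. -/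
structure Gens (N : ℕ) (κ : Type) where
  m : κ → ℕ
  J : ∀ k, Fin (m k) → Fin N

/-- The weight of the columns. -/
def Gens.lam {n N : ℕ} {ι κ : Type} (G : Gens N κ) (D : Dat n N ι) (k : κ) : Fin n → ℤ :=
  ∑ j, D.wt (G.J k j)

/-- The conditions on the generators. -/
structure GAx {n N : ℕ} {ι κ : Type} [Fintype ι] [Fintype κ] (D : Dat n N ι) (G : Gens N κ) :
    Prop where
  J_inj : ∀ k, Function.Injective (G.J k)
  minor : ∀ (k : κ) {K : Type} [Field K] [Algebra ℂ K] (g b : Matrix (Fin N) (Fin N) K), D.IsG b →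
    (∀ i j, j < i → b i j = 0) → ∀ I : Fin (G.m k) → Fin N,
    ((g * b).submatrix I (G.J k)).det =
      (g.submatrix I (G.J k)).det * ∏ j, b (G.J k j) (G.J k j)
  dom : ∀ k, D.Dom (G.lam D k)
  lpos : ∀ k, 0 ≤ toLex (G.lam D k)
  cone : ∃ M : ℕ, 0 < M ∧ ∀ μ, D.Dom μ → ∃ c : κ → ℕ, M • μ = ∑ k, c k • G.lam D k
  top : ∀ (b : ℕ) (k : κ) (I : Fin (b + 1) → Fin (G.m k) → Fin N),
    ∃ P : MvPolynomial (Idx N (b + 1)) ℂ, InvP D (b + 1) P ∧ IsLead D P (G.lam D k) ∧
      ∀ y : XX D (b + 1), Eu D (G.lam D k) y.2.1 * cf D P (G.lam D k) y =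
        ∏ a, ((y.1 a).1.submatrix (I a) (G.J k)).det

/-! ## The coordinate algebra of `G^b × 𝔱^reg` -/

section coord
variable {n N : ℕ} {ι : Type} (D : Dat n N ι) (b : ℕ)

/-- Index set of the coordinates on `Mat^b × 𝔱`. -/
abbrev IdxX (n N b : ℕ) := (Fin b × Fin N × Fin N) ⊕ Fin n

/-- Coordinates of a point of `Mat^b × 𝔱`. -/
def coX {R : Type*} {n N b : ℕ} (g : Fin b → Matrix (Fin N) (Fin N) R) (x : Fin n → R) :
    IdxX n N b → R :=
  Sum.elim (fun p => g p.1 p.2.1 p.2.2) x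

/-- Restriction of polynomials to `G^b × 𝔱^reg`. -/
noncomputable def evX : MvPolynomial (IdxX n N b) ℂ →ₐ[ℂ] (XX D b → ℂ) :=
  MvPolynomial.aeval fun i => fun y : XX D b => coX (fun a => (y.1 a).1) y.2.1 i

/-- The algebra of polynomial functions on `G^b × 𝔱^reg`. -/
noncomputable def Gam : Subalgebra ℂ (XX D b → ℂ) := (evX D b).range

/-- The same algebra, as a type with its own instances. -/
def GamT : Type := ↥(Gam D b)

noncomputable instance : CommRing (GamT D b) := inferInstanceAs (CommRing ↥(Gam D b))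

noncomputable instance : Algebra ℂ (GamT D b) := inferInstanceAs (Algebra ℂ ↥(Gam D b))

variable {D b}

/-- The underlying function. -/
noncomputable def GamT.fn : GamT D b →ₐ[ℂ] (XX D b → ℂ) := (Gam D b).val

variable (D b) in
noncomputable def toGam : MvPolynomial (IdxX n N b) ℂ →ₐ[ℂ] GamT D b :=
  (evX D b).rangeRestrict

variable (D b) in
theorem toGam_surj : Function.Surjective (toGam D b) :=
  (evX D b).rangeRestrict_surjective

variable (D b) in
theorem fn_inj : Function.Injective (GamT.fn : GamT D b →ₐ[ℂ] (XX D b → ℂ)) :=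
  Subtype.val_injective

theorem fn_toGam (P : MvPolynomial (IdxX n N b) ℂ) (y : XX D b) :
    GamT.fn (toGam D b P) y = MvPolynomial.eval (coX (fun a => (y.1 a).1) y.2.1) P := by
  have h1 : GamT.fn (toGam D b P) = evX D b P := rfl
  rw [h1]
  have h2 : evX D b P y = (Pi.evalAlgHom ℂ (fun _ : XX D b => ℂ) y) (evX D b P) := rfl
  rw [h2, evX, hom_aeval, aeval_eval]
  rfl

noncomputable def ptEval (y : XX D b) : GamT D b →ₐ[ℂ] ℂ :=
  (Pi.evalAlgHom ℂ (fun _ : XX D b => ℂ) y).comp GamT.fn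

theorem gam_ext (f g : GamT D b) (h : ∀ y, ptEval y f = ptEval y g) : f = g :=
  fn_inj D b (funext h)

instance : IsNoetherianRing (GamT D b) :=
  isNoetherianRing_of_surjective _ _ (toGam D b : MvPolynomial (IdxX n N b) ℂ →+* GamT D b)
    (toGam_surj D b)

instance : IsReduced (GamT D b) :=
  isReduced_of_injective (GamT.fn : GamT D b →ₐ[ℂ] (XX D b → ℂ)) (fn_inj D b)

noncomputable def gG (D : Dat n N ι) {b : ℕ} (a : Fin b) : Matrix (Fin N) (Fin N) (GamT D b) :=
  Matrix.of fun i j => toGam D b (MvPolynomial.X (Sum.inl (a, i, j)))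

noncomputable def xG (D : Dat n N ι) (b : ℕ) (k : Fin n) : GamT D b :=
  toGam D b (MvPolynomial.X (Sum.inr k))

theorem toGam_eq (P : MvPolynomial (IdxX n N b) ℂ) :
    toGam D b P = MvPolynomial.aeval (coX (gG D) (xG D b)) P := by
  have : toGam D b = MvPolynomial.aeval (coX (gG D) (xG D b)) := by
    apply MvPolynomial.algHom_ext
    intro i
    rw [MvPolynomial.aeval_X]
    rcases i with p | p <;> rfl
  rw [this]

theorem pt_gG (y : XX D b) (a : Fin b) :
    (gG D a).map (ptEval y : GamT D b →+* ℂ) = (y.1 a).1 := by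
  ext i j
  have := fn_toGam (MvPolynomial.X (Sum.inl (a, i, j))) y
  rw [MvPolynomial.eval_X] at this
  exact this

theorem pt_xG (y : XX D b) (k : Fin n) : ptEval y (xG D b k) = y.2.1 k := by
  have := fn_toGam (MvPolynomial.X (Sum.inr k)) y
  rw [MvPolynomial.eval_X] at this
  exact this

/-- equations can be checked after a jointly injective family of homomorphisms -/
theorem isG_reflect {R : Type*} [CommRing R] [Algebra ℂ R] {Y : Type*} {T : Y → Type*}
    [∀ y, CommRing (T y)] [∀ y, Algebra ℂ (T y)] (φ : ∀ y, R →ₐ[ℂ] T y)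
    (hinj : ∀ a b, (∀ y, φ y a = φ y b) → a = b) (g : Matrix (Fin N) (Fin N) R)
    (h : ∀ y, D.IsG (g.map (φ y))) : D.IsG g := by
  intro p hp
  refine hinj _ _ fun y => ?_
  rw [map_zero, hom_aeval]
  exact h y p hp

theorem isG_gG (a : Fin b) : D.IsG (gG D a : Matrix (Fin N) (Fin N) (GamT D b)) :=
  isG_reflect (Y := XX D b) (T := fun _ => ℂ) (fun y => ptEval y)
    (fun f g h => gam_ext f g h) _ (fun y => by
      have := pt_gG y a
      have h2 : (gG D a).map (ptEval y) = (y.1 a).1 := this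
      rw [h2]; exact (y.1 a).2)

end coord

/-! ## Transfer of the pole bound property -/

section transfer
variable {n N : ℕ} {ι : Type} [Fintype ι] {D : Dat n N ι} {b : ℕ}

omit [Fintype ι] in
theorem coX_comp {R S : Type*} (ψ : R → S) (g : Fin b → Matrix (Fin N) (Fin N) R)
    (x : Fin n → R) :
    (fun i => ψ (coX g x i)) = coX (fun a => (g a).map ψ) (fun k => ψ (x k)) := by
  funext i
  rcases i with p | k <;> rfl

theorem PB_transfer (lam : Fin n → ℤ) (f : XX D b → ℂ)
    (P : MvPolynomial (IdxX n N b) ℂ)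
    (hP : ∀ y : XX D b, f y = MvPolynomial.eval (coX (fun a => (y.1 a).1) y.2.1) P)
    (hf : PB D b lam f) :
    ∃ H : MvPolynomial (Par N ι b ⊕ Fin n) ℂ,
      ∀ {K : Type} [Field K] [Algebra ℂ K] (k g u : Fin b → Matrix (Fin N) (Fin N) K)
        (Z : Fin b → ι → K) (t : Fin b → Fin n → Kˣ) (x : Fin n → K), (∀ a, D.IsG (k a)) →
        (∀ a, D.IsG (g a)) → (∀ β, ev (D.rt β) x ≠ 0) →
        (∀ a, UpUni (u a) ∧ D.IsG (u a) ∧ u a * D.Dx x = (D.Dx x + D.Y (Z a)) * u a ∧
          g a = k a * u a * D.Tt (t a)) →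
        MvPolynomial.aeval (coX g x) P = ((∏ a, chi lam (t a) : Kˣ) : K) *
          MvPolynomial.aeval (Sum.elim (parOf k Z) x) H := by
  obtain ⟨H, hH⟩ := hf
  refine ⟨H, ?_⟩
  intro K _ _ k g u Z t x hk hg hx hrel
  obtain ⟨S, hS⟩ : ∃ S : Set K, S =
    Set.range (fun p : Fin b × Fin N × Fin N => k p.1 p.2.1 p.2.2) ∪
    Set.range (fun p : Fin b × Fin N × Fin N => g p.1 p.2.1 p.2.2) ∪
    Set.range (fun p : Fin b × ι => Z p.1 p.2) ∪
    Set.range (fun p : Fin b × Fin N × Fin N => u p.1 p.2.1 p.2.2) ∪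
    Set.range (fun p : Fin b × Fin n => (t p.1 p.2 : K)) ∪
    Set.range (fun p : Fin b × Fin n => ((t p.1 p.2)⁻¹ : K)) ∪
    Set.range x ∪
    Set.range (fun β : ι => (ev (D.rt β) x)⁻¹) := ⟨_, rfl⟩
  have hSf : S.Finite := by
    rw [hS]
    exact (((((((Set.finite_range _).union (Set.finite_range _)).union (Set.finite_range _)).union
      (Set.finite_range _)).union (Set.finite_range _)).union (Set.finite_range _)).union
      (Set.finite_range _)).union (Set.finite_range _)
  have sub := fun z (hz : z ∈ S) => Algebra.subset_adjoin (R := ℂ) hz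
  have m1 : ∀ a i j, k a i j ∈ Algebra.adjoin ℂ S := fun a i j => sub _ (by
    rw [hS]; left; left; left; left; left; left; left; exact ⟨(a, i, j), rfl⟩)
  have m2 : ∀ a i j, g a i j ∈ Algebra.adjoin ℂ S := fun a i j => sub _ (by
    rw [hS]; left; left; left; left; left; left; right; exact ⟨(a, i, j), rfl⟩)
  have m3 : ∀ a β, Z a β ∈ Algebra.adjoin ℂ S := fun a β => sub _ (by
    rw [hS]; left; left; left; left; left; right; exact ⟨(a, β), rfl⟩)
  have m4 : ∀ a i j, u a i j ∈ Algebra.adjoin ℂ S := fun a i j => sub _ (by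
    rw [hS]; left; left; left; left; right; exact ⟨(a, i, j), rfl⟩)
  have m5 : ∀ a i, (t a i : K) ∈ Algebra.adjoin ℂ S := fun a i => sub _ (by
    rw [hS]; left; left; left; right; exact ⟨(a, i), rfl⟩)
  have m6 : ∀ a i, ((t a i : K)⁻¹) ∈ Algebra.adjoin ℂ S := fun a i => sub _ (by
    rw [hS]; left; left; right; exact ⟨(a, i), by simp⟩)
  have m7 : ∀ i, x i ∈ Algebra.adjoin ℂ S := fun i => sub _ (by
    rw [hS]; left; right; exact ⟨i, rfl⟩)
  have m8 : ∀ β, (ev (D.rt β) x)⁻¹ ∈ Algebra.adjoin ℂ S := fun β => sub _ (by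
    rw [hS]; right; exact ⟨β, rfl⟩)
  clear sub
  -- lifts
  obtain ⟨A, hA⟩ : ∃ A : Subalgebra ℂ K, A = Algebra.adjoin ℂ S := ⟨_, rfl⟩
  have sep : ∀ a : A, (∀ ψ : A →ₐ[ℂ] ℂ, ψ a = 0) → a = 0 := by
    subst hA
    exact adjoin_sep S hSf
  rw [← hA] at m1 m2 m3 m4 m5 m6 m7 m8
  have inj : Function.Injective (A.val : A →+* K) := Subtype.val_injective
  have inj' : Function.Injective A.val := Subtype.val_injective
  let k0 : Fin b → Matrix (Fin N) (Fin N) A := fun a => Matrix.of fun i j => ⟨k a i j, m1 a i j⟩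
  let g0 : Fin b → Matrix (Fin N) (Fin N) A := fun a => Matrix.of fun i j => ⟨g a i j, m2 a i j⟩
  let Z0 : Fin b → ι → A := fun a β => ⟨Z a β, m3 a β⟩
  let u0 : Fin b → Matrix (Fin N) (Fin N) A := fun a => Matrix.of fun i j => ⟨u a i j, m4 a i j⟩
  let t0 : Fin b → Fin n → Aˣ := fun a i => ⟨⟨t a i, m5 a i⟩, ⟨(t a i : K)⁻¹, m6 a i⟩,
    Subtype.ext (by simp), Subtype.ext (by simp)⟩
  let x0 : Fin n → A := fun i => ⟨x i, m7 i⟩
  have ek : ∀ a, (k0 a).map A.val = k a := fun a => rfl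
  have eg : ∀ a, (g0 a).map A.val = g a := fun a => rfl
  have eZ : ∀ a, (fun β => A.val (Z0 a β)) = Z a := fun a => rfl
  have eu : ∀ a, (u0 a).map A.val = u a := fun a => rfl
  have et : ∀ a, (fun i => Units.map ((A.val : A →+* K) : A →* K) (t0 a i)) = t a := by
    intro a
    funext i
    exact Units.ext rfl
  have hk0 : ∀ a, D.IsG (k0 a) := fun a =>
    isG_reflect (Y := Unit) (T := fun _ => K) (fun _ => A.val)
      (fun a b h => inj' (h ())) _ (fun _ => by rw [ek]; exact hk a)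
  have hg0 : ∀ a, D.IsG (g0 a) := fun a =>
    isG_reflect (Y := Unit) (T := fun _ => K) (fun _ => A.val)
      (fun a b h => inj' (h ())) _ (fun _ => by rw [eg]; exact hg a)
  have matinj : Function.Injective
      (fun M : Matrix (Fin N) (Fin N) A => M.map (A.val : A →+* K)) := by
    intro M M' h
    ext i j
    exact congrArg Subtype.val (inj (congrFun (congrFun h i) j))
  have hrel0 : ∀ a, UpUni (u0 a) ∧ D.IsG (u0 a) ∧
      u0 a * D.Dx x0 = (D.Dx x0 + D.Y (Z0 a)) * u0 a ∧ g0 a = k0 a * u0 a * D.Tt (t0 a) := by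
    intro a
    obtain ⟨r1, r0, r2, r3⟩ := hrel a
    refine ⟨UpUni_reflect _ inj _ r1, isG_reflect (Y := Unit) (T := fun _ => K) (fun _ => A.val)
      (fun a b h => inj' (h ())) _ (fun _ => by rw [eu]; exact r0), matinj ?_, matinj ?_⟩
    · change (u0 a * D.Dx x0).map (A.val : A →+* K) =
        ((D.Dx x0 + D.Y (Z0 a)) * u0 a).map (A.val : A →+* K)
      rw [Matrix.map_mul, Matrix.map_mul, D.Dx_map, Matrix.map_add _ (map_add _), D.Dx_map]
      have : (D.Y (Z0 a)).map (A.val : A →+* K) = D.Y (Z a) := D.Y_map A.val (Z0 a)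
      rw [this]
      exact r2
    · change (g0 a).map (A.val : A →+* K) = (k0 a * u0 a * D.Tt (t0 a)).map (A.val : A →+* K)
      rw [Matrix.map_mul, Matrix.map_mul, D.Tt_map, et]
      exact r3
  have hzero : MvPolynomial.aeval (coX g0 x0) P - ((∏ a, chi lam (t0 a) : Aˣ) : A) *
      MvPolynomial.aeval (Sum.elim (parOf k0 Z0) x0) H = 0 := by
    refine sep _ fun ψ => ?_
    have hxr : D.Reg (fun i => ψ (x0 i)) := by
      intro β h
      have e0 : A.val (ev (D.rt β) x0) = ev (D.rt β) x := ev_map (A.val : A →+* K) _ x0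
      have e1 : ev (D.rt β) x0 * ⟨_, m8 β⟩ = 1 := by
        apply inj
        rw [map_mul, map_one]
        change A.val (ev (D.rt β) x0) * (ev (D.rt β) x)⁻¹ = 1
        rw [e0]
        exact mul_inv_cancel₀ (hx β)
      have e2 := congrArg ψ e1
      rw [map_mul, map_one] at e2
      have e3 : ψ (ev (D.rt β) x0) = ev (D.rt β) (fun i => ψ (x0 i)) :=
        ev_map (ψ : A →+* ℂ) _ x0
      rw [e3, h, zero_mul] at e2
      exact zero_ne_one e2
    have key := hH (fun a => ⟨(k0 a).map ψ, (hk0 a).map ψ⟩)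
      (fun a => ⟨(g0 a).map ψ, (hg0 a).map ψ⟩)
      (fun a β => ψ (Z0 a β)) (fun a => (u0 a).map (ψ : A →+* ℂ))
      (fun a i => Units.map ((ψ : A →+* ℂ) : A →* ℂ) (t0 a i)) ⟨_, hxr⟩ (by
        intro a
        obtain ⟨r1, r0, r2, r3⟩ := hrel0 a
        refine ⟨UpUni_map _ _ r1, r0.map ψ, ?_, ?_⟩
        · have := congrArg (fun M : Matrix (Fin N) (Fin N) A => M.map (ψ : A →+* ℂ)) r2
          rw [Matrix.map_mul, Matrix.map_mul, D.Dx_map, Matrix.map_add _ (map_add _),
            D.Dx_map] at this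
          have h' : (D.Y (Z0 a)).map (ψ : A →+* ℂ) = D.Y fun β => ψ (Z0 a β) := D.Y_map ψ (Z0 a)
          rw [h'] at this
          exact this
        · have := congrArg (fun M : Matrix (Fin N) (Fin N) A => M.map (ψ : A →+* ℂ)) r3
          rw [Matrix.map_mul, Matrix.map_mul, D.Tt_map] at this
          exact this)
    rw [hP] at key
    have l1 : ψ (MvPolynomial.aeval (coX g0 x0) P) =
        MvPolynomial.eval (coX (fun a => (g0 a).map ψ) (fun i => ψ (x0 i))) P := by
      rw [hom_aeval, coX_comp (fun z => ψ z) g0 x0, aeval_eval]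
    have l2 : ψ (MvPolynomial.aeval (Sum.elim (parOf k0 Z0) x0) H) =
        MvPolynomial.eval (Sum.elim (parOf (fun a => (k0 a).map ψ) (fun a β => ψ (Z0 a β)))
          (fun i => ψ (x0 i))) H := by
      rw [hom_aeval, aeval_eval]
      congr 1
      congr 1
      funext i
      rcases i with (p | p) | p <;> rfl
    have l3 : ψ ((∏ a, chi lam (t0 a) : Aˣ) : A) =
        ((∏ a, chi lam (fun i => Units.map ((ψ : A →+* ℂ) : A →* ℂ) (t0 a i)) : ℂˣ) : ℂ) := by
      change ((Units.map ((ψ : A →+* ℂ) : A →* ℂ) (∏ a, chi lam (t0 a)) : ℂˣ) : ℂ) = _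
      rw [map_prod]
      congr 1
      refine Finset.prod_congr rfl fun a _ => ?_
      exact chi_map _ _ _
    rw [map_sub, map_mul, l1, l2, l3, sub_eq_zero]
    exact key
  have h2 := congrArg A.val (sub_eq_zero.1 hzero)
  rw [map_mul, hom_aeval, hom_aeval] at h2
  have h3 : A.val ((∏ a, chi lam (t0 a) : Aˣ) : A) = ((∏ a, chi lam (t a) : Kˣ) : K) := by
    change ((Units.map ((A.val : A →+* K) : A →* K) (∏ a, chi lam (t0 a)) : Kˣ) : K) = _
    rw [map_prod]
    congr 1
    refine Finset.prod_congr rfl fun a _ => ?_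
    rw [chi_map, et]
  rw [h3] at h2
  have h4 : (fun i => A.val (coX g0 x0 i)) = coX g x := by
    funext i
    rcases i with p | p <;> rfl
  have h5 : (fun i => A.val (Sum.elim (parOf k0 Z0) x0 i)) = Sum.elim (parOf k Z) x := by
    funext i
    rcases i with (p | p) | p <;> rfl
  rw [h4, h5] at h2
  exact h2

end transfer

end Pool.Agent.MTD
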