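import Pool.Agent.MTD.TA1

/-! # MTD : type `A`, the axioms -/

namespace Pool.Agent.MTD

open Matrix
open Pool.Agent.MP_c45d35_ag.BlockD (Up)

/-- conjugation of upper triangular matrices by upper triangular matrices -/
theorem up_conj {N : ℕ} {R : Type*} [CommRing R] (g X : Matrix (Fin N) (Fin N) R)
    (hg : Up g) (hd : IsUnit g.det) (hX : Up X) :
    Up (g * X * g⁻¹) ∧ ∀ i, (g * X * g⁻¹) i i = X i i := by
  have hi := Up.inv hg hd
  refine ⟨(hg.mul hX).mul hi, fun i => ?_⟩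
  rw [(hg.mul hX).diag_mul hi, hg.diag_mul hX]
  have h1 := hg.diag_mul hi i
  rw [Matrix.mul_nonsing_inv g hd, Matrix.one_apply_eq] at h1
  linear_combination -(X i i) * h1

namespace TA

open Pool.Agent.MP_c45d35_ag (chi UpUni LowUni IsHess fm chi_add chi_zero chi_mul)


variable {n : ℕ}

theorem isG_iff {R : Type*} [CommRing R] [Algebra ℂ R] (g : Matrix (Fin (n + 1)) (Fin (n + 1)) R) :
    (DA n).IsG g ↔ g.det = 1 := by
  unfold Dat.IsG
  show (∀ p ∈ eqsA n, _) ↔ _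
  unfold eqsA
  simp only [Set.mem_singleton_iff, forall_eq, map_sub, map_one]
  have h : MvPolynomial.aeval (fun ij : Fin (n + 1) × Fin (n + 1) => g ij.1 ij.2)
      (Matrix.det (Matrix.of fun i j => (MvPolynomial.X (i, j) :
        MvPolynomial (Fin (n + 1) × Fin (n + 1)) ℂ))) = g.det := by
    rw [AlgHom.map_det]
    congr 1
    ext i j
    simp
  rw [h, sub_eq_zero]

theorem sw_wt (β : RA n) (i : Fin (n + 1)) :
    (DA n).sw β (wtA i) = wtA (Equiv.swap β.1.1 β.1.2 i) := by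
  have hne : β.1.1 ≠ β.1.2 := ne_of_lt β.2
  show wtA i - ev (crA β) (wtA i) • (wtA β.1.1 - wtA β.1.2) = _
  rw [ev_crA_wt]
  by_cases h1 : i = β.1.1
  · subst h1
    rw [if_pos rfl, if_neg hne, Equiv.swap_apply_left, sub_zero, one_smul]
    abel
  · by_cases h2 : i = β.1.2
    · rw [if_neg h1, if_pos h2, h2, Equiv.swap_apply_right, zero_sub, neg_one_smul]
      abel
    · rw [if_neg h1, if_neg h2, Equiv.swap_apply_of_ne_of_ne h1 h2, sub_zero, zero_smul, sub_zero]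

theorem wt_inj : Function.Injective (wtA : Fin (n + 1) → Fin n → ℤ) := by
  intro i j h
  have hc : ∀ p, cc (wtA i) p = cc (wtA j) p := fun p => by rw [h]
  have h1 := hc i
  have h2 := hc j
  rw [cc_wt, cc_wt] at h1 h2
  rw [if_pos rfl] at h1
  rw [if_pos rfl] at h2
  by_contra hne
  rw [if_neg (Ne.symm hne)] at h1
  rw [if_neg hne] at h2
  split_ifs at h1 h2 <;> omega

theorem pair_rt (β γ : RA n) : ev (crA β) (wtA γ.1.1 - wtA γ.1.2) =
    ((if γ.1.1 = β.1.1 then 1 else 0) - (if γ.1.1 = β.1.2 then 1 else 0)) -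
    ((if γ.1.2 = β.1.1 then 1 else 0) - (if γ.1.2 = β.1.2 then 1 else 0)) := by
  have h := ev_sub (crA β) (wtA γ.1.1) (wtA γ.1.2)
  rw [h, ev_crA_wt, ev_crA_wt]

theorem rt_indep (β γ : RA n) (a b : ℤ) (hne : β ≠ γ)
    (h : a • (wtA β.1.1 - wtA β.1.2) = b • (wtA γ.1.1 - wtA γ.1.2)) : a = 0 ∧ b = 0 := by
  have h1 := congrArg (fun μ => ev (crA β) μ) h
  have h2 := congrArg (fun μ => ev (crA γ) μ) h
  simp only [ev_smul] at h1 h2
  rw [pair_rt, pair_rt] at h1 h2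
  have hb : (β.1.1 : ℕ) < (β.1.2 : ℕ) := β.2
  have hg : (γ.1.1 : ℕ) < (γ.1.2 : ℕ) := γ.2
  have hne' : ¬ ((β.1.1 : ℕ) = (γ.1.1 : ℕ) ∧ (β.1.2 : ℕ) = (γ.1.2 : ℕ)) := fun h' =>
    hne (Subtype.ext (Prod.ext (Fin.ext h'.1) (Fin.ext h'.2)))
  simp only [Fin.ext_iff] at h1 h2
  split_ifs at h1 h2 <;> constructor <;> omega

theorem lexpos (β : RA n) : 0 < toLex (wtA β.1.1 - wtA β.1.2) := by
  have hb : (β.1.1 : ℕ) < (β.1.2 : ℕ) := β.2
  have h2 := β.1.2.2
  by_cases hj : (β.1.2 : ℕ) = n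
  · refine ⟨⟨0, by omega⟩, fun l hl => absurd hl (by simp [Fin.lt_def]), ?_⟩
    show (0 : ℤ) < wtA β.1.1 ⟨0, by omega⟩ - wtA β.1.2 ⟨0, by omega⟩
    unfold wtA
    split_ifs <;> first | omega | (simp only at *; omega)
  · refine ⟨⟨β.1.1, by omega⟩, fun l hl => ?_, ?_⟩
    · have hl' : (l : ℕ) < (β.1.1 : ℕ) := hl
      show (0 : ℤ) = wtA β.1.1 l - wtA β.1.2 l
      unfold wtA
      split_ifs <;> omega
    · show (0 : ℤ) < wtA β.1.1 ⟨β.1.1, by omega⟩ - wtA β.1.2 ⟨β.1.1, by omega⟩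
      have e1 : wtA β.1.1 (⟨β.1.1, by omega⟩ : Fin n) = 1 := by simp [wtA]
      have e2 : wtA β.1.2 (⟨β.1.1, by omega⟩ : Fin n) = 0 := by
        have h3 : ¬ ((β.1.2 : ℕ) = (β.1.1 : ℕ)) := by omega
        simp [wtA, h3, hj]
      rw [e1, e2]
      norm_num

theorem cr_sep (μ : Fin n → ℤ) (h : ∀ β : RA n, ev (crA β) μ = 0) : μ = 0 := by
  funext k
  have hk := k.2
  have h1 := h ⟨(⟨k, by omega⟩, Fin.last n), by rw [Fin.lt_def]; exact hk⟩
  rw [ev_crA] at h1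
  have h2 : cc μ (Fin.last n) = 0 := by
    unfold cc
    rw [dif_neg (by simp)]
  have h3 : cc μ (⟨k, by omega⟩ : Fin (n + 1)) = μ k := by
    unfold cc
    rw [dif_pos hk]
  simp only at h1
  rw [h2, h3, sub_zero] at h1
  exact h1

theorem refl_rt (β γ : RA n) : ∃ γ' : RA n,
    (DA n).sw β ((DA n).rt γ) = (DA n).rt γ' ∨ (DA n).sw β ((DA n).rt γ) = - (DA n).rt γ' := by
  have h1 : (DA n).sw β ((DA n).rt γ) = (DA n).sw β (wtA γ.1.1) - (DA n).sw β (wtA γ.1.2) := by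
    show _ - ev _ (wtA γ.1.1 - wtA γ.1.2) • _ = (_ - ev _ _ • _) - (_ - ev _ _ • _)
    have h := ev_sub ((DA n).cr β) (wtA γ.1.1) (wtA γ.1.2)
    rw [h, sub_smul]
    show (wtA γ.1.1 - wtA γ.1.2) - _ = _
    abel
  rw [h1, sw_wt, sw_wt]
  have hne : Equiv.swap β.1.1 β.1.2 γ.1.1 ≠ Equiv.swap β.1.1 β.1.2 γ.1.2 := fun h' =>
    (ne_of_lt γ.2) ((Equiv.swap β.1.1 β.1.2).injective h')
  rcases lt_or_gt_of_ne hne with h | h
  · exact ⟨⟨(_, _), h⟩, Or.inl rfl⟩
  · exact ⟨⟨(_, _), h⟩, Or.inr (neg_sub _ _).symm⟩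

theorem E_supp (β : RA n) (i j : Fin (n + 1)) (h : EA β i j ≠ 0) :
    (j : ℕ) = (i : ℕ) + ((β.1.2 : ℕ) - (β.1.1 : ℕ)) ∧ wtA i - wtA j = wtA β.1.1 - wtA β.1.2 := by
  have hb : (β.1.1 : ℕ) < (β.1.2 : ℕ) := β.2
  simp only [EA, Matrix.of_apply] at h
  split_ifs at h with h'
  · obtain ⟨rfl, rfl⟩ := h'
    exact ⟨by omega, rfl⟩
  · exact absurd rfl h

theorem torus_det {R : Type*} [CommRing R] (t : Fin n → Rˣ) : ((DA n).Tt t).det = 1 := by
  show (Matrix.diagonal fun i => ((chi (wtA i) t : Rˣ) : R)).det = 1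
  rw [Matrix.det_diagonal, ← Units.coe_prod, ← chi_sum, sum_wt, chi_zero, Units.val_one]

theorem Y_entry' {R : Type*} [CommRing R] [Algebra ℂ R] (Z : RA n → R) (i j : Fin (n + 1)) :
    (DA n).Y Z i j = if h : i < j then Z ⟨(i, j), h⟩ else 0 := by
  rw [Dat.Y_apply]
  split_ifs with h
  · rw [Finset.sum_eq_single ⟨(i, j), h⟩]
    · show Z _ * algebraMap ℂ R (EA _ i j) = _
      simp [EA]
    · intro β _ hβ
      show Z _ * algebraMap ℂ R (EA _ i j) = _
      have : ¬ (i = β.1.1 ∧ j = β.1.2) := fun h' => hβ (Subtype.ext (Prod.ext h'.1.symm h'.2.symm))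
      simp [EA, this]
    · intro h'
      exact absurd (Finset.mem_univ _) h'
  · refine Finset.sum_eq_zero fun β _ => ?_
    show Z _ * algebraMap ℂ R (EA _ i j) = _
    have : ¬ (i = β.1.1 ∧ j = β.1.2) := fun h' => h (by rw [h'.1, h'.2]; exact β.2)
    simp [EA, this]

theorem Y_upper' {R : Type*} [CommRing R] [Algebra ℂ R] (Z : RA n → R) : Dp 1 ((DA n).Y Z) := by
  intro i j hij
  rw [Y_entry', dif_neg]
  rw [Fin.lt_def]
  omega

theorem det_upUni {N : ℕ} {R : Type*} [CommRing R] {u : Matrix (Fin N) (Fin N) R} (h : UpUni u) :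
    u.det = 1 := by
  rw [Up.det h.1]
  exact Finset.prod_eq_one fun i _ => h.2 i

theorem det_lowUni {N : ℕ} {R : Type*} [CommRing R] {u : Matrix (Fin N) (Fin N) R} (h : LowUni u) :
    u.det = 1 := by
  rw [← Matrix.det_transpose]
  exact det_upUni ⟨fun i j hij => h.1 j i hij, fun i => h.2 i⟩

theorem Dx_up {R : Type*} [CommRing R] [Algebra ℂ R] (x : Fin n → R) (Z : RA n → R) :
    Up ((DA n).Dx x + (DA n).Y Z) := by
  intro i j hij
  have hij' : (j : ℕ) < i := hij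
  rw [Matrix.add_apply, Dat.Dx, Matrix.diagonal_apply_ne _ (ne_of_gt hij),
    Y_upper' Z i j (by omega), add_zero]

theorem conj' {R : Type} [CommRing R] [Algebra ℂ R] (g : Matrix (Fin (n + 1)) (Fin (n + 1)) R)
    (x : Fin n → R) (Z : RA n → R) (hg : g.det = 1) (hup : ∀ i j, j < i → g i j = 0) :
    ∃ Z' : RA n → R, g * ((DA n).Dx x + (DA n).Y Z) = ((DA n).Dx x + (DA n).Y Z') * g := by
  have hd : IsUnit g.det := by rw [hg]; exact isUnit_one
  obtain ⟨h1, h2⟩ := up_conj g _ hup hd (Dx_up x Z)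
  refine ⟨fun β => (g * ((DA n).Dx x + (DA n).Y Z) * g⁻¹) β.1.1 β.1.2, ?_⟩
  have h3 : (DA n).Dx x + (DA n).Y (fun β : RA n =>
      (g * ((DA n).Dx x + (DA n).Y Z) * g⁻¹) β.1.1 β.1.2) =
      g * ((DA n).Dx x + (DA n).Y Z) * g⁻¹ := by
    ext i j
    rcases lt_trichotomy i j with h | h | h
    · rw [Matrix.add_apply, Y_entry', dif_pos h, Dat.Dx, Matrix.diagonal_apply_ne _ (ne_of_lt h),
        zero_add]
    · subst h
      rw [h2, Matrix.add_apply, Matrix.add_apply, Y_entry', Y_entry', dif_neg (lt_irrefl _),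
        dif_neg (lt_irrefl _)]
    · rw [h1 i j h, Dx_up _ _ i j h]
  rw [h3, Matrix.mul_assoc, Matrix.nonsing_inv_mul g hd, Matrix.mul_one]

theorem levi' {K : Type} [Field K] (g : Matrix (Fin (n + 1)) (Fin (n + 1)) K) (hg : g.det = 1)
    (hd : g.det = ∏ i, g i i) :
    ∃ t : Fin n → Kˣ, ∀ i, g i i = ((chi (wtA i) t : Kˣ) : K) := by
  have h1 : ∏ i, g i i = 1 := by rw [← hd, hg]
  have hne : ∀ i, g i i ≠ 0 := by
    intro i h
    have h2 := Finset.prod_eq_zero (f := fun i => g i i) (Finset.mem_univ i) h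
    exact zero_ne_one (h2.symm.trans h1)
  set t : Fin n → Kˣ := fun k => Units.mk0 (g k.castSucc k.castSucc) (hne _) with ht
  have hlow : ∀ k : Fin n, ((chi (wtA k.castSucc) t : Kˣ) : K) = g k.castSucc k.castSucc := by
    intro k
    have h2 : chi (wtA k.castSucc) t = t k := by
      unfold chi
      rw [Finset.prod_eq_single k]
      · simp [wtA]
      · intro l _ hl
        have h3 : ¬ ((k : ℕ) = (l : ℕ)) := fun h' => hl (Fin.ext h'.symm)
        have h4 : ¬ ((k : ℕ) = n) := by have := k.2; omega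
        simp [wtA, h3, h4]
      · intro h'
        exact absurd (Finset.mem_univ _) h'
    rw [h2]
    rfl
  refine ⟨t, fun i => ?_⟩
  have h5 : ∏ i : Fin (n + 1), ((chi (wtA i) t : Kˣ) : K) = 1 := by
    rw [← Units.coe_prod, ← chi_sum, sum_wt, chi_zero, Units.val_one]
  by_cases hi : (i : ℕ) < n
  · have : i = (⟨i, hi⟩ : Fin n).castSucc := Fin.ext rfl
    rw [this, hlow]
  · have : i = Fin.last n := Fin.ext (by have := i.2; rw [Fin.val_last]; omega)
    rw [Fin.prod_univ_castSucc] at h1 h5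
    rw [Finset.prod_congr rfl fun k _ => hlow k] at h5
    have hp : ∏ k : Fin n, g k.castSucc k.castSucc ≠ 0 :=
      Finset.prod_ne_zero_iff.2 fun k _ => hne _
    rw [this]
    exact mul_left_cancel₀ hp (h1.trans h5.symm)

end TA

end Pool.Agent.MTD
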