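import Pool.Agent.MTD.TD1
import Pool.Agent.MP_c45d35_ag.Iwa

/-! # MTD : type `D`, the Iwasawa decomposition (row D-IWA)

Port of `Pool/Agent/MP_c45d35_ag/Iwa.lean` (theorem `iwasawa` there, for the anti-involution `st`)
to the anti-involution `sd`.  `BlockD.exists_triang`, `BlockD.Up.*`, `BlockD.mem_of_sq_mem`,
`BlockD.exists_unit_minor` can be used as they are; `BlockD.exists_sqrt` must be ported from `st`
to `sd` (same proof; `sd X i j = X (rev j) (rev i)`, there are no signs and no middle index since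
the size is `2n`).  The determinants: `k.det * b.det = 1` and `b.det = ∏ b_ii = 1`, because
`b_{rev i, rev i} * b_ii = 1` (compare `up_diag` in `TD2.lean`). -/

namespace Pool.Agent.MTD.TD

open Matrix
open Pool.Agent.MP_c45d35_ag (chi UpUni LowUni)

open Pool.Agent.MP_c45d35_ag.BlockD (Up)

theorem iwa_up {N : ℕ} {R : Type*} [CommRing R] {A : Matrix (Fin N) (Fin N) R} (hA : Up A) :
    Up (sd A) := by
  intro i j hij
  rw [sd_apply, hA _ _ (Fin.rev_lt_rev.2 hij)]

/-- the symmetric unipotent normal form -/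
theorem iwa_sqrt {N : ℕ} {R : Type*} [CommRing R] (h2 : R) (hh : 2 * h2 = 1) : ∀ n d : ℕ, N ≤ d + n → 1 ≤ d →
    ∀ A : Matrix (Fin N) (Fin N) R, UpUni A → sd A = A →
      (∀ i j : Fin N, i < j → (j : ℕ) < (i : ℕ) + d → A i j = 0) →
      ∃ c : Matrix (Fin N) (Fin N) R, UpUni c ∧ sd c * A * c = 1 := by
  intro n
  induction n with
  | zero =>
    intro d hd _ A hA _ hz
    refine ⟨1, UpUni.one, ?_⟩
    rw [sd_one, one_mul, mul_one]
    ext i j
    rcases lt_trichotomy i j with h | h | h
    · rw [hz i j h (by have := j.2; omega), Matrix.one_apply_ne (ne_of_lt h)]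
    · subst h
      rw [hA.2, Matrix.one_apply_eq]
    · rw [hA.1 i j h, Matrix.one_apply_ne (ne_of_gt h)]
  | succ n ih =>
    intro d hd hd1 A hA hst hz
    set U : Matrix (Fin N) (Fin N) R := A - 1 with hU
    have hAU : A = 1 + U := by rw [hU]; abel
    set c1 : Matrix (Fin N) (Fin N) R := 1 - h2 • U with hc1
    have hstU : sd U = U := by rw [hU, sd_sub, hst, sd_one]
    have hstc : sd c1 = c1 := by rw [hc1, sd_sub, sd_one, sd_smul, hstU]
    have hUz : ∀ i j : Fin N, (j : ℕ) < (i : ℕ) + d → U i j = 0 := by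
      intro i j hij
      rw [hU, Matrix.sub_apply]
      rcases lt_trichotomy i j with h | h | h
      · rw [hz i j h hij, Matrix.one_apply_ne (ne_of_lt h), sub_zero]
      · subst h
        rw [hA.2, Matrix.one_apply_eq, sub_self]
      · rw [hA.1 i j h, Matrix.one_apply_ne (ne_of_gt h), sub_zero]
    have hUU : ∀ i j : Fin N, (j : ℕ) < (i : ℕ) + (d + 1) → (U * U) i j = 0 := by
      intro i j hij
      rw [Matrix.mul_apply]
      refine Finset.sum_eq_zero fun k _ => ?_
      by_cases h : (k : ℕ) < (i : ℕ) + d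
      · rw [hUz i k h, zero_mul]
      · rw [hUz k j (by omega), mul_zero]
    have hc1U : UpUni c1 := by
      constructor
      · intro i j hij
        have h' : (j : ℕ) < (i : ℕ) := hij
        rw [hc1, Matrix.sub_apply, Matrix.smul_apply, hUz i j (by omega),
          Matrix.one_apply_ne (ne_of_gt hij), smul_zero, sub_zero]
      · intro i
        rw [hc1, Matrix.sub_apply, Matrix.smul_apply, hUz i i (by omega),
          Matrix.one_apply_eq, smul_zero, sub_zero]
    have hA2 : sd c1 * A * c1 = 1 + (U * U) * (-(3 * h2 * h2) • 1 + (h2 * h2) • U) := by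
      rw [hstc, hAU, hc1]
      have e1 : (1 - h2 • U) * (1 + U) * (1 - h2 • U) =
          1 + (1 - 2 * h2) • U + (h2 * h2 - 2 * h2) • (U * U) + (h2 * h2) • (U * U * U) := by
        simp only [sub_mul, mul_sub, add_mul, mul_add, one_mul, mul_one, Matrix.smul_mul,
          Matrix.mul_smul, smul_smul, Matrix.mul_assoc]
        module
      rw [e1, hh, sub_self, zero_smul, add_zero, mul_add, Matrix.mul_smul, Matrix.mul_smul,
        mul_one]
      have e2 : h2 * h2 - 1 = -(3 * h2 * h2) := by linear_combination (2 * h2 + 1) * hh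
      rw [e2, add_assoc]
    have hA2z : ∀ i j : Fin N, (j : ℕ) < (i : ℕ) + (d + 1) →
        ((U * U) * (-(3 * h2 * h2) • 1 + (h2 * h2) • U)) i j = 0 := by
      intro i j hij
      rw [Matrix.mul_apply]
      refine Finset.sum_eq_zero fun k _ => ?_
      by_cases h : (k : ℕ) < (i : ℕ) + (d + 1)
      · rw [hUU i k h, zero_mul]
      · have hne : k ≠ j := by
          rintro rfl
          omega
        rw [Matrix.add_apply, Matrix.smul_apply, Matrix.smul_apply, hUz k j (by omega),
          Matrix.one_apply_ne hne, smul_zero, smul_zero, add_zero, mul_zero]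
    have hA2U : UpUni (sd c1 * A * c1) := by
      rw [hstc]
      exact (hc1U.mul hA).mul hc1U
    have hA2s : sd (sd c1 * A * c1) = sd c1 * A * c1 := by
      rw [sd_mul, sd_mul, sd_sd, hst, Matrix.mul_assoc]
    obtain ⟨c2, hc2, hc2'⟩ := ih (d + 1) (by omega) (by omega) (sd c1 * A * c1) hA2U hA2s
      (by
        intro i j hij hlt
        rw [hA2, Matrix.add_apply, hA2z i j hlt, Matrix.one_apply_ne (ne_of_lt hij), add_zero])
    refine ⟨c1 * c2, hc1U.mul hc2, ?_⟩
    rw [sd_mul, ← hc2']
    simp only [Matrix.mul_assoc]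


theorem iwasawa {n : ℕ} {K : Type} [Field K] [Algebra ℂ K] (V : ValuationSubring K)
    (hV : ∀ z : ℂ, algebraMap ℂ K z ∈ V) (g : Matrix (Fin (2 * n)) (Fin (2 * n)) K)
    (hg : sd g * g = 1) (hd : g.det = 1) :
    ∃ k b : Matrix (Fin (2 * n)) (Fin (2 * n)) K, (sd k * k = 1 ∧ k.det = 1) ∧ (∀ i j, k i j ∈ V) ∧
      (sd b * b = 1 ∧ b.det = 1) ∧ (∀ i j, j < i → b i j = 0) ∧ g = k * b := by
  have hgd : IsUnit g.det := by rw [hd]; exact isUnit_one
  classical
  set φ : V →+* K := algebraMap V K with hφ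
  have hinj : Function.Injective φ := Subtype.val_injective
  obtain ⟨q, hq, hq0⟩ := Pool.Agent.MP_c45d35_ag.BlockD.exists_triang V g hgd.ne_zero (2 * n) le_rfl
  -- k1 = q⁻¹ over V, b1 = q g
  set k1 : Matrix (Fin (2 * n)) (Fin (2 * n)) V := q⁻¹ with hk1
  set b1 : Matrix (Fin (2 * n)) (Fin (2 * n)) K := q.map φ * g with hb1
  have hb1U : Up b1 := fun i j h => hq0 i j j.2 h
  have hqk : k1 * q = 1 := Matrix.nonsing_inv_mul q hq
  have hg1 : g = k1.map φ * b1 := by
    rw [hb1, ← Matrix.mul_assoc, ← Matrix.map_mul, hqk, Matrix.map_one _ (map_zero _) (map_one _),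
      Matrix.one_mul]
  have hk1d : IsUnit k1.det := by
    have := congrArg Matrix.det hqk
    rw [Matrix.det_mul, Matrix.det_one] at this
    exact IsUnit.of_mul_eq_one _ this
  have hb1d : IsUnit b1.det := by
    rw [hb1, Matrix.det_mul]
    refine IsUnit.mul ?_ hgd
    have := (RingHom.map_det φ q).symm
    rw [RingHom.mapMatrix_apply] at this
    rw [this]
    exact hq.map φ
  -- A
  set A : Matrix (Fin (2 * n)) (Fin (2 * n)) V := sd k1 * k1 with hA
  have hAst : sd A = A := by rw [hA, sd_mul, sd_sd]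
  have hAeq : sd b1 * A.map φ * b1 = 1 := by
    have h1 := hg
    rw [hg1, sd_mul] at h1
    rw [hA, Matrix.map_mul, ← sd_map, ← h1]
    simp only [Matrix.mul_assoc]
  have hAup : Up A := by
    have h2 : A.map φ = (sd b1)⁻¹ * b1⁻¹ := by
      have hs : IsUnit (sd b1).det := by rw [sd_det]; exact hb1d
      calc A.map φ = ((sd b1)⁻¹ * sd b1) * A.map φ * (b1 * b1⁻¹) := by
            rw [Matrix.nonsing_inv_mul _ hs, Matrix.mul_nonsing_inv _ hb1d, Matrix.one_mul,
              Matrix.mul_one]
        _ = (sd b1)⁻¹ * (sd b1 * A.map φ * b1) * b1⁻¹ := by simp only [Matrix.mul_assoc]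
        _ = _ := by rw [hAeq, Matrix.mul_one]
    have h3 : Up (A.map φ) := by
      rw [h2]
      refine ((iwa_up hb1U).inv ?_).mul (hb1U.inv hb1d)
      rw [sd_det]; exact hb1d
    intro i j hij
    have := h3 i j hij
    rw [Matrix.map_apply] at this
    exact hinj (by rw [this, map_zero])
  have hAd : IsUnit A.det := by
    rw [hA, Matrix.det_mul, sd_det]
    exact hk1d.mul hk1d
  have hAi : ∀ i, IsUnit (A i i) := by
    intro i
    rw [hAup.det] at hAd
    exact isUnit_of_dvd_unit (Finset.dvd_prod_of_mem (fun i => A i i) (Finset.mem_univ i)) hAd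
  have hArev : ∀ i, A (Fin.rev i) (Fin.rev i) = A i i := by
    intro i
    have h1 := congrFun (congrFun hAst i) i
    rw [sd_apply] at h1
    exact h1
  -- the diagonal correction
  have hne : ∀ i : Fin (2 * n), Fin.rev i ≠ i := by
    intro i h
    have h1 := congrArg Fin.val h
    rw [Fin.val_rev] at h1
    have h2 := i.2
    omega
  have hc : ∃ c : Fin (2 * n) → V, ∀ i, c (Fin.rev i) * A i i * c i = 1 := by
    have h1 : ∀ i : Fin (2 * n), ∃ c : V, (i < Fin.rev i → c = 1) ∧
        (Fin.rev i < i → c * A i i = 1) := by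
      intro i
      rcases lt_trichotomy (Fin.rev i) i with h | h | h
      · obtain ⟨u, hu⟩ := hAi i
        refine ⟨(↑u⁻¹ : V), fun h' => absurd h' (not_lt.2 h.le), fun _ => ?_⟩
        rw [← hu, Units.inv_mul]
      · exact absurd h (hne i)
      · exact ⟨1, fun _ => rfl, fun h' => absurd h' (not_lt.2 h.le)⟩
    choose c hc1 hc2 using h1
    refine ⟨c, fun i => ?_⟩
    rcases lt_trichotomy (Fin.rev i) i with h | h | h
    · have h2 : c (Fin.rev i) = 1 := hc1 (Fin.rev i) (by rw [Fin.rev_rev]; exact h)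
      rw [h2, one_mul, mul_comm]
      exact hc2 i h
    · exact absurd h (hne i)
    · have h2 : c i = 1 := hc1 i h
      have h3 := hc2 (Fin.rev i) (by rw [Fin.rev_rev]; exact h)
      rw [hArev] at h3
      rw [h2, mul_one]
      exact h3
  obtain ⟨c, hc⟩ := hc
  have hcu : ∀ i, IsUnit (c i) := fun i =>
    IsUnit.of_mul_eq_one (c (Fin.rev i) * A i i) (by rw [mul_comm]; exact hc i)
  set A1 : Matrix (Fin (2 * n)) (Fin (2 * n)) V := sd (Matrix.diagonal c) * A * Matrix.diagonal c with hA1
  have hA1i : ∀ i j, A1 i j = c (Fin.rev i) * A i j * c j := by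
    intro i j
    rw [hA1, sd_diagonal, Matrix.mul_diagonal, Matrix.diagonal_mul]
  have hA1U : UpUni A1 := by
    constructor
    · intro i j hij
      rw [hA1i, hAup i j hij, mul_zero, zero_mul]
    · intro i
      rw [hA1i]
      exact hc i
  have hA1s : sd A1 = A1 := by
    have h1 : sd (sd (Matrix.diagonal c) * A * Matrix.diagonal c) =
        sd (Matrix.diagonal c) * A * Matrix.diagonal c := by
      rw [sd_mul, sd_mul, sd_sd, hAst, ← Matrix.mul_assoc]
    rw [hA1]
    exact h1
  have hhalf : ∃ h2 : V, 2 * h2 = 1 := by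
    refine ⟨⟨algebraMap ℂ K (1 / 2), hV _⟩, ?_⟩
    apply hinj
    rw [map_mul, map_one, map_ofNat]
    show (2 : K) * algebraMap ℂ K (1 / 2) = 1
    rw [← map_ofNat (algebraMap ℂ K) 2, ← map_mul]
    norm_num
  obtain ⟨h2, hh2⟩ := hhalf
  obtain ⟨c2, hc2U, hc2⟩ := iwa_sqrt h2 hh2 (2 * n) 1 (by omega) le_rfl A1 hA1U hA1s
    (by intro i j hij hlt; exact absurd hij (not_lt.2 (by
      have : (j : ℕ) ≤ (i : ℕ) := by omega
      exact this)))
  -- k
  set kk : Matrix (Fin (2 * n)) (Fin (2 * n)) V := k1 * (Matrix.diagonal c * c2) with hkk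
  have hkst : sd kk * kk = 1 := by
    rw [hkk, sd_mul, sd_mul, ← hc2, hA1, hA]
    simp only [Matrix.mul_assoc]
  have hkstK : sd (kk.map φ) * kk.map φ = 1 := by
    rw [sd_map, ← Matrix.map_mul, hkst, Matrix.map_one _ (map_zero _) (map_one _)]
  have hkstK' : kk.map φ * sd (kk.map φ) = 1 := mul_eq_one_comm.mp hkstK
  set b : Matrix (Fin (2 * n)) (Fin (2 * n)) K := sd (kk.map φ) * g with hb
  have hgkb : g = kk.map φ * b := by
    rw [hb, ← Matrix.mul_assoc, hkstK', Matrix.one_mul]
  have hbst : sd b * b = 1 := by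
    rw [hb, sd_mul, sd_sd]
    calc sd g * kk.map φ * (sd (kk.map φ) * g) = sd g * (kk.map φ * sd (kk.map φ)) * g := by
          simp only [Matrix.mul_assoc]
      _ = 1 := by rw [hkstK', Matrix.mul_one, hg]
  have hdiagU : Up (Matrix.diagonal c * c2) :=
    (Up.diagonal c).mul (fun i j h => hc2U.1 i j h)
  have hdiagd : IsUnit (Matrix.diagonal c * c2).det := by
    rw [Matrix.det_mul, hc2U.det, mul_one, Matrix.det_diagonal]
    exact (IsUnit.prod_univ_iff).2 hcu
  have hbU : Up b := by
    have h3 : (Matrix.diagonal c * c2).map φ * b = b1 := by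
      have h4 : k1.map φ * ((Matrix.diagonal c * c2).map φ * b) = k1.map φ * b1 := by
        rw [← hg1, hgkb, hkk, Matrix.map_mul (L := k1), Matrix.mul_assoc]
      have h5 : q.map φ * k1.map φ = 1 := by
        rw [← Matrix.map_mul, mul_eq_one_comm.mp hqk, Matrix.map_one _ (map_zero _) (map_one _)]
      calc (Matrix.diagonal c * c2).map φ * b
          = (q.map φ * k1.map φ) * ((Matrix.diagonal c * c2).map φ * b) := by
            rw [h5, Matrix.one_mul]
        _ = q.map φ * (k1.map φ * b1) := by rw [Matrix.mul_assoc, h4]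
        _ = b1 := by rw [← Matrix.mul_assoc, h5, Matrix.one_mul]
    set E : Matrix (Fin (2 * n)) (Fin (2 * n)) K := (Matrix.diagonal c * c2).map φ with hE
    have hEU : Up E := by
      intro i j hij
      rw [hE, Matrix.map_apply, hdiagU i j hij, map_zero]
    have hEd : IsUnit E.det := by
      have := (RingHom.map_det φ (Matrix.diagonal c * c2)).symm
      rw [RingHom.mapMatrix_apply] at this
      rw [hE, this]
      exact hdiagd.map φ
    have h6 : b = E⁻¹ * b1 := by
      rw [← h3, ← Matrix.mul_assoc, Matrix.nonsing_inv_mul _ hEd, Matrix.one_mul]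
    rw [h6]
    exact (hEU.inv hEd).mul hb1U
  have hkV : ∀ i j, kk.map φ i j ∈ V := fun i j => (kk i j).2
  -- determinants
  have hbd : b.det = 1 := by
    rw [hbU.det]
    have hbi : ∀ i, b i i * b (Fin.rev i) (Fin.rev i) = 1 := by
      intro i
      have h1 := (iwa_up hbU).diag_mul hbU i
      rw [hbst, Matrix.one_apply_eq, sd_apply] at h1
      rw [mul_comm]
      exact h1.symm
    exact Finset.prod_involution (fun i _ => Fin.rev i) (fun i _ => hbi i)
      (fun i _ _ => hne i) (fun i _ => Finset.mem_univ _) (fun i _ => Fin.rev_rev i)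
  refine ⟨kk.map φ, b, ⟨hkstK, ?_⟩, hkV, ⟨hbst, hbd⟩, hbU, hgkb⟩
  have h7 := hd
  rw [hgkb, Matrix.det_mul, hbd, mul_one] at h7
  exact h7

end Pool.Agent.MTD.TD
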