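import Pool.Agent.MTD.TDSlice
import Pool.Agent.MTD.TDIwa
import Pool.Agent.MTD.TA2

/-! # MTD : type `D`, the axioms -/

namespace Pool.Agent.MTD.TD

open Matrix
open Pool.Agent.MP_c45d35_ag (chi UpUni LowUni chi_add chi_zero chi_mul chi_neg)
open Pool.Agent.MP_c45d35_ag.BlockD (Up)

open Classical in
/-- The slice element with parameter `x`. -/
noncomputable def sxD (n : ℕ) : Matrix (Fin (2 * n)) (Fin (2 * n)) (MvPolynomial (Fin n) ℂ) :=
  if hn : 2 ≤ n then (exists_slice_param n hn).choose else 0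

open Classical in
/-- The conjugator. -/
noncomputable def pxD (n : ℕ) : Matrix (Fin (2 * n)) (Fin (2 * n)) (MvPolynomial (Fin n) ℂ) :=
  if hn : 2 ≤ n then (exists_slice_param n hn).choose_spec.choose else 0

/-- The data of `SO_{2n}`. -/
noncomputable def DD (n : ℕ) : Dat n (2 * n) (RD n) where
  eqs := eqsD n
  wt := wtD
  rt β := wtD (rp β) - wtD (rq β)
  cr β := wtD (rp β) - wtD (rq β)
  dep β := (rq β : ℕ) - (rp β : ℕ)
  E β := FD ℂ (rp β) (rq β)
  ze β := if (rq β : ℕ) = (rp β : ℕ) + 1 ∨ ((rp β : ℕ) + 2 = n ∧ (rq β : ℕ) = n) then 1 else 0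
  S := sliceD n
  sx := sxD n
  px := pxD n

variable {n : ℕ}

theorem isG_iff {R : Type*} [CommRing R] [Algebra ℂ R] (g : Matrix (Fin (2 * n)) (Fin (2 * n)) R) :
    (DD n).IsG g ↔ sd g * g = 1 ∧ g.det = 1 := by
  unfold Dat.IsG
  show (∀ p ∈ eqsD n, _) ↔ _
  have h1 : MvPolynomial.aeval (fun ij : Fin (2 * n) × Fin (2 * n) => g ij.1 ij.2)
      (Matrix.det (Matrix.of fun i j => (MvPolynomial.X (i, j) :
        MvPolynomial (Fin (2 * n) × Fin (2 * n)) ℂ))) = g.det := by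
    rw [AlgHom.map_det]
    congr 1
    ext i j
    simp
  have h2 : ∀ i j : Fin (2 * n),
      MvPolynomial.aeval (fun ij : Fin (2 * n) × Fin (2 * n) => g ij.1 ij.2)
      ((sd (Matrix.of fun i j => MvPolynomial.X (i, j)) *
        (Matrix.of fun i j => MvPolynomial.X (i, j)) :
      Matrix (Fin (2 * n)) (Fin (2 * n)) (MvPolynomial (Fin (2 * n) × Fin (2 * n)) ℂ)) i j -
      (if i = j then 1 else 0)) = (sd g * g) i j - (1 : Matrix (Fin (2 * n)) (Fin (2 * n)) R) i j := by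
    intro i j
    rw [map_sub, Matrix.mul_apply, Matrix.mul_apply, map_sum, Matrix.one_apply]
    congr 1
    · refine Finset.sum_congr rfl fun l _ => ?_
      rw [map_mul]
      simp [sd_apply]
    · split_ifs <;> simp
  constructor
  · intro h
    refine ⟨?_, ?_⟩
    · ext i j
      have h3 := h _ (Or.inl ⟨(i, j), rfl⟩)
      rw [h2] at h3
      exact sub_eq_zero.1 h3
    · have h3 := h _ (Or.inr rfl)
      rw [map_sub, map_one, h1] at h3
      exact sub_eq_zero.1 h3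
  · rintro ⟨h3, h4⟩ p (⟨ij, rfl⟩ | hp)
    · simp only
      rw [h2, h3, sub_self]
    · rw [Set.mem_singleton_iff.1 hp, map_sub, map_one, h1, h4, sub_self]

/-! ### Weights -/

theorem wt_rev (i : Fin (2 * n)) : wtD (Fin.rev i) = - wtD i := by
  funext k
  show (if ((Fin.rev i : Fin (2 * n)) : ℕ) = (k : ℕ) then (1 : ℤ) else 0) -
    (if ((Fin.rev (Fin.rev i) : Fin (2 * n)) : ℕ) = (k : ℕ) then 1 else 0) =
    -((if (i : ℕ) = (k : ℕ) then 1 else 0) -
      (if ((Fin.rev i : Fin (2 * n)) : ℕ) = (k : ℕ) then 1 else 0))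
  rw [Fin.rev_rev]
  ring

theorem wt_lo (i : Fin n) : wtD (lo i) = Pi.single i 1 := by
  funext k
  have hi := i.2
  have hk := k.2
  show (if (i : ℕ) = (k : ℕ) then (1 : ℤ) else 0) -
    (if ((Fin.rev (lo i) : Fin (2 * n)) : ℕ) = (k : ℕ) then 1 else 0) = _
  have h1 : ¬ (((Fin.rev (lo i) : Fin (2 * n)) : ℕ) = (k : ℕ)) := by
    rw [Fin.val_rev]
    show ¬ (2 * n - ((i : ℕ) + 1) = (k : ℕ))
    omega
  rw [if_neg h1, sub_zero, Pi.single_apply]
  simp only [Fin.ext_iff, eq_comm]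

/-- every index is `lo i` or `rev (lo i)` -/
theorem idx_cases (p : Fin (2 * n)) : (∃ i : Fin n, p = lo i) ∨ ∃ i : Fin n, p = Fin.rev (lo i) := by
  by_cases h : (p : ℕ) < n
  · exact Or.inl ⟨⟨p, h⟩, Fin.ext rfl⟩
  · right
    have hp := p.2
    refine ⟨⟨2 * n - 1 - p, by omega⟩, ?_⟩
    apply Fin.ext
    rw [Fin.val_rev]
    show (p : ℕ) = 2 * n - ((2 * n - 1 - (p : ℕ)) + 1)
    omega

/-- the basis vector `ε_i` and its negative -/
theorem ev_wt_lo {R : Type*} [CommRing R] (i : Fin n) (x : Fin n → R) : ev (wtD (lo i)) x = x i := by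
  rw [wt_lo]
  unfold ev
  rw [Finset.sum_eq_single i]
  · simp
  · intro k _ hk
    simp [Pi.single_apply, hk]
  · intro h
    exact absurd (Finset.mem_univ _) h

theorem ev_wt_rev {R : Type*} [CommRing R] (i : Fin (2 * n)) (x : Fin n → R) :
    ev (wtD (Fin.rev i)) x = - ev (wtD i) x := by
  rw [wt_rev, ev_neg_left]

theorem wt_inj : Function.Injective (wtD : Fin (2 * n) → Fin n → ℤ) := by
  have hs : ∀ i j : Fin n, (Pi.single i 1 : Fin n → ℤ) = Pi.single j 1 → i = j := by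
    intro i j h
    have h1 := congrFun h i
    rw [Pi.single_eq_same, Pi.single_apply] at h1
    by_contra hne
    rw [if_neg hne] at h1
    norm_num at h1
  have hs' : ∀ i j : Fin n, ¬ (Pi.single i 1 : Fin n → ℤ) = - Pi.single j 1 := by
    intro i j h
    have h1 := congrFun h i
    rw [Pi.neg_apply, Pi.single_eq_same, Pi.single_apply] at h1
    split_ifs at h1 <;> norm_num at h1
  intro p q h
  rcases idx_cases p with ⟨i, rfl⟩ | ⟨i, rfl⟩ <;> rcases idx_cases q with ⟨j, rfl⟩ | ⟨j, rfl⟩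
  · rw [wt_lo, wt_lo] at h
    rw [hs _ _ h]
  · rw [wt_rev, wt_lo, wt_lo] at h
    exact absurd h (hs' _ _)
  · rw [wt_rev, wt_lo, wt_lo] at h
    exact absurd h.symm (hs' _ _)
  · rw [wt_rev, wt_rev, wt_lo, wt_lo] at h
    rw [hs _ _ (neg_injective h)]

/-- sign of the second term: `-1` for `ε_i - ε_j`, `1` for `ε_i + ε_j` -/
def sg (β : RD n) : ℤ := if β.2 then 1 else -1

theorem sg_sq (β : RD n) : sg β * sg β = 1 := by
  unfold sg
  split_ifs <;> norm_num

theorem rt_eq (β : RD n) : wtD (rp β) - wtD (rq β) =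
    Pi.single β.1.1.1 1 + sg β • Pi.single β.1.1.2 1 := by
  unfold rp rq sg
  split_ifs
  · rw [wt_rev, wt_lo, wt_lo, sub_neg_eq_add, one_smul]
  · rw [wt_lo, wt_lo, neg_one_smul, sub_eq_add_neg]

theorem ev_rt {R : Type*} [CommRing R] (β : RD n) (x : Fin n → R) :
    ev (wtD (rp β) - wtD (rq β)) x = x β.1.1.1 + (sg β : R) * x β.1.1.2 := by
  rw [rt_eq, ev_add_left, ev_smul_left, ← wt_lo, ← wt_lo, ev_wt_lo, ev_wt_lo]

theorem rt_apply (β : RD n) (k : Fin n) : (wtD (rp β) - wtD (rq β)) k =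
    (if k = β.1.1.1 then 1 else 0) + sg β * (if k = β.1.1.2 then 1 else 0) := by
  rw [rt_eq]
  simp [Pi.single_apply]

theorem sg_cases (β : RD n) : sg β = 1 ∨ sg β = -1 := by
  unfold sg
  split_ifs
  · exact Or.inl rfl
  · exact Or.inr rfl

theorem sg_inj {β γ : RD n} (h1 : β.1 = γ.1) (h2 : sg β = sg γ) : β = γ := by
  obtain ⟨b, s⟩ := β
  obtain ⟨c, t⟩ := γ
  simp only at h1
  subst h1
  congr 1
  unfold sg at h2
  cases s
  · cases t <;> simp_all
  · cases t <;> simp_all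

theorem rt_indep (β γ : RD n) (a b : ℤ) (hne : β ≠ γ)
    (h : a • (wtD (rp β) - wtD (rq β)) = b • (wtD (rp γ) - wtD (rq γ))) : a = 0 ∧ b = 0 := by
  have hk : ∀ k, a * ((if k = β.1.1.1 then 1 else 0) + sg β * (if k = β.1.1.2 then 1 else 0)) =
      b * ((if k = γ.1.1.1 then 1 else 0) + sg γ * (if k = γ.1.1.2 then 1 else 0)) := by
    intro k
    have h1 := congrFun h k
    rw [Pi.smul_apply, Pi.smul_apply, rt_apply, rt_apply, smul_eq_mul, smul_eq_mul] at h1
    exact h1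
  have hb : β.1.1.1 ≠ β.1.1.2 := ne_of_lt β.1.2
  have hg : γ.1.1.1 ≠ γ.1.1.2 := ne_of_lt γ.1.2
  have hb' := β.1.2
  have hg' := γ.1.2
  have e1 := hk β.1.1.1
  have e2 := hk β.1.1.2
  have e3 := hk γ.1.1.1
  have e4 := hk γ.1.1.2
  rw [if_pos rfl, if_neg hb] at e1
  rw [if_neg hb.symm, if_pos rfl] at e2
  rw [if_pos rfl, if_neg hg] at e3
  rw [if_neg hg.symm, if_pos rfl] at e4
  by_cases c1 : β.1.1.1 = γ.1.1.1
  · by_cases c2 : β.1.1.2 = γ.1.1.2
    · rw [if_pos c1, if_neg (fun h => hg (c1.symm.trans h))] at e1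
      rw [if_neg (fun h => hg (h.symm.trans c2)), if_pos c2] at e2
      have hs : sg β ≠ sg γ := fun h => hne (sg_inj (Subtype.ext (Prod.ext c1 c2)) h)
      rcases sg_cases β with s1 | s1 <;> rcases sg_cases γ with s2 | s2
      · exact absurd (s1.trans s2.symm) hs
      · rw [s1] at e1 e2; rw [s2] at e1 e2
        constructor <;> linarith
      · rw [s1] at e1 e2; rw [s2] at e1 e2
        constructor <;> linarith
      · exact absurd (s1.trans s2.symm) hs
    · -- the second index of `β` is not an index of `γ`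
      rw [if_neg (fun h => hb (c1.trans h.symm)), if_neg c2] at e2
      have ha : a = 0 := by
        rcases sg_cases β with s1 | s1 <;> rw [s1] at e2 <;> linarith
      rw [ha, if_pos c1.symm, if_neg (fun h => hb (c1.trans h))] at e3
      exact ⟨ha, by linarith⟩
  · by_cases c3 : β.1.1.1 = γ.1.1.2
    · -- then `β.1.1.2` is not an index of `γ`
      have c4 : β.1.1.2 ≠ γ.1.1.1 := by
        intro h
        rw [c3, h] at hb'
        exact lt_asymm hb' hg'
      rw [if_neg c4, if_neg (fun h => hb (c3.trans h.symm))] at e2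
      have ha : a = 0 := by
        rcases sg_cases β with s1 | s1 <;> rw [s1] at e2 <;> linarith
      rw [ha] at e3
      exact ⟨ha, by linarith⟩
    · rw [if_neg c1, if_neg c3] at e1
      have ha : a = 0 := by linarith
      rw [ha] at e3
      exact ⟨ha, by linarith⟩

theorem lexpos (β : RD n) : 0 < toLex (wtD (rp β) - wtD (rq β)) := by
  have hb : β.1.1.1 < β.1.1.2 := β.1.2
  refine ⟨β.1.1.1, fun l hl => ?_, ?_⟩
  · show (0 : ℤ) = (wtD (rp β) - wtD (rq β)) l
    rw [rt_apply, if_neg (ne_of_lt hl), if_neg (ne_of_lt (lt_trans hl hb))]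
    ring
  · show (0 : ℤ) < (wtD (rp β) - wtD (rq β)) β.1.1.1
    rw [rt_apply, if_pos rfl, if_neg (ne_of_lt hb)]
    norm_num

theorem cr_rt (β : RD n) : ev (wtD (rp β) - wtD (rq β)) (wtD (rp β) - wtD (rq β)) = 2 := by
  have h := ev_rt β (wtD (rp β) - wtD (rq β))
  rw [h, rt_apply, rt_apply, if_pos rfl, if_pos rfl, if_neg (ne_of_lt β.1.2),
    if_neg (ne_of_gt β.1.2)]
  have := sg_sq β
  simp only [Int.cast_id]
  linear_combination this

theorem cr_sep (hn : 2 ≤ n) (μ : Fin n → ℤ)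
    (h : ∀ β : RD n, ev (wtD (rp β) - wtD (rq β)) μ = 0) : μ = 0 := by
  have h1 : ∀ i j : Fin n, i < j → μ i = 0 ∧ μ j = 0 := by
    intro i j hij
    have e1 := h (⟨(i, j), hij⟩, true)
    have e2 := h (⟨(i, j), hij⟩, false)
    rw [ev_rt] at e1 e2
    simp only [sg, if_true, Int.cast_one, one_mul, Bool.false_eq_true, if_false, Int.cast_neg,
      neg_mul] at e1 e2
    constructor <;> linarith
  funext i
  by_cases hi : (i : ℕ) = 0
  · exact (h1 i ⟨1, by omega⟩ (by rw [Fin.lt_def]; simp only; omega)).1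
  · exact (h1 ⟨0, by omega⟩ i (by rw [Fin.lt_def]; simp only; omega)).2

/-! ### The reflections -/

/-- the permutation of the indices attached to `β` -/
def σD (β : RD n) : Equiv.Perm (Fin (2 * n)) :=
  Equiv.swap (rp β) (rq β) * Equiv.swap (Fin.rev (rp β)) (Fin.rev (rq β))

theorem rp_ne_rq (β : RD n) : rp β ≠ rq β := by
  have hb : (β.1.1.1 : ℕ) < (β.1.1.2 : ℕ) := β.1.2
  have h2 := β.1.1.2.2
  intro h
  have h1 := congrArg (fun i : Fin (2 * n) => (i : ℕ)) h
  simp only [rp, rq, lo] at h1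
  split_ifs at h1
  · rw [Fin.val_rev] at h1
    simp only at h1
    omega
  · simp only at h1
    omega

theorem rp_ne_rev_rq (β : RD n) : rp β ≠ Fin.rev (rq β) := by
  have hb : (β.1.1.1 : ℕ) < (β.1.1.2 : ℕ) := β.1.2
  have h2 := β.1.1.2.2
  intro h
  have h1 := congrArg (fun i : Fin (2 * n) => (i : ℕ)) h
  simp only [rp, rq, lo] at h1
  split_ifs at h1
  · rw [Fin.rev_rev] at h1
    simp only at h1
    omega
  · rw [Fin.val_rev] at h1
    simp only at h1
    omega

theorem rev_ne (p : Fin (2 * n)) : Fin.rev p ≠ p := by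
  intro h
  have h1 := congrArg (fun i : Fin (2 * n) => (i : ℕ)) h
  simp only [Fin.val_rev] at h1
  have := p.2
  omega

theorem rp_lt_rq (β : RD n) : rp β < rq β := by
  have hb : (β.1.1.1 : ℕ) < (β.1.1.2 : ℕ) := β.1.2
  have h2 := β.1.1.2.2
  rw [Fin.lt_def]
  simp only [rp, rq, lo]
  split_ifs
  · rw [Fin.val_rev]
    simp only
    omega
  · exact hb

theorem pair_wt (β : RD n) (i : Fin (2 * n)) : ev (wtD (rp β) - wtD (rq β)) (wtD i) =
    ((if i = rp β then 1 else 0) - (if i = Fin.rev (rp β) then 1 else 0)) -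
    ((if i = rq β then 1 else 0) - (if i = Fin.rev (rq β) then 1 else 0)) := by
  have h : ∀ p : Fin (2 * n), ev (wtD p) (wtD i) =
      (if i = p then 1 else 0) - (if i = Fin.rev p then 1 else 0) := by
    have hlo : ∀ j : Fin n, ev (wtD (lo j)) (wtD i) =
        (if i = lo j then 1 else 0) - (if i = Fin.rev (lo j) then 1 else 0) := by
      intro j
      have h1 := ev_wt_lo j (wtD i)
      rw [h1]
      show (if (i : ℕ) = (j : ℕ) then (1 : ℤ) else 0) -
        (if ((Fin.rev i : Fin (2 * n)) : ℕ) = (j : ℕ) then 1 else 0) = _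
      have e1 : (i : ℕ) = (j : ℕ) ↔ i = lo j := by rw [Fin.ext_iff]; rfl
      have e2 : ((Fin.rev i : Fin (2 * n)) : ℕ) = (j : ℕ) ↔ i = Fin.rev (lo j) := by
        rw [← Fin.rev_eq_iff, Fin.ext_iff]; rfl
      simp only [e1, e2]
    intro p
    rcases idx_cases p with ⟨j, rfl⟩ | ⟨j, rfl⟩
    · exact hlo j
    · have h1 := ev_wt_rev (lo j) (wtD i)
      rw [h1, hlo, Fin.rev_rev]
      ring
  have h2 := ev_sub_left (wtD (rp β)) (wtD (rq β)) (wtD i)
  rw [h2, h, h]

theorem sw_wt (β : RD n) (i : Fin (2 * n)) : (DD n).sw β (wtD i) = wtD (σD β i) := by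
  have h1 := rp_ne_rq β
  have h2 := rp_ne_rev_rq β
  have h3 := rev_ne (rp β)
  have h4 := rev_ne (rq β)
  have h5 : Fin.rev (rp β) ≠ Fin.rev (rq β) := fun h => h1 (Fin.rev_inj.1 h)
  have h6 : Fin.rev (rp β) ≠ rq β := fun h => h2 (by rw [← h, Fin.rev_rev])
  show wtD i - ev (wtD (rp β) - wtD (rq β)) (wtD i) • (wtD (rp β) - wtD (rq β)) = _
  rw [pair_wt, σD, Equiv.Perm.mul_apply]
  by_cases c1 : i = rp β
  · subst c1
    rw [if_pos rfl, if_neg h3.symm, if_neg h1, if_neg h2,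
      Equiv.swap_apply_of_ne_of_ne h3.symm h2, Equiv.swap_apply_left]
    simp
  by_cases c2 : i = rq β
  · subst c2
    rw [if_neg h1.symm, if_neg h6.symm, if_pos rfl, if_neg h4.symm,
      Equiv.swap_apply_of_ne_of_ne h6.symm h4.symm, Equiv.swap_apply_right]
    simp
  by_cases c3 : i = Fin.rev (rp β)
  · subst c3
    rw [if_neg h3, if_pos rfl, if_neg h6, if_neg h5, Equiv.swap_apply_left,
      Equiv.swap_apply_of_ne_of_ne h2.symm h4, wt_rev, wt_rev]
    funext k
    simp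
    ring
  by_cases c4 : i = Fin.rev (rq β)
  · subst c4
    rw [if_neg h2.symm, if_neg h5.symm, if_neg h4, if_pos rfl, Equiv.swap_apply_right,
      Equiv.swap_apply_of_ne_of_ne h3 h6, wt_rev, wt_rev]
    funext k
    simp
    ring
  · rw [if_neg c1, if_neg c2, if_neg c3, if_neg c4, Equiv.swap_apply_of_ne_of_ne c3 c4,
      Equiv.swap_apply_of_ne_of_ne c1 c2]
    simp

theorem σD_rev (β : RD n) (p : Fin (2 * n)) : σD β (Fin.rev p) = Fin.rev (σD β p) := by
  apply wt_inj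
  rw [wt_rev, ← sw_wt, ← sw_wt, wt_rev]
  unfold Dat.sw
  have h := ev_neg ((DD n).cr β) (wtD p)
  rw [h, neg_smul]
  abel

theorem sw_sub' (β : RD n) (μ ν : Fin n → ℤ) :
    (DD n).sw β (μ - ν) = (DD n).sw β μ - (DD n).sw β ν := by
  unfold Dat.sw
  have h := ev_sub ((DD n).cr β) μ ν
  rw [h, sub_smul]
  abel

theorem exists_rt (p q : Fin (2 * n)) (h1 : p ≠ q) (h2 : p ≠ Fin.rev q) :
    ∃ γ : RD n, wtD p - wtD q = wtD (rp γ) - wtD (rq γ) ∨
      wtD p - wtD q = -(wtD (rp γ) - wtD (rq γ)) := by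
  rcases idx_cases p with ⟨i, rfl⟩ | ⟨i, rfl⟩ <;> rcases idx_cases q with ⟨j, rfl⟩ | ⟨j, rfl⟩
  · have hij : i ≠ j := fun h => h1 (by rw [h])
    rcases lt_or_gt_of_ne hij with h | h
    · refine ⟨(⟨(i, j), h⟩, false), Or.inl ?_⟩
      rw [rt_eq, wt_lo, wt_lo]
      simp [sg, sub_eq_add_neg]
    · refine ⟨(⟨(j, i), h⟩, false), Or.inr ?_⟩
      rw [rt_eq, wt_lo, wt_lo]
      simp only [sg, Bool.false_eq_true, if_false, neg_smul, one_smul]
      abel
  · have hij : i ≠ j := fun h => h2 (by rw [h, Fin.rev_rev])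
    rcases lt_or_gt_of_ne hij with h | h
    · refine ⟨(⟨(i, j), h⟩, true), Or.inl ?_⟩
      rw [rt_eq, wt_rev, wt_lo, wt_lo]
      simp [sg]
    · refine ⟨(⟨(j, i), h⟩, true), Or.inl ?_⟩
      rw [rt_eq, wt_rev, wt_lo, wt_lo]
      simp [sg, add_comm]
  · have hij : i ≠ j := fun h => h2 (by rw [h])
    rcases lt_or_gt_of_ne hij with h | h
    · refine ⟨(⟨(i, j), h⟩, true), Or.inr ?_⟩
      rw [rt_eq, wt_rev, wt_lo, wt_lo]
      simp only [sg, if_true, one_smul]
      abel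
    · refine ⟨(⟨(j, i), h⟩, true), Or.inr ?_⟩
      rw [rt_eq, wt_rev, wt_lo, wt_lo]
      simp only [sg, if_true, one_smul]
      abel
  · have hij : i ≠ j := fun h => h1 (by rw [h])
    rcases lt_or_gt_of_ne hij with h | h
    · refine ⟨(⟨(i, j), h⟩, false), Or.inr ?_⟩
      rw [rt_eq, wt_rev, wt_rev, wt_lo, wt_lo]
      simp only [sg, Bool.false_eq_true, if_false, neg_smul, one_smul]
      abel
    · refine ⟨(⟨(j, i), h⟩, false), Or.inl ?_⟩
      rw [rt_eq, wt_rev, wt_rev, wt_lo, wt_lo]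
      simp only [sg, Bool.false_eq_true, if_false, neg_smul, one_smul]
      abel

theorem refl_rt (β γ : RD n) : ∃ γ' : RD n,
    (DD n).sw β ((DD n).rt γ) = (DD n).rt γ' ∨ (DD n).sw β ((DD n).rt γ) = - (DD n).rt γ' := by
  have h1 : (DD n).sw β ((DD n).rt γ) = wtD (σD β (rp γ)) - wtD (σD β (rq γ)) := by
    rw [← sw_wt, ← sw_wt]
    exact sw_sub' _ _ _
  rw [h1]
  refine exists_rt _ _ (fun h => rp_ne_rq γ ((σD β).injective h)) (fun h => ?_)
  rw [← σD_rev] at h
  exact rp_ne_rev_rq γ ((σD β).injective h)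

theorem E_supp (β : RD n) (i j : Fin (2 * n)) (h : FD ℂ (rp β) (rq β) i j ≠ 0) :
    (j : ℕ) = (i : ℕ) + ((rq β : ℕ) - (rp β : ℕ)) ∧
      wtD i - wtD j = wtD (rp β) - wtD (rq β) := by
  have hb : (rp β : ℕ) < (rq β : ℕ) := rp_lt_rq β
  have h2 := (rq β).2
  simp only [FD, Matrix.of_apply] at h
  by_cases c1 : i = rp β ∧ j = rq β
  · obtain ⟨rfl, rfl⟩ := c1
    exact ⟨by omega, rfl⟩
  · by_cases c2 : i = Fin.rev (rq β) ∧ j = Fin.rev (rp β)
    · obtain ⟨rfl, rfl⟩ := c2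
      refine ⟨?_, ?_⟩
      · rw [Fin.val_rev, Fin.val_rev]
        omega
      · rw [wt_rev, wt_rev]
        abel
    · rw [if_neg c1, if_neg c2, sub_zero] at h
      exact absurd rfl h

theorem FD_self (β : RD n) : FD ℂ (rp β) (rq β) (rp β) (rq β) = 1 := by
  unfold FD
  rw [Matrix.of_apply, if_pos ⟨rfl, rfl⟩, if_neg (fun h => rp_ne_rev_rq β h.1), sub_zero]

/-! ### The nilpotent part -/

section Y
variable {R : Type*} [CommRing R] [Algebra ℂ R]

theorem sd_Y (Z : RD n → R) : sd ((DD n).Y Z) = - (DD n).Y Z := by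
  unfold Dat.Y
  rw [sd_sum, ← Finset.sum_neg_distrib]
  refine Finset.sum_congr rfl fun β _ => ?_
  rw [sd_smul, sd_map]
  have h : sd ((DD n).E β) = - (DD n).E β := sd_FD _ _
  rw [h, ← smul_neg]
  congr 1
  ext i j
  simp

theorem Y_at (Z : RD n → R) (β : RD n) : (DD n).Y Z (rp β) (rq β) = Z β := by
  rw [Dat.Y_apply, Finset.sum_eq_single β]
  · show Z β * algebraMap ℂ R (FD ℂ (rp β) (rq β) (rp β) (rq β)) = Z β
    rw [FD_self, map_one, mul_one]
  · intro γ _ hγ
    show Z γ * algebraMap ℂ R (FD ℂ (rp γ) (rq γ) (rp β) (rq β)) = 0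
    by_cases h : FD ℂ (rp γ) (rq γ) (rp β) (rq β) = 0
    · rw [h, map_zero, mul_zero]
    · exfalso
      have h1 := (E_supp γ _ _ h).2
      have h2 := rt_indep γ β 1 1 hγ (by rw [one_smul, one_smul]; exact h1.symm)
      norm_num at h2
  · intro h
    exact absurd (Finset.mem_univ _) h

theorem Y_at' (Z : RD n → R) (β : RD n) :
    (DD n).Y Z (Fin.rev (rq β)) (Fin.rev (rp β)) = - Z β := by
  have h := congrFun (congrFun (sd_Y Z) (rp β)) (rq β)
  rw [sd_apply, Matrix.neg_apply, Y_at] at h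
  exact h

theorem Y_upper' (Z : RD n → R) : Dp 1 ((DD n).Y Z) := by
  intro i j hij
  rw [Dat.Y_apply]
  refine Finset.sum_eq_zero fun β _ => ?_
  show Z β * algebraMap ℂ R (FD ℂ (rp β) (rq β) i j) = 0
  by_cases h : FD ℂ (rp β) (rq β) i j = 0
  · rw [h, map_zero, mul_zero]
  · exfalso
    have h1 := (E_supp β _ _ h).1
    have hb : (rp β : ℕ) < (rq β : ℕ) := rp_lt_rq β
    omega

theorem sd_Dx (x : Fin n → R) : sd ((DD n).Dx x) = - (DD n).Dx x := by
  unfold Dat.Dx
  rw [sd_diagonal, Matrix.diagonal_neg]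
  congr 1
  funext i
  exact ev_wt_rev i x

/-- positions above the diagonal and off the antidiagonal are positions of roots -/
theorem exists_pos (i j : Fin (2 * n)) (h : i < j) (h' : j ≠ Fin.rev i) :
    ∃ β : RD n, (i = rp β ∧ j = rq β) ∨ (i = Fin.rev (rq β) ∧ j = Fin.rev (rp β)) := by
  have key : ∀ i j : Fin (2 * n), i < j → i < Fin.rev j → ∃ β : RD n, i = rp β ∧ j = rq β := by
    intro i j h1 h2
    have h1' : (i : ℕ) < j := h1
    have h2' : (i : ℕ) < 2 * n - ((j : ℕ) + 1) := by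
      have : (i : ℕ) < (Fin.rev j : Fin (2 * n)) := h2
      rwa [Fin.val_rev] at this
    have hj := j.2
    by_cases hjn : (j : ℕ) < n
    · refine ⟨(⟨(⟨i, by omega⟩, ⟨j, hjn⟩), by rw [Fin.lt_def]; exact h1'⟩, false), ?_, ?_⟩
      · exact Fin.ext rfl
      · simp only [rq, Bool.false_eq_true, if_false]
        exact Fin.ext rfl
    · refine ⟨(⟨(⟨i, by omega⟩, ⟨2 * n - 1 - j, by omega⟩), by
        rw [Fin.lt_def]
        simp only
        omega⟩, true), ?_, ?_⟩
      · exact Fin.ext rfl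
      · simp only [rq, if_true]
        apply Fin.ext
        rw [Fin.val_rev]
        show (j : ℕ) = 2 * n - ((2 * n - 1 - (j : ℕ)) + 1)
        omega
  rcases lt_trichotomy i (Fin.rev j) with h1 | h1 | h1
  · obtain ⟨β, hβ⟩ := key i j h h1
    exact ⟨β, Or.inl hβ⟩
  · exact absurd (by rw [h1, Fin.rev_rev]) h'
  · obtain ⟨β, hβ⟩ := key (Fin.rev j) (Fin.rev i) (Fin.rev_lt_rev.2 h) (by rw [Fin.rev_rev]; exact h1)
    refine ⟨β, Or.inr ⟨?_, ?_⟩⟩
    · rw [← hβ.2, Fin.rev_rev]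
    · rw [← hβ.1, Fin.rev_rev]

theorem isUnit_two : IsUnit (2 : R) := by
  have := Pool.Agent.MP_c45d35_ag.SL.isUnit_natCast (R := R) (n := 2) (by norm_num)
  exact_mod_cast this

/-- upper triangular skew matrices -/
theorem eq_DxY {B : Matrix (Fin (2 * n)) (Fin (2 * n)) R} (hB : sd B = -B) (hup : Up B)
    (x : Fin n → R) (hd : ∀ i, B i i = ev (wtD i) x) :
    B = (DD n).Dx x + (DD n).Y fun β => B (rp β) (rq β) := by
  have hsk : ∀ i j, B (Fin.rev j) (Fin.rev i) = - B i j := fun i j =>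
    congrFun (congrFun hB i) j
  ext i j
  rw [Matrix.add_apply]
  rcases lt_trichotomy i j with h | h | h
  · rw [Dat.Dx, Matrix.diagonal_apply_ne _ (ne_of_lt h), zero_add]
    by_cases h' : j = Fin.rev i
    · subst h'
      have h1 := hsk i (Fin.rev i)
      rw [Fin.rev_rev] at h1
      have h2 : (2 : R) * B i (Fin.rev i) = 0 := by linear_combination h1
      have h3 := (isUnit_two.mul_right_eq_zero).1 h2
      have h4 := congrFun (congrFun (sd_Y fun β => B (rp β) (rq β)) i) (Fin.rev i)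
      rw [sd_apply, Fin.rev_rev, Matrix.neg_apply] at h4
      have h5 : (2 : R) * (DD n).Y (fun β => B (rp β) (rq β)) i (Fin.rev i) = 0 := by
        linear_combination h4
      rw [h3, (isUnit_two.mul_right_eq_zero).1 h5]
    · obtain ⟨β, ⟨rfl, rfl⟩ | ⟨rfl, rfl⟩⟩ := exists_pos i j h h'
      · rw [Y_at]
      · rw [Y_at', hsk]
  · subst h
    rw [Y_upper' _ i i (by omega), add_zero, hd, Dat.Dx, Matrix.diagonal_apply_eq]
    rfl
  · have h' : (j : ℕ) < i := h
    rw [hup i j h, Dat.Dx, Matrix.diagonal_apply_ne _ (ne_of_gt h), Y_upper' _ i j (by omega),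
      add_zero]

end Y

theorem inv_eq {R : Type*} [CommRing R] {N : ℕ} {g : Matrix (Fin N) (Fin N) R}
    (hg : sd g * g = 1) : g⁻¹ = sd g := Matrix.inv_eq_left_inv hg

theorem mul_sd {R : Type*} [CommRing R] {N : ℕ} {g : Matrix (Fin N) (Fin N) R}
    (hg : sd g * g = 1) : g * sd g = 1 := mul_eq_one_comm.1 hg

theorem conj' {R : Type} [CommRing R] [Algebra ℂ R] (g : Matrix (Fin (2 * n)) (Fin (2 * n)) R)
    (x : Fin n → R) (Z : RD n → R) (hg : sd g * g = 1) (hd : g.det = 1)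
    (hup : ∀ i j, j < i → g i j = 0) :
    ∃ Z' : RD n → R, g * ((DD n).Dx x + (DD n).Y Z) = ((DD n).Dx x + (DD n).Y Z') * g := by
  have hdu : IsUnit g.det := by rw [hd]; exact isUnit_one
  have hX : Up ((DD n).Dx x + (DD n).Y Z) := by
    intro i j hij
    have hij' : (j : ℕ) < i := hij
    rw [Matrix.add_apply, Dat.Dx, Matrix.diagonal_apply_ne _ (ne_of_gt hij),
      Y_upper' Z i j (by omega), add_zero]
  obtain ⟨h1, h2⟩ := up_conj g _ hup hdu hX
  have h3 : sd (g * ((DD n).Dx x + (DD n).Y Z) * g⁻¹) =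
      -(g * ((DD n).Dx x + (DD n).Y Z) * g⁻¹) := by
    rw [inv_eq hg, sd_mul, sd_mul, sd_sd, sd_add, sd_Dx, sd_Y, ← neg_add, Matrix.neg_mul,
      Matrix.mul_neg, Matrix.mul_assoc]
  have h4 := eq_DxY h3 h1 x (fun i => by
    rw [h2, Matrix.add_apply, Y_upper' Z i i (by omega), add_zero, Dat.Dx,
      Matrix.diagonal_apply_eq]
    rfl)
  refine ⟨fun β => (g * ((DD n).Dx x + (DD n).Y Z) * g⁻¹) (rp β) (rq β), ?_⟩
  rw [← h4, Matrix.mul_assoc, Matrix.nonsing_inv_mul g hdu, Matrix.mul_one]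

theorem expN_mul_neg {N : ℕ} {R : Type*} [CommRing R] [Algebra ℂ R]
    {A : Matrix (Fin N) (Fin N) R} (hA : Dp 1 A) : expN (-A) * expN A = 1 := by
  let _ : Algebra ℚ R := ((algebraMap ℂ R).comp (algebraMap ℚ ℂ)).toAlgebra
  have hpow : ∀ B : Matrix (Fin N) (Fin N) R, Dp 1 B → B ^ N = 0 := by
    intro B hB
    ext i j
    exact hB.pow N i j (by have := j.2; omega)
  have hexp : ∀ B : Matrix (Fin N) (Fin N) R, Dp 1 B → expN B = IsNilpotent.exp B := by
    intro B hB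
    rw [IsNilpotent.exp_eq_sum (hpow B hB)]
    unfold expN
    refine Finset.sum_congr rfl fun k _ => ?_
    have h1 : ((k.factorial : ℚ)⁻¹ • B ^ k) =
        (algebraMap ℚ R ((k.factorial : ℚ)⁻¹)) • B ^ k := by
      rw [algebraMap_smul]
    rw [h1]
    congr 1
    show algebraMap ℂ R (1 / (k.factorial : ℂ)) =
      algebraMap ℂ R (algebraMap ℚ ℂ ((k.factorial : ℚ)⁻¹))
    congr 1
    simp
  have hAn : IsNilpotent A := ⟨N, hpow A hA⟩
  have hA' : Dp 1 (-A) := fun i j hij => by rw [Matrix.neg_apply, hA i j hij, neg_zero]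
  rw [hexp _ hA', hexp _ hA]
  exact IsNilpotent.exp_neg_mul_exp_self hAn

theorem sd_expN {N : ℕ} {R : Type*} [CommRing R] [Algebra ℂ R] (A : Matrix (Fin N) (Fin N) R) :
    sd (expN A) = expN (sd A) := by
  unfold expN
  rw [sd_sum]
  refine Finset.sum_congr rfl fun k _ => ?_
  rw [sd_smul, sd_pow]

theorem exp' {R : Type} [CommRing R] [Algebra ℂ R] (Z : RD n → R) :
    sd (expN ((DD n).Y Z)) * expN ((DD n).Y Z) = 1 := by
  rw [sd_expN, sd_Y, expN_mul_neg (Y_upper' Z)]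

theorem sum_wt : ∑ i : Fin (2 * n), wtD i = 0 := by
  have h : ∑ i : Fin (2 * n), wtD i = - ∑ i : Fin (2 * n), wtD i := by
    rw [← Finset.sum_neg_distrib, ← Equiv.sum_comp Fin.revPerm]
    refine Finset.sum_congr rfl fun i _ => ?_
    rw [Fin.revPerm_apply, wt_rev]
  funext k
  have h1 := congrFun h k
  rw [Pi.neg_apply] at h1
  rw [Pi.zero_apply]
  linarith

theorem torus' {R : Type*} [CommRing R] (t : Fin n → Rˣ) :
    sd ((DD n).Tt t) * (DD n).Tt t = 1 ∧ ((DD n).Tt t).det = 1 := by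
  constructor
  · show sd (Matrix.diagonal fun i => ((chi (wtD i) t : Rˣ) : R)) *
      (Matrix.diagonal fun i => ((chi (wtD i) t : Rˣ) : R)) = 1
    rw [sd_diagonal, Matrix.diagonal_mul_diagonal, ← Matrix.diagonal_one]
    congr 1
    funext i
    rw [wt_rev, chi_neg, Units.inv_mul]
  · show (Matrix.diagonal fun i => ((chi (wtD i) t : Rˣ) : R)).det = 1
    rw [Matrix.det_diagonal, ← Units.coe_prod, ← chi_sum, sum_wt, chi_zero, Units.val_one]

theorem chi_lo {M : Type*} [CommGroup M] (k : Fin n) (t : Fin n → M) : chi (wtD (lo k)) t = t k := by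
  rw [wt_lo]
  unfold chi
  rw [Finset.prod_eq_single k]
  · simp
  · intro l _ hl
    simp [Pi.single_apply, hl]
  · intro h
    exact absurd (Finset.mem_univ _) h

theorem levi' {K : Type} [Field K] (g : Matrix (Fin (2 * n)) (Fin (2 * n)) K)
    (h : ∀ i, g (Fin.rev i) (Fin.rev i) * g i i = 1) :
    ∃ t : Fin n → Kˣ, ∀ i, g i i = ((chi (wtD i) t : Kˣ) : K) := by
  have hne : ∀ i, g i i ≠ 0 := fun i h0 => by
    have := h i
    rw [h0, mul_zero] at this
    exact zero_ne_one this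
  refine ⟨fun k => Units.mk0 (g (lo k) (lo k)) (hne _), fun i => ?_⟩
  rcases idx_cases i with ⟨k, rfl⟩ | ⟨k, rfl⟩
  · rw [chi_lo]
    rfl
  · rw [wt_rev, chi_neg, chi_lo]
    have h1 := h (lo k)
    rw [Units.val_inv_eq_inv_val, Units.val_mk0]
    exact eq_inv_of_mul_eq_one_left h1

theorem up_diag {K : Type*} [CommRing K] {g : Matrix (Fin (2 * n)) (Fin (2 * n)) K}
    (hg : sd g * g = 1) (hup : Up g) (i : Fin (2 * n)) :
    g (Fin.rev i) (Fin.rev i) * g i i = 1 := by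
  have hs : Up (sd g) := fun i j hij => hup _ _ (Fin.rev_lt_rev.2 hij)
  have h1 := hs.diag_mul hup i
  rw [hg, Matrix.one_apply_eq] at h1
  exact h1.symm

end Pool.Agent.MTD.TD
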