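import Pool.Agent.MTD.X1

/-! # MTD : `G_2`, the group (row X2) -/

namespace Pool.Agent.MTD.G2

open Matrix
open Pool.Agent.MP_c45d35_ag (chi UpUni LowUni IsHess Jm em fm)

section
variable {R : Type*} [CommRing R]

/-- The three conditions (over any commutative ring). -/
def Gc (g : Matrix (Fin 7) (Fin 7) R) : Prop :=
  gᵀ * Jm R 7 * g = Jm R 7 ∧ (∀ i j k, T3 g i j k = (ph i j k : R)) ∧ g.det = 1

theorem isG_iff [Algebra ℂ R] (g : Matrix (Fin 7) (Fin 7) R) : DG.IsG g ↔ Gc g := by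
  unfold Dat.IsG
  change (∀ p ∈ eqsG, _) ↔ _
  set φ := MvPolynomial.aeval (R := ℂ) (fun ij : Fin 7 × Fin 7 => g ij.1 ij.2) with hφ
  have hX : ∀ i j : Fin 7, φ (MvPolynomial.X (i, j)) = g i j := by
    intro i j
    rw [hφ, MvPolynomial.aeval_X]
  have h1 : φ (Matrix.det (Matrix.of fun i j => (MvPolynomial.X (i, j) :
        MvPolynomial (Fin 7 × Fin 7) ℂ))) = g.det := by
    rw [AlgHom.map_det]
    congr 1
    ext i j
    simp [hX]
  have hJ : ∀ i j : Fin 7, φ (Jm (MvPolynomial (Fin 7 × Fin 7) ℂ) 7 i j) = Jm R 7 i j := by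
    intro i j
    simp only [Pool.Agent.MP_c45d35_ag.Jm, Matrix.of_apply]
    split_ifs
    · rw [map_pow, map_neg, map_one]
    · rw [map_zero]
  have h2 : ∀ i j : Fin 7,
      φ (((Matrix.of fun i j => MvPolynomial.X (i, j))ᵀ * Jm (MvPolynomial (Fin 7 × Fin 7) ℂ) 7 *
        (Matrix.of fun i j => MvPolynomial.X (i, j)) :
        Matrix (Fin 7) (Fin 7) (MvPolynomial (Fin 7 × Fin 7) ℂ)) i j -
        Jm (MvPolynomial (Fin 7 × Fin 7) ℂ) 7 i j) = (gᵀ * Jm R 7 * g) i j - Jm R 7 i j := by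
    intro i j
    rw [map_sub, hJ]
    congr 1
    rw [Matrix.mul_apply, Matrix.mul_apply, map_sum]
    refine Finset.sum_congr rfl fun l _ => ?_
    rw [map_mul, Matrix.mul_apply, Matrix.mul_apply, map_sum]
    congr 1
    · refine Finset.sum_congr rfl fun m _ => ?_
      rw [map_mul, hJ]
      simp [hX]
    · simp [hX]
  have h3 : ∀ i j k : Fin 7,
      φ (T3 (Matrix.of fun i j => (MvPolynomial.X (i, j) : MvPolynomial (Fin 7 × Fin 7) ℂ))
        i j k - ((ph i j k : ℤ) : MvPolynomial (Fin 7 × Fin 7) ℂ)) =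
        T3 g i j k - (ph i j k : R) := by
    intro i j k
    rw [map_sub, map_intCast]
    congr 1
    unfold T3
    simp only [map_sum, map_mul, map_intCast, Matrix.of_apply, hX]
  constructor
  · intro h
    refine ⟨?_, ?_, ?_⟩
    · ext i j
      have h4 := h _ (Or.inl (Or.inl ⟨(i, j), rfl⟩))
      rw [h2] at h4
      exact sub_eq_zero.1 h4
    · intro i j k
      have h4 := h _ (Or.inl (Or.inr ⟨(i, j, k), rfl⟩))
      rw [h3] at h4
      exact sub_eq_zero.1 h4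
    · have h4 := h _ (Or.inr rfl)
      rw [map_sub, map_one, h1] at h4
      exact sub_eq_zero.1 h4
  · rintro ⟨h4, h5, h6⟩ p ((⟨ij, rfl⟩ | ⟨ijk, rfl⟩) | hp)
    · simp only
      rw [h2, h4, sub_self]
    · simp only
      rw [h3, h5, sub_self]
    · rw [Set.mem_singleton_iff.1 hp, map_sub, map_one, h1, h6, sub_self]

theorem x2_T3_prod (g : Matrix (Fin 7) (Fin 7) R) (i j k : Fin 7) :
    T3 g i j k = ∑ x : Fin 7 × Fin 7 × Fin 7, (ph x.1 x.2.1 x.2.2 : R) * g x.1 i * g x.2.1 j * g x.2.2 k := by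
  unfold T3
  rw [Fintype.sum_prod_type]
  refine Finset.sum_congr rfl fun a _ => ?_
  rw [Fintype.sum_prod_type]

theorem x2_prod3 (u v w : Fin 7 → R) :
    (∑ a, u a) * (∑ b, v b) * (∑ c, w c) = ∑ y : Fin 7 × Fin 7 × Fin 7, u y.1 * v y.2.1 * w y.2.2 := by
  rw [Fintype.sum_prod_type, mul_assoc, Finset.sum_mul]
  refine Finset.sum_congr rfl fun a _ => ?_
  rw [Fintype.sum_prod_type, Finset.sum_mul, Finset.mul_sum]
  refine Finset.sum_congr rfl fun b _ => ?_
  rw [Finset.mul_sum, Finset.mul_sum]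
  refine Finset.sum_congr rfl fun c _ => ?_
  simp only
  ring

/-- The 3-form of a product. -/
theorem T3_mul (g h : Matrix (Fin 7) (Fin 7) R) (i j k : Fin 7) :
    T3 (g * h) i j k = ∑ a, ∑ b, ∑ c, T3 g a b c * h a i * h b j * h c k := by
  have h1 : (∑ a, ∑ b, ∑ c, T3 g a b c * h a i * h b j * h c k) =
      ∑ y : Fin 7 × Fin 7 × Fin 7, T3 g y.1 y.2.1 y.2.2 * h y.1 i * h y.2.1 j * h y.2.2 k := by
    rw [Fintype.sum_prod_type]
    refine Finset.sum_congr rfl fun a _ => ?_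
    rw [Fintype.sum_prod_type]
  rw [h1, x2_T3_prod]
  have h2 : ∀ x : Fin 7 × Fin 7 × Fin 7,
      (ph x.1 x.2.1 x.2.2 : R) * (g * h) x.1 i * (g * h) x.2.1 j * (g * h) x.2.2 k =
      ∑ y : Fin 7 × Fin 7 × Fin 7, ((ph x.1 x.2.1 x.2.2 : R) * g x.1 y.1 * g x.2.1 y.2.1 * g x.2.2 y.2.2) *
        h y.1 i * h y.2.1 j * h y.2.2 k := by
    intro x
    rw [Matrix.mul_apply, Matrix.mul_apply, Matrix.mul_apply, mul_assoc, mul_assoc, ← mul_assoc (∑ j, _),
      x2_prod3, Finset.mul_sum]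
    refine Finset.sum_congr rfl fun y _ => ?_
    ring
  rw [Finset.sum_congr rfl fun x _ => h2 x, Finset.sum_comm]
  refine Finset.sum_congr rfl fun y _ => ?_
  rw [x2_T3_prod, Finset.sum_mul, Finset.sum_mul, Finset.sum_mul]

theorem x2_T3_one (i j k : Fin 7) : T3 (1 : Matrix (Fin 7) (Fin 7) R) i j k = (ph i j k : R) := by
  unfold T3
  simp [Matrix.one_apply]

theorem Gc_one : Gc (1 : Matrix (Fin 7) (Fin 7) R) := by
  refine ⟨?_, x2_T3_one, Matrix.det_one⟩
  rw [Matrix.transpose_one, Matrix.one_mul, Matrix.mul_one]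

theorem Gc_mul {g h : Matrix (Fin 7) (Fin 7) R} (hg : Gc g) (hh : Gc h) : Gc (g * h) := by
  refine ⟨?_, ?_, ?_⟩
  · rw [Matrix.transpose_mul]
    have h1 : hᵀ * gᵀ * Jm R 7 * (g * h) = hᵀ * (gᵀ * Jm R 7 * g) * h := by
      simp only [Matrix.mul_assoc]
    rw [h1, hg.1, hh.1]
  · intro i j k
    rw [T3_mul]
    have h1 : ∀ a b c, T3 g a b c = (ph a b c : R) := hg.2.1
    simp only [h1]
    exact hh.2.1 i j k
  · rw [Matrix.det_mul, hg.2.2, hh.2.2, one_mul]

/-- `g⁻¹ ∈ G`: for the 3-form apply `T3_mul` to `g * g⁻¹ = 1`. -/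
theorem Gc_inv {g : Matrix (Fin 7) (Fin 7) R} (hg : Gc g) : Gc g⁻¹ := by
  have hu : IsUnit g.det := by rw [hg.2.2]; exact isUnit_one
  refine ⟨?_, ?_, ?_⟩
  · have h1 : g⁻¹ᵀ * gᵀ = 1 := by
      rw [← Matrix.transpose_mul, Matrix.mul_nonsing_inv _ hu, Matrix.transpose_one]
    calc g⁻¹ᵀ * Jm R 7 * g⁻¹ = g⁻¹ᵀ * (gᵀ * Jm R 7 * g) * g⁻¹ := by rw [hg.1]
      _ = (g⁻¹ᵀ * gᵀ) * Jm R 7 * (g * g⁻¹) := by simp only [Matrix.mul_assoc]
      _ = Jm R 7 := by rw [h1, Matrix.mul_nonsing_inv _ hu, Matrix.one_mul, Matrix.mul_one]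
  · intro i j k
    have h1 := T3_mul g g⁻¹ i j k
    rw [Matrix.mul_nonsing_inv _ hu, x2_T3_one] at h1
    have h2 : ∀ a b c, T3 g a b c = (ph a b c : R) := hg.2.1
    simp only [h2] at h1
    exact h1.symm
  · have h1 : (g * g⁻¹).det = 1 := by rw [Matrix.mul_nonsing_inv _ hu, Matrix.det_one]
    rw [Matrix.det_mul, hg.2.2, one_mul] at h1
    exact h1

/-- The 3-form of a monomial matrix. -/
theorem x2_mono (σ : Equiv.Perm (Fin 7)) (c : Fin 7 → R) (i j k : Fin 7) :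
    T3 (Matrix.of fun a i => if a = σ i then c i else 0) i j k =
      (ph (σ i) (σ j) (σ k) : R) * c i * c j * c k := by
  unfold T3
  simp

/-- The conditions on a group element that scales and permutes the basis vectors:
`g e_i = c_i e_{σ i}`. -/
theorem x2_Gc_mono (σ : Equiv.Perm (Fin 7)) (c : Fin 7 → R)
    (hJ : ∀ i, c i * c (Fin.rev i) * Jm R 7 (σ i) (σ (Fin.rev i)) = Jm R 7 i (Fin.rev i))
    (hJ' : ∀ i, σ (Fin.rev i) = Fin.rev (σ i))
    (hT : ∀ i j k, c i * c j * c k * (ph (σ i) (σ j) (σ k) : R) = (ph i j k : R))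
    (hd : ((σ.sign : ℤ) : R) * ∏ i, c i = 1) :
    Gc (Matrix.of fun a i => if a = σ i then c i else 0) := by
  refine ⟨?_, ?_, ?_⟩
  · ext i j
    have h1 : ((Matrix.of fun a i => if a = σ i then c i else 0)ᵀ * Jm R 7 *
        (Matrix.of fun a i => if a = σ i then c i else 0) : Matrix (Fin 7) (Fin 7) R) i j =
        c i * Jm R 7 (σ i) (σ j) * c j := by
      rw [Matrix.mul_apply]
      simp [Matrix.mul_apply, Matrix.transpose_apply]
    rw [h1]
    by_cases hij : j = Fin.rev i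
    · rw [hij, ← hJ i]
      ring
    · have h2 : Jm R 7 i j = 0 := by
        simp only [Pool.Agent.MP_c45d35_ag.Jm, Matrix.of_apply, if_neg hij]
      have h3 : Jm R 7 (σ i) (σ j) = 0 := by
        have h4 : σ j ≠ Fin.rev (σ i) := by
          rw [← hJ']
          exact fun h => hij (σ.injective h)
        simp only [Pool.Agent.MP_c45d35_ag.Jm, Matrix.of_apply, if_neg h4]
      rw [h2, h3, mul_zero, zero_mul]
  · intro i j k
    rw [x2_mono, ← hT i j k]
    ring
  · rw [← hd, Matrix.det_apply', Finset.sum_eq_single σ]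
    · simp
    · intro τ _ hτ
      obtain ⟨i, hi⟩ : ∃ i, τ i ≠ σ i := by
        by_contra h
        push Not at h
        exact hτ (Equiv.ext h)
      rw [Finset.prod_eq_zero (Finset.mem_univ i), mul_zero]
      simp [hi]
    · intro h
      exact absurd (Finset.mem_univ _) h

/-- Diagonal elements: `ph i j k ≠ 0` implies `wtG i + wtG j + wtG k = 0`. -/
theorem Gc_torus (t : Fin 2 → Rˣ) : Gc (DG.Tt t : Matrix (Fin 7) (Fin 7) R) := by
  have h0 : (DG.Tt t : Matrix (Fin 7) (Fin 7) R) = Matrix.of fun a i =>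
      if a = (Equiv.refl (Fin 7)) i then ((chi (wtG i) t : Rˣ) : R) else 0 := by
    ext a i
    change Matrix.diagonal (fun i => ((chi (wtG i) t : Rˣ) : R)) a i = _
    rw [Matrix.diagonal_apply, Matrix.of_apply, Equiv.refl_apply]
    by_cases h : a = i
    · rw [if_pos h, if_pos h, h]
    · rw [if_neg h, if_neg h]
  rw [h0]
  apply x2_Gc_mono
  · intro i
    have h1 : wtG i + wtG (Fin.rev i) = 0 := by
      revert i
      decide
    have h2 : chi (wtG i) t * chi (wtG (Fin.rev i)) t = 1 := by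
      rw [← Pool.Agent.MP_c45d35_ag.chi_add, h1, Pool.Agent.MP_c45d35_ag.chi_zero]
    rw [← Units.val_mul, h2, Units.val_one, one_mul]
    rfl
  · intro i
    rfl
  · intro i j k
    by_cases hp : ph i j k = 0
    · change _ * (ph i j k : R) = _
      rw [hp, Int.cast_zero, mul_zero]
    · have h1 : wtG i + wtG j + wtG k = 0 := by
        revert i j k
        decide +kernel
      have h2 : chi (wtG i) t * chi (wtG j) t * chi (wtG k) t = 1 := by
        rw [← Pool.Agent.MP_c45d35_ag.chi_add, ← Pool.Agent.MP_c45d35_ag.chi_add, h1,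
          Pool.Agent.MP_c45d35_ag.chi_zero]
      rw [← Units.val_mul, ← Units.val_mul, h2, Units.val_one, one_mul]
      rfl
  · rw [Equiv.Perm.sign_refl]
    have h1 : ∏ i : Fin 7, chi (wtG i) t = 1 := by
      rw [Fin.prod_univ_seven, ← Pool.Agent.MP_c45d35_ag.chi_add, ← Pool.Agent.MP_c45d35_ag.chi_add,
        ← Pool.Agent.MP_c45d35_ag.chi_add, ← Pool.Agent.MP_c45d35_ag.chi_add,
        ← Pool.Agent.MP_c45d35_ag.chi_add, ← Pool.Agent.MP_c45d35_ag.chi_add]
      have h2 : wtG 0 + wtG 1 + wtG 2 + wtG 3 + wtG 4 + wtG 5 + wtG 6 = 0 := by decide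
      rw [h2, Pool.Agent.MP_c45d35_ag.chi_zero]
    rw [← Units.coe_prod, h1, Units.val_one]
    simp

/-- The conditions on a group element that scales and permutes the basis vectors:
`g e_i = c_i e_{σ i}`. -/
theorem Gc_mono (σ : Equiv.Perm (Fin 7)) (c : Fin 7 → R)
    (hJ : ∀ i, c i * c (Fin.rev i) * Jm R 7 (σ i) (σ (Fin.rev i)) = Jm R 7 i (Fin.rev i))
    (hJ' : ∀ i, σ (Fin.rev i) = Fin.rev (σ i))
    (hT : ∀ i j k, c i * c j * c k * (ph (σ i) (σ j) (σ k) : R) = (ph i j k : R))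
    (hd : ((σ.sign : ℤ) : R) * ∏ i, c i = 1) :
    Gc (Matrix.of fun a i => if a = σ i then c i else 0) :=
  x2_Gc_mono σ c hJ hJ' hT hd

end

end Pool.Agent.MTD.G2
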