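import Pool.Agent.MTD.TA1
import Pool.Agent.MTD.TD2
import Pool.Agent.MTD.X2

/-!
# MTD : semisimple groups with simple factors of types `A, B, C, D, G_2`, definitions

`Cl` : the groups `SL_{n+1}`, `SO_{2n+1}`, `Sp_{2n}`, `SO_{2n+4}`, `G_2` and their slices.
`MT` : the Moore–Tachikawa ring of a group `G` with an algebra `OG` of regular functions, a slice
`S` with an algebra `OS` of regular functions, and the centralisers `Z s ⊆ G` of the points `s ∈ S`.
`CentralIsogeny` : surjective homomorphisms with finite central kernel that are quotient maps.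
-/

namespace Pool.Agent.MTD

open Matrix
open Pool.Agent.MP_c45d35_ag (Jm em fm)

/-! ## Rings of functions -/

section rings
variable {G S : Type}

/-- The regular functions on `G^b × S`: the algebra generated by the regular functions of the
coordinates. -/
def RegF (OG : Subalgebra ℂ (G → ℂ)) (OS : Subalgebra ℂ (S → ℂ)) (b : ℕ) :
    Subalgebra ℂ (((Fin b → G) × S) → ℂ) :=
  Algebra.adjoin ℂ ({F | ∃ a : Fin b, ∃ f ∈ OG, F = fun y => f (y.1 a)} ∪
    {F | ∃ f ∈ OS, F = fun y => f y.2})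

/-- The Moore–Tachikawa ring `ℂ[G^b × S]^K`: the regular functions `F` on `G^b × S` with
`F(g h, s) = F(g, s)` for all `h_a ∈ Z s` with `∏ h_a = 1`. -/
def MT [Group G] (OG : Subalgebra ℂ (G → ℂ)) (OS : Subalgebra ℂ (S → ℂ)) (Z : S → Set G) (b : ℕ) :
    Subalgebra ℂ (((Fin b → G) × S) → ℂ) where
  carrier := {F | F ∈ RegF OG OS b ∧ ∀ (g h : Fin b → G) (s : S), (∀ a, h a ∈ Z s) →
    (List.ofFn h).prod = 1 → F (g * h, s) = F (g, s)}
  mul_mem' := by
    rintro F F' ⟨h1, h2⟩ ⟨h1', h2'⟩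
    refine ⟨mul_mem h1 h1', fun g h s hh hp => ?_⟩
    simp only [Pi.mul_apply]
    rw [h2 g h s hh hp, h2' g h s hh hp]
  add_mem' := by
    rintro F F' ⟨h1, h2⟩ ⟨h1', h2'⟩
    refine ⟨add_mem h1 h1', fun g h s hh hp => ?_⟩
    simp only [Pi.add_apply]
    rw [h2 g h s hh hp, h2' g h s hh hp]
  algebraMap_mem' := by
    intro r
    exact ⟨Subalgebra.algebraMap_mem _ r, fun _ _ _ _ _ => rfl⟩

/-- The algebra of functions on a product generated by functions of the coordinates. -/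
def prodAlg {I : Type} {X : I → Type} (O : ∀ i, Subalgebra ℂ (X i → ℂ)) :
    Subalgebra ℂ ((∀ i, X i) → ℂ) :=
  Algebra.adjoin ℂ {f | ∃ i, ∃ g ∈ O i, f = fun x => g (x i)}

/-- `π : G → Q` is a central isogeny: surjective, with finite central kernel, and the regular
functions on `Q` are the regular functions on `G` that factor through `π`. -/
structure CentralIsogeny {G Q : Type} [Group G] [Group Q] (OG : Subalgebra ℂ (G → ℂ))
    (OQ : Subalgebra ℂ (Q → ℂ)) (π : G →* Q) : Prop where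
  surj : Function.Surjective π
  fin : Finite π.ker
  central : π.ker ≤ Subgroup.center G
  trans : ∀ z ∈ π.ker, ∀ f ∈ OG, (fun g => f (z * g)) ∈ OG
  quot : ∀ f : Q → ℂ, f ∈ OQ ↔ (fun g => f (π g)) ∈ OG

end rings

/-! ## The classical groups -/

/-- `SL_N`. -/
def SLg (N : ℕ) : Set (Matrix (Fin N) (Fin N) ℂ) := {g | g.det = 1}

/-- The special isometry group of the form `J i j = (-1)^i` if `i + j = N - 1`, `0` otherwise:
`SO_N` for odd `N`. -/
def SOg (N : ℕ) : Set (Matrix (Fin N) (Fin N) ℂ) := {g | gᵀ * Jm ℂ N * g = Jm ℂ N ∧ g.det = 1}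

/-- The isometry group of the same form: `Sp_N` for even `N`. -/
def Spg (N : ℕ) : Set (Matrix (Fin N) (Fin N) ℂ) := {g | gᵀ * Jm ℂ N * g = Jm ℂ N}

/-- `SO_N` for the form `(e_i, e_{N-1-i}) = 1`: here `sd g` is the adjoint of `g`, with entries
`(sd g) i j = g (N-1-j) (N-1-i)`. -/
def SDg (N : ℕ) : Set (Matrix (Fin N) (Fin N) ℂ) := {g | TD.sd g * g = 1 ∧ g.det = 1}

/-- The Slodowy slice `e + 𝔤_f` of `𝔰𝔩_N`, `e = ∑ E_{i,i+1}`, `f = ∑ i (N - i) E_{i,i-1}`. -/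
def SLs (N : ℕ) : Set (Matrix (Fin N) (Fin N) ℂ) := {s | s.trace = 0 ∧ Commute (s - em ℂ N) (fm ℂ N)}

/-- The Slodowy slice `e + 𝔤_f` of the Lie algebra of the isometry group of `J`. -/
def Js (N : ℕ) : Set (Matrix (Fin N) (Fin N) ℂ) :=
  {s | sᵀ * Jm ℂ N + Jm ℂ N * s = 0 ∧ Commute (s - em ℂ N) (fm ℂ N)}

/-- The matrix with ones at `(i, i + 1)`, `i + 1 < n`, and at `(n - 2, n)`. -/
def uD (n : ℕ) : Matrix (Fin (2 * n)) (Fin (2 * n)) ℂ := Matrix.of fun i j =>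
  if ((j : ℕ) = (i : ℕ) + 1 ∧ (j : ℕ) < n) ∨ ((i : ℕ) + 2 = n ∧ (j : ℕ) = n) then 1 else 0

/-- `k (2n - 1 - k)` for `k ≤ n - 2`, and `n (n - 1) / 2` for `k = n - 1, n`. -/
noncomputable def cD (n k : ℕ) : ℂ :=
  if k + 2 ≤ n then (k : ℂ) * (2 * n - 1 - k) else (n : ℂ) * (n - 1) / 2

/-- The matrix with entries `cD n i` in the positions `(i, j)` such that `(j, i)` is a one of
`uD n`. -/
noncomputable def lD (n : ℕ) : Matrix (Fin (2 * n)) (Fin (2 * n)) ℂ := Matrix.of fun i j =>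
  cD n i * uD n j i

/-- The principal nilpotent `e` of `𝔰𝔬_{2n}`. -/
def eDn (n : ℕ) : Matrix (Fin (2 * n)) (Fin (2 * n)) ℂ := uD n - TD.sd (uD n)

/-- The nilpotent `f` of the principal `sl_2`-triple `(e, h, f)` of `𝔰𝔬_{2n}`. -/
noncomputable def fDn (n : ℕ) : Matrix (Fin (2 * n)) (Fin (2 * n)) ℂ := lD n - TD.sd (lD n)

theorem eDn_eq {n : ℕ} (hn : 2 ≤ n) : eDn n = TD.eD n := by
  ext i j
  rw [eDn, Matrix.sub_apply, TD.sd_apply]
  simp only [uD, TD.eD, Matrix.of_apply, Fin.val_rev]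
  have hi := i.2
  have hj := j.2
  split_ifs <;> first | (exfalso; omega) | norm_num

theorem fDn_eq {n : ℕ} (hn : 2 ≤ n) : fDn n = TD.fD n := by
  ext i j
  rw [fDn, Matrix.sub_apply, TD.sd_apply]
  simp only [lD, cD, uD, TD.fD, Matrix.of_apply, Fin.val_rev]
  have hi := i.2
  have hj := j.2
  have e1 : ((2 * n - ((j : ℕ) + 1) : ℕ) : ℂ) = 2 * n - (j : ℕ) - 1 := by
    rw [Nat.cast_sub (by omega)]
    push_cast
    ring
  split_ifs <;> first | (exfalso; omega) | skip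
  all_goals first
    | ring1
    | (have h : (i : ℕ) = (j : ℕ) + 1 := by omega
       rw [e1, h]
       push_cast
       ring1)

/-- The Slodowy slice `e + 𝔤_f` of `𝔰𝔬_{2n}`. -/
def SDs (n : ℕ) : Set (Matrix (Fin (2 * n)) (Fin (2 * n)) ℂ) :=
  {s | TD.sd s = - s ∧ Commute (s - eDn n) (fDn n)}

/-- `G_2`: the isometries `g` of the form `J` on `ℂ^7`, `det g = 1`, that preserve the alternating
3-form `φ = x036 + x135 - x234 - x045 - 2 x126`; here `G2.ph i j k = φ(e_i, e_j, e_k)` and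
`G2.T3 g i j k = φ(g e_i, g e_j, g e_k)`. -/
def G2g : Set (Matrix (Fin 7) (Fin 7) ℂ) :=
  {g | gᵀ * Jm ℂ 7 * g = Jm ℂ 7 ∧ (∀ i j k, G2.T3 g i j k = (G2.ph i j k : ℂ)) ∧ g.det = 1}

/-- The Slodowy slice `e + 𝔤_f` of `𝔤_2 = {X | Xᵀ J + J X = 0, X φ = 0}`; here
`G2.D3 X i j k = φ(X e_i, e_j, e_k) + φ(e_i, X e_j, e_k) + φ(e_i, e_j, X e_k)`. -/
def G2s : Set (Matrix (Fin 7) (Fin 7) ℂ) :=
  {s | (sᵀ * Jm ℂ 7 + Jm ℂ 7 * s = 0 ∧ ∀ i j k, G2.D3 s i j k = 0) ∧
    Commute (s - em ℂ 7) (fm ℂ 7)}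

/-- The groups: `A n` is `SL_{n+1}`, `B n` is `SO_{2n+1}`, `C n` is `Sp_{2n}`, `D n` is
`SO_{2n+4}`, `G2` is `G_2`. -/
inductive Cl : Type
  | A (n : ℕ) : Cl
  | B (n : ℕ) : Cl
  | C (n : ℕ) : Cl
  | D (n : ℕ) : Cl
  | G2 : Cl

namespace Cl

/-- The size of the matrices. -/
def N : Cl → ℕ
  | A n => n + 1
  | B n => 2 * n + 1
  | C n => 2 * n
  | D n => 2 * (n + 2)
  | G2 => 7

/-- The matrices of the group. -/
def gset : (c : Cl) → Set (Matrix (Fin c.N) (Fin c.N) ℂ)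
  | A n => SLg (n + 1)
  | B n => SOg (2 * n + 1)
  | C n => Spg (2 * n)
  | D n => SDg (2 * (n + 2))
  | G2 => G2g

/-- The slice. -/
def slice : (c : Cl) → Set (Matrix (Fin c.N) (Fin c.N) ℂ)
  | A n => SLs (n + 1)
  | B n => Js (2 * n + 1)
  | C n => Js (2 * n)
  | D n => SDs (n + 2)
  | G2 => G2s

theorem p0_isG_iff {N : ℕ} {g : Matrix (Fin N) (Fin N) ℂ} :
    Pool.Agent.MP_c45d35_ag.IsG g ↔ gᵀ * Jm ℂ N * g = Jm ℂ N ∧ (Odd N → g.det = 1) := Iff.rfl

theorem p0_B {n : ℕ} {g : Matrix (Fin (2 * n + 1)) (Fin (2 * n + 1)) ℂ} :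
    g ∈ SOg (2 * n + 1) ↔ Pool.Agent.MP_c45d35_ag.IsG g := by
  rw [p0_isG_iff]
  have h : Odd (2 * n + 1) := ⟨n, rfl⟩
  simp [SOg, h]

theorem p0_C {n : ℕ} {g : Matrix (Fin (2 * n)) (Fin (2 * n)) ℂ} :
    g ∈ Spg (2 * n) ↔ Pool.Agent.MP_c45d35_ag.IsG g := by
  rw [p0_isG_iff]
  have h : ¬ Odd (2 * n) := by
    rw [Nat.not_odd_iff_even]
    exact ⟨n, by ring⟩
  simp [Spg, h]

theorem p0_D_one {N : ℕ} : (1 : Matrix (Fin N) (Fin N) ℂ) ∈ SDg N := by
  refine ⟨?_, Matrix.det_one⟩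
  rw [TD.sd_one, Matrix.one_mul]

theorem p0_D_mul {N : ℕ} {g h : Matrix (Fin N) (Fin N) ℂ} (hg : g ∈ SDg N) (hh : h ∈ SDg N) :
    g * h ∈ SDg N := by
  obtain ⟨h1, h2⟩ := hg
  obtain ⟨h3, h4⟩ := hh
  refine ⟨?_, by rw [Matrix.det_mul, h2, h4, one_mul]⟩
  rw [TD.sd_mul]
  calc TD.sd h * TD.sd g * (g * h) = TD.sd h * (TD.sd g * g) * h := by
        simp only [Matrix.mul_assoc]
    _ = 1 := by rw [h1, Matrix.mul_one, h3]

theorem p0_D_inv {N : ℕ} {g : Matrix (Fin N) (Fin N) ℂ} (hg : g ∈ SDg N) : g⁻¹ ∈ SDg N := by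
  obtain ⟨h1, h2⟩ := hg
  have h3 : g⁻¹ = TD.sd g := TD.inv_eq h1
  rw [h3]
  refine ⟨?_, by rw [TD.sd_det, h2]⟩
  rw [TD.sd_sd]
  exact TD.mul_sd h1

theorem one_mem (c : Cl) : (1 : Matrix (Fin c.N) (Fin c.N) ℂ) ∈ c.gset := by
  cases c with
  | A n => exact Matrix.det_one
  | B n => exact p0_B.2 Pool.Agent.MP_c45d35_ag.isG_one
  | C n => exact p0_C.2 Pool.Agent.MP_c45d35_ag.isG_one
  | D n => exact p0_D_one
  | G2 => exact Pool.Agent.MTD.G2.Gc_one

theorem mul_mem {c : Cl} {g h : Matrix (Fin c.N) (Fin c.N) ℂ} (hg : g ∈ c.gset) (hh : h ∈ c.gset) :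
    g * h ∈ c.gset := by
  cases c with
  | A n =>
    change (g * h).det = 1
    rw [Matrix.det_mul, show g.det = 1 from hg, show h.det = 1 from hh, one_mul]
  | B n => exact p0_B.2 ((p0_B.1 hg).mul (p0_B.1 hh))
  | C n => exact p0_C.2 ((p0_C.1 hg).mul (p0_C.1 hh))
  | D n => exact p0_D_mul hg hh
  | G2 => exact Pool.Agent.MTD.G2.Gc_mul hg hh

theorem p0_inv {c : Cl} {g : Matrix (Fin c.N) (Fin c.N) ℂ} (hg : g ∈ c.gset) :
    g⁻¹ ∈ c.gset := by
  cases c with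
  | A n =>
    change (g⁻¹).det = 1
    rw [Matrix.det_nonsing_inv, show g.det = 1 from hg, Ring.inverse_one]
  | B n => exact p0_B.2 (p0_B.1 hg).inv
  | C n => exact p0_C.2 (p0_C.1 hg).inv
  | D n => exact p0_D_inv hg
  | G2 => exact Pool.Agent.MTD.G2.Gc_inv hg

theorem inv_mem {c : Cl} {g : (Matrix (Fin c.N) (Fin c.N) ℂ)ˣ} (hg : g.1 ∈ c.gset) :
    (g⁻¹ : (Matrix (Fin c.N) (Fin c.N) ℂ)ˣ).1 ∈ c.gset := by
  have h := p0_inv hg
  rw [← Matrix.coe_units_inv] at h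
  exact h

theorem isUnit_of_mem {c : Cl} {g : Matrix (Fin c.N) (Fin c.N) ℂ} (hg : g ∈ c.gset) : IsUnit g := by
  rw [Matrix.isUnit_iff_isUnit_det]
  cases c with
  | A n =>
    have h : g.det = 1 := hg
    rw [h]
    exact isUnit_one
  | B n => exact (p0_B.1 hg).isUnit_det
  | C n => exact (p0_C.1 hg).isUnit_det
  | D n =>
    have h : g.det = 1 := hg.2
    exact h.symm ▸ isUnit_one
  | G2 =>
    have h : g.det = 1 := hg.2.2
    exact h.symm ▸ isUnit_one

/-- The group. -/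
def grp (c : Cl) : Subgroup (Matrix (Fin c.N) (Fin c.N) ℂ)ˣ where
  carrier := {g | g.1 ∈ c.gset}
  one_mem' := c.one_mem
  mul_mem' := fun hg hh => mul_mem hg hh
  inv_mem' := fun hg => inv_mem hg

/-- The regular functions on the group: the algebra generated by the matrix entries. -/
def OG (c : Cl) : Subalgebra ℂ (c.grp → ℂ) :=
  Algebra.adjoin ℂ (Set.range fun ij : Fin c.N × Fin c.N => fun g : c.grp => g.1.1 ij.1 ij.2)

/-- The regular functions on the slice: the algebra generated by the matrix entries. -/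
def OS (c : Cl) : Subalgebra ℂ (c.slice → ℂ) :=
  Algebra.adjoin ℂ (Set.range fun ij : Fin c.N × Fin c.N => fun s : c.slice => s.1 ij.1 ij.2)

/-- The centraliser of a point of the slice. -/
def Z (c : Cl) (s : c.slice) : Set c.grp := {g | Commute g.1.1 s.1}

end Cl

/-! ## Products -/

section prod
variable {I : Type} (c : I → Cl)

/-- The regular functions on the product of the groups. -/
def OGP : Subalgebra ℂ ((∀ i, (c i).grp) → ℂ) := prodAlg fun i => (c i).OG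

/-- The regular functions on the product of the slices. -/
def OSP : Subalgebra ℂ ((∀ i, (c i).slice) → ℂ) := prodAlg fun i => (c i).OS

/-- The centraliser of a point of the product of the slices in the product of the groups. -/
def ZP (s : ∀ i, (c i).slice) : Set (∀ i, (c i).grp) := {m | ∀ i, m i ∈ (c i).Z (s i)}

/-- The centraliser of `s` in `G`, when `p : ∏ (c i) → Q` and `π : G → Q` are central isogenies:
`g` fixes `s` iff `π g = p m` for an `m` that commutes with `s`. -/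
def ZG {G Q : Type} [Group G] [Group Q] (p : (∀ i, (c i).grp) →* Q) (π : G →* Q)
    (s : ∀ i, (c i).slice) : Set G := {g | ∃ m ∈ ZP c s, p m = π g}

end prod

end Pool.Agent.MTD
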