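import Mathlib

/-! # MTD : invariants of a product relation (row P1) -/

namespace Pool.Agent.MTD

section P1

variable {I : Type} {X : Type} (Y : I → Type) (pr : ∀ i, X → Y i)
    (C : ∀ i, Subalgebra ℂ (Y i → ℂ)) (R : ∀ i, Y i → Y i → Prop)

/-- generators, with the indices in `J` invariant -/
def p1Gen (J : Finset I) : Set (X → ℂ) :=
  {f | ∃ i, ∃ g ∈ C i, (i ∈ J → ∀ y y', R i y y' → g y' = g y) ∧ f = fun x => g (pr i x)}

/-- generators with index `≠ j` -/
def p1GenNe (J : Finset I) (j : I) : Set (X → ℂ) :=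
  {f | ∃ i, i ≠ j ∧ ∃ g ∈ C i, (i ∈ J → ∀ y y', R i y y' → g y' = g y) ∧ f = fun x => g (pr i x)}

/-- functions of the coordinate `j` -/
def p1C (j : I) : Subalgebra ℂ (X → ℂ) :=
  (C j).map (AlgHom.pi (fun x : X => Pi.evalAlgHom ℂ (fun _ : Y j => ℂ) (pr j x)))

theorem p1C_mem (j : I) (F : X → ℂ) :
    F ∈ p1C Y pr C j ↔ ∃ g ∈ C j, F = fun x => g (pr j x) := by
  unfold p1C
  rw [Subalgebra.mem_map]
  constructor
  · rintro ⟨g, hg, rfl⟩
    exact ⟨g, hg, rfl⟩
  · rintro ⟨g, hg, rfl⟩
    exact ⟨g, hg, rfl⟩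

theorem p1_dep (J : Finset I) (j : I) (f : X → ℂ)
    (hf : f ∈ Algebra.adjoin ℂ (p1GenNe Y pr C R J j)) (x x' : X)
    (h : ∀ i, i ≠ j → pr i x' = pr i x) : f x' = f x := by
  induction hf using Algebra.adjoin_induction with
  | mem f hf =>
    obtain ⟨i, hi, g, -, -, rfl⟩ := hf
    show g (pr i x') = g (pr i x)
    rw [h i hi]
  | algebraMap r => rfl
  | add f g _ _ hf hg => rw [Pi.add_apply, Pi.add_apply, hf, hg]
  | mul f g _ _ hf hg => rw [Pi.mul_apply, Pi.mul_apply, hf, hg]

theorem p1_sup (J : Finset I) (j : I) (F : X → ℂ)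
    (hF : F ∈ Algebra.adjoin ℂ (p1Gen Y pr C R J)) :
    F ∈ p1C Y pr C j ⊔ Algebra.adjoin ℂ (p1GenNe Y pr C R J j) := by
  have hle : Algebra.adjoin ℂ (p1Gen Y pr C R J) ≤
      p1C Y pr C j ⊔ Algebra.adjoin ℂ (p1GenNe Y pr C R J j) := by
    rw [Algebra.adjoin_le_iff]
    rintro f ⟨i, g, hg, hinv, rfl⟩
    by_cases hij : i = j
    · subst hij
      exact (le_sup_left : p1C Y pr C i ≤ _) ((p1C_mem Y pr C i _).2 ⟨g, hg, rfl⟩)
    · exact (le_sup_right : Algebra.adjoin ℂ (p1GenNe Y pr C R J j) ≤ _)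
        (Algebra.subset_adjoin ⟨i, hij, g, hg, hinv, rfl⟩)
  exact hle hF

theorem p1_rep (j : I) (B : Subalgebra ℂ (X → ℂ)) (F : X → ℂ) (hF : F ∈ p1C Y pr C j ⊔ B) :
    ∃ t : Finset (X → ℂ), (∀ g ∈ t, g ∈ B) ∧ ∃ φ : (X → ℂ) → (Y j → ℂ), (∀ g ∈ t, φ g ∈ C j) ∧
      F = ∑ g ∈ t, (fun x => φ g (pr j x)) * g := by
  classical
  have h1 : F ∈ Subalgebra.toSubmodule (p1C Y pr C j ⊔ B) := hF
  rw [← Subalgebra.mul_toSubmodule] at h1
  induction h1 using Submodule.mul_induction_on' with
  | mem_mul_mem m hm n hn =>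
    obtain ⟨g, hg, rfl⟩ := (p1C_mem Y pr C j m).1 hm
    refine ⟨{n}, ?_, fun _ => g, ?_, ?_⟩
    · intro g' hg'
      rw [Finset.mem_singleton] at hg'
      rw [hg']
      exact hn
    · intro g' _
      exact hg
    · rw [Finset.sum_singleton]
  | add f hf g hg ihf ihg =>
    have hf' : f ∈ p1C Y pr C j ⊔ B := by
      have : f ∈ Subalgebra.toSubmodule (p1C Y pr C j ⊔ B) := by
        rw [← Subalgebra.mul_toSubmodule]; exact hf
      exact this
    have hg' : g ∈ p1C Y pr C j ⊔ B := by
      have : g ∈ Subalgebra.toSubmodule (p1C Y pr C j ⊔ B) := by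
        rw [← Subalgebra.mul_toSubmodule]; exact hg
      exact this
    obtain ⟨t, ht, φ, hφ, hft⟩ := ihf hf'
    obtain ⟨t', ht', φ', hφ', hgt⟩ := ihg hg'
    refine ⟨t ∪ t', ?_, fun h => (if h ∈ t then φ h else 0) + (if h ∈ t' then φ' h else 0), ?_, ?_⟩
    · intro h hh
      rcases Finset.mem_union.1 hh with hh | hh
      · exact ht h hh
      · exact ht' h hh
    · intro h _
      refine (C j).add_mem ?_ ?_
      · split_ifs with h1
        · exact hφ h h1
        · exact (C j).zero_mem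
      · split_ifs with h1
        · exact hφ' h h1
        · exact (C j).zero_mem
    · have e1 : ∑ h ∈ t ∪ t', (fun x => (if h ∈ t then φ h else 0) (pr j x)) * h =
          ∑ h ∈ t, (fun x => φ h (pr j x)) * h := by
        rw [← Finset.sum_subset (Finset.subset_union_left (s₁ := t) (s₂ := t'))]
        · refine Finset.sum_congr rfl (fun h hh => ?_)
          rw [if_pos hh]
        · intro h _ hh
          rw [if_neg hh]
          ext x
          simp
      have e2 : ∑ h ∈ t ∪ t', (fun x => (if h ∈ t' then φ' h else 0) (pr j x)) * h =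
          ∑ h ∈ t', (fun x => φ' h (pr j x)) * h := by
        rw [← Finset.sum_subset (Finset.subset_union_right (s₁ := t) (s₂ := t'))]
        · refine Finset.sum_congr rfl (fun h hh => ?_)
          rw [if_pos hh]
        · intro h _ hh
          rw [if_neg hh]
          ext x
          simp
      rw [hft, hgt, ← e1, ← e2, ← Finset.sum_add_distrib]
      refine Finset.sum_congr rfl (fun h _ => ?_)
      rw [← add_mul]
      rfl

theorem p1_indep (j : I) (B : Subalgebra ℂ (X → ℂ)) (F : X → ℂ) (hF : F ∈ p1C Y pr C j ⊔ B) :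
    ∃ t : Finset (X → ℂ), (∀ g ∈ t, g ∈ B) ∧
      (∀ a : (X → ℂ) → ℂ, ∑ g ∈ t, a g • g = 0 → ∀ g ∈ t, a g = 0) ∧
      ∃ φ : (X → ℂ) → (Y j → ℂ), (∀ g ∈ t, φ g ∈ C j) ∧
      F = ∑ g ∈ t, (fun x => φ g (pr j x)) * g := by
  classical
  obtain ⟨t, ht, φ, hφ, hFt⟩ := p1_rep Y pr C j B F hF
  obtain ⟨b, hb, hspan, hlin⟩ := exists_linearIndependent ℂ (t : Set (X → ℂ))
  have hbf : b.Finite := t.finite_toSet.subset hb
  set s : Finset (X → ℂ) := hbf.toFinset with hs
  have hsb : (s : Set (X → ℂ)) = b := hbf.coe_toFinset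
  have hst : ∀ g ∈ s, g ∈ t := by
    intro g hg
    have : g ∈ b := by rw [← hsb]; exact hg
    exact hb this
  have hlin' : LinearIndepOn ℂ id (s : Set (X → ℂ)) := by
    rw [hsb]
    exact hlin
  have hc : ∀ g ∈ t, ∃ c : (X → ℂ) → ℂ, ∑ h ∈ s, c h • h = g := by
    intro g hg
    have h1 : g ∈ Submodule.span ℂ (s : Set (X → ℂ)) := by
      rw [hsb, hspan]
      exact Submodule.subset_span hg
    obtain ⟨c, -, hc⟩ := Submodule.mem_span_finset.1 h1
    exact ⟨c, hc⟩
  choose! c hc using hc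
  refine ⟨s, fun g hg => ht g (hst g hg), ?_, fun h => ∑ g ∈ t, c g h • φ g, ?_, ?_⟩
  · intro a ha g hg
    exact (linearIndepOn_finset_iff.1 hlin') a ha g hg
  · intro h _
    exact (C j).sum_mem (fun g hg => (C j).smul_mem (hφ g hg) _)
  · rw [hFt]
    ext x
    simp only [Finset.sum_apply, Pi.mul_apply, Pi.smul_apply, smul_eq_mul, Finset.sum_mul]
    rw [Finset.sum_comm]
    refine Finset.sum_congr rfl (fun g hg => ?_)
    have h1 := congrFun (hc g hg) x
    simp only [Finset.sum_apply, Pi.smul_apply, smul_eq_mul] at h1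
    rw [← h1, Finset.mul_sum]
    refine Finset.sum_congr rfl (fun h _ => ?_)
    ring

end P1

/-- Let `pr i : X → Y i` (`i ∈ I` finite) be such that every coordinate can be changed
independently of the others, `C i` subalgebras of functions on `Y i` and `R i` reflexive relations.
If `F` lies in the algebra generated by the functions `g ∘ pr i`, `g ∈ C i`, and is invariant under
the product of the relations, then it lies in the algebra generated by the `g ∘ pr i` with
`g ∈ C i` invariant under `R i`.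

PROOF.  By induction on a finite set `J ⊆ I`: `F` lies in the algebra generated by the `g ∘ pr i`
with `i ∈ J`, `g ∈ C i` invariant, and the `g ∘ pr i` with `i ∉ J`, `g ∈ C i`.  Step `J ∪ {j}`:
`F = ∑_k (f_k ∘ pr j) * g_k` with `f_k ∈ C j` and `g_k` in the algebra `B'` generated by the
generators with index `≠ j` (a function in `B'` satisfies `f x' = f x` if `pr i x' = pr i x` for all
`i ≠ j`).  Replacing the `g_k` by a basis of their span we may assume that they are linearly
independent.  For `R j y y'` and any `x` choose `x₁, x₂` with `pr j x₁ = y`, `pr j x₂ = y'` and the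
other coordinates those of `x` (`hupd`); the relations hold for `x₁, x₂` (reflexivity), so
`0 = F x₂ - F x₁ = ∑_k (f_k y' - f_k y) g_k x` for all `x`, hence `f_k y' = f_k y` for all `k`. -/
theorem prod_inv {I : Type} [Finite I] {X : Type} (Y : I → Type) (pr : ∀ i, X → Y i)
    (C : ∀ i, Subalgebra ℂ (Y i → ℂ)) (R : ∀ i, Y i → Y i → Prop) (hrefl : ∀ i y, R i y y)
    (hupd : ∀ (i : I) (x : X) (y : Y i), ∃ x' : X, pr i x' = y ∧ ∀ j, j ≠ i → pr j x' = pr j x)
    (F : X → ℂ) (hF : F ∈ Algebra.adjoin ℂ {f : X → ℂ | ∃ i, ∃ g ∈ C i, f = fun x => g (pr i x)})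
    (hinv : ∀ x x', (∀ i, R i (pr i x) (pr i x')) → F x' = F x) :
    F ∈ Algebra.adjoin ℂ {f : X → ℂ | ∃ i, ∃ g ∈ C i, (∀ y y', R i y y' → g y' = g y) ∧
      f = fun x => g (pr i x)} := by
  classical
  have key : ∀ J : Finset I, F ∈ Algebra.adjoin ℂ (p1Gen Y pr C R J) := by
    intro J
    induction J using Finset.induction_on with
    | empty =>
      refine Algebra.adjoin_mono ?_ hF
      rintro f ⟨i, g, hg, rfl⟩
      exact ⟨i, g, hg, fun h => absurd h (Finset.notMem_empty i), rfl⟩
    | insert j J hj ih =>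
      obtain ⟨t, ht, hlin, φ, hφ, hFt⟩ := p1_indep Y pr C j
        (Algebra.adjoin ℂ (p1GenNe Y pr C R J j)) F (p1_sup Y pr C R J j F ih)
      have hφinv : ∀ h ∈ t, ∀ y y', R j y y' → φ h y' = φ h y := by
        intro h hh y y' hy
        have h0 : ∑ g ∈ t, (φ g y' - φ g y) • g = 0 := by
          ext x
          obtain ⟨x₁, hx₁, hx₁'⟩ := hupd j x y
          obtain ⟨x₂, hx₂, hx₂'⟩ := hupd j x y'
          have hR : ∀ i, R i (pr i x₁) (pr i x₂) := by
            intro i
            by_cases hij : i = j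
            · subst hij
              rw [hx₁, hx₂]
              exact hy
            · rw [hx₁' i hij, hx₂' i hij]
              exact hrefl i _
          have hFF := hinv x₁ x₂ hR
          have e1 : F x₁ = ∑ g ∈ t, φ g y * g x := by
            rw [hFt]
            simp only [Finset.sum_apply, Pi.mul_apply]
            refine Finset.sum_congr rfl (fun g hg => ?_)
            rw [hx₁, p1_dep Y pr C R J j g (ht g hg) x x₁ hx₁']
          have e2 : F x₂ = ∑ g ∈ t, φ g y' * g x := by
            rw [hFt]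
            simp only [Finset.sum_apply, Pi.mul_apply]
            refine Finset.sum_congr rfl (fun g hg => ?_)
            rw [hx₂, p1_dep Y pr C R J j g (ht g hg) x x₂ hx₂']
          simp only [Finset.sum_apply, Pi.smul_apply, smul_eq_mul, Pi.zero_apply, sub_mul,
            Finset.sum_sub_distrib]
          rw [← e1, ← e2, hFF, sub_self]
        have := hlin (fun g => φ g y' - φ g y) h0 h hh
        exact sub_eq_zero.1 this
      rw [hFt]
      refine Subalgebra.sum_mem _ (fun g hg => Subalgebra.mul_mem _ ?_ ?_)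
      · exact Algebra.subset_adjoin ⟨j, φ g, hφ g hg, fun _ => hφinv g hg, rfl⟩
      · refine Algebra.adjoin_mono ?_ (ht g hg)
        rintro f ⟨i, hi, g', hg', hinv', rfl⟩
        refine ⟨i, g', hg', fun hmem => ?_, rfl⟩
        rcases Finset.mem_insert.1 hmem with h1 | h1
        · exact absurd h1 hi
        · exact hinv' h1
  cases nonempty_fintype I
  refine Algebra.adjoin_mono ?_ (key Finset.univ)
  rintro f ⟨i, g, hg, hinv', rfl⟩
  exact ⟨i, g, hg, hinv' (Finset.mem_univ i), rfl⟩

end Pool.Agent.MTD
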