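import Pool.Agent.MP_c45d35_ag.ICL

/-! # MTD : invariants of a finite group of automorphisms (row P2) -/

namespace Pool.Agent.MTD

theorem p2_int {C Δ : Type} [CommRing C] [Algebra ℂ C] [Group Δ] [Finite Δ] (σ : Δ → (C →+* C))
    (h1 : ∀ c, σ 1 c = c) (hmul : ∀ δ ε c, σ δ (σ ε c) = σ (ε * δ) c) (B : Subalgebra ℂ C)
    (hB : ∀ c, (∀ δ, σ δ c = c) → c ∈ B) (c : C) : IsIntegral B c := by
  classical
  have hft : Fintype Δ := Fintype.ofFinite Δ
  obtain ⟨P, hP⟩ : ∃ P : Polynomial C, P = ∏ δ : Δ, (Polynomial.X - Polynomial.C (σ δ c)) := ⟨_, rfl⟩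
  have hmon : P.Monic := by
    rw [hP]
    exact Polynomial.monic_prod_of_monic _ _ fun δ _ => Polynomial.monic_X_sub_C _
  have hmap : ∀ δ, P.map (σ δ) = P := by
    intro δ
    rw [hP, Polynomial.map_prod]
    refine Fintype.prod_equiv (Equiv.mulRight δ) _ _ fun ε => ?_
    rw [Polynomial.map_sub, Polynomial.map_X, Polynomial.map_C, hmul]
    rfl
  have hlift : P ∈ Polynomial.lifts (algebraMap B C) := by
    rw [Polynomial.lifts_iff_coeff_lifts]
    intro n
    have h2 : P.coeff n ∈ B := hB _ fun δ => by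
      conv_rhs => rw [← hmap δ, Polynomial.coeff_map]
    exact ⟨⟨P.coeff n, h2⟩, rfl⟩
  obtain ⟨q, hq1, -, hq3⟩ := Polynomial.lifts_and_natDegree_eq_and_monic hlift hmon
  refine ⟨q, hq3, ?_⟩
  rw [← Polynomial.eval_map, hq1, hP, Polynomial.eval_prod]
  refine Finset.prod_eq_zero (Finset.mem_univ (1 : Δ)) ?_
  rw [Polynomial.eval_sub, Polynomial.eval_X, Polynomial.eval_C, h1, sub_self]

theorem p2_artin {C : Type} [CommRing C] [Algebra ℂ C] (hC : Algebra.FiniteType ℂ C)
    (B : Subalgebra ℂ C) (hint : ∀ c : C, IsIntegral B c) : B.FG := by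
  have hi : Algebra.IsIntegral B C := ⟨hint⟩
  have hft : Algebra.FiniteType B C := Algebra.FiniteType.of_restrictScalars_finiteType ℂ B C
  have hmf : @Module.Finite B C _ _ Algebra.toModule := Algebra.IsIntegral.finite
  have h1 : (⊤ : Subalgebra ℂ B).FG :=
    fg_of_fg_of_fg ℂ B C hC.out hmf.fg_top Subtype.val_injective
  exact (Subalgebra.fg_top _).1 h1

theorem p2_intA {X Δ : Type} [Group Δ] [Finite Δ] [MulAction Δ X]
    (A B : Subalgebra ℂ (X → ℂ)) (hA : ∀ (δ : Δ), ∀ F ∈ A, (fun x => F (δ • x)) ∈ A)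
    (hB : ∀ F, F ∈ A → (∀ (δ : Δ) x, F (δ • x) = F x) → F ∈ B) (F : A) :
    IsIntegral (B.comap A.val) F := by
  refine p2_int (Δ := Δ) (fun δ =>
    { toFun := fun F => ⟨fun x => F.1 (δ • x), hA δ F.1 F.2⟩
      map_one' := rfl
      map_mul' := fun _ _ => rfl
      map_zero' := rfl
      map_add' := fun _ _ => rfl }) ?_ ?_ _ ?_ F
  · intro c
    apply Subtype.ext
    funext x
    show c.1 ((1 : Δ) • x) = c.1 x
    rw [one_smul]
  · intro δ ε c
    apply Subtype.ext
    funext x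
    show c.1 (ε • (δ • x)) = c.1 ((ε * δ) • x)
    rw [mul_smul]
  · intro c hc
    rw [Subalgebra.mem_comap]
    exact hB c.1 c.2 fun δ x => congrFun (congrArg Subtype.val (hc δ)) x

/-- Every element of a `Δ`-stable algebra `A` of functions is integral over the algebra `B` of the
invariants: it is a root of `∏_δ (T - δF)`, whose coefficients lie in `A` and are invariant. -/
theorem inv_isIntegral {X Δ : Type} [Group Δ] [Finite Δ] [MulAction Δ X]
    (A B : Subalgebra ℂ (X → ℂ)) (hA : ∀ (δ : Δ), ∀ F ∈ A, (fun x => F (δ • x)) ∈ A)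
    (hB : ∀ F, F ∈ A → (∀ (δ : Δ) x, F (δ • x) = F x) → F ∈ B) (F : X → ℂ) (hF : F ∈ A) :
    IsIntegral B F := by
  have h := p2_intA A B hA hB ⟨F, hF⟩
  exact h.map_of_comp_eq (T := B) (U := X → ℂ)
    ((A.val : A →+* (X → ℂ)).comp (B.comap A.val).val.toRingHom |>.codRestrict B fun b => b.2)
    (A.val : A →+* (X → ℂ)) rfl

/-- Invariants of a finite group acting on a finitely generated algebra.  (`fg_of_integral` of
`Pool/Agent/MP_c45d35_ag/ICL.lean` with `C := A`, `R` = the algebra generated by the coefficients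
of `∏_δ (T - δF)` for a finite set of generators `F` of `A`, cf. `fg_of_invol` in `Adj.lean`.) -/
theorem inv_fg {X Δ : Type} [Group Δ] [Finite Δ] [MulAction Δ X]
    (A B : Subalgebra ℂ (X → ℂ)) (hA : ∀ (δ : Δ), ∀ F ∈ A, (fun x => F (δ • x)) ∈ A)
    (hB : ∀ F, F ∈ B ↔ F ∈ A ∧ ∀ (δ : Δ) x, F (δ • x) = F x) (h : A.FG) : B.FG := by
  have hint := p2_intA A B hA fun F hF hF2 => (hB F).2 ⟨hF, hF2⟩
  have hfin : Algebra.FiniteType ℂ A := (Subalgebra.fg_iff_finiteType A).1 h
  have h2 : (B.comap A.val).FG := p2_artin hfin _ hint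
  have h3 : (B.comap A.val).map A.val = B := by
    ext F
    rw [Subalgebra.mem_map]
    constructor
    · rintro ⟨f, hf, rfl⟩
      exact hf
    · intro hF
      exact ⟨⟨F, ((hB F).1 hF).1⟩, hF, rfl⟩
  rw [← h3]
  exact h2.map _

/-- Conversely, an algebra `A ≤ C`, `C` finitely generated, is finitely generated if its algebra
of invariants is (`fg_of_integral` with `R := B`, `B := A`). -/
theorem fg_of_inv {X Δ : Type} [Group Δ] [Finite Δ] [MulAction Δ X]
    (A B C : Subalgebra ℂ (X → ℂ)) (hA : ∀ (δ : Δ), ∀ F ∈ A, (fun x => F (δ • x)) ∈ A)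
    (hB : ∀ F, F ∈ B ↔ F ∈ A ∧ ∀ (δ : Δ) x, F (δ • x) = F x) (hC : C.FG) (hAC : A ≤ C)
    (h : B.FG) : A.FG := by
  have hint := p2_intA A B hA fun F hF hF2 => (hB F).2 ⟨hF, hF2⟩
  have hBA : B ≤ A := fun F hF => ((hB F).1 hF).1
  have hfin : Algebra.FiniteType ℂ C := (Subalgebra.fg_iff_finiteType C).1 hC
  have hred : IsReduced C := isReduced_of_injective C.val Subtype.val_injective
  have hmapA : (A.comap C.val).map C.val = A := by
    ext F
    rw [Subalgebra.mem_map]
    constructor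
    · rintro ⟨f, hf, rfl⟩
      exact hf
    · intro hF
      exact ⟨⟨F, hAC hF⟩, hF, rfl⟩
  have hmapB : (B.comap C.val).map C.val = B := by
    ext F
    rw [Subalgebra.mem_map]
    constructor
    · rintro ⟨f, hf, rfl⟩
      exact hf
    · intro hF
      exact ⟨⟨F, hAC (hBA hF)⟩, hF, rfl⟩
  have hBfg : (B.comap C.val).FG := by
    refine Subalgebra.fg_of_fg_map _ C.val Subtype.val_injective ?_
    rw [hmapB]
    exact h
  have hAfg : (A.comap C.val).FG := by
    refine Pool.Agent.MP_c45d35_ag.fg_of_integral hfin (B.comap C.val) (A.comap C.val) hBfg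
      (fun c hc => hBA hc) ?_
    intro b hb
    have h1 := hint ⟨b.1, hb⟩
    exact h1.map_of_comp_eq (T := B.comap C.val) (U := C)
      (((Subalgebra.inclusion hAC : A →ₐ[ℂ] C) : A →+* C).comp (B.comap A.val).val.toRingHom
        |>.codRestrict (B.comap C.val) fun b => b.2)
      ((Subalgebra.inclusion hAC : A →ₐ[ℂ] C) : A →+* C) rfl
  rw [← hmapA]
  exact hAfg.map _

end Pool.Agent.MTD
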