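import Pool.Agent.MTD.P0
import Pool.Agent.MTD.P1
import Pool.Agent.MTD.P2

/-! # MTD : central isogenies (row P3) -/

namespace Pool.Agent.MTD

open Matrix

section
variable {G Q S : Type} [Group G] [Group Q] {OG : Subalgebra ℂ (G → ℂ)} {OQ : Subalgebra ℂ (Q → ℂ)}
  {OS : Subalgebra ℂ (S → ℂ)} {π : G →* Q}

/-- Pull-back of functions along `G^b × S → Q^b × S`. -/
def pull (π : G →* Q) (b : ℕ) (S : Type) :
    (((Fin b → Q) × S) → ℂ) →ₐ[ℂ] (((Fin b → G) × S) → ℂ) where
  toFun F := fun y => F (fun a => π (y.1 a), y.2)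
  map_one' := rfl
  map_mul' _ _ := rfl
  map_zero' := rfl
  map_add' _ _ := rfl
  commutes' _ := rfl

theorem pull_injective (h : Function.Surjective π) (b : ℕ) :
    Function.Injective (pull π b S) := by
  intro F F' hF
  funext ⟨q, s⟩
  choose g hg using fun a => h (q a)
  have h1 := congrFun hF (g, s)
  have h2 : (fun a => π (g a)) = q := funext hg
  change F (fun a => π (g a), s) = F' (fun a => π (g a), s) at h1
  rwa [h2] at h1

theorem p3_adj {X Y : Type} (pr : X → Y) (t : Set (Y → ℂ)) (B : Subalgebra ℂ (X → ℂ))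
    (h : ∀ f ∈ t, (fun x => f (pr x)) ∈ B) :
    ∀ f ∈ Algebra.adjoin ℂ t, (fun x => f (pr x)) ∈ B := by
  intro f hf
  induction hf using Algebra.adjoin_induction with
  | mem f hf => exact h f hf
  | algebraMap r => exact B.algebraMap_mem r
  | add f g _ _ hf hg => exact B.add_mem hf hg
  | mul f g _ _ hf hg => exact B.mul_mem hf hg

theorem RegF_fg (hG : OG.FG) (hS : OS.FG) (b : ℕ) : (RegF OG OS b).FG := by
  obtain ⟨tG, htG⟩ := hG
  obtain ⟨tS, htS⟩ := hS
  classical
  refine ⟨(Finset.univ.biUnion fun a : Fin b => tG.image fun f => fun y : (Fin b → G) × S => f (y.1 a)) ∪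
    tS.image fun f => fun y : (Fin b → G) × S => f y.2, ?_⟩
  apply le_antisymm
  · refine Algebra.adjoin_le ?_
    intro F hF
    rw [Finset.mem_coe, Finset.mem_union, Finset.mem_biUnion] at hF
    rcases hF with ⟨a, -, hF⟩ | hF
    · obtain ⟨f, hf, rfl⟩ := Finset.mem_image.1 hF
      exact Algebra.subset_adjoin (Or.inl ⟨a, f, htG ▸ Algebra.subset_adjoin hf, rfl⟩)
    · obtain ⟨f, hf, rfl⟩ := Finset.mem_image.1 hF
      exact Algebra.subset_adjoin (Or.inr ⟨f, htS ▸ Algebra.subset_adjoin hf, rfl⟩)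
  · refine Algebra.adjoin_le ?_
    rintro F (⟨a, f, hf, rfl⟩ | ⟨f, hf, rfl⟩)
    · rw [← htG] at hf
      refine p3_adj (fun y : (Fin b → G) × S => y.1 a) _ _ (fun f hf => ?_) f hf
      refine Algebra.subset_adjoin ?_
      rw [Finset.mem_coe, Finset.mem_union, Finset.mem_biUnion]
      exact Or.inl ⟨a, Finset.mem_univ _, Finset.mem_image_of_mem _ hf⟩
    · rw [← htS] at hf
      refine p3_adj (fun y : (Fin b → G) × S => y.2) _ _ (fun f hf => ?_) f hf
      refine Algebra.subset_adjoin ?_
      rw [Finset.mem_coe, Finset.mem_union]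
      exact Or.inr (Finset.mem_image_of_mem _ hf)

theorem pull_reg (h : CentralIsogeny OG OQ π) (b : ℕ) (F : ((Fin b → Q) × S) → ℂ)
    (hF : F ∈ RegF OQ OS b) : pull π b S F ∈ RegF OG OS b := by
  refine p3_adj (fun y : (Fin b → G) × S => ((fun a => π (y.1 a), y.2) : (Fin b → Q) × S)) _ _
    (fun f hf => ?_) F hF
  rcases hf with ⟨a, f, hf, rfl⟩ | ⟨f, hf, rfl⟩
  · exact Algebra.subset_adjoin (Or.inl ⟨a, _, (h.quot f).1 hf, rfl⟩)
  · exact Algebra.subset_adjoin (Or.inr ⟨f, hf, rfl⟩)

/-- the factors of the product -/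
def p3Y (G S : Type) (b : ℕ) : Option (Fin b) → Type
  | none => S
  | some _ => G

/-- the coordinates -/
def p3pr (G S : Type) (b : ℕ) : ∀ i : Option (Fin b), ((Fin b → G) × S) → p3Y G S b i
  | none, y => y.2
  | some a, y => y.1 a

/-- the algebras of functions of the coordinates -/
def p3C (OG : Subalgebra ℂ (G → ℂ)) (OS : Subalgebra ℂ (S → ℂ)) (b : ℕ) :
    ∀ i : Option (Fin b), Subalgebra ℂ (p3Y G S b i → ℂ)
  | none => OS
  | some _ => OG

/-- the relations -/
def p3R (π : G →* Q) (S : Type) (b : ℕ) : ∀ i : Option (Fin b), p3Y G S b i → p3Y G S b i → Prop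
  | none => fun s s' => s = s'
  | some _ => fun g g' : G => ∃ z ∈ π.ker, g' = z * g

theorem p3_coord (h : CentralIsogeny OG OQ π) (g : G → ℂ) (hg : g ∈ OG)
    (hinv : ∀ y y' : G, (∃ z ∈ π.ker, y' = z * y) → g y' = g y) :
    ∃ f' ∈ OQ, ∀ x, g x = f' (π x) := by
  choose σ hσ using h.surj
  have h1 : ∀ x, g x = g (σ (π x)) := by
    intro x
    refine (hinv x (σ (π x)) ⟨σ (π x) * x⁻¹, ?_, ?_⟩).symm
    · rw [MonoidHom.mem_ker, map_mul, hσ, map_inv, mul_inv_cancel]
    · rw [inv_mul_cancel_right]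
  refine ⟨fun q => g (σ q), ?_, h1⟩
  rw [h.quot]
  have h2 : (fun x => g (σ (π x))) = g := funext fun x => (h1 x).symm
  rw [h2]
  exact hg

/-- A regular function on `G^b × S` that is invariant under `(ker π)^b` comes from a regular
function on `Q^b × S`.

PROOF.  `prod_inv` with index set `Option (Fin b)`, `Y none = S`, `Y (some a) = G`, the relations
`R none = (· = ·)`, `R (some a) g g' := ∃ z ∈ π.ker, g' = z * g`: `F` lies in the algebra generated
by `OS` and the `f (y.1 a)` with `f ∈ OG`, `f (z g) = f g` for `z ∈ ker π`.  Such an `f` is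
`f' ∘ π` (surjectivity of `π`; `π g = π g'` implies `g' = (g' g⁻¹) g` with `g' g⁻¹ ∈ ker π`), and
`f' ∈ OQ` by `h.quot`.  Hence `F` lies in the image of `RegF OQ OS b` under `pull`. -/
theorem reg_descend (h : CentralIsogeny OG OQ π) (b : ℕ) (F : ((Fin b → G) × S) → ℂ)
    (hF : F ∈ RegF OG OS b)
    (hinv : ∀ (z : Fin b → G) (y : (Fin b → G) × S), (∀ a, z a ∈ π.ker) →
      F (z * y.1, y.2) = F y) :
    ∃ F' ∈ RegF OQ OS b, F = pull π b S F' := by
  have h1 := prod_inv (p3Y G S b) (p3pr G S b) (p3C OG OS b) (p3R π S b) ?_ ?_ F ?_ ?_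
  · have h2 : F ∈ (RegF OQ OS b).map (pull π b S) := by
      refine (Algebra.adjoin_le ?_ : _ ≤ (RegF OQ OS b).map (pull π b S)) h1
      rintro f ⟨i, g, hg, hgi, rfl⟩
      cases i with
      | none => exact ⟨fun y => g y.2, Algebra.subset_adjoin (Or.inr ⟨g, hg, rfl⟩), rfl⟩
      | some a =>
        obtain ⟨f', hf', h3⟩ := p3_coord h g hg hgi
        refine ⟨fun y => f' (y.1 a), Algebra.subset_adjoin (Or.inl ⟨a, f', hf', rfl⟩), ?_⟩
        funext y
        exact (h3 (y.1 a)).symm
    obtain ⟨F', hF', h3⟩ := h2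
    exact ⟨F', hF', h3.symm⟩
  · intro i y
    cases i with
    | none => exact rfl
    | some a => exact ⟨1, one_mem _, (one_mul _).symm⟩
  · intro i x y
    cases i with
    | none =>
      refine ⟨(x.1, y), rfl, fun j hj => ?_⟩
      cases j with
      | none => exact absurd rfl hj
      | some a => rfl
    | some a =>
      let y' : G := y
      refine ⟨(Function.update x.1 a y', x.2), ?_, fun j hj => ?_⟩
      · show Function.update x.1 a y' a = y'
        exact Function.update_self a y' x.1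
      cases j with
      | none => rfl
      | some a' =>
        have h2 : a' ≠ a := fun h => hj (by rw [h])
        show Function.update x.1 a y' a' = x.1 a'
        exact Function.update_of_ne h2 y' x.1
  · refine Algebra.adjoin_mono ?_ hF
    rintro f (⟨a, f, hf, rfl⟩ | ⟨f, hf, rfl⟩)
    · exact ⟨some a, f, hf, rfl⟩
    · exact ⟨none, f, hf, rfl⟩
  · intro x x' hx
    have h2 : x.2 = x'.2 := hx none
    choose z hz hz' using fun a => hx (some a)
    have h3 := hinv z x hz
    rw [← h3, h2]
    congr 1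
    refine Prod.ext ?_ rfl
    funext a
    exact hz' a

/-- The same for the Moore–Tachikawa rings.  For `b ≥ 1` and `F = pull F'` invariant for `G`:
given `h' a ∈ ZQ s` with product `1` lift to `h a ∈ G`; the product of the `h a` is a `z ∈ ker π`;
replace `h 0` by `z⁻¹ * h 0`.  For `b = 0` nothing is to be shown. -/
theorem mt_descend (h : CentralIsogeny OG OQ π) (ZQ : S → Set Q) (b : ℕ)
    (F' : ((Fin b → Q) × S) → ℂ) :
    pull π b S F' ∈ MT OG OS (fun s => π ⁻¹' ZQ s) b ↔ F' ∈ MT OQ OS ZQ b := by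
  have hk : ∀ (z : Fin b → G) (y : (Fin b → G) × S), (∀ a, z a ∈ π.ker) →
      pull π b S F' (z * y.1, y.2) = pull π b S F' y := by
    intro z y hz
    show F' (fun a => π ((z * y.1) a), y.2) = F' (fun a => π (y.1 a), y.2)
    congr 2
    funext a
    rw [Pi.mul_apply, map_mul, MonoidHom.mem_ker.1 (hz a), one_mul]
  constructor
  · rintro ⟨h1, h2⟩
    obtain ⟨F'', hF'', h3⟩ := reg_descend h b _ h1 hk
    have h4 := pull_injective h.surj b h3
    subst h4
    refine ⟨hF'', fun g k s hk1 hk2 => ?_⟩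
    choose g' hg' using fun a => h.surj (g a)
    choose k' hk' using fun a => h.surj (k a)
    cases b with
    | zero => exact congrArg F' (Prod.ext (Subsingleton.elim _ _) rfl)
    | succ b =>
      have h5 : π (List.ofFn k').prod = 1 := by
        rw [map_list_prod, List.map_ofFn, ← hk2]
        congr 2
        funext a
        exact hk' a
      have h6 := h2 g' (Function.update k' 0 ((List.ofFn k').prod⁻¹ * k' 0)) s ?_ ?_
      · have h7 : (fun a => π ((g' * Function.update k' 0 ((List.ofFn k').prod⁻¹ * k' 0)) a)) = g * k := by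
          funext a
          rw [Pi.mul_apply, Pi.mul_apply, map_mul, hg']
          congr 1
          by_cases ha : a = 0
          · subst ha
            rw [Function.update_self, map_mul, map_inv, h5, inv_one, one_mul, hk']
          · rw [Function.update_of_ne ha, hk']
        have h8 : (fun a => π (g' a)) = g := funext hg'
        change F' (fun a => π ((g' * Function.update k' 0 ((List.ofFn k').prod⁻¹ * k' 0)) a), s) =
          F' (fun a => π (g' a), s) at h6
        rwa [h7, h8] at h6
      · intro a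
        show π _ ∈ ZQ s
        by_cases ha : a = 0
        · subst ha
          rw [Function.update_self, map_mul, map_inv, h5, inv_one, one_mul, hk']
          exact hk1 0
        · rw [Function.update_of_ne ha, hk']
          exact hk1 a
      · rw [List.ofFn_succ, List.prod_cons, Function.update_self]
        have h9 : (List.ofFn fun i : Fin b => Function.update k' 0 ((List.ofFn k').prod⁻¹ * k' 0) i.succ) =
            List.ofFn fun i : Fin b => k' i.succ := by
          refine congrArg List.ofFn (funext fun i => ?_)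
          exact Function.update_of_ne (Fin.succ_ne_zero i) _ _
        rw [h9, mul_assoc, ← List.prod_cons, ← List.ofFn_succ, inv_mul_cancel]
  · rintro ⟨h1, h2⟩
    refine ⟨pull_reg h b F' h1, fun g k s hk1 hk2 => ?_⟩
    have h3 := h2 (fun a => π (g a)) (fun a => π (k a)) s hk1 (by
      have h4 : (List.ofFn fun a => π (k a)) = (List.ofFn k).map π := by
        rw [List.map_ofFn]
        rfl
      rw [h4, ← map_list_prod, hk2, map_one])
    show F' (fun a => π ((g * k) a), s) = F' (fun a => π (g a), s)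
    rw [← h3]
    congr 2
    funext a
    rw [Pi.mul_apply, map_mul]
    rfl

/-- The ring of `G` is stable under multiplication of the coordinates by elements of `ker π`. -/
theorem mt_stable (h : CentralIsogeny OG OQ π) (ZQ : S → Set Q) (b : ℕ) (z : Fin b → G)
    (hz : ∀ a, z a ∈ π.ker) (F : ((Fin b → G) × S) → ℂ)
    (hF : F ∈ MT OG OS (fun s => π ⁻¹' ZQ s) b) :
    (fun y : (Fin b → G) × S => F (z * y.1, y.2)) ∈ MT OG OS (fun s => π ⁻¹' ZQ s) b := by
  obtain ⟨h1, h2⟩ := hF
  refine ⟨?_, fun g k s hk1 hk2 => ?_⟩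
  · refine p3_adj (fun y : (Fin b → G) × S => ((z * y.1, y.2) : (Fin b → G) × S)) _ _
      (fun f hf => ?_) F h1
    rcases hf with ⟨a, f, hf, rfl⟩ | ⟨f, hf, rfl⟩
    · exact Algebra.subset_adjoin (Or.inl ⟨a, _, h.trans (z a) (hz a) f hf, rfl⟩)
    · exact Algebra.subset_adjoin (Or.inr ⟨f, hf, rfl⟩)
  · show F (z * (g * k), s) = F (z * g, s)
    rw [← mul_assoc]
    exact h2 (z * g) k s hk1 hk2

/-- **Finite generation is invariant under central isogenies.**  `Δ := Fin b → π.ker` acts on
`X := (Fin b → G) × S` by `z • y = (z * y.1, y.2)`; the invariants of `A := MT OG OS _ b` are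
`B := (MT OQ OS ZQ b).map (pull π b S)` (`reg_descend`, `mt_descend`), and `B.FG ↔ (MT OQ OS ZQ b).FG`
by injectivity of `pull` (`Subalgebra.fg_of_fg_map`).  Now `inv_fg` and `fg_of_inv` with
`C := RegF OG OS b`. -/
theorem isog_fg (h : CentralIsogeny OG OQ π) (hG : OG.FG) (hS : OS.FG) (ZQ : S → Set Q) (b : ℕ) :
    (MT OG OS (fun s => π ⁻¹' ZQ s) b).FG ↔ (MT OQ OS ZQ b).FG := by
  have _ := h.fin
  let _ : MulAction (Fin b → π.ker) ((Fin b → G) × S) :=
    { smul := fun z y => (fun a => (z a : G) * y.1 a, y.2)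
      one_smul := by
        intro y
        refine Prod.ext ?_ rfl
        funext a
        exact one_mul _
      mul_smul := by
        intro z z' y
        refine Prod.ext ?_ rfl
        funext a
        exact mul_assoc _ _ _ }
  have hsm : ∀ (z : Fin b → π.ker) (y : (Fin b → G) × S),
      z • y = ((fun a => (z a : G)) * y.1, y.2) := fun z y => rfl
  have hA : ∀ (δ : Fin b → π.ker), ∀ F ∈ MT OG OS (fun s => π ⁻¹' ZQ s) b,
      (fun x => F (δ • x)) ∈ MT OG OS (fun s => π ⁻¹' ZQ s) b := by
    intro δ F hF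
    exact mt_stable h ZQ b (fun a => (δ a : G)) (fun a => (δ a).2) F hF
  have hB : ∀ F, F ∈ (MT OQ OS ZQ b).map (pull π b S) ↔ F ∈ MT OG OS (fun s => π ⁻¹' ZQ s) b ∧
      ∀ (δ : Fin b → π.ker) x, F (δ • x) = F x := by
    intro F
    constructor
    · rintro ⟨F', hF', rfl⟩
      refine ⟨(mt_descend h ZQ b F').2 hF', fun δ x => ?_⟩
      show F' (fun a => π ((δ a : G) * x.1 a), x.2) = F' (fun a => π (x.1 a), x.2)
      congr 2
      funext a
      rw [map_mul, MonoidHom.mem_ker.1 (δ a).2, one_mul]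
    · rintro ⟨h1, h2⟩
      obtain ⟨F', hF', h3⟩ := reg_descend h b F h1.1 (fun z y hz => h2 (fun a => ⟨z a, hz a⟩) y)
      subst h3
      exact ⟨F', (mt_descend h ZQ b F').1 h1, rfl⟩
  constructor
  · intro h1
    exact Subalgebra.fg_of_fg_map _ (pull π b S) (pull_injective h.surj b)
      (inv_fg (Δ := Fin b → π.ker) _ _ hA hB h1)
  · intro h1
    exact fg_of_inv (Δ := Fin b → π.ker) _ _ (RegF OG OS b) hA hB (RegF_fg hG hS b)
      (fun F hF => hF.1) (h1.map _)

end

end Pool.Agent.MTD
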