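import Pool.Agent.MTD.P0
import Pool.Agent.MTD.P1

/-! # MTD : products (row P4) -/

namespace Pool.Agent.MTD

open Matrix

/-- Composition with a map. -/
def p4_pull {X Y : Type} (p : X → Y) : (Y → ℂ) →ₐ[ℂ] (X → ℂ) where
  toFun g := fun x => g (p x)
  map_one' := rfl
  map_mul' _ _ := rfl
  map_zero' := rfl
  map_add' _ _ := rfl
  commutes' _ := rfl

/-- The algebra generated by the functions `g ∘ pr i`. -/
def p4_A {I X : Type} {Y : I → Type} (pr : ∀ i, X → Y i) (C : ∀ i, Subalgebra ℂ (Y i → ℂ)) :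
    Subalgebra ℂ (X → ℂ) :=
  Algebra.adjoin ℂ {f : X → ℂ | ∃ i, ∃ g ∈ C i, f = fun x => g (pr i x)}

theorem p4_fg {I X : Type} [Finite I] {Y : I → Type} (pr : ∀ i, X → Y i)
    (C : ∀ i, Subalgebra ℂ (Y i → ℂ)) (h : ∀ i, (C i).FG) : (p4_A pr C).FG := by
  have h' : ∀ i, ∃ t : Set (Y i → ℂ), t.Finite ∧ Algebra.adjoin ℂ t = C i := fun i =>
    Subalgebra.fg_def.1 (h i)
  choose t ht ht' using h'
  refine Subalgebra.fg_def.2 ⟨⋃ i, p4_pull (pr i) '' t i,
    Set.finite_iUnion fun i => (ht i).image _, le_antisymm ?_ ?_⟩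
  · refine Algebra.adjoin_le ?_
    rintro f hf
    obtain ⟨i, g, hg, rfl⟩ := Set.mem_iUnion.1 hf
    refine Algebra.subset_adjoin ⟨i, g, ?_, rfl⟩
    rw [← ht' i]
    exact Algebra.subset_adjoin hg
  · refine Algebra.adjoin_le ?_
    rintro f ⟨i, g, hg, rfl⟩
    have h1 : p4_pull (pr i) g ∈ (Algebra.adjoin ℂ (t i)).map (p4_pull (pr i)) :=
      ⟨g, by rw [SetLike.mem_coe, ht' i]; exact hg, rfl⟩
    rw [AlgHom.map_adjoin] at h1
    exact Algebra.adjoin_mono (Set.subset_iUnion (fun i => p4_pull (pr i) '' t i) i) h1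

theorem p4_mem_of_pull {X Y : Type} (p : X → Y) (s : Set (Y → ℂ)) (A : Subalgebra ℂ (X → ℂ))
    (h : ∀ g ∈ s, (fun x => g (p x)) ∈ A) {g : Y → ℂ} (hg : g ∈ Algebra.adjoin ℂ s) :
    (fun x => g (p x)) ∈ A := by
  have h1 : Algebra.adjoin ℂ s ≤ A.comap (p4_pull p) :=
    Algebra.adjoin_le fun g hg => h g hg
  exact h1 hg

theorem p4_ofFn {I : Type} {G : I → Type} [∀ i, Group (G i)] {b : ℕ} (h : Fin b → ∀ i, G i)
    (i : I) : (List.ofFn h).prod i = (List.ofFn fun a => h a i).prod := by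
  have h1 := map_list_prod (Pi.evalMonoidHom G i) (List.ofFn h)
  rw [List.map_ofFn] at h1
  exact h1

/-- The coordinate maps. -/
def p4_pr {I : Type} (G S : I → Type) (b : ℕ) (i : I)
    (y : (Fin b → ∀ i, G i) × ∀ i, S i) : (Fin b → G i) × S i := (fun a => y.1 a i, y.2 i)

/-- The relation of the factor. -/
def p4_R {G S : Type} [Group G] (Z : S → Set G) (b : ℕ) (y y' : (Fin b → G) × S) : Prop :=
  y'.2 = y.2 ∧ ∃ h : Fin b → G, (∀ a, h a ∈ Z y.2) ∧ (List.ofFn h).prod = 1 ∧ y'.1 = y.1 * h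

theorem p4_mem_MT {G S : Type} [Group G] {OG : Subalgebra ℂ (G → ℂ)} {OS : Subalgebra ℂ (S → ℂ)}
    {Z : S → Set G} {b : ℕ} {F : ((Fin b → G) × S) → ℂ} : F ∈ MT OG OS Z b ↔
      F ∈ RegF OG OS b ∧ ∀ y y', p4_R Z b y y' → F y' = F y := by
  constructor
  · rintro ⟨h1, h2⟩
    refine ⟨h1, ?_⟩
    rintro ⟨g, s⟩ ⟨g', s'⟩ ⟨e1, h, h3, h4, e2⟩
    simp only at e1 e2 h3
    subst e1 e2
    exact h2 g h s' h3 h4
  · rintro ⟨h1, h2⟩
    exact ⟨h1, fun g h s h3 h4 => h2 (g, s) (g * h, s) ⟨rfl, h, h3, h4, rfl⟩⟩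

theorem p4_reg_le {I : Type} (G S : I → Type) [∀ i, Group (G i)]
    (OG : ∀ i, Subalgebra ℂ (G i → ℂ)) (OS : ∀ i, Subalgebra ℂ (S i → ℂ)) (b : ℕ) (i : I)
    {g : ((Fin b → G i) × S i) → ℂ} (hg : g ∈ RegF (OG i) (OS i) b) :
    (fun y => g (p4_pr G S b i y)) ∈ RegF (prodAlg OG) (prodAlg OS) b := by
  refine p4_mem_of_pull _ _ _ ?_ hg
  rintro g (⟨a, f, hf, rfl⟩ | ⟨f, hf, rfl⟩)
  · refine Algebra.subset_adjoin (Or.inl ⟨a, fun x => f (x i), ?_, rfl⟩)
    exact Algebra.subset_adjoin ⟨i, f, hf, rfl⟩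
  · refine Algebra.subset_adjoin (Or.inr ⟨fun x => f (x i), ?_, rfl⟩)
    exact Algebra.subset_adjoin ⟨i, f, hf, rfl⟩

theorem p4_reg_ge {I : Type} (G S : I → Type) [∀ i, Group (G i)]
    (OG : ∀ i, Subalgebra ℂ (G i → ℂ)) (OS : ∀ i, Subalgebra ℂ (S i → ℂ)) (b : ℕ) :
    RegF (prodAlg OG) (prodAlg OS) b ≤ p4_A (p4_pr G S b) fun i => RegF (OG i) (OS i) b := by
  refine Algebra.adjoin_le ?_
  rintro F (⟨a, f, hf, rfl⟩ | ⟨f, hf, rfl⟩)
  · refine p4_mem_of_pull (fun y : (Fin b → ∀ i, G i) × ∀ i, S i => y.1 a) _ _ ?_ hf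
    rintro g ⟨i, f, hf, rfl⟩
    exact Algebra.subset_adjoin ⟨i, fun y => f (y.1 a),
      Algebra.subset_adjoin (Or.inl ⟨a, f, hf, rfl⟩), rfl⟩
  · refine p4_mem_of_pull (fun y : (Fin b → ∀ i, G i) × ∀ i, S i => y.2) _ _ ?_ hf
    rintro g ⟨i, f, hf, rfl⟩
    exact Algebra.subset_adjoin ⟨i, fun y => f y.2,
      Algebra.subset_adjoin (Or.inr ⟨f, hf, rfl⟩), rfl⟩


theorem prodAlg_fg {I : Type} [Finite I] {X : I → Type} {O : ∀ i, Subalgebra ℂ (X i → ℂ)}
    (h : ∀ i, (O i).FG) : (prodAlg O).FG := by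
  exact p4_fg (fun i (x : ∀ i, X i) => x i) O h

/-- **The Moore–Tachikawa ring of a product is finitely generated if those of the factors are.**

PROOF.  `prod_inv` with `X := (Fin b → ∀ i, G i) × ∀ i, S i`, `Y i := (Fin b → G i) × S i`,
`pr i y := (fun a => y.1 a i, y.2 i)`, `C i := RegF (OG i) (OS i) b` and
`R i y y' := y'.2 = y.2 ∧ ∃ h : Fin b → G i, (∀ a, h a ∈ Z i y.2) ∧ (List.ofFn h).prod = 1 ∧
  y'.1 = y.1 * h` (reflexive by `h1`).  The generators of `RegF (prodAlg OG) (prodAlg OS) b` are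
functions of the required form.  The functions `g ∘ pr i` with `g` in the ring of the `i`-th factor
lie in the ring of the product, so that this ring is the algebra generated by the images of the
rings of the factors under the algebra homomorphisms `g ↦ g ∘ pr i`.
(`(List.ofFn h).prod = 1` in `∀ i, G i` iff it holds in every coordinate: `Pi.evalMonoidHom`,
`List.prod_hom`/`map_list_prod`, `List.map_ofFn`.) -/
theorem prod_fg {I : Type} [Finite I] (G S : I → Type) [∀ i, Group (G i)]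
    (OG : ∀ i, Subalgebra ℂ (G i → ℂ)) (OS : ∀ i, Subalgebra ℂ (S i → ℂ))
    (Z : ∀ i, S i → Set (G i)) (h1 : ∀ i s, (1 : G i) ∈ Z i s) (b : ℕ)
    (hfg : ∀ i, (MT (OG i) (OS i) (Z i) b).FG) :
    (MT (prodAlg OG) (prodAlg OS) (fun s => {m | ∀ i, m i ∈ Z i (s i)}) b).FG := by
  have key : MT (prodAlg OG) (prodAlg OS) (fun s => {m | ∀ i, m i ∈ Z i (s i)}) b =
      p4_A (p4_pr G S b) fun i => MT (OG i) (OS i) (Z i) b := by
    apply le_antisymm
    · intro F hF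
      obtain ⟨hF1, hF2⟩ := p4_mem_MT.1 hF
      have h2 := prod_inv (fun i => (Fin b → G i) × S i) (p4_pr G S b)
        (fun i => RegF (OG i) (OS i) b) (fun i => p4_R (Z i) b) ?_ ?_ F
        (p4_reg_ge G S OG OS b hF1) ?_
      · refine Algebra.adjoin_mono ?_ h2
        rintro f ⟨i, g, hg, hg', rfl⟩
        exact ⟨i, g, p4_mem_MT.2 ⟨hg, hg'⟩, rfl⟩
      · intro i y
        refine ⟨rfl, 1, fun a => h1 i _, ?_, (mul_one _).symm⟩
        apply List.prod_eq_one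
        intro x hx
        rw [List.mem_ofFn] at hx
        obtain ⟨a, rfl⟩ := hx
        rfl
      · classical
        intro i x y
        refine ⟨(fun a => Function.update (x.1 a) i (y.1 a), Function.update x.2 i y.2), ?_, ?_⟩
        · simp [p4_pr]
        · intro j hj
          simp [p4_pr, Function.update_of_ne hj]
      · intro x x' hx
        have hx1 : x'.2 = x.2 := funext fun i => (hx i).1
        choose h h3 h4 h5 using fun i => (hx i).2
        refine hF2 x x' ⟨hx1, fun a i => h i a, fun a i => h3 i a, ?_, ?_⟩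
        · funext i
          rw [p4_ofFn]
          exact h4 i
        · funext a
          funext i
          exact congrFun (h5 i) a
    · refine Algebra.adjoin_le ?_
      rintro F ⟨i, g, hg, rfl⟩
      obtain ⟨hg1, hg2⟩ := p4_mem_MT.1 hg
      refine p4_mem_MT.2 ⟨p4_reg_le G S OG OS b i hg1, ?_⟩
      rintro y y' ⟨e1, h, h3, h4, e2⟩
      refine hg2 _ _ ⟨congrFun e1 i, fun a => h a i, fun a => h3 a i, ?_, ?_⟩
      · rw [← p4_ofFn, h4]
        rfl
      · funext a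
        exact congrFun (congrFun e2 a) i
  rw [key]
  exact p4_fg _ _ hfg

end Pool.Agent.MTD
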