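import Pool.Agent.MTD.TA2
import Pool.Agent.MTD.GLtop

/-! # MTD : type `A`, finite generation -/

namespace Pool.Agent.MTD

open Matrix
open Pool.Agent.MP_c45d35_ag.BlockD (Up exists_triang)

/-- minors on the first columns of `g b`, `b` upper triangular -/
theorem minor_castLE {N k : ℕ} (hk : k ≤ N) {K : Type*} [CommRing K]
    (g b : Matrix (Fin N) (Fin N) K) (hb : ∀ i j, j < i → b i j = 0) (I : Fin k → Fin N) :
    ((g * b).submatrix I (Fin.castLE hk)).det =
      (g.submatrix I (Fin.castLE hk)).det * ∏ j, b (Fin.castLE hk j) (Fin.castLE hk j) := by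
  have h1 : (g * b).submatrix I (Fin.castLE hk) =
      g.submatrix I (Fin.castLE hk) * b.submatrix (Fin.castLE hk) (Fin.castLE hk) := by
    ext i j
    rw [Matrix.submatrix_apply, Matrix.mul_apply, Matrix.mul_apply]
    have h2 : ∑ l : Fin k, g (I i) (Fin.castLE hk l) * b (Fin.castLE hk l) (Fin.castLE hk j) =
        ∑ l ∈ Finset.univ.map (Fin.castLEEmb hk), g (I i) l * b l (Fin.castLE hk j) := by
      rw [Finset.sum_map]
      rfl
    show _ = ∑ l : Fin k, g (I i) (Fin.castLE hk l) * b (Fin.castLE hk l) (Fin.castLE hk j)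
    rw [h2]
    symm
    refine Finset.sum_subset (Finset.subset_univ _) fun l _ hl => ?_
    rw [hb l _ ?_, mul_zero]
    rw [Fin.lt_def, Fin.val_castLE]
    by_contra hcon
    apply hl
    rw [Finset.mem_map]
    have hj := j.2
    exact ⟨⟨l, by omega⟩, Finset.mem_univ _, Fin.ext rfl⟩
  rw [h1, Matrix.det_mul]
  congr 1
  refine (Up.det (A := b.submatrix (Fin.castLE hk) (Fin.castLE hk)) ?_)
  intro i j hij
  exact hb _ _ hij

/-- leading weight of the minors -/
theorem lt_or_GL {n N : ℕ} (wt : Fin N → Fin n → ℤ) (hn : n ≤ N)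
    (hw : ∀ p i, wt p i ≤ if p = Fin.castLE hn i then 1 else 0) (k : ℕ) (hk : k ≤ n)
    (lam : Fin n → ℤ) (hlam : ∀ i : Fin n, lam i = if (i : ℕ) < k then 1 else 0)
    (r : Fin k → Fin N) (hr : Function.Injective r) :
    toLex (∑ j, wt (r j)) < toLex lam ∨
      ∃ π : Equiv.Perm (Fin k), r = fun j => Fin.castLE (hk.trans hn) (π j) := by
  have hle : ∀ i : Fin n, (∑ j, wt (r j)) i ≤ ∑ j, if r j = Fin.castLE hn i then (1 : ℤ) else 0 := by
    intro i
    rw [Finset.sum_apply]
    exact Finset.sum_le_sum fun j _ => hw (r j) i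
  have hle1 : ∀ i : Fin n, (∑ j, wt (r j)) i ≤ 1 := by
    intro i
    refine (hle i).trans ?_
    rw [Finset.sum_boole]
    have : (Finset.univ.filter fun j => r j = Fin.castLE hn i).card ≤ 1 :=
      Finset.card_le_one.2 fun a ha c hc => hr ((Finset.mem_filter.1 ha).2.trans
        (Finset.mem_filter.1 hc).2.symm)
    exact_mod_cast this
  have hex1 : ∀ i : Fin n, (∑ j, wt (r j)) i = 1 → ∃ j, r j = Fin.castLE hn i := by
    intro i h
    by_contra hcon
    push Not at hcon
    have h1 := hle i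
    rw [h, Finset.sum_eq_zero (fun j _ => if_neg (hcon j))] at h1
    norm_num at h1
  by_cases hlt : toLex (∑ j, wt (r j)) < toLex lam
  · exact Or.inl hlt
  right
  have hone : ∀ m : ℕ, ∀ i : Fin n, (i : ℕ) = m → (i : ℕ) < k → (∑ j, wt (r j)) i = 1 := by
    intro m
    induction m using Nat.strong_induction_on with
    | _ m ih =>
      intro i him hik
      by_contra hne
      apply hlt
      refine ⟨i, fun i' hi' => ?_, ?_⟩
      · have hi'' : (i' : ℕ) < i := hi'
        show (∑ j, wt (r j)) i' = lam i'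
        rw [ih (i' : ℕ) (by omega) i' rfl (by omega), hlam, if_pos (by omega)]
      · show (∑ j, wt (r j)) i < lam i
        rw [hlam, if_pos hik]
        exact lt_of_le_of_ne (hle1 i) hne
  have hex : ∀ i : Fin k, ∃ j, r j = Fin.castLE (hk.trans hn) i := by
    intro i
    have hi : (i : ℕ) < n := by
      have := i.2
      omega
    obtain ⟨j, hj⟩ := hex1 _ (hone _ (⟨i, hi⟩ : Fin n) rfl i.2)
    exact ⟨j, hj.trans (Fin.ext rfl)⟩
  choose σ hσ using hex
  have hσi : Function.Injective σ := by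
    intro i i' h
    have h1 := hσ i
    rw [h, hσ i'] at h1
    exact (Fin.castLE_injective (hk.trans hn) h1).symm
  let σe : Equiv.Perm (Fin k) := Equiv.ofBijective σ (Finite.injective_iff_bijective.1 hσi)
  refine ⟨σe.symm, ?_⟩
  funext j
  have h2 := hσ (σe.symm j)
  have h3 : σ (σe.symm j) = j := σe.apply_symm_apply j
  rw [h3] at h2
  exact h2

namespace TA

open Pool.Agent.MP_c45d35_ag (chi UpUni LowUni IsHess fm chi_add chi_zero chi_mul)


variable {n : ℕ}

theorem e_eq : (DA n).e = Pool.Agent.MP_c45d35_ag.em ℂ (n + 1) := by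
  ext i j
  unfold Dat.e
  rw [Y_entry']
  show _ = if (j : ℕ) = (i : ℕ) + 1 then (1 : ℂ) else 0
  by_cases h : i < j
  · rw [dif_pos h]
    rfl
  · rw [dif_neg h, if_neg]
    rw [Fin.lt_def] at h
    omega

theorem ev_rt {R : Type*} [CommRing R] (β : RA n) (x : Fin n → R) :
    ev ((DA n).rt β) x = ev (wtA β.1.1) x - ev (wtA β.1.2) x := ev_sub_left _ _ _

theorem reg_ne {x : Fin n → ℂ} (hx : (DA n).Reg x) {i j : Fin (n + 1)} (h : i ≠ j) :
    ev (wtA i) x ≠ ev (wtA j) x := by
  intro h'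
  rcases lt_or_gt_of_ne h with h1 | h1
  · have := hx ⟨(i, j), h1⟩
    rw [ev_rt] at this
    exact this (sub_eq_zero.2 h')
  · have := hx ⟨(j, i), h1⟩
    rw [ev_rt] at this
    exact this (sub_eq_zero.2 h'.symm)

theorem cent' (g : Matrix (Fin (n + 1)) (Fin (n + 1)) ℂ) (x : Fin n → ℂ) (hg : (DA n).IsG g)
    (hx : (DA n).Reg x) (hc : Commute g ((DA n).Dx x)) : ∃ t : Fin n → ℂˣ, g = (DA n).Tt t := by
  have hdiag : ∀ i j, i ≠ j → g i j = 0 := by
    intro i j hij
    have h1 := congrFun (congrFun hc.eq i) j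
    rw [Dat.Dx, Matrix.mul_diagonal, Matrix.diagonal_mul] at h1
    change g i j * ev (wtA j) x = ev (wtA i) x * g i j at h1
    have h2 : g i j * (ev (wtA j) x - ev (wtA i) x) = 0 := by
      linear_combination h1
    exact (mul_eq_zero.1 h2).resolve_right (sub_ne_zero.2 (reg_ne hx hij.symm))
  obtain ⟨t, ht⟩ := levi' g ((isG_iff g).1 hg) (Up.det fun i j hij => hdiag i j (ne_of_gt hij))
  refine ⟨t, ?_⟩
  ext i j
  by_cases hij : i = j
  · subst hij
    rw [ht i, Dat.Tt, Matrix.diagonal_apply_eq]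
    rfl
  · rw [hdiag i j hij, Dat.Tt, Matrix.diagonal_apply_ne _ hij]

theorem weyl' (β : RA n) : ∃ (w : Matrix (Fin (n + 1)) (Fin (n + 1)) ℂ)
    (π : Equiv.Perm (Fin (n + 1))), (DA n).IsG w ∧
    (∀ d : Fin (n + 1) → ℂ,
      w * Matrix.diagonal d = Matrix.diagonal (fun i => d (π.symm i)) * w) ∧
    ∀ i, (DA n).wt (π.symm i) = (DA n).sw β ((DA n).wt i) := by
  set σ : Equiv.Perm (Fin (n + 1)) := Equiv.swap β.1.1 β.1.2 with hσ
  set ε : Fin (n + 1) → ℂ := fun i => if i = β.1.1 then -1 else 1 with hε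
  refine ⟨Matrix.diagonal ε * σ.permMatrix ℂ, σ, ?_, ?_, ?_⟩
  · rw [isG_iff, Matrix.det_mul, Matrix.det_permutation, Equiv.Perm.sign_swap (ne_of_lt β.2),
      Matrix.det_diagonal, hε, Finset.prod_ite_eq' Finset.univ β.1.1]
    simp
  · intro d
    rw [Matrix.mul_assoc, ← Matrix.mul_assoc (Matrix.diagonal (fun i => d (σ.symm i))),
      Matrix.diagonal_mul_diagonal]
    ext i j
    rw [Matrix.diagonal_mul, Matrix.mul_diagonal, Matrix.diagonal_mul]
    have hs : σ.symm = σ := Equiv.symm_swap _ _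
    rw [hs]
    by_cases h : σ i = j
    · rw [h]; ring
    · have : (σ.permMatrix ℂ) i j = 0 := by
        simp [Equiv.Perm.permMatrix, PEquiv.toMatrix, Equiv.toPEquiv, h]
      rw [this]
      ring
  · intro i
    have hs : σ.symm = σ := Equiv.symm_swap _ _
    rw [hs]
    exact (sw_wt β i).symm

theorem iwa' {K : Type} [Field K] [Algebra ℂ K] (V : ValuationSubring K)
    (g : Matrix (Fin (n + 1)) (Fin (n + 1)) K) (hg : (DA n).IsG g) :
    ∃ k b : Matrix (Fin (n + 1)) (Fin (n + 1)) K, (DA n).IsG k ∧ (∀ i j, k i j ∈ V) ∧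
      (DA n).IsG b ∧ (∀ i j, j < i → b i j = 0) ∧ g = k * b := by
  rw [isG_iff] at hg
  set φ : V →+* K := algebraMap V K with hφ
  obtain ⟨q, hq, hq0⟩ := exists_triang V g (by rw [hg]; exact one_ne_zero) (n + 1) le_rfl
  obtain ⟨δ, hδ⟩ := hq
  set d : Fin (n + 1) → V := fun i => if i = 0 then (δ : V) else 1 with hd
  set d' : Fin (n + 1) → V := fun i => if i = 0 then ((δ⁻¹ : Vˣ) : V) else 1 with hd'
  have hdd : Matrix.diagonal d * Matrix.diagonal d' = 1 := by
    rw [Matrix.diagonal_mul_diagonal, ← Matrix.diagonal_one]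
    congr 1
    funext i
    rw [hd, hd']
    simp only
    split_ifs <;> simp
  have hdd' : Matrix.diagonal d' * Matrix.diagonal d = 1 := by
    rw [Matrix.diagonal_mul_diagonal, ← Matrix.diagonal_one]
    congr 1
    funext i
    rw [hd, hd']
    simp only
    split_ifs <;> simp
  have hdet : (Matrix.diagonal d).det = δ := by
    rw [Matrix.det_diagonal, hd, Finset.prod_ite_eq' Finset.univ (0 : Fin (n + 1))]
    simp
  have hdet' : (Matrix.diagonal d').det = ((δ⁻¹ : Vˣ) : V) := by
    rw [Matrix.det_diagonal, hd', Finset.prod_ite_eq' Finset.univ (0 : Fin (n + 1))]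
    simp
  have hqq : q⁻¹ * q = 1 := Matrix.nonsing_inv_mul q (by rw [← hδ]; exact δ.isUnit)
  have hqd : q⁻¹.det * (δ : V) = 1 := by
    rw [hδ, ← Matrix.det_mul, hqq, Matrix.det_one]
  refine ⟨(q⁻¹ * Matrix.diagonal d).map φ, (Matrix.diagonal d').map φ * (q.map φ * g),
    ?_, ?_, ?_, ?_, ?_⟩
  · rw [isG_iff, ← RingHom.mapMatrix_apply, ← RingHom.map_det, Matrix.det_mul, hdet, hqd, map_one]
  · intro i j
    rw [Matrix.map_apply]
    exact ((q⁻¹ * Matrix.diagonal d) i j).2
  · rw [isG_iff, Matrix.det_mul, Matrix.det_mul, hg, mul_one, ← RingHom.mapMatrix_apply,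
      ← RingHom.mapMatrix_apply, ← RingHom.map_det, ← RingHom.map_det, hdet', ← hδ, ← map_mul,
      Units.inv_mul, map_one]
  · intro i j hij
    have e : (Matrix.diagonal d').map φ = Matrix.diagonal fun i => φ (d' i) := by
      rw [Matrix.diagonal_map (map_zero φ)]
    rw [e, Matrix.diagonal_mul, hq0 i j j.2 hij, mul_zero]
  · rw [← Matrix.mul_assoc, ← Matrix.map_mul, Matrix.mul_assoc, hdd, Matrix.mul_one,
      ← Matrix.mul_assoc, ← Matrix.map_mul, hqq, Matrix.map_one _ (map_zero _) (map_one _),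
      Matrix.one_mul]

theorem sx_refl' (β : RA n) (x : Fin n → ℂ) :
    (sxA n).map (MvPolynomial.eval ((DA n).sr β x)) = (sxA n).map (MvPolynomial.eval x) := by
  refine (exists_slice_param n).choose_spec.choose_spec.2.2.2.2 _ _ ?_
  have h : ∀ i, ev (wtA i) ((DA n).sr β x) = ev (wtA (Equiv.swap β.1.1 β.1.2 i)) x := by
    intro i
    rw [Dat.ev_sr, sw_wt]
  simp only [h]
  exact Equiv.prod_comp (Equiv.swap β.1.1 β.1.2)
    fun i => (Polynomial.X - Polynomial.C (ev (wtA i) x))

theorem nonss' (β : RA n) (x : Fin n → ℂ) (h : (DA n).GenW β x) :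
    ¬ ∃ g : Matrix (Fin (n + 1)) (Fin (n + 1)) ℂ, IsUnit g.det ∧
      g * (DA n).Dx x = ((DA n).Dx x + (DA n).e) * g := by
  rintro ⟨g, hg, h1⟩
  have h2 := h.1
  rw [ev_rt, sub_eq_zero] at h2
  refine em_not_diag (fun i => ev (wtA i) x) (fun i => ev (wtA i) x) β.1.1 β.1.2 (ne_of_lt β.2) h2
    g hg ?_
  rw [e_eq, add_comm ((DA n).Dx x) (Pool.Agent.MP_c45d35_ag.em ℂ (n + 1))] at h1
  exact h1.symm

theorem exists_one (hn : 2 ≤ n) (β : RA n) : ∃ k, (DA n).rt β k = 1 := by
  have hb : (β.1.1 : ℕ) < (β.1.2 : ℕ) := β.2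
  have h2 := β.1.2.2
  by_cases hj : (β.1.2 : ℕ) = n
  · obtain ⟨c, hc, hc'⟩ : ∃ c, c < n ∧ c ≠ (β.1.1 : ℕ) := by
      by_cases h0 : (β.1.1 : ℕ) = 0
      · exact ⟨1, by omega, by omega⟩
      · exact ⟨0, by omega, by omega⟩
    refine ⟨⟨c, hc⟩, ?_⟩
    show wtA β.1.1 ⟨c, hc⟩ - wtA β.1.2 ⟨c, hc⟩ = 1
    have h3 : ¬ ((β.1.1 : ℕ) = c) := fun h => hc' h.symm
    have h4 : ¬ ((β.1.1 : ℕ) = n) := by omega
    have h5 : ¬ ((β.1.2 : ℕ) = c) := by omega
    simp only [wtA]
    rw [if_neg h3, if_neg h4, if_neg h5, if_pos hj]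
    norm_num
  · refine ⟨⟨β.1.1, by omega⟩, ?_⟩
    show wtA β.1.1 ⟨β.1.1, by omega⟩ - wtA β.1.2 ⟨β.1.1, by omega⟩ = 1
    have h5 : ¬ ((β.1.2 : ℕ) = (β.1.1 : ℕ)) := by omega
    simp [wtA, h5, hj]

theorem zc' (β : RA n) : ∃ z : Fin n → ℂˣ, (∀ γ, chi ((DA n).rt γ) z = 1) ∧
    ∀ ν : Fin n → ℤ, (∃ a b : ℤ, a ≠ 0 ∧ a • ν = b • (DA n).rt β) → chi ν z = 1 →
      ∃ k : ℤ, ν = k • (DA n).rt β := by
  have hb : (β.1.1 : ℕ) < (β.1.2 : ℕ) := β.2
  have h2 := β.1.2.2
  by_cases hn : 2 ≤ n
  · refine ⟨1, fun γ => by simp [chi], ?_⟩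
    rintro ν ⟨a, b, ha, h⟩ -
    obtain ⟨c, hc⟩ := exists_one hn β
    refine ⟨ν c, ?_⟩
    have h3 := congrFun h c
    simp only [Pi.smul_apply, hc, smul_eq_mul, mul_one] at h3
    funext k
    have h4 := congrFun h k
    simp only [Pi.smul_apply, smul_eq_mul] at h4 ⊢
    rw [← h3] at h4
    exact mul_left_cancel₀ ha (by rw [h4]; ring)
  · have hn1 : n = 1 := by omega
    subst hn1
    have hrt : ∀ γ : RA 1, (DA 1).rt γ = fun _ => 2 := by
      intro γ
      have hc : (γ.1.1 : ℕ) < (γ.1.2 : ℕ) := γ.2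
      have hc2 := γ.1.2.2
      funext k
      have hk := k.2
      show wtA γ.1.1 k - wtA γ.1.2 k = 2
      have e1 : (γ.1.1 : ℕ) = (k : ℕ) := by omega
      have e2 : ¬ ((γ.1.2 : ℕ) = (k : ℕ)) := by omega
      have e3 : (γ.1.2 : ℕ) = 1 := by omega
      simp only [wtA]
      rw [if_pos e1, if_neg e2, if_pos e3]
      norm_num
    refine ⟨fun _ => -1, fun γ => ?_, ?_⟩
    · rw [hrt γ]
      simp [chi]
    · rintro ν - h
      rw [hrt β]
      have h3 : (-1 : ℂˣ) ^ (ν 0) = 1 := by
        simpa [chi] using h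
      have h4 : Even (ν 0) := by
        rcases Int.even_or_odd (ν 0) with h' | h'
        · exact h'
        · exfalso
          rw [h'.neg_one_zpow] at h3
          have h5 := congrArg (fun u : ℂˣ => (u : ℂ)) h3
          simp only [Units.val_neg, Units.val_one] at h5
          norm_num at h5
      obtain ⟨k, hk⟩ := h4
      refine ⟨k, ?_⟩
      funext i
      have : i = 0 := Subsingleton.elim _ _
      rw [this, hk]
      simp only [Pi.smul_apply, smul_eq_mul]
      ring

/-- **The axioms in type `A`.** -/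
theorem ax (n : ℕ) : Ax (DA n) where
  wt_inj := wt_inj
  wt_std k := ⟨k.castSucc, by
    show wtA k.castSucc = _
    funext l
    by_cases h : l = k
    · subst h
      simp [wtA]
    · have h3 : ¬ ((k : ℕ) = (l : ℕ)) := fun h' => h (Fin.ext h'.symm)
      have h4 : ¬ ((k : ℕ) = n) := by have := k.2; omega
      simp [wtA, h3, h4, h]⟩
  rt_indep := rt_indep
  lexpos := lexpos
  cr_rt β := by
    have h := pair_rt β β
    rw [if_pos rfl, if_pos rfl, if_neg (ne_of_lt β.2), if_neg (ne_of_gt β.2)] at h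
    exact h
  cr_sep := cr_sep
  refl_rt := refl_rt
  E_supp := E_supp
  E_ne β h := by
    have h1 := congrFun (congrFun h β.1.1) β.1.2
    change EA β β.1.1 β.1.2 = 0 at h1
    simp [EA] at h1
  dep_pos β := by
    have : (β.1.1 : ℕ) < (β.1.2 : ℕ) := β.2
    show 0 < (β.1.2 : ℕ) - (β.1.1 : ℕ)
    omega
  mul g h hg hh := by
    rw [isG_iff] at *
    rw [Matrix.det_mul, hg, hh, one_mul]
  det g hg := (isG_iff g).1 hg
  inv g hg := by
    rw [isG_iff] at *
    have h1 := Matrix.det_nonsing_inv g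
    rw [h1, hg, Ring.inverse_one]
  torus t := (isG_iff _).2 (torus_det t)
  exp Z := (isG_iff _).2 (det_upUni (expN_upUni (Y_upper' Z)))
  conj g x Z hg hup := conj' g x Z ((isG_iff g).1 hg) hup
  levi g hg hup := levi' g ((isG_iff g).1 hg) (Up.det hup)
  cent := cent'
  weyl := weyl'
  iwa V _ g hg := iwa' V g hg
  px_G := (isG_iff _).2 (det_lowUni (exists_slice_param n).choose_spec.choose_spec.1)
  px_conj := by
    have h := (exists_slice_param n).choose_spec.choose_spec.2.1
    have h2 : ((DA n).Y (fun β => MvPolynomial.C ((DA n).ze β)) + (DA n).Dx MvPolynomial.X :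
        Matrix (Fin (n + 1)) (Fin (n + 1)) (MvPolynomial (Fin n) ℂ)) =
        Pool.Agent.MP_c45d35_ag.em _ (n + 1) + Matrix.diagonal fun i => ev (wtA i) MvPolynomial.X := by
      congr 1
      have h3 := (DA n).e_map (R := MvPolynomial (Fin n) ℂ)
      rw [e_eq] at h3
      exact h3.symm.trans (Pool.Agent.MP_c45d35_ag.em_map _)
    rw [h2]
    exact h
  sx_mem := (exists_slice_param n).choose_spec.choose_spec.2.2.1
  sx_surj := (exists_slice_param n).choose_spec.choose_spec.2.2.2.1
  sx_refl := sx_refl'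
  nonss := nonss'
  zc := zc'

/-! ### The generators -/

/-- First `k + 1` columns. -/
def GA (n : ℕ) : Gens (n + 1) (Fin n) where
  m k := (k : ℕ) + 1
  J k := Fin.castLE (Nat.succ_le_succ (Nat.le_of_lt k.2))

theorem lam_apply (k i : Fin n) : (GA n).lam (DA n) k i = if (i : ℕ) < (k : ℕ) + 1 then 1 else 0 := by
  show (∑ j : Fin ((k : ℕ) + 1),
    wtA (Fin.castLE (Nat.succ_le_succ (Nat.le_of_lt k.2)) j)) i = _
  rw [Finset.sum_apply]
  have hk := k.2
  have h1 : ∀ j : Fin ((k : ℕ) + 1), wtA (Fin.castLE (Nat.succ_le_succ (Nat.le_of_lt k.2)) j) i =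
      if (j : ℕ) = (i : ℕ) then 1 else 0 := by
    intro j
    have hj := j.2
    have h3 : ¬ ((j : ℕ) = n) := by omega
    simp only [wtA, Fin.val_castLE, if_neg h3]
  rw [Finset.sum_congr rfl fun j _ => h1 j]
  by_cases h : (i : ℕ) < (k : ℕ) + 1
  · rw [if_pos h, Finset.sum_eq_single (⟨i, h⟩ : Fin ((k : ℕ) + 1))]
    · simp
    · intro j _ hj
      rw [if_neg fun h' => hj (Fin.ext h')]
    · simp
  · rw [if_neg h]
    refine Finset.sum_eq_zero fun j _ => if_neg fun h' => h ?_
    have := j.2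
    omega

theorem cr_lam (β : RA n) (k : Fin n) : ev (crA β) ((GA n).lam (DA n) k) =
    (if (β.1.1 : ℕ) < (k : ℕ) + 1 then 1 else 0) - (if (β.1.2 : ℕ) < (k : ℕ) + 1 then 1 else 0) := by
  have h : ∀ p : Fin (n + 1), cc ((GA n).lam (DA n) k) p =
      if (p : ℕ) < (k : ℕ) + 1 then 1 else 0 := by
    intro p
    unfold cc
    have hk := k.2
    split_ifs with h1 h2 h2
    · rw [lam_apply, if_pos h2]
    · rw [lam_apply, if_neg h2]
    · omega
    · rfl
  rw [ev_crA, h, h]

theorem prod_RA {M : Type*} [CommMonoid M] (f : RA n → M) :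
    ∏ β, f β = ∏ i : Fin (n + 1), ∏ j : Fin (n + 1), if h : i < j then f ⟨(i, j), h⟩ else 1 := by
  classical
  rw [← Finset.prod_product', Finset.univ_product_univ]
  have h1 : ∏ β : RA n, f β = ∏ p ∈ (Finset.univ.filter fun p : Fin (n + 1) × Fin (n + 1) =>
      p.1 < p.2), if h : p.1 < p.2 then f ⟨p, h⟩ else 1 := by
    rw [← Finset.prod_subtype_eq_prod_filter, Finset.subtype_univ]
    refine Finset.prod_congr rfl fun β _ => ?_
    rw [dif_pos β.2]
  rw [h1]
  refine Finset.prod_filter_of_ne fun p _ h => ?_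
  by_contra h'
  rw [dif_neg h'] at h
  exact h rfl

theorem gax (n : ℕ) : GAx (DA n) (GA n) where
  J_inj k := Fin.castLE_injective (Nat.succ_le_succ (Nat.le_of_lt k.2))
  minor k K _ _ g b _ hb I := minor_castLE (Nat.succ_le_succ (Nat.le_of_lt k.2)) g b hb I
  dom k β := by
    have h : (β.1.1 : ℕ) < (β.1.2 : ℕ) := β.2
    have h1 := cr_lam β k
    show 0 ≤ ev (crA β) ((GA n).lam (DA n) k)
    rw [h1]
    split_ifs <;> omega
  lpos k := by
    refine le_of_lt ⟨⟨0, by have := k.2; omega⟩, fun l hl => absurd hl (by simp [Fin.lt_def]), ?_⟩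
    show (0 : ℤ) < (GA n).lam (DA n) k _
    rw [lam_apply, if_pos (by simp)]
    norm_num
  cone := by
    refine ⟨1, one_pos, fun μ hμ => ?_⟩
    have hmono : ∀ i j : Fin (n + 1), i < j → cc μ j ≤ cc μ i := by
      intro i j hij
      have h1 := hμ ⟨(i, j), hij⟩
      change 0 ≤ ev (crA ⟨(i, j), hij⟩) μ at h1
      rw [ev_crA] at h1
      simp only at h1
      omega
    refine ⟨fun k => (cc μ k.castSucc - cc μ k.succ).toNat, ?_⟩
    rw [one_smul]
    funext i
    rw [Finset.sum_apply]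
    have h1 : ∀ k : Fin n, ((cc μ k.castSucc - cc μ k.succ).toNat • (GA n).lam (DA n) k) i =
        if (i : ℕ) < (k : ℕ) + 1 then cc μ k.castSucc - cc μ k.succ else 0 := by
      intro k
      have h2 := hmono k.castSucc k.succ (by rw [Fin.lt_def]; simp)
      rw [Pi.smul_apply, lam_apply, nsmul_eq_mul, Int.toNat_of_nonneg (by omega)]
      split_ifs <;> simp
    rw [Finset.sum_congr rfl fun k _ => h1 k]
    -- telescoping
    have key : ∀ m : ℕ, ∀ hm : m ≤ n, ∑ k : Fin n, (if n - m < (k : ℕ) + 1 then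
        cc μ k.castSucc - cc μ k.succ else 0) = cc μ ⟨n - m, by omega⟩ - cc μ (Fin.last n) := by
      intro m
      induction m with
      | zero =>
        intro _
        rw [Finset.sum_eq_zero]
        · have : (⟨n - 0, by omega⟩ : Fin (n + 1)) = Fin.last n := Fin.ext (by simp)
          rw [this, sub_self]
        · intro k _
          rw [if_neg]
          have := k.2
          omega
      | succ m ih =>
        intro hm
        have ih' := ih (by omega)
        have hlt : n - (m + 1) < n := by omega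
        have h3 : ∑ k : Fin n, (if n - (m + 1) < (k : ℕ) + 1 then
            cc μ k.castSucc - cc μ k.succ else 0) =
            (∑ k : Fin n, (if n - m < (k : ℕ) + 1 then cc μ k.castSucc - cc μ k.succ else 0)) +
            ∑ k : Fin n, (if k = (⟨n - (m + 1), hlt⟩ : Fin n) then
              cc μ k.castSucc - cc μ k.succ else 0) := by
          rw [← Finset.sum_add_distrib]
          refine Finset.sum_congr rfl fun k _ => ?_
          have hk := k.2
          simp only [Fin.ext_iff]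
          split_ifs <;> first | omega | simp
        rw [h3, ih', Finset.sum_ite_eq' Finset.univ, if_pos (Finset.mem_univ _)]
        have e1 : (⟨n - (m + 1), hlt⟩ : Fin n).succ = (⟨n - m, by omega⟩ : Fin (n + 1)) :=
          Fin.ext (by simp only [Fin.val_succ]; omega)
        have e2 : (⟨n - (m + 1), hlt⟩ : Fin n).castSucc =
            (⟨n - (m + 1), by omega⟩ : Fin (n + 1)) := Fin.ext rfl
        rw [e1, e2]
        ring
    have hi := i.2
    have h4 := key (n - i) (by omega)
    have e0 : n - (n - (i : ℕ)) = i := by omega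
    simp only [e0] at h4
    rw [h4]
    have h5 : cc μ (Fin.last n) = 0 := by
      unfold cc
      rw [dif_neg (by simp)]
    have h6 : cc μ (⟨i, by omega⟩ : Fin (n + 1)) = μ i := by
      unfold cc
      rw [dif_pos hi]
    rw [h5, h6, sub_zero]
  top b k I := by
    have hk := k.2
    refine top_GL (ax n) e_eq (exists_slice_param n).choose_spec.choose_spec.1
      (fun s hs => isHess_of_mem hs) (fun x hx i j hij => ?_) ((k : ℕ) + 1) (by omega)
      ((GA n).lam (DA n) k) rfl ?_ 1 one_ne_zero ?_ b I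
    · by_contra h
      exact reg_ne hx h hij
    · intro r hr
      refine lt_or_GL wtA (Nat.le_succ n) ?_ ((k : ℕ) + 1) (by omega) _ (fun i => lam_apply k i) r hr
      intro p i
      unfold wtA
      by_cases h : p = Fin.castLE (Nat.le_succ n) i
      · rw [if_pos h]
        split_ifs <;> simp
      · have : ¬ ((p : ℕ) = (i : ℕ)) := fun h' => h (Fin.ext h')
        rw [if_neg h, if_neg this]
        split_ifs <;> simp
    · intro x
      rw [one_mul]
      unfold Eu
      rw [prod_RA]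
      refine Finset.prod_congr rfl fun i _ => Finset.prod_congr rfl fun j _ => ?_
      by_cases hij : i < j
      · rw [dif_pos hij]
        have h1 : ev ((DA n).cr ⟨(i, j), hij⟩) ((GA n).lam (DA n) k) = _ := cr_lam ⟨(i, j), hij⟩ k
        rw [h1, ev_rt]
        have hij' : (i : ℕ) < j := hij
        simp only
        by_cases h2 : (i : ℕ) < (k : ℕ) + 1
        · by_cases h3 : (k : ℕ) + 1 ≤ (j : ℕ)
          · rw [if_pos ⟨h2, h3⟩, if_pos h2, if_neg (by omega)]
            simp
            rfl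
          · rw [if_neg (fun h => h3 h.2), if_pos h2, if_pos (by omega)]
            simp
        · rw [if_neg (fun h => h2 h.1), if_neg h2, if_neg (by omega)]
          simp
      · rw [dif_neg hij, if_neg]
        intro h
        apply hij
        rw [Fin.lt_def]
        omega

/-- **Finite generation of the Moore–Tachikawa rings of `SL_{n+1}`.** -/
theorem mt_fg (n b : ℕ) : (MTR (DA n).Gs (sliceA n) b).FG :=
  Pool.Agent.MTD.mt_fg (ax n) (gax n) b

end TA

end Pool.Agent.MTD
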