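import Pool.Agent.MTD.TF2

/-! # MTD : type `D`, generators and finite generation (row GD) -/

namespace Pool.Agent.MTD.TD

open Matrix
open Pool.Agent.MP_c45d35_ag (chi UpUni LowUni chi_add chi_zero chi_mul chi_neg)

variable {n : ℕ}

theorem lt_aux (k : Fin (n - 2)) : (k : ℕ) + 1 ≤ n := by
  have := k.2
  omega

/-- The columns `0, ..., k` (`k + 1 ≤ n - 2`), the columns `0, ..., n-1`, and the columns
`0, ..., n-2, n`. -/
def GD (n : ℕ) : Gens (2 * n) (Fin (n - 2) ⊕ Bool) where
  m κ := Sum.elim (fun k : Fin (n - 2) => (k : ℕ) + 1) (fun _ => n) κ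
  J κ := match κ with
    | Sum.inl k => fun j => ix (r0 (lt_aux k) 1 j)
    | Sum.inr e => fun j => ix (r0 (n := n) le_rfl (if e then 1 else -1) j)

/-- The value of the index of a standard label. -/
theorem gd_ix_val {k : ℕ} (hk : k ≤ n) (ε : ℤ) (j : Fin k) :
    ((ix (r0 hk ε j) : Fin (2 * n)) : ℕ) = if (j : ℕ) + 1 = n ∧ ε = -1 then n else (j : ℕ) := by
  unfold ix r0
  by_cases h : (j : ℕ) + 1 = n ∧ ε = -1
  · have h1 : (!decide ((j : ℕ) + 1 = n ∧ ε = -1)) = false := by simp [h]
    simp only [h1, Bool.false_eq_true, if_false]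
    rw [if_pos h, Fin.val_rev]
    show 2 * n - ((j : ℕ) + 1) = n
    omega
  · have h1 : (!decide ((j : ℕ) + 1 = n ∧ ε = -1)) = true := by
      rw [decide_eq_false h]
      rfl
    simp only [h1, if_true]
    rw [if_neg h]
    rfl

theorem gd_wt {k : ℕ} (hk : k ≤ n) (ε : ℤ) (j : Fin k) (i : Fin n) :
    (wtD (ix (r0 hk ε j)) : Fin n → ℤ) i =
      if (j : ℕ) = (i : ℕ) then (if (i : ℕ) + 1 = n ∧ ε = -1 then -1 else 1) else 0 := by
  have hi := i.2
  have hj := j.2
  unfold wtD
  rw [Fin.val_rev, gd_ix_val]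
  split_ifs <;> omega

theorem gd_lam0 {k : ℕ} (hk : k ≤ n) (ε : ℤ) (i : Fin n) :
    lam0 hk ε i = if (i : ℕ) < k then (if (i : ℕ) + 1 = n ∧ ε = -1 then -1 else 1) else 0 := by
  unfold lam0
  rw [Finset.sum_apply, Finset.sum_congr rfl fun j _ => gd_wt hk ε j i]
  by_cases h : (i : ℕ) < k
  · rw [if_pos h, Finset.sum_eq_single (⟨i, h⟩ : Fin k)]
    · rw [if_pos rfl]
    · intro j _ hj
      rw [if_neg fun h' => hj (Fin.ext h')]
    · intro h'
      exact absurd (Finset.mem_univ _) h'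
  · rw [if_neg h]
    refine Finset.sum_eq_zero fun j _ => if_neg fun h' => h ?_
    have := j.2
    omega

theorem lam_inl (k : Fin (n - 2)) (i : Fin n) :
    (GD n).lam (DD n) (Sum.inl k) i = if (i : ℕ) < (k : ℕ) + 1 then 1 else 0 := by
  have h : (GD n).lam (DD n) (Sum.inl k) = lam0 (lt_aux k) 1 := rfl
  rw [h, gd_lam0]
  split_ifs <;> omega

theorem lam_inr (hn : 2 ≤ n) (e : Bool) (i : Fin n) :
    (GD n).lam (DD n) (Sum.inr e) i = if (i : ℕ) + 1 = n ∧ e = false then -1 else 1 := by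
  have h : (GD n).lam (DD n) (Sum.inr e) = lam0 (n := n) le_rfl (if e then 1 else -1) := rfl
  rw [h, gd_lam0, if_pos i.2]
  cases e <;> simp

/-- Minors of `g b` for the columns `J`, if the columns `J` of `b` vanish outside of the rows `J`. -/
theorem gd_minor {N k : ℕ} {K : Type*} [CommRing K] (J : Fin k → Fin N) (hJ : StrictMono J)
    (g b : Matrix (Fin N) (Fin N) K) (hb : ∀ i j, j < i → b i j = 0)
    (h0 : ∀ l j, (∀ i, J i ≠ l) → b l (J j) = 0) (I : Fin k → Fin N) :
    ((g * b).submatrix I J).det = (g.submatrix I J).det * ∏ j, b (J j) (J j) := by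
  have h1 : (g * b).submatrix I J = g.submatrix I J * b.submatrix J J := by
    ext i j
    rw [Matrix.submatrix_apply, Matrix.mul_apply, Matrix.mul_apply]
    have h2 : ∑ l : Fin k, g (I i) (J l) * b (J l) (J j) =
        ∑ l ∈ Finset.univ.map ⟨J, hJ.injective⟩, g (I i) l * b l (J j) := by
      rw [Finset.sum_map]
      rfl
    show _ = ∑ l : Fin k, g (I i) (J l) * b (J l) (J j)
    rw [h2]
    symm
    refine Finset.sum_subset (Finset.subset_univ _) fun l _ hl => ?_
    rw [h0 l _ ?_, mul_zero]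
    intro i hi
    apply hl
    rw [Finset.mem_map]
    exact ⟨i, Finset.mem_univ _, hi⟩
  rw [h1, Matrix.det_mul]
  congr 1
  refine (Pool.Agent.MP_c45d35_ag.BlockD.Up.det (A := b.submatrix J J) ?_)
  intro i j hij
  exact hb _ _ (hJ hij)

theorem gd_ix_mono {k : ℕ} (hk : k ≤ n) (ε : ℤ) :
    StrictMono (fun j : Fin k => (ix (r0 hk ε j) : Fin (2 * n))) := by
  intro i j hij
  rw [Fin.lt_def] at hij ⊢
  have h1 := i.2
  have h2 := j.2
  simp only [gd_ix_val]
  split_ifs <;> omega

/-- The entry `(n-1, n)` of an upper triangular element of `SO_{2n}` vanishes. -/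
theorem gd_entry (hn : 2 ≤ n) {K : Type} [Field K] [Algebra ℂ K]
    (b : Matrix (Fin (2 * n)) (Fin (2 * n)) K) (hb : (DD n).IsG b)
    (hup : ∀ i j, j < i → b i j = 0) (p q : Fin (2 * n)) (hp : (p : ℕ) + 1 = n) (hq : (q : ℕ) = n) :
    b p q = 0 := by
  have : CharZero K := charZero_of_injective_algebraMap (algebraMap ℂ K).injective
  obtain ⟨h1, h2⟩ := (isG_iff b).1 hb
  have hrev : Fin.rev p = q := by
    apply Fin.ext
    rw [Fin.val_rev]
    omega
  have hrev' : Fin.rev q = p := by rw [← hrev, Fin.rev_rev]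
  have hpq : p ≠ q := by
    intro h
    rw [h] at hp
    omega
  have h3 := congrFun (congrFun h1 p) q
  rw [Matrix.mul_apply, Matrix.one_apply_ne hpq] at h3
  have h4 : ∀ l : Fin (2 * n), sd b p l * b l q = b (Fin.rev l) q * b l q := by
    intro l
    rw [sd_apply, hrev]
  rw [Finset.sum_congr rfl fun l _ => h4 l] at h3
  have h5 : ∑ l : Fin (2 * n), b (Fin.rev l) q * b l q =
      ∑ l ∈ ({p, q} : Finset (Fin (2 * n))), b (Fin.rev l) q * b l q := by
    symm
    refine Finset.sum_subset (Finset.subset_univ _) fun l _ hl => ?_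
    rw [Finset.mem_insert, Finset.mem_singleton] at hl
    push Not at hl
    have h6 : (l : ℕ) ≠ p := fun h => hl.1 (Fin.ext h)
    have h7 : (l : ℕ) ≠ q := fun h => hl.2 (Fin.ext h)
    have h8 := l.2
    rcases lt_or_gt_of_ne h7 with h | h
    · rw [hup (Fin.rev l) q, zero_mul]
      rw [Fin.lt_def, Fin.val_rev]
      omega
    · rw [hup l q, mul_zero]
      exact h
  rw [h5, Finset.sum_pair hpq, hrev, hrev'] at h3
  have h9 : b q q ≠ 0 := by
    intro h
    rw [Pool.Agent.MP_c45d35_ag.BlockD.Up.det (A := b) hup,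
      Finset.prod_eq_zero (f := fun i => b i i) (Finset.mem_univ q) h] at h2
    exact zero_ne_one h2
  have h10 : (2 * b q q) * b p q = 0 := by linear_combination h3
  rcases mul_eq_zero.1 h10 with h | h
  · rcases mul_eq_zero.1 h with h | h
    · exact absurd h two_ne_zero
    · exact absurd h h9
  · exact h

/-- Minors of `g b` for the standard columns. -/
theorem gd_minor_ix (hn : 2 ≤ n) {k : ℕ} (hk : k ≤ n) (ε : ℤ) {K : Type} [Field K] [Algebra ℂ K]
    (g b : Matrix (Fin (2 * n)) (Fin (2 * n)) K) (hb : (DD n).IsG b)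
    (hup : ∀ i j, j < i → b i j = 0) (I : Fin k → Fin (2 * n)) :
    ((g * b).submatrix I (fun j => ix (r0 hk ε j))).det =
      (g.submatrix I (fun j => ix (r0 hk ε j))).det *
        ∏ j, b (ix (r0 hk ε j)) (ix (r0 hk ε j)) := by
  refine gd_minor _ (gd_ix_mono hk ε) g b hup ?_ I
  intro l j hl
  have hj := j.2
  have hv := gd_ix_val hk ε j
  by_cases h : (j : ℕ) + 1 = n ∧ ε = -1
  · rw [if_pos h] at hv
    by_cases h1 : (l : ℕ) + 1 = n
    · exact gd_entry hn b hb hup l _ h1 hv
    · by_cases h2 : (l : ℕ) = n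
      · exact absurd (Fin.ext (hv.trans h2.symm)) (hl j)
      · by_cases h3 : (l : ℕ) < n
        · exfalso
          have h4 : (l : ℕ) < k := by omega
          apply hl ⟨l, h4⟩
          apply Fin.ext
          rw [gd_ix_val, if_neg (fun h5 => h1 h5.1)]
        · refine hup _ _ ?_
          rw [Fin.lt_def, hv]
          omega
  · rw [if_neg h] at hv
    by_cases h2 : (l : ℕ) ≤ j
    · exfalso
      have h4 : (l : ℕ) < k := by omega
      apply hl ⟨l, h4⟩
      apply Fin.ext
      rw [gd_ix_val, if_neg]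
      rintro ⟨h5, h6⟩
      apply h
      refine ⟨?_, h6⟩
      have h7 : (l : ℕ) + 1 = n := h5
      omega
    · refine hup _ _ ?_
      rw [Fin.lt_def, hv]
      omega

/-- Minors of `g b`, `b` upper triangular in `SO_{2n}`: for the columns `0, ..., k-1` this is
`minor_castLE`; for the columns `0, ..., n-2, n` use in addition `b (n-1) n = 0`, which follows from
`sd b * b = 1` at the entry `(n-1, n)`. -/
theorem minor_GD (hn : 2 ≤ n) (κ : Fin (n - 2) ⊕ Bool) {K : Type} [Field K] [Algebra ℂ K]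
    (g b : Matrix (Fin (2 * n)) (Fin (2 * n)) K) (hb : (DD n).IsG b)
    (hup : ∀ i j, j < i → b i j = 0) (I : Fin ((GD n).m κ) → Fin (2 * n)) :
    ((g * b).submatrix I ((GD n).J κ)).det =
      (g.submatrix I ((GD n).J κ)).det * ∏ j, b ((GD n).J κ j) ((GD n).J κ j) := by
  cases κ with
  | inl k => exact gd_minor_ix hn (lt_aux k) 1 g b hb hup I
  | inr e => exact gd_minor_ix hn le_rfl (if e then 1 else -1) g b hb hup I

theorem gd_dom {μ : Fin n → ℤ} : (DD n).Dom μ ↔
    ∀ i j : Fin n, i < j → 0 ≤ μ i + μ j ∧ 0 ≤ μ i - μ j := by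
  constructor
  · intro h i j hij
    have h1 := h (⟨(i, j), hij⟩, true)
    have h2 := h (⟨(i, j), hij⟩, false)
    change 0 ≤ ev (wtD (rp _) - wtD (rq _)) μ at h1 h2
    rw [ev_rt] at h1 h2
    simp only [sg, if_true, Int.cast_one, one_mul, Bool.false_eq_true, if_false, Int.cast_neg,
      neg_mul] at h1 h2
    exact ⟨h1, by linarith⟩
  · intro h β
    show 0 ≤ ev (wtD (rp _) - wtD (rq _)) μ
    rw [ev_rt]
    obtain ⟨h1, h2⟩ := h β.1.1.1 β.1.1.2 β.1.2
    rcases sg_cases β with h3 | h3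
    · rw [h3]
      push_cast
      linarith
    · rw [h3]
      push_cast
      linarith

/-- `2 μ = ∑_{k ≤ n-2} 2 (μ_{k-1} - μ_k) ω_k + (μ_{n-2} + μ_{n-1}) (1,...,1) +
(μ_{n-2} - μ_{n-1}) (1,...,1,-1)`; compare the proof of `TA.gax`. -/
theorem cone_GD (hn : 2 ≤ n) (μ : Fin n → ℤ) (hμ : (DD n).Dom μ) :
    ∃ c : (Fin (n - 2) ⊕ Bool) → ℕ, 2 • μ = ∑ κ, c κ • (GD n).lam (DD n) κ := by
  rw [gd_dom] at hμ
  -- extension of `μ` to the natural numbers
  obtain ⟨ν, hν⟩ : ∃ ν : ℕ → ℤ, ∀ i : Fin n, μ i = ν i :=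
    ⟨fun i => if h : i < n then μ ⟨i, h⟩ else 0, fun i => by
      show μ i = if h : (i : ℕ) < n then μ ⟨i, h⟩ else 0
      rw [dif_pos i.2]⟩
  have hd : ∀ i j : ℕ, i < j → j < n → 0 ≤ ν i + ν j ∧ 0 ≤ ν i - ν j := by
    intro i j hij hj
    have h1 := hμ ⟨i, by omega⟩ ⟨j, hj⟩ hij
    rw [hν, hν] at h1
    exact h1
  refine ⟨Sum.elim (fun k => (2 * (ν k - ν (k + 1))).toNat)
    (fun e => if e then (ν (n - 2) + ν (n - 1)).toNat else (ν (n - 2) - ν (n - 1)).toNat), ?_⟩
  funext i
  have hi := i.2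
  have h12 := hd (n - 2) (n - 1) (by omega) (by omega)
  rw [Fintype.sum_sum_type, Pi.add_apply, Finset.sum_apply, Finset.sum_apply, Fintype.sum_bool]
  simp only [Sum.elim_inl, Sum.elim_inr, Pi.smul_apply, lam_inl, lam_inr hn, if_true,
    Bool.false_eq_true, if_false, nsmul_eq_mul, Bool.true_eq_false, and_false, and_true]
  rw [Int.toNat_of_nonneg h12.1, Int.toNat_of_nonneg h12.2, hν]
  have h1 : ∀ k : Fin (n - 2), (((2 * (ν k - ν (k + 1))).toNat : ℕ) : ℤ) *
      (if (i : ℕ) < (k : ℕ) + 1 then 1 else 0) =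
      if (i : ℕ) < (k : ℕ) + 1 then 2 * (ν k - ν (k + 1)) else 0 := by
    intro k
    have hk := k.2
    have h2 := (hd k (k + 1) (by omega) (by omega)).2
    rw [Int.toNat_of_nonneg (by omega)]
    split_ifs <;> simp
  rw [Finset.sum_congr rfl fun k _ => h1 k]
  -- telescoping
  have key : ∀ m : ℕ, ∑ k : Fin m, (if (i : ℕ) < (k : ℕ) + 1 then 2 * (ν k - ν (k + 1)) else 0) =
      if (i : ℕ) < m then 2 * (ν i - ν m) else 0 := by
    intro m
    induction m with
    | zero => simp
    | succ m ih =>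
      rw [Fin.sum_univ_castSucc]
      simp only [Fin.val_castSucc, Fin.val_last]
      rw [ih]
      rcases lt_trichotomy (i : ℕ) m with h | h | h
      · rw [if_pos h, if_pos (by omega), if_pos (by omega)]
        ring
      · rw [if_neg (by omega), if_pos (by omega), if_pos (by omega), h]
        ring
      · rw [if_neg (by omega), if_neg (by omega), if_neg (by omega), add_zero]
  rw [key]
  push_cast
  rcases lt_trichotomy (i : ℕ) (n - 2) with h | h | h
  · rw [if_pos h, if_neg (by omega)]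
    ring
  · rw [if_neg (by omega), if_neg (by omega), h]
    ring
  · have h3 : (i : ℕ) = n - 1 := by omega
    rw [if_neg (by omega), if_pos (by omega), h3]
    ring

theorem gax (hn : 2 ≤ n) : GAx (DD n) (GD n) where
  J_inj κ := by
    cases κ with
    | inl k => exact (gd_ix_mono (lt_aux k) 1).injective
    | inr e => exact (gd_ix_mono (n := n) le_rfl (if e then 1 else -1)).injective
  minor κ K _ _ g b hb hup I := minor_GD hn κ g b hb hup I
  dom κ := by
    rw [gd_dom]
    intro i j hij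
    rw [Fin.lt_def] at hij
    have hj := j.2
    cases κ with
    | inl k =>
      rw [lam_inl, lam_inl]
      split_ifs <;> omega
    | inr e =>
      rw [lam_inr hn, lam_inr hn]
      split_ifs <;> omega
  lpos κ := by
    refine le_of_lt ⟨⟨0, by omega⟩, fun l hl => absurd hl (by simp [Fin.lt_def]), ?_⟩
    cases κ with
    | inl k =>
      show (0 : ℤ) < (GD n).lam (DD n) (Sum.inl k) _
      rw [lam_inl, if_pos (by simp)]
      norm_num
    | inr e =>
      show (0 : ℤ) < (GD n).lam (DD n) (Sum.inr e) _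
      rw [lam_inr hn, if_neg]
      · norm_num
      · rintro ⟨h, -⟩
        simp only at h
        omega
  cone := ⟨2, two_pos, fun μ hμ => cone_GD hn μ hμ⟩
  top b κ I := by
    cases κ with
    | inl k =>
      have hk := k.2
      exact top_D hn (lt_aux k) (Or.inl (by omega)) 1 (Or.inl rfl) b I
    | inr e =>
      refine top_D hn le_rfl (Or.inr rfl) (if e then 1 else -1) ?_ b I
      cases e
      · exact Or.inr rfl
      · exact Or.inl rfl

/-- **Finite generation of the Moore-Tachikawa rings of `SO_{2n}`.** -/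
theorem mt_fg (hn : 2 ≤ n) (b : ℕ) : (MTR (DD n).Gs (sliceD n) b).FG :=
  Pool.Agent.MTD.mt_fg (ax hn) (gax hn) b

end Pool.Agent.MTD.TD
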