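import Pool.Agent.MTD.X2

/-! # MTD : `G_2`, torus, centraliser, Weyl group (row X5) -/

namespace Pool.Agent.MTD.G2

open Matrix
open Pool.Agent.MP_c45d35_ag (chi UpUni LowUni IsHess Jm em fm)

/-- the form of an upper triangular element -/
theorem x5_form {K : Type} [Field K] (g : Matrix (Fin 7) (Fin 7) K)
    (hg : gᵀ * Jm K 7 * g = Jm K 7) (hup : ∀ i j, j < i → g i j = 0) (i : Fin 7) :
    g i i * g (Fin.rev i) (Fin.rev i) = 1 := by
  have h1 := congrFun (congrFun hg i) (Fin.rev i)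
  have h2 : (gᵀ * Jm K 7 * g) i (Fin.rev i)
      = ∑ a, g a i * (-1) ^ (a : ℕ) * g (Fin.rev a) (Fin.rev i) := by
    rw [Matrix.mul_assoc, Matrix.mul_apply]
    refine Finset.sum_congr rfl fun a _ => ?_
    rw [Matrix.transpose_apply, Matrix.mul_apply, Finset.sum_eq_single (Fin.rev a)]
    · simp [Jm]
      ring
    · intro b _ hb
      simp [Jm, hb]
    · intro h
      exact absurd (Finset.mem_univ _) h
  rw [h2, Finset.sum_eq_single i] at h1
  · have h3 : Jm K 7 i (Fin.rev i) = (-1) ^ (i : ℕ) := by simp [Jm]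
    rw [h3] at h1
    have h4 : ((-1 : K)) ^ (i : ℕ) * (-1) ^ (i : ℕ) = 1 := by
      rw [← mul_pow]
      simp
    linear_combination (-1) ^ (i : ℕ) * h1 + (1 - g i i * g (Fin.rev i) (Fin.rev i)) * h4
  · intro a _ ha
    rcases lt_or_gt_of_ne ha with h | h
    · have h5 : Fin.rev i < Fin.rev a := Fin.rev_lt_rev.2 h
      rw [hup _ _ h5, mul_zero]
    · rw [hup _ _ h, zero_mul, zero_mul]
  · intro h
    exact absurd (Finset.mem_univ _) h

/-- the 3-form of an upper triangular element -/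
theorem x5_T3 {K : Type} [Field K] (g : Matrix (Fin 7) (Fin 7) K)
    (hup : ∀ i j, j < i → g i j = 0) (i j k : Fin 7)
    (h : ∀ a b c, a ≤ i → b ≤ j → c ≤ k → ph a b c ≠ 0 → a = i ∧ b = j ∧ c = k) :
    T3 g i j k = (ph i j k : K) * g i i * g j j * g k k := by
  have h0 : ∀ a b c, ¬ (a = i ∧ b = j ∧ c = k) → (ph a b c : K) * g a i * g b j * g c k = 0 := by
    intro a b c hn
    by_cases h1 : a ≤ i
    · by_cases h2 : b ≤ j
      · by_cases h3 : c ≤ k
        · by_cases h4 : ph a b c = 0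
          · rw [h4]
            simp
          · exact absurd (h a b c h1 h2 h3 h4) hn
        · rw [hup _ _ (not_le.1 h3), mul_zero]
      · rw [hup _ _ (not_le.1 h2), mul_zero, zero_mul]
    · rw [hup _ _ (not_le.1 h1), mul_zero, zero_mul, zero_mul]
  unfold T3
  rw [Finset.sum_eq_single i, Finset.sum_eq_single j, Finset.sum_eq_single k]
  · intro c _ hc
    exact h0 i j c fun h => hc h.2.2
  · intro h
    exact absurd (Finset.mem_univ _) h
  · intro b _ hb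
    exact Finset.sum_eq_zero fun c _ => h0 i b c fun h => hb h.2.1
  · intro h
    exact absurd (Finset.mem_univ _) h
  · intro a _ ha
    exact Finset.sum_eq_zero fun b _ => Finset.sum_eq_zero fun c _ => h0 a b c fun h => ha h.1
  · intro h
    exact absurd (Finset.mem_univ _) h

theorem x5_036' : ∀ a b c : Fin 7, (a ≤ 0 ∧ b ≤ 3 ∧ c ≤ 6) ∧ ph a b c ≠ 0 →
    a = 0 ∧ b = 3 ∧ c = 6 := by
  decide +kernel

theorem x5_036 (a b c : Fin 7) (ha : a ≤ 0) (hb : b ≤ 3) (hc : c ≤ 6) (h : ph a b c ≠ 0) :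
    a = 0 ∧ b = 3 ∧ c = 6 := x5_036' a b c ⟨⟨ha, hb, hc⟩, h⟩

theorem x5_045' : ∀ a b c : Fin 7, (a ≤ 0 ∧ b ≤ 4 ∧ c ≤ 5) ∧ ph a b c ≠ 0 →
    a = 0 ∧ b = 4 ∧ c = 5 := by
  decide +kernel

theorem x5_045 (a b c : Fin 7) (ha : a ≤ 0) (hb : b ≤ 4) (hc : c ≤ 5) (h : ph a b c ≠ 0) :
    a = 0 ∧ b = 4 ∧ c = 5 := x5_045' a b c ⟨⟨ha, hb, hc⟩, h⟩

/-- A diagonal (or upper triangular) element of the group has diagonal in the torus, with
coordinates `t = (g 0 0, g 2 2)`: the form gives `g i i * g (rev i) (rev i) = 1`, the 3-form on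
`0, 3, 6` gives `g 3 3 = 1`, on `1, 2, 6` gives `g 1 1 * g 2 2 * g 6 6 = 1`. -/
theorem levi' {K : Type} [Field K] (g : Matrix (Fin 7) (Fin 7) K) (hg : Gc g)
    (hup : ∀ i j, j < i → g i j = 0) :
    ∃ t : Fin 2 → Kˣ, ∀ i, g i i = ((chi (wtG i) t : Kˣ) : K) := by
  have hT : ∀ i j k, (∀ a b c, a ≤ i → b ≤ j → c ≤ k → ph a b c ≠ 0 → a = i ∧ b = j ∧ c = k) →
      (ph i j k : K) * g i i * g j j * g k k = (ph i j k : K) := by
    intro i j k h
    rw [← x5_T3 g hup i j k h]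
    exact hg.2.1 i j k
  have hJ := x5_form g hg.1 hup
  have e0 : g 0 0 * g 6 6 = 1 := hJ 0
  have e1 : g 1 1 * g 5 5 = 1 := hJ 1
  have e2 : g 2 2 * g 4 4 = 1 := hJ 2
  have e3 : g 0 0 * g 3 3 * g 6 6 = 1 := by
    have h := hT 0 3 6 x5_036
    have hp : ph 0 3 6 = 1 := by decide
    rw [hp] at h
    push_cast at h
    rw [one_mul] at h
    exact h
  have e4 : g 0 0 * g 4 4 * g 5 5 = 1 := by
    have h := hT 0 4 5 x5_045
    have hp : ph 0 4 5 = -1 := by decide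
    rw [hp] at h
    push_cast at h
    linear_combination -h
  have n0 : g 0 0 ≠ 0 := left_ne_zero_of_mul_eq_one e0
  have n2 : g 2 2 ≠ 0 := left_ne_zero_of_mul_eq_one e2
  have v3 : g 3 3 = 1 := by linear_combination e3 - g 3 3 * e0
  have v6 : g 6 6 = (g 0 0)⁻¹ := eq_inv_of_mul_eq_one_right e0
  have v4 : g 4 4 = (g 2 2)⁻¹ := eq_inv_of_mul_eq_one_right e2
  have v1 : g 1 1 = g 0 0 * (g 2 2)⁻¹ := by
    rw [eq_mul_inv_iff_mul_eq₀ n2]
    linear_combination -(g 1 1 * g 2 2) * e4 + g 0 0 * (g 1 1 * g 5 5) * e2 + g 0 0 * e1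
  have v5 : g 5 5 = (g 0 0)⁻¹ * g 2 2 := by
    rw [eq_inv_mul_iff_mul_eq₀ n0]
    linear_combination g 2 2 * e4 - g 0 0 * g 5 5 * e2
  refine ⟨![Units.mk0 _ n0, Units.mk0 _ n2], fun i => ?_⟩
  fin_cases i
  · simp [chi, wtG, Fin.prod_univ_two]
  · simp [chi, wtG, Fin.prod_univ_two, v1]
  · simp [chi, wtG, Fin.prod_univ_two]
  · simp [chi, wtG, Fin.prod_univ_two, v3]
  · simp [chi, wtG, Fin.prod_univ_two, v4]
  · simp [chi, wtG, Fin.prod_univ_two, v5]
  · simp [chi, wtG, Fin.prod_univ_two, v6]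

theorem cent' (g : Matrix (Fin 7) (Fin 7) ℂ) (x : Fin 2 → ℂ) (hg : Gc g)
    (hx : ∀ β, ev (rtG β) x ≠ 0) (hc : Commute g (DG.Dx x)) : ∃ t : Fin 2 → ℂˣ, g = DG.Tt t := by
  have hz : ∀ i j, i ≠ j → g i j = 0 := by
    intro i j hij
    have h1 := congrFun (congrFun hc.eq i) j
    have h2 : g i j * ev (wtG j) x = ev (wtG i) x * g i j := by
      have e1 : (g * DG.Dx x) i j = g i j * ev (wtG j) x := by
        change (g * Matrix.diagonal fun i => ev (wtG i) x) i j = _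
        rw [Matrix.mul_diagonal]
      have e2 : (DG.Dx x * g) i j = ev (wtG i) x * g i j := by
        change ((Matrix.diagonal fun i => ev (wtG i) x) * g) i j = _
        rw [Matrix.diagonal_mul]
      rw [← e1, ← e2, h1]
    have h3 : (ev (wtG i) x - ev (wtG j) x) * g i j = 0 := by linear_combination -h2
    exact (mul_eq_zero.1 h3).resolve_left (sub_ne_zero.2 fun h => hij (ev_inj x hx h))
  obtain ⟨t, ht⟩ := levi' g hg (fun i j hij => hz i j (ne_of_gt hij))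
  refine ⟨t, ?_⟩
  ext i j
  change g i j = Matrix.diagonal (fun i => ((chi (wtG i) t : ℂˣ) : ℂ)) i j
  by_cases h : i = j
  · subst h
    rw [Matrix.diagonal_apply_eq, ht]
  · rw [Matrix.diagonal_apply_ne _ h, hz i j h]

/-- The permutation of the weights by the reflection `s_β`. -/
def sig : Fin 6 → Fin 7 → Fin 7 := ![![1, 0, 4, 3, 2, 6, 5], ![0, 2, 1, 3, 5, 4, 6],
  ![2, 5, 0, 3, 6, 1, 4], ![6, 4, 5, 3, 1, 2, 0], ![4, 1, 6, 3, 0, 5, 2], ![5, 6, 2, 3, 4, 0, 1]]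

/-- The coefficients of a representative of `s_β` in `G_2(ℂ)`: `w e_i = cw β i e_{sig β i}`
(checked numerically). -/
noncomputable def cw : Fin 6 → Fin 7 → ℂ := ![![1, -1, 2, -1, 1 / 2, 1, -1], ![1, 1, -1, 1, 1, -1, 1],
  ![1, 1, 2, -1, 1 / 2, 1, 1], ![1, 1, 2, -1, -(1 / 2), -1, 1], ![1, 1, -1, 1, -1, 1, 1],
  ![1, 1, 1, 1, 1, -1, -1]]

/-- The representative of `s_β`. -/
noncomputable def wG (β : Fin 6) : Matrix (Fin 7) (Fin 7) ℂ :=
  Matrix.of fun a i => if a = sig β i then cw β i else 0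

theorem sig_sig (β : Fin 6) (i : Fin 7) : sig β (sig β i) = i := by
  revert β i
  decide

theorem wt_sig (β : Fin 6) (i : Fin 7) : wtG (sig β i) = DG.sw β (wtG i) := by
  change wtG (sig β i) = wtG i - ev (crG β) (wtG i) • rtG β
  revert β i
  decide +kernel

/-- the coefficients as rational numbers -/
def x5_cwq : Fin 6 → Fin 7 → ℚ := ![![1, -1, 2, -1, 1 / 2, 1, -1], ![1, 1, -1, 1, 1, -1, 1],
  ![1, 1, 2, -1, 1 / 2, 1, 1], ![1, 1, 2, -1, -(1 / 2), -1, 1], ![1, 1, -1, 1, -1, 1, 1],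
  ![1, 1, 1, 1, 1, -1, -1]]

theorem x5_cast (β : Fin 6) (i : Fin 7) : cw β i = ((x5_cwq β i : ℚ) : ℂ) := by
  fin_cases β <;> fin_cases i <;> simp [cw, x5_cwq]

/-- the permutation `sig` -/
def x5_perm (β : Fin 6) : Equiv.Perm (Fin 7) := ⟨sig β, sig β, sig_sig β, sig_sig β⟩

/-- the form `J` over `ℚ` -/
def x5_Jq (a b : Fin 7) : ℚ := if b = Fin.rev a then (-1) ^ (a : ℕ) else 0

theorem x5_J : ∀ (β : Fin 6) (i : Fin 7), x5_cwq β i * x5_cwq β (Fin.rev i) *
    x5_Jq (x5_perm β i) (x5_perm β (Fin.rev i)) = x5_Jq i (Fin.rev i) := by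
  decide +kernel

theorem x5_rev : ∀ (β : Fin 6) (i : Fin 7),
    x5_perm β (Fin.rev i) = Fin.rev (x5_perm β i) := by
  decide +kernel

theorem x5_T : ∀ (β : Fin 6) (i j k : Fin 7), x5_cwq β i * x5_cwq β j * x5_cwq β k *
    (ph (x5_perm β i) (x5_perm β j) (x5_perm β k) : ℚ) = (ph i j k : ℚ) := by
  decide +kernel

theorem x5_d : ∀ (β : Fin 6), (((x5_perm β).sign : ℤ) : ℚ) * ∏ i, x5_cwq β i = 1 := by
  decide +kernel

/-- The representatives lie in the group (`Gc_mono`; finitely many cases). -/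
theorem wG_mem (β : Fin 6) : Gc (wG β) := by
  have h := Gc_mono (R := ℂ) (x5_perm β) (cw β) ?_ ?_ ?_ ?_
  · exact h
  · intro i
    have h1 := x5_J β i
    have h2 : ∀ a b : Fin 7, Jm ℂ 7 a b = ((x5_Jq a b : ℚ) : ℂ) := by
      intro a b
      simp only [Jm, x5_Jq, Matrix.of_apply]
      split_ifs <;> simp
    rw [h2, h2, x5_cast, x5_cast]
    exact_mod_cast h1
  · intro i
    exact x5_rev β i
  · intro i j k
    rw [x5_cast, x5_cast, x5_cast]
    exact_mod_cast x5_T β i j k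
  · have h1 := x5_d β
    have h2 : ∏ i, cw β i = ((∏ i, x5_cwq β i : ℚ) : ℂ) := by
      rw [Rat.cast_prod]
      exact Finset.prod_congr rfl fun i _ => x5_cast β i
    rw [h2]
    exact_mod_cast h1

theorem weyl' (β : Fin 6) : ∃ (w : Matrix (Fin 7) (Fin 7) ℂ) (π : Equiv.Perm (Fin 7)), Gc w ∧
    (∀ d : Fin 7 → ℂ, w * Matrix.diagonal d = Matrix.diagonal (fun i => d (π.symm i)) * w) ∧
    ∀ i, wtG (π.symm i) = DG.sw β (wtG i) := by
  refine ⟨wG β, x5_perm β, wG_mem β, fun d => ?_, fun i => wt_sig β i⟩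
  ext a i
  rw [Matrix.mul_diagonal, Matrix.diagonal_mul]
  change wG β a i * d i = d (sig β a) * wG β a i
  by_cases h : a = sig β i
  · rw [h, sig_sig, mul_comm]
  · have h0 : wG β a i = 0 := by simp [wG, h]
    rw [h0]
    ring

end Pool.Agent.MTD.G2
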