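import Pool.Agent.MTD.X3
import Pool.Agent.MTD.X5

/-! # MTD : `G_2`, Iwasawa decomposition (row X6) -/

namespace Pool.Agent.MTD.G2

open Matrix
open Pool.Agent.MP_c45d35_ag (chi UpUni LowUni IsHess Jm em fm)

section vec
variable {K : Type} [Field K]

theorem x6_Lo0 (t : K) (v : Fin 7 → K) : (Lo t 0).mulVec v =
    ![v 0, t * v 0 + v 1, v 2, 2 * t * v 2 + v 3, 2 * t ^ 2 * v 2 + 2 * t * v 3 + v 4, v 5,
      t * v 5 + v 6] := by
  ext i
  rw [Matrix.mulVec, dotProduct, Fin.sum_univ_seven]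
  fin_cases i <;> simp [Lo, Matrix.add_apply, Matrix.one_apply]

theorem x6_Lo2 (t : K) (v : Fin 7 → K) : (Lo t 2).mulVec v =
    ![v 0, v 1, -(t * v 0) + v 2, 2 * t * v 1 + v 3, v 4, -(2 * t ^ 2 * v 1) + -(2 * t * v 3) + v 5,
      t * v 4 + v 6] := by
  ext i
  rw [Matrix.mulVec, dotProduct, Fin.sum_univ_seven]
  fin_cases i <;> simp [Lo, Matrix.add_apply, Matrix.one_apply]

theorem x6_Lo3 (t : K) (v : Fin 7 → K) : (Lo t 3).mulVec v =
    ![v 0, v 1, v 2, 2 * t * v 0 + v 3, -(2 * t * v 1) + v 4, -(2 * t * v 2) + v 5,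
      2 * t ^ 2 * v 0 + 2 * t * v 3 + v 6] := by
  ext i
  rw [Matrix.mulVec, dotProduct, Fin.sum_univ_seven]
  fin_cases i <;> simp [Lo, Matrix.add_apply, Matrix.one_apply]

theorem x6_Lo4 (t : K) (v : Fin 7 → K) : (Lo t 4).mulVec v =
    ![v 0, v 1, v 2, v 3, -(t * v 0) + v 4, v 5, t * v 2 + v 6] := by
  ext i
  rw [Matrix.mulVec, dotProduct, Fin.sum_univ_seven]
  fin_cases i <;> simp [Lo, Matrix.add_apply, Matrix.one_apply]

theorem x6_Lo5 (t : K) (v : Fin 7 → K) : (Lo t 5).mulVec v =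
    ![v 0, v 1, v 2, v 3, v 4, t * v 0 + v 5, t * v 1 + v 6] := by
  ext i
  rw [Matrix.mulVec, dotProduct, Fin.sum_univ_seven]
  fin_cases i <;> simp [Lo, Matrix.add_apply, Matrix.one_apply]

/-- The quadratic form. -/
theorem x6_q (v : Fin 7 → K) : ∑ a : Fin 7, (-1) ^ (a : ℕ) * v a * v (Fin.rev a) =
    2 * (v 0 * v 6 - v 1 * v 5 + v 2 * v 4) - v 3 ^ 2 := by
  rw [Fin.sum_univ_seven]
  have e : ∀ i : Fin 7, Fin.rev i = 6 - i := by decide
  simp only [e]
  simp
  ring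

theorem x6_qm {g : Matrix (Fin 7) (Fin 7) K} (hg : Gc g) (v : Fin 7 → K) :
    ∑ a : Fin 7, (-1) ^ (a : ℕ) * (g.mulVec v) a * (g.mulVec v) (Fin.rev a) =
      ∑ a : Fin 7, (-1) ^ (a : ℕ) * v a * v (Fin.rev a) := by
  have h : ∀ w : Fin 7 → K, ∑ a : Fin 7, (-1) ^ (a : ℕ) * w a * w (Fin.rev a) =
      w ⬝ᵥ (Jm K 7).mulVec w := by
    intro w
    unfold dotProduct
    refine Finset.sum_congr rfl fun a _ => ?_
    rw [Matrix.mulVec, dotProduct, Finset.sum_eq_single (Fin.rev a)]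
    · simp only [Pool.Agent.MP_c45d35_ag.Jm_apply, if_true]
      ring
    · intro b _ hb
      simp [Pool.Agent.MP_c45d35_ag.Jm_apply, hb]
    · intro h
      exact absurd (Finset.mem_univ _) h
  rw [h, h]
  calc g.mulVec v ⬝ᵥ (Jm K 7).mulVec (g.mulVec v) = v ⬝ᵥ (gᵀ * Jm K 7 * g).mulVec v := by
        rw [← Matrix.mulVec_mulVec, ← Matrix.mulVec_mulVec, Matrix.dotProduct_mulVec v gᵀ,
          Matrix.vecMul_transpose]
    _ = _ := by rw [hg.1]

end vec

variable {K : Type} [Field K] [Algebra ℂ K] (V : ValuationSubring K)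

/-- The elements of the group with entries in `V` (and inverse entries, automatically). -/
def GV (V : ValuationSubring K) (g : Matrix (Fin 7) (Fin 7) K) : Prop := Gc g ∧ ∀ i j, g i j ∈ V

omit [Algebra ℂ K] in
theorem GV_mul {g h : Matrix (Fin 7) (Fin 7) K} (hg : GV V g) (hh : GV V h) : GV V (g * h) := by
  refine ⟨Gc_mul hg.1 hh.1, fun i j => ?_⟩
  rw [Matrix.mul_apply]
  exact sum_mem fun l _ => mul_mem (hg.2 _ _) (hh.2 _ _)

omit [Algebra ℂ K] in
theorem x6_Jm (i j : Fin 7) : Jm K 7 i j ∈ V := by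
  rw [Pool.Agent.MP_c45d35_ag.Jm_apply]
  split_ifs
  · exact pow_mem (neg_mem (one_mem V)) _
  · exact zero_mem V

omit [Algebra ℂ K] in
/-- `g⁻¹ = J⁻¹ gᵀ J`. -/
theorem GV_inv {g : Matrix (Fin 7) (Fin 7) K} (hg : GV V g) : GV V g⁻¹ := by
  refine ⟨Gc_inv hg.1, fun i j => ?_⟩
  have h1 : g⁻¹ = (Jm K 7)ᵀ * gᵀ * Jm K 7 := by
    apply Matrix.inv_eq_left_inv
    rw [Matrix.mul_assoc, Matrix.mul_assoc, ← Matrix.mul_assoc gᵀ, hg.1.1,
      Pool.Agent.MP_c45d35_ag.Jm_transpose_mul]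
  rw [h1, Matrix.mul_apply]
  refine sum_mem fun l _ => mul_mem ?_ (x6_Jm V _ _)
  rw [Matrix.mul_apply]
  exact sum_mem fun m _ => mul_mem (x6_Jm V _ _) (hg.2 _ _)

theorem GV_Lo (hV : ∀ z : ℂ, algebraMap ℂ K z ∈ V) {t : K} (ht : t ∈ V) (n : Fin 6) :
    GV V (Lo t n) := by
  refine ⟨Lo_mem t n, fun i j => ?_⟩
  have h0 : (0 : K) ∈ V := zero_mem V
  have h1 : (1 : K) ∈ V := one_mem V
  have h2 : (2 : K) ∈ V := by
    rw [← one_add_one_eq_two]
    exact add_mem h1 h1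
  have h3 : 2 * t ∈ V := mul_mem h2 ht
  have h4 : 2 * t ^ 2 ∈ V := mul_mem h2 (pow_mem ht 2)
  have h5 : -t ∈ V := neg_mem ht
  have h6 : -(2 * t) ∈ V := neg_mem h3
  have h7 : -(2 * t ^ 2) ∈ V := neg_mem h4
  have hone : (1 : Matrix (Fin 7) (Fin 7) K) i j ∈ V := by
    rw [Matrix.one_apply]
    split_ifs <;> assumption
  fin_cases n
  all_goals
    refine add_mem hone ?_
    simp only [Matrix.of_apply]
    split_ifs <;> assumption

omit [Algebra ℂ K] in
theorem x6_Gc_map {R : Type} [CommRing R] {g : Matrix (Fin 7) (Fin 7) R} (hg : Gc g) (φ : R →+* K) :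
    Gc (g.map φ) := by
  obtain ⟨h1, h2, h3⟩ := hg
  refine ⟨?_, fun i j k => ?_, ?_⟩
  · have hJ : (Jm R 7).map φ = Jm K 7 := by
      ext i j
      rw [Matrix.map_apply, Pool.Agent.MP_c45d35_ag.Jm_apply, Pool.Agent.MP_c45d35_ag.Jm_apply]
      split_ifs
      · rw [map_pow, map_neg, map_one]
      · rw [map_zero]
    have h4 := congrArg (fun M => M.map φ) h1
    simp only [Matrix.map_mul] at h4
    rw [hJ] at h4
    exact h4
  · have h4 := congrArg φ (h2 i j k)
    rw [map_intCast] at h4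
    rw [← h4]
    unfold T3
    simp only [map_sum, map_mul, map_intCast, Matrix.map_apply]
  · have h4 := congrArg φ h3
    rw [map_one, RingHom.map_det] at h4
    exact h4

/-- The image of `wG β` in `G(K)` has entries in `V`. -/
theorem GV_w (hV : ∀ z : ℂ, algebraMap ℂ K z ∈ V) (β : Fin 6) :
    GV V ((wG β).map (algebraMap ℂ K)) :=
  ⟨x6_Gc_map (wG_mem β) _, fun i j => hV _⟩

/-- Unit first coordinate. -/
theorem x6_unit0 (hV : ∀ z : ℂ, algebraMap ℂ K z ∈ V) (v : Fin 7 → K) (hv : ∀ i, v i ∈ V)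
    (h0 : v 0 ≠ 0) (h0' : (v 0)⁻¹ ∈ V)
    (hiso : ∑ a : Fin 7, (-1) ^ (a : ℕ) * v a * v (Fin.rev a) = 0) :
    ∃ k, GV V k ∧ ∀ i, i ≠ 0 → (k.mulVec v) i = 0 := by
  have h2 : (2 : K) ≠ 0 := by
    have : (2 : K) = algebraMap ℂ K 2 := (map_ofNat (algebraMap ℂ K) 2).symm
    rw [this]
    exact (map_ne_zero _).2 two_ne_zero
  have hhalf : (2 : K)⁻¹ ∈ V := by
    have : (2 : K)⁻¹ = algebraMap ℂ K 2⁻¹ := by rw [map_inv₀, map_ofNat]
    rw [this]
    exact hV _
  -- step 1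
  set t0 : K := -(v 1 * (v 0)⁻¹) with ht0
  have ht0' : t0 ∈ V := neg_mem (mul_mem (hv 1) h0')
  set v1 := (Lo t0 0).mulVec v with hv1
  have hmem : ∀ (k : Matrix (Fin 7) (Fin 7) K) (w : Fin 7 → K), GV V k → (∀ i, w i ∈ V) →
      ∀ i, (k.mulVec w) i ∈ V := fun k w hk hw i => by
    rw [Matrix.mulVec, dotProduct]
    exact sum_mem fun l _ => mul_mem (hk.2 _ _) (hw _)
  have e1 := x6_Lo0 t0 v
  rw [← hv1] at e1
  have a0 : v1 0 = v 0 := by rw [e1]; rfl
  have a1 : v1 1 = 0 := by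
    rw [e1]
    show t0 * v 0 + v 1 = 0
    rw [ht0]
    field_simp
    ring
  have m1 : ∀ i, v1 i ∈ V := hmem _ _ (GV_Lo V hV ht0' 0) hv
  -- step 2
  set t1 : K := v1 2 * (v 0)⁻¹ with ht1
  have ht1' : t1 ∈ V := mul_mem (m1 2) h0'
  set v2 := (Lo t1 2).mulVec v1 with hv2
  have e2 := x6_Lo2 t1 v1
  rw [← hv2] at e2
  have b0 : v2 0 = v 0 := by rw [e2, ← a0]; rfl
  have b1 : v2 1 = 0 := by rw [e2, ← a1]; rfl
  have b2 : v2 2 = 0 := by
    rw [e2]
    show -(t1 * v1 0) + v1 2 = 0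
    rw [ht1, a0]
    field_simp
    ring
  have m2 : ∀ i, v2 i ∈ V := hmem _ _ (GV_Lo V hV ht1' 2) m1
  -- step 3
  set t2 : K := -(v2 3 * (v 0)⁻¹ * 2⁻¹) with ht2
  have ht2' : t2 ∈ V := neg_mem (mul_mem (mul_mem (m2 3) h0') hhalf)
  set v3 := (Lo t2 3).mulVec v2 with hv3
  have e3 := x6_Lo3 t2 v2
  rw [← hv3] at e3
  have c0 : v3 0 = v 0 := by rw [e3, ← b0]; rfl
  have c1 : v3 1 = 0 := by rw [e3, ← b1]; rfl
  have c2 : v3 2 = 0 := by rw [e3, ← b2]; rfl
  have c3 : v3 3 = 0 := by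
    rw [e3]
    show 2 * t2 * v2 0 + v2 3 = 0
    rw [ht2, b0]
    field_simp
    ring
  have m3 : ∀ i, v3 i ∈ V := hmem _ _ (GV_Lo V hV ht2' 3) m2
  -- step 4
  set t3 : K := v3 4 * (v 0)⁻¹ with ht3
  have ht3' : t3 ∈ V := mul_mem (m3 4) h0'
  set v4 := (Lo t3 4).mulVec v3 with hv4
  have e4 := x6_Lo4 t3 v3
  rw [← hv4] at e4
  have d0 : v4 0 = v 0 := by rw [e4, ← c0]; rfl
  have d1 : v4 1 = 0 := by rw [e4, ← c1]; rfl
  have d2 : v4 2 = 0 := by rw [e4, ← c2]; rfl
  have d3 : v4 3 = 0 := by rw [e4, ← c3]; rfl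
  have d4 : v4 4 = 0 := by
    rw [e4]
    show -(t3 * v3 0) + v3 4 = 0
    rw [ht3, c0]
    field_simp
    ring
  have m4 : ∀ i, v4 i ∈ V := hmem _ _ (GV_Lo V hV ht3' 4) m3
  -- step 5
  set t4 : K := -(v4 5 * (v 0)⁻¹) with ht4
  have ht4' : t4 ∈ V := neg_mem (mul_mem (m4 5) h0')
  set v5 := (Lo t4 5).mulVec v4 with hv5
  have e5 := x6_Lo5 t4 v4
  rw [← hv5] at e5
  have f0 : v5 0 = v 0 := by rw [e5, ← d0]; rfl
  have f1 : v5 1 = 0 := by rw [e5, ← d1]; rfl
  have f2 : v5 2 = 0 := by rw [e5, ← d2]; rfl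
  have f3 : v5 3 = 0 := by rw [e5, ← d3]; rfl
  have f4 : v5 4 = 0 := by rw [e5, ← d4]; rfl
  have f5 : v5 5 = 0 := by
    rw [e5]
    show t4 * v4 0 + v4 5 = 0
    rw [ht4, d0]
    field_simp
    ring
  have hq : ∑ a : Fin 7, (-1) ^ (a : ℕ) * v5 a * v5 (Fin.rev a) = 0 := by
    rw [hv5, x6_qm (Lo_mem t4 5), hv4, x6_qm (Lo_mem t3 4), hv3, x6_qm (Lo_mem t2 3), hv2,
      x6_qm (Lo_mem t1 2), hv1, x6_qm (Lo_mem t0 0), hiso]
  rw [x6_q, f0, f1, f2, f3, f4, f5] at hq
  have f6 : v5 6 = 0 := by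
    have : 2 * (v 0 * v5 6) = 0 := by linear_combination hq
    rcases mul_eq_zero.1 this with h | h
    · exact absurd h h2
    · rcases mul_eq_zero.1 h with h | h
      · exact absurd h h0
      · exact h
  refine ⟨Lo t4 5 * (Lo t3 4 * (Lo t2 3 * (Lo t1 2 * Lo t0 0))),
    GV_mul V (GV_Lo V hV ht4' 5) (GV_mul V (GV_Lo V hV ht3' 4) (GV_mul V (GV_Lo V hV ht2' 3)
      (GV_mul V (GV_Lo V hV ht1' 2) (GV_Lo V hV ht0' 0)))), fun i hi => ?_⟩
  rw [← Matrix.mulVec_mulVec, ← Matrix.mulVec_mulVec, ← Matrix.mulVec_mulVec,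
    ← Matrix.mulVec_mulVec, ← hv1, ← hv2, ← hv3, ← hv4, ← hv5]
  fin_cases i
  · exact absurd rfl hi
  · exact f1
  · exact f2
  · exact f3
  · exact f4
  · exact f5
  · exact f6

omit [Algebra ℂ K] in
/-- The monomial matrix acts by permuting and scaling. -/
theorem x6_w_vec [Algebra ℂ K] (β : Fin 6) (v : Fin 7 → K) (i : Fin 7) :
    (((wG β).map (algebraMap ℂ K)).mulVec v) (sig β i) = algebraMap ℂ K (cw β i) * v i := by
  rw [Matrix.mulVec, dotProduct, Finset.sum_eq_single i]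
  · rw [Matrix.map_apply]
    simp [wG]
  · intro b _ hb
    rw [Matrix.map_apply]
    have : sig β i ≠ sig β b := fun h => hb (by rw [← sig_sig β b, ← h, sig_sig])
    simp [wG, this]
  · intro h
    exact absurd (Finset.mem_univ _) h

theorem x6_ex : ∀ i : Fin 7, i ≠ 3 → i ≠ 0 → ∃ β : Fin 6, sig β i = 0 := by
  decide

theorem x6_cw (β : Fin 6) (i : Fin 7) : cw β i ≠ 0 := by
  fin_cases β <;> fin_cases i <;> simp [cw]

/-- A primitive isotropic vector can be moved to a multiple of `e_0`. -/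
theorem move_vec (hV : ∀ z : ℂ, algebraMap ℂ K z ∈ V) (v : Fin 7 → K) (hv : ∀ i, v i ∈ V)
    (hu : ∃ i, v i ≠ 0 ∧ (v i)⁻¹ ∈ V)
    (hiso : ∑ a : Fin 7, (-1) ^ (a : ℕ) * v a * v (Fin.rev a) = 0) :
    ∃ k, GV V k ∧ ∀ i, i ≠ 0 → (k.mulVec v) i = 0 := by
  -- units other than the middle coordinate
  have key : ∀ (i : Fin 7) (β : Fin 6), sig β i = 0 → v i ≠ 0 → (v i)⁻¹ ∈ V →
      ∃ k, GV V k ∧ ∀ i, i ≠ 0 → (k.mulVec v) i = 0 := by
    intro i β hβ hi hi'
    set w := (((wG β).map (algebraMap ℂ K)).mulVec v) with hw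
    have h1 : w 0 = algebraMap ℂ K (cw β i) * v i := by
      rw [← hβ, hw, x6_w_vec]
    have h2 : ∀ j, w j ∈ V := by
      intro j
      rw [hw, Matrix.mulVec, dotProduct]
      exact sum_mem fun l _ => mul_mem ((GV_w V hV β).2 _ _) (hv _)
    have h3 : w 0 ≠ 0 := by
      rw [h1]
      exact mul_ne_zero ((map_ne_zero _).2 (x6_cw β i)) hi
    have h4 : (w 0)⁻¹ ∈ V := by
      rw [h1, mul_inv, ← map_inv₀]
      exact mul_mem (hV _) hi'
    obtain ⟨k, hk, hk'⟩ := x6_unit0 V hV w h2 h3 h4 (by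
      rw [hw, x6_qm (GV_w V hV β).1, hiso])
    refine ⟨k * (wG β).map (algebraMap ℂ K), GV_mul V hk (GV_w V hV β), fun j hj => ?_⟩
    rw [← Matrix.mulVec_mulVec, ← hw]
    exact hk' j hj
  have hall : (∃ i : Fin 7, i ≠ 3 ∧ v i ≠ 0 ∧ (v i)⁻¹ ∈ V) := by
    by_contra hcon
    push Not at hcon
    -- all coordinates but the middle one are non-units
    obtain ⟨i0, h1, h2⟩ := hu
    have hi0 : i0 = 3 := by
      by_contra h
      exact (hcon i0 h h1) h2
    subst hi0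
    have hlt : ∀ i : Fin 7, i ≠ 3 → V.valuation (v i) < 1 := by
      intro i hi
      rcases eq_or_ne (v i) 0 with h | h
      · rw [h, map_zero]
        exact zero_lt_one
      · have h3 := hcon i hi h
        rw [← V.valuation_le_one_iff, map_inv₀] at h3
        have h4 : V.valuation (v i) ≠ 0 := (Valuation.ne_zero_iff _).2 h
        by_contra h5
        exact h3 (inv_le_one_of_one_le₀ (not_lt.1 h5))
    have h3 : V.valuation (v 3) = 1 := by
      refine le_antisymm ((V.valuation_le_one_iff _).2 (hv 3)) ?_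
      have h4 := (V.valuation_le_one_iff _).2 h2
      rw [map_inv₀] at h4
      exact (inv_le_one₀ (zero_lt_iff.2 ((Valuation.ne_zero_iff _).2 h1))).1 h4
    rw [x6_q] at hiso
    have h5 : v 3 ^ 2 = 2 * (v 0 * v 6 - v 1 * v 5 + v 2 * v 4) := by linear_combination -hiso
    have h6 : V.valuation (v 3 ^ 2) < 1 := by
      rw [h5, map_mul]
      have h7 : V.valuation (2 : K) ≤ 1 := by
        rw [V.valuation_le_one_iff, ← map_ofNat (algebraMap ℂ K) 2]
        exact hV _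
      have h8 : ∀ i j : Fin 7, i ≠ 3 → j ≠ 3 → V.valuation (v i * v j) < 1 := by
        intro i j hi hj
        rw [map_mul]
        exact mul_lt_one_of_nonneg_of_lt_one_right (hlt i hi).le zero_le (hlt j hj)
      have h9 : V.valuation (v 0 * v 6 - v 1 * v 5 + v 2 * v 4) < 1 :=
        Valuation.map_add_lt _ (Valuation.map_sub_lt _ (h8 0 6 (by decide) (by decide))
          (h8 1 5 (by decide) (by decide))) (h8 2 4 (by decide) (by decide))
      exact mul_lt_one_of_nonneg_of_lt_one_right h7 zero_le h9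
    rw [map_pow, h3, one_pow] at h6
    exact lt_irrefl _ h6
  obtain ⟨i, hi, h1, h2⟩ := hall
  by_cases h0 : i = 0
  · subst h0
    exact x6_unit0 V hV v hv h1 h2 hiso
  · obtain ⟨β, hβ⟩ := x6_ex i hi h0
    exact key i β hβ h1 h2


omit [Algebra ℂ K] in
/-- The 3-form, expanded. -/
theorem x6_T3 (g : Matrix (Fin 7) (Fin 7) K) (i j k : Fin 7) : T3 g i j k =
    (g 0 i * (g 3 j * g 6 k - g 6 j * g 3 k) - g 0 j * (g 3 i * g 6 k - g 6 i * g 3 k) +
      g 0 k * (g 3 i * g 6 j - g 6 i * g 3 j)) +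
    (g 1 i * (g 3 j * g 5 k - g 5 j * g 3 k) - g 1 j * (g 3 i * g 5 k - g 5 i * g 3 k) +
      g 1 k * (g 3 i * g 5 j - g 5 i * g 3 j)) -
    (g 2 i * (g 3 j * g 4 k - g 4 j * g 3 k) - g 2 j * (g 3 i * g 4 k - g 4 i * g 3 k) +
      g 2 k * (g 3 i * g 4 j - g 4 i * g 3 j)) -
    (g 0 i * (g 4 j * g 5 k - g 5 j * g 4 k) - g 0 j * (g 4 i * g 5 k - g 5 i * g 4 k) +
      g 0 k * (g 4 i * g 5 j - g 5 i * g 4 j)) -
    2 * (g 1 i * (g 2 j * g 6 k - g 6 j * g 2 k) - g 1 j * (g 2 i * g 6 k - g 6 i * g 2 k) +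
      g 1 k * (g 2 i * g 6 j - g 6 i * g 2 j)) := by
  unfold T3
  simp only [Fin.sum_univ_seven]
  simp [ph, ph0_eq, ph0']
  ring

omit [Algebra ℂ K] in
/-- The form, expanded. -/
theorem x6_J {g : Matrix (Fin 7) (Fin 7) K} (hg : Gc g) (i j : Fin 7) :
    g 0 i * g 6 j - g 1 i * g 5 j + g 2 i * g 4 j - g 3 i * g 3 j + g 4 i * g 2 j - g 5 i * g 1 j +
      g 6 i * g 0 j = Jm K 7 i j := by
  have h := congrFun (congrFun hg.1 i) j
  rw [Matrix.mul_assoc, Matrix.mul_apply] at h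
  rw [← h]
  have e : ∀ i : Fin 7, Fin.rev i = 6 - i := by decide
  simp only [Matrix.transpose_apply, Pool.Agent.MP_c45d35_ag.Jm_mul_apply, Fin.sum_univ_seven, e]
  simp
  ring

/-- First column. -/
theorem first_col (hV : ∀ z : ℂ, algebraMap ℂ K z ∈ V) (g : Matrix (Fin 7) (Fin 7) K) (hg : Gc g) :
    ∃ k g' : Matrix (Fin 7) (Fin 7) K, GV V k ∧ Gc g' ∧ (∀ i, i ≠ 0 → g' i 0 = 0) ∧ g = k * g' := by
  obtain ⟨i0, -, hi0⟩ := Finset.exists_max_image Finset.univ (fun i => V.valuation (g i 0))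
    ⟨0, Finset.mem_univ 0⟩
  set c := g i0 0 with hc
  have hc0 : c ≠ 0 := by
    intro h
    have h1 : ∀ i, g i 0 = 0 := by
      intro i
      have h2 := hi0 i (Finset.mem_univ _)
      rw [h, map_zero] at h2
      exact (Valuation.zero_iff _).1 (le_antisymm h2 zero_le)
    have h3 := Matrix.det_eq_zero_of_column_eq_zero 0 h1
    rw [hg.2.2] at h3
    exact one_ne_zero h3
  set v : Fin 7 → K := fun i => g i 0 / c with hv
  have hvV : ∀ i, v i ∈ V := by
    intro i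
    rw [← V.valuation_le_one_iff, hv]
    simp only
    rw [map_div₀]
    exact div_le_one_of_le₀ (hi0 i (Finset.mem_univ _)) zero_le
  have hu : ∃ i, v i ≠ 0 ∧ (v i)⁻¹ ∈ V := by
    refine ⟨i0, ?_, ?_⟩
    · rw [hv]
      simp only
      rw [← hc, div_self hc0]
      exact one_ne_zero
    · rw [hv]
      simp only
      rw [← hc, div_self hc0, inv_one]
      exact one_mem V
  have hiso : ∑ a : Fin 7, (-1) ^ (a : ℕ) * v a * v (Fin.rev a) = 0 := by
    rw [x6_q]
    have h := x6_J hg 0 0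
    have h1 : Jm K 7 0 0 = 0 := by
      rw [Pool.Agent.MP_c45d35_ag.Jm_apply, if_neg (by decide)]
    rw [h1] at h
    simp only [hv]
    field_simp
    linear_combination h
  obtain ⟨k, hk, hk'⟩ := move_vec V hV v hvV hu hiso
  have hku : k⁻¹ * k = 1 := Matrix.nonsing_inv_mul _ (by rw [hk.1.2.2]; exact isUnit_one)
  refine ⟨k⁻¹, k * g, GV_inv V hk, Gc_mul hk.1 hg, fun i hi => ?_, ?_⟩
  · have h1 := hk' i hi
    have h2 : (k * g) i 0 = c * (k.mulVec v) i := by
      rw [Matrix.mul_apply, Matrix.mulVec, dotProduct, Finset.mul_sum]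
      refine Finset.sum_congr rfl fun l _ => ?_
      rw [hv]
      simp only
      field_simp
    rw [h2, h1, mul_zero]
  · rw [← Matrix.mul_assoc, hku, Matrix.one_mul]

omit [Algebra ℂ K] in
/-- rows of an invertible matrix are independent -/
theorem x6_rows {g : Matrix (Fin 7) (Fin 7) K} (hg : g.det = 1) (w : Fin 7 → K)
    (h : ∀ k, ∑ a, w a * g a k = 0) : w = 0 := by
  have h1 : w ᵥ* g = 0 := by
    funext k
    exact h k
  have h2 : (w ᵥ* g) ᵥ* g⁻¹ = 0 := by rw [h1, Matrix.zero_vecMul]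
  rw [Matrix.vecMul_vecMul, Matrix.mul_nonsing_inv _ (by rw [hg]; exact isUnit_one),
    Matrix.vecMul_one] at h2
  exact h2

/-- If the first column of `g` is a multiple of `e_0`, then `g` is upper triangular up to the
entries `(2, 1)` and `(5, 4)`. -/
theorem block_of_col (g : Matrix (Fin 7) (Fin 7) K) (hg : Gc g) (h0 : ∀ i, i ≠ 0 → g i 0 = 0)
    (i j : Fin 7) (hij : j < i) (h1 : ¬ (i = 2 ∧ j = 1)) (h2 : ¬ (i = 5 ∧ j = 4)) : g i j = 0 := by
  have hJ := x6_J hg
  have z1 := h0 1 (by decide)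
  have z2 := h0 2 (by decide)
  have z3 := h0 3 (by decide)
  have z4 := h0 4 (by decide)
  have z5 := h0 5 (by decide)
  have z6 := h0 6 (by decide)
  have hJv : ∀ i j : Fin 7, j ≠ Fin.rev i → Jm K 7 i j = 0 := fun i j h => by
    rw [Pool.Agent.MP_c45d35_ag.Jm_apply, if_neg h]
  have hg00 : g 0 0 ≠ 0 := by
    intro h
    have h3 := Matrix.det_eq_zero_of_column_eq_zero (A := g) 0 (by
      intro i
      by_cases hi : i = 0
      · rw [hi, h]
      · exact h0 i hi)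
    rw [hg.2.2] at h3
    exact one_ne_zero h3
  -- the last row
  have r6 : ∀ j : Fin 7, j ≠ 6 → g 6 j = 0 := by
    intro j hj
    have h := hJ 0 j
    rw [z1, z2, z3, z4, z5, z6, hJv 0 j (by
      have : Fin.rev (0 : Fin 7) = 6 := by decide
      rw [this]; exact hj)] at h
    have h' : g 0 0 * g 6 j = 0 := by linear_combination h
    exact (mul_eq_zero.1 h').resolve_left hg00
  -- columns 1, 2
  have hcol : ∀ j : Fin 7, (∀ k, ph 0 j k = 0) → g 3 j = 0 ∧ g 4 j = 0 ∧ g 5 j = 0 := by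
    intro j hj
    have h := x6_rows hg.2.2 (fun a => if a = 6 then g 3 j else if a = 3 then - g 6 j
      else if a = 5 then - g 4 j else if a = 4 then g 5 j else 0) (by
        intro k
        have h := hg.2.1 0 j k
        rw [hj k, Int.cast_zero, x6_T3, z1, z2, z3, z4, z5, z6] at h
        have h' : g 0 0 * (g 3 j * g 6 k - g 6 j * g 3 k - g 4 j * g 5 k + g 5 j * g 4 k) = 0 := by
          linear_combination h
        have h'' := (mul_eq_zero.1 h').resolve_left hg00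
        rw [Fin.sum_univ_seven]
        simp
        linear_combination h'')
    have e6 := congrFun h 6
    have e5 := congrFun h 5
    have e4 := congrFun h 4
    simp at e6 e5 e4
    exact ⟨e6, e5, e4⟩
  obtain ⟨c31, c41, c51⟩ := hcol 1 (by decide)
  obtain ⟨c32, c42, c52⟩ := hcol 2 (by decide)
  have c61 := r6 1 (by decide)
  have c62 := r6 2 (by decide)
  have c63 := r6 3 (by decide)
  -- the 2 × 2 block
  have hdet : (g 1 1 * g 2 2 - g 2 1 * g 1 2) * g 6 6 = 1 := by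
    have h := hg.2.1 1 2 6
    have e : ph 1 2 6 = -2 := by decide
    rw [e, x6_T3, c31, c41, c51, c61, c32, c42, c52, c62] at h
    push_cast at h
    have h2 : (2 : K) ≠ 0 := by
      rw [← map_ofNat (algebraMap ℂ K) 2]
      exact (map_ne_zero _).2 two_ne_zero
    have h3 : (2 : K) * ((g 1 1 * g 2 2 - g 2 1 * g 1 2) * g 6 6 - 1) = 0 := by linear_combination -h
    have h4 := (mul_eq_zero.1 h3).resolve_left h2
    linear_combination h4
  have c53 : g 5 3 = 0 ∧ g 4 3 = 0 := by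
    have e1 := hJ 1 3
    have e2 := hJ 2 3
    rw [hJv 1 3 (by decide), c31, c41, c51, c61, c63] at e1
    rw [hJv 2 3 (by decide), c32, c42, c52, c62, c63] at e2
    constructor
    · linear_combination (-(g 2 2 * g 6 6)) * e1 + (g 2 1 * g 6 6) * e2 - g 5 3 * hdet
    · linear_combination (-(g 1 2 * g 6 6)) * e1 + (g 1 1 * g 6 6) * e2 - g 4 3 * hdet
  obtain ⟨c53, c43⟩ := c53
  fin_cases i <;> fin_cases j <;> first
    | exact absurd hij (by decide)
    | exact absurd ⟨rfl, rfl⟩ h1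
    | exact absurd ⟨rfl, rfl⟩ h2
    | assumption
    | exact r6 _ (by decide)

/-- Axiom `iwa`. -/
theorem iwa' (hV : ∀ z : ℂ, algebraMap ℂ K z ∈ V) (g : Matrix (Fin 7) (Fin 7) K) (hg : Gc g) :
    ∃ k b : Matrix (Fin 7) (Fin 7) K, Gc k ∧ (∀ i j, k i j ∈ V) ∧ Gc b ∧
      (∀ i j, j < i → b i j = 0) ∧ g = k * b := by
  -- it suffices to treat a `g` whose first column is a multiple of `e_0`
  suffices hs : ∀ g : Matrix (Fin 7) (Fin 7) K, Gc g → (∀ i, i ≠ 0 → g i 0 = 0) →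
      ∃ k b : Matrix (Fin 7) (Fin 7) K, GV V k ∧ Gc b ∧ (∀ i j, j < i → b i j = 0) ∧ g = k * b by
    obtain ⟨k, g', hk, hg', h0, rfl⟩ := first_col V hV g hg
    obtain ⟨k', b, hk', hb, hup, rfl⟩ := hs g' hg' h0
    have := GV_mul V hk hk'
    exact ⟨k * k', b, this.1, this.2, hb, hup, by rw [Matrix.mul_assoc]⟩
  -- if in addition `g 2 1 = 0`, then `g` is upper triangular
  have hup : ∀ g : Matrix (Fin 7) (Fin 7) K, Gc g → (∀ i, i ≠ 0 → g i 0 = 0) → g 2 1 = 0 →
      ∀ i j, j < i → g i j = 0 := by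
    intro g hg h0 h21 i j hij
    by_cases h1 : i = 2 ∧ j = 1
    · rw [h1.1, h1.2, h21]
    · by_cases h2 : i = 5 ∧ j = 4
      · have hb := block_of_col g hg h0
        have h3 := x6_J hg 1 4
        have hJ : Jm K 7 1 4 = 0 := by
          rw [Pool.Agent.MP_c45d35_ag.Jm_apply, if_neg (by decide)]
        rw [hJ, h21, hb 3 1 (by decide) (by decide) (by decide),
          hb 4 1 (by decide) (by decide) (by decide), hb 5 1 (by decide) (by decide) (by decide),
          hb 6 1 (by decide) (by decide) (by decide), hb 6 4 (by decide) (by decide) (by decide)] at h3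
        have h4 : g 1 1 * g 5 4 = 0 := by linear_combination -h3
        have h11 : g 1 1 ≠ 0 := by
          intro h
          have h5 := x6_J hg 1 5
          have hJ5 : Jm K 7 1 5 = -1 := by
            rw [Pool.Agent.MP_c45d35_ag.Jm_apply, if_pos (by decide)]
            simp
          rw [hJ5, h21, h, hb 3 1 (by decide) (by decide) (by decide),
            hb 4 1 (by decide) (by decide) (by decide), hb 5 1 (by decide) (by decide) (by decide),
            hb 6 1 (by decide) (by decide) (by decide), hb 6 5 (by decide) (by decide) (by decide)] at h5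
          have : (1 : K) = 0 := by linear_combination h5
          exact one_ne_zero this
        rw [h2.1, h2.2]
        exact (mul_eq_zero.1 h4).resolve_left h11
      · exact block_of_col g hg h0 i j hij h1 h2
  -- if `g 2 1 / g 1 1` lies in `V`
  have hlo : ∀ g : Matrix (Fin 7) (Fin 7) K, Gc g → (∀ i, i ≠ 0 → g i 0 = 0) →
      V.valuation (g 2 1) ≤ V.valuation (g 1 1) →
      ∃ k b : Matrix (Fin 7) (Fin 7) K, GV V k ∧ Gc b ∧ (∀ i j, j < i → b i j = 0) ∧ g = k * b := by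
    intro g hg h0 hle
    by_cases h11 : g 1 1 = 0
    · have h21 : g 2 1 = 0 := by
        rw [h11, map_zero] at hle
        exact (Valuation.zero_iff _).1 (le_antisymm hle zero_le)
      refine ⟨1, g, ⟨Gc_one, fun i j => ?_⟩, hg, hup g hg h0 h21, by rw [Matrix.one_mul]⟩
      rw [Matrix.one_apply]
      split_ifs
      · exact one_mem V
      · exact zero_mem V
    · set t : K := -(g 2 1 / g 1 1) with ht
      have htV : t ∈ V := by
        rw [← V.valuation_le_one_iff, ht, Valuation.map_neg, map_div₀]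
        exact div_le_one_of_le₀ hle zero_le
      have hL := GV_Lo V hV htV 1
      have hrow : ∀ (i j : Fin 7), (Lo t 1 * g) i j = (if i = 2 then t * g 1 j else
          if i = 5 then t * g 4 j else 0) + g i j := by
        intro i j
        rw [Matrix.mul_apply, Fin.sum_univ_seven]
        fin_cases i <;> simp [Lo, Matrix.add_apply, Matrix.one_apply]
      have hLu : (Lo t 1)⁻¹ * Lo t 1 = 1 :=
        Matrix.nonsing_inv_mul _ (by rw [hL.1.2.2]; exact isUnit_one)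
      refine ⟨(Lo t 1)⁻¹, Lo t 1 * g, GV_inv V hL, Gc_mul hL.1 hg,
        hup _ (Gc_mul hL.1 hg) (fun i hi => ?_) ?_, by rw [← Matrix.mul_assoc, hLu, Matrix.one_mul]⟩
      · rw [hrow, h0 i hi, h0 1 (by decide), h0 4 (by decide)]
        simp
      · rw [hrow, if_pos rfl, ht]
        field_simp
        ring
  intro g hg h0
  by_cases hle : V.valuation (g 2 1) ≤ V.valuation (g 1 1)
  · exact hlo g hg h0 hle
  · have hW := GV_w V hV 1
    set w := (wG 1).map (algebraMap ℂ K) with hw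
    have hrow : ∀ (i j : Fin 7), (w * g) (sig 1 i) j = algebraMap ℂ K (cw 1 i) * g i j := by
      intro i j
      have := x6_w_vec 1 (fun l => g l j) i
      rw [← this, Matrix.mul_apply, Matrix.mulVec, dotProduct]
    have hWu : w⁻¹ * w = 1 := Matrix.nonsing_inv_mul _ (by rw [hW.1.2.2]; exact isUnit_one)
    obtain ⟨k, b, hk, hb, hb', hkb⟩ := hlo (w * g) (Gc_mul hW.1 hg) (by
      intro i hi
      have h1 := hrow (sig 1 i) 0
      rw [sig_sig] at h1
      rw [h1, h0 (sig 1 i) (by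
        intro h
        apply hi
        have h2 := sig_sig 1 i
        rw [h] at h2
        rw [← h2]
        decide), mul_zero]) (by
      have h1 := hrow 1 1
      have h2 := hrow 2 1
      have e1 : sig 1 1 = 2 := by decide
      have e2 : sig 1 2 = 1 := by decide
      rw [e1] at h1
      rw [e2] at h2
      have c1 : cw 1 1 = 1 := by simp [cw]
      have c2 : cw 1 2 = -1 := by simp [cw]
      rw [h1, h2, c1, c2, map_one, one_mul, map_neg, map_one, neg_one_mul, Valuation.map_neg]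
      exact (not_le.1 hle).le)
    refine ⟨w⁻¹ * k, b, GV_mul V (GV_inv V hW) hk, hb, hb', ?_⟩
    rw [Matrix.mul_assoc, ← hkb, ← Matrix.mul_assoc, hWu, Matrix.one_mul]

end Pool.Agent.MTD.G2
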