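import Pool.Agent.MTD.X7

/-! # MTD : `G_2`, the slice (row X8) -/

namespace Pool.Agent.MTD.G2

open Matrix
open Pool.Agent.MP_c45d35_ag (chi UpUni LowUni IsHess Jm em fm)

section X8aux

open Pool.Agent.MP_c45d35_ag.SL (Fk fm_pow_apply)

/-- entries of the equation of the form -/
theorem X8_form_apply {R : Type*} [CommRing R] (X : Matrix (Fin 7) (Fin 7) R) (i l : Fin 7) :
    (Xᵀ * Jm R 7 + Jm R 7 * X) i l =
      X (Fin.rev l) i * (-1) ^ ((Fin.rev l : Fin 7) : ℕ) + (-1) ^ (i : ℕ) * X (Fin.rev i) l := by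
  rw [Matrix.add_apply, Matrix.mul_apply, Matrix.mul_apply]
  congr 1
  · rw [Finset.sum_eq_single (Fin.rev l)]
    · simp [Jm]
    · intro b _ hb
      have : ¬ (l = Fin.rev b) := by
        intro h
        exact hb (by rw [h, Fin.rev_rev])
      simp [Jm, this]
    · intro h
      exact absurd (Finset.mem_univ _) h
  · rw [Finset.sum_eq_single (Fin.rev i)]
    · simp [Jm]
    · intro b _ hb
      simp [Jm, hb]
    · intro h
      exact absurd (Finset.mem_univ _) h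

/-- the slice matrices with integral entries -/
def X8_M (k : ℕ) : Matrix (Fin 7) (Fin 7) ℤ :=
  Matrix.of fun i j => if (i : ℕ) = (j : ℕ) + k then ((Fk 7 k j : ℕ) : ℤ) else 0

/-- the principal nilpotent with integral entries -/
def X8_E : Matrix (Fin 7) (Fin 7) ℤ :=
  Matrix.of fun i j => if (j : ℕ) = (i : ℕ) + 1 then 1 else 0

theorem X8_M_map (k : ℕ) (i j : Fin 7) :
    ((X8_M k i j : ℤ) : ℂ) = (fm ℂ 7 ^ k) i j := by
  rw [fm_pow_apply, X8_M, Matrix.of_apply]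
  split_ifs <;> simp

theorem X8_E_map (i j : Fin 7) : ((X8_E i j : ℤ) : ℂ) = em ℂ 7 i j := by
  rw [X8_E, Pool.Agent.MP_c45d35_ag.em, Matrix.of_apply, Matrix.of_apply]
  split_ifs <;> simp

theorem X8_D3_E : ∀ i j k, D3 X8_E i j k = 0 := by
  decide +kernel

theorem X8_D3_M1 : ∀ i j k, D3 (X8_M 1) i j k = 0 := by
  decide +kernel

theorem X8_D3_M5 : ∀ i j k, D3 (X8_M 5) i j k = 0 := by
  decide +kernel

theorem X8_F_E : ∀ i l : Fin 7, X8_E (Fin.rev l) i * (-1) ^ ((Fin.rev l : Fin 7) : ℕ) +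
    (-1) ^ (i : ℕ) * X8_E (Fin.rev i) l = 0 := by
  decide +kernel

theorem X8_F_M1 : ∀ i l : Fin 7, X8_M 1 (Fin.rev l) i * (-1) ^ ((Fin.rev l : Fin 7) : ℕ) +
    (-1) ^ (i : ℕ) * X8_M 1 (Fin.rev i) l = 0 := by
  decide +kernel

theorem X8_F_M5 : ∀ i l : Fin 7, X8_M 5 (Fin.rev l) i * (-1) ^ ((Fin.rev l : Fin 7) : ℕ) +
    (-1) ^ (i : ℕ) * X8_M 5 (Fin.rev i) l = 0 := by
  decide +kernel

theorem X8_Slk (a : Fin 2 → ℂ) (i j : Fin 7) : Slk 7 ![1, 5] a i j =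
    ((X8_E i j : ℤ) : ℂ) + a 0 * ((X8_M 1 i j : ℤ) : ℂ) + a 1 * ((X8_M 5 i j : ℤ) : ℂ) := by
  rw [X8_M_map, X8_M_map, X8_E_map, Slk, Matrix.add_apply, Matrix.sum_apply, Fin.sum_univ_two,
    Matrix.smul_apply, Matrix.smul_apply, smul_eq_mul, smul_eq_mul, ← add_assoc]
  rfl

theorem X8_isL (a : Fin 2 → ℂ) : IsL (Slk 7 ![1, 5] a) := by
  constructor
  · ext i l
    rw [X8_form_apply, X8_Slk, X8_Slk, Matrix.zero_apply]
    have h1 := congrArg (Int.cast : ℤ → ℂ) (X8_F_E i l)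
    have h2 := congrArg (Int.cast : ℤ → ℂ) (X8_F_M1 i l)
    have h3 := congrArg (Int.cast : ℤ → ℂ) (X8_F_M5 i l)
    push_cast at h1 h2 h3
    linear_combination h1 + a 0 * h2 + a 1 * h3
  · intro i j k
    have h1 := congrArg (Int.cast : ℤ → ℂ) (X8_D3_E i j k)
    have h2 := congrArg (Int.cast : ℤ → ℂ) (X8_D3_M1 i j k)
    have h3 := congrArg (Int.cast : ℤ → ℂ) (X8_D3_M5 i j k)
    simp only [D3] at h1 h2 h3 ⊢
    push_cast at h1 h2 h3
    have h4 : ∀ u v w : ℂ, u = 0 → v = 0 → w = 0 → u + a 0 * v + a 1 * w = 0 := by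
      rintro u v w rfl rfl rfl
      ring
    refine Eq.trans ?_ (h4 _ _ _ h1 h2 h3)
    rw [Finset.mul_sum, Finset.mul_sum, ← Finset.sum_add_distrib,
      ← Finset.sum_add_distrib]
    refine Finset.sum_congr rfl fun b _ => ?_
    rw [X8_Slk, X8_Slk, X8_Slk]
    ring

end X8aux

theorem sx_mem' (x : Fin 2 → ℂ) : sG x ∈ sliceG :=
  ⟨X8_isL _, commute_Slk_sub _⟩

/-- The invariants of degree 2 and 6 take all pairs of values.

PROOF.  Let `D ^ 2 = B` and `T^3 - A T - D = (T - r₁)(T - r₂)(T - r₃)`; `x = (r₁, -r₂)`: from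
`r₁ + r₂ + r₃ = 0` we get `qG x = r₁² + r₁ r₂ + r₂² = -(r₁r₂ + r₁r₃ + r₂r₃) = A` and
`x 0 * x 1 * (x 0 - x 1) = - r₁ r₂ (r₁ + r₂) = r₁ r₂ r₃ = D`. -/
theorem inv_surj (A B : ℂ) : ∃ x : Fin 2 → ℂ, qG x = A ∧ dG x = B := by
  obtain ⟨D, hD⟩ := IsAlgClosed.exists_pow_nat_eq B (n := 2) (by norm_num)
  obtain ⟨r, hr⟩ := IsAlgClosed.exists_root
    (Polynomial.X ^ 3 - Polynomial.C A * Polynomial.X - Polynomial.C D : Polynomial ℂ) (by
      have : (Polynomial.X ^ 3 - Polynomial.C A * Polynomial.X - Polynomial.C D :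
          Polynomial ℂ).degree = 3 := by
        compute_degree!
      rw [this]
      norm_num)
  obtain ⟨δ, hδ⟩ := IsAlgClosed.exists_pow_nat_eq (4 * A - 3 * r ^ 2) (n := 2) (by norm_num)
  have hr' : r ^ 3 - A * r - D = 0 := by
    simpa [Polynomial.IsRoot] using hr
  have h1 : r ^ 2 + r * ((-r + δ) / 2) + ((-r + δ) / 2) ^ 2 = A := by
    linear_combination (1 / 4) * hδ
  refine ⟨![r, -((-r + δ) / 2)], ?_, ?_⟩
  · simp only [qG, Matrix.cons_val_zero, Matrix.cons_val_one]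
    linear_combination h1
  · simp only [dG, Matrix.cons_val_zero, Matrix.cons_val_one]
    generalize (-r + δ) / 2 = s at h1 ⊢
    have h2 : r * (-s) * (r - (-s)) = D := by
      linear_combination r * h1 * (-1) + hr' 
    rw [← hD, ← h2]
    ring

section X8aux2

open Pool.Agent.MP_c45d35_ag.SL (Fk fm_pow_apply)

/-- entries of the sum -/
theorem X8_entry (c : Fin 7 → ℂ) (i l j : Fin 7) (h : (i : ℕ) = (l : ℕ) + (j : ℕ)) :
    (∑ j : Fin 7, c j • (fm ℂ 7) ^ (j : ℕ)) i l = c j * ((Fk 7 j l : ℕ) : ℂ) := by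
  rw [Matrix.sum_apply, Finset.sum_eq_single j]
  · rw [Matrix.smul_apply, fm_pow_apply, if_pos h, smul_eq_mul]
  · intro b _ hb
    rw [Matrix.smul_apply, fm_pow_apply, if_neg, smul_zero]
    intro h'
    exact hb (Fin.ext (by omega))
  · intro h'
    exact absurd (Finset.mem_univ _) h'

theorem X8_entry' (s : Matrix (Fin 7) (Fin 7) ℂ) (c : Fin 7 → ℂ)
    (hc : s - em ℂ 7 = ∑ j : Fin 7, c j • (fm ℂ 7) ^ (j : ℕ))
    (i l j : Fin 7) (h : (i : ℕ) = (l : ℕ) + (j : ℕ)) :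
    s i l = c j * ((Fk 7 j l : ℕ) : ℂ) := by
  rw [← X8_entry c i l j h, ← hc, Matrix.sub_apply, Pool.Agent.MP_c45d35_ag.em, Matrix.of_apply,
    if_neg (by omega), sub_zero]

end X8aux2

/-- Every element of the slice is `Slk 7 ![1, 5] a`: `s - e` commutes with `f`, hence is
`∑_{k<7} c_k f^k` (`commute_fm_eq` in HSlice.lean); the form gives `c_k = 0` for even `k`, the
3-form gives `c_3 = 0` (e.g. `D3 (f^3) 0 1 5 = -2160`). -/
theorem slice_eq (s : Matrix (Fin 7) (Fin 7) ℂ) (hs : s ∈ sliceG) :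
    ∃ a : Fin 2 → ℂ, s = Slk 7 ![1, 5] a := by
  obtain ⟨⟨h1, h2⟩, h3⟩ := hs
  obtain ⟨c, hc, -⟩ := commute_fm_eq h3
  have e := X8_entry' s c hc
  have f : ∀ i l : Fin 7, s (Fin.rev l) i * (-1) ^ ((Fin.rev l : Fin 7) : ℕ) +
      (-1) ^ (i : ℕ) * s (Fin.rev i) l = 0 := by
    intro i l
    rw [← X8_form_apply, h1, Matrix.zero_apply]
  have c0 : c 0 = 0 := by
    have h := f 0 6
    have e1 := e 0 0 0 (by decide)
    have e2 := e 6 6 0 (by decide)
    have r1 : (Fin.rev 6 : Fin 7) = 0 := by decide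
    have r2 : (Fin.rev 0 : Fin 7) = 6 := by decide
    rw [r1, r2, e1, e2] at h
    have k1 : Pool.Agent.MP_c45d35_ag.SL.Fk 7 (0 : Fin 7) (0 : Fin 7) = 1 := by decide
    have k2 : Pool.Agent.MP_c45d35_ag.SL.Fk 7 (0 : Fin 7) (6 : Fin 7) = 1 := by decide
    rw [k1, k2] at h
    simp only [Fin.val_zero, pow_zero, Nat.cast_one] at h
    linear_combination (1 / 2) * h
  have c2 : c 2 = 0 := by
    have h := f 0 4
    have e1 := e 2 0 2 (by decide)
    have e2 := e 6 4 2 (by decide)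
    have r1 : (Fin.rev 4 : Fin 7) = 2 := by decide
    have r2 : (Fin.rev 0 : Fin 7) = 6 := by decide
    rw [r1, r2, e1, e2] at h
    have k1 : Pool.Agent.MP_c45d35_ag.SL.Fk 7 (2 : Fin 7) (0 : Fin 7) = 60 := by decide
    have k2 : Pool.Agent.MP_c45d35_ag.SL.Fk 7 (2 : Fin 7) (4 : Fin 7) = 60 := by decide
    have k3 : ((2 : Fin 7) : ℕ) = 2 := rfl
    rw [k1, k2, k3] at h
    simp only [Fin.val_zero, pow_zero] at h
    push_cast at h
    linear_combination (1 / 120) * h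
  have c4 : c 4 = 0 := by
    have h := f 0 2
    have e1 := e 4 0 4 (by decide)
    have e2 := e 6 2 4 (by decide)
    have r1 : (Fin.rev 2 : Fin 7) = 4 := by decide
    have r2 : (Fin.rev 0 : Fin 7) = 6 := by decide
    rw [r1, r2, e1, e2] at h
    have k1 : Pool.Agent.MP_c45d35_ag.SL.Fk 7 (4 : Fin 7) (0 : Fin 7) = 8640 := by decide
    have k2 : Pool.Agent.MP_c45d35_ag.SL.Fk 7 (4 : Fin 7) (2 : Fin 7) = 8640 := by decide
    have k3 : ((4 : Fin 7) : ℕ) = 4 := rfl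
    rw [k1, k2, k3] at h
    simp only [Fin.val_zero, pow_zero] at h
    push_cast at h
    linear_combination (1 / 17280) * h
  have c6 : c 6 = 0 := by
    have h := f 0 0
    have e1 := e 6 0 6 (by decide)
    have r2 : (Fin.rev 0 : Fin 7) = 6 := by decide
    rw [r2, e1] at h
    have k1 : Pool.Agent.MP_c45d35_ag.SL.Fk 7 (6 : Fin 7) (0 : Fin 7) = 518400 := by decide
    have k3 : ((6 : Fin 7) : ℕ) = 6 := rfl
    rw [k1, k3] at h
    simp only [Fin.val_zero, pow_zero] at h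
    push_cast at h
    linear_combination (1 / 1036800) * h
  have c3 : c 3 = 0 := by
    have h := h2 0 1 5
    have hh : D3 s 0 1 5 = - s 3 0 - s 4 1 := by
      have p1 : ∀ a : Fin 7, ph a 1 5 = if a = 3 then -1 else 0 := by decide +kernel
      have p2 : ∀ a : Fin 7, ph 0 a 5 = if a = 4 then -1 else 0 := by decide +kernel
      have p3 : ∀ a : Fin 7, ph 0 1 a = 0 := by decide +kernel
      simp only [D3, p1, p2, p3, Int.cast_ite, Int.cast_zero, Int.cast_neg, Int.cast_one, ite_mul,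
        zero_mul, add_zero, Finset.sum_add_distrib, Finset.sum_ite_eq', Finset.mem_univ, if_true]
      ring
    have e1 := e 3 0 3 (by decide)
    have e2 := e 4 1 3 (by decide)
    rw [hh, e1, e2] at h
    have k1 : Pool.Agent.MP_c45d35_ag.SL.Fk 7 (3 : Fin 7) (0 : Fin 7) = 720 := by decide
    have k2 : Pool.Agent.MP_c45d35_ag.SL.Fk 7 (3 : Fin 7) (1 : Fin 7) = 1440 := by decide
    rw [k1, k2] at h
    push_cast at h
    linear_combination (-1 / 2160) * h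
  refine ⟨![c 1, c 5], ?_⟩
  rw [sub_eq_iff_eq_add'] at hc
  rw [hc, Slk, Fin.sum_univ_two, Fin.sum_univ_seven, c0, c2, c3, c4, c6]
  simp only [zero_smul, zero_add, add_zero]
  rfl

theorem sx_surj' (s : Matrix (Fin 7) (Fin 7) ℂ) (hs : s ∈ sliceG) :
    ∃ x : Fin 2 → ℂ, s = sG x := by
  obtain ⟨a, ha⟩ := slice_eq s hs
  obtain ⟨x, hx1, hx2⟩ := inv_surj (28 * a 0)
    (2 * (86400 * a 1 + 18 / 343 * (28 * a 0) ^ 3))
  refine ⟨x, ?_⟩
  rw [ha, sG]
  congr 1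
  funext k
  fin_cases k
  · simp only [aG, hx1, Algebra.algebraMap_self, RingHom.id_apply]
    show a 0 = 1 / 28 * (28 * a 0)
    ring
  · simp only [aG, hx1, hx2, Algebra.algebraMap_self, RingHom.id_apply]
    show a 1 = 1 / 86400 * (1 / 2 * (2 * (86400 * a 1 + 18 / 343 * (28 * a 0) ^ 3)) -
      18 / 343 * (28 * a 0) ^ 3)
    ring

/-- The invariants are invariant under the reflections. -/
theorem sG_refl (β : Fin 6) (x : Fin 2 → ℂ) : sG (DG.sr β x) = sG x := by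
  have h0 : DG.sr β x 0 = x 0 - ((rtG β 0 : ℂ) * x 0 + (rtG β 1 : ℂ) * x 1) * (crG β 0 : ℂ) := by
    show x 0 - ev (rtG β) x * (crG β 0 : ℂ) = _
    rw [ev, Fin.sum_univ_two]
  have h1 : DG.sr β x 1 = x 1 - ((rtG β 0 : ℂ) * x 0 + (rtG β 1 : ℂ) * x 1) * (crG β 1 : ℂ) := by
    show x 1 - ev (rtG β) x * (crG β 1 : ℂ) = _
    rw [ev, Fin.sum_univ_two]
  have hq : qG (DG.sr β x) = qG x := by
    rw [qG, qG, h0, h1]
    fin_cases β <;> simp [rtG, crG] <;> ring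
  have hd : dG (DG.sr β x) = dG x := by
    rw [dG, dG, h0, h1]
    fin_cases β <;> simp [rtG, crG] <;> ring
  rw [sG, sG, aG, aG, hq, hd]

/-- Axiom `nonss` (`em_not_diag` in HSlice.lean and `rt_eq`, `e_eq`). -/
theorem nonss' (β : Fin 6) (x : Fin 2 → ℂ) (h : DG.GenW β x) :
    ¬ ∃ g : Matrix (Fin 7) (Fin 7) ℂ, IsUnit g.det ∧ g * DG.Dx x = (DG.Dx x + DG.e) * g := by
  rintro ⟨g, hg, h1⟩
  obtain ⟨i, j, hij, hr⟩ := rt_eq β
  have h2 : ev (rtG β) x = 0 := h.1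
  rw [hr, ev_sub_left, sub_eq_zero] at h2
  refine em_not_diag (fun i => ev (wtG i) x) (fun i => ev (wtG i) x) i j hij h2 g hg ?_
  have he : DG.e = em ℂ 7 := by
    have := e_eq (R := ℂ)
    simpa [Dat.e] using this
  rw [he, add_comm (DG.Dx x) (em ℂ 7)] at h1
  exact h1.symm

end Pool.Agent.MTD.G2
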