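import Pool.Agent.MTD.X4
import Pool.Agent.MTD.X6
import Pool.Agent.MTD.X8
import Pool.Agent.MTD.TA3

/-! # MTD : `G_2`, finite generation (row X9) -/

namespace Pool.Agent.MTD.G2

open Matrix
open Pool.Agent.MP_c45d35_ag (chi UpUni LowUni IsHess Jm em fm)

/-- `MvPolynomial.eval` as an algebra homomorphism -/
theorem sx_eval (x : Fin 2 → ℂ) : DG.sx.map (MvPolynomial.eval x) = sG x := by
  have h := sG_map (MvPolynomial.aeval x : MvPolynomial (Fin 2) ℂ →ₐ[ℂ] ℂ) MvPolynomial.X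
  have h1 : (fun k => (MvPolynomial.aeval x : MvPolynomial (Fin 2) ℂ →ₐ[ℂ] ℂ)
      (MvPolynomial.X k)) = x := by
    funext k
    exact MvPolynomial.aeval_X x k
  rw [h1] at h
  rw [← h]
  ext i j
  rw [Matrix.map_apply, Matrix.map_apply, MvPolynomial.aeval_eq_eval]
  rfl

theorem ax : Ax DG where
  wt_inj := wt_inj
  wt_std := wt_std
  rt_indep β γ a b hne h := rt_indep β γ a b hne h
  lexpos := lexpos
  cr_rt := cr_rt
  cr_sep := cr_sep
  refl_rt := refl_rt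
  E_supp := E_supp
  E_ne := E_ne
  dep_pos := dep_pos
  mul g h hg hh := (isG_iff _).2 (Gc_mul ((isG_iff _).1 hg) ((isG_iff _).1 hh))
  det g hg := ((isG_iff _).1 hg).2.2
  inv g hg := (isG_iff _).2 (Gc_inv ((isG_iff _).1 hg))
  torus t := (isG_iff _).2 (Gc_torus t)
  exp Z := (isG_iff _).2 (exp_Y Z)
  conj g x Z hg hup := conj' g x Z ((isG_iff _).1 hg) hup
  levi g hg hup := levi' g ((isG_iff _).1 hg) hup
  cent g x hg hx hc := cent' g x ((isG_iff _).1 hg) hx hc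
  weyl β := by
    obtain ⟨w, π, h1, h2, h3⟩ := weyl' β
    exact ⟨w, π, (isG_iff _).2 h1, h2, h3⟩
  iwa V hV g hg := by
    obtain ⟨k, b, h1, h2, h3, h4, h5⟩ := iwa' V hV g ((isG_iff _).1 hg)
    exact ⟨k, b, (isG_iff _).2 h1, h2, (isG_iff _).2 h3, h4, h5⟩
  px_G := (isG_iff _).2 (pG_mem _)
  px_conj := by
    have h2 : (DG.Y (fun β => MvPolynomial.C (DG.ze β)) + DG.Dx MvPolynomial.X :
        Matrix (Fin 7) (Fin 7) (MvPolynomial (Fin 2) ℂ)) =
        em _ 7 + Matrix.diagonal fun i => ev (wtG i) MvPolynomial.X := by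
      congr 1
      exact e_eq (R := MvPolynomial (Fin 2) ℂ)
    rw [h2]
    exact conjP
  sx_mem x := by
    rw [sx_eval]
    exact sx_mem' x
  sx_surj s hs := by
    obtain ⟨x, hx⟩ := sx_surj' s hs
    exact ⟨x, by rw [sx_eval]; exact hx⟩
  sx_refl β x := by
    rw [sx_eval, sx_eval]
    exact sG_refl β x
  nonss := nonss'
  zc := zc

/-- The columns `0` and `0, 1`. -/
def GG2 : Gens 7 (Fin 2) where
  m k := (k : ℕ) + 1
  J k := Fin.castLE (by have := k.2; omega)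

/-- The weights of the generators are the fundamental weights `(1, 0)` and `(2, -1)`. -/
theorem lam_eq (k : Fin 2) : GG2.lam DG k = ![![1, 0], ![2, -1]] k := by
  fin_cases k
  · show ∑ j : Fin 1, wtG (Fin.castLE (by omega) j) = ![1, 0]
    rw [Fin.sum_univ_one]
    rfl
  · show ∑ j : Fin 2, wtG (Fin.castLE (by omega) j) = ![2, -1]
    rw [Fin.sum_univ_two]
    funext i
    fin_cases i <;> rfl

/-- the lexicographic order on `ℤ^2` -/
theorem lex_lt {a b : Fin 2 → ℤ} (h : a 0 < b 0 ∨ (a 0 = b 0 ∧ a 1 < b 1)) :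
    toLex a < toLex b := by
  rcases h with h | ⟨h1, h2⟩
  · exact ⟨0, fun j hj => absurd hj (by simp), h⟩
  · refine ⟨1, fun j hj => ?_, h2⟩
    have hj' : j < (1 : Fin 2) := hj
    have : j = 0 := by omega
    subst this
    exact h1

theorem ev_two {R : Type*} [CommRing R] (μ : Fin 2 → ℤ) (x : Fin 2 → R) :
    ev μ x = (μ 0 : R) * x 0 + (μ 1 : R) * x 1 := by
  unfold ev
  rw [Fin.sum_univ_two]

theorem cr_lam (k : Fin 2) (β : Fin 6) : ev (crG β) ((![![1, 0], ![2, -1]] : Fin 2 → Fin 2 → ℤ) k) =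
    (![![1, 0, 1, 2, 1, 1], ![0, 1, 3, 3, 1, 2]] : Fin 2 → Fin 6 → ℤ) k β := by
  rw [ev_two]
  revert k β
  decide

theorem cr_lam_nonneg (k : Fin 2) (β : Fin 6) :
    0 ≤ (![![1, 0, 1, 2, 1, 1], ![0, 1, 3, 3, 1, 2]] : Fin 2 → Fin 6 → ℤ) k β := by
  revert k β
  decide

theorem wt_lt1 (i : Fin 7) (hi : i ≠ 0) :
    wtG i 0 < 1 ∨ (wtG i 0 = 1 ∧ wtG i 1 < 0) := by
  revert i
  decide

theorem wt_lt2 (i j : Fin 7) (hij : i ≠ j) : (wtG i 0 + wtG j 0 < 2 ∨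
    (wtG i 0 + wtG j 0 = 2 ∧ wtG i 1 + wtG j 1 < -1)) ∨ (i = 0 ∧ j = 1) ∨ (i = 1 ∧ j = 0) := by
  revert i j
  decide

theorem ev_wt (x : Fin 2 → ℂ) (i : Fin 7) : ev (wtG i) x =
    (![x 0, x 0 - x 1, x 1, 0, -x 1, x 1 - x 0, -x 0] : Fin 7 → ℂ) i := by
  rw [ev_two]
  fin_cases i <;> simp [wtG] <;> ring

theorem ev_rt (x : Fin 2 → ℂ) (β : Fin 6) : ev (rtG β) x =
    (![x 1, x 0 - 2 * x 1, x 0 - x 1, x 0, x 0 + x 1, 2 * x 0 - x 1] : Fin 6 → ℂ) β := by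
  rw [ev_two]
  fin_cases β <;> simp [rtG] <;> ring

theorem prod1 (x : Fin 2 → ℂ) : (∏ i : Fin 7, ∏ j : Fin 7, if (i : ℕ) < 0 + 1 ∧ 0 + 1 ≤ (j : ℕ) then
      ev (wtG i) x - ev (wtG j) x else 1) = 2 * ∏ β : Fin 6, ev (rtG β) x ^
      ((![1, 0, 1, 2, 1, 1] : Fin 6 → ℤ) β).toNat := by
  rw [Fin.prod_univ_seven, Fin.prod_univ_six]
  simp only [Fin.prod_univ_seven, ev_wt, ev_rt]
  simp
  ring

theorem prod2 (x : Fin 2 → ℂ) : (∏ i : Fin 7, ∏ j : Fin 7, if (i : ℕ) < 1 + 1 ∧ 1 + 1 ≤ (j : ℕ) then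
      ev (wtG i) x - ev (wtG j) x else 1) = 4 * ∏ β : Fin 6, ev (rtG β) x ^
      ((![0, 1, 3, 3, 1, 2] : Fin 6 → ℤ) β).toNat := by
  rw [Fin.prod_univ_seven, Fin.prod_univ_six]
  simp only [Fin.prod_univ_seven, ev_wt, ev_rt]
  simp
  ring

theorem hlt1 (r : Fin 1 → Fin 7) : toLex (∑ j, wtG (r j)) < toLex (![1, 0] : Fin 2 → ℤ) ∨
    ∃ π : Equiv.Perm (Fin 1), r = fun j => Fin.castLE (by omega) (π j) := by
  by_cases h : r 0 = 0
  · right
    refine ⟨1, ?_⟩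
    funext j
    have hj : j = 0 := Subsingleton.elim _ _
    subst hj
    exact h
  · left
    apply lex_lt
    rw [Fin.sum_univ_one]
    exact wt_lt1 _ h

theorem hlt2 (r : Fin 2 → Fin 7) (hr : Function.Injective r) :
    toLex (∑ j, wtG (r j)) < toLex (![2, -1] : Fin 2 → ℤ) ∨
    ∃ π : Equiv.Perm (Fin 2), r = fun j => Fin.castLE (by omega) (π j) := by
  have h01 : r 0 ≠ r 1 := fun h => absurd (hr h) (by decide)
  rcases wt_lt2 _ _ h01 with h | ⟨h0, h1⟩ | ⟨h0, h1⟩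
  · left
    apply lex_lt
    rw [Fin.sum_univ_two]
    exact h
  · right
    refine ⟨1, ?_⟩
    funext j
    fin_cases j
    · exact h0
    · exact h1
  · right
    refine ⟨Equiv.swap 0 1, ?_⟩
    funext j
    fin_cases j
    · exact h0
    · exact h1

theorem e_eq' : DG.e = em ℂ 7 := e_eq (R := ℂ)

/-- Compare `TA.gax` in TA3.lean: `minor_castLE` for the minors, `top_GL` (GLtop.lean) with
`c0 = 2, 4` for the top elements: `∏_{j ≥ 1} (w_0 - w_j) = 2 Eu`, and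
`∏_{i < 2 ≤ j} (w_i - w_j) = 4 Eu`; a dominant `μ` is `(μ_0 + 2 μ_1) (1, 0) - μ_1 (2, -1)`. -/
theorem gax : GAx DG GG2 where
  J_inj k := Fin.castLE_injective (show (k : ℕ) + 1 ≤ 7 by have := k.2; omega)
  minor k K _ _ g b _ hb I :=
    minor_castLE (show (k : ℕ) + 1 ≤ 7 by have := k.2; omega) g b hb I
  dom k β := by
    rw [lam_eq]
    show 0 ≤ ev (crG β) _
    rw [cr_lam]
    exact cr_lam_nonneg k β
  lpos k := by
    rw [lam_eq]
    refine le_of_lt (lex_lt (Or.inl ?_))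
    revert k
    decide
  cone := by
    refine ⟨1, one_pos, fun μ hμ => ?_⟩
    have h0 := hμ 0
    have h1 := hμ 1
    change 0 ≤ ev (crG 0) μ at h0
    change 0 ≤ ev (crG 1) μ at h1
    rw [ev_two] at h0 h1
    have e0 : crG 0 0 = 1 := rfl
    have e1 : crG 0 1 = 2 := rfl
    have e2 : crG 1 0 = 0 := rfl
    have e3 : crG 1 1 = -1 := rfl
    rw [e0, e1] at h0
    rw [e2, e3] at h1
    simp only [Int.cast_id] at h0 h1
    refine ⟨![(μ 0 + 2 * μ 1).toNat, (-μ 1).toNat], ?_⟩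
    rw [one_smul, Fin.sum_univ_two, lam_eq, lam_eq]
    funext i
    have a0 : (((μ 0 + 2 * μ 1).toNat : ℕ) : ℤ) = μ 0 + 2 * μ 1 := Int.toNat_of_nonneg (by omega)
    have a1 : (((-μ 1).toNat : ℕ) : ℤ) = -μ 1 := Int.toNat_of_nonneg (by omega)
    fin_cases i
    · show μ 0 = (μ 0 + 2 * μ 1).toNat • (1 : ℤ) + (-μ 1).toNat • (2 : ℤ)
      rw [nsmul_eq_mul, nsmul_eq_mul, a0, a1]
      ring
    · show μ 1 = (μ 0 + 2 * μ 1).toNat • (0 : ℤ) + (-μ 1).toNat • (-1 : ℤ)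
      rw [nsmul_eq_mul, nsmul_eq_mul, a0, a1]
      ring
  top b k I := by
    have hk := k.2
    refine top_GL ax e_eq' (pG_lowUni _) (fun s hs => ?_) (fun x hx => ev_inj x hx)
      ((k : ℕ) + 1) (by omega) (GG2.lam DG k) rfl ?_ (![2, 4] k) ?_ ?_ b I
    · obtain ⟨a, rfl⟩ := slice_eq s hs
      exact isHess_Slk (by decide) a
    · rw [lam_eq]
      fin_cases k
      · exact fun r _ => hlt1 r
      · exact fun r hr => hlt2 r hr
    · fin_cases k
      · norm_num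
      · norm_num
    · intro x
      unfold Eu
      rw [lam_eq]
      have hE : ∀ β : Fin 6, ev (DG.rt β) x ^ (ev (DG.cr β)
          ((![![1, 0], ![2, -1]] : Fin 2 → Fin 2 → ℤ) k)).toNat = ev (rtG β) x ^
          ((![![1, 0, 1, 2, 1, 1], ![0, 1, 3, 3, 1, 2]] : Fin 2 → Fin 6 → ℤ) k β).toNat := by
        intro β
        rw [← cr_lam]
        rfl
      rw [Finset.prod_congr rfl fun β _ => hE β]
      fin_cases k
      · exact prod1 x
      · exact prod2 x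

/-- **Finite generation of the Moore–Tachikawa rings of `G_2`.** -/
theorem mt_fg (b : ℕ) : (MTR DG.Gs sliceG b).FG :=
  Pool.Agent.MTD.mt_fg ax gax b

end Pool.Agent.MTD.G2
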