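import Pool.Agent.MTD.P0
import Pool.Agent.MTD.TA3
import Pool.Agent.MTD.TGD
import Pool.Agent.MTD.X9
import Pool.Agent.MP_c45d35_ag.FinC

/-! # MTD : the classical groups (row P5) -/

namespace Pool.Agent.MTD

open Matrix

theorem p5_prod {N : ℕ} (H : Subgroup (Matrix (Fin N) (Fin N) ℂ)ˣ) {b : ℕ} (h : Fin b → H) :
    ((List.ofFn h).prod).1.1 = (List.ofFn fun a => (h a).1.1).prod := by
  have h1 := map_list_prod ((Units.coeHom (Matrix (Fin N) (Fin N) ℂ)).comp H.subtype) (List.ofFn h)
  rw [List.map_ofFn] at h1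
  exact h1

/-- Transfer between the two descriptions of the Moore–Tachikawa ring of a matrix group: `H` is
the group of units with matrix in the set `X`.

PROOF.  `e : H ≃ X` (the units whose matrix lies in `X`), hence an algebra isomorphism between the
functions on `(Fin b → X) × S` and on `(Fin b → H) × S`, which maps `MTR X S b` onto the ring on
the left: the functions given by a polynomial in the entries are the functions in the algebra
generated by the entries (`MvPolynomial.aeval`, `Algebra.adjoin_range_eq_range_aeval`; the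
generators of `RegF` are functions `f (y.1 a)` with `f` in an `adjoin`: use
`Algebra.adjoin_induction`), and products of units are products of matrices
(`(List.ofFn h).prod`: `Units.coeHom`, `map_list_prod`, `List.map_ofFn`). -/
theorem transfer {N : ℕ} (X S : Set (Matrix (Fin N) (Fin N) ℂ))
    (H : Subgroup (Matrix (Fin N) (Fin N) ℂ)ˣ) (hH : ∀ g, g ∈ H ↔ g.1 ∈ X)
    (hX : ∀ g ∈ X, IsUnit g) (b : ℕ) (h : (MTR X S b).FG) :
    (MT (Algebra.adjoin ℂ (Set.range fun ij : Fin N × Fin N => fun g : H => g.1.1 ij.1 ij.2))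
      (Algebra.adjoin ℂ (Set.range fun ij : Fin N × Fin N => fun s : S => s.1 ij.1 ij.2))
      (fun s : S => {g : H | Commute g.1.1 s.1}) b).FG := by
  -- the bijection
  have hu : ∀ x : X, (hX x.1 x.2).unit ∈ H := fun x => (hH _).2 (by rw [IsUnit.unit_spec]; exact x.2)
  obtain ⟨e, he⟩ : ∃ e : H ≃ X, ∀ g, (e g).1 = g.1.1 :=
    ⟨{ toFun := fun g => ⟨g.1.1, (hH g.1).1 g.2⟩
       invFun := fun x => ⟨(hX x.1 x.2).unit, hu x⟩
       left_inv := fun g => Subtype.ext (Units.ext (IsUnit.unit_spec (hX g.1.1 ((hH g.1).1 g.2))))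
       right_inv := fun x => Subtype.ext (IsUnit.unit_spec (hX x.1 x.2)) }, fun _ => rfl⟩
  have he' : ∀ x, (e.symm x).1.1 = x.1 := by
    intro x
    rw [← he, Equiv.apply_symm_apply]
  obtain ⟨ψ, hψ⟩ : ∃ ψ : (((Fin b → X) × S) → ℂ) →ₐ[ℂ] (((Fin b → H) × S) → ℂ),
      ∀ F y, ψ F y = F (fun a => e (y.1 a), y.2) :=
    ⟨{ toFun := fun F y => F (fun a => e (y.1 a), y.2)
       map_one' := rfl
       map_mul' := fun _ _ => rfl
       map_zero' := rfl
       map_add' := fun _ _ => rfl
       commutes' := fun _ => rfl }, fun _ _ => rfl⟩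
  obtain ⟨OG, hOG⟩ : ∃ OG : Subalgebra ℂ (H → ℂ), OG = Algebra.adjoin ℂ
    (Set.range fun ij : Fin N × Fin N => fun g : H => g.1.1 ij.1 ij.2) := ⟨_, rfl⟩
  obtain ⟨OS, hOS⟩ : ∃ OS : Subalgebra ℂ (S → ℂ), OS = Algebra.adjoin ℂ
    (Set.range fun ij : Fin N × Fin N => fun s : S => s.1 ij.1 ij.2) := ⟨_, rfl⟩
  rw [← hOG, ← hOS]
  -- polynomial functions
  obtain ⟨φ, hφ⟩ : ∃ φ : MvPolynomial (Pool.Agent.MP_c45d35_ag.Idx N b) ℂ →ₐ[ℂ] (((Fin b → H) × S) → ℂ),
    φ = MvPolynomial.aeval fun i => fun y : (Fin b → H) × S => co (fun a => (y.1 a).1.1) y.2.1 i :=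
    ⟨_, rfl⟩
  have hφe : ∀ P y, φ P y = MvPolynomial.eval (co (fun a => (y.1 a).1.1) y.2.1) P := by
    intro P y
    have h2 : φ P y = (Pi.evalAlgHom ℂ (fun _ : (Fin b → H) × S => ℂ) y) (φ P) := rfl
    rw [h2, hφ, Pool.Agent.MP_c45d35_ag.BlockL.hom_aeval, Pool.Agent.MP_c45d35_ag.BlockL.aeval_eval]
    rfl
  have hφX : ∀ i, φ (MvPolynomial.X i) = fun y : (Fin b → H) × S => co (fun a => (y.1 a).1.1) y.2.1 i := by
    intro i
    rw [hφ, MvPolynomial.aeval_X]
  have hreg : RegF OG OS b = φ.range := by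
    apply le_antisymm
    · unfold RegF
      refine Algebra.adjoin_le ?_
      rintro F (⟨a, f, hf, rfl⟩ | ⟨f, hf, rfl⟩)
      · obtain ⟨ρ, hρ⟩ : ∃ ρ : (H → ℂ) →ₐ[ℂ] (((Fin b → H) × S) → ℂ), ∀ f y, ρ f y = f (y.1 a) :=
          ⟨{ toFun := fun f y => f (y.1 a)
             map_one' := rfl
             map_mul' := fun _ _ => rfl
             map_zero' := rfl
             map_add' := fun _ _ => rfl
             commutes' := fun _ => rfl }, fun _ _ => rfl⟩
        have h1 : OG ≤ φ.range.comap ρ := by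
          rw [hOG]
          refine Algebra.adjoin_le ?_
          rintro g ⟨ij, rfl⟩
          refine ⟨MvPolynomial.X (Sum.inl (a, ij.1, ij.2)), ?_⟩
          show φ _ = ρ _
          rw [hφX]
          funext y
          rw [hρ]
          rfl
        have h2 := h1 hf
        have h3 : ρ f = fun y => f (y.1 a) := funext fun y => hρ f y
        rw [← h3]
        exact h2
      · obtain ⟨ρ, hρ⟩ : ∃ ρ : (S → ℂ) →ₐ[ℂ] (((Fin b → H) × S) → ℂ), ∀ f y, ρ f y = f y.2 :=
          ⟨{ toFun := fun f y => f y.2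
             map_one' := rfl
             map_mul' := fun _ _ => rfl
             map_zero' := rfl
             map_add' := fun _ _ => rfl
             commutes' := fun _ => rfl }, fun _ _ => rfl⟩
        have h1 : OS ≤ φ.range.comap ρ := by
          rw [hOS]
          refine Algebra.adjoin_le ?_
          rintro g ⟨ij, rfl⟩
          refine ⟨MvPolynomial.X (Sum.inr (ij.1, ij.2)), ?_⟩
          show φ _ = ρ _
          rw [hφX]
          funext y
          rw [hρ]
          rfl
        have h2 := h1 hf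
        have h3 : ρ f = fun y => f y.2 := funext fun y => hρ f y
        rw [← h3]
        exact h2
    · rw [hφ, ← Algebra.adjoin_range_eq_range_aeval]
      refine Algebra.adjoin_le ?_
      rintro F ⟨i, rfl⟩
      rcases i with ⟨a, i, j⟩ | ⟨i, j⟩
      · refine Algebra.subset_adjoin (Or.inl ⟨a, fun g : H => g.1.1 i j, ?_, rfl⟩)
        rw [hOG]
        exact Algebra.subset_adjoin ⟨(i, j), rfl⟩
      · refine Algebra.subset_adjoin (Or.inr ⟨fun s : S => s.1 i j, ?_, rfl⟩)
        rw [hOS]
        exact Algebra.subset_adjoin ⟨(i, j), rfl⟩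
  have hmap : MT OG OS (fun s : S => {g : H | Commute g.1.1 s.1}) b = (MTR X S b).map ψ := by
    ext F
    rw [Subalgebra.mem_map]
    constructor
    · rintro ⟨h1, h2⟩
      rw [hreg] at h1
      obtain ⟨P, hP⟩ := h1
      have hP' : ∀ y, F y = MvPolynomial.eval (co (fun a => (y.1 a).1.1) y.2.1) P := by
        intro y
        rw [← hφe]
        exact (congrFun hP y).symm
      refine ⟨fun y => F (fun a => e.symm (y.1 a), y.2), ⟨⟨P, ?_⟩, ?_⟩, ?_⟩
      · intro y
        show F (fun a => e.symm (y.1 a), y.2) = _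
        rw [hP']
        have h4 : (fun a => (e.symm (y.1 a)).1.1) = fun a => (y.1 a).1 := funext fun a => he' _
        show MvPolynomial.eval (co (fun a => (e.symm (y.1 a)).1.1) y.2.1) P = _
        rw [h4]
      · intro y y' k hk hprod hs hg
        show F (fun a => e.symm (y'.1 a), y'.2) = F (fun a => e.symm (y.1 a), y.2)
        obtain ⟨k', hk'⟩ : ∃ k' : Fin b → H, ∀ a, (k' a).1.1 = k a :=
          ⟨fun a => e.symm ⟨k a, (hk a).1⟩, fun a => he' _⟩
        have h3 := h2 (fun a => e.symm (y.1 a)) k' y.2 (fun a => by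
          show Commute (k' a).1.1 y.2.1
          rw [hk']
          exact (hk a).2) (by
          apply Subtype.ext
          apply Units.ext
          rw [p5_prod]
          simp only [hk']
          rw [hprod]
          rfl)
        rw [← h3, hs]
        congr 1
        refine Prod.ext ?_ rfl
        funext a
        apply Subtype.ext
        apply Units.ext
        show (e.symm (y'.1 a)).1.1 = (e.symm (y.1 a)).1.1 * (k' a).1.1
        rw [he', he', hk', hg]
      · funext y
        show ψ _ y = F y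
        rw [hψ]
        show F (fun a => e.symm (e (y.1 a)), y.2) = F y
        simp only [Equiv.symm_apply_apply]
    · rintro ⟨F', ⟨⟨P, hP⟩, h2⟩, rfl⟩
      refine ⟨?_, ?_⟩
      · rw [hreg]
        refine ⟨P, ?_⟩
        funext y
        show φ P y = ψ F' y
        rw [hφe, hψ, hP]
        have h4 : (fun a => (e (y.1 a)).1) = fun a => (y.1 a).1.1 := funext fun a => he _
        show _ = MvPolynomial.eval (co (fun a => (e (y.1 a)).1) y.2.1) P
        rw [h4]
      · intro g k s hk hprod
        show ψ F' (g * k, s) = ψ F' (g, s)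
        rw [hψ, hψ]
        refine h2 (fun a => e (g a), s) (fun a => e ((g * k) a), s) (fun a => (k a).1.1) (fun a => ⟨?_, hk a⟩)
          ?_ rfl fun a => ?_
        · exact (hH _).1 (k a).2
        · rw [← p5_prod, hprod]
          rfl
        · show (e ((g * k) a)).1 = (e (g a)).1 * (k a).1.1
          rw [he, he]
          rfl
  rw [hmap]
  exact h.map ψ

/-- Finite generation for the classical groups: `transfer`, with `(MTR X S b).FG` from
`TA.mt_fg` (`(DA n).Gs` is defined by the equation `det = 1`), `Pool.Agent.MP_c45d35_ag.mt_fg`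
(for `{g | IsG g}` and `slice N`, where `IsG g` is `gᵀ J g = J ∧ (Odd N → g.det = 1)`; the ring
`MTring N b` unfolds to `MTR {g | IsG g} (slice N) b`) and `TD.mt_fg` (`(DD n).Gs` is defined by
the equations `sd g * g = 1`, `det g = 1`). -/
theorem cl_fg (c : Cl) (b : ℕ) : (MT c.OG c.OS c.Z b).FG := by
  have key : (MTR c.gset c.slice b).FG → (MT c.OG c.OS c.Z b).FG := fun h =>
    transfer c.gset c.slice c.grp (fun g => Iff.rfl) (fun g hg => Cl.isUnit_of_mem hg) b h
  apply key
  cases c with
  | A n =>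
    have h1 : (Cl.A n).gset = (TA.DA n).Gs := by
      ext g
      exact (TA.isG_iff g).symm
    rw [h1]
    exact TA.mt_fg n b
  | B n =>
    have h1 : (Cl.B n).gset = {g | Pool.Agent.MP_c45d35_ag.IsG g} := by
      ext g
      exact ⟨fun h => ⟨h.1, fun _ => h.2⟩, fun h => ⟨h.1, h.2 ⟨n, rfl⟩⟩⟩
    rw [h1]
    exact Pool.Agent.MP_c45d35_ag.mt_fg (2 * n + 1) b
  | C n =>
    have h1 : (Cl.C n).gset = {g | Pool.Agent.MP_c45d35_ag.IsG g} := by
      ext g
      exact ⟨fun h => ⟨h, fun hodd => absurd hodd (by rw [Nat.not_odd_iff_even]; exact even_two_mul n)⟩,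
        fun h => h.1⟩
    rw [h1]
    exact Pool.Agent.MP_c45d35_ag.mt_fg (2 * n) b
  | D n =>
    have h1 : (Cl.D n).gset = (TD.DD (n + 2)).Gs := by
      ext g
      exact (TD.isG_iff g).symm
    have h2 : (Cl.D n).slice = TD.sliceD (n + 2) := by
      show SDs (n + 2) = _
      unfold SDs TD.sliceD
      rw [eDn_eq (by omega), fDn_eq (by omega)]
    rw [h1, h2]
    exact TD.mt_fg (by omega) b
  | G2 =>
    have h1 : Cl.G2.gset = G2.DG.Gs := by
      ext g
      exact (G2.isG_iff g).symm
    rw [h1]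
    exact G2.mt_fg b

end Pool.Agent.MTD
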