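import Pool.Agent.MTD.TA2
import Pool.Agent.MTD.TDIwa

/-! # MTD : `G_2`, the data

`G_2 ⊂ SO_7 ⊂ SL_7` : the isometries of the form `J_{i,6-i} = (-1)^i` that preserve the alternating
3-form `x036 + x135 - x234 - x045 - 2 x126`; the principal nilpotent is `e = ∑ E_{i,i+1}`, and
`f = ∑ i (7 - i) E_{i,i-1}`. -/

namespace Pool.Agent.MTD.G2

open Matrix
open Pool.Agent.MP_c45d35_ag (chi UpUni LowUni IsHess Jm em fm)

/-- The coefficient of the monomial `x_i x_j x_k` with digits `m = ijk`, `i < j < k`, in the 3-form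
`x036 + x135 - x045 - x234 - 2 x126`. -/
def co3 (m : ℕ) : ℤ :=
  if m = 36 ∨ m = 135 then 1 else if m = 45 ∨ m = 234 then -1 else if m = 126 then -2 else 0

/-- The coefficients of the 3-form on `i < j < k`. -/
def ph0 (i j k : Fin 7) : ℤ := co3 (100 * i + 10 * j + k)

/-- Another form of the coefficients. -/
def ph0' (i j k : Fin 7) : ℤ :=
  if (i, j, k) = (0, 3, 6) ∨ (i, j, k) = (1, 3, 5) then 1
  else if (i, j, k) = (2, 3, 4) ∨ (i, j, k) = (0, 4, 5) then -1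
  else if (i, j, k) = (1, 2, 6) then -2 else 0

theorem ph0_eq (i j k : Fin 7) : ph0 i j k = ph0' i j k := by
  revert i j k
  decide

/-- The alternating 3-form `x036 + x135 - x234 - x045 - 2 x126` on basis vectors. -/
def ph (i j k : Fin 7) : ℤ :=
  ph0 i j k + ph0 j k i + ph0 k i j - ph0 j i k - ph0 i k j - ph0 k j i

section
variable {R : Type*} [CommRing R]

/-- The 3-form on the columns `i, j, k` of `g`. -/
def T3 (g : Matrix (Fin 7) (Fin 7) R) (i j k : Fin 7) : R :=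
  ∑ a, ∑ b, ∑ c, (ph a b c : R) * g a i * g b j * g c k

/-- The derivative of the 3-form in the direction of the matrix `X`. -/
def D3 (X : Matrix (Fin 7) (Fin 7) R) (i j k : Fin 7) : R :=
  ∑ a, ((ph a j k : R) * X a i + (ph i a k : R) * X a j + (ph i j a : R) * X a k)

/-- The elements of the Lie algebra `𝔤_2`. -/
def IsL (X : Matrix (Fin 7) (Fin 7) R) : Prop :=
  Xᵀ * Jm R 7 + Jm R 7 * X = 0 ∧ ∀ i j k, D3 X i j k = 0

end

/-- The equations of `G_2`. -/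
noncomputable def eqsG : Set (MvPolynomial (Fin 7 × Fin 7) ℂ) :=
  (Set.range fun ij : Fin 7 × Fin 7 =>
    (((Matrix.of fun i j => MvPolynomial.X (i, j))ᵀ * Jm (MvPolynomial (Fin 7 × Fin 7) ℂ) 7 *
      (Matrix.of fun i j => MvPolynomial.X (i, j)) :
      Matrix (Fin 7) (Fin 7) (MvPolynomial (Fin 7 × Fin 7) ℂ)) ij.1 ij.2 -
      Jm (MvPolynomial (Fin 7 × Fin 7) ℂ) 7 ij.1 ij.2)) ∪
  (Set.range fun ijk : Fin 7 × Fin 7 × Fin 7 =>
    T3 (Matrix.of fun i j => (MvPolynomial.X (i, j) : MvPolynomial (Fin 7 × Fin 7) ℂ))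
      ijk.1 ijk.2.1 ijk.2.2 - ((ph ijk.1 ijk.2.1 ijk.2.2 : ℤ) : MvPolynomial (Fin 7 × Fin 7) ℂ)) ∪
  {Matrix.det (Matrix.of fun i j => MvPolynomial.X (i, j)) - 1}

/-- The weights of `ℂ^7`. -/
def wtG : Fin 7 → Fin 2 → ℤ :=
  ![![1, 0], ![1, -1], ![0, 1], ![0, 0], ![0, -1], ![-1, 1], ![-1, 0]]

/-- The positive roots `α, β, α + β, 2α + β, 3α + β, 3α + 2β` (`α` short, `β` long). -/
def rtG : Fin 6 → Fin 2 → ℤ := ![![0, 1], ![1, -2], ![1, -1], ![1, 0], ![1, 1], ![2, -1]]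

/-- The coroots. -/
def crG : Fin 6 → Fin 2 → ℤ := ![![1, 2], ![0, -1], ![1, -1], ![2, 1], ![1, 1], ![1, 0]]

/-- The heights. -/
def depG : Fin 6 → ℕ := ![1, 1, 2, 3, 4, 5]

/-- The root vectors of the positive roots. -/
def EG : Fin 6 → Matrix (Fin 7) (Fin 7) ℂ := ![
  Matrix.of fun i j => if (i, j) = (0, 1) ∨ (i, j) = (2, 3) ∨ (i, j) = (3, 4) ∨ (i, j) = (5, 6) then 1
    else 0,
  Matrix.of fun i j => if (i, j) = (1, 2) ∨ (i, j) = (4, 5) then 1 else 0,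
  Matrix.of fun i j => if (i, j) = (1, 3) ∨ (i, j) = (4, 6) then 1
    else if (i, j) = (0, 2) ∨ (i, j) = (3, 5) then -1 else 0,
  Matrix.of fun i j => if (i, j) = (0, 3) ∨ (i, j) = (3, 6) then 2
    else if (i, j) = (1, 4) ∨ (i, j) = (2, 5) then -1 else 0,
  Matrix.of fun i j => if (i, j) = (2, 6) then 1 else if (i, j) = (0, 4) then -1 else 0,
  Matrix.of fun i j => if (i, j) = (0, 5) ∨ (i, j) = (1, 6) then 1 else 0]

section
variable {R : Type*} [CommRing R]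

/-- The elements `exp(t F_γ)` of the root subgroups of the negative roots `-γ`. -/
def Lo (t : R) : Fin 6 → Matrix (Fin 7) (Fin 7) R := ![
  1 + Matrix.of fun i j => if (i, j) = (1, 0) ∨ (i, j) = (6, 5) then t
    else if (i, j) = (3, 2) ∨ (i, j) = (4, 3) then 2 * t
    else if (i, j) = (4, 2) then 2 * t ^ 2 else 0,
  1 + Matrix.of fun i j => if (i, j) = (2, 1) ∨ (i, j) = (5, 4) then t else 0,
  1 + Matrix.of fun i j => if (i, j) = (2, 0) then -t else if (i, j) = (6, 4) then t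
    else if (i, j) = (3, 1) then 2 * t else if (i, j) = (5, 3) then -(2 * t)
    else if (i, j) = (5, 1) then -(2 * t ^ 2) else 0,
  1 + Matrix.of fun i j => if (i, j) = (3, 0) ∨ (i, j) = (6, 3) then 2 * t
    else if (i, j) = (4, 1) ∨ (i, j) = (5, 2) then -(2 * t)
    else if (i, j) = (6, 0) then 2 * t ^ 2 else 0,
  1 + Matrix.of fun i j => if (i, j) = (4, 0) then -t else if (i, j) = (6, 2) then t else 0,
  1 + Matrix.of fun i j => if (i, j) = (5, 0) ∨ (i, j) = (6, 1) then t else 0]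

end

/-- The Slodowy slice `e + 𝔤_f` of `𝔤_2`. -/
def sliceG : Set (Matrix (Fin 7) (Fin 7) ℂ) := {s | IsL s ∧ Commute (s - em ℂ 7) (fm ℂ 7)}

section
variable {R : Type*} [CommRing R] [Algebra ℂ R]

/-- The invariant of degree 2. -/
def qG (x : Fin 2 → R) : R := x 0 ^ 2 - x 0 * x 1 + x 1 ^ 2

/-- The invariant of degree 6. -/
def dG (x : Fin 2 → R) : R := x 0 ^ 2 * x 1 ^ 2 * (x 0 - x 1) ^ 2

/-- The coefficients of the slice element. -/
noncomputable def aG (x : Fin 2 → R) : Fin 2 → R := ![algebraMap ℂ R (1 / 28) * qG x,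
  algebraMap ℂ R (1 / 86400) * (algebraMap ℂ R (1 / 2) * dG x - algebraMap ℂ R (18 / 343) * qG x ^ 3)]

/-- The slice element with parameter `x`. -/
noncomputable def sG (x : Fin 2 → R) : Matrix (Fin 7) (Fin 7) R := Slk 7 ![1, 5] (aG x)

/-- The conjugator from `e + x` to the slice element. -/
noncomputable def pG (x : Fin 2 → R) : Matrix (Fin 7) (Fin 7) R :=
  Lo (algebraMap ℂ R (9 / 7) * x 0 ^ 5 - algebraMap ℂ R (45 / 14) * x 0 ^ 4 * x 1 +
      algebraMap ℂ R (27 / 7) * x 0 ^ 3 * x 1 ^ 2 - algebraMap ℂ R (18 / 7) * x 0 ^ 2 * x 1 ^ 3 +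
      algebraMap ℂ R (9 / 14) * x 0 * x 1 ^ 4) 5 *
  (Lo (algebraMap ℂ R (187 / 98) * x 0 ^ 4 - algebraMap ℂ R (187 / 49) * x 0 ^ 3 * x 1 +
      algebraMap ℂ R (169 / 98) * x 0 ^ 2 * x 1 ^ 2 + algebraMap ℂ R (9 / 49) * x 0 * x 1 ^ 3 -
      algebraMap ℂ R (9 / 98) * x 1 ^ 4) 4 *
  (Lo (algebraMap ℂ R (1 / 2) * (-(2 * x 0 ^ 3) + 3 * x 0 ^ 2 * x 1 - x 0 * x 1 ^ 2)) 3 *
  (Lo (algebraMap ℂ R (1 / 14) * (17 * x 0 ^ 2 - 17 * x 0 * x 1 + 3 * x 1 ^ 2)) 2 *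
  (Lo (2 * x 0 - x 1) 1 * Lo (x 0) 0))))

end

/-- The data of `G_2`. -/
noncomputable def DG : Dat 2 7 (Fin 6) where
  eqs := eqsG
  wt := wtG
  rt := rtG
  cr := crG
  dep := depG
  E := EG
  ze := ![1, 1, 0, 0, 0, 0]
  S := sliceG
  sx := sG MvPolynomial.X
  px := pG MvPolynomial.X

end Pool.Agent.MTD.G2
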