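
import Pool.Agent.MTD.X0

/-! # MTD : exponentials of elements of `𝔤_2` lie in `G_2` -/

namespace Pool.Agent.MTD.G2

open Matrix

section alg
variable {R : Type*} [CommRing R]

theorem p6g_vec (v : Fin 7 → R) (X g : Matrix (Fin 7) (Fin 7) R) (i : Fin 7) :
    ∑ a, v a * (X * g) a i = ∑ a, (∑ l, v l * X l a) * g a i := by
  calc ∑ a, v a * (X * g) a i = ∑ a, ∑ l, v a * X a l * g l i := by
        refine Finset.sum_congr rfl fun a _ => ?_
        rw [Matrix.mul_apply, Finset.mul_sum]
        exact Finset.sum_congr rfl fun l _ => by ring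
    _ = ∑ l, ∑ a, v a * X a l * g l i := Finset.sum_comm
    _ = _ := Finset.sum_congr rfl fun l _ => by rw [Finset.sum_mul]

theorem p6g_3 (F : Fin 7 → Fin 7 → Fin 7 → R) : ∑ a, ∑ b, ∑ c, F a b c = ∑ b, ∑ c, ∑ a, F a b c := by
  rw [Finset.sum_comm]
  exact Finset.sum_congr rfl fun b _ => Finset.sum_comm

theorem p6g_2 (F : Fin 7 → Fin 7 → Fin 7 → R) : ∑ a, ∑ b, ∑ c, F a b c = ∑ a, ∑ c, ∑ b, F a b c :=
  Finset.sum_congr rfl fun _ _ => Finset.sum_comm

theorem T3_lin (X g : Matrix (Fin 7) (Fin 7) R) (i j k : Fin 7) :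
    ∑ a, ∑ b, ∑ c, (ph a b c : R) * ((X * g) a i * g b j * g c k + g a i * (X * g) b j * g c k +
      g a i * g b j * (X * g) c k) = ∑ a, ∑ b, ∑ c, D3 X a b c * g a i * g b j * g c k := by
  have h1 : ∑ a, ∑ b, ∑ c, (ph a b c : R) * ((X * g) a i * g b j * g c k) =
      ∑ a, ∑ b, ∑ c, (∑ l, (ph l b c : R) * X l a) * g a i * g b j * g c k := by
    rw [p6g_3, p6g_3 (fun a b c => (∑ l, (ph l b c : R) * X l a) * g a i * g b j * g c k)]
    refine Finset.sum_congr rfl fun b _ => Finset.sum_congr rfl fun c _ => ?_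
    have h := p6g_vec (fun a => (ph a b c : R)) X g i
    calc _ = (∑ a, (ph a b c : R) * (X * g) a i) * (g b j * g c k) := by
          rw [Finset.sum_mul]
          exact Finset.sum_congr rfl fun a _ => by ring
      _ = _ := by
          rw [h, Finset.sum_mul]
          exact Finset.sum_congr rfl fun a _ => by ring
  have h2 : ∑ a, ∑ b, ∑ c, (ph a b c : R) * (g a i * (X * g) b j * g c k) =
      ∑ a, ∑ b, ∑ c, (∑ l, (ph a l c : R) * X l b) * g a i * g b j * g c k := by
    rw [p6g_2, p6g_2 (fun a b c => (∑ l, (ph a l c : R) * X l b) * g a i * g b j * g c k)]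
    refine Finset.sum_congr rfl fun a _ => Finset.sum_congr rfl fun c _ => ?_
    have h := p6g_vec (fun b => (ph a b c : R)) X g j
    calc _ = (∑ b, (ph a b c : R) * (X * g) b j) * (g a i * g c k) := by
          rw [Finset.sum_mul]
          exact Finset.sum_congr rfl fun b _ => by ring
      _ = _ := by
          rw [h, Finset.sum_mul]
          exact Finset.sum_congr rfl fun b _ => by ring
  have h3 : ∑ a, ∑ b, ∑ c, (ph a b c : R) * (g a i * g b j * (X * g) c k) =
      ∑ a, ∑ b, ∑ c, (∑ l, (ph a b l : R) * X l c) * g a i * g b j * g c k := by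
    refine Finset.sum_congr rfl fun a _ => Finset.sum_congr rfl fun b _ => ?_
    have h := p6g_vec (fun c => (ph a b c : R)) X g k
    calc _ = (∑ c, (ph a b c : R) * (X * g) c k) * (g a i * g b j) := by
          rw [Finset.sum_mul]
          exact Finset.sum_congr rfl fun c _ => by ring
      _ = _ := by
          rw [h, Finset.sum_mul]
          exact Finset.sum_congr rfl fun c _ => by ring
  calc _ = ∑ a, ∑ b, ∑ c, (ph a b c : R) * ((X * g) a i * g b j * g c k) +
        ∑ a, ∑ b, ∑ c, (ph a b c : R) * (g a i * (X * g) b j * g c k) +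
        ∑ a, ∑ b, ∑ c, (ph a b c : R) * (g a i * g b j * (X * g) c k) := by
        simp only [← Finset.sum_add_distrib, mul_add]
    _ = _ := by
        rw [h1, h2, h3]
        simp only [← Finset.sum_add_distrib, D3, ← add_mul]

end alg

section an
attribute [local instance] Matrix.linftyOpNormedRing Matrix.linftyOpNormedAlgebra

theorem p6g_entry (X : Matrix (Fin 7) (Fin 7) ℂ) (t : ℂ) (a i : Fin 7) :
    HasDerivAt (fun u : ℂ => (NormedSpace.exp (u • X)) a i) ((X * NormedSpace.exp (t • X)) a i) t := by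
  have h1 : HasDerivAt (fun u : ℂ => NormedSpace.exp (u • X)) (X * NormedSpace.exp (t • X)) t :=
    hasDerivAt_exp_smul_const' X t
  exact ((Matrix.entryLinearMap ℂ ℂ a i).toContinuousLinearMap.hasFDerivAt.comp_hasDerivAt t h1)

/-- The exponential of a derivation of the 3-form preserves the 3-form. -/
theorem exp_T3C (X : Matrix (Fin 7) (Fin 7) ℂ) (hX : ∀ i j k, D3 X i j k = 0) (t : ℂ) (i j k : Fin 7) :
    T3 (NormedSpace.exp (t • X)) i j k = (ph i j k : ℂ) := by
  have h1 : ∀ t : ℂ, HasDerivAt (fun u : ℂ => T3 (NormedSpace.exp (u • X)) i j k) 0 t := by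
    intro t
    have h2 : HasDerivAt (fun u : ℂ => T3 (NormedSpace.exp (u • X)) i j k)
        (∑ a, ∑ b, ∑ c, (ph a b c : ℂ) * ((X * NormedSpace.exp (t • X)) a i *
          NormedSpace.exp (t • X) b j * NormedSpace.exp (t • X) c k +
          NormedSpace.exp (t • X) a i * (X * NormedSpace.exp (t • X)) b j *
          NormedSpace.exp (t • X) c k + NormedSpace.exp (t • X) a i * NormedSpace.exp (t • X) b j *
          (X * NormedSpace.exp (t • X)) c k)) t := by
      unfold T3
      refine HasDerivAt.fun_sum fun a _ => HasDerivAt.fun_sum fun b _ => HasDerivAt.fun_sum fun c _ => ?_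
      refine (((p6g_entry X t a i).const_mul (ph a b c : ℂ)).mul (p6g_entry X t b j)).mul
        (p6g_entry X t c k) |>.congr_deriv ?_
      rw [Pi.mul_apply]
      ring
    refine h2.congr_deriv ?_
    rw [T3_lin]
    simp only [hX, zero_mul, Finset.sum_const_zero]
  have hc := is_const_of_deriv_eq_zero (f := fun u : ℂ => T3 (NormedSpace.exp (u • X)) i j k)
    (fun t => (h1 t).differentiableAt) (fun t => (h1 t).deriv) t 0
  simp only [zero_smul, NormedSpace.exp_zero] at hc
  rw [hc]
  unfold T3
  simp only [Matrix.one_apply, mul_ite, mul_one, mul_zero, Finset.sum_ite_eq', Finset.mem_univ,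
    if_true, ite_mul, zero_mul]

end an

end Pool.Agent.MTD.G2
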