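import Pool.Agent.MTD.P0
import Pool.Agent.MTD.P6G

/-! # MTD : central elements commute with the slice (row P6) -/

namespace Pool.Agent.MTD

open Matrix
open Pool.Agent.MP_c45d35_ag (Jm)

section det
attribute [local instance] Matrix.linftyOpNormedRing Matrix.linftyOpNormedAlgebra

theorem p6_det_diff {N : ℕ} : Differentiable ℂ (fun M : Matrix (Fin N) (Fin N) ℂ => M.det) := by
  have h1 : ∀ i j : Fin N, ContDiff ℂ 1 (fun M : Matrix (Fin N) (Fin N) ℂ => M i j) := by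
    intro i j
    exact (Matrix.entryLinearMap ℂ ℂ i j).toContinuousLinearMap.contDiff
  have h2 : ContDiff ℂ 1 (fun M : Matrix (Fin N) (Fin N) ℂ => M.det) := by
    simp only [Matrix.det_apply']
    apply ContDiff.sum
    intro σ _
    apply ContDiff.mul contDiff_const
    apply contDiff_prod
    intro i _
    exact h1 (σ i) i
  exact h2.differentiable one_ne_zero

theorem p6_hasDeriv_exp {N : ℕ} (X : Matrix (Fin N) (Fin N) ℂ) (t : ℂ) :
    HasDerivAt (fun u : ℂ => NormedSpace.exp (u • X)) (NormedSpace.exp (t • X) * X) t :=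
  hasDerivAt_exp_smul_const X t

theorem p6_fderiv_det {N : ℕ} (X : Matrix (Fin N) (Fin N) ℂ) :
    fderiv ℂ (fun M : Matrix (Fin N) (Fin N) ℂ => M.det) 1 X = X.trace := by
  have h0 : HasDerivAt (fun r : ℂ => (1 : Matrix (Fin N) (Fin N) ℂ) + r • X) X 0 := by
    have h := ((hasDerivAt_id (0 : ℂ)).smul_const X).const_add (1 : Matrix (Fin N) (Fin N) ℂ)
    exact h.congr_deriv (one_smul ℂ X)
  have h1 : HasFDerivAt (fun M : Matrix (Fin N) (Fin N) ℂ => M.det)
      (fderiv ℂ (fun M : Matrix (Fin N) (Fin N) ℂ => M.det) 1)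
      ((1 : Matrix (Fin N) (Fin N) ℂ) + (0 : ℂ) • X) := by
    rw [zero_smul, add_zero]
    exact (p6_det_diff 1).hasFDerivAt
  have h2 := h1.comp_hasDerivAt (0 : ℂ) h0
  have h3 : HasDerivAt (fun r : ℂ => ((1 : Matrix (Fin N) (Fin N) ℂ) + r • X).det) X.trace 0 := by
    have h4 : (fun r : ℂ => ((1 : Matrix (Fin N) (Fin N) ℂ) + r • X).det) = fun r : ℂ =>
        1 + X.trace * r + (Matrix.det (1 + (Polynomial.X : Polynomial ℂ) • X.map Polynomial.C)).divX.divX.eval r * r ^ 2 := by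
      funext r
      exact Matrix.det_one_add_smul r X
    rw [h4]
    have h5 := (((hasDerivAt_id (0 : ℂ)).const_mul X.trace).const_add (1 : ℂ)).add
      (((Matrix.det (1 + (Polynomial.X : Polynomial ℂ) • X.map Polynomial.C)).divX.divX.hasDerivAt (0 : ℂ)).mul
        ((hasDerivAt_id (0 : ℂ)).pow 2))
    refine h5.congr_deriv ?_
    simp
  exact h2.unique h3

/-- `det (exp X) = 1` for `X` of trace zero. -/
theorem p6_det_exp {N : ℕ} (X : Matrix (Fin N) (Fin N) ℂ) (hX : X.trace = 0) :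
    (NormedSpace.exp X).det = 1 := by
  have h0 : HasDerivAt (fun u : ℂ => (NormedSpace.exp (u • X)).det) 0 0 := by
    have h1 : HasFDerivAt (fun M : Matrix (Fin N) (Fin N) ℂ => M.det)
        (fderiv ℂ (fun M : Matrix (Fin N) (Fin N) ℂ => M.det) 1)
        (NormedSpace.exp ((0 : ℂ) • X)) := by
      rw [zero_smul, NormedSpace.exp_zero]
      exact (p6_det_diff 1).hasFDerivAt
    have h2 := h1.comp_hasDerivAt (0 : ℂ) (p6_hasDeriv_exp X 0)
    refine h2.congr_deriv ?_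
    rw [zero_smul, NormedSpace.exp_zero, one_mul]
    exact (p6_fderiv_det X).trans hX
  have hd : ∀ t : ℂ, HasDerivAt (fun u : ℂ => (NormedSpace.exp (u • X)).det) 0 t := by
    intro t
    have h1 : (fun u : ℂ => (NormedSpace.exp (u • X)).det) =
        fun u : ℂ => (NormedSpace.exp (t • X)).det * (NormedSpace.exp ((u - t) • X)).det := by
      funext u
      rw [← Matrix.det_mul, ← Matrix.exp_add_of_commute]
      · rw [← add_smul]
        congr 3
        ring
      · exact ((Commute.refl X).smul_left t).smul_right (u - t)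
    rw [h1]
    have h2 : HasDerivAt (fun u : ℂ => (NormedSpace.exp ((u - t) • X)).det) 0 t := by
      have h4 : HasDerivAt (fun u : ℂ => (NormedSpace.exp (u • X)).det) 0 (t - t) := by
        rw [sub_self]
        exact h0
      exact h4.comp_sub_const t t
    have h6 := h2.const_mul (NormedSpace.exp (t • X)).det
    refine h6.congr_deriv ?_
    rw [mul_zero]
  have hc := is_const_of_deriv_eq_zero (f := fun u : ℂ => (NormedSpace.exp (u • X)).det)
    (fun t => (hd t).differentiableAt) (fun t => (hd t).deriv) 1 0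
  simp only [one_smul, zero_smul, NormedSpace.exp_zero, Matrix.det_one] at hc
  exact hc

theorem p6_commute {N : ℕ} (m X : Matrix (Fin N) (Fin N) ℂ)
    (h : ∀ t : ℝ, Commute m (NormedSpace.exp ((t : ℂ) • X))) : Commute m X := by
  have h1 : HasDerivAt (fun t : ℝ => NormedSpace.exp ((t : ℂ) • X)) X 0 := by
    have h2 : HasDerivAt (fun u : ℝ => NormedSpace.exp (u • X)) (NormedSpace.exp ((0 : ℝ) • X) * X) 0 :=
      hasDerivAt_exp_smul_const X (0 : ℝ)
    have h3 : (fun t : ℝ => NormedSpace.exp ((t : ℂ) • X)) = fun t : ℝ => NormedSpace.exp (t • X) := by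
      funext t
      rw [Complex.coe_smul]
    rw [h3]
    refine h2.congr_deriv ?_
    rw [zero_smul, NormedSpace.exp_zero, one_mul]
  have h4 : HasDerivAt (fun t : ℝ => m * NormedSpace.exp ((t : ℂ) • X) - NormedSpace.exp ((t : ℂ) • X) * m)
      (m * X - X * m) 0 := (h1.const_mul m).sub (h1.mul_const m)
  have h5 : (fun t : ℝ => m * NormedSpace.exp ((t : ℂ) • X) - NormedSpace.exp ((t : ℂ) • X) * m) = fun _ => 0 := by
    funext t
    exact sub_eq_zero.2 (h t)
  rw [h5] at h4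
  have h6 := h4.unique (hasDerivAt_const (0 : ℝ) (0 : Matrix (Fin N) (Fin N) ℂ))
  exact sub_eq_zero.1 h6

end det

theorem p6_Jm_unit (N : ℕ) : IsUnit (Jm ℂ N) :=
  IsUnit.of_mul_eq_one _ Pool.Agent.MP_c45d35_ag.Jm_mul_transpose

/-- `exp Y` preserves the form. -/
theorem p6_J {N : ℕ} (Y : Matrix (Fin N) (Fin N) ℂ) (hY : Yᵀ * Jm ℂ N + Jm ℂ N * Y = 0) :
    (NormedSpace.exp Y)ᵀ * Jm ℂ N * NormedSpace.exp Y = Jm ℂ N := by
  have hu : IsUnit (Jm ℂ N) := p6_Jm_unit N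
  have hdet : IsUnit (Jm ℂ N).det := (Matrix.isUnit_iff_isUnit_det _).1 hu
  have h1 : Yᵀ = Jm ℂ N * (-Y) * (Jm ℂ N)⁻¹ := by
    have h2 : Yᵀ * Jm ℂ N = Jm ℂ N * (-Y) := by
      rw [mul_neg]
      exact eq_neg_of_add_eq_zero_left hY
    rw [← h2, Matrix.mul_assoc, Matrix.mul_nonsing_inv _ hdet, Matrix.mul_one]
  rw [← Matrix.exp_transpose, h1, Matrix.exp_conj _ _ hu, Matrix.mul_assoc, Matrix.mul_assoc,
    ← Matrix.mul_assoc (Jm ℂ N)⁻¹, Matrix.nonsing_inv_mul _ hdet, Matrix.one_mul, Matrix.mul_assoc,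
    ← Matrix.exp_add_of_commute _ _ (Commute.refl Y).neg_left, neg_add_cancel, NormedSpace.exp_zero,
    Matrix.mul_one]

theorem p6_J_trace {N : ℕ} (Y : Matrix (Fin N) (Fin N) ℂ) (hY : Yᵀ * Jm ℂ N + Jm ℂ N * Y = 0) :
    Y.trace = 0 := by
  have hu : IsUnit (Jm ℂ N) := p6_Jm_unit N
  have hdet : IsUnit (Jm ℂ N).det := (Matrix.isUnit_iff_isUnit_det _).1 hu
  have h2 : Yᵀ * Jm ℂ N = -(Jm ℂ N * Y) := eq_neg_of_add_eq_zero_left hY
  have h3 : Yᵀ = -(Jm ℂ N * Y * (Jm ℂ N)⁻¹) := by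
    rw [← Matrix.neg_mul, ← h2, Matrix.mul_assoc, Matrix.mul_nonsing_inv _ hdet, Matrix.mul_one]
  have h4 : Y.trace = -Y.trace := by
    conv_lhs => rw [← Matrix.trace_transpose, h3, Matrix.trace_neg, Matrix.trace_mul_comm,
      ← Matrix.mul_assoc, Matrix.nonsing_inv_mul _ hdet, Matrix.one_mul]
  have h5 : (2 : ℂ) * Y.trace = 0 := by linear_combination h4
  exact (mul_eq_zero.1 h5).resolve_left two_ne_zero

/-- the antidiagonal permutation matrix -/
def p6K (N : ℕ) : Matrix (Fin N) (Fin N) ℂ := Matrix.of fun i j => if j = Fin.rev i then 1 else 0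

theorem p6K_mul (N : ℕ) (A : Matrix (Fin N) (Fin N) ℂ) (i j : Fin N) :
    (p6K N * A) i j = A (Fin.rev i) j := by
  rw [Matrix.mul_apply, Finset.sum_eq_single (Fin.rev i)]
  · simp [p6K]
  · intro k _ hk
    simp [p6K, hk]
  · intro h
    exact absurd (Finset.mem_univ _) h

theorem p6_mul_K (N : ℕ) (A : Matrix (Fin N) (Fin N) ℂ) (i j : Fin N) :
    (A * p6K N) i j = A i (Fin.rev j) := by
  rw [Matrix.mul_apply, Finset.sum_eq_single (Fin.rev j)]
  · simp [p6K]
  · intro k _ hk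
    have : ¬ j = Fin.rev k := by
      rintro rfl
      exact hk (Fin.rev_rev k).symm
    simp [p6K, this]
  · intro h
    exact absurd (Finset.mem_univ _) h

theorem p6_K_sq (N : ℕ) : p6K N * p6K N = 1 := by
  ext i j
  rw [p6K_mul]
  simp only [p6K, Matrix.of_apply, Fin.rev_rev, Matrix.one_apply]
  by_cases h : i = j
  · rw [if_pos h.symm, if_pos h]
  · rw [if_neg (fun h' => h h'.symm), if_neg h]

theorem p6_sd (N : ℕ) (X : Matrix (Fin N) (Fin N) ℂ) : TD.sd X = p6K N * Xᵀ * (p6K N)⁻¹ := by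
  have hinv : (p6K N)⁻¹ = p6K N := Matrix.inv_eq_right_inv (p6_K_sq N)
  rw [hinv]
  ext i j
  rw [p6_mul_K, p6K_mul, Matrix.transpose_apply, TD.sd_apply]

theorem p6_sd_exp (N : ℕ) (X : Matrix (Fin N) (Fin N) ℂ) :
    TD.sd (NormedSpace.exp X) = NormedSpace.exp (TD.sd X) := by
  have hu : IsUnit (p6K N) := IsUnit.of_mul_eq_one _ (p6_K_sq N)
  rw [p6_sd, p6_sd, Matrix.exp_conj _ _ hu, Matrix.exp_transpose]

theorem p6_sd_trace (N : ℕ) (X : Matrix (Fin N) (Fin N) ℂ) : (TD.sd X).trace = X.trace := by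
  unfold Matrix.trace
  simp only [Matrix.diag_apply, TD.sd_apply]
  exact Equiv.sum_comp Fin.revPerm (fun i => X i i)

theorem p6_D {N : ℕ} (Y : Matrix (Fin N) (Fin N) ℂ) (hY : TD.sd Y = -Y) :
    TD.sd (NormedSpace.exp Y) * NormedSpace.exp Y = 1 := by
  rw [p6_sd_exp, hY, ← Matrix.exp_add_of_commute _ _ (Commute.refl Y).neg_left, neg_add_cancel,
    NormedSpace.exp_zero]

theorem p6_D_trace {N : ℕ} (Y : Matrix (Fin N) (Fin N) ℂ) (hY : TD.sd Y = -Y) : Y.trace = 0 := by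
  have h1 := p6_sd_trace N Y
  rw [hY, Matrix.trace_neg] at h1
  have h5 : (2 : ℂ) * Y.trace = 0 := by linear_combination -h1
  exact (mul_eq_zero.1 h5).resolve_left two_ne_zero

theorem p6_J_smul {N : ℕ} (X : Matrix (Fin N) (Fin N) ℂ) (hX : Xᵀ * Jm ℂ N + Jm ℂ N * X = 0) (t : ℂ) :
    (t • X)ᵀ * Jm ℂ N + Jm ℂ N * (t • X) = 0 := by
  rw [Matrix.transpose_smul, Matrix.smul_mul, Matrix.mul_smul, ← smul_add, hX, smul_zero]

theorem p6_A (N : ℕ) (X : Matrix (Fin N) (Fin N) ℂ) (hX : X ∈ SLs N) (t : ℝ) :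
    NormedSpace.exp ((t : ℂ) • X) ∈ SLg N := by
  refine p6_det_exp _ ?_
  have h1 : X.trace = 0 := hX.1
  rw [Matrix.trace_smul, h1, smul_zero]

theorem p6_B (N : ℕ) (X : Matrix (Fin N) (Fin N) ℂ) (hX : X ∈ Js N) (t : ℝ) :
    NormedSpace.exp ((t : ℂ) • X) ∈ SOg N := by
  have h1 := p6_J_smul X hX.1 (t : ℂ)
  exact ⟨p6_J _ h1, p6_det_exp _ (p6_J_trace _ h1)⟩

theorem p6_C (N : ℕ) (X : Matrix (Fin N) (Fin N) ℂ) (hX : X ∈ Js N) (t : ℝ) :
    NormedSpace.exp ((t : ℂ) • X) ∈ Spg N :=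
  p6_J _ (p6_J_smul X hX.1 (t : ℂ))

theorem p6_Dm (n : ℕ) (X : Matrix (Fin (2 * n)) (Fin (2 * n)) ℂ) (hX : X ∈ SDs n) (t : ℝ) :
    NormedSpace.exp ((t : ℂ) • X) ∈ SDg (2 * n) := by
  have h1 : TD.sd ((t : ℂ) • X) = -((t : ℂ) • X) := by
    have h2 : TD.sd X = -X := hX.1
    rw [TD.sd_smul, h2, smul_neg]
  exact ⟨p6_D _ h1, p6_det_exp _ (p6_D_trace _ h1)⟩

theorem p6_G2 (X : Matrix (Fin 7) (Fin 7) ℂ) (hX : X ∈ G2s) (t : ℝ) :
    NormedSpace.exp ((t : ℂ) • X) ∈ G2g := by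
  have h1 : ((t : ℂ) • X)ᵀ * Jm ℂ 7 + Jm ℂ 7 * ((t : ℂ) • X) = 0 := by
    rw [Matrix.transpose_smul, Matrix.smul_mul, Matrix.mul_smul, ← smul_add, hX.1.1, smul_zero]
  exact ⟨p6_J _ h1, fun i j k => G2.exp_T3C X hX.1.2 _ i j k, p6_det_exp _ (p6_J_trace _ h1)⟩

/-- `exp(tX)` lies in the group for `X` in the slice (in the Lie algebra).
`A`: `det (exp X) = exp (tr X)` (`Matrix.det_exp`); `B`, `C`, `D`: `Xᵀ J + J X = 0` gives
`exp(X)ᵀ = J exp(-X) J⁻¹` (`Matrix.exp_transpose`, `Matrix.exp_conj`, `J` is invertible: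
`Jm_mul_transpose`), and `det exp X = exp (tr X) = 1` as `tr X = 0`; for `D`: `sd X = K Xᵀ K` with
the antidiagonal permutation matrix `K`. -/
theorem exp_mem (c : Cl) (X : Matrix (Fin c.N) (Fin c.N) ℂ) (hX : X ∈ c.slice) (t : ℝ) :
    NormedSpace.exp ((t : ℂ) • X) ∈ c.gset := by
  cases c with
  | A n => exact p6_A (n + 1) X hX t
  | B n => exact p6_B (2 * n + 1) X hX t
  | C n => exact p6_C (2 * n) X hX t
  | D n => exact p6_Dm (n + 2) X hX t
  | G2 => exact p6_G2 X hX t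

/-- A matrix that commutes with `exp(tX)` for all real `t` commutes with `X` (derivative at
`t = 0`; `Matrix` has no global norm instance, use `open scoped Matrix.Norms.Operator` or
`attribute [local instance] Matrix.linftyOpNormedRing Matrix.linftyOpNormedAlgebra`). -/
theorem commute_of_exp {N : ℕ} (m X : Matrix (Fin N) (Fin N) ℂ)
    (h : ∀ t : ℝ, Commute m (NormedSpace.exp ((t : ℂ) • X))) : Commute m X :=
  p6_commute m X h

/-- **Central elements of the group commute with the points of the slice.** -/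
theorem central_comm (c : Cl) (m : c.grp) (hm : m ∈ Subgroup.center c.grp) (s : c.slice) :
    Commute m.1.1 s.1 := by
  apply commute_of_exp
  intro t
  have h1 := exp_mem c s.1 s.2 t
  obtain ⟨u, hu⟩ := Cl.isUnit_of_mem h1
  have h2 : u ∈ c.grp := by
    change u.1 ∈ c.gset
    rw [hu]
    exact h1
  have h3 := Subgroup.mem_center_iff.1 hm ⟨u, h2⟩
  have h4 : u.1 * m.1.1 = m.1.1 * u.1 := congrArg (fun g : c.grp => g.1.1) h3
  rw [← hu]
  exact h4.symm

end Pool.Agent.MTD
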