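import Pool.Agent.MTD.P3
import Pool.Agent.MTD.P4
import Pool.Agent.MTD.P5
import Pool.Agent.MTD.P6

/-! # MTD : semisimple groups with classical factors (row P7) -/

namespace Pool.Agent.MTD

open Matrix

section
variable {I : Type} [Finite I] (c : I → Cl)

theorem OGP_fg : (OGP c).FG :=
  prodAlg_fg fun _ => Subalgebra.fg_def.2 ⟨_, Set.finite_range _, rfl⟩

theorem OSP_fg : (OSP c).FG :=
  prodAlg_fg fun _ => Subalgebra.fg_def.2 ⟨_, Set.finite_range _, rfl⟩

theorem one_mem_Z (c : Cl) (s : c.slice) : 1 ∈ c.Z s := Commute.one_left _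

/-- The product of the classical groups. -/
theorem mtP_fg (b : ℕ) : (MT (OGP c) (OSP c) (ZP c) b).FG :=
  prod_fg (fun i => (c i).grp) (fun i => (c i).slice) (fun i => (c i).OG) (fun i => (c i).OS)
    (fun i => (c i).Z) (fun i s => one_mem_Z (c i) s) b fun i => cl_fg (c i) b

/-- Elements with the same image under a central isogeny centralise the same points. -/
theorem ZP_preimage {Q : Type} [Group Q] (p : (∀ i, (c i).grp) →* Q)
    (hp : p.ker ≤ Subgroup.center (∀ i, (c i).grp)) (s : ∀ i, (c i).slice) :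
    p ⁻¹' (p '' ZP c s) = ZP c s := by
  classical
  refine Set.Subset.antisymm ?_ (Set.subset_preimage_image _ _)
  rintro m ⟨m', hm', hmm⟩ i
  have hz : m * m'⁻¹ ∈ p.ker := by
    rw [MonoidHom.mem_ker, map_mul, map_inv, hmm, mul_inv_cancel]
  have hzc := Subgroup.mem_center_iff.1 (hp hz)
  have hi : (m * m'⁻¹) i ∈ Subgroup.center (c i).grp := by
    rw [Subgroup.mem_center_iff]
    intro g
    have h1 := congrFun (hzc (Pi.mulSingle i g)) i
    simpa only [Pi.mul_apply, Pi.mulSingle_eq_same] using h1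
  have h2 := central_comm (c i) _ hi (s i)
  have h3 : m i = (m * m'⁻¹) i * m' i := by
    rw [Pi.mul_apply, Pi.inv_apply, inv_mul_cancel_right]
  show Commute (m i).1.1 (s i).1
  rw [h3]
  have h4 : ((m * m'⁻¹) i * m' i).1.1 = ((m * m'⁻¹) i).1.1 * (m' i).1.1 := rfl
  rw [h4]
  exact h2.mul_left (hm' i)

/-- **Main theorem.** -/
theorem mt_semisimple {Q G : Type} [Group Q] [Group G] (OQ : Subalgebra ℂ (Q → ℂ))
    (OG : Subalgebra ℂ (G → ℂ)) (p : (∀ i, (c i).grp) →* Q) (π : G →* Q)
    (hp : CentralIsogeny (OGP c) OQ p) (hπ : CentralIsogeny OG OQ π) (hG : OG.FG) (b : ℕ) :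
    (MT OG (OSP c) (ZG c p π) b).FG := by
  have h1 : (MT OQ (OSP c) (fun s => p '' ZP c s) b).FG := by
    refine (isog_fg hp (OGP_fg c) (OSP_fg c) (fun s => p '' ZP c s) b).1 ?_
    have : (fun s => p ⁻¹' (p '' ZP c s)) = ZP c := funext fun s => ZP_preimage c p hp.central s
    rw [this]
    exact mtP_fg c b
  have h2 := (isog_fg hπ hG (OSP_fg c) (fun s => p '' ZP c s) b).2 h1
  exact h2

end

end Pool.Agent.MTD
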