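import Pool.Agent.MTD.GoodB

/-! # MTD : the one-parameter families in the centraliser

Compare `Pool/Agent/MP_c45d35_ag/PoleB.lean`, `PoleC.lean` (there with the Cayley transform; here
with the exponential). -/

namespace Pool.Agent.MTD

open Matrix Filter Topology
open Pool.Agent.MP_c45d35_ag (chi UpUni LowUni chi_add chi_mul chi_zero chi_one chi_inv chi_map
  chi_neg)

section exps
variable {n N : ℕ} {ι : Type} {D : Dat n N ι}

/-- `a_ν(x) = ν(z) exp(c ν(x))` -/
noncomputable def av (z : Fin n → ℂˣ) (c : ℂ) (ν : Fin n → ℤ) (x : Fin n → ℂ) : ℂ :=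
  ((chi ν z : ℂˣ) : ℂ) * Complex.exp (c * ev ν x)

/-- the torus element `z exp(c x)` -/
noncomputable def thu (z : Fin n → ℂˣ) (c : ℂ) (x : Fin n → ℂ) : Fin n → ℂˣ := fun k =>
  z k * Units.mk0 (Complex.exp (c * x k)) (Complex.exp_ne_zero _)

theorem chi_thu (z : Fin n → ℂˣ) (c : ℂ) (x : Fin n → ℂ) (ν : Fin n → ℤ) :
    ((chi ν (thu z c x) : ℂˣ) : ℂ) = av z c ν x := by
  have h : thu z c x = z * fun k => Units.mk0 (Complex.exp (c * x k)) (Complex.exp_ne_zero _) := rfl
  rw [h, chi_mul, Units.val_mul]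
  unfold av
  congr 1
  unfold chi
  rw [Units.coe_prod]
  simp only [Units.val_zpow_eq_zpow_val, Units.val_mk0]
  simp only [← Complex.exp_int_mul]
  rw [← Complex.exp_sum]
  congr 1
  unfold ev
  rw [Finset.mul_sum]
  exact Finset.sum_congr rfl fun k _ => by ring

theorem av_ne_zero (z : Fin n → ℂˣ) (c : ℂ) (ν : Fin n → ℤ) (x : Fin n → ℂ) : av z c ν x ≠ 0 :=
  mul_ne_zero (Units.ne_zero _) (Complex.exp_ne_zero _)

theorem av_add (z : Fin n → ℂˣ) (c : ℂ) (ν ν' : Fin n → ℤ) (x : Fin n → ℂ) :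
    av z c (ν + ν') x = av z c ν x * av z c ν' x := by
  unfold av
  rw [chi_add, ev_add_left, mul_add, Complex.exp_add]
  push_cast
  ring

theorem continuous_av (z : Fin n → ℂˣ) (c : ℂ) (ν : Fin n → ℤ) :
    Continuous fun x : Fin n → ℂ => av z c ν x := by
  unfold av ev
  fun_prop

/-- The condition of `Ax.zc` on `z`. -/
def ZC (D : Dat n N ι) (β : ι) (z : Fin n → ℂˣ) : Prop :=
  (∀ γ, chi (D.rt γ) z = 1) ∧ ∀ ν : Fin n → ℤ, (∃ a b : ℤ, a ≠ 0 ∧ a • ν = b • D.rt β) →
    chi ν z = 1 → ∃ k : ℤ, ν = k • D.rt β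

/-- existence of a good parameter `c` -/
theorem exists_c (β : ι) {z : Fin n → ℂˣ} (hz : ZC D β z) (M : Finset (Fin n → ℤ))
    {x0 : Fin n → ℂ} (hx0 : GenM D β M x0) (hM : ∀ ν ∈ M, ∀ k : ℤ, ν ≠ k • D.rt β) :
    ∃ c : ℂ, c ≠ 0 ∧ ∀ ν ∈ M, av z c ν x0 ≠ 1 := by
  have h : ∀ᶠ c in 𝓝[≠] (0 : ℂ), ∀ ν ∈ M, av z c ν x0 ≠ 1 := by
    rw [Filter.eventually_all_finset]
    intro ν hν
    by_cases hp : ∃ a b : ℤ, a ≠ 0 ∧ a • ν = b • D.rt β
    · have h1 : ev ν x0 = 0 := by
        obtain ⟨a, b, ha, hab⟩ := hp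
        have h2 := congrArg (fun μ => ev μ x0) hab
        simp only [ev_smul_left, hx0.1.1, mul_zero] at h2
        exact (mul_eq_zero.1 h2).resolve_left (by exact_mod_cast ha)
      refine Eventually.of_forall fun c => ?_
      unfold av
      rw [h1, mul_zero, Complex.exp_zero, mul_one]
      intro h3
      obtain ⟨k, hk⟩ := hz.2 ν hp (Units.ext h3)
      exact hM ν hν k hk
    · have h1 := hx0.2 ν hν hp
      have h2 : HasDerivAt (fun c : ℂ => av z c ν x0)
          (((chi ν z : ℂˣ) : ℂ) * ev ν x0) 0 := by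
        unfold av
        have h3 : HasDerivAt (fun c : ℂ => Complex.exp (c * ev ν x0))
            (Complex.exp (0 * ev ν x0) * (1 * ev ν x0)) 0 :=
          ((hasDerivAt_id (0 : ℂ)).mul_const (ev ν x0)).cexp
        rw [zero_mul, Complex.exp_zero, one_mul, one_mul] at h3
        exact h3.const_mul _
      exact h2.eventually_ne (mul_ne_zero (Units.ne_zero _) h1)
  obtain ⟨c, hc, hc0⟩ := (h.and self_mem_nhdsWithin).exists
  exact ⟨c, hc0, hc⟩

variable [Fintype ι]

/-- the element `z exp(c (x + e))` -/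
noncomputable def hC (D : Dat n N ι) (z : Fin n → ℂˣ) (c : ℂ) (x : Fin n → ℂ) :
    Matrix (Fin N) (Fin N) ℂ := D.Tt z * NormedSpace.exp (c • (D.Dx x + D.e))

omit [Fintype ι] in
theorem continuous_Dx : Continuous fun x : Fin n → ℂ => (D.Dx x : Matrix (Fin N) (Fin N) ℂ) := by
  unfold Dat.Dx
  refine Continuous.matrix_diagonal (continuous_pi fun p => ?_)
  unfold ev
  fun_prop

theorem continuous_hC (z : Fin n → ℂˣ) (c : ℂ) :
    Continuous fun x : Fin n → ℂ => hC D z c x := by
  have h1 : Continuous fun x : Fin n → ℂ => c • (D.Dx x + D.e) :=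
    (continuous_Dx.add continuous_const).const_smul c
  have h2 : Continuous (NormedSpace.exp : Matrix (Fin N) (Fin N) ℂ → Matrix (Fin N) (Fin N) ℂ) := by
    open scoped Matrix.Norms.Operator in
    exact NormedSpace.exp_continuous
  unfold hC
  exact continuous_const.mul (h2.comp h1)

theorem continuous_sC : Continuous fun x : Fin n → ℂ => D.sC x := by
  refine continuous_matrix fun i j => ?_
  exact MvPolynomial.continuous_eval (D.sx i j)

theorem continuous_pC : Continuous fun x : Fin n → ℂ => D.pC x := by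
  refine continuous_matrix fun i j => ?_
  exact MvPolynomial.continuous_eval (D.px i j)

theorem hC_mul_ue (A : Ax D) {z : Fin n → ℂˣ} (hz : ∀ γ, chi (D.rt γ) z = 1) (c : ℂ)
    {x : Fin n → ℂ} (hx : D.Reg x) :
    hC D z c x * D.ueC x = D.ueC x * D.Tt (thu z c x) := by
  have hconj := A.ueC_conj hx
  have hu := A.mul_inv (A.ueC_isG x)
  have hu' := A.inv_mul (A.ueC_isG x)
  have hunit : IsUnit (D.ueC x) := ⟨⟨D.ueC x, (D.ueC x)⁻¹, hu, hu'⟩, rfl⟩
  -- `z` commutes with `ueC`
  have hTe : D.Tt z * (D.Dx x + D.e) = (D.Dx x + D.e) * D.Tt z := by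
    rw [Matrix.mul_add, Matrix.add_mul, D.Tt_Dx_comm]
    congr 1
    have h1 := A.Tt_Y z D.ze
    have h2 : (fun β => ((chi (D.rt β) z : ℂˣ) : ℂ) * D.ze β) = D.ze := by
      funext β
      rw [hz β]
      simp
    rw [h2] at h1
    exact h1
  have hTu : D.Tt z * D.ueC x = D.ueC x * D.Tt z := by
    set v := D.Tt z * D.ueC x * D.Tt z⁻¹ with hv
    have hvU : UpUni v := by
      constructor
      · intro i j hij
        rw [hv]
        unfold Dat.Tt
        rw [Matrix.mul_diagonal, Matrix.diagonal_mul, (A.ueC_upUni x).1 i j hij]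
        ring
      · intro i
        rw [hv]
        unfold Dat.Tt
        rw [Matrix.mul_diagonal, Matrix.diagonal_mul, (A.ueC_upUni x).2 i, mul_one, ← Units.val_mul,
          ← chi_mul, _root_.mul_inv_cancel, chi_one, Units.val_one]
    have hvG : D.IsG v := A.mul _ _ (A.mul _ _ (A.torus z) (A.ueC_isG x)) (A.torus _)
    have hvc : v * D.Dx x = (D.Dx x + D.e) * v := by
      calc v * D.Dx x = D.Tt z * (D.ueC x * D.Dx x) * D.Tt z⁻¹ := by
            rw [hv, Matrix.mul_assoc, D.Tt_Dx_comm]; simp only [Matrix.mul_assoc]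
        _ = (D.Tt z * (D.Dx x + D.e)) * D.ueC x * D.Tt z⁻¹ := by
            rw [hconj]; simp only [Matrix.mul_assoc]
        _ = (D.Dx x + D.e) * v := by rw [hTe, hv]; simp only [Matrix.mul_assoc]
    have h1 := A.ueC_unique hx hvU hvG hvc
    calc D.Tt z * D.ueC x = D.Tt z * D.ueC x * (D.Tt z⁻¹ * D.Tt z) := by
          rw [D.Tt_inv_mul, Matrix.mul_one]
      _ = v * D.Tt z := by rw [hv]; simp only [Matrix.mul_assoc]
      _ = D.ueC x * D.Tt z := by rw [h1]
  -- the exponential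
  have hexp : NormedSpace.exp (c • (D.Dx x + D.e)) * D.ueC x =
      D.ueC x * NormedSpace.exp (c • D.Dx x) := by
    have h1 : c • (D.Dx x + D.e) = D.ueC x * (c • D.Dx x) * (D.ueC x)⁻¹ := by
      rw [Matrix.mul_smul, Matrix.smul_mul, hconj, Matrix.mul_assoc, hu, Matrix.mul_one]
    rw [h1, Matrix.exp_conj _ _ hunit, Matrix.mul_assoc, hu', Matrix.mul_one]
  have hdiag : NormedSpace.exp (c • D.Dx x) =
      Matrix.diagonal fun i => Complex.exp (c * ev (D.wt i) x) := by
    unfold Dat.Dx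
    rw [← Matrix.diagonal_smul, Matrix.exp_diagonal]
    congr 1
    funext i
    rw [Pi.coe_exp]
    simp only [Pi.smul_apply, smul_eq_mul]
    exact (congrFun Complex.exp_eq_exp_ℂ _).symm
  unfold hC
  rw [Matrix.mul_assoc, hexp, ← Matrix.mul_assoc, hTu, Matrix.mul_assoc, hdiag]
  congr 1
  unfold Dat.Tt
  rw [Matrix.diagonal_mul_diagonal]
  congr 1
  funext i
  rw [chi_thu]
  rfl

theorem hC_pow_mul_ue (A : Ax D) {z : Fin n → ℂˣ} (hz : ∀ γ, chi (D.rt γ) z = 1) (c : ℂ)
    {x : Fin n → ℂ} (hx : D.Reg x) (j : ℕ) :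
    hC D z c x ^ j * D.ueC x = D.ueC x * D.Tt (thu z c x ^ j) := by
  rw [D.Tt_pow]
  induction j with
  | zero => simp
  | succ j ih =>
    rw [pow_succ, Matrix.mul_assoc, hC_mul_ue A hz c hx, ← Matrix.mul_assoc, ih, Matrix.mul_assoc,
      ← pow_succ]

omit [Fintype ι] in
/-- coefficients of `∏ (X - a_κ)` are continuous -/
theorem continuousAt_coeff {κ : Type*} (s : Finset κ) (a : κ → ℂ → ℂ) (t0 : ℂ)
    (ha : ∀ k ∈ s, ContinuousAt (a k) t0) (j : ℕ) :
    ContinuousAt (fun t => (∏ k ∈ s, (Polynomial.X - Polynomial.C (a k t))).coeff j) t0 := by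
  classical
  induction s using Finset.induction_on generalizing j with
  | empty =>
    simp only [Finset.prod_empty]
    exact continuousAt_const
  | insert k s hk ih =>
    simp only [Finset.prod_insert hk, sub_mul, Polynomial.coeff_sub, Polynomial.coeff_C_mul]
    have ih' := ih (fun l hl => ha l (Finset.mem_insert_of_mem hl))
    refine ContinuousAt.sub ?_ ((ha k (Finset.mem_insert_self _ _)).mul (ih' j))
    cases j with
    | zero =>
      simp only [Polynomial.mul_coeff_zero, Polynomial.coeff_X_zero, zero_mul]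
      exact continuousAt_const
    | succ j =>
      simp only [Polynomial.coeff_X_mul]
      exact ih' j

omit [Fintype ι] in
theorem continuous_curve (x0 v : Fin n → ℂ) : Continuous fun t : ℂ => x0 + t • v := by
  fun_prop

end exps

end Pool.Agent.MTD
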