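import Pool.Agent.MTD.Basic

/-! # MTD : reduction of `x + Y` by unipotent elements of the group

Compare `Pool/Agent/MP_c45d35_ag/Red.lean`, `exists_red` (the case of `Sp_N`, `SO_N`). -/

namespace Pool.Agent.MTD

open Matrix
open Pool.Agent.MP_c45d35_ag (chi UpUni LowUni chi_inv)

section depth
variable {N : ℕ} {R : Type*} [CommRing R]

/-- `M` has depth at least `d`: `M i j = 0` unless `i + d ≤ j`. -/
def Dp (d : ℕ) (M : Matrix (Fin N) (Fin N) R) : Prop := ∀ i j : Fin N, (j : ℕ) < i + d → M i j = 0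

theorem Dp.mul {a b : ℕ} {A B : Matrix (Fin N) (Fin N) R} (hA : Dp a A) (hB : Dp b B) :
    Dp (a + b) (A * B) := by
  intro i j hij
  rw [Matrix.mul_apply]
  refine Finset.sum_eq_zero fun l _ => ?_
  by_cases h : (l : ℕ) < i + a
  · rw [hA i l h, zero_mul]
  · rw [hB l j (by omega), mul_zero]

theorem Dp.mono {a b : ℕ} (h : a ≤ b) {A : Matrix (Fin N) (Fin N) R} (hA : Dp b A) : Dp a A :=
  fun i j hij => hA i j (by omega)

theorem Dp.pow {a : ℕ} {A : Matrix (Fin N) (Fin N) R} (hA : Dp a A) (k : ℕ) :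
    Dp (k * a) (A ^ k) := by
  induction k with
  | zero =>
    intro i j hij
    rw [pow_zero, Matrix.one_apply_ne]
    rintro rfl
    omega
  | succ k ih =>
    rw [pow_succ, Nat.succ_mul]
    exact ih.mul hA

/-- `expN A = 1 + A + (depth 2d)` for `A` of depth `d ≥ 1`.  (If `N = 0` everything is trivial; if
`N = 1` then `A = 0`.) -/
theorem expN_depth [Algebra ℂ R] {d : ℕ} (hd : 1 ≤ d) {A : Matrix (Fin N) (Fin N) R}
    (hA : Dp d A) : Dp (2 * d) (expN A - 1 - A) := by
  intro i j hij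
  have hz : ∀ k : ℕ, 2 ≤ k → (A ^ k) i j = 0 := by
    intro k hk
    refine hA.pow k i j (lt_of_lt_of_le hij ?_)
    have : 2 * d ≤ k * d := Nat.mul_le_mul_right d hk
    omega
  rcases N with _ | _ | m
  · exact i.elim0
  · have hA0 : A i j = 0 := hA i j (by have := j.2; omega)
    rw [Matrix.sub_apply, Matrix.sub_apply, hA0, expN]
    simp
  · rw [Matrix.sub_apply, Matrix.sub_apply, expN, Finset.sum_range_succ', Finset.sum_range_succ',
      Matrix.add_apply, Matrix.add_apply, Matrix.sum_apply, Finset.sum_eq_zero]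
    · simp
    · intro k _
      rw [Matrix.smul_apply, hz (k + 1 + 1) (by omega), smul_zero]

theorem expN_upUni [Algebra ℂ R] {A : Matrix (Fin N) (Fin N) R} (hA : Dp 1 A) :
    UpUni (expN A) := by
  have h := expN_depth le_rfl hA
  constructor
  · intro i j hij
    have h' : (j : ℕ) < i := hij
    have h1 := h i j (by omega)
    rw [Matrix.sub_apply, Matrix.sub_apply, hA i j (by omega),
      Matrix.one_apply_ne (ne_of_gt hij)] at h1
    simpa using h1
  · intro i
    have h1 := h i i (by omega)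
    rw [Matrix.sub_apply, Matrix.sub_apply, hA i i (by omega), Matrix.one_apply_eq] at h1
    linear_combination h1

end depth

namespace Ax

variable {n N : ℕ} {ι : Type} [Fintype ι] {D : Dat n N ι} (A : Ax D)
include A

theorem Y_depth {R : Type*} [CommRing R] [Algebra ℂ R] (d : ℕ) (Z : ι → R)
    (h : ∀ β, D.dep β < d → Z β = 0) : Dp d (D.Y Z) := by
  intro i j hij
  rw [D.Y_apply]
  refine Finset.sum_eq_zero fun β _ => ?_
  by_cases hE : D.E β i j = 0
  · rw [hE, map_zero, mul_zero]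
  · have h1 := (A.E_supp β i j hE).1
    rw [h β (by omega), zero_mul]

theorem DxE_comm_apply {R : Type*} [CommRing R] (x : Fin n → R)
    (M : Matrix (Fin N) (Fin N) R) (i j : Fin N) :
    (D.Dx x * M - M * D.Dx x) i j = ev (D.wt i - D.wt j) x * M i j := by
  unfold Dat.Dx
  rw [Matrix.sub_apply, Matrix.diagonal_mul, Matrix.mul_diagonal, ev_sub_left]
  ring

theorem exists_red_aux {R : Type} [CommRing R] [Algebra ℂ R] (x : Fin n → R) (I : Set ι)
    (hI : ∀ β, β ∉ I → IsUnit (ev (D.rt β) x)) (Z : ι → R) (d : ℕ) :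
    ∃ (u : Matrix (Fin N) (Fin N) R) (Z' : ι → R), UpUni u ∧ D.IsG u ∧
      (∀ β, β ∉ I → D.dep β ≤ d → Z' β = 0) ∧
      u * (D.Dx x + D.Y Z') = (D.Dx x + D.Y Z) * u := by
  classical
  induction d with
  | zero =>
    refine ⟨1, Z, UpUni.one, A.one, ?_, by rw [Matrix.one_mul, Matrix.mul_one]⟩
    intro β _ h
    have := A.dep_pos β
    omega
  | succ d ih =>
    obtain ⟨u, Z', hu, hG, hZ', hE⟩ := ih
    let W : ι → R := fun β =>
      if β ∉ I ∧ D.dep β = d + 1 then -(Ring.inverse (ev (D.rt β) x) * Z' β) else 0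
    have hWd : Dp (d + 1) (D.Y W) := by
      refine A.Y_depth (d + 1) W fun β hβ => ?_
      have : ¬ (β ∉ I ∧ D.dep β = d + 1) := fun h => by omega
      simp only [W, if_neg this]
    set g := expN (D.Y W) with hg
    have hgU : UpUni g := expN_upUni (hWd.mono (by omega))
    have hgG : D.IsG g := A.exp W
    obtain ⟨Z'', hZ''⟩ := A.conj g⁻¹ x Z' (A.inv g hgG) hgU.inv.1
    have hmain : (D.Dx x + D.Y Z') * g = g * (D.Dx x + D.Y Z'') := by
      calc (D.Dx x + D.Y Z') * g = g * (g⁻¹ * (D.Dx x + D.Y Z')) * g := by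
            rw [← Matrix.mul_assoc, hgU.mul_inv, Matrix.one_mul]
        _ = g * (D.Dx x + D.Y Z'') * (g⁻¹ * g) := by
            rw [hZ'']; simp only [Matrix.mul_assoc]
        _ = _ := by rw [hgU.inv_mul, Matrix.mul_one]
    have hE2 := expN_depth (by omega : 1 ≤ d + 1) hWd
    rw [← hg] at hE2
    set F := g - 1 - D.Y W with hF
    have hgF : g = 1 + (D.Y W + F) := by rw [hF]; abel
    have hWF : Dp (d + 1) (D.Y W + F) := by
      intro i j hij
      rw [Matrix.add_apply, hWd i j hij, hE2 i j (by omega), add_zero]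
    have hY1 : ∀ Z : ι → R, Dp 1 (D.Y Z) := fun Z => A.Y_depth 1 Z fun β hβ => by
      have := A.dep_pos β; omega
    have hent : D.Y Z'' = D.Y Z' + (D.Dx x * D.Y W - D.Y W * D.Dx x) + (D.Dx x * F - F * D.Dx x) +
        (D.Y Z' * (D.Y W + F) - (D.Y W + F) * D.Y Z'') := by
      have h2 := hmain
      rw [hgF] at h2
      simp only [Matrix.add_mul, Matrix.mul_add, Matrix.one_mul, Matrix.mul_one] at h2 ⊢
      calc D.Y Z'' = (D.Dx x + D.Y Z'' + (D.Y W * D.Dx x + F * D.Dx x +
            (D.Y W * D.Y Z'' + F * D.Y Z''))) - D.Dx x - D.Y W * D.Dx x - F * D.Dx x -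
            D.Y W * D.Y Z'' - F * D.Y Z'' := by abel
        _ = (D.Dx x + D.Y Z' + (D.Dx x * D.Y W + D.Y Z' * D.Y W +
            (D.Dx x * F + D.Y Z' * F))) - D.Dx x - D.Y W * D.Dx x - F * D.Dx x -
            D.Y W * D.Y Z'' - F * D.Y Z'' := by
            congr 5
            calc _ = D.Dx x + D.Y W * D.Dx x + F * D.Dx x + (D.Y Z'' + (D.Y W * D.Y Z'' + F * D.Y Z'')) := by abel
              _ = D.Dx x + D.Y W * D.Dx x + F * D.Dx x + (D.Y Z'' + D.Y W * D.Y Z'' + F * D.Y Z'') := by abel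
              _ = _ := by
                rw [show D.Dx x + D.Y W * D.Dx x + F * D.Dx x +
                  (D.Y Z'' + D.Y W * D.Y Z'' + F * D.Y Z'') =
                  D.Dx x + (D.Y W * D.Dx x + F * D.Dx x) +
                  (D.Y Z'' + (D.Y W * D.Y Z'' + F * D.Y Z'')) by abel, ← h2]
        _ = _ := by abel
    refine ⟨u * g, Z'', hu.mul hgU, A.mul u g hG hgG, ?_, ?_⟩
    · intro β hβ hd
      obtain ⟨i, j, hij⟩ := A.exists_entry β
      obtain ⟨hj, hw⟩ := A.E_supp β i j hij
      have h1 := congrFun (congrFun hent i) j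
      have e1 : (D.Y Z' * (D.Y W + F)) i j = 0 := (hY1 Z').mul hWF i j (by omega)
      have e2 : ((D.Y W + F) * D.Y Z'') i j = 0 := hWF.mul (hY1 Z'') i j (by omega)
      have e3 : F i j = 0 := hE2 i j (by omega)
      rw [Matrix.add_apply, Matrix.add_apply, Matrix.add_apply, Matrix.sub_apply (D.Y Z' * _),
        e1, e2, A.DxE_comm_apply, A.DxE_comm_apply, e3, hw, A.Y_entry Z'' hij, A.Y_entry Z' hij,
        A.Y_entry W hij] at h1
      have hu' : IsUnit (algebraMap ℂ R (D.E β i j)) := (isUnit_iff_ne_zero.2 hij).map _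
      have h2 : Z'' β = Z' β + ev (D.rt β) x * W β := by
        apply hu'.mul_right_cancel
        linear_combination h1
      rw [h2]
      by_cases h : D.dep β = d + 1
      · simp only [W, if_pos (⟨hβ, h⟩ : _ ∧ _)]
        have hu2 := Ring.mul_inverse_cancel _ (hI β hβ)
        linear_combination (-Z' β) * hu2
      · have h' : ¬ (β ∉ I ∧ D.dep β = d + 1) := fun h' => h h'.2
        simp only [W, if_neg h']
        rw [hZ' β hβ (by omega)]
        ring
    · rw [Matrix.mul_assoc, ← hmain, ← Matrix.mul_assoc, hE, Matrix.mul_assoc]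

/-- Reduction to the root subspaces in `I`.  Induction on `d` for the statement with
`∀ β, β ∉ I → D.dep β ≤ d → Z' β = 0` (for `d = 0`: `u = 1`, `Z' = Z`, `dep_pos`).
Step: given `u, Z'` for `d`, put `W β = - Z' β / (ev (rt β) x)` (the inverse exists by `hI`) if
`β ∉ I` and `dep β = d + 1`, and `W β = 0` otherwise; `g = expN (Y W)` is in the group (`A.exp`)
and upper unipotent.  `A.conj` applied to `g⁻¹` (in the group and upper triangular; `UpUni.inv`
in `MP_c45d35_ag/Basic`) gives `Z''` with `g⁻¹ (Dx x + Y Z') = (Dx x + Y Z'') g⁻¹`, i.e.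
`(Dx x + Y Z') g = g (Dx x + Y Z'')` (*).  Modulo depth `d + 2` we have `g = 1 + Y W`
(`expN_depth` with `d + 1`: depth `2 (d + 1) ≥ d + 2`), and `Y Z' * Y W`, `Y W * Y Z''` have depth
`≥ d + 2`; so (*) gives `Y Z'' ≡ Y Z' + Dx x * Y W - Y W * Dx x = Y (fun β => Z' β + ev (rt β) x * W β)`
modulo depth `d + 2` (`E_supp`: the entries of `E β` at `(i, j)` satisfy `wt i - wt j = rt β`).
Compare the entries at a position `(i, j)` with `E β i j ≠ 0` (`exists_entry`, `Y_entry`) for
`dep β ≤ d + 1`: `Z'' β = Z' β + ev (rt β) x * W β`, which is `0` for `β ∉ I`.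
At the end take `d = ∑ dep β` (or any bound for the depths).
Answer: `u_new = u * g`. -/
theorem exists_red {R : Type} [CommRing R] [Algebra ℂ R] (x : Fin n → R) (I : Set ι)
    (hI : ∀ β, β ∉ I → IsUnit (ev (D.rt β) x)) (Z : ι → R) :
    ∃ (u : Matrix (Fin N) (Fin N) R) (Z' : ι → R), UpUni u ∧ D.IsG u ∧ (∀ β, β ∉ I → Z' β = 0) ∧
      u * (D.Dx x + D.Y Z') = (D.Dx x + D.Y Z) * u := by
  obtain ⟨u, Z', h1, h2, h3, h4⟩ := A.exists_red_aux x I hI Z (∑ β, D.dep β)
  exact ⟨u, Z', h1, h2, fun β hβ => h3 β hβ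
    (Finset.single_le_sum (f := D.dep) (fun _ _ => Nat.zero_le _) (Finset.mem_univ β)), h4⟩

/-- the case `I = ∅` -/
theorem exists_u {R : Type} [CommRing R] [Algebra ℂ R] (x : Fin n → R)
    (hx : ∀ β, IsUnit (ev (D.rt β) x)) (Z : ι → R) :
    ∃ u : Matrix (Fin N) (Fin N) R, UpUni u ∧ D.IsG u ∧
      u * D.Dx x = (D.Dx x + D.Y Z) * u := by
  obtain ⟨u, Z', h1, h2, h3, h4⟩ := A.exists_red x ∅ (fun β _ => hx β) Z
  have h5 : Z' = 0 := funext fun β => h3 β (by simp)
  rw [h5, D.Y_zero, add_zero] at h4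
  exact ⟨u, h1, h2, h4⟩

/-- there is `y ∈ ℂ^n` on which the weights `wt i` take distinct values, and on which also finitely
many further given nonzero weights do not vanish -/
theorem exists_sep (s : Finset (Fin n → ℤ)) (hs : ∀ ν ∈ s, ν ≠ 0) :
    ∃ y : Fin n → ℂ, (∀ i j, i ≠ j → ev (D.wt i) y ≠ ev (D.wt j) y) ∧ ∀ ν ∈ s, ev ν y ≠ 0 := by
  classical
  have hlin : ∀ ν : Fin n → ℤ, ν ≠ 0 → ev ν (MvPolynomial.X : Fin n → MvPolynomial (Fin n) ℂ) ≠ 0 := by
    intro ν hν h0
    apply hν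
    funext k
    have h1 := congrArg (MvPolynomial.eval (Pi.single k (1 : ℂ))) h0
    rw [map_zero, ev_map] at h1
    simp only [MvPolynomial.eval_X] at h1
    have h2 : ev ν (fun l => (Pi.single k (1 : ℂ) : Fin n → ℂ) l) = (ν k : ℂ) := by
      simp [ev, Pi.single_apply]
    rw [h2] at h1
    exact_mod_cast h1
  set t : Finset (Fin n → ℤ) := s ∪ (Finset.univ.filter fun p : Fin N × Fin N => p.1 ≠ p.2).image
    fun p => D.wt p.1 - D.wt p.2 with ht
  have ht0 : ∀ ν ∈ t, ν ≠ 0 := by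
    intro ν hν
    rw [ht, Finset.mem_union, Finset.mem_image] at hν
    rcases hν with h | ⟨p, hp, rfl⟩
    · exact hs ν h
    · have hp' := (Finset.mem_filter.1 hp).2
      exact sub_ne_zero.2 fun h => hp' (A.wt_inj h)
  have hprod : ∏ ν ∈ t, ev ν (MvPolynomial.X : Fin n → MvPolynomial (Fin n) ℂ) ≠ 0 :=
    Finset.prod_ne_zero_iff.2 fun ν hν => hlin ν (ht0 ν hν)
  obtain ⟨y, hy⟩ : ∃ y : Fin n → ℂ, MvPolynomial.eval y
      (∏ ν ∈ t, ev ν (MvPolynomial.X : Fin n → MvPolynomial (Fin n) ℂ)) ≠ 0 := by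
    by_contra hcon
    push Not at hcon
    exact hprod (MvPolynomial.funext fun y => by rw [hcon y, map_zero])
  rw [map_prod, Finset.prod_ne_zero_iff] at hy
  have hy' : ∀ ν ∈ t, ev ν y ≠ 0 := by
    intro ν hν
    have h1 := hy ν hν
    rw [ev_map] at h1
    simpa only [MvPolynomial.eval_X] using h1
  refine ⟨y, fun i j hij h => ?_, fun ν hν => hy' ν (Finset.mem_union_left _ hν)⟩
  refine hy' (D.wt i - D.wt j) (Finset.mem_union_right _
    (Finset.mem_image.2 ⟨(i, j), Finset.mem_filter.2 ⟨Finset.mem_univ _, hij⟩, rfl⟩)) ?_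
  rw [ev_sub_left, h, sub_self]

/-- An upper unipotent element of the group commuting with a regular `x` is trivial.
Proof: choose `y : Fin n → ℂ` with the `ev (wt i) y` distinct (`exists_sep ∅`), and regard it in
`R` (`algebraMap`).  Show by induction on `d` that `v - 1` has depth `d`.  Given `Dp d (v - 1)` with
`1 ≤ d`: `A.conj v y 0` (`v` is upper triangular) gives `Z'` with `v * Dx y = (Dx y + Y Z') * v`
(`Y 0 = 0`), so `Y Z' * v = v * Dx y - Dx y * v` has depth `d`, hence `Y Z'` has depth `d` (multiply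
by `v⁻¹`, upper unipotent).  At a position `(i, j)` with `j = i + d`:
`v i j * (ev (wt j) y - ev (wt i) y) = (Y Z') i j` (the other terms of `Y Z' * v` vanish).  If
`wt i - wt j` is not a root then `(Y Z') i j = 0` (`Y_entry_zero`), and since
`ev (wt j) y - ev (wt i) y` is a nonzero constant, `v i j = 0`.  If `wt i - wt j = rt β`, use
`Commute v (Dx x)`: `v i j * (ev (wt j) x - ev (wt i) x) = 0` and `ev (wt i) x - ev (wt j) x =
ev (rt β) x` is a unit. -/
theorem cent_up {R : Type} [CommRing R] [Algebra ℂ R] (x : Fin n → R)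
    (hx : ∀ β, IsUnit (ev (D.rt β) x)) (v : Matrix (Fin N) (Fin N) R) (hv : UpUni v)
    (hG : D.IsG v) (hc : v * D.Dx x = D.Dx x * v) : v = 1 := by
  obtain ⟨y0, hy0, -⟩ := A.exists_sep ∅ (by simp)
  set y : Fin n → R := fun k => algebraMap ℂ R (y0 k) with hy
  have hyw : ∀ μ : Fin n → ℤ, ev μ y = algebraMap ℂ R (ev μ y0) := fun μ => (ev_map _ μ y0).symm
  obtain ⟨Z', hZ'⟩ := A.conj v y 0 hG hv.1
  rw [D.Y_zero, add_zero] at hZ'
  have key : ∀ d : ℕ, Dp (d + 1) (v - 1) := by
    intro d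
    induction d with
    | zero =>
      intro i j hij
      rw [Matrix.sub_apply]
      rcases Nat.lt_or_ge j i with h | h
      · rw [hv.1 i j h, Matrix.one_apply_ne (ne_of_gt (show j < i from h)), sub_zero]
      · have h' : i = j := Fin.ext (by omega)
        subst h'
        rw [hv.2, Matrix.one_apply_eq, sub_self]
    | succ d ih =>
      -- `Y Z' * v = v * Dx y - Dx y * v`
      have h1 : D.Y Z' * v = -(D.Dx y * (v - 1) - (v - 1) * D.Dx y) := by
        rw [Matrix.add_mul] at hZ'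
        rw [Matrix.mul_sub, Matrix.sub_mul, Matrix.one_mul, Matrix.mul_one]
        rw [show -(D.Dx y * v - D.Dx y - (v * D.Dx y - D.Dx y)) = v * D.Dx y - D.Dx y * v by abel,
          hZ']
        abel
      have h2 : Dp (d + 1) (D.Y Z' * v) := by
        intro i j hij
        rw [h1, Matrix.neg_apply, A.DxE_comm_apply, ih i j hij, mul_zero, neg_zero]
      have hvi : Dp 0 v⁻¹ := fun i j hij => hv.inv.1 i j (by simpa using hij)
      have h3 : Dp (d + 1) (D.Y Z') := by
        have h4 : D.Y Z' = (D.Y Z' * v) * v⁻¹ := by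
          rw [Matrix.mul_assoc, hv.mul_inv, Matrix.mul_one]
        rw [h4]
        exact h2.mul hvi
      intro i j hij
      rcases Nat.lt_or_ge (j : ℕ) (i + (d + 1)) with h | h
      · exact ih i j h
      have hj : (j : ℕ) = i + (d + 1) := by omega
      have h5 : (D.Y Z' * v) i j = D.Y Z' i j := by
        have h6 : D.Y Z' * v = D.Y Z' + D.Y Z' * (v - 1) := by
          rw [Matrix.mul_sub, Matrix.mul_one]; abel
        have h7 := h3.mul ih i j (by omega)
        rw [h6, Matrix.add_apply, h7, add_zero]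
      by_cases hr : ∃ β, D.wt i - D.wt j = D.rt β
      · obtain ⟨β, hβ⟩ := hr
        have h8 : (D.Dx x * (v - 1) - (v - 1) * D.Dx x) i j = 0 := by
          rw [Matrix.mul_sub, Matrix.sub_mul, Matrix.one_mul, Matrix.mul_one, hc]
          simp
        rw [A.DxE_comm_apply, hβ] at h8
        exact (hx β).mul_right_eq_zero.1 h8
      · push Not at hr
        have h9 : D.Y Z' i j = 0 := A.Y_entry_zero Z' hr
        rw [← h5, h1, Matrix.neg_apply, A.DxE_comm_apply, hyw] at h9
        have hij' : i ≠ j := by rintro rfl; omega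
        have hu : IsUnit (algebraMap ℂ R (ev (D.wt i - D.wt j) y0)) := by
          refine (isUnit_iff_ne_zero.2 ?_).map _
          rw [ev_sub_left]
          exact sub_ne_zero.2 (hy0 i j hij')
        exact hu.mul_right_eq_zero.1 (neg_eq_zero.1 h9)
  ext i j
  have h1 := key N i j (by have := j.2; omega)
  rw [Matrix.sub_apply] at h1
  exact sub_eq_zero.1 h1

/-- uniqueness in `exists_u` -/
theorem u_unique {R : Type} [CommRing R] [Algebra ℂ R] (x : Fin n → R)
    (hx : ∀ β, IsUnit (ev (D.rt β) x)) (M u u' : Matrix (Fin N) (Fin N) R) (hu : UpUni u)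
    (hu' : UpUni u') (hG : D.IsG u) (hG' : D.IsG u') (h : u * D.Dx x = M * u)
    (h' : u' * D.Dx x = M * u') : u = u' := by
  have h3 : D.Dx x * u⁻¹ = u⁻¹ * M := by
    calc D.Dx x * u⁻¹ = u⁻¹ * (u * D.Dx x) * u⁻¹ := by
          rw [← Matrix.mul_assoc, hu.inv_mul, Matrix.one_mul]
      _ = u⁻¹ * M * (u * u⁻¹) := by rw [h]; simp only [Matrix.mul_assoc]
      _ = u⁻¹ * M := by rw [hu.mul_inv, Matrix.mul_one]
  have hc : (u⁻¹ * u') * D.Dx x = D.Dx x * (u⁻¹ * u') := by
    rw [Matrix.mul_assoc, h', ← Matrix.mul_assoc, ← Matrix.mul_assoc, h3]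
  have h5 : u⁻¹ * u' = 1 :=
    A.cent_up x hx _ (hu.inv.mul hu') (A.mul _ _ (A.inv u hG) hG') hc
  calc u = u * (u⁻¹ * u') := by rw [h5, Matrix.mul_one]
    _ = u' := by rw [← Matrix.mul_assoc, hu.mul_inv, Matrix.one_mul]

/-- an upper triangular element of the group over a field is unipotent times torus -/
theorem exists_UT {K : Type} [Field K] [Algebra ℂ K] (g : Matrix (Fin N) (Fin N) K)
    (hG : D.IsG g) (hg : ∀ i j, j < i → g i j = 0) :
    ∃ (u : Matrix (Fin N) (Fin N) K) (t : Fin n → Kˣ), UpUni u ∧ D.IsG u ∧ g = u * D.Tt t := by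
  obtain ⟨t, ht⟩ := A.levi g hG hg
  refine ⟨g * D.Tt t⁻¹, t, ⟨?_, ?_⟩, A.mul _ _ hG (A.torus _), ?_⟩
  · intro i j hij
    unfold Dat.Tt
    rw [Matrix.mul_diagonal, hg i j hij, zero_mul]
  · intro i
    unfold Dat.Tt
    rw [Matrix.mul_diagonal, ht i, chi_inv]
    exact Units.mul_inv _
  · rw [Matrix.mul_assoc, D.Tt_inv_mul, Matrix.mul_one]

/-- the torus parameter is determined by `Tt t` up to the kernel; the characters `chi (wt i)` are -/
theorem Tt_upUni {R : Type*} [CommRing R] (u u' : Matrix (Fin N) (Fin N) R) (t t' : Fin n → Rˣ)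
    (hu : UpUni u) (hu' : UpUni u') (h : u * D.Tt t = u' * D.Tt t') : u = u' ∧ D.Tt t = D.Tt t' := by
  have h1 : D.Tt t = D.Tt t' := by
    unfold Dat.Tt
    congr 1
    funext i
    have h2 := congrFun (congrFun h i) i
    unfold Dat.Tt at h2
    rw [Matrix.mul_diagonal, Matrix.mul_diagonal, hu.2, hu'.2, one_mul, one_mul] at h2
    exact h2
  refine ⟨?_, h1⟩
  calc u = u * D.Tt t * D.Tt t⁻¹ := by rw [Matrix.mul_assoc, D.Tt_mul_inv, Matrix.mul_one]
    _ = u' * (D.Tt t * D.Tt t⁻¹) := by rw [h, ← h1, Matrix.mul_assoc]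
    _ = u' := by rw [D.Tt_mul_inv, Matrix.mul_one]

end Ax

end Pool.Agent.MTD
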