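import Pool.Agent.MTD.TDB3
import Pool.Agent.MP_c45d35_ag.Sanity

/-! # MTD : `(eD, hD, fD)` is a principal `sl_2`-triple of `so_{2n}` -/

namespace Pool.Agent.MTD.TD

open Matrix
open Pool.Agent.MP_c45d35_ag (fm triple_h principal_triple)

variable {n : ℕ}

theorem sane_sd_eD (hn : 2 ≤ n) : sd (eD n) = - eD n := by
  ext i j
  rw [sd_apply, Matrix.neg_apply]
  simp only [eD, Matrix.of_apply, Fin.val_rev]
  have hi := i.2
  have hj := j.2
  split_ifs <;> first | (exfalso; omega) | norm_num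

/-- The embedding of the matrices of size `2n - 1` as the first block. -/
noncomputable def sB (A : Matrix (Fin (2 * n - 1)) (Fin (2 * n - 1)) ℂ) :
    Matrix (Fin (2 * n)) (Fin (2 * n)) ℂ := cB (bk A 0 0 0)

theorem sB_mul (hn : 1 ≤ n) (A A' : Matrix (Fin (2 * n - 1)) (Fin (2 * n - 1)) ℂ) :
    sB (A * A') = sB A * sB A' := by
  unfold sB
  rw [← cB_mul hn, tdb3_bk_mul]
  congr 1
  unfold bk
  congr 1
  · ext i j
    simp
  · ext i j
    simp
  · ext i j
    simp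
  · ext i j
    simp

theorem sB_sub (A A' : Matrix (Fin (2 * n - 1)) (Fin (2 * n - 1)) ℂ) :
    sB (A - A') = sB A - sB A' := by
  unfold sB
  rw [← cB_sub]
  congr 1
  unfold bk
  ext (i | i) (j | j) <;> simp

theorem sB_smul (c : ℂ) (A : Matrix (Fin (2 * n - 1)) (Fin (2 * n - 1)) ℂ) :
    sB (c • A) = c • sB A := by
  unfold sB
  rw [← cB_smul]
  congr 1
  unfold bk
  ext (i | i) (j | j) <;> simp

theorem sane_sd_fD (hn : 2 ≤ n) : sd (fD n) = - fD n := by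
  ext i j
  rw [sd_apply, Matrix.neg_apply]
  simp only [fD, Matrix.of_apply, Fin.val_rev]
  have hi := i.2
  have hj := j.2
  have e1 : ((2 * n - ((j : ℕ) + 1) : ℕ) : ℂ) = 2 * n - (j : ℕ) - 1 := by
    rw [Nat.cast_sub (by omega)]
    push_cast
    ring
  have e2 : ((2 * n - ((i : ℕ) + 1) : ℕ) : ℂ) = 2 * n - (i : ℕ) - 1 := by
    rw [Nat.cast_sub (by omega)]
    push_cast
    ring
  split_ifs <;> first | (exfalso; omega) | skip
  · have h : (i : ℕ) = (j : ℕ) + 1 := by omega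
    rw [e1, h]
    push_cast
    ring
  · ring
  · rfl
  · have h : (i : ℕ) = (j : ℕ) + 1 := by omega
    rw [e1, h]
    push_cast
    ring
  · rw [neg_zero]

theorem sane_triple (hn : 2 ≤ n) : sd (eD n) = - eD n ∧ sd (fD n) = - fD n ∧
    ∃ h : Matrix (Fin (2 * n)) (Fin (2 * n)) ℂ, h = eD n * fD n - fD n * eD n ∧
      h * eD n - eD n * h = (2 : ℂ) • eD n ∧ h * fD n - fD n * h = (-2 : ℂ) • fD n ∧
      h = sB (Matrix.diagonal fun i : Fin (2 * n - 1) => ((2 * n - 1 : ℕ) : ℂ) - 1 - 2 * (i : ℕ)) := by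
  refine ⟨sane_sd_eD hn, sane_sd_fD hn, eD n * fD n - fD n * eD n, rfl, ?_⟩
  obtain ⟨_, _, h, hh, h1, h2⟩ := principal_triple (2 * n - 1)
  have he : eD n = sB (Pool.Agent.MP_c45d35_ag.em ℂ _) := (eD_cB hn).symm
  have hf : fD n = sB (fm ℂ _) := (fD_cB hn).symm
  have hn' : 1 ≤ n := by omega
  have hc : eD n * fD n - fD n * eD n = sB h := by
    rw [he, hf, ← sB_mul hn', ← sB_mul hn', ← sB_sub, hh]
  rw [hc]
  refine ⟨?_, ?_, ?_⟩
  · rw [he, ← sB_mul hn', ← sB_mul hn', ← sB_sub, h1, sB_smul]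
  · rw [hf, ← sB_mul hn', ← sB_mul hn', ← sB_sub, h2, sB_smul]
  · rw [hh, triple_h]

end Pool.Agent.MTD.TD
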