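import Pool.Agent.MTD.P7
import Pool.Agent.MTD.Sanity2

/-!
# MTD : the definitions used in the statement of the main theorem

`MG c` : the product of the groups `SL_{n+1}`, `SO_{2n+1}`, `Sp_{2n}`, `SO_{2n+4}`, `G_2` of the
types `c i`; `MS c` : the product of their slices; `OM c`, `OSl c` : the regular functions;
`cent c s` : the centraliser of `s` in `MG c`; `centG c p π s` : the centraliser of `s` in `G`.
`RegF`, `MT`, `CentralIsogeny` and the matrix groups are defined in `P0.lean`.
-/

namespace Pool.Agent.MTD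

open Matrix

/-- The group of type `c`, as a type. -/
def Gr (c : Cl) : Type := c.grp

noncomputable instance (c : Cl) : Group (Gr c) := Subgroup.toGroup c.grp

/-- The matrix of an element of the group. -/
def Gr.mat {c : Cl} (g : Gr c) : Matrix (Fin c.N) (Fin c.N) ℂ :=
  Units.val (Subtype.val (p := fun g => g ∈ c.grp) g)

/-- The slice of type `c`, as a type. -/
def Sl (c : Cl) : Type := c.slice

/-- The matrix of a point of the slice. -/
def Sl.mat {c : Cl} (s : Sl c) : Matrix (Fin c.N) (Fin c.N) ℂ :=
  Subtype.val (p := fun s => s ∈ c.slice) s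

/-- The product `M` of the groups of the types `c i`. -/
def MG {I : Type} (c : I → Cl) : Type := ∀ i, Gr (c i)

noncomputable instance {I : Type} (c : I → Cl) : Group (MG c) := Pi.group

/-- The product of the slices. -/
def MS {I : Type} (c : I → Cl) : Type := ∀ i, Sl (c i)

/-- The regular functions on `M`: the algebra generated by the matrix entries of the components. -/
def OM {I : Type} (c : I → Cl) : Subalgebra ℂ (MG c → ℂ) :=
  Algebra.adjoin ℂ {f | ∃ (i : I) (j k : Fin (c i).N), f = fun m => (m i).mat j k}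

/-- The regular functions on the product of the slices. -/
def OSl {I : Type} (c : I → Cl) : Subalgebra ℂ (MS c → ℂ) :=
  Algebra.adjoin ℂ {f | ∃ (i : I) (j k : Fin (c i).N), f = fun s => (s i).mat j k}

/-- The centraliser in `M` of a point `s` of the slice. -/
def cent {I : Type} (c : I → Cl) (s : MS c) : Set (MG c) :=
  {m | ∀ i, Commute (m i).mat (s i).mat}

/-- The centraliser of `s` in `G`, for central isogenies `p : M → Q` and `π : G → Q`:
`g` fixes `s` iff `π g = p m` for an `m` that commutes with `s`. -/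
def centG {I : Type} (c : I → Cl) {G Q : Type} [Group G] [Group Q] (p : MG c →* Q) (π : G →* Q)
    (s : MS c) : Set G := {g | ∃ m ∈ cent c s, p m = π g}

section
variable {I : Type} (c : I → Cl)

theorem OM_eq : OM c = OGP c := by
  refine le_antisymm (Algebra.adjoin_le ?_) (Algebra.adjoin_le ?_)
  · rintro f ⟨i, j, k, rfl⟩
    have h : (fun m : ∀ i, (c i).grp => (m i).1.1 j k) ∈ OGP c :=
      Algebra.subset_adjoin ⟨i, fun g => g.1.1 j k, Algebra.subset_adjoin ⟨(j, k), rfl⟩, rfl⟩
    exact h
  · rintro f ⟨i, g, hg, rfl⟩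
    change (fun x : MG c => g (x i)) ∈ OM c
    let φ : ((c i).grp → ℂ) →ₐ[ℂ] (MG c → ℂ) :=
      { toFun := fun g x => g (x i)
        map_one' := rfl
        map_mul' := fun _ _ => rfl
        map_zero' := rfl
        map_add' := fun _ _ => rfl
        commutes' := fun _ => rfl }
    have h : (c i).OG ≤ (OM c).comap φ := by
      refine Algebra.adjoin_le ?_
      rintro _ ⟨jk, rfl⟩
      exact Algebra.subset_adjoin ⟨i, jk.1, jk.2, rfl⟩
    exact h hg

theorem OSl_eq : OSl c = OSP c := by
  refine le_antisymm (Algebra.adjoin_le ?_) (Algebra.adjoin_le ?_)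
  · rintro f ⟨i, j, k, rfl⟩
    have h : (fun m : ∀ i, (c i).slice => (m i).1 j k) ∈ OSP c :=
      Algebra.subset_adjoin ⟨i, fun g => g.1 j k, Algebra.subset_adjoin ⟨(j, k), rfl⟩, rfl⟩
    exact h
  · rintro f ⟨i, g, hg, rfl⟩
    change (fun x : MS c => g (x i)) ∈ OSl c
    let φ : ((c i).slice → ℂ) →ₐ[ℂ] (MS c → ℂ) :=
      { toFun := fun g x => g (x i)
        map_one' := rfl
        map_mul' := fun _ _ => rfl
        map_zero' := rfl
        map_add' := fun _ _ => rfl
        commutes' := fun _ => rfl }
    have h : (c i).OS ≤ (OSl c).comap φ := by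
      refine Algebra.adjoin_le ?_
      rintro _ ⟨jk, rfl⟩
      exact Algebra.subset_adjoin ⟨i, jk.1, jk.2, rfl⟩
    exact h hg

/-- **Main theorem.** -/
theorem mt_main [Finite I] {Q G : Type} [Group Q] [Group G] (OQ : Subalgebra ℂ (Q → ℂ))
    (OG : Subalgebra ℂ (G → ℂ)) (p : MG c →* Q) (π : G →* Q)
    (hp : CentralIsogeny (OM c) OQ p) (hπ : CentralIsogeny OG OQ π) (hG : OG.FG) (b : ℕ) :
    (MT OG (OSl c) (centG c p π) b).FG := by
  rw [OM_eq] at hp
  rw [OSl_eq]
  exact mt_semisimple c OQ OG p π hp hπ hG b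

end

end Pool.Agent.MTD
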