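import Pool.Agent.MTD.HSlice

/-! # MTD : type `A`, the data -/

namespace Pool.Agent.MTD.TA

open Matrix
open Pool.Agent.MP_c45d35_ag (chi UpUni LowUni IsHess fm chi_add chi_zero chi_mul)
open Pool.Agent.MP_c45d35_ag.SL (Fk Fk_pos fm_pow_apply charpoly_coeff_of_lt charpoly_coeff_self
  isUnit_sum_Fk exists_prod)
open Pool.Agent.MP_c45d35_ag.BlockD (Up)


/-- Positive roots `ε_i - ε_j`, `i < j`. -/
abbrev RA (n : ℕ) := {p : Fin (n + 1) × Fin (n + 1) // p.1 < p.2}

/-- The weight `ε_i` (with `ε_n = -ε_0 - ⋯ - ε_{n-1}`). -/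
def wtA {n : ℕ} (i : Fin (n + 1)) : Fin n → ℤ := fun k =>
  if (i : ℕ) = (k : ℕ) then 1 else if (i : ℕ) = n then -1 else 0

/-- The coroot of `ε_i - ε_j`. -/
def crA {n : ℕ} (β : RA n) : Fin n → ℤ := fun k =>
  (if (β.1.1 : ℕ) = (k : ℕ) then 1 else 0) - (if (β.1.2 : ℕ) = (k : ℕ) then 1 else 0)

/-- Elementary matrix. -/
def EA {n : ℕ} (β : RA n) : Matrix (Fin (n + 1)) (Fin (n + 1)) ℂ :=
  Matrix.of fun i j => if i = β.1.1 ∧ j = β.1.2 then 1 else 0

/-- The equation `det = 1`. -/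
noncomputable def eqsA (n : ℕ) : Set (MvPolynomial (Fin (n + 1) × Fin (n + 1)) ℂ) :=
  {Matrix.det (Matrix.of fun i j => MvPolynomial.X (i, j)) - 1}

/-- The Slodowy slice `e + 𝔤_f` of `sl_{n+1}`. -/
def sliceA (n : ℕ) : Set (Matrix (Fin (n + 1)) (Fin (n + 1)) ℂ) :=
  {s | s.trace = 0 ∧ Commute (s - Pool.Agent.MP_c45d35_ag.em ℂ (n + 1)) (fm ℂ (n + 1))}

section wt
variable {n : ℕ}

/-- coordinates completed by `0` -/
def cc {R : Type*} [CommRing R] (μ : Fin n → R) (p : Fin (n + 1)) : R :=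
  if h : (p : ℕ) < n then μ ⟨p, h⟩ else 0

theorem ev_crA {R : Type*} [CommRing R] (β : RA n) (μ : Fin n → R) :
    ev (crA β) μ = cc μ β.1.1 - cc μ β.1.2 := by
  have h : ∀ p : Fin (n + 1), ∑ k : Fin n, (((if (p : ℕ) = (k : ℕ) then 1 else 0 : ℤ)) : R) * μ k =
      cc μ p := by
    intro p
    unfold cc
    split_ifs with hp
    · rw [Finset.sum_eq_single ⟨p, hp⟩]
      · simp
      · intro k _ hk
        rw [if_neg fun h' => hk (Fin.ext h'.symm)]
        simp
      · intro h'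
        exact absurd (Finset.mem_univ _) h'
    · refine Finset.sum_eq_zero fun k _ => ?_
      rw [if_neg fun h' => hp (by rw [h']; exact k.2)]
      simp
  rw [← h, ← h, ← Finset.sum_sub_distrib]
  refine Finset.sum_congr rfl fun k _ => ?_
  simp only [crA, Int.cast_sub]
  ring

theorem cc_wt (i p : Fin (n + 1)) : cc (wtA i) p =
    (if i = p then 1 else 0) - (if (i : ℕ) = n then 1 else 0) := by
  unfold cc wtA
  have hi := i.2
  have hp := p.2
  simp only [Fin.ext_iff]
  split_ifs <;> omega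

theorem ev_crA_wt (β : RA n) (i : Fin (n + 1)) : ev (crA β) (wtA i) =
    (if i = β.1.1 then 1 else 0) - (if i = β.1.2 then 1 else 0) := by
  rw [ev_crA, cc_wt, cc_wt]
  ring

theorem cc_ev (i : Fin (n + 1)) (hi : (i : ℕ) < n) (R : Type*) [CommRing R] (x : Fin n → R) :
    ev (wtA i) x = x ⟨i, hi⟩ := by
  unfold ev
  rw [Finset.sum_eq_single ⟨i, hi⟩]
  · simp [wtA]
  · intro k _ hk
    have h1 : ¬ ((i : ℕ) = (k : ℕ)) := fun h' => hk (Fin.ext h'.symm)
    have h2 : ¬ ((i : ℕ) = n) := by omega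
    simp [wtA, h1, h2]
  · intro h'
    exact absurd (Finset.mem_univ _) h'

theorem cc_ev_last (i : Fin (n + 1)) (hi : (i : ℕ) = n) (R : Type*) [CommRing R] (x : Fin n → R) :
    ev (wtA i) x = - ∑ k, x k := by
  unfold ev
  rw [← Finset.sum_neg_distrib]
  refine Finset.sum_congr rfl fun k _ => ?_
  have hk := k.2
  have h1 : ¬ ((i : ℕ) = (k : ℕ)) := by omega
  simp only [wtA, if_neg h1, if_pos hi]
  simp

theorem sum_wt : ∑ i : Fin (n + 1), wtA i = 0 := by
  funext k
  rw [Finset.sum_apply, Fin.sum_univ_castSucc]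
  have h1 : ∑ i : Fin n, wtA (Fin.castSucc i) k = 1 := by
    rw [Finset.sum_eq_single k]
    · simp [wtA]
    · intro i _ hi
      have h1 : ¬ ((i : ℕ) = (k : ℕ)) := fun h' => hi (Fin.ext h')
      have h2 : ¬ ((i : ℕ) = n) := by have := i.2; omega
      simp [wtA, h1, h2]
    · intro h'
      exact absurd (Finset.mem_univ _) h'
  have h2 : wtA (Fin.last n) k = -1 := by
    have hk := k.2
    have h1 : ¬ (n = (k : ℕ)) := by omega
    simp [wtA, h1]
  rw [h1, h2]
  simp

theorem sum_ev {R : Type*} [CommRing R] (x : Fin n → R) :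
    ∑ i : Fin (n + 1), ev (wtA i) x = 0 := by
  rw [← ev_sum_left, sum_wt, ev_zero_left]

end wt

/-! ### The slice -/

section slice
variable {R : Type*} [CommRing R] {n : ℕ}

/-- exponents `1, …, n` -/
def κA (n : ℕ) : Fin n → ℕ := fun m => (m : ℕ) + 1

theorem κA_mono : StrictMono (κA n) := fun i j h => by
  have : (i : ℕ) < (j : ℕ) := h
  show (i : ℕ) + 1 < (j : ℕ) + 1
  omega

theorem κA_lt (m : Fin n) : κA n m < n + 1 := by
  show (m : ℕ) + 1 < n + 1
  have := m.2
  omega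

theorem κA_pos (m : Fin n) : 1 ≤ κA n m := by
  show 1 ≤ (m : ℕ) + 1
  omega

theorem trace_fm_pow {N k : ℕ} (hk : 1 ≤ k) : ((fm R N) ^ k).trace = 0 := by
  rw [Matrix.trace]
  refine Finset.sum_eq_zero fun i _ => ?_
  rw [Matrix.diag_apply, fm_pow_apply, if_neg (by omega)]

theorem trace_em {N : ℕ} : (Pool.Agent.MP_c45d35_ag.em R N).trace = 0 := by
  rw [Matrix.trace]
  refine Finset.sum_eq_zero fun i _ => ?_
  simp [Pool.Agent.MP_c45d35_ag.em]

theorem trace_Slk (a : Fin n → R) : (Slk (n + 1) (κA n) a).trace = 0 := by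
  unfold Slk
  rw [Matrix.trace_add, trace_em, Matrix.trace_sum, Finset.sum_eq_zero, add_zero]
  intro m _
  rw [Matrix.trace_smul, trace_fm_pow (κA_pos m), smul_zero]

theorem Slk_mem (a : Fin n → ℂ) : Slk (n + 1) (κA n) a ∈ sliceA n :=
  ⟨trace_Slk a, commute_Slk_sub a⟩

theorem exists_Slk {s : Matrix (Fin (n + 1)) (Fin (n + 1)) ℂ} (hs : s ∈ sliceA n) :
    ∃ a : Fin n → ℂ, s = Slk (n + 1) (κA n) a := by
  obtain ⟨htr, hc⟩ := hs
  obtain ⟨c, h1, h2⟩ := commute_fm_eq hc
  have h3 : (s - Pool.Agent.MP_c45d35_ag.em ℂ (n + 1)).trace = ((n : ℂ) + 1) * c 0 := by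
    rw [h1, Matrix.trace_sum, Fin.sum_univ_succ, Finset.sum_eq_zero, add_zero]
    · simp only [Fin.val_zero, pow_zero, Matrix.trace_smul, Matrix.trace_one, Fintype.card_fin,
        smul_eq_mul]
      push_cast
      ring
    · intro m _
      rw [Matrix.trace_smul, trace_fm_pow (by rw [Fin.val_succ]; omega), smul_zero]
  rw [Matrix.trace_sub, htr, trace_em, sub_zero] at h3
  have h4 : c 0 = 0 := by
    rcases mul_eq_zero.1 h3.symm with h | h
    · exfalso
      have : ((n + 1 : ℕ) : ℂ) = 0 := by push_cast; exact h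
      exact absurd (Nat.cast_eq_zero.1 this) (Nat.succ_ne_zero n)
    · exact h
  refine ⟨fun m => c m.succ, ?_⟩
  have h5 : s = Pool.Agent.MP_c45d35_ag.em ℂ (n + 1) + (s - Pool.Agent.MP_c45d35_ag.em ℂ (n + 1)) := by abel
  rw [h5, h1]
  unfold Slk
  rw [Fin.sum_univ_succ, h4, zero_smul, zero_add]
  rfl

theorem exists_Slk_charpoly [Algebra ℂ R] (M : Matrix (Fin (n + 1)) (Fin (n + 1)) R)
    (hM : M.trace = 0) : ∃ a : Fin n → R, (Slk (n + 1) (κA n) a).charpoly = M.charpoly := by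
  have htr : ∀ M : Matrix (Fin (n + 1)) (Fin (n + 1)) R, M.trace = 0 → M.charpoly.coeff n = 0 := by
    intro M hM
    have h1 := Matrix.trace_eq_neg_charpoly_coeff M
    rw [hM, Fintype.card_fin] at h1
    simp only [Nat.add_sub_cancel] at h1
    rw [← neg_eq_zero]
    exact h1.symm
  have key : ∀ t : ℕ, t ≤ n → ∃ a : Fin n → R, ∀ m, n ≤ m + t →
      ((Slk (n + 1) (κA n) a).charpoly - M.charpoly).coeff m = 0 := by
    intro t
    induction t with
    | zero =>
      intro _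
      refine ⟨fun _ => 0, fun m hm => ?_⟩
      rw [Polynomial.coeff_sub]
      rcases Nat.lt_or_ge (n + 1) m with h | h
      · rw [charpoly_coeff_of_lt _ h, charpoly_coeff_of_lt _ h, sub_zero]
      · rcases Nat.lt_or_ge n m with h' | h'
        · have : m = n + 1 := by omega
          subst this
          rw [charpoly_coeff_self, charpoly_coeff_self, sub_self]
        · have : m = n := by omega
          subst this
          rw [htr _ (trace_Slk _), htr _ hM, sub_zero]
    | succ t ih =>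
      intro ht
      obtain ⟨a, ha⟩ := ih (by omega)
      have htN : t < n := by omega
      obtain ⟨v, hv⟩ := isUnit_sum_Fk (R := R) (N := n + 1) (k := κA n ⟨t, htN⟩) (κA_lt _)
      set D := ((Slk (n + 1) (κA n) a).charpoly - M.charpoly).coeff (n + 1 - 1 - κA n ⟨t, htN⟩)
        with hD
      set τ : R := D * ((v⁻¹ : Rˣ) : R) with hτ
      refine ⟨Function.update a ⟨t, htN⟩ (a ⟨t, htN⟩ + τ), fun m hm => ?_⟩
      have h1 := Slk_diff κA_mono κA_lt (Function.update a ⟨t, htN⟩ (a ⟨t, htN⟩ + τ)) a ⟨t, htN⟩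
        κA_pos (fun m' hm' => Function.update_of_ne (ne_of_lt hm') _ _)
      have e : ∀ k, ((Slk (n + 1) (κA n) (Function.update a ⟨t, htN⟩ (a ⟨t, htN⟩ + τ))).charpoly -
          M.charpoly).coeff k =
          ((Slk (n + 1) (κA n) (Function.update a ⟨t, htN⟩ (a ⟨t, htN⟩ + τ))).charpoly -
          (Slk (n + 1) (κA n) a).charpoly).coeff k +
          ((Slk (n + 1) (κA n) a).charpoly - M.charpoly).coeff k := by
        intro k
        rw [← Polynomial.coeff_add, sub_add_sub_cancel]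
      have hκt : κA n ⟨t, htN⟩ = t + 1 := rfl
      by_cases hm1 : n ≤ m + t
      · rw [e, ha m hm1, h1.1 m (by rw [hκt]; omega), add_zero]
      · have hm2 : m = n + 1 - 1 - κA n ⟨t, htN⟩ := by rw [hκt]; omega
        have h2 := h1.2
        rw [← hm2] at h2
        rw [e, h2, hm2, ← hD, Function.update_self, add_sub_cancel_left, ← hv, hτ, mul_assoc,
          Units.inv_mul, mul_one, neg_add_cancel]
  obtain ⟨a, ha⟩ := key n le_rfl
  refine ⟨a, ?_⟩
  rw [← sub_eq_zero]
  ext m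
  rw [Polynomial.coeff_zero]
  exact ha m (by omega)

theorem isHess_of_mem {s : Matrix (Fin (n + 1)) (Fin (n + 1)) ℂ} (hs : s ∈ sliceA n) :
    IsHess s := by
  obtain ⟨a, rfl⟩ := exists_Slk hs
  exact isHess_Slk κA_pos a

theorem exists_roots (a : Fin n → ℂ) : ∃ x : Fin n → ℂ, (Slk (n + 1) (κA n) a).charpoly =
    ∏ i : Fin (n + 1), (Polynomial.X - Polynomial.C (ev (wtA i) x)) := by
  obtain ⟨w, hw⟩ := exists_prod (Slk (n + 1) (κA n) a).charpoly (Matrix.charpoly_monic _) (n + 1)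
    (by rw [Matrix.charpoly_natDegree_eq_dim, Fintype.card_fin])
  have h1 : ∑ i, w i = 0 := by
    have h2 := Matrix.trace_eq_neg_charpoly_coeff (Slk (n + 1) (κA n) a)
    rw [trace_Slk, Fintype.card_fin, hw] at h2
    have h3 := Polynomial.prod_X_sub_C_coeff_card_pred Finset.univ w (by simp)
    rw [Finset.card_univ, Fintype.card_fin] at h3
    rw [h3, neg_neg] at h2
    exact h2.symm
  refine ⟨fun k => w k.castSucc, ?_⟩
  rw [hw]
  refine Finset.prod_congr rfl fun i _ => ?_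
  congr 2
  by_cases hi : (i : ℕ) < n
  · rw [cc_ev i hi]
    rfl
  · have hi' : (i : ℕ) = n := by have := i.2; omega
    rw [cc_ev_last i hi']
    rw [Fin.sum_univ_castSucc] at h1
    have : i = Fin.last n := Fin.ext hi'
    rw [this]
    linear_combination h1

theorem exists_slice_param (n : ℕ) :
    ∃ sx px : Matrix (Fin (n + 1)) (Fin (n + 1)) (MvPolynomial (Fin n) ℂ),
      LowUni px ∧ px * (Pool.Agent.MP_c45d35_ag.em _ (n + 1) + Matrix.diagonal fun i => ev (wtA i) MvPolynomial.X) =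
        sx * px ∧
      (∀ x : Fin n → ℂ, sx.map (MvPolynomial.eval x) ∈ sliceA n) ∧
      (∀ s ∈ sliceA n, ∃ x : Fin n → ℂ, s = sx.map (MvPolynomial.eval x)) ∧
      (∀ x x' : Fin n → ℂ,
        (∏ i : Fin (n + 1), (Polynomial.X - Polynomial.C (ev (wtA i) x)) : Polynomial ℂ) =
          ∏ i : Fin (n + 1), (Polynomial.X - Polynomial.C (ev (wtA i) x')) →
        sx.map (MvPolynomial.eval x) = sx.map (MvPolynomial.eval x')) := by
  set M : Matrix (Fin (n + 1)) (Fin (n + 1)) (MvPolynomial (Fin n) ℂ) :=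
    Pool.Agent.MP_c45d35_ag.em _ (n + 1) + Matrix.diagonal fun i => ev (wtA i) MvPolynomial.X with hM
  have hMT : M.trace = 0 := by
    rw [hM, Matrix.trace_add, trace_em, Matrix.trace_diagonal, zero_add, sum_ev]
  obtain ⟨a, ha⟩ := exists_Slk_charpoly M hMT
  obtain ⟨px, hpx, hpx'⟩ := Pool.Agent.MP_c45d35_ag.hess_intertwiner (isHess_em_add _)
    (isHess_Slk κA_pos a) ha.symm
  have hmap : ∀ x : Fin n → ℂ, (Slk (n + 1) (κA n) a).map (MvPolynomial.eval x) =
      Slk (n + 1) (κA n) (fun m => MvPolynomial.eval x (a m)) := fun x => Slk_map _ _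
  have hchar : ∀ x : Fin n → ℂ,
      (Slk (n + 1) (κA n) (fun m => MvPolynomial.eval x (a m))).charpoly =
      ∏ i : Fin (n + 1), (Polynomial.X - Polynomial.C (ev (wtA i) x)) := by
    intro x
    rw [← hmap, Matrix.charpoly_map, ha, hM, charpoly_em_add, Polynomial.map_prod]
    refine Finset.prod_congr rfl fun i _ => ?_
    rw [Polynomial.map_sub, Polynomial.map_X, Polynomial.map_C, ev_map]
    simp
  refine ⟨Slk (n + 1) (κA n) a, px, hpx, hpx', ?_, ?_, ?_⟩
  · intro x
    rw [hmap]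
    exact Slk_mem _
  · intro s hs
    obtain ⟨c, rfl⟩ := exists_Slk hs
    obtain ⟨x, hx⟩ := exists_roots c
    refine ⟨x, ?_⟩
    rw [hmap]
    congr 1
    apply Slk_injective κA_mono κA_lt κA_pos
    rw [hchar, hx]
  · intro x x' h
    rw [hmap, hmap]
    congr 1
    apply Slk_injective κA_mono κA_lt κA_pos
    rw [hchar, hchar, h]

end slice

/-- The slice element with parameter `x`. -/
noncomputable def sxA (n : ℕ) : Matrix (Fin (n + 1)) (Fin (n + 1)) (MvPolynomial (Fin n) ℂ) :=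
  (exists_slice_param n).choose

/-- The conjugator. -/
noncomputable def pxA (n : ℕ) : Matrix (Fin (n + 1)) (Fin (n + 1)) (MvPolynomial (Fin n) ℂ) :=
  (exists_slice_param n).choose_spec.choose

/-- The data of `SL_{n+1}`. -/
noncomputable def DA (n : ℕ) : Dat n (n + 1) (RA n) where
  eqs := eqsA n
  wt := wtA
  rt β := wtA β.1.1 - wtA β.1.2
  cr := crA
  dep β := (β.1.2 : ℕ) - (β.1.1 : ℕ)
  E := EA
  ze β := if (β.1.2 : ℕ) = (β.1.1 : ℕ) + 1 then 1 else 0
  S := sliceA n
  sx := sxA n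
  px := pxA n

end Pool.Agent.MTD.TA
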