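import Mathlib

/-! # MTD : a matrix model of the Grassmann algebra (row G1)

Matrices indexed by `Finset (Fin N)` (Fock space); `cr j` is the creation operator (Jordan-Wigner
signs), its transpose the annihilation operator.  `io u = ∑ u_j cr_j` generates the Grassmann
algebra, `ph J` is the coordinate functional `⟨J| · |∅⟩`. -/

namespace Pool.Agent.MTD.GR

open Matrix

/-- Index set of the Fock space. -/
abbrev GI (N : ℕ) := Finset (Fin N)

/-- Creation operator. -/
def cr {N : ℕ} (j : Fin N) : Matrix (GI N) (GI N) ℤ := Matrix.of fun S T =>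
  if j ∉ T ∧ S = insert j T then (-1) ^ (T.filter (· < j)).card else 0

variable {N k : ℕ}

/-- the Jordan-Wigner sign -/
def g1_sg (j : Fin N) (T : GI N) : ℤ := (-1) ^ (T.filter (· < j)).card

theorem g1_sg_mul_self (j : Fin N) (T : GI N) : g1_sg j T * g1_sg j T = 1 := by
  unfold g1_sg
  rw [← mul_pow]
  norm_num

theorem g1_sg_insert (i j : Fin N) (T : GI N) (hj : j ∉ T) :
    g1_sg i (insert j T) = if j < i then -g1_sg i T else g1_sg i T := by
  unfold g1_sg
  rw [Finset.filter_insert]
  split_ifs with h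
  · rw [Finset.card_insert_of_notMem (fun h' => hj (Finset.mem_filter.1 h').1), pow_succ]
    ring
  · rfl

theorem g1_cr (j : Fin N) (S T : GI N) :
    cr j S T = if j ∉ T ∧ S = insert j T then g1_sg j T else 0 := rfl

theorem g1_mul_cr (A : Matrix (GI N) (GI N) ℤ) (j : Fin N) (S T : GI N) :
    (A * cr j) S T = if j ∉ T then A S (insert j T) * g1_sg j T else 0 := by
  rw [Matrix.mul_apply]
  by_cases h : j ∈ T
  · rw [if_neg (not_not.2 h)]
    apply Finset.sum_eq_zero
    intro U _
    rw [g1_cr, if_neg (fun h' => h'.1 h), mul_zero]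
  · rw [if_pos h, Finset.sum_eq_single (insert j T)]
    · rw [g1_cr, if_pos ⟨h, rfl⟩]
    · intro U _ hU
      rw [g1_cr, if_neg (fun h' => hU h'.2), mul_zero]
    · intro h'
      exact absurd (Finset.mem_univ _) h'

theorem g1_mul_crT (A : Matrix (GI N) (GI N) ℤ) (i : Fin N) (S T : GI N) :
    (A * (cr i)ᵀ) S T = if i ∈ T then A S (T.erase i) * g1_sg i (T.erase i) else 0 := by
  rw [Matrix.mul_apply]
  split_ifs with h
  · rw [Finset.sum_eq_single (T.erase i)]
    · rw [Matrix.transpose_apply, g1_cr,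
        if_pos ⟨Finset.notMem_erase i T, (Finset.insert_erase h).symm⟩]
    · intro U _ hU
      rw [Matrix.transpose_apply, g1_cr, if_neg, mul_zero]
      rintro ⟨h1, h2⟩
      apply hU
      rw [h2, Finset.erase_insert h1]
    · intro h'
      exact absurd (Finset.mem_univ _) h'
  · apply Finset.sum_eq_zero
    intro U _
    rw [Matrix.transpose_apply, g1_cr, if_neg, mul_zero]
    rintro ⟨h1, h2⟩
    apply h
    rw [h2]
    exact Finset.mem_insert_self _ _

theorem cr_mul_self (j : Fin N) : cr j * cr j = 0 := by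
  ext S T
  rw [g1_mul_cr, Matrix.zero_apply]
  by_cases h : j ∈ T
  · rw [if_neg (not_not.2 h)]
  · rw [if_pos h, g1_cr, if_neg (fun h' => h'.1 (Finset.mem_insert_self _ _)), zero_mul]

theorem g1_cr_cr {i j : Fin N} (hij : i ≠ j) (S T : GI N) :
    (cr i * cr j) S T = if i ∉ T ∧ j ∉ T ∧ S = insert i (insert j T) then
      (if j < i then -(g1_sg i T * g1_sg j T) else g1_sg i T * g1_sg j T) else 0 := by
  rw [g1_mul_cr]
  by_cases hj : j ∈ T
  · rw [if_neg (not_not.2 hj), if_neg (fun h => h.2.1 hj)]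
  rw [if_pos hj, g1_cr]
  by_cases hc : i ∉ T ∧ S = insert i (insert j T)
  · rw [if_pos ⟨fun h => hc.1 (Finset.mem_of_mem_insert_of_ne h hij), hc.2⟩,
      if_pos ⟨hc.1, hj, hc.2⟩, g1_sg_insert i j T hj]
    split_ifs <;> ring
  · rw [if_neg (fun h => hc ⟨fun h' => h.1 (Finset.mem_insert_of_mem h'), h.2⟩),
      if_neg (fun h => hc ⟨h.1, h.2.2⟩), zero_mul]

theorem cr_anti (i j : Fin N) : cr i * cr j = -(cr j * cr i) := by
  rcases eq_or_ne i j with rfl | hij
  · rw [cr_mul_self, neg_zero]
  ext S T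
  rw [Matrix.neg_apply, g1_cr_cr hij, g1_cr_cr hij.symm]
  by_cases hc : i ∉ T ∧ j ∉ T ∧ S = insert i (insert j T)
  · have hc' : j ∉ T ∧ i ∉ T ∧ S = insert j (insert i T) :=
      ⟨hc.2.1, hc.1, by rw [hc.2.2, Finset.insert_comm]⟩
    rw [if_pos hc, if_pos hc']
    rcases lt_or_gt_of_ne hij with h | h
    · rw [if_neg h.not_gt, if_pos h]
      ring
    · rw [if_pos h, if_neg h.not_gt]
      ring
  · rw [if_neg hc, if_neg, neg_zero]
    rintro ⟨h1, h2, h3⟩
    exact hc ⟨h2, h1, by rw [h3, Finset.insert_comm]⟩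

/-- Canonical anticommutation relations. -/
theorem car (i j : Fin N) :
    (cr i)ᵀ * cr j + cr j * (cr i)ᵀ = if i = j then 1 else 0 := by
  ext S T
  rw [Matrix.add_apply, g1_mul_cr, g1_mul_crT, Matrix.transpose_apply, g1_cr, g1_cr]
  rcases eq_or_ne i j with rfl | hij
  · rw [if_pos rfl, Matrix.one_apply]
    by_cases hT : i ∈ T
    · rw [if_neg (not_not.2 hT), if_pos hT, Finset.insert_erase hT, zero_add]
      by_cases hST : S = T
      · rw [if_pos ⟨Finset.notMem_erase i T, hST⟩, if_pos hST, g1_sg_mul_self]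
      · rw [if_neg (fun h => hST h.2), if_neg hST, zero_mul]
    · rw [if_pos hT, if_neg hT, add_zero]
      by_cases hST : S = T
      · subst hST
        rw [if_pos ⟨hT, rfl⟩, if_pos rfl, g1_sg_mul_self]
      · rw [if_neg, if_neg hST, zero_mul]
        rintro ⟨h1, h2⟩
        apply hST
        rw [← Finset.erase_insert h1, ← h2, Finset.erase_insert hT]
  · rw [if_neg hij, Matrix.zero_apply]
    by_cases hc : i ∈ T ∧ j ∉ T ∧ S = insert j (T.erase i)
    · obtain ⟨hi, hj, hS⟩ := hc
      have hj' : j ∉ T.erase i := fun h => hj (Finset.mem_of_mem_erase h)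
      have hiS : i ∉ S := by
        rw [hS]
        intro h
        exact Finset.notMem_erase i T (Finset.mem_of_mem_insert_of_ne h hij)
      have hins : insert j T = insert i S := by
        rw [hS, Finset.insert_comm, Finset.insert_erase hi]
      rw [if_pos hj, if_pos ⟨hiS, hins⟩, if_pos hi, if_pos ⟨hj', hS⟩, hS,
        g1_sg_insert i j _ hj']
      have h1 : g1_sg j T = if i < j then -g1_sg j (T.erase i) else g1_sg j (T.erase i) := by
        rw [← g1_sg_insert j i _ (Finset.notMem_erase i T), Finset.insert_erase hi]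
      rw [h1]
      rcases lt_or_gt_of_ne hij with h | h
      · rw [if_neg h.not_gt, if_pos h]
        ring
      · rw [if_pos h, if_neg h.not_gt]
        ring
    · have h1 : (if j ∉ T then (if i ∉ S ∧ insert j T = insert i S then g1_sg i S else 0) *
          g1_sg j T else 0) = 0 := by
        by_cases h2 : j ∈ T
        · rw [if_neg (not_not.2 h2)]
        rw [if_pos h2]
        by_cases h3 : i ∉ S ∧ insert j T = insert i S
        · exfalso
          apply hc
          have hi : i ∈ T := by
            have h4 : i ∈ insert j T := by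
              rw [h3.2]
              exact Finset.mem_insert_self _ _
            exact Finset.mem_of_mem_insert_of_ne h4 hij
          refine ⟨hi, h2, ?_⟩
          rw [← Finset.erase_insert h3.1, ← h3.2, Finset.erase_insert_of_ne hij.symm]
        · rw [if_neg h3, zero_mul]
      have h5 : (if i ∈ T then (if j ∉ T.erase i ∧ S = insert j (T.erase i) then
          g1_sg j (T.erase i) else 0) * g1_sg i (T.erase i) else 0) = 0 := by
        split_ifs with h2 h3
        · exfalso
          exact hc ⟨h2, fun h => h3.1 (Finset.mem_erase.2 ⟨hij.symm, h⟩), h3.2⟩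
        · rw [zero_mul]
        · rfl
      rw [h1, h5, add_zero]

theorem an_empty (i : Fin N) (T : GI N) : (cr i)ᵀ T ∅ = 0 := by
  rw [Matrix.transpose_apply, g1_cr, if_neg]
  rintro ⟨_, h⟩
  exact Finset.insert_ne_empty _ _ h.symm

section
variable {K : Type*} [CommRing K]

/-- The embedding `u ↦ ∑ u_j cr_j` of the vectors. -/
def io (u : Fin N → K) : Matrix (GI N) (GI N) K := ∑ j, u j • (cr j).map (Int.cast : ℤ → K)

theorem io_add (u v : Fin N → K) : io (u + v) = io u + io v := by
  simp only [io, Pi.add_apply, add_smul, Finset.sum_add_distrib]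

theorem io_smul (c : K) (u : Fin N → K) : io (c • u) = c • io u := by
  simp only [io, Pi.smul_apply, Finset.smul_sum, smul_eq_mul, mul_smul]

/-- the matrices over `K` -/
abbrev g1_c (K : Type*) [CommRing K] (M : Matrix (GI N) (GI N) ℤ) : Matrix (GI N) (GI N) K :=
  (Int.castRingHom K).mapMatrix M

theorem g1_io (u : Fin N → K) : io u = ∑ j, u j • g1_c K (cr j) := rfl

theorem io_mul_self (u : Fin N → K) : io u * io u = 0 := by
  rw [g1_io, Finset.sum_mul_sum, ← Finset.sum_product']
  refine Finset.sum_involution (fun p _ => (p.2, p.1)) ?_ ?_ ?_ ?_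
  · rintro ⟨i, j⟩ _
    change u i • g1_c K (cr i) * u j • g1_c K (cr j) + u j • g1_c K (cr j) * u i • g1_c K (cr i) = 0
    rw [smul_mul_smul_comm, smul_mul_smul_comm, mul_comm (u j) (u i), ← smul_add, ← map_mul,
      ← map_mul, ← map_add, cr_anti i j, neg_add_cancel, map_zero, smul_zero]
  · rintro ⟨i, j⟩ _ h h'
    have hij : j = i := congrArg Prod.fst h'
    subst hij
    apply h
    change u j • g1_c K (cr j) * u j • g1_c K (cr j) = 0
    rw [smul_mul_smul_comm, ← map_mul, cr_mul_self, map_zero, smul_zero]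
  · intro p _
    exact Finset.mem_product.2 ⟨Finset.mem_univ _, Finset.mem_univ _⟩
  · rintro ⟨i, j⟩ _
    rfl

theorem io_map {S : Type*} [CommRing S] (f : K →+* S) (u : Fin N → K) :
    (io u).map f = io fun j => f (u j) := by
  ext A B
  rw [Matrix.map_apply, io, io, Matrix.sum_apply, Matrix.sum_apply, map_sum]
  refine Finset.sum_congr rfl fun j _ => ?_
  rw [Matrix.smul_apply, Matrix.smul_apply, Matrix.map_apply, Matrix.map_apply, smul_eq_mul,
    smul_eq_mul, map_mul, map_intCast]

theorem io_mem (O : Subring K) (u : Fin N → K) (hu : ∀ j, u j ∈ O) (S T : GI N) : io u S T ∈ O := by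
  rw [io, Matrix.sum_apply]
  refine O.sum_mem fun j _ => ?_
  rw [Matrix.smul_apply, Matrix.map_apply, smul_eq_mul]
  exact O.mul_mem (hu j) (intCast_mem O _)

/-- The functional `X ↦ ⟨∅| an(J_{k-1}) ⋯ an(J_0) X |∅⟩`. -/
def ph (J : Fin k → Fin N) : Matrix (GI N) (GI N) K →ₗ[K] K where
  toFun X := (((List.ofFn fun i => (cr (J i))ᵀ).reverse.prod.map (Int.cast : ℤ → K)) * X) ∅ ∅
  map_add' X Y := by rw [Matrix.mul_add, Matrix.add_apply]
  map_smul' c X := by rw [Matrix.mul_smul, Matrix.smul_apply, RingHom.id_apply]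

theorem ph_map {S : Type*} [CommRing S] (f : K →+* S) (J : Fin k → Fin N)
    (X : Matrix (GI N) (GI N) K) : ph J (X.map f) = f (ph J X) := by
  change (((List.ofFn fun i => (cr (J i))ᵀ).reverse.prod.map (Int.cast : ℤ → S)) * X.map f) ∅ ∅ =
    f ((((List.ofFn fun i => (cr (J i))ᵀ).reverse.prod.map (Int.cast : ℤ → K)) * X) ∅ ∅)
  rw [Matrix.mul_apply, Matrix.mul_apply, map_sum]
  refine Finset.sum_congr rfl fun T _ => ?_
  rw [Matrix.map_apply, Matrix.map_apply, Matrix.map_apply, map_mul, map_intCast]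

theorem ph_mem (O : Subring K) (J : Fin k → Fin N) (X : Matrix (GI N) (GI N) K)
    (hX : ∀ S T, X S T ∈ O) : ph J X ∈ O := by
  change (((List.ofFn fun i => (cr (J i))ᵀ).reverse.prod.map (Int.cast : ℤ → K)) * X) ∅ ∅ ∈ O
  rw [Matrix.mul_apply]
  refine O.sum_mem fun T _ => ?_
  rw [Matrix.map_apply]
  exact O.mul_mem (intCast_mem O _) (hX _ _)

theorem g1_an_io (i : Fin N) (u : Fin N → K) :
    g1_c K (cr i)ᵀ * io u = u i • 1 - io u * g1_c K (cr i)ᵀ := by
  rw [eq_sub_iff_add_eq, g1_io, Finset.mul_sum, Finset.sum_mul, ← Finset.sum_add_distrib,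
    Finset.sum_eq_single i]
  · rw [mul_smul_comm, smul_mul_assoc, ← smul_add, ← map_mul, ← map_mul, ← map_add, car,
      if_pos rfl, map_one]
  · intro j _ hj
    rw [mul_smul_comm, smul_mul_assoc, ← smul_add, ← map_mul, ← map_mul, ← map_add, car,
      if_neg hj.symm, map_zero, smul_zero]
  · intro h
    exact absurd (Finset.mem_univ _) h

/-- the product of the `io (u i)` -/
abbrev g1_P {k : ℕ} (u : Fin k → Fin N → K) : Matrix (GI N) (GI N) K :=
  (List.ofFn fun i => io (u i)).prod

theorem g1_P_succ {k : ℕ} (u : Fin (k + 1) → Fin N → K) :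
    g1_P u = io (u 0) * g1_P (fun i : Fin k => u i.succ) := by
  unfold g1_P
  rw [List.ofFn_succ, List.prod_cons]

theorem g1_wick (i : Fin N) (n : ℕ) : ∀ u : Fin (n + 1) → Fin N → K,
    g1_c K (cr i)ᵀ * g1_P u = ∑ j : Fin (n + 1), ((-1) ^ (j : ℕ) * u j i) •
      g1_P (fun l => u (j.succAbove l)) + ((-1 : K) ^ (n + 1)) • (g1_P u * g1_c K (cr i)ᵀ) := by
  induction n with
  | zero =>
    intro u
    have h0 : ∀ v : Fin 0 → Fin N → K, g1_P v = 1 := by
      intro v
      unfold g1_P
      rw [List.ofFn_zero, List.prod_nil]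
    rw [Fin.sum_univ_one, g1_P_succ, h0, h0, mul_one, g1_an_io]
    simp [sub_eq_add_neg]
  | succ n ih =>
    intro u
    rw [Fin.sum_univ_succ, g1_P_succ, ← mul_assoc, g1_an_io, sub_mul, mul_assoc, ih, smul_mul_assoc,
      one_mul]
    have h1 : ∀ j : Fin (n + 1), g1_P (fun l => u (j.succ.succAbove l)) =
        io (u 0) * g1_P (fun l => u (j.succAbove l).succ) := by
      intro j
      rw [g1_P_succ]
      simp only [Fin.succ_succAbove_zero, Fin.succ_succAbove_succ]
    have h2 : (fun l => u ((0 : Fin (n + 2)).succAbove l)) = fun l => u l.succ := by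
      funext l
      rw [Fin.zero_succAbove]
    simp only [h1, h2]
    rw [mul_add, Finset.mul_sum, sub_eq_add_neg, neg_add, ← Finset.sum_neg_distrib]
    refine Eq.trans ?_ (add_assoc _ _ _).symm
    refine congrArg₂ (· + ·) ?_ (congrArg₂ (· + ·) ?_ ?_)
    · simp
    · refine Finset.sum_congr rfl fun j _ => ?_
      rw [mul_smul_comm, Fin.val_succ, pow_succ, ← neg_smul]
      congr 1
      ring
    · have h3 : (-1 : K) ^ (n + 1 + 1) = -(-1 : K) ^ (n + 1) := by ring
      rw [mul_smul_comm, h3, neg_smul, mul_assoc]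

/-- **Wick's theorem.**  Induction on `k`: move `an(J_0)` to the right with `car`
(`an(i) io(u) = u_i - io(u) an(i)`), it kills the vacuum (`an_empty`); this is the Laplace expansion
(`Matrix.det_succ_row_zero`). -/
theorem ph_prod (J : Fin k → Fin N) (u : Fin k → Fin N → K) :
    ph J (List.ofFn fun i => io (u i)).prod = Matrix.det (Matrix.of fun i j => u j (J i)) := by
  have hph : ∀ {k : ℕ} (J : Fin k → Fin N) (X : Matrix (GI N) (GI N) K),
      ph J X = (g1_c K (List.ofFn fun i => (cr (J i))ᵀ).reverse.prod * X) ∅ ∅ := fun J X => rfl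
  induction k with
  | zero =>
    rw [hph, List.ofFn_zero, List.ofFn_zero]
    simp
  | succ n ih =>
    have h1 : (List.ofFn fun i => (cr (J i))ᵀ).reverse.prod =
        (List.ofFn fun i : Fin n => (cr (J i.succ))ᵀ).reverse.prod * (cr (J 0))ᵀ := by
      rw [List.ofFn_succ, List.reverse_cons, List.prod_append, List.prod_singleton]
    have h1' : g1_c K ((List.ofFn fun i : Fin n => (cr (J i.succ))ᵀ).reverse.prod * (cr (J 0))ᵀ) =
        g1_c K (List.ofFn fun i : Fin n => (cr (J i.succ))ᵀ).reverse.prod * g1_c K (cr (J 0))ᵀ :=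
      map_mul _ _ _
    rw [hph, h1, h1', mul_assoc]
    have h2 := g1_wick (K := K) (J 0) n u
    rw [h2, mul_add, Finset.mul_sum, Matrix.add_apply, Matrix.sum_apply, Matrix.det_succ_row_zero]
    have h3 : (g1_c K (List.ofFn fun i : Fin n => (cr (J i.succ))ᵀ).reverse.prod *
        ((-1 : K) ^ (n + 1)) • (g1_P u * g1_c K (cr (J 0))ᵀ)) ∅ ∅ = 0 := by
      rw [mul_smul_comm, ← mul_assoc, Matrix.smul_apply, Matrix.mul_apply, Finset.sum_eq_zero,
        smul_zero]
      intro T _
      have h4 : g1_c K (cr (J 0))ᵀ T ∅ = 0 := by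
        change (((cr (J 0))ᵀ T ∅ : ℤ) : K) = 0
        rw [an_empty, Int.cast_zero]
      rw [h4, mul_zero]
    rw [h3, add_zero]
    refine Finset.sum_congr rfl fun j _ => ?_
    rw [mul_smul_comm, Matrix.smul_apply, ← hph, smul_eq_mul]
    rw [ih (fun i => J i.succ) (fun l => u (j.succAbove l))]
    rfl

/-- The functional twisted by a matrix `g` (so that `pg g I (io u_0 ⋯ io u_{k-1})` is the minor of
`g` applied to the vectors `u_j`). -/
def pg (g : Matrix (Fin N) (Fin N) K) (I : Fin k → Fin N) : Matrix (GI N) (GI N) K →ₗ[K] K :=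
  ∑ J : Fin k → Fin N, (∏ i, g (I i) (J i)) • ph J

theorem pg_apply (g : Matrix (Fin N) (Fin N) K) (I : Fin k → Fin N) (X : Matrix (GI N) (GI N) K) :
    pg g I X = ∑ J : Fin k → Fin N, (∏ i, g (I i) (J i)) * ph J X := by
  rw [pg, LinearMap.sum_apply]
  rfl

/-- Follows from `ph_prod` by multilinearity of the determinant in the rows
(compare `Pool.Agent.MP_c45d35_ag.BlockD.det_sum`, or `Matrix.det_mul`-like expansions). -/
theorem pg_prod (g : Matrix (Fin N) (Fin N) K) (I : Fin k → Fin N) (u : Fin k → Fin N → K) :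
    pg g I (List.ofFn fun i => io (u i)).prod =
      Matrix.det (Matrix.of fun i j => (g.mulVec (u j)) (I i)) := by
  rw [pg_apply]
  have h1 : (Matrix.of fun i j => (g.mulVec (u j)) (I i)) =
      fun i => ∑ l : Fin N, g (I i) l • fun j : Fin k => u j l := by
    funext i
    funext j
    rw [Finset.sum_apply]
    rfl
  rw [h1]
  have h2 := (Matrix.detRowAlternating (n := Fin k) (R := K)).toMultilinearMap.map_sum
    (fun (i : Fin k) (l : Fin N) => g (I i) l • fun j : Fin k => u j l)
  refine Eq.trans ?_ h2.symm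
  refine Finset.sum_congr rfl fun J _ => ?_
  have h3 := (Matrix.detRowAlternating (n := Fin k) (R := K)).toMultilinearMap.map_smul_univ
    (fun i => g (I i) (J i)) (fun (i : Fin k) (j : Fin k) => u j (J i))
  refine Eq.trans ?_ h3.symm
  rw [ph_prod, smul_eq_mul]
  rfl

/-- Semi-invariance: if `h w_a = lam_a w_a` for all labels `a`, then a product of `k` vectors `w_a`
is multiplied by the product of the `lam_a`. -/
theorem pg_semi {A : Type*} (w : A → Fin N → K) (lam : A → K) (h : Matrix (Fin N) (Fin N) K)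
    (hw : ∀ a, h.mulVec (w a) = lam a • w a) (g : Matrix (Fin N) (Fin N) K) (I : Fin k → Fin N)
    (l : List A) (hl : l.length = k) :
    pg (g * h) I (l.map fun a => io (w a)).prod =
      (l.map lam).prod * pg g I (l.map fun a => io (w a)).prod := by
  subst hl
  have h0 : ∀ {B : Type _} (f : A → B), l.map f = List.ofFn fun i : Fin l.length => f (l.get i) := by
    intro B f
    conv_lhs => rw [← List.ofFn_get l]
    rw [List.map_ofFn]
    rfl
  have h1 : (l.map fun a => io (w a)) = List.ofFn fun i : Fin l.length => io (w (l.get i)) := by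
    rw [h0]
  have h2 : (l.map lam).prod = ∏ i : Fin l.length, lam (l.get i) := by
    rw [h0, List.prod_ofFn]
  rw [h1, pg_prod _ _ (fun i => w (l.get i)), pg_prod _ _ (fun i => w (l.get i)), h2,
    ← Matrix.det_mul_row]
  congr 1
  ext i j
  rw [Matrix.of_apply, Matrix.of_apply, Matrix.of_apply, ← Matrix.mulVec_mulVec, hw,
    Matrix.mulVec_smul, Pi.smul_apply, smul_eq_mul]

end

end Pool.Agent.MTD.GR
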