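import Pool.Agent.MTD.TL1

/-! # MTD : local algebra, regularity of `V(R)` (row L2)

Notation `α = y_q - y_p` (case `-`) or `α = y_p + y_q` (case `+`); all other `y_i ± y_j` are units
of `O`.  Write `C = Rᶜ`.

Case `0` (`VR_mem0`): everything is in `L`.

Case `-`: `P_q = P_p + α d`, `Q_q = Q_p + α d'`, `y_q = y_p + α`.
* `p, q ∉ R`: `NC (insert q (insert p C'')) = inv(..) • inv(y_q - y_p) • NC C'' * (P_p * P_q)` and
  `P_p * P_q = α • P_p * d`, and `inv(α) * α = 1`; the coefficients `cO y i`, `i ∈ R`, are in `O`.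
* `p ∉ R, q ∈ R` (and symmetrically): `C = insert p C'`, `R = insert q R'`; `Ω_R = Ω_{R'} + cO_q P_q Q_q`
  with `cO_q = (unit of O) * inv α`; `Ω_R^m = Ω_{R'}^m + m Ω_{R'}^{m-1} cO_q P_q Q_q`
  (`add_pow_sq_zero`), and `P_p * P_q * Q_q = α • P_p * d * Q_q`.
* `p, q ∈ R`: `cO_p P_p Q_p + cO_q P_q Q_q ∈ L`: with `c_p = ∏_{l ≠ p,q} (y_l² - y_p²)` and
  `c_q = ∏_{l≠p,q} (y_l² - y_q²)`, `c_q - c_p ∈ α O`, it is
  `inv(2 α (y_q + y_p)) • (P_p Q_p (inv c_p - inv c_q) - α (d Q_p + P_p d' + α d d') inv c_q)`.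

Case `+`: `P_q = Q_p + α d`, `Q_q = P_p + α d'`, `y_q = α - y_p`.
* `p, q ∉ R`: everything is regular.
* `p ∉ R, q ∈ R`: `P_p * (P_q * Q_q) = P_p P_q (P_p + α d') = α P_p P_q d'` (as `P_p P_q P_p = 0`).
* `q ∉ R, p ∈ R`: `P_q * (P_p * Q_p) = (Q_p + α d) P_p Q_p = α d P_p Q_p`.
* `p, q ∈ R`: `sp y R = α * (element of O)`, and `Ω_R = Ω_{R'} + inv(α) • ξ + ρ` with `ρ ∈ L` where
  `ξ = inv((y_q - y_p) c_p) • P_p Q_p` has square zero and is central; so
  `Ω_R^m = ω^m + m inv(α) ω^{m-1} ξ` with `ω = Ω_{R'} + ρ ∈ L`.  See the row L3 for `ρ`. -/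

namespace Pool.Agent.MTD.LA

variable {K Λ : Type*} [CommRing K] [Algebra ℂ K] [Ring Λ] [Algebra K Λ] {k : ℕ}
variable {O : Subalgebra ℂ K} {L : Subring Λ} {E : Submodule K Λ} {y : Fin k → K} {P Q : Fin k → Λ}

theorem l2_sp_mem (h : Loc O L E y P Q) (R : Finset (Fin k)) : sp y R ∈ O :=
  prod_mem fun i _ => prod_mem fun j _ => add_mem (h.y_mem i) (h.y_mem j)

theorem l2_NC_mem (h : Loc O L E y P Q) (C : Finset (Fin k))
    (hu : ∀ i ∈ C, ∀ j ∈ C, i ≠ j → UO O (y j - y i)) : NC y P C ∈ L := by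
  unfold NC
  refine h.smul_mem _ ?_ _ ?_
  · have h1 : UO O (vd y C) := UO.prod _ _ fun i hi => UO.prod _ _ fun j hj =>
      hu i hi j (Finset.mem_filter.1 hj).1 (ne_of_lt (Finset.mem_filter.1 hj).2)
    exact h1.inverse.1
  · unfold ordP
    refine Subring.list_prod_mem L fun x hx => ?_
    obtain ⟨i, _, rfl⟩ := List.mem_map.1 hx
    exact h.P_mem i

theorem l2_sq {a b : K} (h1 : UO O (a - b)) (h2 : UO O (a + b)) : UO O (a ^ 2 - b ^ 2) := by
  rw [sq_sub_sq]
  exact h2.mul h1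

theorem l2_cO_mem (i : Fin k)
    (hu : ∀ l, l ≠ i → UO O (y l - y i) ∧ UO O (y l + y i)) : cO y i ∈ O := by
  unfold cO
  have h1 : UO O (2 * ∏ l ∈ Finset.univ.erase i, (y l ^ 2 - y i ^ 2)) :=
    UO.two.mul (UO.prod _ _ fun l hl => l2_sq (hu l (Finset.ne_of_mem_erase hl)).1
      (hu l (Finset.ne_of_mem_erase hl)).2)
  exact h1.inverse.1

theorem l2_Om_mem (h : Loc O L E y P Q) (R : Finset (Fin k))
    (hu : ∀ i ∈ R, ∀ l, l ≠ i → UO O (y l - y i) ∧ UO O (y l + y i)) : Om y P Q R ∈ L :=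
  sum_mem fun i hi => h.smul_mem _ (l2_cO_mem i (hu i hi)) _ (mul_mem (h.P_mem i) (h.Q_mem i))

theorem l2_inv_eq {a b : K} (h : a * b = 1) : Ring.inverse a = b := by
  have hu : IsUnit a := IsUnit.of_mul_eq_one b h
  have h1 := Ring.inverse_mul_cancel a hu
  calc Ring.inverse a = Ring.inverse a * (a * b) := by rw [h, mul_one]
    _ = Ring.inverse a * a * b := by ring
    _ = b := by rw [h1, one_mul]

/-- assembling -/
theorem l2_VR_mem (h : Loc O L E y P Q) (R : Finset (Fin k)) (h1 : NC y P Rᶜ ∈ L)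
    (h2 : Om y P Q R ∈ L) : VR y P Q R ∈ L :=
  h.smul_mem _ (mul_mem (l2_sp_mem h R) (O.algebraMap_mem _)) _ (mul_mem h1 (pow_mem h2 _))

theorem VR_mem0 (h : Loc O L E y P Q)
    (hu : ∀ i j, i ≠ j → UO O (y i - y j) ∧ UO O (y i + y j)) (R : Finset (Fin k)) :
    VR y P Q R ∈ L :=
  l2_VR_mem h R (l2_NC_mem h _ fun i _ j _ hij => (hu j i hij.symm).1)
    (l2_Om_mem h _ fun i _ l hl => hu l i hl)

/-- both outside of `R` -/
theorem l2_NC_pair (h : Loc O L E y P Q) {p q : Fin k} (hpq : p ≠ q) {C : Finset (Fin k)}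
    (hp : p ∉ C) (hq : q ∉ C) (hu : ∀ i ∈ C, ∀ j ∈ C, i ≠ j → UO O (y j - y i))
    (hup : ∀ i ∈ C, UO O (y p - y i)) (huq : ∀ i ∈ C, UO O (y q - y i)) {α : K} (hα : IsUnit α)
    (hy : y q - y p = α) {w : Λ} (hw : w ∈ L) (hPP : P p * P q = α • w) :
    NC y P (insert q (insert p C)) ∈ L := by
  have hq' : q ∉ insert p C := by
    rw [Finset.mem_insert]
    rintro (h1 | h1)
    · exact hpq h1.symm
    · exact hq h1
  rw [NC_insert h.sq h.P_E hq', NC_insert h.sq h.P_E hp, Finset.prod_insert hp, hy]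
  have u1 : UO O (∏ l ∈ C, (y q - y l)) := UO.prod _ _ fun i hi => huq i hi
  have u2 : UO O (∏ l ∈ C, (y p - y l)) := UO.prod _ _ fun i hi => hup i hi
  have e1 : Ring.inverse (α * ∏ l ∈ C, (y q - y l)) =
      Ring.inverse α * Ring.inverse (∏ l ∈ C, (y q - y l)) := by
    apply l2_inv_eq
    calc (α * ∏ l ∈ C, (y q - y l)) * (Ring.inverse α * Ring.inverse (∏ l ∈ C, (y q - y l)))
        = (α * Ring.inverse α) *
          ((∏ l ∈ C, (y q - y l)) * Ring.inverse (∏ l ∈ C, (y q - y l))) := by ring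
      _ = 1 := by rw [Ring.mul_inverse_cancel _ hα, u1.inverse.2.1, one_mul]
  have e2 : (Ring.inverse α * Ring.inverse (∏ l ∈ C, (y q - y l))) •
      (Ring.inverse (∏ l ∈ C, (y p - y l)) • (NC y P C * P p) * P q) =
      (Ring.inverse (∏ l ∈ C, (y q - y l)) * Ring.inverse (∏ l ∈ C, (y p - y l))) •
        (NC y P C * w) := by
    rw [smul_mul_assoc, mul_assoc, hPP, mul_smul_comm, smul_smul, smul_smul]
    congr 1
    calc Ring.inverse α * Ring.inverse (∏ l ∈ C, (y q - y l)) *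
          Ring.inverse (∏ l ∈ C, (y p - y l)) * α
        = (Ring.inverse α * α) *
          (Ring.inverse (∏ l ∈ C, (y q - y l)) * Ring.inverse (∏ l ∈ C, (y p - y l))) := by ring
      _ = _ := by rw [Ring.inverse_mul_cancel _ hα, one_mul]
  rw [e1, e2]
  exact h.smul_mem _ (mul_mem u1.inverse.1 u2.inverse.1) _ (mul_mem (l2_NC_mem h C hu) hw)

theorem l2_PQ_adj (h : Loc O L E y P Q) (i : Fin k) :
    P i * Q i ∈ Algebra.adjoin K (E : Set Λ) :=
  mul_mem (Algebra.subset_adjoin (h.P_E i)) (Algebra.subset_adjoin (h.Q_E i))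

/-- one inside, one outside of `R` -/
theorem l2_B (h : Loc O L E y P Q) {p q : Fin k} {R : Finset (Fin k)} (hp : p ∉ R)
    (hq : q ∈ R) (huC : ∀ i ∈ Rᶜ, ∀ j ∈ Rᶜ, i ≠ j → UO O (y j - y i))
    (huR : ∀ i ∈ R.erase q, ∀ l, l ≠ i → UO O (y l - y i) ∧ UO O (y l + y i)) {α : K}
    (hc : cO y q * α ∈ O) {w : Λ} (hw : w ∈ L) (hPQ : P p * (P q * Q q) = α • w) :
    VR y P Q R ∈ L := by
  have hOm : Om y P Q R = Om y P Q (R.erase q) + cO y q • (P q * Q q) := by
    conv_lhs => rw [← Finset.insert_erase hq]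
    exact Om_insert (Finset.notMem_erase q R)
  have hR' := l2_Om_mem h (R.erase q) huR
  have hpC : p ∈ Rᶜ := Finset.mem_compl.2 hp
  have hNC : NC y P Rᶜ = Ring.inverse (∏ l ∈ Rᶜ.erase p, (y p - y l)) •
      (NC y P (Rᶜ.erase p) * P p) := by
    conv_lhs => rw [← Finset.insert_erase hpC]
    exact NC_insert h.sq h.P_E (Finset.notMem_erase p _)
  have u1 : UO O (∏ l ∈ Rᶜ.erase p, (y p - y l)) := UO.prod _ _ fun i hi =>
    huC i (Finset.mem_of_mem_erase hi) p hpC (Finset.ne_of_mem_erase hi)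
  have hN' : NC y P (Rᶜ.erase p) ∈ L := l2_NC_mem h _ fun i hi j hj hij =>
    huC i (Finset.mem_of_mem_erase hi) j (Finset.mem_of_mem_erase hj) hij
  have hcen := Om_central h.sq h.P_E h.Q_E (y := y) (R.erase q)
    (l2_PQ_adj h q)
  have hcom : Commute (Om y P Q (R.erase q)) (cO y q • (P q * Q q)) := hcen.smul_right _
  have hsq : (cO y q • (P q * Q q)) * (cO y q • (P q * Q q)) = 0 := by
    rw [smul_mul_smul_comm, pair_sq h.sq (h.P_E q) (h.Q_E q), smul_zero]
  have hpow := add_pow_sq_zero hcom hsq (R.card / 2)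
  unfold VR
  refine h.smul_mem _ (mul_mem (l2_sp_mem h R) (O.algebraMap_mem _)) _ ?_
  rw [hOm, hpow, mul_add]
  refine add_mem (mul_mem (l2_NC_mem h _ huC) (pow_mem hR' _)) ?_
  set X := Om y P Q (R.erase q) ^ (R.card / 2 - 1) with hX
  have hXL : X ∈ L := pow_mem hR' _
  have hXP : X * P p = P p * X := by
    have := (Om_central h.sq h.P_E h.Q_E (y := y) (R.erase q)
      (Algebra.subset_adjoin (h.P_E p) : P p ∈ Algebra.adjoin K (E : Set Λ))).pow_left
        (R.card / 2 - 1)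
    exact this.eq
  have e : NC y P Rᶜ * (((R.card / 2 : ℕ) : Λ) * (X * cO y q • (P q * Q q))) =
      (cO y q * α * Ring.inverse (∏ l ∈ Rᶜ.erase p, (y p - y l))) •
        (((R.card / 2 : ℕ) : Λ) * (NC y P (Rᶜ.erase p) * (X * w))) := by
    have e0 : NC y P Rᶜ * (((R.card / 2 : ℕ) : Λ) * (X * cO y q • (P q * Q q))) =
        ((R.card / 2 : ℕ) : Λ) * (NC y P Rᶜ * (X * cO y q • (P q * Q q))) := by
      rw [← mul_assoc, ← (Nat.cast_commute (R.card / 2) (NC y P Rᶜ)).eq, mul_assoc]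
    rw [e0, hNC, mul_smul_comm, mul_smul_comm, smul_mul_assoc, smul_smul]
    have e1 : NC y P (Rᶜ.erase p) * P p * (X * (P q * Q q)) =
        α • (NC y P (Rᶜ.erase p) * (X * w)) := by
      calc NC y P (Rᶜ.erase p) * P p * (X * (P q * Q q))
          = NC y P (Rᶜ.erase p) * ((P p * X) * (P q * Q q)) := by simp only [mul_assoc]
        _ = NC y P (Rᶜ.erase p) * (X * (P p * (P q * Q q))) := by
            rw [← hXP]; simp only [mul_assoc]
        _ = _ := by rw [hPQ, mul_smul_comm, mul_smul_comm]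
    rw [e1, smul_smul, mul_smul_comm]
    congr 1
    ring
  rw [e]
  exact h.smul_mem _ (mul_mem hc u1.inverse.1) _
    (mul_mem (natCast_mem L _) (mul_mem hN' (mul_mem hXL hw)))

/-- the product over the other indices -/
def l2_c (y : Fin k → K) (p q i : Fin k) : K :=
  ∏ l ∈ (Finset.univ.erase p).erase q, (y l ^ 2 - y i ^ 2)

theorem l2_c_symm (y : Fin k → K) (p q i : Fin k) : l2_c y p q i = l2_c y q p i := by
  unfold l2_c
  rw [Finset.erase_right_comm]

theorem l2_cO_eq (y : Fin k → K) {p q : Fin k} (hpq : p ≠ q) :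
    cO y p = Ring.inverse (2 * ((y q ^ 2 - y p ^ 2) * l2_c y p q p)) := by
  unfold cO l2_c
  rw [Finset.mul_prod_erase (Finset.univ.erase p) (fun l => y l ^ 2 - y p ^ 2)
    (Finset.mem_erase.2 ⟨hpq.symm, Finset.mem_univ q⟩)]

theorem l2_prod_sub {ι : Type*} (s : Finset ι) (f g : ι → K) (α δ : K) (hδ : δ ∈ O)
    (hα : α ∈ O) (hg : ∀ l ∈ s, g l ∈ O) (h : ∀ l ∈ s, f l = g l + α * δ) :
    ∃ t ∈ O, ∏ l ∈ s, f l = ∏ l ∈ s, g l + α * t := by
  classical
  induction s using Finset.induction_on with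
  | empty => exact ⟨0, zero_mem O, by simp⟩
  | insert a s ha ih =>
    obtain ⟨t, ht, e⟩ := ih (fun l hl => hg l (Finset.mem_insert_of_mem hl))
      (fun l hl => h l (Finset.mem_insert_of_mem hl))
    refine ⟨g a * t + δ * ∏ l ∈ s, g l + α * δ * t, ?_, ?_⟩
    · refine add_mem (add_mem (mul_mem (hg a (Finset.mem_insert_self a s)) ht) (mul_mem hδ
        (prod_mem fun l hl => hg l (Finset.mem_insert_of_mem hl)))) (mul_mem (mul_mem hα hδ) ht)
    · rw [Finset.prod_insert ha, Finset.prod_insert ha, e, h a (Finset.mem_insert_self a s)]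
      ring

/-- `inv c_p - inv c_q = α t`. -/
theorem l2_inv_sub (h : Loc O L E y P Q) {p q : Fin k}
    (hu : ∀ i j, i ≠ j → ¬ (i = p ∧ j = q) → ¬ (i = q ∧ j = p) →
      UO O (y i - y j) ∧ UO O (y i + y j)) (hpq : p ≠ q) {α δ : K} (hα : α ∈ O)
    (hδ : δ ∈ O) (hy : y q ^ 2 - y p ^ 2 = α * δ) :
    UO O (l2_c y p q p) ∧ UO O (l2_c y p q q) ∧
    ∃ t ∈ O, Ring.inverse (l2_c y p q p) - Ring.inverse (l2_c y p q q) = α * t := by
  have hmem : ∀ l ∈ (Finset.univ.erase p).erase q, l ≠ q ∧ l ≠ p := fun l hl =>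
    ⟨(Finset.mem_erase.1 hl).1, (Finset.mem_erase.1 (Finset.mem_erase.1 hl).2).1⟩
  have up : UO O (l2_c y p q p) := UO.prod _ _ fun l hl => by
    have := hu l p (hmem l hl).2 (fun h => (hmem l hl).2 h.1) (fun h => (hmem l hl).1 h.1)
    exact l2_sq this.1 this.2
  have uq : UO O (l2_c y p q q) := UO.prod _ _ fun l hl => by
    have := hu l q (hmem l hl).1 (fun h => (hmem l hl).2 h.1) (fun h => (hmem l hl).1 h.1)
    exact l2_sq this.1 this.2
  refine ⟨up, uq, ?_⟩
  obtain ⟨t, ht, e⟩ := l2_prod_sub (O := O) ((Finset.univ.erase p).erase q)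
    (fun l => y l ^ 2 - y q ^ 2) (fun l => y l ^ 2 - y p ^ 2) α (-δ) (neg_mem hδ) hα
    (fun l _ => sub_mem (pow_mem (h.y_mem l) 2) (pow_mem (h.y_mem p) 2))
    (fun l _ => by linear_combination -hy)
  change l2_c y p q q = l2_c y p q p + α * t at e
  refine ⟨Ring.inverse (l2_c y p q p) * Ring.inverse (l2_c y p q q) * t,
    mul_mem (mul_mem up.inverse.1 uq.inverse.1) ht, ?_⟩
  have h1 := up.inverse.2.1
  have h2 := uq.inverse.2.1
  generalize Ring.inverse (l2_c y p q p) = a at *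
  generalize Ring.inverse (l2_c y p q q) = b at *
  linear_combination (-a) * h2 + b * h1 + a * b * e

theorem l2_cO_val {p q : Fin k} (hpq : p ≠ q) {α s : K} (hα : IsUnit α) (hs : UO O s)
    (hy : y q ^ 2 - y p ^ 2 = α * s) (hc : UO O (l2_c y p q p)) :
    cO y p = Ring.inverse α * (Ring.inverse (2 * s) * Ring.inverse (l2_c y p q p)) := by
  rw [l2_cO_eq y hpq, hy]
  apply l2_inv_eq
  have h1 := (UO.two.mul hs).inverse.2.1
  have h2 := hc.inverse.2.1
  have h3 := Ring.mul_inverse_cancel _ hα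
  calc 2 * (α * s * l2_c y p q p) *
        (Ring.inverse α * (Ring.inverse (2 * s) * Ring.inverse (l2_c y p q p)))
      = (2 * s * Ring.inverse (2 * s)) * (α * Ring.inverse α) *
        (l2_c y p q p * Ring.inverse (l2_c y p q p)) := by ring
    _ = 1 := by rw [h1, h2, h3]; ring

theorem l2_Om_two {p q : Fin k} (hpq : p ≠ q) {R : Finset (Fin k)} (hp : p ∈ R) (hq : q ∈ R) :
    Om y P Q R = Om y P Q ((R.erase p).erase q) +
      (cO y p • (P p * Q p) + cO y q • (P q * Q q)) := by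
  have h1 : q ∈ R.erase p := Finset.mem_erase.2 ⟨hpq.symm, hq⟩
  conv_lhs => rw [← Finset.insert_erase hp, ← Finset.insert_erase h1]
  rw [Om_insert (by
      rw [Finset.mem_insert]
      rintro (h2 | h2)
      · exact hpq h2
      · exact Finset.notMem_erase p R (Finset.mem_of_mem_erase h2)),
    Om_insert (Finset.notMem_erase q _)]
  abel

section minus

theorem l2_minus_B (h : Loc O L E y P Q) {p q : Fin k} (hpq : p ≠ q)
    (hu : ∀ i j, i ≠ j → ¬ (i = p ∧ j = q) → ¬ (i = q ∧ j = p) →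
      UO O (y i - y j) ∧ UO O (y i + y j)) (hu' : UO O (y p + y q)) {α : K} (hα : IsUnit α)
    (hy : y q - y p = α) {d d' : Λ} (hd : d ∈ L) (hdE : d ∈ E)
    (hP : P q = P p + α • d) (R : Finset (Fin k)) (hp : p ∉ R) (hq : q ∈ R) :
    VR y P Q R ∈ L := by
  have hαO : α ∈ O := hy ▸ sub_mem (h.y_mem q) (h.y_mem p)
  obtain ⟨up, uq, t, ht, e⟩ := l2_inv_sub h hu hpq hαO (add_mem (h.y_mem p) (h.y_mem q))
    (by rw [← hy]; ring)
  refine l2_B h (p := p) (q := q) hp hq ?_ ?_ (α := α) ?_ (w := P p * d * Q q)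
    (mul_mem (mul_mem (h.P_mem p) hd) (h.Q_mem q)) ?_
  · intro i hi j hj hij
    refine (hu j i hij.symm ?_ ?_).1
    · rintro ⟨rfl, rfl⟩
      exact Finset.mem_compl.1 hi hq
    · rintro ⟨rfl, rfl⟩
      exact Finset.mem_compl.1 hj hq
  · intro i hi l hl
    refine hu l i hl ?_ ?_
    · rintro ⟨rfl, rfl⟩
      exact Finset.ne_of_mem_erase hi rfl
    · rintro ⟨rfl, rfl⟩
      exact hp (Finset.mem_of_mem_erase hi)
  · have uq' : UO O (l2_c y q p q) := by rw [← l2_c_symm]; exact uq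
    rw [l2_cO_val (O := O) hpq.symm (α := α) (s := -(y p + y q)) hα hu'.neg
      (by rw [← hy]; ring) uq']
    have h3 := Ring.inverse_mul_cancel _ hα
    have e2 : Ring.inverse α * (Ring.inverse (2 * -(y p + y q)) *
        Ring.inverse (l2_c y q p q)) * α =
        Ring.inverse (2 * -(y p + y q)) * Ring.inverse (l2_c y q p q) := by
      linear_combination (Ring.inverse (2 * -(y p + y q)) * Ring.inverse (l2_c y q p q)) * h3
    rw [e2]
    exact mul_mem (UO.two.mul hu'.neg).inverse.1 uq'.inverse.1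
  · have e3 : P p * P q = α • (P p * d) := by
      rw [hP, mul_add, h.sq _ (h.P_E p), zero_add, mul_smul_comm]
    rw [← mul_assoc, e3, smul_mul_assoc]

theorem VR_mem_minus (h : Loc O L E y P Q) {p q : Fin k} (hpq : p ≠ q)
    (hu : ∀ i j, i ≠ j → ¬ (i = p ∧ j = q) → ¬ (i = q ∧ j = p) →
      UO O (y i - y j) ∧ UO O (y i + y j)) (hu' : UO O (y p + y q)) {α : K} (hα : IsUnit α)
    (hy : y q - y p = α) {d d' : Λ} (hd : d ∈ L) (hd' : d' ∈ L) (hdE : d ∈ E) (hdE' : d' ∈ E)
    (hP : P q = P p + α • d) (hQ : Q q = Q p + α • d') (R : Finset (Fin k)) :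
    VR y P Q R ∈ L := by
  have hαO : α ∈ O := hy ▸ sub_mem (h.y_mem q) (h.y_mem p)
  by_cases hp : p ∈ R
  · by_cases hq : q ∈ R
    · -- both inside
      obtain ⟨up, uq, t, ht, e⟩ := l2_inv_sub h hu hpq hαO (add_mem (h.y_mem p) (h.y_mem q))
        (by rw [← hy]; ring)
      refine l2_VR_mem h R (l2_NC_mem h _ fun i hi j hj hij => (hu j i hij.symm ?_ ?_).1) ?_
      · rintro ⟨rfl, rfl⟩
        exact Finset.mem_compl.1 hi hq
      · rintro ⟨rfl, rfl⟩
        exact Finset.mem_compl.1 hj hq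
      rw [l2_Om_two hpq hp hq]
      refine add_mem (l2_Om_mem h _ fun i hi l hl => hu l i hl ?_ ?_) ?_
      · rintro ⟨rfl, rfl⟩
        exact Finset.ne_of_mem_erase hi rfl
      · rintro ⟨rfl, rfl⟩
        exact Finset.ne_of_mem_erase (Finset.mem_of_mem_erase hi) rfl
      have uq' : UO O (l2_c y q p q) := by rw [← l2_c_symm]; exact uq
      have c1 := l2_cO_val (O := O) hpq (α := α) (s := y p + y q) hα hu' (by rw [← hy]; ring) up
      have c2 := l2_cO_val (O := O) hpq.symm (α := -α) (s := y p + y q) hα.neg hu'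
        (by rw [← hy]; ring) uq'
      rw [← l2_c_symm] at c2
      have hinv : Ring.inverse (-α) = -Ring.inverse α := by
        apply l2_inv_eq
        rw [neg_mul_neg, Ring.mul_inverse_cancel _ hα]
      rw [hinv] at c2
      have h3 := Ring.inverse_mul_cancel _ hα
      have hβ := (UO.two.mul hu').inverse.1
      set β := Ring.inverse (2 * (y p + y q)) with hβd
      set ip := Ring.inverse (l2_c y p q p) with hip
      set iq := Ring.inverse (l2_c y p q q) with hiq
      have key : cO y p • (P p * Q p) + cO y q • (P q * Q q) =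
          β • (t • (P p * Q p) - iq • (d * Q p + P p * d' + α • (d * d'))) := by
        have e4 : P q * Q q = P p * Q p + α • (d * Q p + P p * d' + α • (d * d')) := by
          rw [hP, hQ]
          simp only [add_mul, mul_add, smul_add, smul_mul_assoc, mul_smul_comm]
          abel
        have e5 : cO y p + cO y q = β * t := by
          rw [c1, c2]
          linear_combination (Ring.inverse α * β) * e + (β * t) * h3
        have e6 : cO y q * α = - (β * iq) := by
          rw [c2]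
          linear_combination (-(β * iq)) * h3
        rw [e4, smul_add, ← add_assoc, ← add_smul, e5, smul_smul, e6, smul_sub, smul_smul,
          smul_smul, neg_smul, sub_eq_add_neg]
      rw [key]
      refine h.smul_mem _ hβ _ (sub_mem (h.smul_mem _ ht _ (mul_mem (h.P_mem p) (h.Q_mem p)))
        (h.smul_mem _ uq.inverse.1 _ (add_mem (add_mem (mul_mem hd (h.Q_mem p))
          (mul_mem (h.P_mem p) hd')) (h.smul_mem _ hαO _ (mul_mem hd hd')))))
    · -- p inside, q outside
      refine l2_minus_B h hpq.symm (fun i j hij h1 h2 => hu i j hij h2 h1)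
        (by rw [add_comm]; exact hu') (α := -α) hα.neg (by rw [← hy]; ring) (d := d)
        (d' := d') hd hdE ?_ R hq hp
      rw [hP, neg_smul]
      abel
  · by_cases hq : q ∈ R
    · exact l2_minus_B h hpq hu hu' hα hy (d' := d') hd hdE hP R hp hq
    · -- both outside
      refine l2_VR_mem h R ?_ (l2_Om_mem h _ fun i hi l hl => hu l i hl ?_ ?_)
      · have hpC : p ∈ Rᶜ := Finset.mem_compl.2 hp
        have hqC : q ∈ Rᶜ := Finset.mem_compl.2 hq
        have h1 : p ∈ Rᶜ.erase q := Finset.mem_erase.2 ⟨hpq, hpC⟩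
        rw [← Finset.insert_erase hqC, ← Finset.insert_erase h1]
        have hm : ∀ i ∈ (Rᶜ.erase q).erase p, i ≠ p ∧ i ≠ q := fun i hi =>
          ⟨(Finset.mem_erase.1 hi).1, (Finset.mem_erase.1 (Finset.mem_erase.1 hi).2).1⟩
        refine l2_NC_pair h hpq (Finset.notMem_erase p _)
          (fun h2 => Finset.notMem_erase q _ (Finset.mem_of_mem_erase h2))
          (fun i hi j hj hij => (hu j i hij.symm (fun h2 => (hm j hj).1 h2.1)
            (fun h2 => (hm j hj).2 h2.1)).1)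
          (fun i hi => (hu p i (hm i hi).1.symm (fun h2 => (hm i hi).2 h2.2)
            (fun h2 => hpq h2.1)).1)
          (fun i hi => (hu q i (hm i hi).2.symm (fun h2 => hpq h2.1.symm)
            (fun h2 => (hm i hi).1 h2.2)).1)
          hα hy (mul_mem (h.P_mem p) hd) ?_
        rw [hP, mul_add, h.sq _ (h.P_E p), zero_add, mul_smul_comm]
      · rintro ⟨rfl, rfl⟩
        exact hq hi
      · rintro ⟨rfl, rfl⟩
        exact hp hi

end minus

section plus

theorem l2_plus_B (h : Loc O L E y P Q) {p q : Fin k} (hpq : p ≠ q)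
    (hu : ∀ i j, i ≠ j → ¬ (i = p ∧ j = q) → ¬ (i = q ∧ j = p) →
      UO O (y i - y j) ∧ UO O (y i + y j)) (hu' : UO O (y q - y p)) {α : K} (hα : IsUnit α)
    (hy : y p + y q = α) {d' : Λ} (hd' : d' ∈ L)
    (hQ : Q q = P p + α • d') (R : Finset (Fin k)) (hp : p ∉ R) (hq : q ∈ R) :
    VR y P Q R ∈ L := by
  have hαO : α ∈ O := hy ▸ add_mem (h.y_mem p) (h.y_mem q)
  obtain ⟨up, uq, t, ht, e⟩ := l2_inv_sub h hu hpq hαO (sub_mem (h.y_mem q) (h.y_mem p))
    (by rw [← hy]; ring)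
  refine l2_B h (p := p) (q := q) hp hq ?_ ?_ (α := α) ?_ (w := P p * P q * d')
    (mul_mem (mul_mem (h.P_mem p) (h.P_mem q)) hd') ?_
  · intro i hi j hj hij
    refine (hu j i hij.symm ?_ ?_).1
    · rintro ⟨rfl, rfl⟩
      exact Finset.mem_compl.1 hi hq
    · rintro ⟨rfl, rfl⟩
      exact Finset.mem_compl.1 hj hq
  · intro i hi l hl
    refine hu l i hl ?_ ?_
    · rintro ⟨rfl, rfl⟩
      exact Finset.ne_of_mem_erase hi rfl
    · rintro ⟨rfl, rfl⟩
      exact hp (Finset.mem_of_mem_erase hi)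
  · have uq' : UO O (l2_c y q p q) := by rw [← l2_c_symm]; exact uq
    rw [l2_cO_val (O := O) hpq.symm (α := α) (s := -(y q - y p)) hα hu'.neg
      (by rw [← hy]; ring) uq']
    have h3 := Ring.inverse_mul_cancel _ hα
    have e2 : Ring.inverse α * (Ring.inverse (2 * -(y q - y p)) *
        Ring.inverse (l2_c y q p q)) * α =
        Ring.inverse (2 * -(y q - y p)) * Ring.inverse (l2_c y q p q) := by
      linear_combination (Ring.inverse (2 * -(y q - y p)) * Ring.inverse (l2_c y q p q)) * h3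
    rw [e2]
    exact mul_mem (UO.two.mul hu'.neg).inverse.1 uq'.inverse.1
  · have e3 : P p * (P q * P p) = 0 := by
      rw [anti h.sq (h.P_E q) (h.P_E p), mul_neg, ← mul_assoc, h.sq _ (h.P_E p), zero_mul,
        neg_zero]
    rw [hQ, mul_add, mul_add, e3, zero_add, mul_smul_comm, mul_smul_comm, ← mul_assoc]

theorem l2_sp_two (h : Loc O L E y P Q) {p q : Fin k} (hpq : p ≠ q) {R : Finset (Fin k)}
    (hp : p ∈ R) (hq : q ∈ R) : ∃ s ∈ O, sp y R = (y p + y q) * s := by
  have h1 : q ∈ R.erase p := Finset.mem_erase.2 ⟨hpq.symm, hq⟩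
  have e1 : sp y R = sp y (R.erase p) * ∏ l ∈ R.erase p, (y p + y l) := by
    conv_lhs => rw [← Finset.insert_erase hp]
    exact sp_insert (Finset.notMem_erase p R)
  have e2 : ∏ l ∈ R.erase p, (y p + y l) =
      (y p + y q) * ∏ l ∈ (R.erase p).erase q, (y p + y l) :=
    (Finset.mul_prod_erase (R.erase p) (fun l => y p + y l) h1).symm
  refine ⟨sp y (R.erase p) * ∏ l ∈ (R.erase p).erase q, (y p + y l),
    mul_mem (l2_sp_mem h _) (prod_mem fun l _ => add_mem (h.y_mem p) (h.y_mem l)), ?_⟩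
  rw [e1, e2]
  ring

theorem VR_mem_plus (h : Loc O L E y P Q) {p q : Fin k} (hpq : p ≠ q)
    (hu : ∀ i j, i ≠ j → ¬ (i = p ∧ j = q) → ¬ (i = q ∧ j = p) →
      UO O (y i - y j) ∧ UO O (y i + y j)) (hu' : UO O (y q - y p)) {α : K} (hα : IsUnit α)
    (hy : y p + y q = α) {d d' : Λ} (hd : d ∈ L) (hd' : d' ∈ L) (hdE : d ∈ E) (hdE' : d' ∈ E)
    (hP : P q = Q p + α • d) (hQ : Q q = P p + α • d') (R : Finset (Fin k)) :
    VR y P Q R ∈ L := by
  have hαO : α ∈ O := hy ▸ add_mem (h.y_mem p) (h.y_mem q)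
  by_cases hp : p ∈ R
  · by_cases hq : q ∈ R
    · -- both inside
      obtain ⟨up, uq, t, ht, e⟩ := l2_inv_sub h hu hpq hαO (sub_mem (h.y_mem q) (h.y_mem p))
        (by rw [← hy]; ring)
      have hNC : NC y P Rᶜ ∈ L := l2_NC_mem h _ fun i hi j hj hij => (hu j i hij.symm
        (by rintro ⟨rfl, rfl⟩; exact Finset.mem_compl.1 hi hq)
        (by rintro ⟨rfl, rfl⟩; exact Finset.mem_compl.1 hj hq)).1
      have hO1 : Om y P Q ((R.erase p).erase q) ∈ L := l2_Om_mem h _ fun i hi l hl => hu l i hl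
        (by rintro ⟨rfl, rfl⟩; exact Finset.ne_of_mem_erase hi rfl)
        (by rintro ⟨rfl, rfl⟩; exact Finset.ne_of_mem_erase (Finset.mem_of_mem_erase hi) rfl)
      have uq' : UO O (l2_c y q p q) := by rw [← l2_c_symm]; exact uq
      have c1 := l2_cO_val (O := O) hpq (α := α) (s := y q - y p) hα hu' (by rw [← hy]; ring) up
      have c2 := l2_cO_val (O := O) hpq.symm (α := -α) (s := y q - y p) hα.neg hu'
        (by rw [← hy]; ring) uq'
      rw [← l2_c_symm] at c2
      have hinv : Ring.inverse (-α) = -Ring.inverse α := by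
        apply l2_inv_eq
        rw [neg_mul_neg, Ring.mul_inverse_cancel _ hα]
      rw [hinv] at c2
      have h3 := Ring.inverse_mul_cancel _ hα
      have hβ := (UO.two.mul hu').inverse.1
      have hipO := up.inverse.1
      have hiqO := uq.inverse.1
      set β := Ring.inverse (2 * (y q - y p)) with hβd
      set ip := Ring.inverse (l2_c y p q p) with hip
      set iq := Ring.inverse (l2_c y p q q) with hiq
      set γ := Ring.inverse α with hγ
      set ρ : Λ := -(β • (t • (P p * Q p) + iq • (d * P p + Q p * d' + α • (d * d')))) with hρ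
      set ξ : Λ := (2 * (β * ip)) • (P p * Q p) with hξ
      have key : cO y p • (P p * Q p) + cO y q • (P q * Q q) = γ • ξ + ρ := by
        have e4 : P q * Q q = -(P p * Q p) + α • (d * P p + Q p * d' + α • (d * d')) := by
          rw [hP, hQ, ← anti h.sq (h.Q_E p) (h.P_E p)]
          simp only [add_mul, mul_add, smul_add, smul_mul_assoc, mul_smul_comm]
          abel
        have e5 : cO y p - cO y q = γ * (2 * (β * ip)) - β * t := by
          rw [c1, c2]
          linear_combination (-(γ * β)) * e - (β * t) * h3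
        have e6 : cO y q * α = - (β * iq) := by
          rw [c2]
          linear_combination (-(β * iq)) * h3
        rw [e4, hξ, hρ]
        generalize P p * Q p = X
        generalize d * P p + Q p * d' + α • (d * d') = Y
        have e7 : cO y p • X + cO y q • (-X + α • Y) =
            (cO y p - cO y q) • X + (cO y q * α) • Y := by module
        rw [e7, e5, e6]
        module
      have hρL : ρ ∈ L := neg_mem (h.smul_mem _ hβ _ (add_mem (h.smul_mem _ ht _
        (mul_mem (h.P_mem p) (h.Q_mem p))) (h.smul_mem _ hiqO _ (add_mem (add_mem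
          (mul_mem hd (h.P_mem p)) (mul_mem (h.Q_mem p) hd')) (h.smul_mem _ hαO _
            (mul_mem hd hd'))))))
      have aE : ∀ u ∈ E, u ∈ Algebra.adjoin K (E : Set Λ) := fun u hu =>
        Algebra.subset_adjoin hu
      have hρA : ρ ∈ Algebra.adjoin K (E : Set Λ) := by
        refine neg_mem (Subalgebra.smul_mem _ (add_mem (Subalgebra.smul_mem _
          (l2_PQ_adj h p) _) (Subalgebra.smul_mem _ (add_mem (add_mem
            (mul_mem (aE _ hdE) (aE _ (h.P_E p))) (mul_mem (aE _ (h.Q_E p)) (aE _ hdE')))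
              (Subalgebra.smul_mem _ (mul_mem (aE _ hdE) (aE _ hdE')) _)) _)) _)
      have hξL : ξ ∈ L := h.smul_mem _ (mul_mem (UO.two (O := O)).1 (mul_mem hβ hipO)) _
        (mul_mem (h.P_mem p) (h.Q_mem p))
      set ω := Om y P Q ((R.erase p).erase q) + ρ with hω
      have hωL : ω ∈ L := add_mem hO1 hρL
      have hωA : ω ∈ Algebra.adjoin K (E : Set Λ) := add_mem (Om_adjoin h.P_E h.Q_E _) hρA
      have hOm : Om y P Q R = ω + γ • ξ := by
        rw [l2_Om_two hpq hp hq, key, hω]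
        abel
      have hcom : Commute ω (γ • ξ) :=
        (((pair_central h.sq (h.P_E p) (h.Q_E p) hωA).symm).smul_right _).smul_right _
      have hsq : (γ • ξ) * (γ • ξ) = 0 := by
        rw [hξ, smul_mul_smul_comm, smul_mul_smul_comm, pair_sq h.sq (h.P_E p) (h.Q_E p),
          smul_zero, smul_zero]
      obtain ⟨s, hs, es⟩ := l2_sp_two h hpq hp hq
      rw [hy] at es
      unfold VR
      rw [hOm, add_pow_sq_zero hcom hsq, es]
      set m := R.card / 2 with hm
      have efin : (α * s * algebraMap ℂ K (1 / (m.factorial : ℂ))) •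
          (NC y P Rᶜ * (ω ^ m + (m : Λ) * (ω ^ (m - 1) * γ • ξ))) =
          (s * algebraMap ℂ K (1 / (m.factorial : ℂ))) •
          (NC y P Rᶜ * (α • ω ^ m + (m : Λ) * (ω ^ (m - 1) * ξ))) := by
        have e7 : α • (ω ^ m + (m : Λ) * (ω ^ (m - 1) * γ • ξ)) =
            α • ω ^ m + (m : Λ) * (ω ^ (m - 1) * ξ) := by
          rw [smul_add, mul_smul_comm, mul_smul_comm, smul_smul,
            show α * γ = 1 by rw [mul_comm]; exact h3, one_smul]
        rw [← e7]
        generalize ω ^ m + (m : Λ) * (ω ^ (m - 1) * γ • ξ) = Z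
        rw [mul_smul_comm, smul_smul]
        congr 1
        ring
      rw [efin]
      exact h.smul_mem _ (mul_mem hs (O.algebraMap_mem _)) _ (mul_mem hNC
        (add_mem (h.smul_mem _ hαO _ (pow_mem hωL _)) (mul_mem (natCast_mem L _)
          (mul_mem (pow_mem hωL _) hξL))))
    · -- p inside, q outside
      refine l2_plus_B h hpq.symm (fun i j hij h1 h2 => hu i j hij h2 h1)
        (by rw [← neg_sub]; exact hu'.neg) hα (by rw [add_comm]; exact hy) (d' := -d)
        (neg_mem hd) ?_ R hq hp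
      rw [hP, smul_neg]
      abel
  · by_cases hq : q ∈ R
    · exact l2_plus_B h hpq hu hu' hα hy hd' hQ R hp hq
    · -- both outside
      refine l2_VR_mem h R (l2_NC_mem h _ fun i hi j hj hij => ?_)
        (l2_Om_mem h _ fun i hi l hl => hu l i hl ?_ ?_)
      · by_cases h1 : j = p ∧ i = q
        · rw [h1.1, h1.2, ← neg_sub]
          exact hu'.neg
        · by_cases h2 : j = q ∧ i = p
          · rw [h2.1, h2.2]
            exact hu'
          · exact (hu j i hij.symm h1 h2).1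
      · rintro ⟨rfl, rfl⟩
        exact hq hi
      · rintro ⟨rfl, rfl⟩
        exact hp hi

end plus

end Pool.Agent.MTD.LA
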