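import Pool.Agent.MTD.TL1
import Pool.Agent.MTD.TL2

/-! # MTD : local algebra, the congruence (row L3)

Case `+`: `α = y_p + y_q`, `P_q = Q_p + α d`, `Q_q = P_p + α d'`; `p, q ∉ R`, `R' = R ∪ {p, q}`,
`m = |R|/2` (so `|R'|/2 = m + 1`), `C'' = R'ᶜ`.  Put `c_p = ∏_{l≠p,q} (y_l² - y_p²)`,
`c_q = ∏_{l≠p,q} (y_l² - y_q²)`.

`Ω_{R'} = Ω_R + cO_p P_p Q_p + cO_q P_q Q_q`, `cO_p = inv(2 α (y_q - y_p) c_p)`,
`cO_q = - inv(2 α (y_q - y_p) c_q)`, `P_q Q_q = - P_p Q_p + α (d P_p + Q_p d') + α² d d'`.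
With `ξ = inv((y_q - y_p) c_p) • P_p Q_p` one gets `Ω_{R'} = Ω_R + inv(α) ξ + ρ`, where
`ρ = inv(2 (y_q - y_p)) • (P_p Q_p (inv c_q - inv c_p) inv(α) - (d P_p + Q_p d' + α d d') inv c_q)`
is in `L` and `ρ ξ ∈ α L` (because `P_p Q_p d P_p = 0`, `P_p Q_p Q_p d' = 0`).  `ξ² = 0`, everything
is central, so with `ω = Ω_R + ρ`: `Ω_{R'}^{m+1} = ω^{m+1} + (m+1) inv(α) ω^m ξ`, and
`ω^m ξ ≡ Ω_R^m ξ (mod α L)`.  `sp y R' = sp y R * ∏_{l∈R} (y_l + y_p)(y_l + y_q) * α`.  Hence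
`V(R') ≡ (sp y R/m!) ∏_{l∈R} (y_l + y_p)(y_l + y_q) NC(C'') Ω_R^m P_p Q_p inv((y_q - y_p) c_p)`.
On the other side `NC(Rᶜ) = NC(C'') P_p P_q inv(∏_{l∈C''} (y_p - y_l)(y_q - y_l) (y_q - y_p))` and
`P_p P_q ≡ P_p Q_p`, so `V(R) ≡ (sp y R / m!) NC(C'') P_p Q_p Ω_R^m inv(...)`; the two agree mod `α L`
because `y_q ≡ - y_p`. -/

namespace Pool.Agent.MTD.LA

variable {K Λ : Type*} [CommRing K] [Algebra ℂ K] [Ring Λ] [Algebra K Λ] {k : ℕ}
variable {O : Subalgebra ℂ K} {L : Subring Λ} {E : Submodule K Λ} {y : Fin k → K} {P Q : Fin k → Λ}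

theorem l3_prod_sub {ι : Type*} (s : Finset ι) (f g δ : ι → K) (α : K) (hα : α ∈ O)
    (hδ : ∀ l ∈ s, δ l ∈ O) (hg : ∀ l ∈ s, g l ∈ O) (h : ∀ l ∈ s, f l = g l + α * δ l) :
    ∃ t ∈ O, ∏ l ∈ s, f l = ∏ l ∈ s, g l + α * t := by
  classical
  induction s using Finset.induction_on with
  | empty => exact ⟨0, zero_mem O, by simp⟩
  | insert a s ha ih =>
    obtain ⟨t, ht, e⟩ := ih (fun l hl => hδ l (Finset.mem_insert_of_mem hl))
      (fun l hl => hg l (Finset.mem_insert_of_mem hl))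
      (fun l hl => h l (Finset.mem_insert_of_mem hl))
    refine ⟨g a * t + δ a * ∏ l ∈ s, g l + α * δ a * t, ?_, ?_⟩
    · exact add_mem (add_mem (mul_mem (hg a (Finset.mem_insert_self a s)) ht)
        (mul_mem (hδ a (Finset.mem_insert_self a s))
        (prod_mem fun l hl => hg l (Finset.mem_insert_of_mem hl))))
        (mul_mem (mul_mem hα (hδ a (Finset.mem_insert_self a s))) ht)
    · rw [Finset.prod_insert ha, Finset.prod_insert ha, e, h a (Finset.mem_insert_self a s)]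
      ring

/-- the scalar congruence -/
theorem l3_scalar (h : Loc O L E y P Q) {p q : Fin k} (hpq : p ≠ q)
    (hu : ∀ i j, i ≠ j → ¬ (i = p ∧ j = q) → ¬ (i = q ∧ j = p) →
      UO O (y i - y j) ∧ UO O (y i + y j)) (hu' : UO O (y q - y p)) {α : K}
    (hy : y p + y q = α) {R : Finset (Fin k)} (hpR : p ∉ R) (hqR : q ∉ R) :
    Ring.inverse (∏ l ∈ insert p (insert p (insert q R))ᶜ, (y q - y l)) *
      Ring.inverse (∏ l ∈ (insert p (insert q R))ᶜ, (y p - y l)) ∈ O ∧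
    ∃ e ∈ O, (∏ l ∈ R, (y q + y l)) * (∏ l ∈ R, (y p + y l)) *
      (2 * (Ring.inverse (2 * (y q - y p)) * Ring.inverse (l2_c y p q p))) =
      Ring.inverse (∏ l ∈ insert p (insert p (insert q R))ᶜ, (y q - y l)) *
      Ring.inverse (∏ l ∈ (insert p (insert q R))ᶜ, (y p - y l)) + α * e := by
  have hαO : α ∈ O := hy ▸ add_mem (h.y_mem p) (h.y_mem q)
  set C : Finset (Fin k) := (insert p (insert q R))ᶜ with hC
  have hmC : ∀ l ∈ C, l ≠ p ∧ l ≠ q := by
    intro l hl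
    rw [hC, Finset.mem_compl, Finset.mem_insert, Finset.mem_insert] at hl
    tauto
  have hmR : ∀ l ∈ R, l ≠ p ∧ l ≠ q := by
    intro l hl
    exact ⟨fun e => hpR (e ▸ hl), fun e => hqR (e ▸ hl)⟩
  have hpC : p ∉ C := fun e => (hmC p e).1 rfl
  have hqC : q ∉ C := fun e => (hmC q e).2 rfl
  have hdis : Disjoint R C := by
    rw [Finset.disjoint_left]
    intro l hl hl'
    rw [hC, Finset.mem_compl, Finset.mem_insert, Finset.mem_insert] at hl'
    tauto
  have hun : (Finset.univ.erase p).erase q = R ∪ C := by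
    ext l
    rw [Finset.mem_erase, Finset.mem_erase, Finset.mem_union, hC, Finset.mem_compl,
      Finset.mem_insert, Finset.mem_insert]
    have h1 := hmR l
    have h2 := Finset.mem_univ l
    tauto
  have hup : ∀ l, l ≠ p ∧ l ≠ q → UO O (y l - y p) ∧ UO O (y l + y p) := fun l hl =>
    hu l p hl.1 (fun e => hl.1 e.1) (fun e => hl.2 e.1)
  have huq : ∀ l, l ≠ p ∧ l ≠ q → UO O (y l - y q) ∧ UO O (y l + y q) := fun l hl =>
    hu l q hl.2 (fun e => hl.1 e.1) (fun e => hl.2 e.1)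
  have hsplit : l2_c y p q p = (∏ l ∈ R, (y l ^ 2 - y p ^ 2)) * ∏ l ∈ C, (y l ^ 2 - y p ^ 2) := by
    unfold l2_c
    rw [hun, Finset.prod_union hdis]
  have uR : UO O (∏ l ∈ R, (y l ^ 2 - y p ^ 2)) := UO.prod _ _ fun l hl =>
    l2_sq (hup l (hmR l hl)).1 (hup l (hmR l hl)).2
  have uC : UO O (∏ l ∈ C, (y l ^ 2 - y p ^ 2)) := UO.prod _ _ fun l hl =>
    l2_sq (hup l (hmC l hl)).1 (hup l (hmC l hl)).2
  have u1 : UO O (∏ l ∈ C, (y q - y l)) := UO.prod _ _ fun l hl => by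
    rw [← neg_sub]
    exact (huq l (hmC l hl)).1.neg
  have u2 : UO O (∏ l ∈ C, (y p - y l)) := UO.prod _ _ fun l hl => by
    rw [← neg_sub]
    exact (hup l (hmC l hl)).1.neg
  obtain ⟨t1, ht1, e1⟩ := l3_prod_sub (O := O) R (fun l => (y q + y l) * (y p + y l))
    (fun l => y l ^ 2 - y p ^ 2) (fun l => y p + y l) α hαO
    (fun l _ => add_mem (h.y_mem p) (h.y_mem l))
    (fun l _ => sub_mem (pow_mem (h.y_mem l) 2) (pow_mem (h.y_mem p) 2))
    (fun l _ => by rw [← hy]; ring)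
  obtain ⟨t2, ht2, e2⟩ := l3_prod_sub (O := O) C (fun l => (y q - y l) * (y p - y l))
    (fun l => y l ^ 2 - y p ^ 2) (fun l => y p - y l) α hαO
    (fun l _ => sub_mem (h.y_mem p) (h.y_mem l))
    (fun l _ => sub_mem (pow_mem (h.y_mem l) 2) (pow_mem (h.y_mem p) 2))
    (fun l _ => by rw [← hy]; ring)
  rw [Finset.prod_mul_distrib] at e1 e2
  have hins : Ring.inverse (∏ l ∈ insert p C, (y q - y l)) =
      Ring.inverse (y q - y p) * Ring.inverse (∏ l ∈ C, (y q - y l)) := by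
    rw [Finset.prod_insert hpC]
    apply l2_inv_eq
    calc (y q - y p) * (∏ l ∈ C, (y q - y l)) *
          (Ring.inverse (y q - y p) * Ring.inverse (∏ l ∈ C, (y q - y l)))
        = ((y q - y p) * Ring.inverse (y q - y p)) *
          ((∏ l ∈ C, (y q - y l)) * Ring.inverse (∏ l ∈ C, (y q - y l))) := by ring
      _ = 1 := by rw [hu'.inverse.2.1, u1.inverse.2.1, one_mul]
  have hip : Ring.inverse (l2_c y p q p) = Ring.inverse (∏ l ∈ R, (y l ^ 2 - y p ^ 2)) *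
      Ring.inverse (∏ l ∈ C, (y l ^ 2 - y p ^ 2)) := by
    rw [hsplit]
    apply l2_inv_eq
    calc (∏ l ∈ R, (y l ^ 2 - y p ^ 2)) * (∏ l ∈ C, (y l ^ 2 - y p ^ 2)) *
          (Ring.inverse (∏ l ∈ R, (y l ^ 2 - y p ^ 2)) *
          Ring.inverse (∏ l ∈ C, (y l ^ 2 - y p ^ 2)))
        = ((∏ l ∈ R, (y l ^ 2 - y p ^ 2)) * Ring.inverse (∏ l ∈ R, (y l ^ 2 - y p ^ 2))) *
          ((∏ l ∈ C, (y l ^ 2 - y p ^ 2)) * Ring.inverse (∏ l ∈ C, (y l ^ 2 - y p ^ 2))) := by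
          ring
      _ = 1 := by rw [uR.inverse.2.1, uC.inverse.2.1, one_mul]
  have h2i : 2 * Ring.inverse (2 * (y q - y p)) = Ring.inverse (y q - y p) := by
    symm
    apply l2_inv_eq
    have h1 := (UO.two.mul hu').inverse.2.1
    calc (y q - y p) * (2 * Ring.inverse (2 * (y q - y p))) =
        2 * (y q - y p) * Ring.inverse (2 * (y q - y p)) := by ring
      _ = 1 := h1
  have i0 := hu'.inverse
  have i1 := u1.inverse
  have i2 := u2.inverse
  have iR := uR.inverse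
  have iC := uC.inverse
  rw [hins, hip]
  refine ⟨mul_mem (mul_mem i0.1 i1.1) i2.1, ?_⟩
  have hl : 2 * (Ring.inverse (2 * (y q - y p)) *
      (Ring.inverse (∏ l ∈ R, (y l ^ 2 - y p ^ 2)) *
        Ring.inverse (∏ l ∈ C, (y l ^ 2 - y p ^ 2)))) =
      Ring.inverse (y q - y p) * (Ring.inverse (∏ l ∈ R, (y l ^ 2 - y p ^ 2)) *
        Ring.inverse (∏ l ∈ C, (y l ^ 2 - y p ^ 2))) := by
    rw [← h2i]
    ring
  rw [hl, e1]
  have j1 := i1.2.1
  have j2 := i2.2.1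
  have jR := iR.2.1
  have jC := iC.2.1
  have k0 := i0.1
  have k1 := i1.1
  have k2 := i2.1
  have kR := iR.1
  have kC := iC.1
  generalize Ring.inverse (y q - y p) = z0 at *
  generalize Ring.inverse (∏ l ∈ C, (y q - y l)) = z1 at *
  generalize Ring.inverse (∏ l ∈ C, (y p - y l)) = z2 at *
  generalize Ring.inverse (∏ l ∈ R, (y l ^ 2 - y p ^ 2)) = zR at *
  generalize Ring.inverse (∏ l ∈ C, (y l ^ 2 - y p ^ 2)) = zC at *
  generalize ∏ l ∈ C, (y q - y l) = a1 at *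
  generalize ∏ l ∈ C, (y p - y l) = a2 at *
  generalize ∏ l ∈ R, (y l ^ 2 - y p ^ 2) = aR at *
  generalize ∏ l ∈ C, (y l ^ 2 - y p ^ 2) = aC at *
  refine ⟨z0 * (t1 * zR * zC + zC * z1 * z2 * t2), mul_mem k0 (add_mem
    (mul_mem (mul_mem ht1 kR) kC) (mul_mem (mul_mem (mul_mem kC k1) k2) ht2)), ?_⟩
  linear_combination (z0 * zC) * jR + (z0 * z1 * z2) * jC -
    (z0 * zC) * (a2 * z2 * j1 + j2) + (z0 * zC * z1 * z2) * e2

omit [Algebra ℂ K] in
/-- the congruence for powers -/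
theorem l3_pow {Ω ρ ξ w : Λ} {α : K} (hΩ : Ω ∈ L) (hρ : ρ ∈ L) (hw : w ∈ L)
    (hc : Commute Ω ρ) (hρξ : ρ * ξ = α • w) (m : ℕ) :
    ∃ z ∈ L, (Ω + ρ) ^ m * ξ = Ω ^ m * ξ + α • z := by
  induction m with
  | zero => exact ⟨0, zero_mem L, by simp⟩
  | succ m ih =>
    obtain ⟨z, hz, e⟩ := ih
    refine ⟨Ω ^ m * w + (Ω + ρ) * z, add_mem (mul_mem (pow_mem hΩ m) hw)
      (mul_mem (add_mem hΩ hρ) hz), ?_⟩
    have e1 : ρ * (Ω ^ m * ξ) = α • (Ω ^ m * w) := by
      rw [← mul_assoc, (hc.pow_left m).symm.eq, mul_assoc, hρξ, mul_smul_comm]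
    rw [pow_succ', mul_assoc, e, mul_add, add_mul, e1, mul_smul_comm, pow_succ', mul_assoc,
      smul_add]
    abel

theorem VR_congr (h : Loc O L E y P Q) {p q : Fin k} (hpq : p ≠ q)
    (hu : ∀ i j, i ≠ j → ¬ (i = p ∧ j = q) → ¬ (i = q ∧ j = p) →
      UO O (y i - y j) ∧ UO O (y i + y j)) (hu' : UO O (y q - y p)) {α : K} (hα : IsUnit α)
    (hy : y p + y q = α) {d d' : Λ} (hd : d ∈ L) (hd' : d' ∈ L) (hdE : d ∈ E) (hdE' : d' ∈ E)
    (hP : P q = Q p + α • d) (hQ : Q q = P p + α • d') {R : Finset (Fin k)} (hpR : p ∉ R)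
    (hqR : q ∉ R) :
    ∃ v ∈ L, VR y P Q (insert p (insert q R)) = VR y P Q R + α • v := by
  have hαO : α ∈ O := hy ▸ add_mem (h.y_mem p) (h.y_mem q)
  obtain ⟨hA, e', he', hsc⟩ := l3_scalar h hpq hu hu' hy hpR hqR
  obtain ⟨up, uq, t, ht, e⟩ := l2_inv_sub h hu hpq hαO (sub_mem (h.y_mem q) (h.y_mem p))
    (by rw [← hy]; ring)
  have hqC : q ∉ insert p (insert p (insert q R))ᶜ := by
    rw [Finset.mem_insert, Finset.mem_compl, Finset.mem_insert, Finset.mem_insert]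
    tauto
  have hpC : p ∉ (insert p (insert q R))ᶜ := by
    rw [Finset.mem_compl, Finset.mem_insert]
    tauto
  have hpq' : p ∉ insert q R := by
    rw [Finset.mem_insert]
    tauto
  have hRc : Rᶜ = insert q (insert p (insert p (insert q R))ᶜ) := by
    ext l
    rw [Finset.mem_insert, Finset.mem_insert, Finset.mem_compl, Finset.mem_compl,
      Finset.mem_insert, Finset.mem_insert]
    by_cases h1 : l = p
    · subst h1
      tauto
    · by_cases h2 : l = q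
      · subst h2
        tauto
      · tauto
  have hNC : NC y P (insert p (insert q R))ᶜ ∈ L := l2_NC_mem h _ fun i hi j hj hij =>
    (hu j i hij.symm
      (by rintro ⟨rfl, rfl⟩; exact hpC hj)
      (by rintro ⟨rfl, rfl⟩; exact hpC hi)).1
  have hO1 : Om y P Q R ∈ L := l2_Om_mem h _ fun i hi l hl => hu l i hl
    (by rintro ⟨rfl, rfl⟩; exact hqR hi)
    (by rintro ⟨rfl, rfl⟩; exact hpR hi)
  have uq' : UO O (l2_c y q p q) := by rw [← l2_c_symm]; exact uq
  have c1 := l2_cO_val (O := O) hpq (α := α) (s := y q - y p) hα hu' (by rw [← hy]; ring) up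
  have c2 := l2_cO_val (O := O) hpq.symm (α := -α) (s := y q - y p) hα.neg hu'
    (by rw [← hy]; ring) uq'
  rw [← l2_c_symm] at c2
  have hinv : Ring.inverse (-α) = -Ring.inverse α := by
    apply l2_inv_eq
    rw [neg_mul_neg, Ring.mul_inverse_cancel _ hα]
  rw [hinv] at c2
  have h3 := Ring.inverse_mul_cancel _ hα
  have hβ := (UO.two.mul hu').inverse.1
  have hipO := up.inverse.1
  have hiqO := uq.inverse.1
  have hspR := l2_sp_mem h R
  set A := Ring.inverse (∏ l ∈ insert p (insert p (insert q R))ᶜ, (y q - y l)) *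
      Ring.inverse (∏ l ∈ (insert p (insert q R))ᶜ, (y p - y l)) with hAd
  set β := Ring.inverse (2 * (y q - y p)) with hβd
  set ip := Ring.inverse (l2_c y p q p) with hip
  set iq := Ring.inverse (l2_c y p q q) with hiq
  set γ := Ring.inverse α with hγ
  set ρ : Λ := -(β • (t • (P p * Q p) + iq • (d * P p + Q p * d' + α • (d * d')))) with hρ
  set ξ : Λ := (2 * (β * ip)) • (P p * Q p) with hξ
  have key : cO y p • (P p * Q p) + cO y q • (P q * Q q) = γ • ξ + ρ := by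
    have e4 : P q * Q q = -(P p * Q p) + α • (d * P p + Q p * d' + α • (d * d')) := by
      rw [hP, hQ, ← anti h.sq (h.Q_E p) (h.P_E p)]
      simp only [add_mul, mul_add, smul_add, smul_mul_assoc, mul_smul_comm]
      abel
    have e5 : cO y p - cO y q = γ * (2 * (β * ip)) - β * t := by
      rw [c1, c2]
      linear_combination (-(γ * β)) * e - (β * t) * h3
    have e6 : cO y q * α = - (β * iq) := by
      rw [c2]
      linear_combination (-(β * iq)) * h3
    rw [e4, hξ, hρ]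
    generalize P p * Q p = X
    generalize d * P p + Q p * d' + α • (d * d') = Y
    have e7 : cO y p • X + cO y q • (-X + α • Y) =
        (cO y p - cO y q) • X + (cO y q * α) • Y := by module
    rw [e7, e5, e6]
    module
  have hρL : ρ ∈ L := neg_mem (h.smul_mem _ hβ _ (add_mem (h.smul_mem _ ht _
    (mul_mem (h.P_mem p) (h.Q_mem p))) (h.smul_mem _ hiqO _ (add_mem (add_mem
      (mul_mem hd (h.P_mem p)) (mul_mem (h.Q_mem p) hd')) (h.smul_mem _ hαO _
        (mul_mem hd hd'))))))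
  have aE : ∀ u ∈ E, u ∈ Algebra.adjoin K (E : Set Λ) := fun u hu =>
    Algebra.subset_adjoin hu
  have hρA : ρ ∈ Algebra.adjoin K (E : Set Λ) := by
    refine neg_mem (Subalgebra.smul_mem _ (add_mem (Subalgebra.smul_mem _
      (l2_PQ_adj h p) _) (Subalgebra.smul_mem _ (add_mem (add_mem
        (mul_mem (aE _ hdE) (aE _ (h.P_E p))) (mul_mem (aE _ (h.Q_E p)) (aE _ hdE')))
          (Subalgebra.smul_mem _ (mul_mem (aE _ hdE) (aE _ hdE')) _)) _)) _)
  have hξL : ξ ∈ L := h.smul_mem _ (mul_mem (UO.two (O := O)).1 (mul_mem hβ hipO)) _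
    (mul_mem (h.P_mem p) (h.Q_mem p))
  -- `ρ ξ = α w`
  have hXX : (P p * Q p) * (P p * Q p) = 0 := pair_sq h.sq (h.P_E p) (h.Q_E p)
  have hx1 : d * P p * (P p * Q p) = 0 := by
    rw [mul_assoc, ← mul_assoc (P p) (P p), h.sq _ (h.P_E p), zero_mul, mul_zero]
  have hx2 : Q p * d' * (P p * Q p) = 0 := by
    have h4 := (pair_central h.sq (h.P_E p) (h.Q_E p) (aE _ hdE')).eq
    rw [mul_assoc, ← h4, ← mul_assoc, ← mul_assoc, anti h.sq (h.Q_E p) (h.P_E p), neg_mul,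
      mul_assoc (P p), h.sq _ (h.Q_E p), mul_zero, neg_zero, zero_mul]
  have hρξ : ρ * ξ = α • (-((β * iq * (2 * (β * ip))) • (d * d' * (P p * Q p)))) := by
    rw [hρ, hξ, neg_mul, smul_mul_assoc, add_mul, smul_mul_assoc, smul_mul_assoc, add_mul,
      add_mul, smul_mul_assoc, mul_smul_comm, mul_smul_comm, mul_smul_comm, mul_smul_comm, hXX,
      hx1, hx2, smul_zero, smul_zero, zero_add, zero_add, zero_add, smul_neg, smul_smul,
      smul_smul, smul_smul, smul_smul]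
    congr 2
    ring
  have hwL : -((β * iq * (2 * (β * ip))) • (d * d' * (P p * Q p))) ∈ L :=
    neg_mem (h.smul_mem _ (mul_mem (mul_mem hβ hiqO) (mul_mem (UO.two (O := O)).1
      (mul_mem hβ hipO))) _ (mul_mem (mul_mem hd hd') (mul_mem (h.P_mem p) (h.Q_mem p))))
  set m := R.card / 2 with hm
  have hcard : (insert p (insert q R)).card / 2 = m + 1 := by
    rw [Finset.card_insert_of_notMem hpq', Finset.card_insert_of_notMem hqR]
    omega
  have hcΩρ : Commute (Om y P Q R) ρ := Om_central h.sq h.P_E h.Q_E R hρA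
  obtain ⟨z, hz, ez⟩ := l3_pow hO1 hρL hwL hcΩρ hρξ m
  set Ω := Om y P Q R with hΩ
  set N := NC y P (insert p (insert q R))ᶜ with hN
  have hOm : Om y P Q (insert p (insert q R)) = (Ω + ρ) + γ • ξ := by
    rw [Om_insert hpq', Om_insert hqR, add_assoc, add_comm (cO y q • _), key]
    abel
  have hωA : Ω + ρ ∈ Algebra.adjoin K (E : Set Λ) := add_mem (Om_adjoin h.P_E h.Q_E _) hρA
  have hcom : Commute (Ω + ρ) (γ • ξ) :=
    (((pair_central h.sq (h.P_E p) (h.Q_E p) hωA).symm).smul_right _).smul_right _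
  have hsq : (γ • ξ) * (γ • ξ) = 0 := by
    rw [hξ, smul_mul_smul_comm, smul_mul_smul_comm, hXX, smul_zero, smul_zero]
  have hsp : sp y (insert p (insert q R)) =
      α * (sp y R * ((∏ l ∈ R, (y q + y l)) * (∏ l ∈ R, (y p + y l)))) := by
    rw [sp_insert hpq', sp_insert hqR, Finset.prod_insert hqR, hy]
    ring
  set NR := (∏ l ∈ R, (y q + y l)) * (∏ l ∈ R, (y p + y l)) with hNR
  have hNRO : NR ∈ O := mul_mem (prod_mem fun l _ => add_mem (h.y_mem q) (h.y_mem l))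
    (prod_mem fun l _ => add_mem (h.y_mem p) (h.y_mem l))
  have hcm : algebraMap ℂ K (1 / ((m + 1).factorial : ℂ)) * ((m + 1 : ℕ) : K) =
      algebraMap ℂ K (1 / (m.factorial : ℂ)) := by
    rw [← map_natCast (algebraMap ℂ K) (m + 1), ← map_mul]
    congr 1
    rw [Nat.factorial_succ]
    have h5 : ((m + 1 : ℕ) : ℂ) ≠ 0 := Nat.cast_ne_zero.2 (Nat.succ_ne_zero m)
    have h6 : (m.factorial : ℂ) ≠ 0 := Nat.cast_ne_zero.2 (Nat.factorial_ne_zero m)
    rw [Nat.cast_mul]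
    field_simp
  have hcmO : algebraMap ℂ K (1 / (m.factorial : ℂ)) ∈ O := O.algebraMap_mem _
  have hcmO1 : algebraMap ℂ K (1 / ((m + 1).factorial : ℂ)) ∈ O := O.algebraMap_mem _
  have hαγ : α * γ = 1 := by rw [mul_comm]; exact h3
  -- the value of `VR` for the larger set
  have hV' : VR y P Q (insert p (insert q R)) =
      α • ((sp y R * NR * algebraMap ℂ K (1 / ((m + 1).factorial : ℂ))) •
        (N * (Ω + ρ) ^ (m + 1))) +
      (sp y R * NR * algebraMap ℂ K (1 / (m.factorial : ℂ))) • (N * ((Ω + ρ) ^ m * ξ)) := by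
    unfold VR
    rw [hcard, hOm, add_pow_sq_zero hcom hsq, hsp, Nat.add_sub_cancel, mul_add, smul_add]
    congr 1
    · rw [smul_smul]
      congr 1
      ring
    · have e8 : ((m + 1 : ℕ) : Λ) * ((Ω + ρ) ^ m * γ • ξ) =
          (((m + 1 : ℕ) : K) * γ) • ((Ω + ρ) ^ m * ξ) := by
        rw [mul_smul_comm, mul_smul_comm, mul_comm (((m + 1 : ℕ) : K)) γ, mul_smul]
        congr 1
        rw [Algebra.smul_def, map_natCast]
      rw [e8, mul_smul_comm, smul_smul]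
      congr 1
      rw [← hcm]
      linear_combination (sp y R * NR * (algebraMap ℂ K (1 / ((m + 1).factorial : ℂ)) *
        ((m + 1 : ℕ) : K))) * hαγ
  have hXΩ : (P p * Q p) * Ω ^ m = Ω ^ m * (P p * Q p) :=
    (((Om_central h.sq h.P_E h.Q_E R (l2_PQ_adj h p)).pow_left m).symm).eq
  have hNCR : NC y P Rᶜ = A • (N * (P p * Q p + α • (P p * d))) := by
    rw [hRc, NC_insert h.sq h.P_E hqC, NC_insert h.sq h.P_E hpC, smul_mul_assoc, smul_smul,
      mul_assoc, hP, mul_add, mul_smul_comm]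
  have hV : VR y P Q R =
      (sp y R * algebraMap ℂ K (1 / (m.factorial : ℂ)) * A) • (N * (Ω ^ m * (P p * Q p))) +
      α • ((sp y R * algebraMap ℂ K (1 / (m.factorial : ℂ)) * A) •
        (N * (P p * d) * Ω ^ m)) := by
    unfold VR
    rw [← hm, hNCR, smul_mul_assoc, smul_smul, mul_add, add_mul, smul_add, mul_assoc N, hXΩ,
      mul_smul_comm, smul_mul_assoc, smul_comm α]
  refine ⟨(sp y R * NR * algebraMap ℂ K (1 / ((m + 1).factorial : ℂ))) • (N * (Ω + ρ) ^ (m + 1)) +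
    (sp y R * NR * algebraMap ℂ K (1 / (m.factorial : ℂ))) • (N * z) +
    (sp y R * algebraMap ℂ K (1 / (m.factorial : ℂ)) * e') • (N * (Ω ^ m * (P p * Q p))) -
    (sp y R * algebraMap ℂ K (1 / (m.factorial : ℂ)) * A) • (N * (P p * d) * Ω ^ m), ?_, ?_⟩
  · refine sub_mem (add_mem (add_mem ?_ ?_) ?_) ?_
    · exact h.smul_mem _ (mul_mem (mul_mem hspR hNRO) hcmO1) _
        (mul_mem hNC (pow_mem (add_mem hO1 hρL) _))
    · exact h.smul_mem _ (mul_mem (mul_mem hspR hNRO) hcmO) _ (mul_mem hNC hz)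
    · exact h.smul_mem _ (mul_mem (mul_mem hspR hcmO) he') _
        (mul_mem hNC (mul_mem (pow_mem hO1 _) (mul_mem (h.P_mem p) (h.Q_mem p))))
    · exact h.smul_mem _ (mul_mem (mul_mem hspR hcmO) hA) _
        (mul_mem (mul_mem hNC (mul_mem (h.P_mem p) hd)) (pow_mem hO1 _))
  · have e9 : (sp y R * NR * algebraMap ℂ K (1 / (m.factorial : ℂ))) • (N * (Ω ^ m * ξ)) =
        (sp y R * algebraMap ℂ K (1 / (m.factorial : ℂ)) * A) • (N * (Ω ^ m * (P p * Q p))) +
        α • ((sp y R * algebraMap ℂ K (1 / (m.factorial : ℂ)) * e') •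
          (N * (Ω ^ m * (P p * Q p)))) := by
      rw [hξ, mul_smul_comm, mul_smul_comm, smul_smul, smul_smul, ← add_smul]
      congr 1
      linear_combination (sp y R * algebraMap ℂ K (1 / (m.factorial : ℂ))) * hsc
    rw [hV', hV, ez, mul_add, smul_add, e9, mul_smul_comm, smul_comm _ α]
    simp only [smul_sub, smul_add]
    abel

end Pool.Agent.MTD.LA
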