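import Pool.Agent.MTD.TL2
import Pool.Agent.MTD.TL3

/-! # MTD : local algebra, cancellation of the double poles (row L4)

`Sm = ∑_{R even} (∏_a φ_a(V(R))) / (D0 · DR y R)`.

Case `0`: `DR y R` is a unit of `O`, `α / D0 ∈ O`.
Case `-` (`α = y_q - y_p`): `DR y R = unit` or `unit * α`, `D0` a unit of `O`.
Case `+` (`α = y_p + y_q`): if exactly one of `p, q` is in `R` then `DR y R = unit * α`.
The others are paired: `R` (with `p, q ∉ R`) and `R' = R ∪ {p, q}`.  `DR y R = α² D₁`,
`DR y R' = -α² D₂` with `D₁, D₂` units of `O`, `D₁ - D₂ ∈ α O` (the factors of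
`DR y R / DR y R'` are `(y_p + η_j y_j)(y_q + η_j y_j) / ((-y_p + η_j y_j)(-y_q + η_j y_j))`,
`j ≠ p, q`, and `y_q ≡ - y_p`), `V(R') ≡ V(R)` (`VR_congr`), so the sum of the two terms is in
`α⁻¹ O`. -/

namespace Pool.Agent.MTD.LA

variable {K Λ : Type*} [CommRing K] [Algebra ℂ K] [Ring Λ] [Algebra K Λ] {k B : ℕ}
variable {O : Subalgebra ℂ K} {L : Subring Λ} {E : Submodule K Λ} {y : Fin k → K} {P Q : Fin k → Λ}

/-- The local sum. -/
noncomputable def Sm (y : Fin k → K) (P Q : Fin k → Λ) (φ : Fin B → Λ →ₗ[K] K) (D0 : K) : K :=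
  ∑ R ∈ Finset.univ.filter (fun R : Finset (Fin k) => Even R.card),
    (∏ a, φ a (VR y P Q R)) * Ring.inverse (D0 * DR y R)

/-- One term of the local sum. -/
noncomputable def l4term (y : Fin k → K) (P Q : Fin k → Λ) (φ : Fin B → Λ →ₗ[K] K) (D0 : K)
    (R : Finset (Fin k)) : K :=
  (∏ a, φ a (VR y P Q R)) * Ring.inverse (D0 * DR y R)

/-- `η y`. -/
def l4z (y : Fin k → K) (R : Finset (Fin k)) (i : Fin k) : K := et K R i * y i

/-- The complement of `{p, q}`. -/
def l4C (p q : Fin k) : Finset (Fin k) := (Finset.univ.erase p).erase q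

/-- The product over the pairs other than `{p, q}`. -/
def l4W (p q : Fin k) (z : Fin k → K) : K :=
  sp z (l4C p q) * ∏ l ∈ l4C p q, ((z p + z l) * (z q + z l))

theorem l4_sp_univ {p q : Fin k} (hpq : p ≠ q) (z : Fin k → K) :
    sp z Finset.univ = (z p + z q) * l4W p q z := by
  have h1 : insert p (insert q (l4C p q)) = Finset.univ := by
    unfold l4C
    rw [Finset.insert_erase, Finset.insert_erase (Finset.mem_univ p)]
    rw [Finset.mem_erase]
    exact ⟨hpq.symm, Finset.mem_univ _⟩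
  have hq : q ∉ l4C p q := by
    unfold l4C
    simp
  have hp : p ∉ insert q (l4C p q) := by
    unfold l4C
    rw [Finset.mem_insert, Finset.mem_erase, Finset.mem_erase]
    rintro (h | h)
    · exact hpq h
    · exact h.2.1 rfl
  rw [← h1, sp_insert hp, sp_insert hq, Finset.prod_insert hq, l4W, Finset.prod_mul_distrib]
  ring

theorem l4_DR (y : Fin k → K) (R : Finset (Fin k)) :
    DR y R = sp y Finset.univ * sp (l4z y R) Finset.univ := rfl

theorem l4_DR_split {p q : Fin k} (hpq : p ≠ q) (y : Fin k → K) (R : Finset (Fin k)) :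
    DR y R = ((y p + y q) * l4W p q y) * ((l4z y R p + l4z y R q) * l4W p q (l4z y R)) := by
  rw [l4_DR, l4_sp_univ hpq, l4_sp_univ hpq]

theorem l4_pair {R : Finset (Fin k)} {i j : Fin k} (h : UO O (y i - y j) ∧ UO O (y i + y j)) :
    UO O (l4z y R i + l4z y R j) := by
  unfold l4z et
  by_cases h1 : i ∈ R <;> by_cases h2 : j ∈ R
  · rw [if_pos h1, if_pos h2]
    have := h.2.neg
    convert this using 1
    ring
  · rw [if_pos h1, if_neg h2]
    have := h.1.neg
    convert this using 1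
    ring
  · rw [if_neg h1, if_pos h2]
    have := h.1
    convert this using 1
    ring
  · rw [if_neg h1, if_neg h2]
    have := h.2
    convert this using 1
    ring

theorem l4_sp_UO {z : Fin k → K} {C : Finset (Fin k)}
    (h : ∀ i ∈ C, ∀ j ∈ C, i ≠ j → UO O (z i + z j)) : UO O (sp z C) := by
  unfold sp
  refine UO.prod _ _ fun i hi => UO.prod _ _ fun j hj => ?_
  rw [Finset.mem_filter] at hj
  exact h i hi j hj.1 hj.2.ne

theorem l4_W_UO {p q : Fin k}
    (hu : ∀ i j, i ≠ j → ¬ (i = p ∧ j = q) → ¬ (i = q ∧ j = p) →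
      UO O (y i - y j) ∧ UO O (y i + y j)) (R : Finset (Fin k)) :
    UO O (l4W p q (l4z y R)) := by
  have hC : ∀ l ∈ l4C p q, l ≠ p ∧ l ≠ q := by
    intro l hl
    unfold l4C at hl
    rw [Finset.mem_erase, Finset.mem_erase] at hl
    exact ⟨hl.2.1, hl.1⟩
  unfold l4W
  refine (l4_sp_UO fun i hi j hj hij => ?_).mul (UO.prod _ _ fun l hl => UO.mul ?_ ?_)
  · exact l4_pair (hu i j hij (fun h => (hC i hi).1 h.1) (fun h => (hC i hi).2 h.1))
  · exact l4_pair (hu p l (hC l hl).1.symm (fun h => (hC l hl).2 h.2) (fun h => (hC l hl).1 h.2))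
  · exact l4_pair (hu q l (hC l hl).2.symm (fun h => (hC l hl).2 h.2) (fun h => (hC l hl).1 h.2))

theorem l4_z_empty (y : Fin k → K) : l4z y ∅ = y := by
  funext i
  simp [l4z, et]

theorem l4_Wy_UO {p q : Fin k}
    (hu : ∀ i j, i ≠ j → ¬ (i = p ∧ j = q) → ¬ (i = q ∧ j = p) →
      UO O (y i - y j) ∧ UO O (y i + y j)) : UO O (l4W p q y) := by
  have := l4_W_UO (O := O) hu (∅ : Finset (Fin k))
  rwa [l4_z_empty] at this

theorem l4_prod_mem (φ : Fin B → Λ →ₗ[K] K) (hφ : ∀ a, ∀ v ∈ L, φ a v ∈ O) {v : Λ} (hv : v ∈ L) :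
    ∏ a, φ a v ∈ O := prod_mem fun a _ => hφ a v hv

theorem l4_mul_inv {α : K} (hα : IsUnit α) : α * Ring.inverse α = 1 :=
  Ring.mul_inverse_cancel α hα

theorem l4_sum {D0 α : K} (φ : Fin B → Λ →ₗ[K] K)
    (h : ∀ R : Finset (Fin k), α * l4term y P Q φ D0 R ∈ O) : α * Sm y P Q φ D0 ∈ O := by
  unfold Sm
  rw [Finset.mul_sum]
  exact sum_mem fun R _ => h R

theorem Sm_mem0 (h : Loc O L E y P Q)
    (hu : ∀ i j, i ≠ j → UO O (y i - y j) ∧ UO O (y i + y j))
    (φ : Fin B → Λ →ₗ[K] K) (hφ : ∀ a, ∀ v ∈ L, φ a v ∈ O) {D0 α : K}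
    (hD : α * Ring.inverse D0 ∈ O) : α * Sm y P Q φ D0 ∈ O := by
  refine l4_sum φ fun R => ?_
  have h1 : UO O (DR y R) := by
    rw [l4_DR]
    refine (l4_sp_UO fun i _ j _ hij => (hu i j hij).2).mul (l4_sp_UO fun i _ j _ hij => ?_)
    exact l4_pair (hu i j hij)
  have h2 : ∏ a, φ a (VR y P Q R) ∈ O := l4_prod_mem φ hφ (VR_mem0 h hu R)
  unfold l4term
  rw [Ring.mul_inverse_rev]
  have h3 := O.mul_mem (O.mul_mem h2 h1.inverse.1) hD
  convert h3 using 1
  ring

theorem l4_one {D0 α u : K} (hα : IsUnit α) (hαO : α ∈ O) (hD : UO O D0) (hu : UO O u) {v : Λ}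
    {φ : Fin B → Λ →ₗ[K] K} (hφ : ∀ a, ∀ v ∈ L, φ a v ∈ O) (hv : v ∈ L) {D : K}
    (h : D = u ∨ D = u * α) : α * ((∏ a, φ a v) * Ring.inverse (D0 * D)) ∈ O := by
  have h2 : ∏ a, φ a v ∈ O := l4_prod_mem φ hφ hv
  have h3 := O.mul_mem (O.mul_mem h2 hu.inverse.1) hD.inverse.1
  rcases h with rfl | rfl
  · rw [Ring.mul_inverse_rev]
    have h4 := O.mul_mem hαO h3
    convert h4 using 1
    ring
  · rw [Ring.mul_inverse_rev, Ring.mul_inverse_rev]
    convert h3 using 1
    linear_combination ((∏ a, φ a v) * Ring.inverse u * Ring.inverse D0) * l4_mul_inv hα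

theorem Sm_mem_minus (h : Loc O L E y P Q) {p q : Fin k} (hpq : p ≠ q)
    (hu : ∀ i j, i ≠ j → ¬ (i = p ∧ j = q) → ¬ (i = q ∧ j = p) →
      UO O (y i - y j) ∧ UO O (y i + y j)) (hu' : UO O (y p + y q)) {α : K} (hα : IsUnit α)
    (hy : y q - y p = α) {d d' : Λ} (hd : d ∈ L) (hd' : d' ∈ L) (hdE : d ∈ E) (hdE' : d' ∈ E)
    (hP : P q = P p + α • d) (hQ : Q q = Q p + α • d')
    (φ : Fin B → Λ →ₗ[K] K) (hφ : ∀ a, ∀ v ∈ L, φ a v ∈ O) {D0 : K}
    (hD : UO O D0) : α * Sm y P Q φ D0 ∈ O := by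
  have hαO : α ∈ O := by
    rw [← hy]
    exact O.sub_mem (h.y_mem q) (h.y_mem p)
  refine l4_sum φ fun R => ?_
  have hV := VR_mem_minus h hpq hu hu' hα hy hd hd' hdE hdE' hP hQ R
  have h1 := l4_Wy_UO hu
  have h2 := l4_W_UO hu R
  have h3 := (hu'.mul h1).mul h2
  by_cases hp : p ∈ R <;> by_cases hq : q ∈ R
  · refine l4_one hα hαO hD (h3.mul hu').neg hφ hV (Or.inl ?_)
    rw [l4_DR_split hpq]
    simp only [l4z, et, if_pos hp, if_pos hq]
    ring
  · refine l4_one hα hαO hD h3 hφ hV (Or.inr ?_)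
    rw [l4_DR_split hpq, ← hy]
    simp only [l4z, et, if_pos hp, if_neg hq]
    ring
  · refine l4_one hα hαO hD h3.neg hφ hV (Or.inr ?_)
    rw [l4_DR_split hpq, ← hy]
    simp only [l4z, et, if_neg hp, if_pos hq]
    ring
  · refine l4_one hα hαO hD (h3.mul hu') hφ hV (Or.inl ?_)
    rw [l4_DR_split hpq]
    simp only [l4z, et, if_neg hp, if_neg hq]
    ring

theorem l4_prod_congr {ι : Type*} (s : Finset ι) (f g : ι → K) {α : K} (hα : α ∈ O)
    (hf : ∀ a, f a ∈ O) (hg : ∀ a, g a ∈ O) :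
    ∃ o ∈ O, ∏ a ∈ s, (f a + α * g a) = ∏ a ∈ s, f a + α * o := by
  classical
  induction s using Finset.induction_on with
  | empty => exact ⟨0, O.zero_mem, by simp⟩
  | insert a s ha ih =>
    obtain ⟨o, ho, ho'⟩ := ih
    refine ⟨f a * o + g a * (∏ a ∈ s, f a) + α * g a * o, ?_, ?_⟩
    · refine O.add_mem (O.add_mem (O.mul_mem (hf a) ho) (O.mul_mem (hg a) ?_))
        (O.mul_mem (O.mul_mem hα (hg a)) ho)
      exact prod_mem fun b _ => hf b
    · rw [Finset.prod_insert ha, Finset.prod_insert ha, ho']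
      ring

/-- `W` for `R` and `R ∪ {p, q}` agree modulo `α`. -/
theorem l4_W_congr (hy0 : ∀ i, y i ∈ O) {p q : Fin k} (hpq : p ≠ q) {α : K} (hy : y p + y q = α)
    {R : Finset (Fin k)} (hpR : p ∉ R) (hqR : q ∉ R) :
    ∃ c ∈ O, l4W p q (l4z y (insert p (insert q R))) = l4W p q (l4z y R) + α * c := by
  have hC : ∀ l ∈ l4C p q, l4z y (insert p (insert q R)) l = l4z y R l := by
    intro l hl
    unfold l4C at hl
    rw [Finset.mem_erase, Finset.mem_erase] at hl
    unfold l4z et
    simp only [Finset.mem_insert, hl.1, hl.2.1, false_or]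
  have hz : ∀ i, l4z y R i ∈ O := by
    intro i
    unfold l4z et
    split_ifs
    · rw [neg_one_mul]
      exact O.neg_mem (hy0 i)
    · rw [one_mul]
      exact hy0 i
  have hαO : α ∈ O := by
    rw [← hy]
    exact O.add_mem (hy0 p) (hy0 q)
  have h1 : sp (l4z y (insert p (insert q R))) (l4C p q) = sp (l4z y R) (l4C p q) := by
    unfold sp
    refine Finset.prod_congr rfl fun i hi => Finset.prod_congr rfl fun j hj => ?_
    rw [hC i hi, hC j (Finset.mem_filter.1 hj).1]
  have h2 : sp (l4z y R) (l4C p q) ∈ O := by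
    unfold sp
    exact prod_mem fun i _ => prod_mem fun j _ => O.add_mem (hz i) (hz j)
  obtain ⟨o, ho, ho'⟩ := l4_prod_congr (O := O) (l4C p q)
    (fun l => (l4z y R p + l4z y R l) * (l4z y R q + l4z y R l)) (fun l => -(2 * l4z y R l)) hαO
    (fun l => O.mul_mem (O.add_mem (hz p) (hz l)) (O.add_mem (hz q) (hz l)))
    (fun l => O.neg_mem (by rw [two_mul]; exact O.add_mem (hz l) (hz l)))
  refine ⟨sp (l4z y R) (l4C p q) * o, O.mul_mem h2 ho, ?_⟩
  unfold l4W
  rw [h1]
  have h3 : ∏ l ∈ l4C p q, ((l4z y (insert p (insert q R)) p + l4z y (insert p (insert q R)) l) *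
      (l4z y (insert p (insert q R)) q + l4z y (insert p (insert q R)) l)) =
      ∏ l ∈ l4C p q, ((l4z y R p + l4z y R l) * (l4z y R q + l4z y R l) +
        α * -(2 * l4z y R l)) := by
    refine Finset.prod_congr rfl fun l hl => ?_
    rw [hC l hl]
    have e1 : l4z y (insert p (insert q R)) p = -y p := by simp [l4z, et]
    have e2 : l4z y (insert p (insert q R)) q = -y q := by simp [l4z, et]
    have e3 : l4z y R p = y p := by simp [l4z, et, hpR]
    have e4 : l4z y R q = y q := by simp [l4z, et, hqR]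
    rw [e1, e2, e3, e4, ← hy]
    ring
  rw [h3, ho']
  ring

theorem Sm_mem_plus (h : Loc O L E y P Q) {p q : Fin k} (hpq : p ≠ q)
    (hu : ∀ i j, i ≠ j → ¬ (i = p ∧ j = q) → ¬ (i = q ∧ j = p) →
      UO O (y i - y j) ∧ UO O (y i + y j)) (hu' : UO O (y q - y p)) {α : K} (hα : IsUnit α)
    (hy : y p + y q = α) {d d' : Λ} (hd : d ∈ L) (hd' : d' ∈ L) (hdE : d ∈ E) (hdE' : d' ∈ E)
    (hP : P q = Q p + α • d) (hQ : Q q = P p + α • d')
    (φ : Fin B → Λ →ₗ[K] K) (hφ : ∀ a, ∀ v ∈ L, φ a v ∈ O) {D0 : K}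
    (hD : UO O D0) : α * Sm y P Q φ D0 ∈ O := by
  classical
  have hαO : α ∈ O := by
    rw [← hy]
    exact O.add_mem (h.y_mem p) (h.y_mem q)
  have hV := VR_mem_plus h hpq hu hu' hα hy hd hd' hdE hdE' hP hQ
  have h1 := l4_Wy_UO hu
  -- the terms with exactly one of `p`, `q`
  have hone : ∀ R : Finset (Fin k), ¬ (p ∉ R ∧ q ∉ R) → ¬ (p ∈ R ∧ q ∈ R) →
      α * l4term y P Q φ D0 R ∈ O := by
    intro R hR hR'
    have h2 := l4_W_UO hu R
    have h3 := (hu'.mul h1).mul h2
    by_cases hp : p ∈ R <;> by_cases hq : q ∈ R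
    · exact absurd ⟨hp, hq⟩ hR'
    · refine l4_one hα hαO hD h3 hφ (hV R) (Or.inr ?_)
      rw [l4_DR_split hpq, hy]
      simp only [l4z, et, if_pos hp, if_neg hq]
      ring
    · refine l4_one hα hαO hD h3.neg hφ (hV R) (Or.inr ?_)
      rw [l4_DR_split hpq, hy]
      simp only [l4z, et, if_neg hp, if_pos hq]
      ring
    · exact absurd ⟨hp, hq⟩ hR
  -- the pairs
  have htwo : ∀ R : Finset (Fin k), p ∉ R → q ∉ R →
      α * (l4term y P Q φ D0 R + l4term y P Q φ D0 (insert p (insert q R))) ∈ O := by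
    intro R hp hq
    obtain ⟨v, hv, hv'⟩ := VR_congr h hpq hu hu' hα hy hd hd' hdE hdE' hP hQ hp hq
    obtain ⟨c, hc, hc'⟩ := l4_W_congr (O := O) h.y_mem hpq hy hp hq
    have h2 := l4_W_UO hu R
    have h3 := (l4_W_UO hu (insert p (insert q R))).neg
    obtain ⟨o, ho, ho'⟩ := l4_prod_congr (O := O) Finset.univ (fun a => φ a (VR y P Q R))
      (fun a => φ a v) hαO (fun a => hφ a _ (hV R)) (fun a => hφ a v hv)
    have e0 : ∏ a, φ a (VR y P Q (insert p (insert q R))) =
        ∏ a, φ a (VR y P Q R) + α * o := by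
      rw [← ho']
      refine Finset.prod_congr rfl fun a _ => ?_
      rw [hv', map_add, map_smul, smul_eq_mul]
    have e1 : DR y R = (α * l4W p q y) * (α * l4W p q (l4z y R)) := by
      rw [l4_DR_split hpq, hy]
      have : l4z y R p + l4z y R q = α := by
        simp only [l4z, et, if_neg hp, if_neg hq, one_mul]
        exact hy
      rw [this]
    have e2 : DR y (insert p (insert q R)) =
        (α * l4W p q y) * (α * -l4W p q (l4z y (insert p (insert q R)))) := by
      rw [l4_DR_split hpq, hy]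
      have : l4z y (insert p (insert q R)) p + l4z y (insert p (insert q R)) q = -α := by
        rw [← hy]
        simp [l4z, et]
        ring
      rw [this]
      ring
    set A := l4W p q (l4z y R) with hA
    set A' := -l4W p q (l4z y (insert p (insert q R))) with hA'
    set V := ∏ a, φ a (VR y P Q R) with hVdef
    have e3 : A + A' = -(α * c) := by
      rw [hA', hc']
      ring
    have hVO : V ∈ O := l4_prod_mem φ hφ (hV R)
    have e4 : Ring.inverse A + Ring.inverse A' =
        Ring.inverse A * Ring.inverse A' * (A + A') := by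
      linear_combination (-Ring.inverse A) * h3.inverse.2.1 - Ring.inverse A' * h2.inverse.2.1
    have e5 : α * (l4term y P Q φ D0 R + l4term y P Q φ D0 (insert p (insert q R))) =
        Ring.inverse D0 * Ring.inverse (l4W p q y) *
          (o * Ring.inverse A' - V * (Ring.inverse A * Ring.inverse A') * c) := by
      unfold l4term
      rw [e0, e1, e2]
      simp only [Ring.mul_inverse_rev]
      have hi := l4_mul_inv hα
      have e6 : V * (Ring.inverse A + Ring.inverse A') =
          -(α * (V * (Ring.inverse A * Ring.inverse A') * c)) := by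
        rw [e4, e3]
        ring
      calc α * (V * (Ring.inverse A * Ring.inverse α *
            (Ring.inverse (l4W p q y) * Ring.inverse α) * Ring.inverse D0) +
          (V + α * o) * (Ring.inverse A' * Ring.inverse α *
            (Ring.inverse (l4W p q y) * Ring.inverse α) * Ring.inverse D0)) =
          (α * Ring.inverse α) * Ring.inverse α * (Ring.inverse D0 * Ring.inverse (l4W p q y)) *
            (V * (Ring.inverse A + Ring.inverse A') + α * (o * Ring.inverse A')) := by ring
        _ = (α * Ring.inverse α) * (α * Ring.inverse α) *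
            (Ring.inverse D0 * Ring.inverse (l4W p q y)) *
            (o * Ring.inverse A' - V * (Ring.inverse A * Ring.inverse A') * c) := by
          rw [e6]
          ring
        _ = _ := by
          rw [hi]
          ring
    rw [e5]
    refine O.mul_mem (O.mul_mem hD.inverse.1 h1.inverse.1) (O.sub_mem (O.mul_mem ho h3.inverse.1)
      (O.mul_mem (O.mul_mem hVO (O.mul_mem h2.inverse.1 h3.inverse.1)) hc))
  -- the sum
  have hsum : Sm y P Q φ D0 =
      ∑ R ∈ Finset.univ.filter (fun R : Finset (Fin k) => Even R.card ∧ p ∉ R ∧ q ∉ R),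
        (l4term y P Q φ D0 R + l4term y P Q φ D0 (insert p (insert q R))) +
      ∑ R ∈ Finset.univ.filter (fun R : Finset (Fin k) => Even R.card ∧ ¬ (p ∉ R ∧ q ∉ R) ∧
        ¬ (p ∈ R ∧ q ∈ R)), l4term y P Q φ D0 R := by
    have hS : Sm y P Q φ D0 =
        ∑ R ∈ Finset.univ.filter (fun R : Finset (Fin k) => Even R.card),
          l4term y P Q φ D0 R := rfl
    rw [hS, ← Finset.sum_filter_add_sum_filter_not _ (fun R : Finset (Fin k) => p ∉ R ∧ q ∉ R),
      ← Finset.sum_filter_add_sum_filter_not (Finset.filter (fun R => ¬ (p ∉ R ∧ q ∉ R)) _)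
        (fun R : Finset (Fin k) => p ∈ R ∧ q ∈ R), Finset.sum_add_distrib, ← add_assoc]
    simp only [Finset.filter_filter]
    congr 1
    · congr 1
      refine Finset.sum_bij' (fun R _ => (R.erase p).erase q) (fun R _ => insert p (insert q R))
        ?_ ?_ ?_ ?_ ?_
      · intro R hR
        simp only [Finset.mem_filter, Finset.mem_univ, true_and] at hR ⊢
        obtain ⟨hR1, hR2⟩ := hR
        have hq' : q ∈ R.erase p := Finset.mem_erase.2 ⟨hpq.symm, hR2.2⟩
        have h4 := Finset.card_erase_add_one hR2.1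
        have h5 := Finset.card_erase_add_one hq'
        refine ⟨?_, ?_, ?_⟩
        · have h6 := hR1.1
          rw [← h4, ← h5] at h6
          rw [Nat.even_add_one, Nat.even_add_one, not_not] at h6
          exact h6
        · simp
        · simp
      · intro R hR
        simp only [Finset.mem_filter, Finset.mem_univ, true_and] at hR ⊢
        have hp' : p ∉ insert q R := by
          rw [Finset.mem_insert]
          rintro (h4 | h4)
          · exact hpq h4
          · exact hR.2.1 h4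
        refine ⟨⟨?_, ?_⟩, ?_, ?_⟩
        · rw [Finset.card_insert_of_notMem hp', Finset.card_insert_of_notMem hR.2.2,
            Nat.even_add_one, Nat.even_add_one, not_not]
          exact hR.1
        · simp
        · simp
        · simp
      · intro R hR
        simp only [Finset.mem_filter, Finset.mem_univ, true_and] at hR
        rw [Finset.insert_erase (Finset.mem_erase.2 ⟨hpq.symm, hR.2.2⟩),
          Finset.insert_erase hR.2.1]
      · intro R hR
        simp only [Finset.mem_filter, Finset.mem_univ, true_and] at hR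
        have hp' : p ∉ insert q R := by
          rw [Finset.mem_insert]
          rintro (h4 | h4)
          · exact hpq h4
          · exact hR.2.1 h4
        rw [Finset.erase_insert hp', Finset.erase_insert hR.2.2]
      · intro R hR
        simp only [Finset.mem_filter, Finset.mem_univ, true_and] at hR
        rw [Finset.insert_erase (Finset.mem_erase.2 ⟨hpq.symm, hR.2.2⟩),
          Finset.insert_erase hR.2.1]
    · refine Finset.sum_congr ?_ fun _ _ => rfl
      ext R
      simp only [Finset.mem_filter, Finset.mem_univ, true_and, and_assoc]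
  rw [hsum, mul_add, Finset.mul_sum, Finset.mul_sum]
  refine O.add_mem (sum_mem fun R hR => ?_) (sum_mem fun R hR => ?_)
  · rw [Finset.mem_filter] at hR
    exact htwo R hR.2.2.1 hR.2.2.2
  · rw [Finset.mem_filter] at hR
    exact hone R hR.2.2.1 hR.2.2.2

end Pool.Agent.MTD.LA
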