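import Pool.Agent.MTD.Walls

/-! # MTD : rational functions on `𝔱^reg` which are regular along a wall (row O1) -/

namespace Pool.Agent.MTD

open Matrix

section
variable {n N : ℕ} {ι : Type} {D : Dat n N ι}

/-- The functions on `𝔱^reg` of the form `u / t`, with `u, t` polynomials and `t` not vanishing
identically on the wall of `β`. -/
noncomputable def OB (D : Dat n N ι) (β : ι) : Subalgebra ℂ (D.RegX → ℂ) where
  carrier := {f | ∃ t u : MvPolynomial (Fin n) ℂ, MvPolynomial.aeval (phiW D β) t ≠ 0 ∧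
    ∀ x : D.RegX, MvPolynomial.eval x.1 t * f x = MvPolynomial.eval x.1 u}
  mul_mem' := by
    rintro f f' ⟨t, u, ht, hf⟩ ⟨t', u', ht', hf'⟩
    refine ⟨t * t', u * u', by rw [map_mul]; exact mul_ne_zero ht ht', fun x => ?_⟩
    rw [map_mul, map_mul, ← hf x, ← hf' x, Pi.mul_apply]
    ring
  add_mem' := by
    rintro f f' ⟨t, u, ht, hf⟩ ⟨t', u', ht', hf'⟩
    refine ⟨t * t', u * t' + t * u', by rw [map_mul]; exact mul_ne_zero ht ht', fun x => ?_⟩
    rw [map_mul, map_add, map_mul, map_mul, ← hf x, ← hf' x, Pi.add_apply]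
    ring
  algebraMap_mem' := by
    intro r
    refine ⟨1, MvPolynomial.C r, by rw [map_one]; exact one_ne_zero, fun x => ?_⟩
    rw [map_one, one_mul, MvPolynomial.eval_C]
    rfl

end

variable {n N : ℕ} {ι : Type} [Fintype ι] {D : Dat n N ι}

omit [Fintype ι] in
theorem o1_eval (x : Fin n → ℂ) (f : Fin n → MvPolynomial (Fin n) ℂ) (t : MvPolynomial (Fin n) ℂ) :
    MvPolynomial.eval x (MvPolynomial.aeval f t) =
      MvPolynomial.eval (fun k => MvPolynomial.eval x (f k)) t := by
  induction t using MvPolynomial.induction_on with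
  | C a => simp
  | add p q hp hq => rw [map_add, map_add, map_add, hp, hq]
  | mul_X p k hp => rw [map_mul, map_mul, map_mul, hp, MvPolynomial.aeval_X, MvPolynomial.eval_X]

omit [Fintype ι] in
theorem o1_phiW (β : ι) (x : Fin n → ℂ) (k : Fin n) : MvPolynomial.eval x (phiW D β k) =
    x k - ev (D.rt β) x * ((D.cr β k : ℂ) / 2) := by
  unfold phiW
  rw [map_sub, map_mul, MvPolynomial.eval_X, eval_ell, MvPolynomial.eval_C]

omit [Fintype ι] in
theorem o1_wall (β : ι) (x : Fin n → ℂ) (hx : ev (D.rt β) x = 0) (t : MvPolynomial (Fin n) ℂ) :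
    MvPolynomial.eval x (MvPolynomial.aeval (phiW D β) t) = MvPolynomial.eval x t := by
  rw [o1_eval]
  congr 1
  congr 1
  funext k
  rw [o1_phiW, hx, zero_mul, sub_zero]

omit [Fintype ι] in
/-- the reflection on polynomials -/
noncomputable def o1_sig (D : Dat n N ι) (β : ι) (k : Fin n) : MvPolynomial (Fin n) ℂ :=
  MvPolynomial.X k - ell D β * MvPolynomial.C (D.cr β k : ℂ)

omit [Fintype ι] in
theorem o1_eval_sig (β : ι) (x : Fin n → ℂ) (t : MvPolynomial (Fin n) ℂ) :
    MvPolynomial.eval x (MvPolynomial.aeval (o1_sig D β) t) =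
      MvPolynomial.eval (D.sr β x) t := by
  rw [o1_eval]
  congr 1
  congr 1
  funext k
  unfold o1_sig
  rw [map_sub, map_mul, MvPolynomial.eval_X, eval_ell, MvPolynomial.eval_C]
  rfl

omit [Fintype ι] in
theorem o1_phi_sig (A : ∀ β, ev (D.cr β) (D.rt β) = 2) (β : ι) (t : MvPolynomial (Fin n) ℂ) :
    MvPolynomial.aeval (phiW D β) (MvPolynomial.aeval (o1_sig D β) t) =
      MvPolynomial.aeval (phiW D β) t := by
  refine MvPolynomial.funext fun x => ?_
  rw [o1_eval, o1_eval_sig, o1_eval]
  congr 1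
  congr 1
  have h0 : ev (D.rt β) (fun k => MvPolynomial.eval x (phiW D β k)) = 0 := by
    have h1 : (fun k => MvPolynomial.eval x (phiW D β k)) =
        x - ev (D.rt β) x • ((1 / 2 : ℂ) • fun k => (D.cr β k : ℂ)) := by
      funext k
      rw [o1_phiW]
      simp only [Pi.sub_apply, Pi.smul_apply, smul_eq_mul]
      ring
    rw [h1, ev_sub, ev_smul, ev_smul, ev_cr_cast A]
    ring
  funext k
  unfold Dat.sr
  rw [h0, zero_mul, sub_zero]

omit [Fintype ι] in
theorem o1_dvd_sub (β : ι) (t : MvPolynomial (Fin n) ℂ) :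
    ell D β ∣ t - MvPolynomial.aeval (phiW D β) t := by
  induction t using MvPolynomial.induction_on with
  | C a => simp
  | add p q hp hq =>
    have : p + q - MvPolynomial.aeval (phiW D β) (p + q) =
        (p - MvPolynomial.aeval (phiW D β) p) + (q - MvPolynomial.aeval (phiW D β) q) := by
      rw [map_add]; ring
    rw [this]
    exact dvd_add hp hq
  | mul_X p k hp =>
    have : p * MvPolynomial.X k - MvPolynomial.aeval (phiW D β) (p * MvPolynomial.X k) =
        (p - MvPolynomial.aeval (phiW D β) p) * MvPolynomial.X k +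
          MvPolynomial.aeval (phiW D β) p * (MvPolynomial.X k - phiW D β k) := by
      rw [map_mul, MvPolynomial.aeval_X]; ring
    rw [this]
    refine dvd_add (Dvd.dvd.mul_right hp _) (Dvd.dvd.mul_left ?_ _)
    obtain ⟨q, hq⟩ := phiW_dvd (D := D) β k
    exact ⟨q, hq⟩

/-- two polynomials which agree on `𝔱^reg` are equal -/
theorem poly_ext (A : Ax D) {p q : MvPolynomial (Fin n) ℂ}
    (h : ∀ x : D.RegX, MvPolynomial.eval x.1 p = MvPolynomial.eval x.1 q) : p = q := by
  obtain ⟨x0, hx0⟩ := exists_reg A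
  have hne : (∏ β, ell D β) ≠ 0 := by
    intro h0
    have h1 := congrArg (MvPolynomial.eval x0) h0
    rw [map_prod, map_zero, Finset.prod_eq_zero_iff] at h1
    obtain ⟨β, _, hβ⟩ := h1
    rw [eval_ell] at hβ
    exact hx0 β hβ
  have h2 : (p - q) * ∏ β, ell D β = 0 := by
    refine MvPolynomial.funext fun x => ?_
    rw [map_mul, map_sub, map_zero, map_prod]
    by_cases hx : D.Reg x
    · rw [h ⟨x, hx⟩, sub_self, zero_mul]
    · unfold Dat.Reg at hx
      push Not at hx
      obtain ⟨β, hβ⟩ := hx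
      rw [Finset.prod_eq_zero (Finset.mem_univ β) (by rw [eval_ell]; exact hβ), mul_zero]
  exact sub_eq_zero.1 ((mul_eq_zero.1 h2).resolve_right hne)

theorem poly_mem_OB (β : ι) (p : MvPolynomial (Fin n) ℂ) :
    (fun x : D.RegX => MvPolynomial.eval x.1 p) ∈ OB D β := by
  refine ⟨1, p, by rw [map_one]; exact one_ne_zero, fun x => ?_⟩
  rw [map_one, one_mul]

/-- the inverse of a root `γ ≠ β` is regular along the wall of `β` (use `A.rt_indep` and
`prop_of_vanish`: `γ` does not vanish identically on the wall) -/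
theorem inv_mem_OB (A : Ax D) {β γ : ι} (h : γ ≠ β) :
    (fun x : D.RegX => (ev (D.rt γ) x.1)⁻¹) ∈ OB D β := by
  refine ⟨ell D γ, 1, ?_, fun x => ?_⟩
  · intro h0
    obtain ⟨a, b, ha, hab⟩ := prop_of_vanish A.cr_rt β (D.rt γ) fun x hx => by
      rw [← eval_ell, ← o1_wall β x hx, h0, map_zero]
    exact ha (A.rt_indep γ β a b h hab).1
  · rw [eval_ell, map_one]
    exact mul_inv_cancel₀ (x.2 γ)

/-- A polynomial vanishes identically on the wall iff it is divisible by `ell`
(`phiW_dvd`, `phiW_ell`). -/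
theorem ell_dvd_iff (A : Ax D) (β : ι) (t : MvPolynomial (Fin n) ℂ) :
    ell D β ∣ t ↔ MvPolynomial.aeval (phiW D β) t = 0 := by
  constructor
  · rintro ⟨q, rfl⟩
    rw [map_mul, phiW_ell A.cr_rt, zero_mul]
  · intro h
    have h1 := o1_dvd_sub (D := D) β t
    rwa [h, sub_zero] at h1

/-- **A simple pole of an invariant function cancels.**  Write `t β f = u`.  Composing with the
reflection: `σ(t) (-β) f = σ(u)`, so `σ(t) u = - t σ(u)` as polynomials; restricting to the wall,
where `σ` is the identity, `2 t u = 0` on the wall, so `u = β u'` and `t f = u'`. -/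
theorem mem_OB_of_inv (A : Ax D) (β : ι) {f : D.RegX → ℂ}
    (hf : ∀ x : D.RegX, f ⟨D.sr β x.1, A.sr_reg x.2 β⟩ = f x)
    (h : (fun x : D.RegX => ev (D.rt β) x.1 * f x) ∈ OB D β) : f ∈ OB D β := by
  obtain ⟨t, u, ht, hu⟩ := h
  have hrt : ∀ x : Fin n → ℂ, ev (D.rt β) (D.sr β x) = -ev (D.rt β) x := by
    intro x
    rw [D.ev_sr]
    have h1 : D.sw β (D.rt β) = -D.rt β := by
      unfold Dat.sw
      rw [A.cr_rt]
      module
    rw [h1, ev_neg_left]
  have key : MvPolynomial.aeval (o1_sig D β) t * u =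
      -(t * MvPolynomial.aeval (o1_sig D β) u) := by
    refine poly_ext A fun x => ?_
    rw [map_neg, map_mul, map_mul, o1_eval_sig, o1_eval_sig]
    have h1 := hu x
    have h2 := hu ⟨D.sr β x.1, A.sr_reg x.2 β⟩
    simp only at h2
    rw [hf x, hrt] at h2
    rw [← h1, ← h2]
    ring
  have h3 := congrArg (MvPolynomial.aeval (phiW D β)) key
  rw [map_neg, map_mul, map_mul, o1_phi_sig A.cr_rt, o1_phi_sig A.cr_rt] at h3
  have h4 : MvPolynomial.aeval (phiW D β) u = 0 := by
    have h5 : (2 : MvPolynomial (Fin n) ℂ) *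
        (MvPolynomial.aeval (phiW D β) t * MvPolynomial.aeval (phiW D β) u) = 0 := by
      linear_combination h3
    have h6 := (mul_eq_zero.1 h5).resolve_left two_ne_zero
    exact (mul_eq_zero.1 h6).resolve_left ht
  obtain ⟨u', rfl⟩ := (ell_dvd_iff A β u).2 h4
  refine ⟨t, u', ht, fun x => ?_⟩
  have h1 := hu x
  rw [map_mul, eval_ell] at h1
  have h2 : ev (D.rt β) x.1 * (MvPolynomial.eval x.1 t * f x) =
      ev (D.rt β) x.1 * MvPolynomial.eval x.1 u' := by
    rw [← h1]
    ring
  exact mul_left_cancel₀ (x.2 β) h2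

/-- **Gluing.**  A function with denominators powers of roots which is regular along all walls is
polynomial. -/
theorem poly_of_OB (A : Ax D) {f : D.RegX → ℂ} (h : ∀ β, f ∈ OB D β)
    (hr : ∃ (c : ℕ) (p : MvPolynomial (Fin n) ℂ), ∀ x : D.RegX,
      (∏ β, ev (D.rt β) x.1) ^ c * f x = MvPolynomial.eval x.1 p) :
    ∃ p : MvPolynomial (Fin n) ℂ, ∀ x : D.RegX, f x = MvPolynomial.eval x.1 p := by
  have key : ∀ L : List ι, (∃ p : MvPolynomial (Fin n) ℂ, ∀ x : D.RegX,
      (L.map fun β => ev (D.rt β) x.1).prod * f x = MvPolynomial.eval x.1 p) →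
      ∃ p : MvPolynomial (Fin n) ℂ, ∀ x : D.RegX, f x = MvPolynomial.eval x.1 p := by
    intro L
    induction L with
    | nil =>
      rintro ⟨p, hp⟩
      refine ⟨p, fun x => ?_⟩
      rw [← hp x, List.map_nil, List.prod_nil, one_mul]
    | cons β L ih =>
      rintro ⟨p, hp⟩
      apply ih
      obtain ⟨t, u, ht, hu⟩ := h β
      have h1 : t * p = ell D β * ((L.map fun γ => ell D γ).prod * u) := by
        refine poly_ext A fun x => ?_
        rw [map_mul, ← hp x, map_mul, map_mul, ← hu x, map_list_prod, List.map_map,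
          List.map_cons, List.prod_cons, eval_ell]
        have h2 : (L.map ((MvPolynomial.eval x.1) ∘ fun γ => ell D γ)) =
            L.map fun γ => ev (D.rt γ) x.1 :=
          List.map_congr_left fun γ _ => eval_ell γ x.1
        rw [h2]
        ring
      have h3 := congrArg (MvPolynomial.aeval (phiW D β)) h1
      rw [map_mul, map_mul, phiW_ell A.cr_rt, zero_mul] at h3
      obtain ⟨p', rfl⟩ := (ell_dvd_iff A β p).2 ((mul_eq_zero.1 h3).resolve_left ht)
      refine ⟨p', fun x => ?_⟩
      have h4 := hp x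
      rw [List.map_cons, List.prod_cons, map_mul, eval_ell, mul_assoc] at h4
      exact mul_left_cancel₀ (x.2 β) h4
  obtain ⟨c, p, hp⟩ := hr
  obtain ⟨L, hL⟩ : ∃ L : List ι, ∀ x : D.RegX, (L.map fun β => ev (D.rt β) x.1).prod =
      (∏ β, ev (D.rt β) x.1) ^ c := by
    clear hp p
    induction c with
    | zero => exact ⟨[], fun x => by simp⟩
    | succ c ih =>
      obtain ⟨L, hL⟩ := ih
      refine ⟨Finset.univ.toList ++ L, fun x => ?_⟩
      rw [List.map_append, List.prod_append, hL x, Finset.prod_map_toList, pow_succ']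
  exact key L ⟨p, fun x => by rw [hL x, hp x]⟩

end Pool.Agent.MTD
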