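import Pool.Agent.MTD.TV2
import Pool.Agent.MTD.TG1
import Pool.Agent.MTD.TL4
import Pool.Agent.MTD.TO1

/-! # MTD : type `D`, the sum over the Weyl group orbit (definitions and row C0) -/

namespace Pool.Agent.MTD.TD

open Matrix
open Pool.Agent.MTD.GR Pool.Agent.MTD.LA

variable {n k B : ℕ}

/-- `k`-tuples of labels with distinct indices; for `k = n` the product of the signs is `ε`. -/
abbrev RS (n k : ℕ) (ε : ℤ) := {r : Fin k → Lab n //
  Function.Injective (fun i => (r i).1) ∧ (k = n → ∏ i, sgl (r i) = ε)}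

section gen
variable {K : Type*} [CommRing K]

/-- `∏_i ∏_{l not an index} (x_{|r_i|}² - x_l²)` -/
def D0 (x : Fin n → K) (r : Fin k → Lab n) : K :=
  ∏ i, ∏ l ∈ Finset.univ.filter (fun l => ∀ i', (r i').1 ≠ l), (x (r i).1 ^ 2 - x l ^ 2)

variable [Algebra ℂ K]

/-- `V(r, R)` -/
noncomputable def VV (x : Fin n → K) (w : Lab n → Fin (2 * n) → K) (r : Fin k → Lab n)
    (R : Finset (Fin k)) : Matrix (GI (2 * n)) (GI (2 * n)) K :=
  VR (fun i => yl x (r i)) (fun i => io (w (r i))) (fun i => io (w (ng (r i)))) R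

/-- The sum over the orbit. -/
noncomputable def CG (k : ℕ) (ε : ℤ) (x : Fin n → K) (w : Lab n → Fin (2 * n) → K)
    (φ : Fin B → Matrix (GI (2 * n)) (GI (2 * n)) K →ₗ[K] K) : K :=
  ∑ r : RS n k ε, Sm (fun i => yl x (r.1 i)) (fun i => io (w (r.1 i)))
    (fun i => io (w (ng (r.1 i)))) φ (D0 x r.1)

theorem CG_eq (k : ℕ) (ε : ℤ) (x : Fin n → K) (w : Lab n → Fin (2 * n) → K)
    (φ : Fin B → Matrix (GI (2 * n)) (GI (2 * n)) K →ₗ[K] K) :
    CG k ε x w φ = ∑ r : RS n k ε, ∑ R ∈ Finset.univ.filter (fun R : Finset (Fin k) => Even R.card),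
      (∏ a, φ a (VV x w r.1 R)) * Ring.inverse (D0 x r.1 * DR (fun i => yl x (r.1 i)) R) := rfl

end gen

section c1aux
set_option linter.unusedSectionVars false
variable {K K' : Type*} [CommRing K] [CommRing K']

theorem c1_inv (f : K →+* K') {c : K} (hc : IsUnit c) : f (Ring.inverse c) = Ring.inverse (f c) := by
  have h1 : f c * f (Ring.inverse c) = 1 := by
    rw [← map_mul, Ring.mul_inverse_cancel c hc, map_one]
  have h2 : IsUnit (f c) := hc.map f
  calc f (Ring.inverse c) = Ring.inverse (f c) * f c * f (Ring.inverse c) := by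
        rw [Ring.inverse_mul_cancel _ h2, one_mul]
    _ = Ring.inverse (f c) := by rw [mul_assoc, h1, mul_one]

theorem c1_prod_unit {ι : Type*} (s : Finset ι) (g : ι → K) (h : ∀ i ∈ s, IsUnit (g i)) :
    IsUnit (∏ i ∈ s, g i) :=
  Finset.prod_induction g IsUnit (fun _ _ => IsUnit.mul) isUnit_one h

theorem c1_sq {a b : K} (h1 : IsUnit (a - b)) (h2 : IsUnit (a + b)) : IsUnit (a ^ 2 - b ^ 2) := by
  have h3 : a ^ 2 - b ^ 2 = (a - b) * (a + b) := by ring
  rw [h3]
  exact h1.mul h2

variable [Algebra ℂ K] [Algebra ℂ K'] {N : ℕ}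

theorem c1_two : IsUnit (2 : K) := by
  have h1 : (2 : K) = algebraMap ℂ K 2 := (map_ofNat _ 2).symm
  rw [h1]
  exact (IsUnit.mk0 (2 : ℂ) two_ne_zero).map _

theorem c1_smul (f : K →+* K') (c : K) (A : Matrix (GI N) (GI N) K) :
    (c • A).map f = f c • A.map f := by
  ext i j
  simp

theorem c1_mul (f : K →+* K') (A A' : Matrix (GI N) (GI N) K) :
    (A * A').map f = A.map f * A'.map f := Matrix.map_mul

theorem c1_pow (f : K →+* K') (A : Matrix (GI N) (GI N) K) (m : ℕ) :
    (A ^ m).map f = A.map f ^ m := map_pow f.mapMatrix A m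

theorem c1_list (f : K →+* K') (l : List (Matrix (GI N) (GI N) K)) :
    l.prod.map f = (l.map fun A => A.map f).prod := map_list_prod f.mapMatrix l

theorem c1_NC (f : K →+* K') {k : ℕ} (y : Fin k → K) (P : Fin k → Matrix (GI N) (GI N) K)
    (h : ∀ i j, i ≠ j → IsUnit (y i - y j)) (C : Finset (Fin k)) :
    (NC y P C).map f = NC (fun i => f (y i)) (fun i => (P i).map f) C := by
  have h1 : IsUnit (vd y C) := by
    refine c1_prod_unit _ _ fun i _ => c1_prod_unit _ _ fun j hj => h j i ?_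
    exact (Finset.mem_filter.1 hj).2.ne'
  have h2 : f (vd y C) = vd (fun i => f (y i)) C := by
    unfold vd
    rw [map_prod]
    refine Finset.prod_congr rfl fun i _ => ?_
    rw [map_prod]
    exact Finset.prod_congr rfl fun j _ => map_sub _ _ _
  rw [NC, NC, c1_smul, c1_inv f h1, h2]
  congr 1
  unfold ordP
  rw [c1_list, List.map_map]
  rfl

theorem c1_cO (f : K →+* K') {k : ℕ} (y : Fin k → K)
    (h : ∀ i j, i ≠ j → IsUnit (y i - y j)) (h' : ∀ i j, i ≠ j → IsUnit (y i + y j)) (i : Fin k) :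
    f (cO y i) = cO (fun i => f (y i)) i := by
  have h1 : IsUnit (2 * ∏ l ∈ Finset.univ.erase i, (y l ^ 2 - y i ^ 2)) := by
    refine c1_two.mul (c1_prod_unit _ _ fun l hl => ?_)
    have hne : l ≠ i := (Finset.mem_erase.1 hl).1
    exact c1_sq (h l i hne) (h' l i hne)
  rw [cO, cO, c1_inv f h1, map_mul, map_prod, map_ofNat]
  congr 2
  refine Finset.prod_congr rfl fun l _ => ?_
  rw [map_sub, map_pow, map_pow]

theorem c1_Om (f : K →+* K') {k : ℕ} (y : Fin k → K) (P Q : Fin k → Matrix (GI N) (GI N) K)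
    (h : ∀ i j, i ≠ j → IsUnit (y i - y j)) (h' : ∀ i j, i ≠ j → IsUnit (y i + y j))
    (R : Finset (Fin k)) :
    (Om y P Q R).map f =
      Om (fun i => f (y i)) (fun i => (P i).map f) (fun i => (Q i).map f) R := by
  have h1 : (Om y P Q R).map f = f.mapMatrix (Om y P Q R) := rfl
  rw [h1, Om, Om, map_sum]
  refine Finset.sum_congr rfl fun i _ => ?_
  change (cO y i • (P i * Q i)).map f = _
  rw [c1_smul, c1_mul, c1_cO f y h h']

theorem c1_VR (f : K →ₐ[ℂ] K') {k : ℕ} (y : Fin k → K) (P Q : Fin k → Matrix (GI N) (GI N) K)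
    (h : ∀ i j, i ≠ j → IsUnit (y i - y j)) (h' : ∀ i j, i ≠ j → IsUnit (y i + y j))
    (R : Finset (Fin k)) :
    (VR y P Q R).map f =
      VR (fun i => f (y i)) (fun i => (P i).map f) (fun i => (Q i).map f) R := by
  have h0 : ((f : K →+* K') : K → K') = f := rfl
  have h1 : f (sp y R) = sp (fun i => f (y i)) R := by
    unfold sp
    rw [map_prod]
    refine Finset.prod_congr rfl fun i _ => ?_
    rw [map_prod]
    exact Finset.prod_congr rfl fun j _ => map_add _ _ _
  have h2 := c1_smul (N := N) (f : K →+* K')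
    (sp y R * algebraMap ℂ K (1 / ((R.card / 2).factorial : ℂ)))
    (NC y P Rᶜ * Om y P Q R ^ (R.card / 2))
  have h3 := c1_NC (N := N) (f : K →+* K') y P h Rᶜ
  have h4 := c1_Om (N := N) (f : K →+* K') y P Q h h' R
  have h5 := c1_mul (N := N) (f : K →+* K') (NC y P Rᶜ) (Om y P Q R ^ (R.card / 2))
  have h6 := c1_pow (N := N) (f : K →+* K') (Om y P Q R) (R.card / 2)
  rw [h0] at h2 h3 h4 h5 h6
  rw [VR, VR, h2, h5, h3, h6, h4, map_mul, h1, AlgHom.commutes]

theorem c1_DR (f : K →+* K') {k : ℕ} (y : Fin k → K) (R : Finset (Fin k)) :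
    f (DR y R) = DR (fun i => f (y i)) R := by
  unfold DR
  rw [map_mul, map_prod, map_prod]
  have het : ∀ i, f (et K R i) = et K' R i := by
    intro i
    unfold et
    split_ifs
    · rw [map_neg, map_one]
    · rw [map_one]
  congr 1
  · refine Finset.prod_congr rfl fun i _ => ?_
    rw [map_prod]
    exact Finset.prod_congr rfl fun j _ => map_add _ _ _
  · refine Finset.prod_congr rfl fun i _ => ?_
    rw [map_prod]
    refine Finset.prod_congr rfl fun j _ => ?_
    rw [map_add, map_mul, map_mul, het, het]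

theorem c1_DR_unit {k : ℕ} (y : Fin k → K)
    (h : ∀ i j, i ≠ j → IsUnit (y i - y j)) (h' : ∀ i j, i ≠ j → IsUnit (y i + y j))
    (R : Finset (Fin k)) : IsUnit (DR y R) := by
  unfold DR
  refine IsUnit.mul (c1_prod_unit _ _ fun i _ => c1_prod_unit _ _ fun j hj => ?_)
    (c1_prod_unit _ _ fun i _ => c1_prod_unit _ _ fun j hj => ?_)
  · exact h' i j (Finset.mem_filter.1 hj).2.ne
  · have hne : i ≠ j := (Finset.mem_filter.1 hj).2.ne
    unfold et
    by_cases h1 : i ∈ R <;> by_cases h2 : j ∈ R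
    · rw [if_pos h1, if_pos h2]
      have := (h' i j hne).neg
      convert this using 1
      ring
    · rw [if_pos h1, if_neg h2]
      have := (h i j hne).neg
      convert this using 1
      ring
    · rw [if_neg h1, if_pos h2]
      have := h i j hne
      convert this using 1
      ring
    · rw [if_neg h1, if_neg h2]
      have := h' i j hne
      convert this using 1
      ring

end c1aux

/-- **Naturality** (row C0).  All the denominators are units: they are products of elements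
`yl x a - yl x c` with `a.1 ≠ c.1` (and of `2`); `Ring.inverse` of a unit is preserved by ring
homomorphisms.  (`(io u).map f = io (f ∘ u)`, `ph_map`, and `Matrix.map f` is a ring
homomorphism.) -/
theorem CG_map {K K' : Type*} [CommRing K] [Algebra ℂ K] [CommRing K'] [Algebra ℂ K']
    (f : K →ₐ[ℂ] K') (k : ℕ) (ε : ℤ) (x : Fin n → K) (w : Lab n → Fin (2 * n) → K)
    (hx : ∀ a c : Lab n, a.1 ≠ c.1 → IsUnit (yl x a - yl x c)) (J : Fin B → Fin k → Fin (2 * n)) :
    f (CG k ε x w fun a => ph (J a)) =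
      CG k ε (fun i => f (x i)) (fun a i => f (w a i)) fun a => ph (J a) := by
  have hf0 : ((f : K →+* K') : K → K') = f := rfl
  rw [CG_eq, CG_eq, map_sum]
  refine Finset.sum_congr rfl fun r _ => ?_
  rw [map_sum]
  refine Finset.sum_congr rfl fun R _ => ?_
  have hinj : ∀ i j, i ≠ j → (r.1 i).1 ≠ (r.1 j).1 := fun i j hij h => hij (r.2.1 h)
  have h : ∀ i j, i ≠ j → IsUnit (yl x (r.1 i) - yl x (r.1 j)) :=
    fun i j hij => hx _ _ (hinj i j hij)
  have h' : ∀ i j, i ≠ j → IsUnit (yl x (r.1 i) + yl x (r.1 j)) := by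
    intro i j hij
    have := hx (r.1 i) (ng (r.1 j)) (hinj i j hij)
    rwa [yl_ng, sub_neg_eq_add] at this
  have hyl : (fun i => f (yl x (r.1 i))) = fun i => yl (fun k => f (x k)) (r.1 i) := by
    funext i
    exact (yl_map (f : K →+* K') x (r.1 i)).symm
  have hD0 : IsUnit (D0 x r.1) := by
    unfold D0
    refine c1_prod_unit _ _ fun i _ => c1_prod_unit _ _ fun l hl => ?_
    have hne : (r.1 i).1 ≠ l := (Finset.mem_filter.1 hl).2 i
    have e1 := hx ((r.1 i).1, true) (l, true) hne
    have e2 := hx ((r.1 i).1, true) (l, false) hne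
    refine c1_sq ?_ ?_
    · simpa [yl] using e1
    · simpa [yl] using e2
  have hD0f : f (D0 x r.1) = D0 (fun i => f (x i)) r.1 := by
    unfold D0
    rw [map_prod]
    refine Finset.prod_congr rfl fun i _ => ?_
    rw [map_prod]
    refine Finset.prod_congr rfl fun l _ => ?_
    rw [map_sub, map_pow, map_pow]
  have hDR : f (DR (fun i => yl x (r.1 i)) R) = DR (fun i => yl (fun k => f (x k)) (r.1 i)) R := by
    rw [← hyl]
    exact c1_DR (f : K →+* K') _ R
  have hinv : f (Ring.inverse (D0 x r.1 * DR (fun i => yl x (r.1 i)) R)) =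
      Ring.inverse (D0 (fun i => f (x i)) r.1 * DR (fun i => yl (fun k => f (x k)) (r.1 i)) R) := by
    have := c1_inv (f : K →+* K') (hD0.mul (c1_DR_unit _ h h' R))
    rw [← hD0f, ← hDR, ← map_mul]
    exact this
  have hio : ∀ u : Fin (2 * n) → K, (io u).map f = io (fun i => f (u i)) := by
    intro u
    have := io_map (f : K →+* K') u
    exact this
  have hVV : (VV x w r.1 R).map f = VV (fun i => f (x i)) (fun a i => f (w a i)) r.1 R := by
    unfold VV
    rw [c1_VR f _ _ _ h h' R, hyl]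
    congr 1
    · funext i
      exact hio _
    · funext i
      exact hio _
  rw [map_mul, map_prod, hinv]
  congr 1
  refine Finset.prod_congr rfl fun a _ => ?_
  have := ph_map (f : K →+* K') (J a) (VV x w r.1 R)
  rw [hf0, hVV] at this
  exact this.symm

/-- The coordinates as functions on `𝔱^reg`. -/
def xK (n : ℕ) : Fin n → ((DD n).RegX → ℂ) := fun k x => x.1 k

/-- The eigenvectors as functions on `𝔱^reg`. -/
noncomputable def wK (n : ℕ) : Lab n → Fin (2 * n) → ((DD n).RegX → ℂ) := fun a i x =>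
  MvPolynomial.eval x.1 (wv a i)

/-- The coefficient functions. -/
noncomputable def CK (n k : ℕ) (ε : ℤ) (J : Fin B → Fin k → Fin (2 * n)) : (DD n).RegX → ℂ :=
  CG k ε (xK n) (wK n) fun a => ph (J a)

theorem xK_unit (a c : Lab n) (h : a.1 ≠ c.1) : IsUnit (yl (xK n) a - yl (xK n) c) := by
  obtain ⟨β, ε, hε, _, hyl⟩ := yl_sub_eq h
  rw [Pi.isUnit_iff]
  intro x
  have h1 : (yl (xK n) a - yl (xK n) c) x = yl x.1 a - yl x.1 c := by
    have e : ∀ a : Lab n, yl (xK n) a x = yl x.1 a := by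
      intro a
      exact (yl_map (Pi.evalRingHom (fun _ : (DD n).RegX => ℂ) x) (xK n) a).symm
    rw [Pi.sub_apply, e, e]
  rw [h1, hyl x.1]
  have h2 := x.2 β
  rw [isUnit_iff_ne_zero]
  refine mul_ne_zero ?_ h2
  rcases hε with rfl | rfl
  · simp
  · simp

/-- The value at a point (from `CG_map` for the evaluation at `x`, `Pi.evalAlgHom`). -/
theorem CK_apply (k : ℕ) (ε : ℤ) (J : Fin B → Fin k → Fin (2 * n)) (x : (DD n).RegX) :
    CK n k ε J x = CG k ε x.1 (fun a i => MvPolynomial.eval x.1 (wv a i)) fun a => ph (J a) := by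
  exact CG_map (Pi.evalAlgHom ℂ (fun _ : (DD n).RegX => ℂ) x) k ε (xK n) (wK n)
    (fun a c h => xK_unit a c h) J

end Pool.Agent.MTD.TD
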