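import Pool.Agent.MTD.TC1

/-! # MTD : type `D`, invariance and clearing of denominators (row C1) -/

namespace Pool.Agent.MTD.TD

open Matrix
open Pool.Agent.MTD.GR Pool.Agent.MTD.LA

variable {n k B : ℕ}

/-- the sign `-1` if the reflection changes the signs -/
def c1_s (β : RD n) : ℤ := if β.2 then -1 else 1

theorem c1_s_sq (β : RD n) : c1_s β * c1_s β = 1 := by
  unfold c1_s
  split_ifs <;> norm_num

theorem c1_fst (β : RD n) (a : Lab n) :
    (sL β a).1 = Equiv.swap β.1.1.1 β.1.1.2 a.1 := by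
  unfold sL
  by_cases h1 : a.1 = β.1.1.1
  · rw [if_pos h1, h1, Equiv.swap_apply_left]
  · by_cases h2 : a.1 = β.1.1.2
    · rw [if_neg h1, if_pos h2, h2, Equiv.swap_apply_right]
    · rw [if_neg h1, if_neg h2, Equiv.swap_apply_of_ne_of_ne h1 h2]

theorem c1_sgl (β : RD n) (a : Lab n) : sgl (sL β a) =
    sgl a * ((if a.1 = β.1.1.1 then c1_s β else 1) * (if a.1 = β.1.1.2 then c1_s β else 1)) := by
  have hb : β.1.1.1 ≠ β.1.1.2 := ne_of_lt β.1.2
  obtain ⟨p, b⟩ := β
  obtain ⟨i, s⟩ := a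
  unfold sL
  by_cases h1 : i = p.1.1
  · have h2 : ¬ i = p.1.2 := fun h => hb (h1.symm.trans h)
    simp only [if_pos h1, if_neg h2]
    cases s <;> cases b <;> simp [sgl, c1_s]
  · by_cases h2 : i = p.1.2
    · simp only [if_neg h1, if_pos h2]
      cases s <;> cases b <;> simp [sgl, c1_s]
    · simp only [if_neg h1, if_neg h2]
      simp

/-- The reflection permutes `RS n k ε` (`sL_fst`; for `k = n` the indices of `r` are all the indices,
so either no sign or exactly two signs change). -/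
theorem RS_sL (β : RD n) (ε : ℤ) (r : RS n k ε) :
    Function.Injective (fun i => (sL β (r.1 i)).1) ∧ (k = n → ∏ i, sgl (sL β (r.1 i)) = ε) := by
  refine ⟨fun i j hij => ?_, fun hk => ?_⟩
  · by_contra hne
    exact sL_fst β (fun h => hne (r.2.1 h)) hij
  · subst hk
    have h1 : Function.Bijective (fun i => (r.1 i).1) :=
      Finite.injective_iff_bijective.1 r.2.1
    simp only [c1_sgl, Finset.prod_mul_distrib]
    rw [r.2.2 rfl]
    have h2 := h1.prod_comp (fun l => if l = β.1.1.1 then c1_s β else 1)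
    have h3 := h1.prod_comp (fun l => if l = β.1.1.2 then c1_s β else 1)
    rw [h2, h3, Finset.prod_ite_eq' Finset.univ, Finset.prod_ite_eq' Finset.univ,
      if_pos (Finset.mem_univ _), if_pos (Finset.mem_univ _), c1_s_sq, mul_one]

theorem c1c2_sq {K : Type*} [CommRing K] (β : RD n) (x : Fin n → K) (l : Fin n) :
    (DD n).sr β x l ^ 2 = x (Equiv.swap β.1.1.1 β.1.1.2 l) ^ 2 := by
  have h1 := yl_sr β x (l, true)
  have h2 := c1_fst β (l, true)
  have h3 : ∀ a : Lab n, (yl x a) ^ 2 = x a.1 ^ 2 := by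
    intro a
    unfold yl
    split_ifs
    · rfl
    · rw [neg_sq]
  have h4 : yl ((DD n).sr β x) (l, true) = (DD n).sr β x l := by
    unfold yl
    rw [if_pos rfl]
  rw [← h4, h1, h3, h2]

theorem D0_sr {K : Type*} [CommRing K] (β : RD n) (x : Fin n → K) (r : Fin k → Lab n)
    (hr : Function.Injective (fun i => (r i).1)) :
    D0 ((DD n).sr β x) r = D0 x (fun i => sL β (r i)) := by
  unfold D0
  refine Finset.prod_congr rfl fun i _ => ?_
  refine Finset.prod_equiv (Equiv.swap β.1.1.1 β.1.1.2) (fun l => ?_) (fun l _ => ?_)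
  · simp only [Finset.mem_filter, Finset.mem_univ, true_and, c1_fst]
    refine forall_congr' fun i' => not_congr ?_
    exact (Equiv.apply_eq_iff_eq _).symm
  · rw [c1c2_sq, c1c2_sq, c1_fst]

theorem c1_eval_sr (β : RD n) (x : Fin n → ℂ) (p : MvPolynomial (Fin n) ℂ) :
    MvPolynomial.eval ((DD n).sr β x) p =
      MvPolynomial.eval x (MvPolynomial.aeval ((DD n).sr β (XP n)) p) := by
  have h : ((MvPolynomial.eval x).comp
      (MvPolynomial.aeval ((DD n).sr β (XP n)) :
        MvPolynomial (Fin n) ℂ →ₐ[ℂ] MvPolynomial (Fin n) ℂ).toRingHom) =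
      MvPolynomial.eval ((DD n).sr β x) := by
    refine MvPolynomial.ringHom_ext (fun c => ?_) (fun i => ?_)
    · simp
    · simp only [RingHom.comp_apply, AlgHom.toRingHom_eq_coe, RingHom.coe_coe,
        MvPolynomial.aeval_X, MvPolynomial.eval_X]
      unfold Dat.sr
      simp only [map_sub, map_mul, MvPolynomial.eval_X, map_intCast]
      rw [ev_map]
      simp only [MvPolynomial.eval_X]
  rw [← h]
  rfl

/-- **Invariance.**  Use `CK_apply`, `yl_sr`, `wv_sr` (at the point `x`), `sL_ng`, `D0_sr` and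
reindex the sum with `r ↦ sL β ∘ r`. -/
theorem CK_sr (hn : 2 ≤ n) (ε : ℤ) (J : Fin B → Fin k → Fin (2 * n)) (β : RD n)
    (x x' : (DD n).RegX) (h : x'.1 = (DD n).sr β x.1) : CK n k ε J x' = CK n k ε J x := by
  rw [CK_apply, CK_apply, h]
  unfold CG
  let T : RS n k ε → RS n k ε := fun r => ⟨fun i => sL β (r.1 i), RS_sL β ε r⟩
  have hT : Function.Involutive T := by
    intro r
    apply Subtype.ext
    funext i
    exact sL_sL β _
  let eT : Equiv.Perm (RS n k ε) := hT.toPerm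
  rw [← Equiv.sum_comp eT (fun r => Sm (fun i => yl x.1 (r.1 i)) _ _ _ (D0 x.1 r.1))]
  refine Finset.sum_congr rfl fun r _ => ?_
  have h1 : (eT r).1 = fun i => sL β (r.1 i) := rfl
  rw [h1]
  have hw : ∀ a : Lab n, (fun i => MvPolynomial.eval ((DD n).sr β x.1) (wv a i)) =
      fun i => MvPolynomial.eval x.1 (wv (sL β a) i) := by
    intro a
    funext i
    rw [c1_eval_sr, wv_sr hn]
  rw [D0_sr β x.1 r.1 r.2.1]
  simp only [yl_sr, hw, sL_ng]

/-- The functions on `𝔱^reg` with powers of the roots as denominators. -/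
noncomputable def c1_O (n : ℕ) : Subalgebra ℂ ((DD n).RegX → ℂ) where
  carrier := {f | ∃ (c : ℕ) (p : MvPolynomial (Fin n) ℂ), ∀ x : (DD n).RegX,
      (∏ β, ev ((DD n).rt β) x.1) ^ c * f x = MvPolynomial.eval x.1 p}
  mul_mem' := by
    rintro f g ⟨c, p, h⟩ ⟨c', p', h'⟩
    refine ⟨c + c', p * p', fun x => ?_⟩
    rw [map_mul, ← h x, ← h' x, pow_add, Pi.mul_apply]
    ring
  add_mem' := by
    rintro f g ⟨c, p, h⟩ ⟨c', p', h'⟩
    refine ⟨c + c', (∏ β, ev ((DD n).rt β) (XP n)) ^ c' * p +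
      (∏ β, ev ((DD n).rt β) (XP n)) ^ c * p', fun x => ?_⟩
    have hΔ : MvPolynomial.eval x.1 (∏ β, ev ((DD n).rt β) (XP n)) =
        ∏ β, ev ((DD n).rt β) x.1 := by
      rw [map_prod]
      refine Finset.prod_congr rfl fun β _ => ?_
      rw [ev_map]
      simp only [MvPolynomial.eval_X]
    rw [map_add, map_mul, map_mul, map_pow, map_pow, hΔ, ← h x, ← h' x, pow_add, Pi.add_apply]
    ring
  algebraMap_mem' := by
    intro c
    exact ⟨0, MvPolynomial.C c, fun x => by simp [Pi.algebraMap_apply]⟩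

theorem c1_poly (p : MvPolynomial (Fin n) ℂ) :
    (fun x : (DD n).RegX => MvPolynomial.eval x.1 p) ∈ c1_O n :=
  ⟨0, p, fun x => by rw [pow_zero, one_mul]⟩

theorem c1_x (i : Fin n) : xK n i ∈ c1_O n := by
  have h : xK n i = fun x : (DD n).RegX => MvPolynomial.eval x.1 (MvPolynomial.X i) := by
    funext x
    rw [MvPolynomial.eval_X]
    rfl
  rw [h]
  exact c1_poly _

theorem c1_w (a : Lab n) (i : Fin (2 * n)) : wK n a i ∈ c1_O n := c1_poly _

theorem c1_yl (a : Lab n) : yl (xK n) a ∈ c1_O n := by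
  unfold yl
  split_ifs
  · exact c1_x _
  · exact (c1_O n).neg_mem (c1_x _)

theorem c1_ev (β : RD n) (x : (DD n).RegX) :
    ev ((DD n).rt β) (xK n) x = ev ((DD n).rt β) x.1 := by
  unfold ev
  rw [Finset.sum_apply]
  refine Finset.sum_congr rfl fun k _ => ?_
  rw [Pi.mul_apply, Pi.intCast_apply]
  rfl

theorem c1_UO {a c : Lab n} (h : a.1 ≠ c.1) : UO (c1_O n) (yl (xK n) a - yl (xK n) c) := by
  classical
  obtain ⟨β, e, he, _, hev⟩ := yl_sub_eq h
  have h1 := hev (xK n)
  have hee : (e : ℂ) * (e : ℂ) = 1 := by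
    rcases he with rfl | rfl <;> norm_num
  refine ⟨(c1_O n).sub_mem (c1_yl a) (c1_yl c),
    fun x => (e : ℂ) * (ev ((DD n).rt β) x.1)⁻¹, ?_, ?_⟩
  · refine ⟨1, MvPolynomial.C (e : ℂ) * ∏ γ ∈ Finset.univ.erase β, ev ((DD n).rt γ) (XP n),
      fun x => ?_⟩
    rw [map_mul, MvPolynomial.eval_C, map_prod, pow_one,
      ← Finset.mul_prod_erase Finset.univ _ (Finset.mem_univ β)]
    have h2 : ∀ γ : RD n, MvPolynomial.eval x.1 (ev ((DD n).rt γ) (XP n)) =
        ev ((DD n).rt γ) x.1 := by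
      intro γ
      rw [ev_map]
      simp only [MvPolynomial.eval_X]
    simp only [h2]
    have h3 : ev ((DD n).rt β) x.1 ≠ 0 := x.2 β
    field_simp
  · rw [h1]
    funext x
    have h3 : ev ((DD n).rt β) x.1 ≠ 0 := x.2 β
    rw [Pi.mul_apply, Pi.mul_apply, Pi.intCast_apply, c1_ev, Pi.one_apply]
    calc (e : ℂ) * ev ((DD n).rt β) x.1 * ((e : ℂ) * (ev ((DD n).rt β) x.1)⁻¹)
        = (e : ℂ) * (e : ℂ) * (ev ((DD n).rt β) x.1 * (ev ((DD n).rt β) x.1)⁻¹) := by ring
      _ = 1 := by rw [hee, mul_inv_cancel₀ h3, one_mul]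

theorem c1_UO' {a c : Lab n} (h : a.1 ≠ c.1) : UO (c1_O n) (yl (xK n) a + yl (xK n) c) := by
  have h1 := c1_UO (a := a) (c := ng c) h
  rw [yl_ng, sub_neg_eq_add] at h1
  exact h1

/-- the matrices with entries in `c1_O` -/
noncomputable def c1_L (n : ℕ) : Subring (Matrix (GI (2 * n)) (GI (2 * n)) ((DD n).RegX → ℂ)) where
  carrier := {X | ∀ S T, X S T ∈ c1_O n}
  mul_mem' := by
    intro X Y hX hY S T
    rw [Matrix.mul_apply]
    exact (c1_O n).sum_mem fun U _ => (c1_O n).mul_mem (hX S U) (hY U T)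
  one_mem' := by
    intro S T
    rw [Matrix.one_apply]
    split_ifs
    · exact (c1_O n).one_mem
    · exact (c1_O n).zero_mem
  add_mem' := by
    intro X Y hX hY S T
    exact (c1_O n).add_mem (hX S T) (hY S T)
  zero_mem' := fun S T => (c1_O n).zero_mem
  neg_mem' := by
    intro X hX S T
    exact (c1_O n).neg_mem (hX S T)

/-- the vectors -/
noncomputable def c1_E (n : ℕ) : Submodule ((DD n).RegX → ℂ)
    (Matrix (GI (2 * n)) (GI (2 * n)) ((DD n).RegX → ℂ)) where
  carrier := Set.range io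
  add_mem' := by
    rintro _ _ ⟨u, rfl⟩ ⟨v, rfl⟩
    exact ⟨u + v, io_add u v⟩
  zero_mem' := ⟨0, by
    have h := io_smul (0 : (DD n).RegX → ℂ) (0 : Fin (2 * n) → (DD n).RegX → ℂ)
    rw [zero_smul, zero_smul] at h
    exact h⟩
  smul_mem' := by
    rintro c _ ⟨u, rfl⟩
    exact ⟨c • u, io_smul c u⟩

theorem c1_Loc (r : Fin k → Lab n) : Loc (c1_O n) (c1_L n) (c1_E n) (fun i => yl (xK n) (r i))
    (fun i => io (wK n (r i))) (fun i => io (wK n (ng (r i)))) where
  smul_mem := fun c hc v hv S T => (c1_O n).mul_mem hc (hv S T)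
  sq := by
    rintro _ ⟨u, rfl⟩
    exact io_mul_self u
  y_mem := fun i => c1_yl _
  P_mem := fun i S T => io_mem (c1_O n).toSubring _ (fun j => c1_w _ j) S T
  Q_mem := fun i S T => io_mem (c1_O n).toSubring _ (fun j => c1_w _ j) S T
  P_E := fun i => ⟨_, rfl⟩
  Q_E := fun i => ⟨_, rfl⟩

theorem c1_D0 (r : Fin k → Lab n) : UO (c1_O n) (D0 (xK n) r) := by
  unfold D0
  refine UO.prod _ _ fun i _ => UO.prod _ _ fun l hl => ?_
  rw [Finset.mem_filter] at hl
  have hne := hl.2 i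
  have h1 := c1_UO (n := n) (a := ((r i).1, true)) (c := (l, true)) hne
  have h2 := c1_UO' (n := n) (a := ((r i).1, true)) (c := (l, true)) hne
  have h3 := h1.mul h2
  have h4 : ∀ j : Fin n, yl (xK n) (j, true) = xK n j := by
    intro j
    unfold yl
    rw [if_pos rfl]
  rw [h4, h4] at h3
  convert h3 using 1
  ring

/-- The denominators are powers of roots: the functions `f` on `𝔱^reg` for which there are `c`, `p`
with `(∏ β)^c f = p` form a subalgebra containing the polynomials and the inverses of the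
`yl x a - yl x c` (`yl_sub_eq`). -/
theorem CK_clear (hn : 2 ≤ n) (ε : ℤ) (J : Fin B → Fin k → Fin (2 * n)) :
    ∃ (c : ℕ) (p : MvPolynomial (Fin n) ℂ), ∀ x : (DD n).RegX,
      (∏ β, ev ((DD n).rt β) x.1) ^ c * CK n k ε J x = MvPolynomial.eval x.1 p := by
  have h : CK n k ε J ∈ c1_O n := by
    unfold CK CG
    refine (c1_O n).sum_mem fun r _ => ?_
    have h1 := Sm_mem0 (α := 1) (D0 := D0 (xK n) r.1) (c1_Loc r.1) (fun i j hij => ?_)
      (fun a => ph (J a)) (fun a v hv => ?_) ?_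
    · rw [one_mul] at h1
      exact h1
    · have hne : (r.1 i).1 ≠ (r.1 j).1 := fun h => hij (r.2.1 h)
      exact ⟨c1_UO hne, c1_UO' hne⟩
    · exact ph_mem (c1_O n).toSubring (J a) v hv
    · rw [one_mul]
      exact (c1_D0 r.1).inverse.1
  exact h

end Pool.Agent.MTD.TD
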