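import Pool.Agent.MTD.TC2

/-! # MTD : type `D`, the coefficient functions are invariant polynomials (row C2) -/

namespace Pool.Agent.MTD.TD

open Matrix
open Pool.Agent.MTD.GR Pool.Agent.MTD.LA

variable {n k B : ℕ}

/-! ### roots and differences of coordinates -/

theorem c3_idx {γ β : RD n}
    (h : ({γ.1.1.1, γ.1.1.2} : Finset (Fin n)) = {β.1.1.1, β.1.1.2}) : γ.1 = β.1 := by
  have h1 : γ.1.1.1 ∈ ({β.1.1.1, β.1.1.2} : Finset (Fin n)) := by rw [← h]; simp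
  have h2 : γ.1.1.2 ∈ ({β.1.1.1, β.1.1.2} : Finset (Fin n)) := by rw [← h]; simp
  have h3 := γ.1.2
  have h4 := β.1.2
  rw [Finset.mem_insert, Finset.mem_singleton] at h1 h2
  rcases h1 with h1 | h1 <;> rcases h2 with h2 | h2
  · rw [h1, h2] at h3
    exact absurd h3 (lt_irrefl _)
  · exact Subtype.ext (Prod.ext h1 h2)
  · rw [h1, h2] at h3
    exact absurd (h3.trans h4) (lt_irrefl _)
  · rw [h1, h2] at h3
    exact absurd h3 (lt_irrefl _)

/-- the root as a function -/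
noncomputable def c3_al (γ : RD n) : (DD n).RegX → ℂ := fun x => ev ((DD n).rt γ) x.1

theorem c3_ev (γ : RD n) : ev ((DD n).rt γ) (xK n) = c3_al γ := by
  funext x
  unfold ev c3_al ev xK
  rw [Finset.sum_apply]
  rfl

theorem c3_unit (γ : RD n) : IsUnit (c3_al γ) := by
  rw [Pi.isUnit_iff]
  exact fun x => isUnit_iff_ne_zero.2 (x.2 γ)

theorem c3_yl_one (a : Lab n) : yl (fun _ : Fin n => (1 : ℤ)) a = 1 ∨
    yl (fun _ : Fin n => (1 : ℤ)) a = -1 := by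
  unfold yl
  split_ifs
  · exact Or.inl rfl
  · exact Or.inr rfl

theorem c3_two {a c : Lab n} (h : a.1 ≠ c.1) : ∃ γ1 γ2 : RD n, ∃ ε1 ε2 : ℤ,
    (ε1 = 1 ∨ ε1 = -1) ∧ (ε2 = 1 ∨ ε2 = -1) ∧ γ1.1 = γ2.1 ∧ γ1 ≠ γ2 ∧
    (({γ1.1.1.1, γ1.1.1.2} : Finset (Fin n)) = {a.1, c.1}) ∧
    yl (xK n) a - yl (xK n) c = (ε1 : (DD n).RegX → ℂ) * c3_al γ1 ∧
    yl (xK n) a + yl (xK n) c = (ε2 : (DD n).RegX → ℂ) * c3_al γ2 := by
  obtain ⟨γ1, ε1, h1, h2, h3⟩ := yl_sub_eq h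
  have h' : a.1 ≠ (ng c).1 := h
  obtain ⟨γ2, ε2, h1', h2', h3'⟩ := yl_sub_eq h'
  have h2'' : (({γ2.1.1.1, γ2.1.1.2} : Finset (Fin n)) = {a.1, c.1}) := h2'
  refine ⟨γ1, γ2, ε1, ε2, h1, h1', c3_idx (h2.trans h2''.symm), ?_, h2, ?_, ?_⟩
  · rintro rfl
    have e1 := h3 (fun _ : Fin n => (1 : ℤ))
    have e2 := h3' (fun _ : Fin n => (1 : ℤ))
    rw [yl_ng, sub_neg_eq_add] at e2
    simp only [Int.cast_id] at e1 e2
    generalize ev ((DD n).rt γ1) (fun _ : Fin n => (1 : ℤ)) = E at e1 e2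
    rcases c3_yl_one a with ha | ha <;> rcases c3_yl_one c with hc | hc <;>
      rw [ha, hc] at e1 e2 <;> rcases h1 with rfl | rfl <;> rcases h1' with rfl | rfl <;> omega
  · rw [h3 (xK n), c3_ev]
  · have := h3' (xK n)
    rw [yl_ng, sub_neg_eq_add, c3_ev] at this
    exact this

theorem c3_poly (β : RD n) (p : MvPolynomial (Fin n) ℂ) :
    (fun x : (DD n).RegX => MvPolynomial.eval x.1 p) ∈ OB (DD n) β := poly_mem_OB β p

theorem c3_al_mem (β γ : RD n) : c3_al γ ∈ OB (DD n) β := by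
  have h1 : c3_al γ = fun x : (DD n).RegX =>
      MvPolynomial.eval x.1 (ev ((DD n).rt γ) (XP n)) := by
    funext x
    rw [ev_map]
    simp only [MvPolynomial.eval_X]
    rfl
  rw [h1]
  exact c3_poly β _

theorem c3_UO_al (hn : 2 ≤ n) {β γ : RD n} (h : γ ≠ β) : UO (OB (DD n) β) (c3_al γ) := by
  refine ⟨c3_al_mem β γ, _, inv_mem_OB (ax hn) h, ?_⟩
  funext x
  exact mul_inv_cancel₀ (x.2 γ)

theorem c3_sgn {O : Subalgebra ℂ ((DD n).RegX → ℂ)} {ε : ℤ} (hε : ε = 1 ∨ ε = -1)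
    {c : (DD n).RegX → ℂ} (h : UO O c) : UO O ((ε : (DD n).RegX → ℂ) * c) := by
  rcases hε with rfl | rfl
  · rw [Int.cast_one, one_mul]
    exact h
  · rw [Int.cast_neg, Int.cast_one, neg_one_mul]
    exact h.neg

theorem c3_uo (hn : 2 ≤ n) {β : RD n} {a c : Lab n} (h : a.1 ≠ c.1)
    (hs : ({a.1, c.1} : Finset (Fin n)) ≠ {β.1.1.1, β.1.1.2}) :
    UO (OB (DD n) β) (yl (xK n) a - yl (xK n) c) ∧
      UO (OB (DD n) β) (yl (xK n) a + yl (xK n) c) := by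
  obtain ⟨γ1, γ2, ε1, ε2, h1, h2, h3, -, h5, h6, h7⟩ := c3_two h
  rw [h6, h7]
  refine ⟨c3_sgn h1 (c3_UO_al hn ?_), c3_sgn h2 (c3_UO_al hn ?_)⟩
  · rintro rfl
    exact hs h5.symm
  · rintro rfl
    rw [h3] at h5
    exact hs h5.symm

theorem c3_pq (hn : 2 ≤ n) {β : RD n} {a c : Lab n} (h : a.1 ≠ c.1)
    (hs : ({a.1, c.1} : Finset (Fin n)) = {β.1.1.1, β.1.1.2}) :
    (∃ ε : ℤ, (ε = 1 ∨ ε = -1) ∧
      yl (xK n) a - yl (xK n) c = (ε : (DD n).RegX → ℂ) * c3_al β ∧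
      UO (OB (DD n) β) (yl (xK n) a + yl (xK n) c)) ∨
    ∃ ε : ℤ, (ε = 1 ∨ ε = -1) ∧
      yl (xK n) a + yl (xK n) c = (ε : (DD n).RegX → ℂ) * c3_al β ∧
      UO (OB (DD n) β) (yl (xK n) a - yl (xK n) c) := by
  obtain ⟨γ1, γ2, ε1, ε2, h1, h2, h3, h4, h5, h6, h7⟩ := c3_two h
  have h8 : γ1.1 = β.1 := c3_idx (h5.trans hs)
  by_cases h9 : γ1 = β
  · left
    subst h9
    refine ⟨ε1, h1, h6, ?_⟩
    rw [h7]
    exact c3_sgn h2 (c3_UO_al hn h4.symm)
  · right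
    have h10 : γ2 = β := by
      have e1 : γ1.2 ≠ β.2 := fun e => h9 (Prod.ext h8 e)
      have e2 : γ1.2 ≠ γ2.2 := fun e => h4 (Prod.ext h3 e)
      refine Prod.ext (h3.symm.trans h8) ?_
      revert e1 e2
      cases γ1.2 <;> cases γ2.2 <;> cases β.2 <;> simp
    subst h10
    refine ⟨ε2, h2, h7, ?_⟩
    rw [h6]
    exact c3_sgn h1 (c3_UO_al hn h9)

/-! ### the lattice and the vectors -/

/-- the matrices with entries in `O` -/
def c3_L (β : RD n) : Subring (Matrix (GI (2 * n)) (GI (2 * n)) ((DD n).RegX → ℂ)) where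
  carrier := {M | ∀ S T, M S T ∈ OB (DD n) β}
  mul_mem' := by
    intro M M' hM hM' S T
    rw [Matrix.mul_apply]
    exact sum_mem fun U _ => mul_mem (hM S U) (hM' U T)
  one_mem' := by
    intro S T
    rw [Matrix.one_apply]
    split_ifs
    · exact one_mem _
    · exact zero_mem _
  add_mem' := fun hM hM' S T => add_mem (hM S T) (hM' S T)
  zero_mem' := fun S T => zero_mem _
  neg_mem' := fun hM S T => neg_mem (hM S T)

/-- the vectors -/
def c3_E (n : ℕ) : Submodule ((DD n).RegX → ℂ)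
    (Matrix (GI (2 * n)) (GI (2 * n)) ((DD n).RegX → ℂ)) where
  carrier := Set.range io
  add_mem' := by
    rintro _ _ ⟨u, rfl⟩ ⟨v, rfl⟩
    exact ⟨u + v, io_add u v⟩
  zero_mem' := ⟨0, by
    have := io_smul (0 : (DD n).RegX → ℂ) (0 : Fin (2 * n) → (DD n).RegX → ℂ)
    rw [zero_smul, zero_smul] at this
    exact this⟩
  smul_mem' := by
    rintro c _ ⟨u, rfl⟩
    exact ⟨c • u, io_smul c u⟩

theorem c3_io_mem (β : RD n) (p : Fin (2 * n) → MvPolynomial (Fin n) ℂ) :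
    io (fun i (x : (DD n).RegX) => MvPolynomial.eval x.1 (p i)) ∈ c3_L β := fun S T =>
  io_mem (OB (DD n) β).toSubring _ (fun j => c3_poly β (p j)) S T

theorem c3_eval_yl (a : Lab n) (x : (DD n).RegX) :
    MvPolynomial.eval x.1 (yl (XP n) a) = yl (xK n) a x := by
  rw [← yl_map (MvPolynomial.eval x.1)]
  simp only [MvPolynomial.eval_X]
  unfold yl
  split_ifs <;> rfl

theorem c3_loc (β : RD n) (r : Fin k → Lab n) :
    Loc (OB (DD n) β) (c3_L β) (c3_E n) (fun i => yl (xK n) (r i)) (fun i => io (wK n (r i)))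
      (fun i => io (wK n (ng (r i)))) where
  smul_mem c hc v hv S T := mul_mem hc (hv S T)
  sq := by
    rintro _ ⟨u, rfl⟩
    exact io_mul_self u
  y_mem i := by
    have h1 : yl (xK n) (r i) = fun x : (DD n).RegX =>
        MvPolynomial.eval x.1 (yl (XP n) (r i)) := by
      funext x
      rw [c3_eval_yl]
    change yl (xK n) (r i) ∈ _
    rw [h1]
    exact c3_poly β _
  P_mem i := c3_io_mem β (wv (r i))
  Q_mem i := c3_io_mem β (wv (ng (r i)))
  P_E i := ⟨_, rfl⟩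
  Q_E i := ⟨_, rfl⟩

theorem c3_diff (hn : 2 ≤ n) (β : RD n) {a c : Lab n} (h : a.1 ≠ c.1) :
    ∃ d ∈ c3_L β, d ∈ c3_E n ∧
      io (wK n a) = io (wK n c) + (yl (xK n) a - yl (xK n) c) • d := by
  obtain ⟨d, hd⟩ := wv_sub hn a c h
  refine ⟨io (fun i (x : (DD n).RegX) => MvPolynomial.eval x.1 (d i)), c3_io_mem β d, ⟨_, rfl⟩, ?_⟩
  rw [← io_smul, ← io_add]
  congr 1
  funext i
  funext x
  have h1 := congrArg (MvPolynomial.eval x.1) (congrFun hd i)
  rw [Pi.sub_apply, Pi.smul_apply, smul_eq_mul, map_sub, map_mul, map_sub, c3_eval_yl,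
    c3_eval_yl] at h1
  change MvPolynomial.eval x.1 (wv a i) = MvPolynomial.eval x.1 (wv c i) +
    (yl (xK n) a x - yl (xK n) c x) * MvPolynomial.eval x.1 (d i)
  rw [← h1]
  ring

/-! ### the denominator -/

theorem c3_factor (hn : 2 ≤ n) {β : RD n} {i j : Fin n} (h : i ≠ j) :
    (({i, j} : Finset (Fin n)) ≠ {β.1.1.1, β.1.1.2} →
      UO (OB (DD n) β) (xK n i ^ 2 - xK n j ^ 2)) ∧
    (({i, j} : Finset (Fin n)) = {β.1.1.1, β.1.1.2} →
      ∃ u, UO (OB (DD n) β) u ∧ xK n i ^ 2 - xK n j ^ 2 = u * c3_al β) := by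
  have e1 : yl (xK n) ((i, true) : Lab n) = xK n i := rfl
  have e2 : yl (xK n) ((j, true) : Lab n) = xK n j := rfl
  have e3 : xK n i ^ 2 - xK n j ^ 2 = (yl (xK n) ((i, true) : Lab n) - yl (xK n) ((j, true) : Lab n)) *
      (yl (xK n) ((i, true) : Lab n) + yl (xK n) ((j, true) : Lab n)) := by
    rw [e1, e2]
    ring
  rw [e3]
  refine ⟨fun hs => ?_, fun hs => ?_⟩
  · have h1 := c3_uo hn (a := ((i, true) : Lab n)) (c := ((j, true) : Lab n)) h hs
    exact h1.1.mul h1.2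
  · rcases c3_pq hn (a := ((i, true) : Lab n)) (c := ((j, true) : Lab n)) h hs with
      ⟨ε, h1, h2, h3⟩ | ⟨ε, h1, h2, h3⟩
    · exact ⟨_, c3_sgn h1 h3, by rw [h2]; ring⟩
    · exact ⟨_, c3_sgn h1 h3, by rw [h2]; ring⟩

theorem c3_D0_unit (hn : 2 ≤ n) {β : RD n} (r : Fin k → Lab n)
    (h : ∀ i l, (∀ i', (r i').1 ≠ l) → ({(r i).1, l} : Finset (Fin n)) ≠ {β.1.1.1, β.1.1.2}) :
    UO (OB (DD n) β) (D0 (xK n) r) := by
  unfold D0
  refine UO.prod _ _ fun i _ => UO.prod _ _ fun l hl => ?_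
  rw [Finset.mem_filter] at hl
  exact (c3_factor hn (hl.2 i)).1 (h i l hl.2)

theorem c3_D0_one (hn : 2 ≤ n) {β : RD n} (r : Fin k → Lab n)
    (hr : Function.Injective (fun i => (r i).1)) (i₀ : Fin k) (b : Fin n)
    (hb : ∀ i', (r i').1 ≠ b)
    (hs : ({(r i₀).1, b} : Finset (Fin n)) = {β.1.1.1, β.1.1.2}) :
    ∃ u, UO (OB (DD n) β) u ∧ D0 (xK n) r = u * c3_al β := by
  classical
  have h1 : D0 (xK n) r = ∏ x ∈ (Finset.univ : Finset (Fin k)) ×ˢ
      Finset.univ.filter (fun l => ∀ i', (r i').1 ≠ l), (xK n (r x.1).1 ^ 2 - xK n x.2 ^ 2) := by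
    rw [Finset.prod_product]
    rfl
  have h2 : (i₀, b) ∈ (Finset.univ : Finset (Fin k)) ×ˢ
      Finset.univ.filter (fun l => ∀ i', (r i').1 ≠ l) := by
    rw [Finset.mem_product, Finset.mem_filter]
    exact ⟨Finset.mem_univ _, Finset.mem_univ _, hb⟩
  rw [h1, ← Finset.prod_erase_mul _ _ h2]
  obtain ⟨u, hu, hu'⟩ := (c3_factor hn (hb i₀)).2 hs
  refine ⟨_, UO.mul (UO.prod _ _ ?_) hu, by rw [hu', mul_assoc]⟩
  rintro ⟨i, l⟩ hil
  rw [Finset.mem_erase, Finset.mem_product, Finset.mem_filter] at hil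
  obtain ⟨h3, -, -, h4⟩ := hil
  refine (c3_factor hn (h4 i)).1 fun h5 => h3 ?_
  have h6 : ({(r i).1, l} : Finset (Fin n)) = {(r i₀).1, b} := h5.trans hs.symm
  have h7 : (r i).1 ∈ ({(r i₀).1, b} : Finset (Fin n)) := by rw [← h6]; simp
  have h8 : l ∈ ({(r i₀).1, b} : Finset (Fin n)) := by rw [← h6]; simp
  rw [Finset.mem_insert, Finset.mem_singleton] at h7 h8
  have h9 : (r i).1 = (r i₀).1 := h7.resolve_right (hb i)
  have h10 : l = b := h8.resolve_left fun h => h4 i₀ h.symm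
  rw [hr h9, h10]

/-! ### one summand -/

theorem c3_term (hn : 2 ≤ n) (β : RD n) (r : Fin k → Lab n)
    (hr : Function.Injective (fun i => (r i).1))
    (φ : Fin B → Matrix (GI (2 * n)) (GI (2 * n)) ((DD n).RegX → ℂ) →ₗ[(DD n).RegX → ℂ]
      ((DD n).RegX → ℂ)) (hφ : ∀ a, ∀ v ∈ c3_L β, φ a v ∈ OB (DD n) β) :
    c3_al β * Sm (fun i => yl (xK n) (r i)) (fun i => io (wK n (r i)))
      (fun i => io (wK n (ng (r i)))) φ (D0 (xK n) r) ∈ OB (DD n) β := by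
  classical
  have hpq : β.1.1.1 ≠ β.1.1.2 := β.1.2.ne
  have hmem : ∀ i l, ({(r i).1, l} : Finset (Fin n)) = {β.1.1.1, β.1.1.2} →
      ((r i).1 = β.1.1.1 ∧ l = β.1.1.2) ∨ ((r i).1 = β.1.1.2 ∧ l = β.1.1.1) := by
    intro i l hs
    have h7 : (r i).1 ∈ ({β.1.1.1, β.1.1.2} : Finset (Fin n)) := by rw [← hs]; simp
    have h8 : l ∈ ({β.1.1.1, β.1.1.2} : Finset (Fin n)) := by rw [← hs]; simp
    have h9 : β.1.1.1 ∈ ({(r i).1, l} : Finset (Fin n)) := by rw [hs]; simp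
    have h10 : β.1.1.2 ∈ ({(r i).1, l} : Finset (Fin n)) := by rw [hs]; simp
    rw [Finset.mem_insert, Finset.mem_singleton] at h7 h8 h9 h10
    rcases h7 with h7 | h7 <;> rcases h8 with h8 | h8
    · exfalso
      rw [h7, h8, or_self] at h10
      exact hpq h10.symm
    · exact Or.inl ⟨h7, h8⟩
    · exact Or.inr ⟨h7, h8⟩
    · exfalso
      rw [h7, h8, or_self] at h9
      exact hpq h9
  by_cases hboth : (∃ i, (r i).1 = β.1.1.1) ∧ ∃ j, (r j).1 = β.1.1.2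
  · obtain ⟨⟨i₀, hi₀⟩, j₀, hj₀⟩ := hboth
    have hij : i₀ ≠ j₀ := by
      rintro rfl
      exact hpq (hi₀.symm.trans hj₀)
    have hu : ∀ i j, i ≠ j → ¬ (i = i₀ ∧ j = j₀) → ¬ (i = j₀ ∧ j = i₀) →
        UO (OB (DD n) β) (yl (xK n) (r i) - yl (xK n) (r j)) ∧
          UO (OB (DD n) β) (yl (xK n) (r i) + yl (xK n) (r j)) := by
      intro i j h1 h2 h3
      refine c3_uo hn (fun h => h1 (hr h)) fun hs => ?_
      rcases hmem i _ hs with ⟨h4, h5⟩ | ⟨h4, h5⟩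
      · exact h2 ⟨hr (h4.trans hi₀.symm), hr (h5.trans hj₀.symm)⟩
      · exact h3 ⟨hr (h4.trans hj₀.symm), hr (h5.trans hi₀.symm)⟩
    have hD : UO (OB (DD n) β) (D0 (xK n) r) := by
      refine c3_D0_unit hn r fun i l hl hs => ?_
      rcases hmem i l hs with ⟨-, h5⟩ | ⟨-, h5⟩
      · exact hl j₀ (hj₀.trans h5.symm)
      · exact hl i₀ (hi₀.trans h5.symm)
    have hne : (r j₀).1 ≠ (r i₀).1 := by
      rw [hi₀, hj₀]
      exact hpq.symm
    have hset : ({(r j₀).1, (r i₀).1} : Finset (Fin n)) = {β.1.1.1, β.1.1.2} := by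
      rw [hi₀, hj₀, Finset.pair_comm]
    have hfin : ∀ (ε : ℤ), (ε = 1 ∨ ε = -1) → ∀ S : (DD n).RegX → ℂ,
        ((ε : (DD n).RegX → ℂ) * c3_al β) * S ∈ OB (DD n) β → c3_al β * S ∈ OB (DD n) β := by
      rintro ε (rfl | rfl) S h
      · rwa [Int.cast_one, one_mul] at h
      · rw [Int.cast_neg, Int.cast_one, neg_one_mul, neg_mul] at h
        exact neg_mem_iff.1 h
    have hunit : ∀ (ε : ℤ), (ε = 1 ∨ ε = -1) →
        IsUnit ((ε : (DD n).RegX → ℂ) * c3_al β) := by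
      rintro ε (rfl | rfl)
      · rw [Int.cast_one, one_mul]
        exact c3_unit β
      · rw [Int.cast_neg, Int.cast_one, neg_one_mul]
        exact (c3_unit β).neg
    rcases c3_pq hn hne hset with ⟨ε, h1, h2, h3⟩ | ⟨ε, h1, h2, h3⟩
    · refine hfin ε h1 _ ?_
      obtain ⟨d, hdL, hdE, hd⟩ := c3_diff hn β hne
      obtain ⟨d', hdL', hdE', hd'⟩ := c3_diff hn β (a := ng (r j₀)) (c := ng (r i₀)) hne
      refine Sm_mem_minus (c3_loc β r) hij hu ?_ (hunit ε h1) h2 hdL (neg_mem hdL') hdE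
        (neg_mem hdE') ?_ ?_ φ hφ hD
      · rw [add_comm]
        exact h3
      · rw [← h2]
        exact hd
      · rw [hd', yl_ng, yl_ng, smul_neg, ← neg_smul, ← h2]
        congr 2
        ring
    · refine hfin ε h1 _ ?_
      obtain ⟨d, hdL, hdE, hd⟩ := c3_diff hn β (a := r j₀) (c := ng (r i₀)) hne
      obtain ⟨d', hdL', hdE', hd'⟩ := c3_diff hn β (a := ng (r j₀)) (c := r i₀) hne
      refine Sm_mem_plus (c3_loc β r) hij hu h3 (hunit ε h1) ?_ hdL (neg_mem hdL') hdE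
        (neg_mem hdE') ?_ ?_ φ hφ hD
      · rw [← h2, add_comm]
      · rw [← h2, hd, yl_ng, sub_neg_eq_add]
      · rw [hd', yl_ng, smul_neg, ← neg_smul, ← h2]
        congr 2
        ring
  · have hu : ∀ i j, i ≠ j → UO (OB (DD n) β) (yl (xK n) (r i) - yl (xK n) (r j)) ∧
        UO (OB (DD n) β) (yl (xK n) (r i) + yl (xK n) (r j)) := by
      intro i j h1
      refine c3_uo hn (fun h => h1 (hr h)) fun hs => hboth ?_
      rcases hmem i _ hs with ⟨h4, h5⟩ | ⟨h4, h5⟩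
      · exact ⟨⟨i, h4⟩, j, h5⟩
      · exact ⟨⟨j, h5⟩, i, h4⟩
    refine Sm_mem0 (c3_loc β r) hu φ hφ ?_
    have hinv : ∀ u, UO (OB (DD n) β) u → D0 (xK n) r = u * c3_al β →
        c3_al β * Ring.inverse (D0 (xK n) r) ∈ OB (DD n) β := by
      intro u hu' h
      rw [h, Ring.mul_inverse_rev, ← mul_assoc, Ring.mul_inverse_cancel _ (c3_unit β), one_mul]
      exact hu'.inverse.1
    by_cases hp : ∃ i, (r i).1 = β.1.1.1
    · obtain ⟨i₀, hi₀⟩ := hp
      have hq : ∀ i', (r i').1 ≠ β.1.1.2 := fun i' h => hboth ⟨⟨i₀, hi₀⟩, i', h⟩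
      obtain ⟨u, hu', h⟩ := c3_D0_one hn r hr i₀ β.1.1.2 hq (by rw [hi₀])
      exact hinv u hu' h
    · by_cases hq : ∃ j, (r j).1 = β.1.1.2
      · obtain ⟨j₀, hj₀⟩ := hq
        obtain ⟨u, hu', h⟩ := c3_D0_one hn r hr j₀ β.1.1.1 (fun i' h => hp ⟨i', h⟩)
          (by rw [hj₀, Finset.pair_comm])
        exact hinv u hu' h
      · have hD : UO (OB (DD n) β) (D0 (xK n) r) := by
          refine c3_D0_unit hn r fun i l _ hs => ?_
          rcases hmem i l hs with ⟨h4, -⟩ | ⟨h4, -⟩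
          · exact hp ⟨i, h4⟩
          · exact hq ⟨i, h4⟩
        exact mul_mem (c3_al_mem β β) hD.inverse.1

/-- **At most simple poles.**  `α = ev (rt β) x`, `β = ((p, q), s)`, `O = OB (DD n) β`,
`L` = the matrices with entries in `O`, `E` = the range of `io`.
For each `r ∈ RS n k ε` show `α * Sm(r) ∈ O` (`Sm` = the summand of `CG`):
* if `p, q` are not both indices of `r`: `Sm_mem0`; the `yl x (r i) ± yl x (r j)` (`i ≠ j`) are, up to
  sign, roots different from `β` (`yl_sub_eq`), so they are units of `O` (`inv_mem_OB`); `D0` has at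
  most one factor `x_p² - x_q²` up to sign, so `α / D0 ∈ O`;
* if `p, q` are the indices of `r i₀`, `r j₀`: `yl (r i₀) - yl (r j₀) = ± α` or
  `yl (r i₀) + yl (r j₀) = ± α`, the other combination being a unit of `O`; `D0` is a unit of `O`.
  In the first case `Sm_mem_minus`, with `d` from `wv_sub` for the labels `r j₀, r i₀` and
  `ng (r j₀), ng (r i₀)`; in the second case `Sm_mem_plus`, with `d` from `wv_sub` for the labels
  `r j₀, ng (r i₀)` and `ng (r j₀), r i₀`. -/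
theorem CK_simple (hn : 2 ≤ n) (ε : ℤ) (J : Fin B → Fin k → Fin (2 * n)) (β : RD n) :
    (fun x : (DD n).RegX => ev ((DD n).rt β) x.1 * CK n k ε J x) ∈ OB (DD n) β := by
  change c3_al β * CK n k ε J ∈ OB (DD n) β
  unfold CK CG
  rw [Finset.mul_sum]
  refine sum_mem fun r _ => c3_term hn β r.1 r.2.1 _ fun a v hv => ?_
  exact ph_mem (OB (DD n) β).toSubring (J a) v hv

/-- **Polynomiality**: `mem_OB_of_inv`, `CK_sr`, `CK_simple`, `CK_clear`, `poly_of_OB`; the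
invariance of the polynomial follows from `CK_sr` and `poly_ext`. -/
theorem CK_poly (hn : 2 ≤ n) (ε : ℤ) (J : Fin B → Fin k → Fin (2 * n)) :
    ∃ p : MvPolynomial (Fin n) ℂ, (∀ x : (DD n).RegX, CK n k ε J x = MvPolynomial.eval x.1 p) ∧
      ∀ β, MvPolynomial.aeval ((DD n).sr β (XP n)) p = p := by
  have A := ax hn
  obtain ⟨p, hp⟩ := poly_of_OB A (f := CK n k ε J) (fun β => mem_OB_of_inv A β
    (fun x => CK_sr hn ε J β x ⟨(DD n).sr β x.1, A.sr_reg x.2 β⟩ rfl) (CK_simple hn ε J β))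
    (CK_clear hn ε J)
  refine ⟨p, hp, fun β => poly_ext A fun x => ?_⟩
  have h1 : MvPolynomial.eval x.1 (MvPolynomial.aeval ((DD n).sr β (XP n)) p) =
      MvPolynomial.eval ((DD n).sr β x.1) p := by
    have h2 : (DD n).sr β x.1 = fun k => MvPolynomial.eval x.1 ((DD n).sr β (XP n) k) := by
      funext k
      simp only [Dat.sr, map_sub, map_mul, MvPolynomial.eval_X, ev_map, map_intCast]
    have h4 : (MvPolynomial.eval x.1).comp (algebraMap ℂ (MvPolynomial (Fin n) ℂ)) =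
        RingHom.id ℂ := by
      ext z
      rw [RingHom.comp_apply, MvPolynomial.algebraMap_eq, MvPolynomial.eval_C]
      rfl
    rw [h2, MvPolynomial.aeval_def, MvPolynomial.eval_eval₂, h4]
    rfl
  rw [h1, ← hp x]
  have h3 := hp ⟨(DD n).sr β x.1, A.sr_reg x.2 β⟩
  rw [← h3]
  exact CK_sr hn ε J β x ⟨(DD n).sr β x.1, A.sr_reg x.2 β⟩ rfl

end Pool.Agent.MTD.TD
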