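import Pool.Agent.MTD.HSlice

/-! # MTD : type `D`, the data

`SO_{2n}` is the isometry group (of determinant one) of the symmetric form
`(e_i, e_{2n-1-i}) = 1`. -/

namespace Pool.Agent.MTD.TD

open Matrix
open Pool.Agent.MP_c45d35_ag (chi UpUni LowUni chi_add chi_zero chi_mul)

/-- The anti-involution: adjoint for the form `(e_i, e_{rev i}) = 1`. -/
def sd {N : ℕ} {R : Type*} (X : Matrix (Fin N) (Fin N) R) : Matrix (Fin N) (Fin N) R :=
  Matrix.of fun i j => X (Fin.rev j) (Fin.rev i)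

/-- The index `i < n` as an index `< 2 n`. -/
def lo {n : ℕ} (i : Fin n) : Fin (2 * n) := ⟨i, by have := i.2; omega⟩

/-- Positive roots: `(i, j, false)` is `ε_i - ε_j`, `(i, j, true)` is `ε_i + ε_j`, `i < j`. -/
abbrev RD (n : ℕ) := {p : Fin n × Fin n // p.1 < p.2} × Bool

/-- Row index of the root vector. -/
def rp {n : ℕ} (β : RD n) : Fin (2 * n) := lo β.1.1.1

/-- Column index of the root vector. -/
def rq {n : ℕ} (β : RD n) : Fin (2 * n) := if β.2 then Fin.rev (lo β.1.1.2) else lo β.1.1.2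

/-- The weight `ε_i` (`i < n`), `-ε_{2n-1-i}` (`i ≥ n`). -/
def wtD {n : ℕ} (i : Fin (2 * n)) : Fin n → ℤ := fun k =>
  (if (i : ℕ) = (k : ℕ) then 1 else 0) - (if ((Fin.rev i : Fin (2 * n)) : ℕ) = (k : ℕ) then 1 else 0)

/-- `E_{pq} - E_{rev q, rev p}`. -/
def FD {N : ℕ} (R : Type*) [CommRing R] (p q : Fin N) : Matrix (Fin N) (Fin N) R :=
  Matrix.of fun i j => (if i = p ∧ j = q then 1 else 0) -
    (if i = Fin.rev q ∧ j = Fin.rev p then 1 else 0)

/-- The equations of `SO_{2n}`. -/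
noncomputable def eqsD (n : ℕ) : Set (MvPolynomial (Fin (2 * n) × Fin (2 * n)) ℂ) :=
  (Set.range fun ij : Fin (2 * n) × Fin (2 * n) =>
    (sd (Matrix.of fun i j => MvPolynomial.X (i, j)) * (Matrix.of fun i j => MvPolynomial.X (i, j)) :
      Matrix (Fin (2 * n)) (Fin (2 * n)) (MvPolynomial (Fin (2 * n) × Fin (2 * n)) ℂ)) ij.1 ij.2 -
      (if ij.1 = ij.2 then 1 else 0)) ∪
  {Matrix.det (Matrix.of fun i j => MvPolynomial.X (i, j)) - 1}

/-- The principal nilpotent `e`. -/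
def eD (n : ℕ) : Matrix (Fin (2 * n)) (Fin (2 * n)) ℂ := Matrix.of fun i j =>
  if ((j : ℕ) = (i : ℕ) + 1 ∧ (j : ℕ) + 1 ≤ n) ∨ ((i : ℕ) + 2 = n ∧ (j : ℕ) = n) then 1
  else if ((j : ℕ) = (i : ℕ) + 1 ∧ n ≤ (i : ℕ)) ∨ ((i : ℕ) + 1 = n ∧ (j : ℕ) = n + 1) then -1
  else 0

/-- The nilpotent `f` of the principal `sl_2`-triple `(e, 2ρ^∨, f)`. -/
noncomputable def fD (n : ℕ) : Matrix (Fin (2 * n)) (Fin (2 * n)) ℂ := Matrix.of fun i j =>
  if (i : ℕ) = (j : ℕ) + 1 ∧ (i : ℕ) + 2 ≤ n then ((i : ℕ) : ℂ) * (2 * n - 1 - (i : ℕ))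
  else if ((i : ℕ) + 1 = n ∨ (i : ℕ) = n) ∧ (j : ℕ) + 2 = n then (n : ℂ) * (n - 1) / 2
  else if (i : ℕ) = n + 1 ∧ ((j : ℕ) + 1 = n ∨ (j : ℕ) = n) then -((n : ℂ) * (n - 1) / 2)
  else if (i : ℕ) = (j : ℕ) + 1 ∧ n + 2 ≤ (i : ℕ) then
    -((2 * n - (i : ℕ) : ℂ) * ((i : ℕ) - 1))
  else 0

/-- The Slodowy slice `e + 𝔤_f` of `so_{2n}`. -/
def sliceD (n : ℕ) : Set (Matrix (Fin (2 * n)) (Fin (2 * n)) ℂ) :=
  {s | sd s = -s ∧ Commute (s - eD n) (fD n)}

/-! ### The anti-involution -/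

section sd
variable {N : ℕ} {R : Type*} [CommRing R]

omit [CommRing R] in
theorem sd_apply (X : Matrix (Fin N) (Fin N) R) (i j : Fin N) :
    sd X i j = X (Fin.rev j) (Fin.rev i) := rfl

omit [CommRing R] in
theorem sd_sd (X : Matrix (Fin N) (Fin N) R) : sd (sd X) = X := by
  ext i j
  simp [sd_apply]

theorem sd_mul (X Y : Matrix (Fin N) (Fin N) R) : sd (X * Y) = sd Y * sd X := by
  ext i j
  rw [sd_apply, Matrix.mul_apply, Matrix.mul_apply, ← Equiv.sum_comp Fin.revPerm]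
  refine Finset.sum_congr rfl fun l _ => ?_
  rw [sd_apply, sd_apply, mul_comm, Fin.revPerm_apply]

theorem sd_one : sd (1 : Matrix (Fin N) (Fin N) R) = 1 := by
  ext i j
  rw [sd_apply, Matrix.one_apply, Matrix.one_apply]
  simp only [Fin.rev_inj, eq_comm]

theorem sd_zero : sd (0 : Matrix (Fin N) (Fin N) R) = 0 := by
  ext i j
  rfl

theorem sd_add (X Y : Matrix (Fin N) (Fin N) R) : sd (X + Y) = sd X + sd Y := by
  ext i j
  rfl

theorem sd_sub (X Y : Matrix (Fin N) (Fin N) R) : sd (X - Y) = sd X - sd Y := by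
  ext i j
  rfl

theorem sd_neg (X : Matrix (Fin N) (Fin N) R) : sd (-X) = - sd X := by
  ext i j
  rfl

theorem sd_smul (c : R) (X : Matrix (Fin N) (Fin N) R) : sd (c • X) = c • sd X := by
  ext i j
  rfl

theorem sd_sum {ι : Type*} (t : Finset ι) (f : ι → Matrix (Fin N) (Fin N) R) :
    sd (∑ i ∈ t, f i) = ∑ i ∈ t, sd (f i) := by
  classical
  induction t using Finset.induction_on with
  | empty => simp [sd_zero]
  | insert a t ha ih => rw [Finset.sum_insert ha, Finset.sum_insert ha, sd_add, ih]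

theorem sd_pow (X : Matrix (Fin N) (Fin N) R) (k : ℕ) : sd (X ^ k) = (sd X) ^ k := by
  induction k with
  | zero => simp [sd_one]
  | succ k ih => rw [pow_succ, sd_mul, ih, ← pow_succ']

omit [CommRing R] in
theorem sd_map {S : Type*} (φ : R → S) (X : Matrix (Fin N) (Fin N) R) :
    sd (X.map φ) = (sd X).map φ := rfl

theorem sd_diagonal (d : Fin N → R) :
    sd (Matrix.diagonal d) = Matrix.diagonal fun i => d (Fin.rev i) := by
  ext i j
  rw [sd_apply]
  by_cases h : i = j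
  · subst h
    rw [Matrix.diagonal_apply_eq, Matrix.diagonal_apply_eq]
  · rw [Matrix.diagonal_apply_ne _ h, Matrix.diagonal_apply_ne]
    intro h'
    exact h (Fin.rev_inj.1 h').symm

theorem sd_det (X : Matrix (Fin N) (Fin N) R) : (sd X).det = X.det := by
  have h : sd X = (X.submatrix Fin.revPerm Fin.revPerm)ᵀ := by
    ext i j
    rfl
  rw [h, Matrix.det_transpose, Matrix.det_submatrix_equiv_self]

theorem sd_FD (p q : Fin N) : sd (FD R p q) = - FD R p q := by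
  ext i j
  rw [sd_apply, Matrix.neg_apply]
  simp only [FD, Matrix.of_apply]
  have e1 : (Fin.rev j = p ∧ Fin.rev i = q) ↔ (i = Fin.rev q ∧ j = Fin.rev p) := by
    constructor
    · rintro ⟨rfl, rfl⟩; simp
    · rintro ⟨rfl, rfl⟩; simp
  have e2 : (Fin.rev j = Fin.rev q ∧ Fin.rev i = Fin.rev p) ↔ (i = p ∧ j = q) := by
    rw [Fin.rev_inj, Fin.rev_inj]
    exact and_comm
  simp only [e1, e2]
  ring

end sd

end Pool.Agent.MTD.TD
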