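import Pool.Agent.MTD.TD3s

/-! # MTD : type `D`, row D8 -/

namespace Pool.Agent.MTD.TD

open Matrix
open Pool.Agent.MP_c45d35_ag (chi UpUni LowUni chi_add chi_zero chi_mul chi_neg)
open Pool.Agent.MP_c45d35_ag.BlockD (Up)

variable {n : ℕ}

/-! ### Row D8 -/

/-- extension by zero -/
noncomputable def d8_V (v : Fin (2 * n) → ℂ) (k : ℕ) : ℂ := if h : k < 2 * n then v ⟨k, h⟩ else 0

theorem d8_V_val (v : Fin (2 * n) → ℂ) (i : Fin (2 * n)) : d8_V v i = v i := by
  unfold d8_V
  rw [dif_pos i.2]

theorem d8_sum (v : Fin (2 * n) → ℂ) (P : Prop) [Decidable P] (k : ℕ) :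
    ∑ j : Fin (2 * n), (if P ∧ (j : ℕ) = k then (1 : ℂ) else 0) * v j =
      if P then d8_V v k else 0 := by
  by_cases hP : P
  · rw [if_pos hP]
    unfold d8_V
    by_cases hk : k < 2 * n
    · rw [dif_pos hk, Finset.sum_eq_single ⟨k, hk⟩]
      · rw [if_pos ⟨hP, rfl⟩, one_mul]
      · intro j _ hj
        rw [if_neg, zero_mul]
        rintro ⟨-, h⟩
        exact hj (Fin.ext h)
      · intro h
        exact absurd (Finset.mem_univ _) h
    · rw [dif_neg hk]
      apply Finset.sum_eq_zero
      intro j _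
      rw [if_neg, zero_mul]
      rintro ⟨-, h⟩
      exact hk (h ▸ j.2)
  · rw [if_neg hP]
    apply Finset.sum_eq_zero
    intro j _
    rw [if_neg, zero_mul]
    rintro ⟨h, -⟩
    exact hP h

theorem d8_row (hn : 2 ≤ n) (v : Fin (2 * n) → ℂ) (i : Fin (2 * n)) :
    (eD n).mulVec v i = (if (i : ℕ) + 2 ≤ n then d8_V v (i + 1) else 0) +
      (if (i : ℕ) + 2 = n then d8_V v n else 0) - (if n ≤ (i : ℕ) then d8_V v (i + 1) else 0) -
      (if (i : ℕ) + 1 = n then d8_V v (n + 1) else 0) := by
  rw [← d8_sum v _ ((i : ℕ) + 1), ← d8_sum v _ n, ← d8_sum v _ ((i : ℕ) + 1),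
    ← d8_sum v _ (n + 1), ← Finset.sum_add_distrib, ← Finset.sum_sub_distrib,
    ← Finset.sum_sub_distrib]
  unfold Matrix.mulVec dotProduct
  apply Finset.sum_congr rfl
  intro j _
  rw [← add_mul, ← sub_mul, ← sub_mul]
  congr 1
  have hi := i.2
  have hj := j.2
  simp only [eD, Matrix.of_apply]
  split_ifs <;> first | (exfalso; omega) | norm_num

/-- the rows of the eigenvalue equation -/
theorem d8_eq (hn : 2 ≤ n) (x : Fin n → ℂ) (z : ℂ) (v : Fin (2 * n) → ℂ)
    (hv : (eD n + Matrix.diagonal fun i => ev (wtD i) x).mulVec v = z • v) (i : Fin (2 * n)) :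
    (if (i : ℕ) + 2 ≤ n then d8_V v (i + 1) else 0) +
      (if (i : ℕ) + 2 = n then d8_V v n else 0) - (if n ≤ (i : ℕ) then d8_V v (i + 1) else 0) -
      (if (i : ℕ) + 1 = n then d8_V v (n + 1) else 0) = (z - ev (wtD i) x) * d8_V v i := by
  have h1 := congrFun hv i
  rw [Matrix.add_mulVec, Pi.add_apply, d8_row hn, Matrix.mulVec_diagonal, Pi.smul_apply,
    smul_eq_mul, ← d8_V_val v i] at h1
  linear_combination h1

/-- An eigenvector of `e + x` with nonzero eigenvalue and vanishing first coordinate vanishes.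
Rows `i ≤ n-3` give `v_1 = ... = v_{n-2} = 0`; row `n-2`: `v_{n-1} + v_n = 0`; rows `n-1`, `n`:
`-v_{n+1} = (z - x_{n-1}) v_{n-1} = (z + x_{n-1}) v_n`, so `2 z v_{n-1} = 0`; then rows
`i ≥ n+1`: `-v_{i+1} = (z - d_i) v_i`. -/
theorem eD_eigen (hn : 2 ≤ n) (x : Fin n → ℂ) (z : ℂ) (hz : z ≠ 0) (v : Fin (2 * n) → ℂ)
    (hv : (eD n + Matrix.diagonal fun i => ev (wtD i) x).mulVec v = z • v)
    (h0 : ∀ i : Fin (2 * n), (i : ℕ) = 0 → v i = 0) : v = 0 := by
  have key : ∀ k : ℕ, k + 2 ≤ n → d8_V v k = 0 := by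
    intro k
    induction k with
    | zero =>
      intro _
      unfold d8_V
      rw [dif_pos (by omega)]
      exact h0 _ rfl
    | succ k ih =>
      intro hk
      have h1 := d8_eq hn x z v hv ⟨k, by omega⟩
      have h2 := ih (by omega)
      simp only at h1
      rw [if_pos (by omega), if_neg (by omega), if_neg (by omega), if_neg (by omega), h2] at h1
      linear_combination h1
  have h1 := d8_eq hn x z v hv ⟨n - 2, by omega⟩
  have h2 := d8_eq hn x z v hv ⟨n - 1, by omega⟩
  have h3 := d8_eq hn x z v hv ⟨n, by omega⟩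
  have h4 : ev (wtD (⟨n, by omega⟩ : Fin (2 * n))) x =
      -ev (wtD (⟨n - 1, by omega⟩ : Fin (2 * n))) x := by
    rw [← ev_wt_rev]
    congr 2
    apply Fin.ext
    rw [Fin.val_rev]
    show n = 2 * n - (n - 1 + 1)
    omega
  have e1 : n - 2 + 1 = n - 1 := by omega
  have e2 : n - 1 + 1 = n := by omega
  simp only at h1 h2 h3
  rw [if_pos (by omega), if_pos (by omega), if_neg (by omega), if_neg (by omega),
    key (n - 2) (by omega), e1] at h1
  rw [if_neg (by omega), if_neg (by omega), if_neg (by omega), if_pos (by omega)] at h2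
  rw [if_neg (by omega), if_neg (by omega), if_pos (by omega), if_neg (by omega), h4] at h3
  have h5 : d8_V v (n - 1) = 0 := by
    have h6 : 2 * z * d8_V v (n - 1) = 0 := by
      linear_combination (z + ev (wtD (⟨n - 1, by omega⟩ : Fin (2 * n))) x) * h1 - h2 + h3
    rcases mul_eq_zero.1 h6 with h7 | h7
    · exact absurd ((mul_eq_zero.1 h7).resolve_left two_ne_zero) hz
    · exact h7
  have h6 : d8_V v n = 0 := by linear_combination h1 - h5
  have h7 : d8_V v (n + 1) = 0 := by
    linear_combination -h2 - (z - ev (wtD (⟨n - 1, by omega⟩ : Fin (2 * n))) x) * h5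
  have key2 : ∀ k : ℕ, d8_V v (n + 1 + k) = 0 := by
    intro k
    induction k with
    | zero => exact h7
    | succ k ih =>
      by_cases hk : n + 1 + k < 2 * n
      · have h8 := d8_eq hn x z v hv ⟨n + 1 + k, hk⟩
        simp only at h8
        rw [if_neg (by omega), if_neg (by omega), if_pos (by omega), if_neg (by omega), ih] at h8
        have e3 : n + 1 + (k + 1) = n + 1 + k + 1 := by omega
        rw [e3]
        linear_combination -h8
      · unfold d8_V
        rw [dif_neg (by omega)]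
  funext i
  rw [← d8_V_val v i, Pi.zero_apply]
  rcases lt_or_ge ((i : ℕ) + 1) n with h8 | h8
  · exact key i (by omega)
  · rcases eq_or_lt_of_le h8 with h9 | h9
    · have e4 : (i : ℕ) = n - 1 := by omega
      rw [e4]
      exact h5
    · rcases eq_or_lt_of_le (show n ≤ (i : ℕ) by omega) with h10 | h10
      · rw [← h10]
        exact h6
      · have e4 : (i : ℕ) = n + 1 + ((i : ℕ) - (n + 1)) := by omega
        rw [e4]
        exact key2 _

/-- if the eigenvectors of `A` for the eigenvalue `z` with vanishing coordinate `i0` vanish, then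
`A` is not conjugate to a diagonal matrix in which `z` is repeated -/
theorem d8_aux {N : ℕ} (A : Matrix (Fin N) (Fin N) ℂ) (i0 : Fin N) (z : ℂ)
    (hA : ∀ v : Fin N → ℂ, A.mulVec v = z • v → v i0 = 0 → v = 0) (p q : Fin N) (hpq : p ≠ q)
    (d : Fin N → ℂ) (hp : d p = z) (hq : d q = z) (a : Matrix (Fin N) (Fin N) ℂ)
    (ha : IsUnit a.det) (h : A * a = a * Matrix.diagonal d) : False := by
  have hcol : ∀ k : Fin N, A.mulVec (fun i => a i k) = d k • (fun i => a i k) := by
    intro k
    funext i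
    have h1 := congrFun (congrFun h i) k
    rw [Matrix.mul_diagonal] at h1
    rw [Pi.smul_apply, smul_eq_mul, mul_comm, ← h1]
    rfl
  set w : Fin N → ℂ := fun i => a i0 q * a i p - a i0 p * a i q with hw
  have hw1 : A.mulVec w = z • w := by
    have e1 : w = a i0 q • (fun i => a i p) - a i0 p • (fun i => a i q) := by
      funext i; simp [hw]
    rw [e1, Matrix.mulVec_sub, Matrix.mulVec_smul, Matrix.mulVec_smul, hcol, hcol, hp, hq]
    funext i
    simp only [Pi.sub_apply, Pi.smul_apply, smul_eq_mul]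
    ring
  have hw0 : w = 0 := by
    apply hA w hw1
    simp only [hw]; ring
  have hinj : ∀ v : Fin N → ℂ, a.mulVec v = 0 → v = 0 := by
    intro v hv
    have := congrArg (fun y => a⁻¹.mulVec y) hv
    simp only [Matrix.mulVec_mulVec, Matrix.nonsing_inv_mul a ha, Matrix.one_mulVec,
      Matrix.mulVec_zero] at this
    exact this
  have h2 : a.mulVec (Pi.single p (a i0 q) - Pi.single q (a i0 p)) = 0 := by
    rw [Matrix.mulVec_sub, Matrix.mulVec_single, Matrix.mulVec_single]
    funext i
    have := congrFun hw0 i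
    simp only [hw, Pi.zero_apply] at this
    simp only [Pi.sub_apply, Pi.smul_apply, Matrix.col_apply, MulOpposite.smul_eq_mul_unop,
      MulOpposite.unop_op, Pi.zero_apply]
    linear_combination this
  have h3 := hinj _ h2
  have hq0 : a i0 q = 0 := by
    have := congrFun h3 p
    simpa [hpq] using this
  have hqv : (fun i => a i q) = 0 := by
    apply hA _ _ hq0
    rw [hcol q, hq]
  have h4 : a.mulVec (Pi.single q 1) = 0 := by
    rw [Matrix.mulVec_single_one]
    exact hqv
  have h5 := congrFun (hinj _ h4) q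
  simp at h5

/-- `e + x` is not conjugate to `x` at the generic points of the walls.  On the wall of
`ε_i ∓ ε_j` one has `x_i = ± x_j =: z`, and `z ≠ 0` (otherwise also the other root `ε_i ± ε_j`
vanishes).  The eigenspace of `x` for the eigenvalue `z` has dimension at least two (indices
`rp β` and `rq β`), that of `e + x` at most one, by `eD_eigen`.  Compare `em_not_diag` in
`HSlice.lean`. -/
theorem nonss' (hn : 2 ≤ n) (β : RD n) (x : Fin n → ℂ) (h : (DD n).GenW β x) :
    ¬ ∃ g : Matrix (Fin (2 * n)) (Fin (2 * n)) ℂ, IsUnit g.det ∧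
      g * (DD n).Dx x = ((DD n).Dx x + (DD n).e) * g := by
  rintro ⟨g, hg, hgx⟩
  obtain ⟨hβ, hγ⟩ := h
  have hev : ∀ γ : RD n, ev ((DD n).rt γ) x = ev (wtD (rp γ)) x - ev (wtD (rq γ)) x := by
    intro γ
    exact ev_sub_left _ _ x
  have hpq : rp β ≠ rq β := by
    intro h1
    have h2 := β.1.2
    have h3 : ((rp β : Fin (2 * n)) : ℕ) = (rq β : Fin (2 * n)) := congrArg _ h1
    have h4 : (β.1.1.1 : ℕ) < (β.1.1.2 : ℕ) := h2
    have h5 := β.1.1.2.2
    unfold rp rq at h3
    split_ifs at h3
    · rw [Fin.val_rev] at h3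
      simp only [lo] at h3
      omega
    · simp only [lo] at h3
      omega
  have hz : ev (wtD (rq β)) x = ev (wtD (rp β)) x := by
    rw [hev] at hβ
    linear_combination -hβ
  have hz0 : ev (wtD (rp β)) x ≠ 0 := by
    intro h0
    have h1 := hγ (β.1, !β.2) (by
      intro h2
      have h3 := congrArg Prod.snd h2
      simp at h3)
    apply h1
    rw [hev]
    have h2 : rp (β.1, !β.2) = rp β := rfl
    have h3 : ev (wtD (rq (β.1, !β.2))) x = - ev (wtD (rq β)) x := by
      rw [← ev_wt_rev]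
      congr 2
      unfold rq
      cases β.2
      · simp
      · simp
    rw [h2, h3, hz, h0]
    ring
  refine d8_aux (eD n + Matrix.diagonal fun i => ev (wtD i) x) ⟨0, by omega⟩
    (ev (wtD (rp β)) x) ?_ (rp β) (rq β) hpq (fun i => ev (wtD i) x) rfl hz g hg ?_
  · intro v hv hv0
    apply eD_eigen hn x _ hz0 v hv
    intro i hi
    have h1 : i = ⟨0, by omega⟩ := Fin.ext hi
    rw [h1]
    exact hv0
  · rw [e_eq hn] at hgx
    rw [add_comm]
    exact hgx.symm

end Pool.Agent.MTD.TD
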