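import Pool.Agent.MTD.TD3s

/-! # MTD : type `D`, row D9 -/

namespace Pool.Agent.MTD.TD

open Matrix
open Pool.Agent.MP_c45d35_ag (chi UpUni LowUni chi_add chi_zero chi_mul chi_neg)
open Pool.Agent.MP_c45d35_ag.BlockD (Up)

variable {n : ℕ}

/-! ### Row D9 -/

/-- Take `z = 1`: every root has a coordinate `1` (`rt_apply`), so it is primitive. -/
theorem zc' (hn : 2 ≤ n) (β : RD n) : ∃ z : Fin n → ℂˣ, (∀ γ, chi ((DD n).rt γ) z = 1) ∧
    ∀ ν : Fin n → ℤ, (∃ a b : ℤ, a ≠ 0 ∧ a • ν = b • (DD n).rt β) → chi ν z = 1 →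
      ∃ k : ℤ, ν = k • (DD n).rt β := by
  refine ⟨1, fun γ => by simp [chi], ?_⟩
  rintro ν ⟨a, b, ha, h⟩ -
  have hc : (DD n).rt β β.1.1.1 = 1 := by
    show (wtD (rp β) - wtD (rq β)) β.1.1.1 = 1
    rw [rt_apply, if_pos rfl, if_neg (ne_of_lt β.1.2), mul_zero, add_zero]
  refine ⟨ν β.1.1.1, ?_⟩
  have h3 := congrFun h β.1.1.1
  simp only [Pi.smul_apply, hc, smul_eq_mul, mul_one] at h3
  funext k
  have h4 := congrFun h k
  simp only [Pi.smul_apply, smul_eq_mul] at h4 ⊢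
  rw [← h3] at h4
  exact mul_left_cancel₀ ha (by rw [h4]; ring)

/-- The coordinates of the reflected point. -/
theorem prod_sr (hn : 2 ≤ n) {R : Type*} [CommRing R] (β : RD n) (x : Fin n → R) :
    ∏ k, (DD n).sr β x k = ∏ k, x k := by
  have hb : β.1.1.1 ≠ β.1.1.2 := ne_of_lt β.1.2
  have hk : ∀ k, (DD n).sr β x k = x k - (x β.1.1.1 + (sg β : R) * x β.1.1.2) *
      ((((if k = β.1.1.1 then 1 else 0) + sg β * (if k = β.1.1.2 then 1 else 0) : ℤ)) : R) := by
    intro k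
    have h1 := ev_rt β x
    have h2 := rt_apply β k
    show x k - ev (wtD (rp β) - wtD (rq β)) x * (((wtD (rp β) - wtD (rq β)) k : ℤ) : R) = _
    rw [h1, h2]
  have hs : (sg β : R) * (sg β : R) = 1 := by
    have := congrArg (Int.cast : ℤ → R) (sg_sq β)
    push_cast at this
    exact this
  have e1 : (DD n).sr β x β.1.1.1 = -((sg β : R) * x β.1.1.2) := by
    rw [hk, if_pos rfl, if_neg hb]
    push_cast
    ring
  have e2 : (DD n).sr β x β.1.1.2 = -((sg β : R) * x β.1.1.1) := by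
    rw [hk, if_neg hb.symm, if_pos rfl]
    push_cast
    linear_combination (-x β.1.1.2) * hs
  have e3 : ∀ k, k ≠ β.1.1.1 → k ≠ β.1.1.2 → (DD n).sr β x k = x k := by
    intro k h1 h2
    rw [hk, if_neg h1, if_neg h2]
    push_cast
    ring
  have hm : β.1.1.2 ∈ (Finset.univ : Finset (Fin n)).erase β.1.1.1 :=
    Finset.mem_erase.2 ⟨hb.symm, Finset.mem_univ _⟩
  rw [← Finset.mul_prod_erase Finset.univ _ (Finset.mem_univ β.1.1.1),
    ← Finset.mul_prod_erase Finset.univ (fun k => x k) (Finset.mem_univ β.1.1.1),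
    ← Finset.mul_prod_erase _ _ hm, ← Finset.mul_prod_erase _ (fun k => x k) hm, e1, e2]
  have e4 : ∏ k ∈ (Finset.univ.erase β.1.1.1).erase β.1.1.2, (DD n).sr β x k =
      ∏ k ∈ (Finset.univ.erase β.1.1.1).erase β.1.1.2, x k := by
    refine Finset.prod_congr rfl fun k hk' => ?_
    have h1 := Finset.mem_erase.1 hk'
    exact e3 k (Finset.mem_erase.1 h1.2).1 h1.1
  rw [e4]
  linear_combination (x β.1.1.2 * x β.1.1.1 *
    ∏ k ∈ (Finset.univ.erase β.1.1.1).erase β.1.1.2, x k) * hs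

/-- `sx_eq0` (compare `TA.sx_refl'`; `Dat.ev_sr`, `sw_wt`, and `Equiv.prod_comp (σD β)`). -/
theorem sx_refl' (hn : 2 ≤ n) (β : RD n) (x : Fin n → ℂ) :
    (sxD n).map (MvPolynomial.eval ((DD n).sr β x)) = (sxD n).map (MvPolynomial.eval x) := by
  refine sx_eq0 hn _ _ ?_ (prod_sr hn β x)
  have h : ∀ i, ev (wtD i) ((DD n).sr β x) = ev (wtD (σD β i)) x := by
    intro i
    rw [Dat.ev_sr, sw_wt]
  simp only [h]
  exact Equiv.prod_comp (σD β)
    fun i => (Polynomial.X - Polynomial.C (ev (wtD i) x))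

end Pool.Agent.MTD.TD
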