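import Pool.Agent.MTD.TD3a
import Pool.Agent.MTD.TD3b
import Pool.Agent.MTD.TD3c

/-! # MTD : type `D`, the axioms -/

namespace Pool.Agent.MTD.TD

open Matrix
open Pool.Agent.MP_c45d35_ag (chi UpUni LowUni chi_add chi_zero chi_mul chi_neg)
open Pool.Agent.MP_c45d35_ag.BlockD (Up)

variable {n : ℕ}

/-! ### The axioms -/

/-- **The axioms in type `D`.** -/
theorem ax (hn : 2 ≤ n) : Ax (DD n) where
  wt_inj := wt_inj
  wt_std k := ⟨lo k, wt_lo k⟩
  rt_indep := fun β γ a b h h' => rt_indep β γ a b h h'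
  lexpos := lexpos
  cr_rt := cr_rt
  cr_sep := cr_sep hn
  refl_rt := refl_rt
  E_supp := E_supp
  E_ne β h := by
    have h1 := congrFun (congrFun h (rp β)) (rq β)
    have h2 := FD_self β
    change FD ℂ (rp β) (rq β) (rp β) (rq β) = 0 at h1
    rw [h2] at h1
    exact one_ne_zero h1
  dep_pos β := by
    have h : (rp β : ℕ) < (rq β : ℕ) := rp_lt_rq β
    show 0 < (rq β : ℕ) - (rp β : ℕ)
    omega
  mul g h hg hh := by
    rw [isG_iff] at *
    refine ⟨?_, by rw [Matrix.det_mul, hg.2, hh.2, one_mul]⟩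
    rw [sd_mul]
    calc sd h * sd g * (g * h) = sd h * (sd g * g) * h := by simp only [Matrix.mul_assoc]
      _ = 1 := by rw [hg.1, Matrix.mul_one, hh.1]
  det g hg := ((isG_iff g).1 hg).2
  inv g hg := by
    rw [isG_iff] at *
    have h1 : g⁻¹ = sd g := inv_eq hg.1
    rw [h1]
    refine ⟨?_, by rw [sd_det, hg.2]⟩
    rw [sd_sd]
    exact mul_sd hg.1
  torus t := (isG_iff _).2 (torus' t)
  exp Z := (isG_iff _).2 ⟨exp' Z, TA.det_upUni (expN_upUni (Y_upper' Z))⟩
  conj g x Z hg hup := conj' g x Z ((isG_iff g).1 hg).1 ((isG_iff g).1 hg).2 hup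
  levi g hg hup := levi' g fun i => up_diag ((isG_iff g).1 hg).1 hup i
  cent := cent' hn
  weyl := weyl' hn
  iwa V hV g hg := by
    obtain ⟨k, b, hk, hkV, hb, hbU, h⟩ := iwasawa V hV g ((isG_iff g).1 hg).1 ((isG_iff g).1 hg).2
    exact ⟨k, b, (isG_iff k).2 hk, hkV, (isG_iff b).2 hb, hbU, h⟩
  px_G := (isG_iff _).2 ⟨px_sd hn, TA.det_lowUni (px_low hn)⟩
  px_conj := by
    have h := px_conj0 hn
    have h2 : ((DD n).Y (fun β => MvPolynomial.C ((DD n).ze β)) + (DD n).Dx MvPolynomial.X :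
        Matrix (Fin (2 * n)) (Fin (2 * n)) (MvPolynomial (Fin n) ℂ)) =
        (eD n).map MvPolynomial.C + Matrix.diagonal fun i => ev (wtD i) MvPolynomial.X := by
      congr 1
      have h3 := (DD n).e_map (R := MvPolynomial (Fin n) ℂ)
      rw [e_eq hn] at h3
      exact h3.symm
    rw [h2]
    exact h
  sx_mem := sx_mem0 hn
  sx_surj := sx_surj0 hn
  sx_refl := sx_refl' hn
  nonss := nonss' hn
  zc := zc' hn

end Pool.Agent.MTD.TD
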