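import Pool.Agent.MTD.TD3s

/-! # MTD : type `D`, row D7 -/

namespace Pool.Agent.MTD.TD

open Matrix
open Pool.Agent.MP_c45d35_ag (chi UpUni LowUni chi_add chi_zero chi_mul chi_neg)
open Pool.Agent.MP_c45d35_ag.BlockD (Up)

variable {n : ℕ}

/-! ### Row D7: centralizers and reflections -/

/-- A diagonal isometry is in the torus. -/
theorem diag_case (g : Matrix (Fin (2 * n)) (Fin (2 * n)) ℂ)
    (hoff : ∀ i j, i ≠ j → g i j = 0) (h : ∀ i, g (Fin.rev i) (Fin.rev i) * g i i = 1) :
    ∃ t : Fin n → ℂˣ, g = (DD n).Tt t := by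
  obtain ⟨t, ht⟩ := levi' g h
  refine ⟨t, ?_⟩
  ext i j
  show g i j = Matrix.diagonal (fun i => ((chi (wtD i) t : ℂˣ) : ℂ)) i j
  by_cases hij : i = j
  · subst hij
    rw [Matrix.diagonal_apply_eq, ht]
  · rw [Matrix.diagonal_apply_ne _ hij, hoff i j hij]

/-- distinct coordinates of a regular element that are not opposite are different -/
theorem reg_ne {x : Fin n → ℂ} (hx : (DD n).Reg x) (p q : Fin (2 * n)) (h1 : p ≠ q)
    (h2 : p ≠ Fin.rev q) : ev (wtD p) x ≠ ev (wtD q) x := by
  intro h
  obtain ⟨γ, hγ⟩ := exists_rt p q h1 h2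
  have h3 : ev (wtD (rp γ) - wtD (rq γ)) x ≠ 0 := hx γ
  have h4 : ev (wtD p - wtD q) x = 0 := by rw [ev_sub_left, h, sub_self]
  rcases hγ with hγ | hγ
  · rw [hγ] at h4
    exact h3 h4
  · rw [hγ, ev_neg_left, neg_eq_zero] at h4
    exact h3 h4

/-- the diagonal products of an isometry which is diagonal except for the antidiagonal -/
theorem form_entry (g : Matrix (Fin (2 * n)) (Fin (2 * n)) ℂ) (hg : sd g * g = 1)
    (hoff : ∀ i j, i ≠ j → i ≠ Fin.rev j → g i j = 0) (i j : Fin (2 * n)) :
    g (Fin.rev j) (Fin.rev i) * g j j + g j (Fin.rev i) * g (Fin.rev j) j =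
      if i = j then 1 else 0 := by
  have h := congrFun (congrFun hg i) j
  rw [Matrix.mul_apply, Matrix.one_apply] at h
  rw [← h]
  have hne : j ≠ Fin.rev j := (rev_ne j).symm
  rw [← Finset.sum_subset (Finset.subset_univ {j, Fin.rev j}), Finset.sum_pair hne]
  · rw [sd_apply, sd_apply, Fin.rev_rev]
  · intro l _ hl
    have h1 : l ≠ j := fun h => hl (by rw [h]; exact Finset.mem_insert_self _ _)
    have h2 : l ≠ Fin.rev j := fun h => hl (by
      rw [h]
      exact Finset.mem_insert_of_mem (Finset.mem_singleton_self _))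
    rw [hoff l j h1 h2, mul_zero]

/-- Elements of `SO_{2n}` commuting with a regular diagonal element are in the torus.
`g i j = 0` if `ev (wtD i) x ≠ ev (wtD j) x`.  As `x_i ≠ ± x_j` for `i ≠ j`, the only possible
coincidences are `j = rev i` with `x_i = 0`, for at most one `i < n`.  Then `g` is diagonal except
for a `2 × 2` block at the rows and columns `i, rev i`, which preserves the form
`[[0,1],[1,0]]`, so it is diagonal or antidiagonal, and it is diagonal since `det g = 1` (the other
diagonal entries come in pairs `g_jj * g_{rev j, rev j} = 1`, and an antidiagonal block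
`[[0,a],[a⁻¹,0]]` has determinant `-1`). Use `levi'`. -/
theorem cent' (hn : 2 ≤ n) (g : Matrix (Fin (2 * n)) (Fin (2 * n)) ℂ) (x : Fin n → ℂ)
    (hg : (DD n).IsG g) (hx : (DD n).Reg x) (hc : Commute g ((DD n).Dx x)) :
    ∃ t : Fin n → ℂˣ, g = (DD n).Tt t := by
  obtain ⟨hg1, hg2⟩ := (isG_iff g).1 hg
  have hz : ∀ i j, ev (wtD i) x ≠ ev (wtD j) x → g i j = 0 := by
    intro i j hij
    have h1 := congrFun (congrFun hc.eq i) j
    have h2 : g i j * ev (wtD j) x = ev (wtD i) x * g i j := by
      have e1 : (g * (DD n).Dx x) i j = g i j * ev (wtD j) x := by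
        show (g * Matrix.diagonal fun i => ev (wtD i) x) i j = _
        rw [Matrix.mul_diagonal]
      have e2 : ((DD n).Dx x * g) i j = ev (wtD i) x * g i j := by
        show ((Matrix.diagonal fun i => ev (wtD i) x) * g) i j = _
        rw [Matrix.diagonal_mul]
      rw [← e1, ← e2, h1]
    have h3 : (ev (wtD i) x - ev (wtD j) x) * g i j = 0 := by linear_combination -h2
    exact (mul_eq_zero.1 h3).resolve_left (sub_ne_zero.2 hij)
  have hoff : ∀ i j, i ≠ j → i ≠ Fin.rev j → g i j = 0 := fun i j h1 h2 =>
    hz i j (reg_ne hx i j h1 h2)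
  have hform := form_entry g hg1 hoff
  by_cases hall : ∀ i, g i (Fin.rev i) = 0
  · have hoff' : ∀ i j, i ≠ j → g i j = 0 := by
      intro i j hij
      by_cases h : i = Fin.rev j
      · have := hall i
        rw [h, Fin.rev_rev] at this
        rw [h]
        exact this
      · exact hoff i j hij h
    refine diag_case g hoff' fun i => ?_
    have h := hform i i
    rw [hall i, zero_mul, add_zero, if_pos rfl] at h
    exact h
  · exfalso
    push Not at hall
    obtain ⟨p, hp⟩ := hall
    have hrp := rev_ne p
    -- `x` vanishes at `p`, and only at `p`, `rev p`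
    have hxp : ev (wtD p) x = ev (wtD (Fin.rev p)) x := by
      by_contra h
      exact hp (hz _ _ h)
    have hxp0 : ev (wtD p) x = 0 := by
      rw [ev_wt_rev] at hxp
      have h2 : (2 : ℂ) * ev (wtD p) x = 0 := by linear_combination hxp
      exact (mul_eq_zero.1 h2).resolve_left two_ne_zero
    have hother : ∀ i, i ≠ p → i ≠ Fin.rev p → g i (Fin.rev i) = 0 := by
      intro i h1 h2
      apply hz
      intro h
      rw [ev_wt_rev] at h
      have h3 : (2 : ℂ) * ev (wtD i) x = 0 := by linear_combination h
      have h4 := (mul_eq_zero.1 h3).resolve_left two_ne_zero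
      exact reg_ne hx i p h1 h2 (h4.trans hxp0.symm)
    -- the block is antidiagonal
    have hq : g (Fin.rev p) (Fin.rev p) = 0 := by
      have h := hform p (Fin.rev p)
      rw [Fin.rev_rev, if_neg hrp.symm] at h
      have h2 : (2 : ℂ) * (g p (Fin.rev p) * g (Fin.rev p) (Fin.rev p)) = 0 := by
        linear_combination h
      exact (mul_eq_zero.1 ((mul_eq_zero.1 h2).resolve_left two_ne_zero)).resolve_left hp
    have hpq : g p (Fin.rev p) * g (Fin.rev p) p = 1 := by
      have h := hform p p
      rw [hq, zero_mul, zero_add, if_pos rfl] at h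
      exact h
    have hqp : g (Fin.rev p) p ≠ 0 := fun h => by
      rw [h, mul_zero] at hpq
      exact zero_ne_one hpq
    have hpp : g p p = 0 := by
      have h := hform (Fin.rev p) p
      rw [Fin.rev_rev, if_neg hrp] at h
      have h2 : (2 : ℂ) * (g (Fin.rev p) p * g p p) = 0 := by
        linear_combination h
      exact (mul_eq_zero.1 ((mul_eq_zero.1 h2).resolve_left two_ne_zero)).resolve_left hqp
    -- swap the two rows
    have hdet : (g.submatrix (Equiv.swap p (Fin.rev p)) id).det = -1 := by
      rw [Matrix.det_permute, Equiv.Perm.sign_swap hrp.symm, hg2]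
      simp
    obtain ⟨t, ht⟩ := diag_case (g.submatrix (Equiv.swap p (Fin.rev p)) id) (by
      intro i j hij
      show g (Equiv.swap p (Fin.rev p) i) j = 0
      by_cases h1 : i = p
      · subst h1
        rw [Equiv.swap_apply_left]
        by_cases h2 : j = Fin.rev i
        · rw [h2]; exact hq
        · refine hoff _ _ (fun h => h2 h.symm) (fun h => hij (Fin.rev_inj.1 h))
      · by_cases h2 : i = Fin.rev p
        · subst h2
          rw [Equiv.swap_apply_right]
          by_cases h3 : j = p
          · rw [h3]; exact hpp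
          · refine hoff _ _ (fun h => h3 h.symm) (fun h => hij ?_)
            rw [h, Fin.rev_rev]
        · rw [Equiv.swap_apply_of_ne_of_ne h1 h2]
          by_cases h3 : i = Fin.rev j
          · have h4 := hother i h1 h2
            rw [h3, Fin.rev_rev] at h4
            rw [h3]
            exact h4
          · exact hoff _ _ hij h3) (by
      intro i
      show g (Equiv.swap p (Fin.rev p) (Fin.rev i)) (Fin.rev i) *
        g (Equiv.swap p (Fin.rev p) i) i = 1
      by_cases h1 : i = p
      · subst h1
        rw [Equiv.swap_apply_left, Equiv.swap_apply_right]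
        exact hpq
      · by_cases h2 : i = Fin.rev p
        · subst h2
          rw [Fin.rev_rev, Equiv.swap_apply_left, Equiv.swap_apply_right, mul_comm]
          exact hpq
        · rw [Equiv.swap_apply_of_ne_of_ne h1 h2, Equiv.swap_apply_of_ne_of_ne
            (fun h => h2 (by rw [← h, Fin.rev_rev])) (fun h => h1 (Fin.rev_inj.1 h))]
          have h := hform i i
          rw [hother i h1 h2, zero_mul, add_zero, if_pos rfl] at h
          exact h)
    rw [ht, (torus' t).2] at hdet
    norm_num at hdet

/-- The reflections are represented by the permutation matrices of `σD β` (a product of two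
disjoint transpositions; it commutes with `Fin.rev`, `σD_rev`; the form has all signs `+`, so the
permutation matrix is an isometry, of determinant one). -/
theorem weyl' (hn : 2 ≤ n) (β : RD n) :
    ∃ (w : Matrix (Fin (2 * n)) (Fin (2 * n)) ℂ) (π : Equiv.Perm (Fin (2 * n))), (DD n).IsG w ∧
    (∀ d : Fin (2 * n) → ℂ, w * Matrix.diagonal d = Matrix.diagonal (fun i => d (π.symm i)) * w) ∧
    ∀ i, (DD n).wt (π.symm i) = (DD n).sw β ((DD n).wt i) := by
  have hw : ∀ i j, (σD β).permMatrix ℂ i j = if σD β i = j then 1 else 0 := by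
    intro i j
    simp [Equiv.Perm.permMatrix, PEquiv.toMatrix_apply, eq_comm]
  refine ⟨(σD β).permMatrix ℂ, (σD β).symm, ?_, ?_, ?_⟩
  · rw [isG_iff]
    constructor
    · ext i j
      rw [Matrix.mul_apply, Matrix.one_apply]
      have h1 : ∀ l, sd ((σD β).permMatrix ℂ) i l * (σD β).permMatrix ℂ l j =
          if l = (σD β).symm i then (if i = j then 1 else 0) else 0 := by
        intro l
        rw [sd_apply, hw, hw, σD_rev]
        simp only [Fin.rev_inj]
        by_cases h : σD β l = i
        · have hl : l = (σD β).symm i := by rw [← h, Equiv.symm_apply_apply]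
          rw [if_pos h, h, if_pos hl, one_mul]
        · have hl : ¬ l = (σD β).symm i := fun h' => h (by rw [h', Equiv.apply_symm_apply])
          rw [if_neg h, if_neg hl, zero_mul]
      rw [Finset.sum_congr rfl fun l _ => h1 l, Finset.sum_ite_eq' Finset.univ,
        if_pos (Finset.mem_univ _)]
    · rw [Matrix.det_permutation]
      unfold σD
      rw [Equiv.Perm.sign_mul, Equiv.Perm.sign_swap (rp_ne_rq β),
        Equiv.Perm.sign_swap (fun h => rp_ne_rq β (Fin.rev_inj.1 h))]
      simp
  · intro d
    ext i j
    rw [Matrix.mul_diagonal, Matrix.diagonal_mul, hw]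
    by_cases h : σD β i = j
    · rw [if_pos h, one_mul, mul_one, Equiv.symm_symm, h]
    · rw [if_neg h, zero_mul, mul_zero]
  · intro i
    rw [Equiv.symm_symm]
    exact (sw_wt β i).symm

end Pool.Agent.MTD.TD
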