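import Pool.Agent.MTD.TD2
import Pool.Agent.MTD.TA3

/-! # MTD : type `D`, the chosen slice -/

namespace Pool.Agent.MTD.TD

open Matrix
open Pool.Agent.MP_c45d35_ag (chi UpUni LowUni chi_add chi_zero chi_mul chi_neg)
open Pool.Agent.MP_c45d35_ag.BlockD (Up)

variable {n : ℕ}

/-! ### The properties of the slice, for the chosen `sxD`, `pxD` -/

theorem px_low (hn : 2 ≤ n) : LowUni (pxD n) := by
  unfold pxD
  rw [dif_pos hn]
  exact (exists_slice_param n hn).choose_spec.choose_spec.1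

theorem px_sd (hn : 2 ≤ n) : sd (pxD n) * pxD n = 1 := by
  unfold pxD
  rw [dif_pos hn]
  exact (exists_slice_param n hn).choose_spec.choose_spec.2.1

theorem px_conj0 (hn : 2 ≤ n) : pxD n *
    ((eD n).map MvPolynomial.C + Matrix.diagonal fun i => ev (wtD i) MvPolynomial.X) =
      sxD n * pxD n := by
  unfold pxD sxD
  rw [dif_pos hn, dif_pos hn]
  exact (exists_slice_param n hn).choose_spec.choose_spec.2.2.1

theorem sx_mem0 (hn : 2 ≤ n) (x : Fin n → ℂ) : (sxD n).map (MvPolynomial.eval x) ∈ sliceD n := by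
  unfold sxD
  rw [dif_pos hn]
  exact (exists_slice_param n hn).choose_spec.choose_spec.2.2.2.1 x

theorem sx_surj0 (hn : 2 ≤ n) (s : Matrix (Fin (2 * n)) (Fin (2 * n)) ℂ) (hs : s ∈ sliceD n) :
    ∃ x : Fin n → ℂ, s = (sxD n).map (MvPolynomial.eval x) := by
  unfold sxD
  rw [dif_pos hn]
  exact (exists_slice_param n hn).choose_spec.choose_spec.2.2.2.2.1 s hs

theorem sx_eq0 (hn : 2 ≤ n) (x x' : Fin n → ℂ)
    (h : (∏ i : Fin (2 * n), (Polynomial.X - Polynomial.C (ev (wtD i) x)) : Polynomial ℂ) =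
      ∏ i : Fin (2 * n), (Polynomial.X - Polynomial.C (ev (wtD i) x')))
    (h' : ∏ k, x k = ∏ k, x' k) :
    (sxD n).map (MvPolynomial.eval x) = (sxD n).map (MvPolynomial.eval x') := by
  unfold sxD
  rw [dif_pos hn]
  exact (exists_slice_param n hn).choose_spec.choose_spec.2.2.2.2.2.1 x x' h h'

theorem prod_X (hn : 2 ≤ n) : (∏ k, MvPolynomial.X k : MvPolynomial (Fin n) ℂ) = (-1) ^ (n - 1) *
    (sxD n ⟨2 * n - 1, by omega⟩ ⟨n - 1, by omega⟩ - sxD n ⟨2 * n - 1, by omega⟩ ⟨n, by omega⟩) := by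
  have h := (exists_slice_param n hn).choose_spec.choose_spec.2.2.2.2.2.2
  unfold sxD
  simp only [dif_pos hn]
  exact h

/-- the principal nilpotent -/
theorem e_eq (hn : 2 ≤ n) : (DD n).e = eD n := by
  ext i j
  unfold Dat.e
  rcases lt_or_ge i j with h | h
  · by_cases h' : j = Fin.rev i
    · have h1 := congrFun (congrFun (sd_Y (DD n).ze) i) j
      rw [sd_apply, Matrix.neg_apply] at h1
      rw [h', Fin.rev_rev] at h1
      have h2 : (DD n).Y (DD n).ze i j = 0 := by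
        rw [h']
        have h3 : (2 : ℂ) * (DD n).Y (DD n).ze i (Fin.rev i) = 0 := by linear_combination h1
        exact (mul_eq_zero.1 h3).resolve_left two_ne_zero
      rw [h2]
      have hij : (i : ℕ) < (j : ℕ) := h
      have hj : (j : ℕ) = 2 * n - ((i : ℕ) + 1) := by rw [h', Fin.val_rev]
      show (0 : ℂ) = if ((j : ℕ) = (i : ℕ) + 1 ∧ (j : ℕ) + 1 ≤ n) ∨ ((i : ℕ) + 2 = n ∧ (j : ℕ) = n) then 1
        else if ((j : ℕ) = (i : ℕ) + 1 ∧ n ≤ (i : ℕ)) ∨ ((i : ℕ) + 1 = n ∧ (j : ℕ) = n + 1) then -1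
        else 0
      rw [if_neg (by omega), if_neg (by omega)]
    · obtain ⟨β, ⟨hi, hj⟩ | ⟨hi, hj⟩⟩ := exists_pos i j h h'
      · rw [hi, hj, Y_at]
        have hb : (β.1.1.1 : ℕ) < (β.1.1.2 : ℕ) := β.1.2
        have hb2 := β.1.1.2.2
        have e1 : ((rp β : Fin (2 * n)) : ℕ) = (β.1.1.1 : ℕ) := rfl
        have e2 : ((rq β : Fin (2 * n)) : ℕ) = (β.1.1.2 : ℕ) ∨
            ((rq β : Fin (2 * n)) : ℕ) = 2 * n - ((β.1.1.2 : ℕ) + 1) := by
          unfold rq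
          split_ifs
          · right
            rw [Fin.val_rev]
            rfl
          · left
            rfl
        show (if (rq β : ℕ) = (rp β : ℕ) + 1 ∨ ((rp β : ℕ) + 2 = n ∧ (rq β : ℕ) = n) then (1 : ℂ) else 0) =
          if ((rq β : ℕ) = (rp β : ℕ) + 1 ∧ (rq β : ℕ) + 1 ≤ n) ∨ ((rp β : ℕ) + 2 = n ∧ (rq β : ℕ) = n) then 1
          else if ((rq β : ℕ) = (rp β : ℕ) + 1 ∧ n ≤ (rp β : ℕ)) ∨ ((rp β : ℕ) + 1 = n ∧ (rq β : ℕ) = n + 1) then -1
          else 0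
        by_cases c : (rq β : ℕ) = (rp β : ℕ) + 1 ∨ ((rp β : ℕ) + 2 = n ∧ (rq β : ℕ) = n)
        · rw [if_pos c, if_pos (by omega)]
        · rw [if_neg c, if_neg (by omega), if_neg (by omega)]
      · rw [hi, hj, Y_at']
        have hb : (β.1.1.1 : ℕ) < (β.1.1.2 : ℕ) := β.1.2
        have hb2 := β.1.1.2.2
        have e1 : ((rp β : Fin (2 * n)) : ℕ) = (β.1.1.1 : ℕ) := rfl
        have e2 : ((rq β : Fin (2 * n)) : ℕ) = (β.1.1.2 : ℕ) ∨
            ((rq β : Fin (2 * n)) : ℕ) = 2 * n - ((β.1.1.2 : ℕ) + 1) := by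
          unfold rq
          split_ifs
          · right
            rw [Fin.val_rev]
            rfl
          · left
            rfl
        have e3 : ((Fin.rev (rq β) : Fin (2 * n)) : ℕ) = 2 * n - ((rq β : ℕ) + 1) := Fin.val_rev _
        have e4 : ((Fin.rev (rp β) : Fin (2 * n)) : ℕ) = 2 * n - ((rp β : ℕ) + 1) := Fin.val_rev _
        show -(if (rq β : ℕ) = (rp β : ℕ) + 1 ∨ ((rp β : ℕ) + 2 = n ∧ (rq β : ℕ) = n) then (1 : ℂ) else 0) =
          if ((Fin.rev (rp β) : ℕ) = (Fin.rev (rq β) : ℕ) + 1 ∧ (Fin.rev (rp β) : ℕ) + 1 ≤ n) ∨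
            ((Fin.rev (rq β) : ℕ) + 2 = n ∧ (Fin.rev (rp β) : ℕ) = n) then 1
          else if ((Fin.rev (rp β) : ℕ) = (Fin.rev (rq β) : ℕ) + 1 ∧ n ≤ (Fin.rev (rq β) : ℕ)) ∨
            ((Fin.rev (rq β) : ℕ) + 1 = n ∧ (Fin.rev (rp β) : ℕ) = n + 1) then -1
          else 0
        by_cases c : (rq β : ℕ) = (rp β : ℕ) + 1 ∨ ((rp β : ℕ) + 2 = n ∧ (rq β : ℕ) = n)
        · rw [if_pos c, if_neg (by omega), if_pos (by omega)]
        · rw [if_neg c, if_neg (by omega), if_neg (by omega), neg_zero]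
  · have h' : (j : ℕ) ≤ (i : ℕ) := h
    rw [Y_upper' _ i j (by omega)]
    show (0 : ℂ) = if ((j : ℕ) = (i : ℕ) + 1 ∧ (j : ℕ) + 1 ≤ n) ∨ ((i : ℕ) + 2 = n ∧ (j : ℕ) = n) then 1
      else if ((j : ℕ) = (i : ℕ) + 1 ∧ n ≤ (i : ℕ)) ∨ ((i : ℕ) + 1 = n ∧ (j : ℕ) = n + 1) then -1
      else 0
    rw [if_neg (by omega), if_neg (by omega)]

end Pool.Agent.MTD.TD
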