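import Pool.Agent.MTD.TD1
import Pool.Agent.MP_c45d35_ag.Slice

/-! # MTD : type `D`, block coordinates (definitions)

`ℂ^{2n} = W₁ ⊕ ℂ u_*` with `dim W₁ = 2n-1`; the basis of `W₁` is
`u'_j = e_j` (`j ≤ n-2`), `u'_{n-1} = (e_{n-1} + e_n)/2`, `u'_j = ((-1)^{j+1-n}/2) e_{j+1}`
(`j ≥ n`), and `u_* = e_{n-1} - e_n`.  In this basis `e` is `em ⊕ 0`, `f` is `fm ⊕ 0`, and the form
is `((-1)^{n-1}/2) Jm ⊕ (-2)`. -/

namespace Pool.Agent.MTD.TD

open Matrix
open Pool.Agent.MP_c45d35_ag (chi UpUni LowUni IsHess IsLie st Jm fm)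
open Pool.Agent.MP_c45d35_ag.SL (Sl)


/-- Index set of the block coordinates. -/
abbrev IB (n : ℕ) := Fin (2 * n - 1) ⊕ Unit

section
variable {n : ℕ} {R : Type*} [CommRing R] [Algebra ℂ R]

/-- The block matrix `[[A, b], [c, d]]`. -/
def bk (A : Matrix (Fin (2 * n - 1)) (Fin (2 * n - 1)) R) (b c : Fin (2 * n - 1) → R) (d : R) :
    Matrix (IB n) (IB n) R :=
  Matrix.fromBlocks A (Matrix.of fun i _ => b i) (Matrix.of fun _ j => c j) (Matrix.of fun _ _ => d)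

/-- The block matrix `[[M, c e_last], [((-1)^{n-1}/4) c ε_0, 0]]`. -/
noncomputable def Blk (M : Matrix (Fin (2 * n - 1)) (Fin (2 * n - 1)) R) (c : R) :
    Matrix (IB n) (IB n) R :=
  bk M (fun i => if (i : ℕ) + 2 = 2 * n then c else 0)
    (fun j => if (j : ℕ) = 0 then algebraMap ℂ R ((-1) ^ (n - 1) / 4) * c else 0) 0

/-- The covector `(w, ·)` of a vector `w ∈ W₁`. -/
noncomputable def fl (w : Fin (2 * n - 1) → R) : Fin (2 * n - 1) → R := fun j =>
  algebraMap ℂ R ((-1) ^ (n - 1 + (j : ℕ)) / 2) * w (Fin.rev j)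

variable (n) in
/-- The basis `u'_j`, `u_*` in terms of the `e_i`. -/
noncomputable def Bs : Matrix (Fin (2 * n)) (IB n) ℂ := Matrix.of fun i => Sum.elim
  (fun j => if (j : ℕ) + 1 < n then (if (i : ℕ) = (j : ℕ) then 1 else 0)
    else if (j : ℕ) + 1 = n then (if (i : ℕ) + 1 = n ∨ (i : ℕ) = n then 1 / 2 else 0)
    else if (i : ℕ) = (j : ℕ) + 1 then (-1) ^ ((j : ℕ) + 1 - n) / 2 else 0)
  (fun _ => if (i : ℕ) + 1 = n then 1 else if (i : ℕ) = n then -1 else 0)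

variable (n) in
/-- The inverse of `Bs`. -/
noncomputable def Bi : Matrix (IB n) (Fin (2 * n)) ℂ := Matrix.of fun p i => Sum.elim
  (fun j : Fin (2 * n - 1) => if (j : ℕ) + 1 < n then (if (i : ℕ) = (j : ℕ) then 1 else 0)
    else if (j : ℕ) + 1 = n then (if (i : ℕ) + 1 = n ∨ (i : ℕ) = n then 1 else 0)
    else if (i : ℕ) = (j : ℕ) + 1 then 2 * (-1) ^ ((j : ℕ) + 1 - n) else 0)
  (fun _ => if (i : ℕ) + 1 = n then (1 / 2 : ℂ) else if (i : ℕ) = n then -(1 / 2) else 0) p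

/-- Change of basis from block coordinates. -/
noncomputable def cB (Y : Matrix (IB n) (IB n) R) : Matrix (Fin (2 * n)) (Fin (2 * n)) R :=
  (Bs n).map (algebraMap ℂ R) * Y * (Bi n).map (algebraMap ℂ R)

/-- The diagonal part of `x` on `W₁`. -/
def dx (x : Fin n → R) (i : Fin (2 * n - 1)) : R :=
  if h : (i : ℕ) + 1 < n then x ⟨i, by omega⟩
  else if h' : (i : ℕ) + 1 = n then 0
  else - x ⟨2 * n - 2 - i, by have := i.2; omega⟩

/-- The unipotent `n(w)`. -/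
noncomputable def nW (w : Fin (2 * n - 1) → R) : Matrix (IB n) (IB n) R :=
  bk (1 + Matrix.of fun i j => algebraMap ℂ R (1 / 4) * (w i * fl w j)) w
    (fun j => algebraMap ℂ R (1 / 2) * fl w j) 1

/-- The vector `w` killing the coupling. -/
def wx (x : Fin n → R) (j : Fin (2 * n - 1)) : R :=
  if n ≤ (j : ℕ) then 2 * ∏ l ∈ Finset.univ.filter (fun l : Fin n => 2 * n - 1 ≤ (j : ℕ) + (l : ℕ)), x l
  else 0

end

end Pool.Agent.MTD.TD
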