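import Pool.Agent.MTD.TDB0

/-! # MTD : type `D`, block coordinates, basic facts (row D-S1) -/

namespace Pool.Agent.MTD.TD

open Matrix
open Pool.Agent.MP_c45d35_ag (chi UpUni LowUni IsHess IsLie st Jm fm)
open Pool.Agent.MP_c45d35_ag.SL (Sl)

section
variable {n : ℕ} {R : Type*} [CommRing R] [Algebra ℂ R]

/-! ### entries of the change of basis -/

/-- the column of the row `i` of `Bs` in `W₁` -/
def s1pj (i : Fin (2 * n)) : Fin (2 * n - 1) :=
  ⟨if (i : ℕ) < n then (i : ℕ) else (i : ℕ) - 1, by have := i.2; split_ifs <;> omega⟩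

noncomputable def s1al (i : Fin (2 * n)) : ℂ :=
  if (i : ℕ) + 1 < n then 1 else if (i : ℕ) ≤ n then 1 / 2 else (-1) ^ ((i : ℕ) - n) / 2

noncomputable def s1be (i : Fin (2 * n)) : ℂ :=
  if (i : ℕ) + 1 = n then 1 else if (i : ℕ) = n then -1 else 0

noncomputable def s1al' (i : Fin (2 * n)) : ℂ :=
  if (i : ℕ) ≤ n then 1 else 2 * (-1) ^ ((i : ℕ) - n)

noncomputable def s1be' (i : Fin (2 * n)) : ℂ :=
  if (i : ℕ) + 1 = n then 1 / 2 else if (i : ℕ) = n then -(1 / 2) else 0

theorem s1_Bs_inl (hn : 1 ≤ n) (i : Fin (2 * n)) (j : Fin (2 * n - 1)) :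
    Bs n i (Sum.inl j) = if j = s1pj i then s1al i else 0 := by
  have hi := i.2
  have hj := j.2
  simp only [Bs, s1pj, s1al, Matrix.of_apply, Sum.elim_inl, Fin.ext_iff]
  rcases lt_trichotomy ((i : ℕ) + 1) n with h | h | h
  · have e1 : (i : ℕ) < n := by omega
    simp only [h, e1, if_true]
    by_cases h2 : (j : ℕ) = (i : ℕ)
    · rw [if_pos (by omega), if_pos h2.symm, if_pos h2]
    · rw [if_neg h2]
      split_ifs <;> first | rfl | omega
  · have e1 : (i : ℕ) < n := by omega
    have e2 : ¬ (i : ℕ) + 1 < n := by omega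
    have e3 : (i : ℕ) ≤ n := by omega
    simp only [e1, e2, e3, if_true, if_false]
    by_cases h2 : (j : ℕ) = (i : ℕ)
    · rw [if_neg (by omega), if_pos (by omega), if_pos (by omega), if_pos h2]
    · rw [if_neg h2]
      split_ifs <;> first | rfl | omega
  · have e1 : ¬ (i : ℕ) < n := by omega
    have e2 : ¬ (i : ℕ) + 1 < n := by omega
    simp only [e1, e2, if_false]
    by_cases h2 : (j : ℕ) = (i : ℕ) - 1
    · rw [if_pos h2]
      by_cases h3 : (i : ℕ) ≤ n
      · rw [if_neg (by omega), if_pos (by omega), if_pos (by omega), if_pos h3]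
      · rw [if_neg (by omega), if_neg (by omega), if_pos (by omega), if_neg h3]
        have e4 : (j : ℕ) + 1 - n = (i : ℕ) - n := by omega
        rw [e4]
    · rw [if_neg h2]
      split_ifs <;> first | rfl | omega

theorem s1_Bs_inr (i : Fin (2 * n)) (u : Unit) : Bs n i (Sum.inr u) = s1be i := rfl

theorem s1_Bi_inl (hn : 1 ≤ n) (i : Fin (2 * n)) (j : Fin (2 * n - 1)) :
    Bi n (Sum.inl j) i = if j = s1pj i then s1al' i else 0 := by
  have hi := i.2
  have hj := j.2
  simp only [Bi, s1pj, s1al', Matrix.of_apply, Sum.elim_inl, Fin.ext_iff]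
  rcases lt_trichotomy ((i : ℕ) + 1) n with h | h | h
  · have e1 : (i : ℕ) < n := by omega
    have e3 : (i : ℕ) ≤ n := by omega
    simp only [e1, e3, if_true]
    by_cases h2 : (j : ℕ) = (i : ℕ)
    · rw [if_pos (by omega), if_pos h2.symm, if_pos h2]
    · rw [if_neg h2]
      split_ifs <;> first | rfl | omega
  · have e1 : (i : ℕ) < n := by omega
    have e3 : (i : ℕ) ≤ n := by omega
    simp only [e1, e3, if_true]
    by_cases h2 : (j : ℕ) = (i : ℕ)
    · rw [if_neg (by omega), if_pos (by omega), if_pos (by omega), if_pos h2]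
    · rw [if_neg h2]
      split_ifs <;> first | rfl | omega
  · have e1 : ¬ (i : ℕ) < n := by omega
    simp only [e1, if_false]
    by_cases h2 : (j : ℕ) = (i : ℕ) - 1
    · rw [if_pos h2]
      by_cases h3 : (i : ℕ) ≤ n
      · rw [if_neg (by omega), if_pos (by omega), if_pos (by omega), if_pos h3]
      · rw [if_neg (by omega), if_neg (by omega), if_pos (by omega), if_neg h3]
        have e4 : (j : ℕ) + 1 - n = (i : ℕ) - n := by omega
        rw [e4]
    · rw [if_neg h2]
      split_ifs <;> first | rfl | omega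

theorem s1_Bi_inr (i : Fin (2 * n)) (u : Unit) : Bi n (Sum.inr u) i = s1be' i := rfl

/-- the entries of `cB Y` -/
theorem s1_cB_apply (hn : 1 ≤ n) (Y : Matrix (IB n) (IB n) R) (i j : Fin (2 * n)) :
    cB Y i j =
      algebraMap ℂ R (s1al i) * Y (Sum.inl (s1pj i)) (Sum.inl (s1pj j)) * algebraMap ℂ R (s1al' j) +
      algebraMap ℂ R (s1al i) * Y (Sum.inl (s1pj i)) (Sum.inr ()) * algebraMap ℂ R (s1be' j) +
      algebraMap ℂ R (s1be i) * Y (Sum.inr ()) (Sum.inl (s1pj j)) * algebraMap ℂ R (s1al' j) +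
      algebraMap ℂ R (s1be i) * Y (Sum.inr ()) (Sum.inr ()) * algebraMap ℂ R (s1be' j) := by
  have hB : ∀ (Z : Matrix (IB n) (Fin (2 * n)) R),
      ((Bs n).map (algebraMap ℂ R) * Z) i j = algebraMap ℂ R (s1al i) * Z (Sum.inl (s1pj i)) j +
        algebraMap ℂ R (s1be i) * Z (Sum.inr ()) j := by
    intro Z
    rw [Matrix.mul_apply, Fintype.sum_sum_type]
    congr 1
    · rw [Finset.sum_eq_single (s1pj i)]
      · rw [Matrix.map_apply, s1_Bs_inl hn, if_pos rfl]
      · intro b _ hb
        rw [Matrix.map_apply, s1_Bs_inl hn, if_neg hb, map_zero, zero_mul]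
      · intro h
        exact absurd (Finset.mem_univ _) h
    · rw [Fintype.sum_unique]
      rfl
  have hBi : ∀ (p : IB n), (Y * (Bi n).map (algebraMap ℂ R)) p j =
      Y p (Sum.inl (s1pj j)) * algebraMap ℂ R (s1al' j) +
        Y p (Sum.inr ()) * algebraMap ℂ R (s1be' j) := by
    intro p
    rw [Matrix.mul_apply, Fintype.sum_sum_type]
    congr 1
    · rw [Finset.sum_eq_single (s1pj j)]
      · rw [Matrix.map_apply, s1_Bi_inl hn, if_pos rfl]
      · intro b _ hb
        rw [Matrix.map_apply, s1_Bi_inl hn, if_neg hb, map_zero, mul_zero]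
      · intro h
        exact absurd (Finset.mem_univ _) h
    · rw [Fintype.sum_unique]
      rfl
  rw [cB, Matrix.mul_assoc, hB, hBi, hBi]
  ring

/-- the entries of `cB (bk A b c d)` -/
theorem s1_cB_bk (hn : 1 ≤ n) (A : Matrix (Fin (2 * n - 1)) (Fin (2 * n - 1)) R)
    (b c : Fin (2 * n - 1) → R) (d : R) (i j : Fin (2 * n)) :
    cB (bk A b c d) i j =
      algebraMap ℂ R (s1al i) * A (s1pj i) (s1pj j) * algebraMap ℂ R (s1al' j) +
      algebraMap ℂ R (s1al i) * b (s1pj i) * algebraMap ℂ R (s1be' j) +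
      algebraMap ℂ R (s1be i) * c (s1pj j) * algebraMap ℂ R (s1al' j) +
      algebraMap ℂ R (s1be i) * d * algebraMap ℂ R (s1be' j) := by
  rw [s1_cB_apply hn]
  rfl

theorem s1_pj_inj {i j : Fin (2 * n)} (h : s1pj i = s1pj j) (hij : i ≠ j) :
    ((i : ℕ) + 1 = n ∧ (j : ℕ) = n) ∨ ((i : ℕ) = n ∧ (j : ℕ) + 1 = n) := by
  have hi := i.2
  have hj := j.2
  rw [Fin.ext_iff] at h
  rw [Ne, Fin.ext_iff] at hij
  simp only [s1pj] at h
  split_ifs at h <;> omega

theorem s1_sq (k : ℕ) : ((-1 : ℂ) ^ k) * (-1) ^ k = 1 := by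
  rw [← mul_pow]
  simp

theorem Bs_mul_Bi (hn : 1 ≤ n) : Bs n * Bi n = 1 := by
  ext i j
  rw [Matrix.mul_apply, Fintype.sum_sum_type]
  have h1 : ∑ p : Fin (2 * n - 1), Bs n i (Sum.inl p) * Bi n (Sum.inl p) j =
      if s1pj i = s1pj j then s1al i * s1al' j else 0 := by
    rw [Finset.sum_eq_single (s1pj i)]
    · rw [s1_Bs_inl hn, s1_Bi_inl hn, if_pos rfl]
      split_ifs <;> simp
    · intro b _ hb
      rw [s1_Bs_inl hn, if_neg hb, zero_mul]
    · intro h
      exact absurd (Finset.mem_univ _) h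
  rw [h1, Fintype.sum_unique, s1_Bs_inr, s1_Bi_inr]
  by_cases hij : i = j
  · subst hij
    rw [if_pos rfl, Matrix.one_apply_eq]
    simp only [s1al, s1al', s1be, s1be']
    rcases lt_trichotomy ((i : ℕ) + 1) n with h | h | h
    · rw [if_pos h, if_pos (by omega), if_neg (by omega), if_neg (by omega)]
      norm_num
    · rw [if_neg (by omega), if_pos (by omega), if_pos (by omega), if_pos (by omega),
        if_pos (by omega)]
      norm_num
    · by_cases h2 : (i : ℕ) = n
      · rw [if_neg (by omega), if_pos (by omega), if_pos (by omega), if_neg (by omega), if_pos h2,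
          if_neg (by omega), if_pos h2]
        norm_num
      · rw [if_neg (by omega), if_neg (by omega), if_neg (by omega), if_neg (by omega), if_neg h2,
          if_neg (by omega), if_neg h2]
        have := s1_sq ((i : ℕ) - n)
        linear_combination this
  · rw [Matrix.one_apply_ne hij]
    by_cases h2 : s1pj i = s1pj j
    · rw [if_pos h2]
      simp only [s1al, s1al', s1be, s1be']
      rcases s1_pj_inj h2 hij with ⟨h3, h4⟩ | ⟨h3, h4⟩
      · rw [if_neg (by omega), if_pos (by omega), if_pos (by omega), if_pos (by omega),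
          if_neg (by omega), if_pos (by omega)]
        norm_num
      · rw [if_neg (by omega), if_pos (by omega), if_pos (by omega), if_neg (by omega),
          if_pos (by omega), if_pos (by omega)]
        norm_num
    · rw [if_neg h2, zero_add]
      by_cases h3 : s1be i = 0
      · rw [h3, zero_mul]
      · by_cases h4 : s1be' j = 0
        · rw [h4, mul_zero]
        · exfalso
          apply h2
          rw [Fin.ext_iff]
          simp only [s1pj]
          simp only [s1be, s1be'] at h3 h4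
          have h5 : (i : ℕ) + 1 = n ∨ (i : ℕ) = n := by
            by_contra h
            push Not at h
            rw [if_neg h.1, if_neg h.2] at h3
            exact h3 rfl
          have h6 : (j : ℕ) + 1 = n ∨ (j : ℕ) = n := by
            by_contra h
            push Not at h
            rw [if_neg h.1, if_neg h.2] at h4
            exact h4 rfl
          split_ifs <;> omega

theorem s1_card (hn : 1 ≤ n) : Fintype.card (Fin (2 * n)) = Fintype.card (IB n) := by
  rw [Fintype.card_sum, Fintype.card_fin, Fintype.card_fin, Fintype.card_unit]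
  omega

theorem Bi_mul_Bs (hn : 1 ≤ n) : Bi n * Bs n = 1 :=
  (Matrix.mul_eq_one_comm_of_card_eq _ _ _ (s1_card hn)).1 (Bs_mul_Bi hn)

theorem s1_BiBs (hn : 1 ≤ n) :
    (Bi n).map (algebraMap ℂ R) * (Bs n).map (algebraMap ℂ R) = 1 := by
  rw [← Matrix.map_mul, Bi_mul_Bs hn, Matrix.map_one _ (map_zero _) (map_one _)]

theorem s1_BsBi (hn : 1 ≤ n) :
    (Bs n).map (algebraMap ℂ R) * (Bi n).map (algebraMap ℂ R) = 1 := by
  rw [← Matrix.map_mul, Bs_mul_Bi hn, Matrix.map_one _ (map_zero _) (map_one _)]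

/-- `cB` is a ring isomorphism. -/
theorem cB_mul (hn : 1 ≤ n) (Y Z : Matrix (IB n) (IB n) R) : cB (Y * Z) = cB Y * cB Z := by
  simp only [cB]
  calc (Bs n).map (algebraMap ℂ R) * (Y * Z) * (Bi n).map (algebraMap ℂ R) =
      (Bs n).map (algebraMap ℂ R) * Y * (1 : Matrix (IB n) (IB n) R) * Z *
        (Bi n).map (algebraMap ℂ R) := by
        simp only [Matrix.mul_assoc, Matrix.one_mul]
    _ = _ := by
        rw [← s1_BiBs (R := R) hn]
        simp only [Matrix.mul_assoc]

theorem cB_add (Y Z : Matrix (IB n) (IB n) R) : cB (Y + Z) = cB Y + cB Z := by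
  simp only [cB, Matrix.mul_add, Matrix.add_mul]

theorem cB_sub (Y Z : Matrix (IB n) (IB n) R) : cB (Y - Z) = cB Y - cB Z := by
  simp only [cB, Matrix.mul_sub, Matrix.sub_mul]

theorem cB_smul (c : R) (Y : Matrix (IB n) (IB n) R) : cB (c • Y) = c • cB Y := by
  simp only [cB, Matrix.mul_smul, Matrix.smul_mul]

theorem cB_one (hn : 1 ≤ n) : cB (1 : Matrix (IB n) (IB n) R) = 1 := by
  rw [cB, Matrix.mul_one, s1_BsBi hn]

theorem cB_injective (hn : 1 ≤ n) :
    Function.Injective (cB : Matrix (IB n) (IB n) R → Matrix (Fin (2 * n)) (Fin (2 * n)) R) := by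
  intro Y Z h
  have key : ∀ Y : Matrix (IB n) (IB n) R,
      (Bi n).map (algebraMap ℂ R) * cB Y * (Bs n).map (algebraMap ℂ R) = Y := by
    intro Y
    calc (Bi n).map (algebraMap ℂ R) * cB Y * (Bs n).map (algebraMap ℂ R) =
        ((Bi n).map (algebraMap ℂ R) * (Bs n).map (algebraMap ℂ R)) * Y *
          ((Bi n).map (algebraMap ℂ R) * (Bs n).map (algebraMap ℂ R)) := by
          simp only [cB, Matrix.mul_assoc]
      _ = Y := by rw [s1_BiBs hn, Matrix.one_mul, Matrix.mul_one]
  rw [← key Y, h, key Z]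

theorem cB_surjective (hn : 1 ≤ n) (X : Matrix (Fin (2 * n)) (Fin (2 * n)) R) :
    ∃ Y : Matrix (IB n) (IB n) R, X = cB Y := by
  refine ⟨(Bi n).map (algebraMap ℂ R) * X * (Bs n).map (algebraMap ℂ R), ?_⟩
  calc X = ((Bs n).map (algebraMap ℂ R) * (Bi n).map (algebraMap ℂ R)) * X *
          ((Bs n).map (algebraMap ℂ R) * (Bi n).map (algebraMap ℂ R)) := by
        rw [s1_BsBi hn, Matrix.one_mul, Matrix.mul_one]
    _ = _ := by simp only [cB, Matrix.mul_assoc]

theorem cB_map {S : Type*} [CommRing S] [Algebra ℂ S] (φ : R →ₐ[ℂ] S) (Y : Matrix (IB n) (IB n) R) :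
    (cB Y).map φ = cB (Y.map φ) := by
  have h1 : ∀ (Z W : Type) (M : Matrix Z W ℂ), (M.map (algebraMap ℂ R)).map φ =
      M.map (algebraMap ℂ S) := by
    intro Z W M
    ext i j
    simp
  have h2 : (cB Y).map φ = (cB Y).map (φ : R →+* S) := rfl
  have h3 : Y.map φ = Y.map (φ : R →+* S) := rfl
  rw [h2, h3, cB, cB, Matrix.map_mul, Matrix.map_mul]
  congr 1
  · congr 1
    exact h1 _ _ _
  · exact h1 _ _ _

theorem charpoly_cB (hn : 1 ≤ n) (Y : Matrix (IB n) (IB n) R) : (cB Y).charpoly = Y.charpoly := by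
  rcases subsingleton_or_nontrivial R with hR | hR
  · exact Subsingleton.elim _ _
  · have h := Matrix.charpoly_mul_comm_of_le ((Bs n).map (algebraMap ℂ R) * Y)
      ((Bi n).map (algebraMap ℂ R)) (s1_card hn).ge
    rw [s1_card hn, Nat.sub_self, pow_zero, one_mul, ← Matrix.mul_assoc, s1_BiBs hn,
      Matrix.one_mul] at h
    exact h

theorem s1_cast (hn : 1 ≤ n) (k : ℕ) (hk : k ≤ 2 * n - 1) :
    ((k * (2 * n - 1 - k) : ℕ) : ℂ) = k * (2 * n - 1 - k) := by
  rw [Nat.cast_mul, Nat.cast_sub hk, Nat.cast_sub (by omega)]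
  push_cast
  ring

theorem s1_par {a b : ℕ} (h : a % 2 = b % 2) : (-1 : ℂ) ^ a = (-1) ^ b := by
  rw [neg_one_pow_eq_pow_mod_two a, neg_one_pow_eq_pow_mod_two b, h]

theorem eD_cB (hn : 2 ≤ n) : cB (bk (Pool.Agent.MP_c45d35_ag.em ℂ _) 0 0 0) = eD n := by
  ext i j
  rw [s1_cB_bk (by omega)]
  have hi := i.2
  have hj := j.2
  simp only [Algebra.algebraMap_self, RingHom.id_apply, Pi.zero_apply, mul_zero, zero_mul, add_zero]
  have he : Pool.Agent.MP_c45d35_ag.em ℂ _ (s1pj i) (s1pj j) = if (s1pj j : ℕ) = (s1pj i : ℕ) + 1 then (1 : ℂ) else 0 := rfl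
  rw [he]
  have h1 : (s1pj j : ℕ) = if (j : ℕ) < n then (j : ℕ) else (j : ℕ) - 1 := rfl
  have h2 : (s1pj i : ℕ) = if (i : ℕ) < n then (i : ℕ) else (i : ℕ) - 1 := rfl
  rw [h1, h2]
  simp only [s1al, s1al', eD, Matrix.of_apply]
  split_ifs <;> first
    | omega
    | (norm_num; done)
    | skip
  · rw [s1_par (a := (j : ℕ) - n) (b := 1) (by omega)]
    norm_num
  · rw [s1_par (a := (j : ℕ) - n) (b := 1) (by omega)]
    norm_num
  · have e : (j : ℕ) - n = ((i : ℕ) - n) + 1 := by omega
    rw [e, pow_succ]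
    linear_combination (-1 : ℂ) * s1_sq ((i : ℕ) - n)

theorem fD_cB (hn : 2 ≤ n) : cB (bk (fm ℂ _) 0 0 0) = fD n := by
  ext i j
  rw [s1_cB_bk (by omega)]
  have hi := i.2
  have hj := j.2
  simp only [Algebra.algebraMap_self, RingHom.id_apply, Pi.zero_apply, mul_zero, zero_mul, add_zero]
  have he : fm ℂ _ (s1pj i) (s1pj j) = if (s1pj i : ℕ) = (s1pj j : ℕ) + 1 then
    ((((s1pj i : ℕ) * (2 * n - 1 - (s1pj i : ℕ)) : ℕ)) : ℂ) else 0 := rfl
  rw [he]
  have h1 : (s1pj j : ℕ) = if (j : ℕ) < n then (j : ℕ) else (j : ℕ) - 1 := rfl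
  have h2 : (s1pj i : ℕ) = if (i : ℕ) < n then (i : ℕ) else (i : ℕ) - 1 := rfl
  rw [h1, h2]
  simp only [s1al, s1al', fD, Matrix.of_apply]
  split_ifs <;> first
    | omega
    | (norm_num; done)
    | skip
  · rw [s1_cast (by omega) _ (by omega)]
    ring
  · have e : ((i : ℕ) : ℂ) + 1 = n := by
      have : (i : ℕ) + 1 = n := by omega
      exact_mod_cast this
    rw [s1_cast (by omega) _ (by omega), ← e]
    ring
  · obtain ⟨k, hk⟩ : ∃ k, (i : ℕ) - 1 = k := ⟨_, rfl⟩
    have e : ((k : ℕ) : ℂ) + 1 = n := by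
      have : k + 1 = n := by omega
      exact_mod_cast this
    rw [hk, s1_cast (by omega) _ (by omega), ← e]
    ring
  · obtain ⟨k, hk⟩ : ∃ k, (i : ℕ) - 1 = k := ⟨_, rfl⟩
    have e : k = n := by omega
    rw [hk, e, s1_cast (by omega) _ (by omega), s1_par (a := (i : ℕ) - n) (b := 1) (by omega)]
    ring
  · obtain ⟨k, hk⟩ : ∃ k, (i : ℕ) - 1 = k := ⟨_, rfl⟩
    have e : k = n := by omega
    rw [hk, e, s1_cast (by omega) _ (by omega), s1_par (a := (i : ℕ) - n) (b := 1) (by omega)]
    ring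
  · obtain ⟨k, hk⟩ : ∃ k, (i : ℕ) - 1 = k := ⟨_, rfl⟩
    have e : ((i : ℕ) : ℂ) = k + 1 := by
      have : (i : ℕ) = k + 1 := by omega
      exact_mod_cast this
    have e2 : (i : ℕ) - n = ((j : ℕ) - n) + 1 := by omega
    rw [hk, s1_cast (by omega) _ (by omega), e, e2, pow_succ]
    linear_combination (-(k : ℂ) * (2 * n - 1 - k)) * s1_sq ((j : ℕ) - n)

theorem s1_pj_rev (i : Fin (2 * n)) : s1pj (Fin.rev i) = Fin.rev (s1pj i) := by
  have hi := i.2
  rw [Fin.ext_iff, Fin.val_rev]
  have h1 : (s1pj (Fin.rev i) : ℕ) = if ((Fin.rev i : Fin (2 * n)) : ℕ) < n then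
    ((Fin.rev i : Fin (2 * n)) : ℕ) else ((Fin.rev i : Fin (2 * n)) : ℕ) - 1 := rfl
  have h2 : (s1pj i : ℕ) = if (i : ℕ) < n then (i : ℕ) else (i : ℕ) - 1 := rfl
  rw [h1, h2]
  simp only [Fin.val_rev]
  split_ifs <;> omega

theorem s1_al_rev (j : Fin (2 * n)) :
    s1al (Fin.rev j) = (-1) ^ (n - 1 + (s1pj j : ℕ)) / 2 * s1al' j := by
  have hj := j.2
  have h1 : (s1pj j : ℕ) = if (j : ℕ) < n then (j : ℕ) else (j : ℕ) - 1 := rfl
  rw [h1]
  simp only [s1al, s1al', Fin.val_rev]
  split_ifs <;> first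
    | omega
    | skip
  · rw [s1_par (a := n - 1 + ((j : ℕ) - 1)) (b := (j : ℕ) - n) (by omega)]
    linear_combination -s1_sq ((j : ℕ) - n)
  · rw [s1_par (a := n - 1 + (j : ℕ)) (b := 0) (by omega)]
    norm_num
  · rw [s1_par (a := n - 1 + ((j : ℕ) - 1)) (b := 0) (by omega)]
    norm_num
  · rw [s1_par (a := 2 * n - ((j : ℕ) + 1) - n) (b := n - 1 + (j : ℕ)) (by omega)]
    ring

theorem s1_pj_par (i : Fin (2 * n)) : ((s1pj (Fin.rev i) : ℕ)) % 2 = (s1pj i : ℕ) % 2 := by
  have hi := (s1pj i).2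
  rw [s1_pj_rev, Fin.val_rev]
  omega

theorem s1_al'_rev (i : Fin (2 * n)) :
    s1al' (Fin.rev i) = 2 * (-1) ^ (n - 1 + (s1pj i : ℕ)) * s1al i := by
  have h := s1_al_rev (Fin.rev i)
  rw [Fin.rev_rev] at h
  rw [h, s1_par (a := n - 1 + (s1pj (Fin.rev i) : ℕ)) (b := n - 1 + (s1pj i : ℕ))
    (by have := s1_pj_par i; omega)]
  linear_combination (-s1al' (Fin.rev i)) * s1_sq (n - 1 + (s1pj i : ℕ))

theorem s1_be_rev (i : Fin (2 * n)) : s1be (Fin.rev i) = -s1be i := by
  have hi := i.2
  simp only [s1be, Fin.val_rev]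
  split_ifs <;> first
    | omega
    | norm_num

theorem s1_be'_rev (i : Fin (2 * n)) : s1be' (Fin.rev i) = -s1be' i := by
  have hi := i.2
  simp only [s1be', Fin.val_rev]
  split_ifs <;> first
    | omega
    | norm_num

theorem s1_be (i : Fin (2 * n)) : s1be i = 2 * s1be' i := by
  simp only [s1be, s1be']
  split_ifs <;> norm_num

/-- The anti-involution in block coordinates. -/
theorem sd_cB (hn : 1 ≤ n) (A : Matrix (Fin (2 * n - 1)) (Fin (2 * n - 1)) R)
    (b c : Fin (2 * n - 1) → R) (d : R) :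
    sd (cB (bk A b c d)) = cB (bk (st A) (fun i => -(8 * fl c i))
      (fun j => -(algebraMap ℂ R (1 / 2) * fl b j)) d) := by
  ext i j
  rw [sd_apply, s1_cB_bk hn, s1_cB_bk hn, s1_pj_rev, s1_pj_rev, s1_al_rev, s1_al'_rev,
    s1_be_rev, s1_be'_rev, Pool.Agent.MP_c45d35_ag.st_apply, s1_be i, s1_be j]
  simp only [fl]
  have e1 : ((-1 : R)) ^ ((s1pj i : ℕ) + (s1pj j : ℕ)) =
      algebraMap ℂ R ((-1) ^ (n - 1 + (s1pj i : ℕ)) * (-1) ^ (n - 1 + (s1pj j : ℕ))) := by
    have h : ((-1 : ℂ) ^ (n - 1 + (s1pj i : ℕ)) * (-1) ^ (n - 1 + (s1pj j : ℕ))) =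
        (-1) ^ ((s1pj i : ℕ) + (s1pj j : ℕ)) := by
      rw [← pow_add]
      exact s1_par (by omega)
    rw [h, map_pow, map_neg, map_one]
  rw [e1]
  have e8 : (8 : R) = algebraMap ℂ R 8 := (map_ofNat _ 8).symm
  have e2 : (2 : R) = algebraMap ℂ R 2 := (map_ofNat _ 2).symm
  have e3 : algebraMap ℂ R 2 * algebraMap ℂ R (1 / 2) = 1 := by
    rw [← map_mul]
    norm_num
  have e4 : ∀ z : ℂ, algebraMap ℂ R (z / 2) = algebraMap ℂ R (1 / 2) * algebraMap ℂ R z := by
    intro z
    rw [← map_mul]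
    congr 1
    ring
  have eP := e4 ((-1) ^ (n - 1 + (s1pj i : ℕ)))
  have eQ := e4 ((-1) ^ (n - 1 + (s1pj j : ℕ)))
  rw [← e2] at e3
  simp only [map_mul, map_neg, eP, eQ, ← e2]
  generalize algebraMap ℂ R ((-1) ^ (n - 1 + (s1pj i : ℕ))) = P
  generalize algebraMap ℂ R ((-1) ^ (n - 1 + (s1pj j : ℕ))) = Q
  generalize algebraMap ℂ R (s1al i) = x
  generalize algebraMap ℂ R (s1al' j) = y
  generalize algebraMap ℂ R (s1be' i) = z
  generalize algebraMap ℂ R (s1be' j) = w
  linear_combination (P * Q * x * y * A (s1pj j).rev (s1pj i).rev +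
    algebraMap ℂ R (1 / 2) * Q * y * z * b (s1pj j).rev +
    4 * w * P * x * c (s1pj i).rev) * e3

/-- the entries of `Bs * Bi` -/
theorem s1_id (hn : 1 ≤ n) (i j : Fin (2 * n)) :
    (if s1pj i = s1pj j then s1al i * s1al' j else 0) + s1be i * s1be' j =
      if i = j then 1 else 0 := by
  have h := congrFun (congrFun (Bs_mul_Bi hn) i) j
  rw [Matrix.mul_apply, Fintype.sum_sum_type] at h
  have h1 : ∑ p : Fin (2 * n - 1), Bs n i (Sum.inl p) * Bi n (Sum.inl p) j =
      if s1pj i = s1pj j then s1al i * s1al' j else 0 := by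
    rw [Finset.sum_eq_single (s1pj i)]
    · rw [s1_Bs_inl hn, s1_Bi_inl hn, if_pos rfl]
      split_ifs <;> simp
    · intro b _ hb
      rw [s1_Bs_inl hn, if_neg hb, zero_mul]
    · intro h
      exact absurd (Finset.mem_univ _) h
  rw [h1, Fintype.sum_unique, s1_Bs_inr, s1_Bi_inr, Matrix.one_apply] at h
  exact h

theorem s1_bb (hn : 1 ≤ n) {i j : Fin (2 * n)} (h : s1pj i ≠ s1pj j) : s1be i * s1be' j = 0 := by
  have h1 := s1_id hn i j
  rw [if_neg h, zero_add, if_neg (fun h' => h (by rw [h']))] at h1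
  exact h1

theorem lowUni_cB (hn : 1 ≤ n) {u : Matrix (Fin (2 * n - 1)) (Fin (2 * n - 1)) R} (hu : LowUni u) :
    LowUni (cB (bk u 0 0 1)) := by
  have key : ∀ i j : Fin (2 * n), i ≤ j → cB (bk u 0 0 1) i j = if i = j then 1 else 0 := by
    intro i j hij
    rw [s1_cB_bk hn]
    simp only [Pi.zero_apply, mul_zero, zero_mul, add_zero, mul_one]
    by_cases h : s1pj i = s1pj j
    · rw [h, hu.2, mul_one, ← map_mul, ← map_mul, ← map_add]
      have h1 := s1_id hn i j
      rw [if_pos h] at h1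
      rw [h1]
      split_ifs
      · exact map_one _
      · exact map_zero _
    · have h2 : s1pj i < s1pj j := by
        refine lt_of_le_of_ne ?_ h
        rw [Fin.le_def] at hij ⊢
        simp only [s1pj]
        split_ifs <;> omega
      rw [hu.1 _ _ h2, mul_zero, zero_mul, zero_add, ← map_mul, s1_bb hn h, map_zero,
        if_neg (fun h' => h (by rw [h']))]
  constructor
  · intro i j hij
    rw [key i j hij.le, if_neg hij.ne]
  · intro i
    rw [key i i le_rfl, if_pos rfl]

theorem s1_ev (x : Fin n → R) (i : Fin (2 * n)) : ev (wtD i) x =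
    if h : (i : ℕ) < n then x ⟨i, h⟩ else -x ⟨2 * n - 1 - i, by have := i.2; omega⟩ := by
  have hi := i.2
  unfold ev
  split_ifs with h
  · rw [Finset.sum_eq_single ⟨i, h⟩]
    · simp only [wtD, Fin.val_rev, if_true]
      rw [if_neg (by omega)]
      simp
    · intro k _ hk
      have hk2 := k.2
      have hk' : ¬ (i : ℕ) = k := fun h' => hk (Fin.ext h'.symm)
      simp only [wtD, Fin.val_rev]
      rw [if_neg hk', if_neg (by omega)]
      simp
    · intro h'
      exact absurd (Finset.mem_univ _) h'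
  · rw [Finset.sum_eq_single ⟨2 * n - 1 - i, by omega⟩]
    · simp only [wtD, Fin.val_rev]
      rw [if_neg (by omega), if_pos (by omega)]
      simp
    · intro k _ hk
      have hk2 := k.2
      have hk' : ¬ 2 * n - 1 - (i : ℕ) = k := fun h' => hk (Fin.ext h'.symm)
      simp only [wtD, Fin.val_rev]
      rw [if_neg (by omega), if_neg (by omega)]
      simp
    · intro h'
      exact absurd (Finset.mem_univ _) h'

theorem Dx_cB (hn : 2 ≤ n) (x : Fin n → R) :
    (Matrix.diagonal fun i => ev (wtD i) x) =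
      cB (bk (Matrix.diagonal (dx x))
        (fun i => if h : (i : ℕ) + 1 = n then 2 * x ⟨i, by omega⟩ else 0)
        (fun i => if h : (i : ℕ) + 1 = n then algebraMap ℂ R (1 / 2) * x ⟨i, by omega⟩ else 0) 0) := by
  have hn1 : 1 ≤ n := by omega
  ext i j
  rw [s1_cB_bk hn1]
  have hi := i.2
  have hj := j.2
  have h1 : ∀ i : Fin (2 * n), (s1pj i : ℕ) = if (i : ℕ) < n then (i : ℕ) else (i : ℕ) - 1 :=
    fun _ => rfl
  have e3 : (2 : R) * algebraMap ℂ R (1 / 2) = 1 := by
    have e2 : (2 : R) = algebraMap ℂ R 2 := (map_ofNat _ 2).symm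
    rw [e2, ← map_mul]
    norm_num
  by_cases hij : i = j
  · subst hij
    rw [Matrix.diagonal_apply_eq, Matrix.diagonal_apply_eq, s1_ev, mul_zero, zero_mul, add_zero]
    rcases lt_trichotomy ((i : ℕ) + 1) n with h | h | h
    · have hp : (s1pj i : ℕ) = i := by rw [h1, if_pos (by omega)]
      rw [dif_pos (by omega), dif_neg (by omega), dif_neg (by omega)]
      simp only [dx, s1al, s1al', mul_zero, zero_mul, add_zero]
      rw [dif_pos (by omega), if_pos h, if_pos (by omega), map_one, one_mul, mul_one]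
      congr 1
      exact Fin.ext hp.symm
    · have hp : (s1pj i : ℕ) = i := by rw [h1, if_pos (by omega)]
      rw [dif_pos (by omega), dif_pos (by omega), dif_pos (by omega)]
      simp only [dx, s1al, s1al', s1be, s1be']
      rw [dif_neg (by omega), dif_pos (by omega), if_neg (by omega), if_pos (by omega),
        if_pos (by omega), if_pos h, if_pos h, map_one, mul_zero, zero_mul, zero_add, one_mul,
        mul_one]
      have hx : x ⟨(s1pj i : ℕ), by omega⟩ = x ⟨i, by omega⟩ := by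
        congr 1
        exact Fin.ext hp
      rw [hx]
      linear_combination (-(1 + algebraMap ℂ R (1 / 2)) * x ⟨i, by omega⟩) * e3
    · by_cases h2 : (i : ℕ) = n
      · have hp : (s1pj i : ℕ) = i - 1 := by rw [h1, if_neg (by omega)]
        rw [dif_neg (by omega), dif_pos (by omega), dif_pos (by omega)]
        simp only [dx, s1al, s1al', s1be, s1be']
        rw [dif_neg (by omega), dif_pos (by omega), if_neg (by omega), if_pos (by omega),
          if_pos (by omega), if_neg (by omega), if_pos h2, if_neg (by omega), if_pos h2, map_one,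
          map_neg, map_neg, map_one, mul_zero, zero_mul, zero_add, mul_one]
        have hx : x ⟨(s1pj i : ℕ), by omega⟩ = x ⟨2 * n - 1 - i, by omega⟩ := by
          congr 1
          apply Fin.ext
          show (s1pj i : ℕ) = 2 * n - 1 - i
          omega
        rw [hx]
        linear_combination ((1 + algebraMap ℂ R (1 / 2)) * x ⟨2 * n - 1 - i, by omega⟩) * e3
      · have hp : (s1pj i : ℕ) = i - 1 := by rw [h1, if_neg (by omega)]
        rw [dif_neg (by omega), dif_neg (by omega), dif_neg (by omega)]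
        simp only [dx, mul_zero, zero_mul, add_zero]
        rw [dif_neg (by omega), dif_neg (by omega)]
        have hx : x ⟨2 * n - 2 - (s1pj i : ℕ), by omega⟩ = x ⟨2 * n - 1 - i, by omega⟩ := by
          congr 1
          apply Fin.ext
          show 2 * n - 2 - (s1pj i : ℕ) = 2 * n - 1 - i
          omega
        rw [hx]
        have h3 : algebraMap ℂ R (s1al i) * algebraMap ℂ R (s1al' i) = 1 := by
          rw [← map_mul]
          have h4 := s1_id hn1 i i
          have h5 : s1be i = 0 := by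
            simp only [s1be]
            rw [if_neg (by omega), if_neg h2]
          rw [if_pos rfl, if_pos rfl, h5, zero_mul, add_zero] at h4
          rw [h4, map_one]
        linear_combination (x ⟨2 * n - 1 - i, by omega⟩) * h3
  · rw [Matrix.diagonal_apply_ne _ hij, mul_zero, zero_mul, add_zero]
    by_cases hp : s1pj i = s1pj j
    · have hpi : (s1pj i : ℕ) + 1 = n := by
        rw [h1]
        rcases s1_pj_inj hp hij with h | h <;> split_ifs <;> omega
      have hpj : (s1pj j : ℕ) + 1 = n := by rw [← hp]; exact hpi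
      have hd : (Matrix.diagonal (dx x)) (s1pj i) (s1pj j) = 0 := by
        rw [hp, Matrix.diagonal_apply_eq]
        simp only [dx]
        rw [dif_neg (by omega), dif_pos hpj]
      have hx : x ⟨(s1pj i : ℕ), by omega⟩ = x ⟨(s1pj j : ℕ), by omega⟩ := by
        congr 1
        apply Fin.ext
        show (s1pj i : ℕ) = (s1pj j : ℕ)
        omega
      rw [hd, dif_pos hpi, dif_pos hpj, hx, mul_zero, zero_mul, zero_add]
      simp only [s1al, s1al', s1be, s1be']
      rcases s1_pj_inj hp hij with ⟨h2, h3⟩ | ⟨h2, h3⟩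
      · rw [if_neg (by omega), if_pos (by omega), if_neg (by omega), if_pos h3, if_pos h2,
          if_pos (by omega), map_one, map_neg]
        linear_combination (algebraMap ℂ R (1 / 2) * x ⟨(s1pj j : ℕ), by omega⟩) * e3
      · rw [if_neg (by omega), if_pos (by omega), if_pos h3, if_neg (by omega), if_pos h2,
          if_pos (by omega), map_one, map_neg, map_one]
        linear_combination (-algebraMap ℂ R (1 / 2) * x ⟨(s1pj j : ℕ), by omega⟩) * e3
    · have hp' : (s1pj i : ℕ) ≠ s1pj j := fun h => hp (Fin.ext h)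
      rw [Matrix.diagonal_apply_ne _ hp, mul_zero, zero_mul, zero_add]
      have hA : algebraMap ℂ R (s1al i) *
          (if h : (s1pj i : ℕ) + 1 = n then 2 * x ⟨s1pj i, by omega⟩ else 0) *
          algebraMap ℂ R (s1be' j) = 0 := by
        by_cases hb : (s1pj i : ℕ) + 1 = n
        · have : s1be' j = 0 := by
            have hq := h1 j
            simp only [s1be']
            split_ifs at hq <;> rw [if_neg (by omega), if_neg (by omega)]
          rw [this, map_zero, mul_zero]
        · rw [dif_neg hb, mul_zero, zero_mul]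
      have hB : algebraMap ℂ R (s1be i) *
          (if h : (s1pj j : ℕ) + 1 = n then algebraMap ℂ R (1 / 2) * x ⟨s1pj j, by omega⟩ else 0) *
          algebraMap ℂ R (s1al' j) = 0 := by
        by_cases hb : (s1pj j : ℕ) + 1 = n
        · have : s1be i = 0 := by
            have hq := h1 i
            simp only [s1be]
            split_ifs at hq <;> rw [if_neg (by omega), if_neg (by omega)]
          rw [this, map_zero, zero_mul, zero_mul]
        · rw [dif_neg hb, mul_zero, zero_mul]
      rw [hA, hB, add_zero]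

/-- The coupling constant of a block matrix can be read off the last row. -/
theorem Blk_last (hn : 2 ≤ n) (M : Matrix (Fin (2 * n - 1)) (Fin (2 * n - 1)) R) (c : R) :
    cB (Blk M c) ⟨2 * n - 1, by omega⟩ ⟨n - 1, by omega⟩ -
      cB (Blk M c) ⟨2 * n - 1, by omega⟩ ⟨n, by omega⟩ =
        algebraMap ℂ R ((-1) ^ (n - 1) / 2) * c := by
  have hn1 : 1 ≤ n := by omega
  rw [Blk, s1_cB_bk hn1, s1_cB_bk hn1]
  have hp : s1pj (⟨n - 1, by omega⟩ : Fin (2 * n)) = s1pj (⟨n, by omega⟩ : Fin (2 * n)) := by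
    rw [Fin.ext_iff]
    simp only [s1pj]
    split_ifs <;> omega
  have hb : s1be (⟨2 * n - 1, by omega⟩ : Fin (2 * n)) = 0 := by
    simp only [s1be]
    rw [if_neg (by omega), if_neg (by omega)]
  have ha : s1al (⟨2 * n - 1, by omega⟩ : Fin (2 * n)) = (-1) ^ (n - 1) / 2 := by
    simp only [s1al]
    rw [if_neg (by omega), if_neg (by omega), s1_par (a := 2 * n - 1 - n) (b := n - 1) (by omega)]
  have h1 : s1al' (⟨n - 1, by omega⟩ : Fin (2 * n)) = 1 := by
    simp only [s1al']
    rw [if_pos (by omega)]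
  have h2 : s1al' (⟨n, by omega⟩ : Fin (2 * n)) = 1 := by
    simp only [s1al']
    rw [if_pos (by omega)]
  have h3 : s1be' (⟨n - 1, by omega⟩ : Fin (2 * n)) = 1 / 2 := by
    simp only [s1be']
    rw [if_pos (by omega)]
  have h4 : s1be' (⟨n, by omega⟩ : Fin (2 * n)) = -(1 / 2) := by
    simp only [s1be']
    rw [if_neg (by omega), if_pos trivial]
  have h5 : (s1pj (⟨2 * n - 1, by omega⟩ : Fin (2 * n)) : ℕ) + 2 = 2 * n := by
    simp only [s1pj]
    split_ifs <;> omega
  have e3 : (2 : R) * algebraMap ℂ R (1 / 2) = 1 := by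
    have e2 : (2 : R) = algebraMap ℂ R 2 := (map_ofNat _ 2).symm
    rw [e2, ← map_mul]
    norm_num
  rw [hp, hb, ha, h1, h2, h3, h4, if_pos h5, map_zero, map_one, map_neg]
  linear_combination (algebraMap ℂ R ((-1) ^ (n - 1) / 2) * c) * e3

end

end Pool.Agent.MTD.TD
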