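import Pool.Agent.MTD.TDB0

/-! # MTD : type `D`, the characteristic polynomial in block coordinates (row D-S2) -/

namespace Pool.Agent.MTD.TD

open Matrix
open Pool.Agent.MP_c45d35_ag (chi UpUni LowUni IsHess IsLie st Jm fm)
open Pool.Agent.MP_c45d35_ag.SL (Sl)


/-- the bordered determinant of a Hessenberg matrix -/
theorem tdb2_det {S : Type*} [CommRing S] {N : ℕ} (hN : 0 < N) (A : Matrix (Fin N) (Fin N) S)
    (h1 : ∀ i j : Fin N, (j : ℕ) = (i : ℕ) + 1 → A i j = -1)
    (h2 : ∀ i j : Fin N, (i : ℕ) + 1 < (j : ℕ) → A i j = 0) (a b t : S) :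
    (Matrix.fromBlocks A (Matrix.of fun (i : Fin N) (_ : Unit) => if (i : ℕ) + 1 = N then a else 0)
      (Matrix.of fun (_ : Unit) (j : Fin N) => if (j : ℕ) = 0 then b else 0)
      (Matrix.of fun (_ : Unit) (_ : Unit) => t)).det = t * A.det - a * b := by
  obtain ⟨m, rfl⟩ : ∃ m, N = m + 1 := ⟨N - 1, by omega⟩
  set B := Matrix.fromBlocks A
    (Matrix.of fun (i : Fin (m + 1)) (_ : Unit) => if (i : ℕ) + 1 = m + 1 then a else 0)
    (Matrix.of fun (_ : Unit) (j : Fin (m + 1)) => if (j : ℕ) = 0 then b else 0)
    (Matrix.of fun (_ : Unit) (_ : Unit) => t) with hB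
  let φ : Fin (m + 1 + 1) → Fin (m + 1) ⊕ Unit := Fin.lastCases (Sum.inr ()) Sum.inl
  have hφc : ∀ i : Fin (m + 1), φ (Fin.castSucc i) = Sum.inl i := fun i => by
    simp [φ]
  have hφl : φ (Fin.last (m + 1)) = Sum.inr () := by simp [φ]
  have hbij : Function.Bijective φ := by
    constructor
    · intro x y
      refine Fin.lastCases ?_ (fun i => ?_) x <;> refine Fin.lastCases ?_ (fun j => ?_) y
      · exact fun _ => rfl
      · rw [hφl, hφc]; exact fun h => absurd h (by simp)
      · rw [hφl, hφc]; exact fun h => absurd h (by simp)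
      · rw [hφc, hφc]; exact fun h => by rw [Sum.inl_injective h]
    · rintro (i | u)
      · exact ⟨_, hφc i⟩
      · exact ⟨_, hφl⟩
  set e : Fin (m + 1 + 1) ≃ Fin (m + 1) ⊕ Unit := Equiv.ofBijective φ hbij with he
  have hec : ∀ i : Fin (m + 1), e (Fin.castSucc i) = Sum.inl i := hφc
  have hel : e (Fin.last (m + 1)) = Sum.inr () := hφl
  rw [← Matrix.det_submatrix_equiv_self e B, Matrix.det_succ_row _ (Fin.last (m + 1)),
    Fin.sum_univ_castSucc]
  have hlast : (-1 : S) ^ (((Fin.last (m + 1) : Fin (m + 1 + 1)) : ℕ) +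
      ((Fin.last (m + 1) : Fin (m + 1 + 1)) : ℕ)) * B.submatrix e e (Fin.last (m + 1))
      (Fin.last (m + 1)) * ((B.submatrix e e).submatrix (Fin.last (m + 1)).succAbove
        (Fin.last (m + 1)).succAbove).det = t * A.det := by
    rw [← two_mul, pow_mul, neg_one_sq, one_pow, one_mul]
    congr 1
    · rw [Matrix.submatrix_apply, hel]
      rfl
    · congr 1
      ext i j
      rw [Matrix.submatrix_apply, Matrix.submatrix_apply, Fin.succAbove_last, hec, hec]
      rfl
  rw [hlast, Finset.sum_eq_single 0]
  · have hv : B.submatrix e e (Fin.last (m + 1)) (Fin.castSucc 0) = b := by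
      rw [Matrix.submatrix_apply, hel, hec]
      simp [hB]
    have hd : ((B.submatrix e e).submatrix (Fin.last (m + 1)).succAbove
        (Fin.castSucc (0 : Fin (m + 1))).succAbove).det = (-1) ^ m * a := by
      rw [← Matrix.det_transpose, Matrix.det_of_isUpperTriangular]
      · rw [Fin.prod_univ_castSucc]
        have hl : ((B.submatrix e e).submatrix (Fin.last (m + 1)).succAbove
            (Fin.castSucc (0 : Fin (m + 1))).succAbove)ᵀ (Fin.last m) (Fin.last m) = a := by
          rw [Matrix.transpose_apply, Matrix.submatrix_apply, Matrix.submatrix_apply,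
            Fin.succAbove_last, Fin.castSucc_zero, Fin.succAbove_zero, hec, Fin.succ_last, hel]
          simp [hB]
        have hc : ∀ i : Fin m, ((B.submatrix e e).submatrix (Fin.last (m + 1)).succAbove
            (Fin.castSucc (0 : Fin (m + 1))).succAbove)ᵀ (Fin.castSucc i) (Fin.castSucc i) =
              -1 := by
          intro i
          rw [Matrix.transpose_apply, Matrix.submatrix_apply, Matrix.submatrix_apply,
            Fin.succAbove_last, Fin.castSucc_zero, Fin.succAbove_zero, hec, Fin.succ_castSucc,
            hec]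
          exact h1 _ _ (by simp)
        rw [hl, Finset.prod_congr rfl (fun i _ => hc i), Finset.prod_const, Finset.card_univ,
          Fintype.card_fin]
      · intro i j hij
        have hij' : (j : ℕ) < (i : ℕ) := hij
        rw [Matrix.transpose_apply, Matrix.submatrix_apply, Matrix.submatrix_apply,
          Fin.succAbove_last, Fin.castSucc_zero, Fin.succAbove_zero, hec]
        have hi := i.2
        by_cases hil : (i : ℕ) = m
        · have : (Fin.succ i : Fin (m + 1 + 1)) = Fin.last (m + 1) := by
            apply Fin.ext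
            simp [hil]
          rw [this, hel]
          have hjm : ¬ ((j : ℕ) = m) := by omega
          simp [hB, hjm]
        · have : (Fin.succ i : Fin (m + 1 + 1)) = Fin.castSucc ⟨(i : ℕ) + 1, by omega⟩ := by
            apply Fin.ext
            simp
          rw [this, hec]
          exact h2 _ _ (by simpa using hij')
    rw [hv, hd]
    have hs : (-1 : S) ^ (((Fin.last (m + 1) : Fin (m + 1 + 1)) : ℕ) +
        ((Fin.castSucc (0 : Fin (m + 1)) : Fin (m + 1 + 1)) : ℕ)) = (-1) ^ (m + 1) := by simp
    have hq : (-1 : S) ^ m * (-1) ^ m = 1 := by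
      rw [← mul_pow, neg_one_mul, neg_neg, one_pow]
    rw [hs, pow_succ]
    linear_combination (-(a * b)) * hq
  · intro j _ hj
    have hv : B.submatrix e e (Fin.last (m + 1)) (Fin.castSucc j) = 0 := by
      rw [Matrix.submatrix_apply, hel, hec]
      have : ¬ ((j : ℕ) = 0) := fun h => hj (Fin.ext h)
      simp [hB, hj]
    rw [hv, mul_zero, zero_mul]
  · intro h
    exact absurd (Finset.mem_univ _) h

section
variable {n : ℕ} {R : Type*} [CommRing R] [Algebra ℂ R]

/-- `det (T - Blk M c) = T det (T - M) - ((-1)^{n-1}/4) c²` for Hessenberg `M`.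
Proof: expand along the last column (or `Matrix.det_fromBlocks`-free: `det [[A, v],[w, t]] =
t det A - w · adj(A) · v`); here `v = -c e_last`, `w = -κ c ε_0`, and
`adj(T - M)_{0, last} = 1`, because the minor of `T - M` with the last row and the first column
removed is lower triangular with `-1` on the diagonal, of size `2n-2`. -/
theorem charpoly_Blk (hn : 1 ≤ n) {M : Matrix (Fin (2 * n - 1)) (Fin (2 * n - 1)) R}
    (hM : IsHess M) (c : R) : (Blk M c).charpoly =
      Polynomial.X * M.charpoly -
        Polynomial.C (algebraMap ℂ R ((-1) ^ (n - 1) / 4) * c ^ 2) := by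
  set κ := algebraMap ℂ R ((-1) ^ (n - 1) / 4) with hκ
  have h := tdb2_det (N := 2 * n - 1) (by omega) (Matrix.charmatrix M)
    (fun i j hij => by
      rw [Matrix.charmatrix_apply_ne _ _ _ (by intro h; rw [h] at hij; omega), hM.1 i j hij,
        map_one])
    (fun i j hij => by
      rw [Matrix.charmatrix_apply_ne _ _ _ (by intro h; rw [h] at hij; omega), hM.2 i j hij,
        map_zero, neg_zero])
    (-Polynomial.C c) (-Polynomial.C (κ * c)) Polynomial.X
  have he : Matrix.charmatrix (Blk M c) = Matrix.fromBlocks (Matrix.charmatrix M)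
      (Matrix.of fun (i : Fin (2 * n - 1)) (_ : Unit) =>
        if (i : ℕ) + 1 = 2 * n - 1 then -Polynomial.C c else 0)
      (Matrix.of fun (_ : Unit) (j : Fin (2 * n - 1)) =>
        if (j : ℕ) = 0 then -Polynomial.C (κ * c) else 0)
      (Matrix.of fun (_ : Unit) (_ : Unit) => Polynomial.X) := by
    unfold Blk bk
    rw [Matrix.charmatrix_fromBlocks]
    congr 1
    · refine Matrix.ext fun i j => ?_
      rw [Matrix.neg_apply, Matrix.map_apply, Matrix.of_apply, Matrix.of_apply]
      show -Polynomial.C (if (i : ℕ) + 2 = 2 * n then c else 0) = _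
      by_cases h1 : (i : ℕ) + 2 = 2 * n
      · rw [if_pos h1, if_pos (by omega)]
      · rw [if_neg h1, if_neg (by omega), map_zero, neg_zero]
    · refine Matrix.ext fun i j => ?_
      rw [Matrix.neg_apply, Matrix.map_apply, Matrix.of_apply, Matrix.of_apply]
      show -Polynomial.C (if (j : ℕ) = 0 then κ * c else 0) = _
      by_cases h1 : (j : ℕ) = 0
      · rw [if_pos h1, if_pos h1]
      · rw [if_neg h1, if_neg h1, map_zero, neg_zero]
    · refine Matrix.ext fun i j => ?_
      rw [Matrix.of_apply, Subsingleton.elim i j, Matrix.charmatrix_apply_eq, Matrix.of_apply,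
        map_zero, sub_zero]
  unfold Matrix.charpoly
  rw [he, h]
  rw [map_mul, map_mul, map_pow]
  ring

end

end Pool.Agent.MTD.TD
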