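import Pool.Agent.MTD.TDB1

/-! # MTD : type `D`, killing the coupling (row D-S3)

`S₀ = e + x` in block coordinates is `bk M₀ v (½ x_{n-1} at n-1) 0` with
`M₀ = em + diagonal (dx x)`, `v = 2 x_{n-1} u'_{n-1}`.  With `w = wx x` (entries
`w_j = 2 ∏_{l ≥ 2n-1-j} x_l` for `j ≥ n`) and `c = 2 ∏ x_k` one has `M₀ w = v - c e_last`
(since `w_n = 2 x_{n-1}`, `w_{j+1} = x_{2n-2-j} w_j`, `x_0 w_last = c`), `(w, w) = (v, w) = 0`, and
`nW w * S₀ = Blk M₁ c * nW w` with
`M₁ = M₀ - ¼ (v + c e_last) ⊗ fl w + ¼ w ⊗ fl (v + c e_last)`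
(checked numerically for `n = 2, 3, 4, 5`). -/

namespace Pool.Agent.MTD.TD

open Matrix
open Pool.Agent.MP_c45d35_ag (chi UpUni LowUni IsHess IsLie st Jm fm)
open Pool.Agent.MP_c45d35_ag.SL (Sl)


section
variable {n : ℕ} {R : Type*} [CommRing R] [Algebra ℂ R]

/-- The sign `(-1)^(n-1+j)/2`. -/
noncomputable def tdb3_ka (R : Type*) [CommRing R] [Algebra ℂ R] (n j : ℕ) : R :=
  algebraMap ℂ R ((-1) ^ (n - 1 + j) / 2)

theorem tdb3_fl (w : Fin (2 * n - 1) → R) (j : Fin (2 * n - 1)) :
    fl w j = tdb3_ka R n j * w (Fin.rev j) := rfl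

theorem tdb3_ka_rev (j : Fin (2 * n - 1)) :
    tdb3_ka R n ((Fin.rev j : Fin (2 * n - 1)) : ℕ) = tdb3_ka R n j := by
  unfold tdb3_ka
  have hj := j.2
  congr 2
  rw [Fin.val_rev]
  have e : n - 1 + (2 * n - 1 - ((j : ℕ) + 1)) + 2 * (j : ℕ) = (n - 1 + (j : ℕ)) + 2 * (n - 1) := by
    omega
  have h1 : ((-1 : ℂ)) ^ (n - 1 + (2 * n - 1 - ((j : ℕ) + 1))) * (-1) ^ (2 * (j : ℕ)) =
      (-1) ^ (n - 1 + (j : ℕ)) * (-1) ^ (2 * (n - 1)) := by
    rw [← pow_add, e, pow_add]
  rw [pow_mul, pow_mul] at h1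
  simpa using h1

theorem tdb3_ka_sq (j : ℕ) : tdb3_ka R n j * tdb3_ka R n j = algebraMap ℂ R (1 / 4) := by
  unfold tdb3_ka
  rw [← map_mul]
  congr 1
  have : ((-1 : ℂ) ^ (n - 1 + j)) * (-1) ^ (n - 1 + j) = 1 := by
    rw [← mul_pow]; simp
  linear_combination this / 4

theorem tdb3_ka_sign (i j : ℕ) : (-1) ^ (i + j) * tdb3_ka R n i = tdb3_ka R n j := by
  unfold tdb3_ka
  have h : ((-1 : R)) ^ (i + j) = algebraMap ℂ R ((-1) ^ (i + j)) := by simp
  rw [h, ← map_mul]
  congr 1
  have : ((-1 : ℂ) ^ i) * (-1) ^ i = 1 := by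
    rw [← mul_pow]; simp
  rw [pow_add, pow_add, pow_add]
  linear_combination ((-1 : ℂ)) ^ (n - 1) * (-1) ^ j / 2 * this

theorem tdb3_fl_fl (w : Fin (2 * n - 1) → R) (j : Fin (2 * n - 1)) :
    fl (fl w) j = algebraMap ℂ R (1 / 4) * w j := by
  rw [tdb3_fl, tdb3_fl, tdb3_ka_rev, Fin.rev_rev, ← mul_assoc, tdb3_ka_sq]

theorem tdb3_st_vec (u u' : Fin (2 * n - 1) → R) :
    st (Matrix.of fun i j => u i * fl u' j) = Matrix.of fun i j => u' i * fl u j := by
  ext i j
  rw [Pool.Agent.MP_c45d35_ag.st_apply, Matrix.of_apply, Matrix.of_apply, tdb3_fl, tdb3_fl,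
    tdb3_ka_rev, Fin.rev_rev, ← tdb3_ka_sign (R := R) (n := n) (i : ℕ) (j : ℕ)]
  ring

theorem tdb3_q : (algebraMap ℂ R (1 / 2)) = 2 * algebraMap ℂ R (1 / 4) := by
  have h2 : (2 : R) = algebraMap ℂ R 2 := (map_ofNat (algebraMap ℂ R) 2).symm
  rw [h2, ← map_mul]
  norm_num

theorem tdb3_q4 : 4 * algebraMap ℂ R (1 / 4) = 1 := by
  have h2 : (4 : R) = algebraMap ℂ R 4 := (map_ofNat (algebraMap ℂ R) 4).symm
  rw [h2, ← map_mul]
  norm_num

omit [Algebra ℂ R] in
theorem tdb3_bk_mul (A A' : Matrix (Fin (2 * n - 1)) (Fin (2 * n - 1)) R)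
    (b c b' c' : Fin (2 * n - 1) → R) (d d' : R) :
    bk A b c d * bk A' b' c' d' =
      bk (A * A' + Matrix.of fun i j => b i * c' j) (fun i => (∑ l, A i l * b' l) + b i * d')
        (fun j => (∑ l, c l * A' l j) + d * c' j) ((∑ l, c l * b' l) + d * d') := by
  unfold bk
  rw [Matrix.fromBlocks_multiply]
  congr 1 <;>
  · ext i j
    simp [Matrix.mul_apply]

omit [Algebra ℂ R] in
theorem tdb3_bk_one : (bk 1 0 0 1 : Matrix (IB n) (IB n) R) = 1 := by
  unfold bk
  rw [← Matrix.fromBlocks_one]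
  congr 1

theorem tdb3_ww (w : Fin (2 * n - 1) → R) (hw : ∀ j : Fin (2 * n - 1), (j : ℕ) < n → w j = 0)
    (j : Fin (2 * n - 1)) : fl w j * w j = 0 := by
  rw [tdb3_fl]
  rcases Nat.lt_or_ge (j : ℕ) n with h | h
  · rw [hw j h, mul_zero]
  · rw [hw (Fin.rev j) (by rw [Fin.val_rev]; omega), mul_zero, zero_mul]

/-- `n(w)` is orthogonal for `w ∈ span (u'_j, j ≥ n)`. -/
theorem sd_nW (hn : 1 ≤ n) (w : Fin (2 * n - 1) → R) (hw : ∀ j : Fin (2 * n - 1), (j : ℕ) < n → w j = 0) :
    sd (cB (nW w)) * cB (nW w) = 1 := by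
  have hA : st (1 + Matrix.of fun i j => algebraMap ℂ R (1 / 4) * (w i * fl w j)) =
      1 + Matrix.of fun i j => algebraMap ℂ R (1 / 4) * (w i * fl w j) := by
    have e : (Matrix.of fun i j => algebraMap ℂ R (1 / 4) * (w i * fl w j)) =
        (algebraMap ℂ R (1 / 4)) • Matrix.of fun i j => w i * fl w j := by
      ext i j; rfl
    rw [Pool.Agent.MP_c45d35_ag.st_add, Pool.Agent.MP_c45d35_ag.st_one, e,
      Pool.Agent.MP_c45d35_ag.st_smul, tdb3_st_vec]
  unfold nW
  rw [sd_cB hn, hA, ← cB_mul hn, tdb3_bk_mul, ← cB_one (R := R) hn, ← tdb3_bk_one]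
  congr 1
  have hww := tdb3_ww w hw
  have hs : ∑ l, fl w l * w l = 0 := Finset.sum_eq_zero fun l _ => hww l
  have h8 : ∀ i, -(8 * fl (fun j => algebraMap ℂ R (1 / 2) * fl w j) i) = - w i := by
    intro i
    have h := tdb3_fl_fl w i
    rw [tdb3_fl] at h ⊢
    have hq := tdb3_q (R := R)
    have hq4 := tdb3_q4 (R := R)
    rw [hq]
    linear_combination (-16 * algebraMap ℂ R (1 / 4)) * h -
      (w i * (4 * algebraMap ℂ R (1 / 4) + 1)) * hq4
  have hAb : ∀ i, (∑ l, (1 + Matrix.of fun i j => algebraMap ℂ R (1 / 4) * (w i * fl w j) :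
      Matrix (Fin (2 * n - 1)) (Fin (2 * n - 1)) R) i l * w l) = w i := by
    intro i
    simp only [Matrix.add_apply, Matrix.of_apply, add_mul, Finset.sum_add_distrib]
    have h1 : ∑ l, (1 : Matrix (Fin (2 * n - 1)) (Fin (2 * n - 1)) R) i l * w l = w i := by
      simp [Matrix.one_apply]
    have h2 : ∑ l, algebraMap ℂ R (1 / 4) * (w i * fl w l) * w l =
        algebraMap ℂ R (1 / 4) * w i * ∑ l, fl w l * w l := by
      rw [Finset.mul_sum]
      exact Finset.sum_congr rfl fun l _ => by ring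
    rw [h1, h2, hs]
    ring
  have hcA : ∀ j, (∑ l, fl w l * (1 + Matrix.of fun i j => algebraMap ℂ R (1 / 4) * (w i * fl w j) :
      Matrix (Fin (2 * n - 1)) (Fin (2 * n - 1)) R) l j) = fl w j := by
    intro j
    simp only [Matrix.add_apply, Matrix.of_apply, mul_add, Finset.sum_add_distrib]
    have h1 : ∑ l, fl w l * (1 : Matrix (Fin (2 * n - 1)) (Fin (2 * n - 1)) R) l j = fl w j := by
      simp [Matrix.one_apply]
    have h2 : ∑ l, fl w l * (algebraMap ℂ R (1 / 4) * (w l * fl w j)) =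
        algebraMap ℂ R (1 / 4) * fl w j * ∑ l, fl w l * w l := by
      rw [Finset.mul_sum]
      exact Finset.sum_congr rfl fun l _ => by ring
    rw [h1, h2, hs]
    ring
  congr 1
  · ext i j
    rw [Matrix.add_apply, Matrix.mul_apply, Matrix.of_apply, h8]
    have h3 : ∑ l, (1 + Matrix.of fun i j => algebraMap ℂ R (1 / 4) * (w i * fl w j) :
        Matrix (Fin (2 * n - 1)) (Fin (2 * n - 1)) R) i l *
        (1 + Matrix.of fun i j => algebraMap ℂ R (1 / 4) * (w i * fl w j) :
        Matrix (Fin (2 * n - 1)) (Fin (2 * n - 1)) R) l j =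
        (1 + Matrix.of fun i j => algebraMap ℂ R (1 / 4) * (w i * fl w j) :
        Matrix (Fin (2 * n - 1)) (Fin (2 * n - 1)) R) i j +
        algebraMap ℂ R (1 / 4) * w i * fl w j := by
      rw [← hcA j, Finset.mul_sum]
      have : (1 + Matrix.of fun i j => algebraMap ℂ R (1 / 4) * (w i * fl w j) :
        Matrix (Fin (2 * n - 1)) (Fin (2 * n - 1)) R) i j = ∑ l,
          (1 : Matrix (Fin (2 * n - 1)) (Fin (2 * n - 1)) R) i l *
          (1 + Matrix.of fun i j => algebraMap ℂ R (1 / 4) * (w i * fl w j) :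
        Matrix (Fin (2 * n - 1)) (Fin (2 * n - 1)) R) l j := by
        simp [Matrix.one_apply]
      rw [this, ← Finset.sum_add_distrib]
      refine Finset.sum_congr rfl fun l _ => ?_
      simp only [Matrix.add_apply, Matrix.of_apply]
      ring
    rw [h3]
    simp only [Matrix.add_apply, Matrix.of_apply]
    rw [tdb3_q]
    ring
  · funext i
    rw [hAb, h8]
    simp
  · funext j
    have h4 : ∑ l, -(algebraMap ℂ R (1 / 2) * fl w l) *
        (1 + Matrix.of fun i j => algebraMap ℂ R (1 / 4) * (w i * fl w j) :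
        Matrix (Fin (2 * n - 1)) (Fin (2 * n - 1)) R) l j = - (algebraMap ℂ R (1 / 2) * fl w j) := by
      rw [← hcA j, Finset.mul_sum, ← Finset.sum_neg_distrib]
      exact Finset.sum_congr rfl fun l _ => by ring
    rw [h4]
    simp
  · have h5 : ∑ l, -(algebraMap ℂ R (1 / 2) * fl w l) * w l =
        - algebraMap ℂ R (1 / 2) * ∑ l, fl w l * w l := by
      rw [Finset.mul_sum]
      exact Finset.sum_congr rfl fun l _ => by ring
    rw [h5, hs]
    simp

theorem lowUni_nW (hn : 1 ≤ n) (w : Fin (2 * n - 1) → R) (hw : ∀ j : Fin (2 * n - 1), (j : ℕ) < n → w j = 0) :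
    LowUni (cB (nW w)) := by
  have hdec : nW w = 1 + bk (Matrix.of fun i j => algebraMap ℂ R (1 / 4) * (w i * fl w j)) w
      (fun j => algebraMap ℂ R (1 / 2) * fl w j) 0 := by
    rw [← tdb3_bk_one]
    unfold nW bk
    rw [Matrix.fromBlocks_add]
    congr 1 <;>
    · ext i j
      simp
  have hF : ∀ j : Fin (2 * n - 1), n ≤ (j : ℕ) + 1 → fl w j = 0 := by
    intro j hj
    rw [tdb3_fl, hw (Fin.rev j) (by rw [Fin.val_rev]; omega), mul_zero]
  have key : ∀ i j : Fin (2 * n), i ≤ j →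
      cB (bk (Matrix.of fun i j => algebraMap ℂ R (1 / 4) * (w i * fl w j)) w
      (fun j => algebraMap ℂ R (1 / 2) * fl w j) 0) i j = 0 := by
    intro i j hij
    have hij' : (i : ℕ) ≤ (j : ℕ) := hij
    unfold cB
    rw [Matrix.mul_apply]
    refine Finset.sum_eq_zero fun q _ => ?_
    rw [Matrix.mul_apply, Finset.sum_mul]
    refine Finset.sum_eq_zero fun p _ => ?_
    rw [Matrix.map_apply, Matrix.map_apply]
    have hBs : ∀ a : Fin (2 * n - 1), n ≤ (a : ℕ) → (i : ℕ) ≠ (a : ℕ) + 1 → Bs n i (Sum.inl a) = 0 := by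
      intro a ha hia
      simp only [Bs, Matrix.of_apply, Sum.elim_inl]
      rw [if_neg (by omega), if_neg (by omega), if_neg hia]
    have hBs' : ¬ ((i : ℕ) + 1 = n) → ¬ ((i : ℕ) = n) → Bs n i (Sum.inr ()) = 0 := by
      intro h1 h2
      simp only [Bs, Matrix.of_apply, Sum.elim_inr]
      rw [if_neg h1, if_neg h2]
    have hBi : ∀ b : Fin (2 * n - 1), (b : ℕ) + 1 < n → (j : ℕ) ≠ (b : ℕ) → Bi n (Sum.inl b) j = 0 := by
      intro b hb hjb
      simp only [Bi, Matrix.of_apply, Sum.elim_inl]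
      rw [if_pos hb, if_neg hjb]
    have hBi' : ¬ ((j : ℕ) + 1 = n) → ¬ ((j : ℕ) = n) → Bi n (Sum.inr ()) j = 0 := by
      intro h1 h2
      simp only [Bi, Matrix.of_apply, Sum.elim_inr]
      rw [if_neg h1, if_neg h2]
    rcases p with a | a <;> rcases q with b | b
    · simp only [bk, Matrix.fromBlocks_apply₁₁, Matrix.of_apply]
      rcases Nat.lt_or_ge (a : ℕ) n with ha | ha
      · rw [hw a ha]; ring
      rcases Nat.lt_or_ge ((b : ℕ) + 1) n with hb | hb
      · by_cases hia : (i : ℕ) = (a : ℕ) + 1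
        · rw [hBi b hb (by omega)]
          simp
        · rw [hBs a ha hia]
          simp
      · rw [hF b hb]; ring
    · simp only [bk, Matrix.fromBlocks_apply₁₂, Matrix.of_apply]
      rcases Nat.lt_or_ge (a : ℕ) n with ha | ha
      · rw [hw a ha]; ring
      by_cases hia : (i : ℕ) = (a : ℕ) + 1
      · rw [show b = () from rfl, hBi' (by omega) (by omega)]
        simp
      · rw [hBs a ha hia]
        simp
    · simp only [bk, Matrix.fromBlocks_apply₂₁, Matrix.of_apply]
      rcases Nat.lt_or_ge ((b : ℕ) + 1) n with hb | hb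
      · by_cases hjb : (j : ℕ) = (b : ℕ)
        · rw [show a = () from rfl, hBs' (by omega) (by omega)]
          simp
        · rw [hBi b hb hjb]
          simp
      · rw [hF b hb]; ring
    · simp only [bk, Matrix.fromBlocks_apply₂₂, Matrix.of_apply]
      ring
  rw [hdec, cB_add, cB_one hn]
  refine ⟨fun i j hij => ?_, fun i => ?_⟩
  · rw [Matrix.add_apply, key i j hij.le, Matrix.one_apply_ne hij.ne, add_zero]
  · rw [Matrix.add_apply, key i i le_rfl, Matrix.one_apply_eq, add_zero]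

theorem tdb3_dot (u u' : Fin (2 * n - 1) → R) :
    ∑ l, fl u l * u' l = ∑ l, u l * fl u' l := by
  rw [← Equiv.sum_comp Fin.revPerm]
  refine Finset.sum_congr rfl fun l _ => ?_
  rw [Fin.revPerm_apply, tdb3_fl, tdb3_fl, tdb3_ka_rev, Fin.rev_rev]
  ring

theorem tdb3_fl_mul (X : Matrix (Fin (2 * n - 1)) (Fin (2 * n - 1)) R) (w : Fin (2 * n - 1) → R)
    (j : Fin (2 * n - 1)) :
    ∑ l, fl w l * X l j = tdb3_ka R n j * ∑ l, st X (Fin.rev j) l * w l := by
  rw [Finset.mul_sum, ← Equiv.sum_comp Fin.revPerm]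
  refine Finset.sum_congr rfl fun l _ => ?_
  rw [Fin.revPerm_apply, tdb3_fl, Fin.rev_rev, Pool.Agent.MP_c45d35_ag.st_apply, Fin.rev_rev,
    tdb3_ka_rev]
  have h1 := tdb3_ka_sign (R := R) (n := n) ((Fin.rev j : Fin (2 * n - 1)) : ℕ) (l : ℕ)
  rw [tdb3_ka_rev] at h1
  rw [← h1]
  ring

omit [Algebra ℂ R] in
theorem tdb3_dx_rev (x : Fin n → R) (i : Fin (2 * n - 1)) : dx x (Fin.rev i) = - dx x i := by
  have hi := i.2
  unfold dx
  rcases Nat.lt_trichotomy ((i : ℕ) + 1) n with h | h | h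
  · rw [dif_neg (by rw [Fin.val_rev]; omega), dif_neg (by rw [Fin.val_rev]; omega), dif_pos h]
    congr 2
    apply Fin.ext
    simp only [Fin.val_rev]
    omega
  · rw [dif_neg (by rw [Fin.val_rev]; omega), dif_pos (by rw [Fin.val_rev]; omega),
      dif_neg (by omega), dif_pos h, neg_zero]
  · rw [dif_pos (by rw [Fin.val_rev]; omega), dif_neg (by omega), dif_neg (by omega), neg_neg]
    congr 1
    apply Fin.ext
    simp only [Fin.val_rev]
    omega

omit [Algebra ℂ R] in
theorem tdb3_st_M0 (x : Fin n → R) :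
    st (Pool.Agent.MP_c45d35_ag.em R (2 * n - 1) + Matrix.diagonal (dx x)) = - (Pool.Agent.MP_c45d35_ag.em R (2 * n - 1) + Matrix.diagonal (dx x)) := by
  rw [Pool.Agent.MP_c45d35_ag.st_add,
    (Pool.Agent.MP_c45d35_ag.isLie_iff_st _).1 Pool.Agent.MP_c45d35_ag.isLie_em,
    Pool.Agent.MP_c45d35_ag.st_diagonal, neg_add]
  congr 1
  ext i j
  rw [Matrix.neg_apply, Matrix.diagonal_apply, Matrix.diagonal_apply]
  split_ifs
  · exact tdb3_dx_rev x i
  · simp

omit [Algebra ℂ R] in
theorem tdb3_wx_lt (x : Fin n → R) (j : Fin (2 * n - 1)) (hj : (j : ℕ) < n) : wx x j = 0 := by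
  unfold wx
  rw [if_neg (by omega)]

theorem tdb3_M0_wx (hn : 2 ≤ n) (x : Fin n → R) (i : Fin (2 * n - 1)) :
    ∑ l, (Pool.Agent.MP_c45d35_ag.em R (2 * n - 1) + Matrix.diagonal (dx x)) i l * wx x l =
      (if h : (i : ℕ) + 1 = n then 2 * x ⟨i, by omega⟩ else 0) -
        (2 * ∏ k, x k) * (if (i : ℕ) + 2 = 2 * n then 1 else 0) := by
  have hi := i.2
  have h1 : ∑ l, (Pool.Agent.MP_c45d35_ag.em R (2 * n - 1) + Matrix.diagonal (dx x)) i l * wx x l =
      (∑ l, Pool.Agent.MP_c45d35_ag.em R (2 * n - 1) i l * wx x l) + dx x i * wx x i := by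
    simp only [Matrix.add_apply, add_mul, Finset.sum_add_distrib]
    congr 1
    rw [Finset.sum_eq_single i]
    · rw [Matrix.diagonal_apply_eq]
    · intro b _ hb
      rw [Matrix.diagonal_apply_ne _ (Ne.symm hb), zero_mul]
    · intro h
      exact absurd (Finset.mem_univ _) h
  have h2 : ∀ hi' : (i : ℕ) + 1 < 2 * n - 1, (∑ l, Pool.Agent.MP_c45d35_ag.em R (2 * n - 1) i l * wx x l) =
      wx x ⟨(i : ℕ) + 1, hi'⟩ := by
    intro hi'
    rw [Finset.sum_eq_single ⟨(i : ℕ) + 1, hi'⟩]
    · simp [Pool.Agent.MP_c45d35_ag.em]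
    · intro b _ hb
      have : ¬ ((b : ℕ) = (i : ℕ) + 1) := fun h => hb (Fin.ext h)
      simp [Pool.Agent.MP_c45d35_ag.em, this]
    · intro h
      exact absurd (Finset.mem_univ _) h
  have h3 : ¬ ((i : ℕ) + 1 < 2 * n - 1) → (∑ l, Pool.Agent.MP_c45d35_ag.em R (2 * n - 1) i l * wx x l) = 0 := by
    intro hi'
    refine Finset.sum_eq_zero fun l _ => ?_
    have hl := l.2
    have : ¬ ((l : ℕ) = (i : ℕ) + 1) := by omega
    simp [Pool.Agent.MP_c45d35_ag.em, this]
  rw [h1]
  rcases Nat.lt_trichotomy ((i : ℕ) + 1) n with h | h | h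
  · rw [h2 (by omega), tdb3_wx_lt x _ h, tdb3_wx_lt x i (by omega), dif_neg (by omega),
      if_neg (by omega)]
    ring
  · rw [h2 (by omega), tdb3_wx_lt x i (by omega), dif_pos h, if_neg (by omega)]
    unfold wx
    rw [if_pos (by simp only; omega)]
    have hf : (Finset.univ.filter (fun l : Fin n =>
        2 * n - 1 ≤ ((⟨(i : ℕ) + 1, by omega⟩ : Fin (2 * n - 1)) : ℕ) + (l : ℕ))) =
        {(⟨(i : ℕ), by omega⟩ : Fin n)} := by
      ext l
      have hl := l.2
      simp only [Finset.mem_filter, Finset.mem_univ, true_and, Finset.mem_singleton, Fin.ext_iff]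
      omega
    rw [hf, Finset.prod_singleton]
    ring
  · rw [dif_neg (by omega)]
    have hd : dx x i = - x ⟨2 * n - 2 - i, by omega⟩ := by
      unfold dx
      rw [dif_neg (by omega), dif_neg (by omega)]
    rw [hd]
    by_cases hi' : (i : ℕ) + 1 < 2 * n - 1
    · rw [h2 hi', if_neg (by omega)]
      unfold wx
      rw [if_pos (by simp only; omega), if_pos (by omega)]
      have hf : (Finset.univ.filter (fun l : Fin n =>
          2 * n - 1 ≤ ((⟨(i : ℕ) + 1, hi'⟩ : Fin (2 * n - 1)) : ℕ) + (l : ℕ))) =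
          insert (⟨2 * n - 2 - (i : ℕ), by omega⟩ : Fin n)
            (Finset.univ.filter (fun l : Fin n => 2 * n - 1 ≤ (i : ℕ) + (l : ℕ))) := by
        ext l
        have hl := l.2
        simp only [Finset.mem_filter, Finset.mem_univ, true_and, Finset.mem_insert, Fin.ext_iff]
        omega
      rw [hf, Finset.prod_insert (by
        simp only [Finset.mem_filter, Finset.mem_univ, true_and]
        omega)]
      ring
    · rw [h3 hi', if_pos (by omega)]
      unfold wx
      rw [if_pos (by omega)]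
      have hf : (Finset.univ : Finset (Fin n)) =
          insert (⟨2 * n - 2 - (i : ℕ), by omega⟩ : Fin n)
            (Finset.univ.filter (fun l : Fin n => 2 * n - 1 ≤ (i : ℕ) + (l : ℕ))) := by
        ext l
        have hl := l.2
        simp only [Finset.mem_filter, Finset.mem_univ, true_and, true_iff, Finset.mem_insert,
          Fin.ext_iff]
        omega
      have hp : ∏ k, x k = x ⟨2 * n - 2 - (i : ℕ), by omega⟩ *
          ∏ l ∈ Finset.univ.filter (fun l : Fin n => 2 * n - 1 ≤ (i : ℕ) + (l : ℕ)), x l := by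
        have hnm : (⟨2 * n - 2 - (i : ℕ), by omega⟩ : Fin n) ∉
            Finset.univ.filter (fun l : Fin n => 2 * n - 1 ≤ (i : ℕ) + (l : ℕ)) := by
          simp only [Finset.mem_filter, Finset.mem_univ, true_and]
          omega
        rw [← Finset.prod_insert hnm, ← hf]
      rw [hp]
      ring

theorem nW_step (hn : 2 ≤ n) (x : Fin n → R) :
    ∃ M₁ : Matrix (Fin (2 * n - 1)) (Fin (2 * n - 1)) R, IsHess M₁ ∧ IsLie M₁ ∧
      nW (wx x) * bk (Pool.Agent.MP_c45d35_ag.em R _ + Matrix.diagonal (dx x))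
        (fun i => if h : (i : ℕ) + 1 = n then 2 * x ⟨i, by omega⟩ else 0)
        (fun i => if h : (i : ℕ) + 1 = n then algebraMap ℂ R (1 / 2) * x ⟨i, by omega⟩ else 0) 0 =
        Blk M₁ (2 * ∏ k, x k) * nW (wx x) := by
  set w : Fin (2 * n - 1) → R := wx x with hwdef
  set v : Fin (2 * n - 1) → R := fun i => if h : (i : ℕ) + 1 = n then 2 * x ⟨i, by omega⟩ else 0
    with hvdef
  set e : Fin (2 * n - 1) → R := fun i => if (i : ℕ) + 2 = 2 * n then 1 else 0 with hedef
  set c : R := 2 * ∏ k, x k with hcdef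
  set M₀ : Matrix (Fin (2 * n - 1)) (Fin (2 * n - 1)) R := Pool.Agent.MP_c45d35_ag.em R _ + Matrix.diagonal (dx x) with hM₀
  set s : Fin (2 * n - 1) → R := fun i => v i + c * e i with hsdef
  set q := algebraMap ℂ R (1 / 4) with hq
  have hq2 : algebraMap ℂ R (1 / 2) = 2 * q := tdb3_q
  have hq4 : 4 * q = 1 := tdb3_q4
  have hw0 : ∀ j : Fin (2 * n - 1), (j : ℕ) < n → w j = 0 := fun j hj => tdb3_wx_lt x j hj
  have hF0 : ∀ j : Fin (2 * n - 1), n ≤ (j : ℕ) + 1 → fl w j = 0 := by
    intro j hj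
    rw [tdb3_fl, hw0 (Fin.rev j) (by rw [Fin.val_rev]; omega), mul_zero]
  have hww : ∑ l, fl w l * w l = 0 := Finset.sum_eq_zero fun l _ => tdb3_ww w hw0 l
  have hkn : tdb3_ka R n (n - 1) = 2 * q := by
    rw [← hq2]
    unfold tdb3_ka
    congr 1
    rw [← two_mul, pow_mul]
    simp
  have hflv : ∀ j, fl v j = if h : (j : ℕ) + 1 = n then x ⟨j, by omega⟩ else 0 := by
    intro j
    have hj := j.2
    rw [tdb3_fl]
    by_cases h : (j : ℕ) + 1 = n
    · have hrev : ((Fin.rev j : Fin (2 * n - 1)) : ℕ) + 1 = n := by rw [Fin.val_rev]; omega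
      rw [dif_pos h]
      have hv1 : v (Fin.rev j) = 2 * x ⟨j, by omega⟩ := by
        rw [hvdef]
        simp only
        rw [dif_pos hrev]
        congr 2
        apply Fin.ext
        simp only [Fin.val_rev]
        omega
      have hkj : tdb3_ka R n (j : ℕ) = 2 * q := by
        rw [show (j : ℕ) = n - 1 by omega, hkn]
      rw [hv1, hkj]
      linear_combination (x ⟨j, by omega⟩) * hq4
    · have hrev : ¬ (((Fin.rev j : Fin (2 * n - 1)) : ℕ) + 1 = n) := by rw [Fin.val_rev]; omega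
      rw [dif_neg h]
      have hv1 : v (Fin.rev j) = 0 := by
        rw [hvdef]
        simp only
        rw [dif_neg hrev]
      rw [hv1, mul_zero]
  have hfle : ∀ j, fl e j = if (j : ℕ) = 0 then algebraMap ℂ R ((-1) ^ (n - 1) / 2) else 0 := by
    intro j
    have hj := j.2
    rw [tdb3_fl, hedef]
    simp only [Fin.val_rev]
    by_cases h : (j : ℕ) = 0
    · rw [if_pos h, if_pos (by omega), mul_one, h]
      rfl
    · rw [if_neg h, if_neg (by omega), mul_zero]
  have hM₀w : ∀ i, ∑ l, M₀ i l * w l = v i - c * e i := fun i => tdb3_M0_wx hn x i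
  have hwM₀ : ∀ j, ∑ l, fl w l * M₀ l j = - fl v j + c * fl e j := by
    intro j
    have h1 : ∑ l, (- M₀) (Fin.rev j) l * w l = - (v (Fin.rev j) - c * e (Fin.rev j)) := by
      rw [← hM₀w, ← Finset.sum_neg_distrib]
      exact Finset.sum_congr rfl fun l _ => by rw [Matrix.neg_apply]; ring
    rw [tdb3_fl_mul, hM₀, tdb3_st_M0, ← hM₀, h1, tdb3_fl, tdb3_fl]
    ring
  have hFv : ∑ l, fl w l * v l = 0 := by
    refine Finset.sum_eq_zero fun l _ => ?_
    rcases Nat.lt_or_ge ((l : ℕ) + 1) n with h | h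
    · have : v l = 0 := by
        rw [hvdef]
        simp only
        rw [dif_neg (by omega)]
      rw [this, mul_zero]
    · rw [hF0 l h, zero_mul]
  have hFe : ∑ l, fl w l * e l = 0 := by
    refine Finset.sum_eq_zero fun l _ => ?_
    rcases Nat.lt_or_ge ((l : ℕ) + 1) n with h | h
    · have : e l = 0 := by
        rw [hedef]
        simp only
        rw [if_neg (by omega)]
      rw [this, mul_zero]
    · rw [hF0 l h, zero_mul]
  have hfls : ∀ j, fl s j = fl v j + c * fl e j := by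
    intro j
    rw [tdb3_fl, tdb3_fl, tdb3_fl]
    ring
  have hFs : ∑ l, fl w l * s l = 0 := by
    have : ∑ l, fl w l * s l = (∑ l, fl w l * v l) + c * ∑ l, fl w l * e l := by
      rw [Finset.mul_sum, ← Finset.sum_add_distrib]
      exact Finset.sum_congr rfl fun l _ => by rw [hsdef]; ring
    rw [this, hFv, hFe]
    ring
  have hSw : ∑ l, fl s l * w l = 0 := by
    rw [tdb3_dot, ← hFs]
    exact Finset.sum_congr rfl fun l _ => mul_comm _ _
  have hs0 : ∀ i : Fin (2 * n - 1), (i : ℕ) + 1 < n → s i = 0 := by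
    intro i hi
    rw [hsdef, hvdef, hedef]
    simp only
    rw [dif_neg (by omega), if_neg (by omega)]
    ring
  have hfls0 : ∀ j : Fin (2 * n - 1), n ≤ (j : ℕ) → fl s j = 0 := by
    intro j hj
    rw [hfls, hflv, hfle, dif_neg (by omega), if_neg (by omega)]
    ring
  refine ⟨M₀ + Matrix.of fun i j => q * (w i * fl s j - s i * fl w j), ?_, ?_, ?_⟩
  · -- Hessenberg
    have hcor : ∀ i j : Fin (2 * n - 1), (i : ℕ) ≤ (j : ℕ) →
        q * (w i * fl s j - s i * fl w j) = 0 := by
      intro i j hij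
      have h1 : w i * fl s j = 0 := by
        rcases Nat.lt_or_ge (i : ℕ) n with h | h
        · rw [hw0 i h, zero_mul]
        · rw [hfls0 j (by omega), mul_zero]
      have h2 : s i * fl w j = 0 := by
        rcases Nat.lt_or_ge ((i : ℕ) + 1) n with h | h
        · rw [hs0 i h, zero_mul]
        · rw [hF0 j (by omega), mul_zero]
      rw [h1, h2]
      ring
    constructor
    · intro i j h
      rw [Matrix.add_apply, Matrix.of_apply, hcor i j (by omega), hM₀, Matrix.add_apply,
        Matrix.diagonal_apply_ne _ (by intro h'; rw [h'] at h; omega)]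
      simp [Pool.Agent.MP_c45d35_ag.em, h]
    · intro i j h
      rw [Matrix.add_apply, Matrix.of_apply, hcor i j (by omega), hM₀, Matrix.add_apply,
        Matrix.diagonal_apply_ne _ (by intro h'; rw [h'] at h; omega)]
      have : ¬ ((j : ℕ) = (i : ℕ) + 1) := by omega
      simp [Pool.Agent.MP_c45d35_ag.em, this]
  · -- Lie
    rw [Pool.Agent.MP_c45d35_ag.isLie_iff_st]
    have e1 : (Matrix.of fun i j => q * (w i * fl s j - s i * fl w j) :
        Matrix (Fin (2 * n - 1)) (Fin (2 * n - 1)) R) =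
        q • ((Matrix.of fun i j => w i * fl s j) - (Matrix.of fun i j => s i * fl w j)) := by
      ext i j
      rfl
    rw [Pool.Agent.MP_c45d35_ag.st_add, e1, Pool.Agent.MP_c45d35_ag.st_smul,
      Pool.Agent.MP_c45d35_ag.st_sub, tdb3_st_vec, tdb3_st_vec, hM₀, tdb3_st_M0,
      neg_add (Pool.Agent.MP_c45d35_ag.em R (2 * n - 1) + Matrix.diagonal (dx x)), ← smul_neg, neg_sub]
  · -- conjugation
    have hc' : (fun i : Fin (2 * n - 1) => if h : (i : ℕ) + 1 = n then
        algebraMap ℂ R (1 / 2) * x ⟨i, by omega⟩ else 0) = fun i => 2 * q * fl v i := by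
      funext i
      rw [hflv, ← hq2]
      split_ifs
      · rfl
      · ring
    rw [hc']
    have hb : (fun i : Fin (2 * n - 1) => if (i : ℕ) + 2 = 2 * n then c else 0) =
        fun i => c * e i := by
      funext i
      rw [hedef]
      simp only
      split_ifs <;> ring
    have hk : algebraMap ℂ R ((-1) ^ (n - 1) / 4) = 2 * q * algebraMap ℂ R ((-1) ^ (n - 1) / 2) := by
      rw [← hq2, ← map_mul]
      congr 1
      ring
    have hcc : (fun j : Fin (2 * n - 1) => if (j : ℕ) = 0 then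
        algebraMap ℂ R ((-1) ^ (n - 1) / 4) * c else 0) = fun j => 2 * q * (c * fl e j) := by
      funext j
      rw [hfle, hk]
      split_ifs <;> ring
    have hBlk : Blk (M₀ + Matrix.of fun i j => q * (w i * fl s j - s i * fl w j)) c =
        bk (M₀ + Matrix.of fun i j => q * (w i * fl s j - s i * fl w j)) (fun i => c * e i)
          (fun j => 2 * q * (c * fl e j)) 0 := by
      unfold Blk
      rw [hb, hcc]
    have hnW : nW w = bk (1 + Matrix.of fun i j => q * (w i * fl w j)) w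
        (fun j => 2 * q * fl w j) 1 := by
      unfold nW
      rw [hq2]
    rw [hBlk, hnW, tdb3_bk_mul, tdb3_bk_mul]
    -- the four blocks
    have hAl : ∀ (i : Fin (2 * n - 1)) (g : Fin (2 * n - 1) → R),
        ∑ l, (1 + Matrix.of fun i j => q * (w i * fl w j) :
          Matrix (Fin (2 * n - 1)) (Fin (2 * n - 1)) R) i l * g l =
          g i + q * w i * ∑ l, fl w l * g l := by
      intro i g
      simp only [Matrix.add_apply, Matrix.of_apply, add_mul, Finset.sum_add_distrib]
      congr 1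
      · simp [Matrix.one_apply]
      · rw [Finset.mul_sum]
        exact Finset.sum_congr rfl fun l _ => by ring
    have hAr : ∀ (j : Fin (2 * n - 1)) (g : Fin (2 * n - 1) → R),
        ∑ l, g l * (1 + Matrix.of fun i j => q * (w i * fl w j) :
          Matrix (Fin (2 * n - 1)) (Fin (2 * n - 1)) R) l j =
          g j + q * (∑ l, g l * w l) * fl w j := by
      intro j g
      simp only [Matrix.add_apply, Matrix.of_apply, mul_add, Finset.sum_add_distrib]
      congr 1
      · simp [Matrix.one_apply]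
      · rw [Finset.mul_sum, Finset.sum_mul]
        exact Finset.sum_congr rfl fun l _ => by ring
    have hM₁w : ∀ i, ∑ l, (M₀ + Matrix.of fun i j => q * (w i * fl s j - s i * fl w j)) i l * w l =
        v i - c * e i := by
      intro i
      have : ∑ l, (M₀ + Matrix.of fun i j => q * (w i * fl s j - s i * fl w j)) i l * w l =
          (∑ l, M₀ i l * w l) + q * w i * (∑ l, fl s l * w l) - q * s i * ∑ l, fl w l * w l := by
        rw [Finset.mul_sum, Finset.mul_sum, ← Finset.sum_add_distrib, ← Finset.sum_sub_distrib]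
        refine Finset.sum_congr rfl fun l _ => ?_
        rw [Matrix.add_apply, Matrix.of_apply]
        ring
      rw [this, hM₀w, hSw, hww]
      ring
    congr 1
    · ext i j
      rw [Matrix.add_apply, Matrix.add_apply, Matrix.mul_apply, Matrix.mul_apply, Matrix.of_apply,
        Matrix.of_apply, hAl i (fun l => M₀ l j), hwM₀,
        hAr j (fun l => (M₀ + Matrix.of fun i j => q * (w i * fl s j - s i * fl w j)) i l), hM₁w,
        Matrix.add_apply, Matrix.of_apply, hfls, hsdef]
      simp only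
      ring
    · funext i
      rw [hAl i v, hFv, hM₁w]
      ring
    · funext j
      have h1 : ∑ l, 2 * q * fl w l * M₀ l j = 2 * q * (- fl v j + c * fl e j) := by
        rw [← hwM₀, Finset.mul_sum]
        exact Finset.sum_congr rfl fun l _ => by ring
      have h2 : ∑ l, 2 * q * (c * fl e l) * w l = 0 := by
        have h3 : ∑ l, fl e l * w l = 0 := by
          rw [tdb3_dot, ← hFe]
          exact Finset.sum_congr rfl fun l _ => mul_comm _ _
        have h4 : ∑ l, 2 * q * (c * fl e l) * w l = 2 * q * c * ∑ l, fl e l * w l := by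
          rw [Finset.mul_sum]
          exact Finset.sum_congr rfl fun l _ => by ring
        rw [h4, h3, mul_zero]
      rw [h1, hAr j (fun l => 2 * q * (c * fl e l)), h2]
      ring
    · have h1 : ∑ l, 2 * q * fl w l * v l = 0 := by
        have h4 : ∑ l, 2 * q * fl w l * v l = 2 * q * ∑ l, fl w l * v l := by
          rw [Finset.mul_sum]
          exact Finset.sum_congr rfl fun l _ => by ring
        rw [h4, hFv, mul_zero]
      have h2 : ∑ l, 2 * q * (c * fl e l) * w l = 0 := by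
        have h3 : ∑ l, fl e l * w l = 0 := by
          rw [tdb3_dot, ← hFe]
          exact Finset.sum_congr rfl fun l _ => mul_comm _ _
        have h4 : ∑ l, 2 * q * (c * fl e l) * w l = 2 * q * c * ∑ l, fl e l * w l := by
          rw [Finset.mul_sum]
          exact Finset.sum_congr rfl fun l _ => by ring
        rw [h4, h3, mul_zero]
      rw [h1, h2]
      ring

end

end Pool.Agent.MTD.TD
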