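import Pool.Agent.MTD.TDB1
import Pool.Agent.MTD.TDB2

/-! # MTD : type `D`, the slice in block coordinates (row D-S4) -/

namespace Pool.Agent.MTD.TD

open Matrix
open Pool.Agent.MP_c45d35_ag (chi UpUni LowUni IsHess IsLie st Jm fm)
open Pool.Agent.MP_c45d35_ag.SL (Sl)


section
variable {n : ℕ}

/-! ### helpers -/

theorem tdb4_toBlocks (Y : Matrix (IB n) (IB n) ℂ) : ∃ (A : Matrix (Fin (2 * n - 1)) (Fin (2 * n - 1)) ℂ)
    (b c : Fin (2 * n - 1) → ℂ) (d : ℂ), Y = bk A b c d := by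
  refine ⟨Y.toBlocks₁₁, fun i => Y (Sum.inl i) (Sum.inr ()), fun j => Y (Sum.inr ()) (Sum.inl j),
    Y (Sum.inr ()) (Sum.inr ()), ?_⟩
  ext p q
  rcases p with a | a <;> rcases q with b | b <;> rfl

theorem tdb4_bk_inj {A A' : Matrix (Fin (2 * n - 1)) (Fin (2 * n - 1)) ℂ}
    {b c b' c' : Fin (2 * n - 1) → ℂ} {d d' : ℂ} (h : bk A b c d = bk A' b' c' d') :
    A = A' ∧ b = b' ∧ c = c' ∧ d = d' := by
  refine ⟨?_, ?_, ?_, ?_⟩
  · ext i j
    exact congrFun (congrFun h (Sum.inl i)) (Sum.inl j)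
  · funext i
    exact congrFun (congrFun h (Sum.inl i)) (Sum.inr ())
  · funext j
    exact congrFun (congrFun h (Sum.inr ())) (Sum.inl j)
  · exact congrFun (congrFun h (Sum.inr ())) (Sum.inr ())

theorem tdb4_bk_mul (A A' : Matrix (Fin (2 * n - 1)) (Fin (2 * n - 1)) ℂ)
    (b c b' c' : Fin (2 * n - 1) → ℂ) (d d' : ℂ) :
    bk A b c d * bk A' b' c' d' =
      bk (A * A' + Matrix.of fun i j => b i * c' j) (fun i => (∑ l, A i l * b' l) + b i * d')
        (fun j => (∑ l, c l * A' l j) + d * c' j) ((∑ l, c l * b' l) + d * d') := by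
  unfold bk
  rw [Matrix.fromBlocks_multiply]
  congr 1 <;>
  · ext i j
    simp [Matrix.mul_apply]

theorem tdb4_bk_neg (A : Matrix (Fin (2 * n - 1)) (Fin (2 * n - 1)) ℂ)
    (b c : Fin (2 * n - 1) → ℂ) (d : ℂ) :
    - bk A b c d = bk (-A) (fun i => - b i) (fun j => - c j) (-d) := by
  ext p q
  rcases p with a | a <;> rcases q with b | b <;> rfl

theorem tdb4_bk_sub (A A' : Matrix (Fin (2 * n - 1)) (Fin (2 * n - 1)) ℂ)
    (b c : Fin (2 * n - 1) → ℂ) (d : ℂ) :
    bk A b c d - bk A' 0 0 0 = bk (A - A') b c d := by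
  ext p q
  rcases p with a | a <;> rcases q with b | b <;> simp [bk]

theorem tdb4_cB_neg (Y : Matrix (IB n) (IB n) ℂ) : cB (-Y) = - cB Y := by
  have h := cB_sub (R := ℂ) (0 : Matrix (IB n) (IB n) ℂ) Y
  have h0 : cB (0 : Matrix (IB n) (IB n) ℂ) = 0 := by
    have := cB_sub (R := ℂ) (0 : Matrix (IB n) (IB n) ℂ) 0
    rw [sub_self, sub_self] at this
    exact this
  rw [zero_sub, h0, zero_sub] at h
  exact h

theorem tdb4_pm (m : ℕ) : ((-1 : ℂ) ^ m) * (-1) ^ m = 1 := by
  rw [← mul_pow]; simp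

/-- `8 · ((-1)^(n-1)/2) · ((-1)^(n-1)/4) = 1`. -/
theorem tdb4_fl_top (c : ℂ) (i : Fin (2 * n - 1)) :
    8 * fl (fun j : Fin (2 * n - 1) => if (j : ℕ) = 0 then (-1) ^ (n - 1) / 4 * c else 0) i =
      (if (i : ℕ) + 2 = 2 * n then c else 0) := by
  have hi := i.2
  unfold fl
  simp only [Fin.val_rev]
  by_cases h : (i : ℕ) + 2 = 2 * n
  · rw [if_pos (by omega), if_pos h, show n - 1 + (i : ℕ) = n - 1 + 2 * (n - 1) by omega]
    have h1 := tdb4_pm (n - 1)
    rw [pow_add, pow_mul]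
    simp only [Algebra.algebraMap_self, RingHom.id_apply]
    have h2 : ((-1 : ℂ) ^ 2) ^ (n - 1) = 1 := by simp
    rw [h2]
    linear_combination c * h1
  · rw [if_neg (by omega), if_neg h]
    simp

theorem tdb4_fl_bot (c : ℂ) (j : Fin (2 * n - 1)) :
    (1 / 2 : ℂ) * fl (fun i : Fin (2 * n - 1) => if (i : ℕ) + 2 = 2 * n then c else 0) j =
      (if (j : ℕ) = 0 then (-1) ^ (n - 1) / 4 * c else 0) := by
  have hj := j.2
  unfold fl
  simp only [Fin.val_rev]
  by_cases h : (j : ℕ) = 0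
  · rw [if_pos (by omega), if_pos h, h, Nat.add_zero]
    simp only [Algebra.algebraMap_self, RingHom.id_apply]
    ring
  · rw [if_neg (by omega), if_neg h]
    simp

theorem tdb4_Blk (M : Matrix (Fin (2 * n - 1)) (Fin (2 * n - 1)) ℂ) (c : ℂ) :
    Blk M c = bk M (fun i => if (i : ℕ) + 2 = 2 * n then c else 0)
      (fun j => if (j : ℕ) = 0 then (-1) ^ (n - 1) / 4 * c else 0) 0 := by
  unfold Blk
  simp only [Algebra.algebraMap_self, RingHom.id_apply]

/-- Elements of the slice. -/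
theorem Blk_mem_sliceD (hn : 2 ≤ n) (a : Fin ((2 * n - 1) / 2) → ℂ) (c : ℂ) :
    cB (Blk (Sl a) c) ∈ sliceD n := by
  have hL : st (Sl a) = - Sl a :=
    (Pool.Agent.MP_c45d35_ag.isLie_iff_st _).1 (Pool.Agent.MP_c45d35_ag.SL.isLie_Sl a)
  constructor
  · rw [tdb4_Blk, sd_cB (by omega), ← tdb4_cB_neg, tdb4_bk_neg, hL]
    congr 2
    · funext i
      rw [tdb4_fl_top]
    · funext j
      simp only [Algebra.algebraMap_self, RingHom.id_apply]
      rw [tdb4_fl_bot]
    · simp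
  · rw [tdb4_Blk, ← eD_cB hn, ← fD_cB hn, ← cB_sub, tdb4_bk_sub]
    have hc := Pool.Agent.MP_c45d35_ag.SL.commute_Sl_sub a
    unfold Commute SemiconjBy at hc ⊢
    rw [← cB_mul (by omega), ← cB_mul (by omega)]
    congr 1
    rw [tdb4_bk_mul, tdb4_bk_mul]
    congr 1
    · rw [hc]
      congr 1
      ext i j
      simp
    · funext i
      have hi := i.2
      have h1 : ∑ l, (fm ℂ (2 * n - 1)) i l *
          (if (l : ℕ) + 2 = 2 * n then c else 0) = 0 := by
        refine Finset.sum_eq_zero fun l _ => ?_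
        rw [Pool.Agent.MP_c45d35_ag.SL.fm_apply]
        by_cases h : (l : ℕ) + 2 = 2 * n
        · rw [if_neg (by omega), zero_mul]
        · rw [if_neg h, mul_zero]
      rw [h1]
      simp
    · funext j
      have h1 : ∑ l : Fin (2 * n - 1), (if (l : ℕ) = 0 then (-1) ^ (n - 1) / 4 * c else 0) *
          (fm ℂ (2 * n - 1)) l j = 0 := by
        refine Finset.sum_eq_zero fun l _ => ?_
        rw [Pool.Agent.MP_c45d35_ag.SL.fm_apply]
        by_cases h : (l : ℕ) = 0
        · rw [if_neg (by omega : ¬ (l : ℕ) = (j : ℕ) + 1), mul_zero]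
        · rw [if_neg h, zero_mul]
      rw [h1]
      simp
    · simp

/-- All elements of the slice.  Proof: for `s ∈ sliceD n` write `s - e = cB Y`, `Y = bk A b c' d`;
`sd` gives `st A = -A`, `c' = ½ fl b`, `d = 0`; commuting with `fm ⊕ 0` gives `A` commutes with `fm`
(so `Pool.Agent.MP_c45d35_ag.em + A = Sl a` by `Pool.Agent.MP_c45d35_ag.SL.exists_Sl`) and `fm b = 0`, so `b = c e_last`. -/
theorem exists_Blk (hn : 2 ≤ n) {s : Matrix (Fin (2 * n)) (Fin (2 * n)) ℂ} (hs : s ∈ sliceD n) :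
    ∃ (a : Fin ((2 * n - 1) / 2) → ℂ) (c : ℂ), s = cB (Blk (Sl a) c) := by
  obtain ⟨hs1, hs2⟩ := hs
  obtain ⟨Y, rfl⟩ := cB_surjective (by omega) s
  obtain ⟨A, b, c', d, rfl⟩ := tdb4_toBlocks Y
  rw [sd_cB (by omega), ← tdb4_cB_neg, tdb4_bk_neg] at hs1
  obtain ⟨hA, hb, hc', hd⟩ := tdb4_bk_inj (cB_injective (by omega) hs1)
  have hd0 : d = 0 := by linear_combination hd / 2
  subst hd0
  rw [← eD_cB hn, ← fD_cB hn, ← cB_sub, tdb4_bk_sub] at hs2
  unfold Commute SemiconjBy at hs2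
  rw [← cB_mul (by omega), ← cB_mul (by omega)] at hs2
  have h2 := cB_injective (by omega) hs2
  rw [tdb4_bk_mul, tdb4_bk_mul] at h2
  obtain ⟨h3, h4, -, -⟩ := tdb4_bk_inj h2
  have hAs : A ∈ Pool.Agent.MP_c45d35_ag.slice (2 * n - 1) := by
    refine ⟨(Pool.Agent.MP_c45d35_ag.isLie_iff_st _).2 hA, ?_⟩
    unfold Commute SemiconjBy
    have e1 : (Matrix.of fun i j => b i * (0 : Fin (2 * n - 1) → ℂ) j :
        Matrix (Fin (2 * n - 1)) (Fin (2 * n - 1)) ℂ) = 0 := by
      ext i j; simp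
    have e2 : (Matrix.of fun i j => (0 : Fin (2 * n - 1) → ℂ) i * c' j :
        Matrix (Fin (2 * n - 1)) (Fin (2 * n - 1)) ℂ) = 0 := by
      ext i j; simp
    rw [e1, e2, add_zero, add_zero] at h3
    exact h3
  obtain ⟨a, ha⟩ := Pool.Agent.MP_c45d35_ag.SL.exists_Sl hAs
  have hb0 : ∀ l : Fin (2 * n - 1), (l : ℕ) + 2 ≠ 2 * n → b l = 0 := by
    intro l hl
    have hl2 := l.2
    have h5 := congrFun h4 ⟨(l : ℕ) + 1, by omega⟩
    simp only [Pi.zero_apply, zero_mul, mul_zero, Finset.sum_const_zero, add_zero, zero_add] at h5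
    rw [Finset.sum_eq_single l] at h5
    · rw [Pool.Agent.MP_c45d35_ag.SL.fm_apply, if_pos rfl] at h5
      have h6 : ((((l : ℕ) + 1) * (2 * n - 1 - ((l : ℕ) + 1)) : ℕ) : ℂ) ≠ 0 := by
        rw [Nat.cast_ne_zero]
        exact Nat.mul_ne_zero (by omega) (by omega)
      exact (mul_eq_zero.1 h5.symm).resolve_left h6
    · intro l' _ hl'
      rw [Pool.Agent.MP_c45d35_ag.SL.fm_apply, if_neg, zero_mul]
      intro h
      simp only at h
      exact hl' (Fin.ext (by omega))
    · intro h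
      exact absurd (Finset.mem_univ _) h
  refine ⟨a, b ⟨2 * n - 2, by omega⟩, ?_⟩
  have hbb : b = fun i : Fin (2 * n - 1) => if (i : ℕ) + 2 = 2 * n then b ⟨2 * n - 2, by omega⟩ else 0 := by
    funext i
    by_cases h : (i : ℕ) + 2 = 2 * n
    · rw [if_pos h]
      congr 1
      apply Fin.ext
      simp only
      omega
    · rw [if_neg h, hb0 i h]
  have hcc : c' = fun j : Fin (2 * n - 1) => if (j : ℕ) = 0 then (-1) ^ (n - 1) / 4 *
      b ⟨2 * n - 2, by omega⟩ else 0 := by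
    funext j
    have h5 := congrFun hc' j
    simp only [Algebra.algebraMap_self, RingHom.id_apply] at h5
    rw [← tdb4_fl_bot, ← hbb]
    linear_combination h5
  rw [tdb4_Blk, ← ha, ← hbb, ← hcc]

theorem tdb4_ev (x : Fin n → ℂ) (i : Fin (2 * n)) : ev (wtD i) x =
    (if h : (i : ℕ) < n then x ⟨i, h⟩ else 0) -
      (if h : ((Fin.rev i : Fin (2 * n)) : ℕ) < n then x ⟨(Fin.rev i : Fin (2 * n)), h⟩ else 0) := by
  have key : ∀ m : ℕ, ∑ k : Fin n, (if m = (k : ℕ) then (1 : ℂ) else 0) * x k =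
      (if h : m < n then x ⟨m, h⟩ else 0) := by
    intro m
    by_cases h : m < n
    · rw [dif_pos h, Finset.sum_eq_single ⟨m, h⟩]
      · simp
      · intro b _ hb
        rw [if_neg, zero_mul]
        intro h'
        exact hb (Fin.ext h'.symm)
      · intro h'
        exact absurd (Finset.mem_univ _) h'
    · rw [dif_neg h]
      refine Finset.sum_eq_zero fun k _ => ?_
      have hk := k.2
      rw [if_neg (by omega), zero_mul]
  rw [← key, ← key, ← Finset.sum_sub_distrib]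
  unfold ev
  refine Finset.sum_congr rfl fun k _ => ?_
  unfold wtD
  push_cast
  ring

theorem tdb4_prod (x : Fin n → ℂ) :
    (∏ i : Fin (2 * n), (Polynomial.X - Polynomial.C (ev (wtD i) x)) : Polynomial ℂ) =
      ∏ k : Fin n, (Polynomial.X ^ 2 - Polynomial.C (x k ^ 2)) := by
  set g : ℕ → Polynomial ℂ := fun i => Polynomial.X - Polynomial.C
    ((if h : i < n then x ⟨i, h⟩ else 0) -
      (if h : 2 * n - (i + 1) < n then x ⟨2 * n - (i + 1), h⟩ else 0)) with hg
  have h1 : ∀ i : Fin (2 * n), (Polynomial.X - Polynomial.C (ev (wtD i) x) : Polynomial ℂ) = g i := by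
    intro i
    rw [tdb4_ev, hg]
    simp only [Fin.val_rev]
  rw [Finset.prod_congr rfl fun i _ => h1 i, Fin.prod_univ_eq_prod_range g (2 * n), two_mul,
    Finset.prod_range_add, ← Fin.prod_univ_eq_prod_range g n,
    ← Fin.prod_univ_eq_prod_range (fun i => g (n + i)) n]
  have h2 : ∏ i : Fin n, (fun i => g (n + i)) (i : ℕ) =
      ∏ i : Fin n, (Polynomial.X + Polynomial.C (x i)) := by
    rw [← Equiv.prod_comp Fin.revPerm]
    refine Finset.prod_congr rfl fun i _ => ?_
    have hi := i.2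
    simp only [Fin.revPerm_apply, Fin.val_rev, hg]
    rw [dif_neg (by omega), dif_pos (by omega)]
    have e : (⟨2 * n - (n + (n - ((i : ℕ) + 1)) + 1), by omega⟩ : Fin n) = i :=
      Fin.ext (by simp only; omega)
    rw [e]
    simp
  have h3 : ∀ i : Fin n, g i = Polynomial.X - Polynomial.C (x i) := by
    intro i
    have hi := i.2
    simp only [hg]
    rw [dif_pos hi, dif_neg (by omega), sub_zero]
  rw [h2, Finset.prod_congr rfl fun i _ => h3 i, ← Finset.prod_mul_distrib]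
  refine Finset.prod_congr rfl fun i _ => ?_
  rw [map_pow]
  ring

/-- Every `(a, c)` comes from some `x`.  Proof: `T charpoly(Sl a) - const` is monic of degree `2n`
and even (`charpoly_parity`), so it is `∏ (T² - r_l)` and `∏ (T² - x_l²)` for square roots
`x_l` of `r_l`; the constant term gives `(2 ∏ x)² = c²`; change the sign of one `x_l` if
necessary.  (`Pool.Agent.MP_c45d35_ag.SL.exists_roots` with `N = 2 n` may be used.) -/
theorem exists_x (hn : 2 ≤ n) (a : Fin ((2 * n - 1) / 2) → ℂ) (c : ℂ) :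
    ∃ x : Fin n → ℂ, 2 * ∏ k, x k = c ∧
      (∏ i : Fin (2 * n), (Polynomial.X - Polynomial.C (ev (wtD i) x)) : Polynomial ℂ) =
        Polynomial.X * (Sl a).charpoly - Polynomial.C ((-1) ^ (n - 1) / 4 * c ^ 2) := by
  set Q : Polynomial ℂ := Polynomial.X * (Sl a).charpoly -
    Polynomial.C ((-1) ^ (n - 1) / 4 * c ^ 2) with hQ
  have hPm : (Sl a).charpoly.Monic := Matrix.charpoly_monic _
  have hPd : (Sl a).charpoly.natDegree = 2 * n - 1 := by
    rw [Matrix.charpoly_natDegree_eq_dim, Fintype.card_fin]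
  have hXm : (Polynomial.X * (Sl a).charpoly : Polynomial ℂ).Monic := Polynomial.monic_X.mul hPm
  have hXd : (Polynomial.X * (Sl a).charpoly : Polynomial ℂ).natDegree = 2 * n := by
    rw [Polynomial.monic_X.natDegree_mul hPm, Polynomial.natDegree_X, hPd]
    omega
  have hdeg : (Polynomial.C ((-1) ^ (n - 1) / 4 * c ^ 2) : Polynomial ℂ).degree <
      (Polynomial.X * (Sl a).charpoly : Polynomial ℂ).degree := by
    refine lt_of_le_of_lt Polynomial.degree_C_le ?_
    rw [Polynomial.degree_eq_natDegree hXm.ne_zero, hXd]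
    exact_mod_cast (by omega : 0 < 2 * n)
  have hQm : Q.Monic := hXm.sub_of_left hdeg
  have hQd : Q.natDegree = 2 * n := by
    rw [hQ, Polynomial.natDegree_sub_eq_left_of_natDegree_lt, hXd]
    rw [Polynomial.natDegree_C, hXd]
    omega
  have hpar : ∀ m, Odd (2 * n + m) → Q.coeff m = 0 := by
    intro m hm
    have hm' : Odd m := by
      rcases Nat.even_or_odd m with h | h
      · exfalso
        obtain ⟨r, hr⟩ := hm
        obtain ⟨t, ht⟩ := h
        omega
      · exact h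
    obtain ⟨t, rfl⟩ := hm'
    rw [hQ, Polynomial.coeff_sub, Polynomial.coeff_X_mul, Polynomial.coeff_C_succ, sub_zero]
    exact Pool.Agent.MP_c45d35_ag.SL.charpoly_parity (Pool.Agent.MP_c45d35_ag.SL.isLie_Sl a)
      ⟨n - 1 + t, by omega⟩
  obtain ⟨x, hx⟩ := Pool.Agent.MP_c45d35_ag.SL.exists_roots (N := 2 * n) Q hQm hQd hpar
  have hnn : n = 2 * n / 2 := by omega
  set y : Fin n → ℂ := fun k => x (Fin.cast hnn k) with hy
  have hxy : ∀ i : Fin (2 * n), Pool.Agent.MP_c45d35_ag.xx x i = ev (wtD i) y := by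
    intro i
    unfold Pool.Agent.MP_c45d35_ag.xx ev
    rw [← Equiv.sum_comp (finCongr hnn)]
    rfl
  have hQy : Q = ∏ k : Fin n, (Polynomial.X ^ 2 - Polynomial.C (y k ^ 2)) := by
    rw [hx, ← tdb4_prod]
    exact Finset.prod_congr rfl fun i _ => by rw [hxy]
  have hc2 : (2 * ∏ k, y k) ^ 2 = c ^ 2 := by
    have h0 : Q.eval 0 = - ((-1) ^ (n - 1) / 4 * c ^ 2) := by
      rw [hQ]
      simp
    rw [hQy, Polynomial.eval_prod] at h0
    have h1 : ∏ k : Fin n, Polynomial.eval (0 : ℂ) (Polynomial.X ^ 2 - Polynomial.C (y k ^ 2)) =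
        (-1) ^ n * (∏ k, y k) ^ 2 := by
      have e1 : ∀ k : Fin n, Polynomial.eval (0 : ℂ) (Polynomial.X ^ 2 - Polynomial.C (y k ^ 2)) =
          (-1) * y k ^ 2 := by
        intro k
        simp
      rw [Finset.prod_congr rfl fun k _ => e1 k, Finset.prod_mul_distrib, Finset.prod_const,
        Finset.card_univ, Fintype.card_fin, Finset.prod_pow]
    rw [h1] at h0
    obtain ⟨m, rfl⟩ : ∃ m, n = m + 1 := ⟨n - 1, by omega⟩
    have h2 := tdb4_pm m
    rw [Nat.add_sub_cancel, pow_succ] at h0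
    linear_combination (-4 * (-1) ^ m) * h0 - (4 * (∏ k, y k) ^ 2 - c ^ 2) * h2
  have hcase : 2 * ∏ k, y k = c ∨ 2 * ∏ k, y k = - c := sq_eq_sq_iff_eq_or_eq_neg.1 hc2
  rcases hcase with h | h
  · refine ⟨y, h, ?_⟩
    rw [tdb4_prod, ← hQy]
  · set z : Fin n := ⟨0, by omega⟩ with hz
    refine ⟨Function.update y z (- y z), ?_, ?_⟩
    · have h3 : ∏ k, Function.update y z (- y z) k = - ∏ k, y k := by
        rw [Finset.prod_update_of_mem (Finset.mem_univ _),
          ← Finset.mul_prod_erase Finset.univ y (Finset.mem_univ z), Finset.sdiff_singleton_eq_erase]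
        ring
      rw [h3]
      linear_combination -h
    · rw [tdb4_prod, hQy]
      refine Finset.prod_congr rfl fun k _ => ?_
      by_cases hk : k = z
      · subst hk
        rw [Function.update_self]
        ring_nf
      · rw [Function.update_of_ne hk]

end

end Pool.Agent.MTD.TD
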