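import Pool.Agent.MTD.TDB3
import Pool.Agent.MTD.TDB4

/-! # MTD : type `D`, the slice (row D-S5) -/

namespace Pool.Agent.MTD.TD

open Matrix
open Pool.Agent.MP_c45d35_ag (chi UpUni LowUni IsHess IsLie st Jm fm)
open Pool.Agent.MP_c45d35_ag.SL (Sl)


section aux
variable {n : ℕ} {R : Type*} [CommRing R] [Algebra ℂ R]

omit [Algebra ℂ R] in
theorem sliceAux_bk_add (A A' : Matrix (Fin (2 * n - 1)) (Fin (2 * n - 1)) R)
    (b b' c c' : Fin (2 * n - 1) → R) (d d' : R) :
    bk A b c d + bk A' b' c' d' = bk (A + A') (b + b') (c + c') (d + d') := by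
  unfold bk
  rw [Matrix.fromBlocks_add]
  rfl

omit [Algebra ℂ R] in
theorem sliceAux_bk_map {S : Type*} [CommRing S] (φ : R →+* S)
    (A : Matrix (Fin (2 * n - 1)) (Fin (2 * n - 1)) R)
    (b c : Fin (2 * n - 1) → R) (d : R) :
    (bk A b c d).map φ = bk (A.map φ) (fun i => φ (b i)) (fun i => φ (c i)) (φ d) := by
  unfold bk
  rw [Matrix.fromBlocks_map]
  rfl

omit [Algebra ℂ R] in
theorem sliceAux_bk_mul_left (u A : Matrix (Fin (2 * n - 1)) (Fin (2 * n - 1)) R)
    (b c : Fin (2 * n - 1) → R) (d : R) :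
    bk u 0 0 1 * bk A b c d = bk (u * A) (u *ᵥ b) c d := by
  unfold bk
  rw [Matrix.fromBlocks_multiply]
  congr 1
  · ext i j
    simp [Matrix.mul_apply, Matrix.add_apply]
  · ext i j
    simp [Matrix.mul_apply, Matrix.add_apply, Matrix.mulVec, dotProduct]
  · ext i j
    simp [Matrix.mul_apply, Matrix.add_apply]
  · ext i j
    simp [Matrix.mul_apply, Matrix.add_apply]

omit [Algebra ℂ R] in
theorem sliceAux_bk_mul_right (u A : Matrix (Fin (2 * n - 1)) (Fin (2 * n - 1)) R)
    (b c : Fin (2 * n - 1) → R) (d : R) :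
    bk A b c d * bk u 0 0 1 = bk (A * u) b (c ᵥ* u) d := by
  unfold bk
  rw [Matrix.fromBlocks_multiply]
  congr 1
  · ext i j
    simp [Matrix.mul_apply, Matrix.add_apply]
  · ext i j
    simp [Matrix.mul_apply, Matrix.add_apply]
  · ext i j
    simp [Matrix.mul_apply, Matrix.add_apply, Matrix.vecMul, dotProduct]
  · ext i j
    simp [Matrix.mul_apply, Matrix.add_apply]

theorem sliceAux_Blk_map {S : Type*} [CommRing S] [Algebra ℂ S] (φ : R →ₐ[ℂ] S)
    (A : Matrix (Fin (2 * n - 1)) (Fin (2 * n - 1)) R) (c : R) :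
    (Blk A c).map φ = Blk (A.map φ) (φ c) := by
  unfold Blk
  have := sliceAux_bk_map (n := n) (φ : R →+* S) A
    (fun i => if (i : ℕ) + 2 = 2 * n then c else 0)
    (fun j => if (j : ℕ) = 0 then algebraMap ℂ R ((-1) ^ (n - 1) / 4) * c else 0) 0
  rw [AlgHom.coe_toRingHom] at this
  rw [this]
  congr 1
  · funext i
    split_ifs
    · rfl
    · exact map_zero φ
  · funext i
    split_ifs
    · rw [map_mul, AlgHom.commutes]
    · exact map_zero φ
  · exact map_zero φ

omit [Algebra ℂ R] in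
theorem sliceAux_charpoly_conj {m : ℕ} {P Q A B : Matrix (Fin m) (Fin m) R} (hQ : Q * P = 1)
    (h : P * A = B * P) : B.charpoly = A.charpoly := by
  have hP : P * Q = 1 := mul_eq_one_comm.1 hQ
  have h2 := Matrix.charpoly_units_conj (⟨P, Q, hP, hQ⟩ : (Matrix (Fin m) (Fin m) R)ˣ) A
  have h3 : B = P * A * Q := by rw [h, Matrix.mul_assoc, hP, Matrix.mul_one]
  rw [h3, ← h2]
  congr 2
  exact (Matrix.inv_eq_right_inv hP).symm

/-- The commutation of the lower unipotent block with the coupling. -/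
theorem sliceAux_Blk_comm (hn : 1 ≤ n) {u M M' : Matrix (Fin (2 * n - 1)) (Fin (2 * n - 1)) R}
    (hu : LowUni u) (h : u * M = M' * u) (c : R) :
    bk u 0 0 1 * Blk M c = Blk M' c * bk u 0 0 1 := by
  unfold Blk
  rw [sliceAux_bk_mul_left, sliceAux_bk_mul_right, h]
  congr 1
  · funext i
    rw [Matrix.mulVec, dotProduct]
    have hlast : ∀ j : Fin (2 * n - 1), j ≠ ⟨2 * n - 2, by omega⟩ →
        u i j * (if (j : ℕ) + 2 = 2 * n then c else 0) = 0 := by
      intro j hj
      rw [if_neg, mul_zero]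
      intro h'
      exact hj (Fin.ext (by simp only; omega))
    rw [Finset.sum_eq_single ⟨2 * n - 2, by omega⟩ (fun j _ hj => hlast j hj)
      (fun h' => absurd (Finset.mem_univ _) h')]
    simp only
    rw [if_pos (by omega)]
    by_cases hi : (i : ℕ) + 2 = 2 * n
    · rw [if_pos hi]
      have : i = ⟨2 * n - 2, by omega⟩ := Fin.ext (by simp only; omega)
      rw [← this, hu.2, one_mul]
    · rw [if_neg hi, hu.1, zero_mul]
      rw [Fin.lt_def]
      simp only
      have := i.2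
      omega
  · funext j
    rw [Matrix.vecMul, dotProduct]
    have hfirst : ∀ i : Fin (2 * n - 1), i ≠ ⟨0, by omega⟩ →
        (if (i : ℕ) = 0 then algebraMap ℂ R ((-1) ^ (n - 1) / 4) * c else 0) * u i j = 0 := by
      intro i hi
      rw [if_neg, zero_mul]
      intro h'
      exact hi (Fin.ext (by simp only; omega))
    rw [Finset.sum_eq_single ⟨0, by omega⟩ (fun i _ hi => hfirst i hi)
      (fun h' => absurd (Finset.mem_univ _) h'), if_pos (show ((⟨0, by omega⟩ : Fin (2 * n - 1)) : ℕ) = 0 from rfl)]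
    by_cases hj : (j : ℕ) = 0
    · rw [if_pos hj]
      have : j = ⟨0, by omega⟩ := Fin.ext (by simp only; omega)
      rw [this, hu.2, mul_one]
    · rw [if_neg hj, hu.1, mul_zero]
      rw [Fin.lt_def]
      simp only
      omega

end aux

/-- Assembly.  `R = MvPolynomial (Fin n) ℂ`, `x = X`.  By `Dx_cB`, `eD_cB` and `nW_step`,
`cB (nW (wx X)) * (e + X) = cB (Blk M₁ (2 ∏ X)) * cB (nW (wx X))`.  Take `a` with
`charpoly (Sl a) = charpoly M₁` (`SL.exists_Sl_charpoly`), `u₂` with `LowUni u₂`,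
`u₂ * M₁ = Sl a * u₂` (`hess_intertwiner`), which is an isometry (`hess_intertwiner_isG`).
Then `bk u₂ 0 0 1 * Blk M₁ c = Blk (Sl a) c * bk u₂ 0 0 1`, because `u₂ e_last = e_last` and
`ε_0 u₂ = ε_0`.  Put `px = cB (bk u₂ 0 0 1) * cB (nW (wx X))`, `sx = cB (Blk (Sl a) (2 ∏ X))`.
If the characteristic polynomials and `∏ x` agree at `x, x'` then so do the values of `a`
(`charpoly_Blk`, cancel `T`, `SL.Sl_injective`) and of `c`. -/
theorem exists_slice_param (n : ℕ) (hn : 2 ≤ n) :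
    ∃ sx px : Matrix (Fin (2 * n)) (Fin (2 * n)) (MvPolynomial (Fin n) ℂ),
      LowUni px ∧ sd px * px = 1 ∧
      px * ((eD n).map MvPolynomial.C + Matrix.diagonal fun i => ev (wtD i) MvPolynomial.X) =
        sx * px ∧
      (∀ x : Fin n → ℂ, sx.map (MvPolynomial.eval x) ∈ sliceD n) ∧
      (∀ s ∈ sliceD n, ∃ x : Fin n → ℂ, s = sx.map (MvPolynomial.eval x)) ∧
      (∀ x x' : Fin n → ℂ,
        (∏ i : Fin (2 * n), (Polynomial.X - Polynomial.C (ev (wtD i) x)) : Polynomial ℂ) =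
          ∏ i : Fin (2 * n), (Polynomial.X - Polynomial.C (ev (wtD i) x')) →
        ∏ k, x k = ∏ k, x' k →
        sx.map (MvPolynomial.eval x) = sx.map (MvPolynomial.eval x')) ∧
      ∏ k, MvPolynomial.X k = (-1) ^ (n - 1) *
        (sx ⟨2 * n - 1, by omega⟩ ⟨n - 1, by omega⟩ - sx ⟨2 * n - 1, by omega⟩ ⟨n, by omega⟩) := by
  obtain ⟨M₁, hMH, hML, hstep⟩ := nW_step (R := MvPolynomial (Fin n) ℂ) hn MvPolynomial.X
  set c : MvPolynomial (Fin n) ℂ := 2 * ∏ k, MvPolynomial.X k with hc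
  obtain ⟨a, ha⟩ := Pool.Agent.MP_c45d35_ag.SL.exists_Sl_charpoly M₁ hML
  have hSH := Pool.Agent.MP_c45d35_ag.SL.isHess_Sl a
  have hSL := Pool.Agent.MP_c45d35_ag.SL.isLie_Sl a
  obtain ⟨u, hu, hu'⟩ := Pool.Agent.MP_c45d35_ag.hess_intertwiner hMH hSH ha.symm
  have huG := Pool.Agent.MP_c45d35_ag.hess_intertwiner_isG hMH hSH hML hSL hu hu'
  have hw0 : ∀ j : Fin (2 * n - 1), (j : ℕ) < n →
      wx (MvPolynomial.X : Fin n → MvPolynomial (Fin n) ℂ) j = 0 := by
    intro j hj
    rw [wx, if_neg (by omega)]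
  have hE : (eD n).map (MvPolynomial.C : ℂ →+* MvPolynomial (Fin n) ℂ) =
      cB (bk (Pool.Agent.MP_c45d35_ag.em (MvPolynomial (Fin n) ℂ) _) 0 0 0) := by
    have h1 := cB_map (n := n) (Algebra.ofId ℂ (MvPolynomial (Fin n) ℂ)) (bk (Pool.Agent.MP_c45d35_ag.em ℂ _) 0 0 0)
    rw [eD_cB hn] at h1
    have h2 : (eD n).map (MvPolynomial.C : ℂ →+* MvPolynomial (Fin n) ℂ) =
        (eD n).map (Algebra.ofId ℂ (MvPolynomial (Fin n) ℂ)) := rfl
    rw [h2, h1]
    congr 1
    have h3 := sliceAux_bk_map (n := n)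
      ((Algebra.ofId ℂ (MvPolynomial (Fin n) ℂ) : ℂ →ₐ[ℂ] MvPolynomial (Fin n) ℂ) :
        ℂ →+* MvPolynomial (Fin n) ℂ) (Pool.Agent.MP_c45d35_ag.em ℂ _) 0 0 0
    rw [AlgHom.coe_toRingHom] at h3
    rw [h3]
    congr 1
    · exact Pool.Agent.MP_c45d35_ag.em_map _
    · funext i
      exact map_zero _
    · funext i
      exact map_zero _
    · exact map_zero _
  have hT : (eD n).map (MvPolynomial.C : ℂ →+* MvPolynomial (Fin n) ℂ) +
      (Matrix.diagonal fun i => ev (wtD i) MvPolynomial.X) =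
      cB (bk (Pool.Agent.MP_c45d35_ag.em (MvPolynomial (Fin n) ℂ) _ + Matrix.diagonal (dx MvPolynomial.X))
        (fun i => if h : (i : ℕ) + 1 = n then 2 * MvPolynomial.X ⟨i, by omega⟩ else 0)
        (fun i => if h : (i : ℕ) + 1 = n then algebraMap ℂ (MvPolynomial (Fin n) ℂ) (1 / 2) *
          MvPolynomial.X ⟨i, by omega⟩ else 0) 0) := by
    rw [hE, Dx_cB hn, ← cB_add, sliceAux_bk_add]
    congr 2
    · rw [zero_add]
    · rw [zero_add]
    · rw [zero_add]
  have hinter : cB (bk u 0 0 1) * cB (nW (wx MvPolynomial.X)) *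
      ((eD n).map (MvPolynomial.C : ℂ →+* MvPolynomial (Fin n) ℂ) +
      (Matrix.diagonal fun i => ev (wtD i) MvPolynomial.X)) =
      cB (Blk (Sl a) c) * (cB (bk u 0 0 1) * cB (nW (wx MvPolynomial.X))) := by
    rw [hT, Matrix.mul_assoc, ← cB_mul (by omega), hstep, cB_mul (by omega), ← Matrix.mul_assoc,
      ← cB_mul (by omega), sliceAux_Blk_comm (by omega) hu hu', cB_mul (by omega),
      Matrix.mul_assoc]
  have hsd : sd (cB (bk u 0 0 1) * cB (nW (wx MvPolynomial.X))) *
      (cB (bk u 0 0 1) * cB (nW (wx MvPolynomial.X))) = 1 := by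
    rw [sd_mul, Matrix.mul_assoc, ← Matrix.mul_assoc (sd (cB (bk u 0 0 1))), sd_cB (by omega)]
    have h1 : cB (bk (st u) (fun i => -(8 * fl (0 : Fin (2 * n - 1) → MvPolynomial (Fin n) ℂ) i))
      (fun j => -(algebraMap ℂ (MvPolynomial (Fin n) ℂ) (1 / 2) *
        fl (0 : Fin (2 * n - 1) → MvPolynomial (Fin n) ℂ) j)) 1) * cB (bk u 0 0 1) = 1 := by
      have e1 : (fun i => -(8 * fl (0 : Fin (2 * n - 1) → MvPolynomial (Fin n) ℂ) i)) = 0 := by
        funext i
        simp [fl]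
      have e2 : (fun j => -(algebraMap ℂ (MvPolynomial (Fin n) ℂ) (1 / 2) *
        fl (0 : Fin (2 * n - 1) → MvPolynomial (Fin n) ℂ) j)) = 0 := by
        funext i
        simp [fl]
      rw [e1, e2, ← cB_mul (by omega), sliceAux_bk_mul_right, huG.st_mul_self,
        ← cB_one (by omega), Matrix.zero_vecMul]
      congr 1
      unfold bk
      rw [← Matrix.fromBlocks_one]
      congr 1
    rw [h1, Matrix.one_mul, sd_nW (by omega) _ hw0]
  have hmap : ∀ x : Fin n → ℂ, (cB (Blk (Sl a) c)).map (MvPolynomial.eval x) =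
      cB (Blk (Sl (fun m => MvPolynomial.eval x (a m))) (2 * ∏ k, x k)) := by
    intro x
    have h1 := cB_map (n := n) (MvPolynomial.aeval x : MvPolynomial (Fin n) ℂ →ₐ[ℂ] ℂ)
      (Blk (Sl a) c)
    rw [sliceAux_Blk_map] at h1
    have h2 : (MvPolynomial.aeval x : MvPolynomial (Fin n) ℂ →ₐ[ℂ] ℂ) c = 2 * ∏ k, x k := by
      rw [hc, map_mul, map_prod]
      simp
    have h3 : (Sl a).map (MvPolynomial.aeval x : MvPolynomial (Fin n) ℂ →ₐ[ℂ] ℂ) =
        Sl (fun m => MvPolynomial.eval x (a m)) := by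
      have := Pool.Agent.MP_c45d35_ag.SL.Sl_map
        ((MvPolynomial.aeval x : MvPolynomial (Fin n) ℂ →ₐ[ℂ] ℂ) : MvPolynomial (Fin n) ℂ →+* ℂ) a
      rw [AlgHom.coe_toRingHom] at this
      rw [this]
      rfl
    rw [h2, h3] at h1
    rw [← h1]
    rfl
  have hchar : ∀ x : Fin n → ℂ,
      (∏ i : Fin (2 * n), (Polynomial.X - Polynomial.C (ev (wtD i) x)) : Polynomial ℂ) =
      Polynomial.X * (Sl (fun m => MvPolynomial.eval x (a m)) :
        Matrix (Fin (2 * n - 1)) (Fin (2 * n - 1)) ℂ).charpoly -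
        Polynomial.C ((-1) ^ (n - 1) / 4 * (2 * ∏ k, x k) ^ 2) := by
    intro x
    have hS : (Sl (fun m => MvPolynomial.eval x (a m)) :
        Matrix (Fin (2 * n - 1)) (Fin (2 * n - 1)) ℂ) = (Sl a).map (MvPolynomial.eval x) :=
      (Pool.Agent.MP_c45d35_ag.SL.Sl_map _ _).symm
    have h1 : (cB (Blk (Sl a) c)).charpoly =
        ((eD n).map (MvPolynomial.C : ℂ →+* MvPolynomial (Fin n) ℂ) +
          (Matrix.diagonal fun i => ev (wtD i) MvPolynomial.X)).charpoly :=
      sliceAux_charpoly_conj hsd hinter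
    have h3 : ((eD n).map (MvPolynomial.C : ℂ →+* MvPolynomial (Fin n) ℂ) +
          (Matrix.diagonal fun i => ev (wtD i) MvPolynomial.X)).charpoly =
        ∏ i : Fin (2 * n), (Polynomial.X - Polynomial.C (ev (wtD i) MvPolynomial.X)) := by
      rw [Matrix.charpoly_of_isUpperTriangular]
      · refine Finset.prod_congr rfl fun i _ => ?_
        congr 2
        rw [Matrix.add_apply, Matrix.diagonal_apply_eq, Matrix.map_apply]
        have : eD n i i = 0 := by
          unfold eD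
          rw [Matrix.of_apply, if_neg (by omega), if_neg (by omega)]
        rw [this, map_zero, zero_add]
      · intro i j hij
        have hij' : (j : ℕ) < (i : ℕ) := hij
        rw [Matrix.add_apply, Matrix.diagonal_apply_ne _ (by
          intro h'
          rw [h'] at hij'
          omega), Matrix.map_apply]
        have : eD n i j = 0 := by
          unfold eD
          rw [Matrix.of_apply, if_neg (by omega), if_neg (by omega)]
        rw [this, map_zero, add_zero]
    have h4 : (∏ i : Fin (2 * n), (Polynomial.X - Polynomial.C (ev (wtD i) x)) : Polynomial ℂ) =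
        (∏ i : Fin (2 * n), (Polynomial.X - Polynomial.C (ev (wtD i)
          (MvPolynomial.X : Fin n → MvPolynomial (Fin n) ℂ)))).map (MvPolynomial.eval x) := by
      rw [Polynomial.map_prod]
      refine Finset.prod_congr rfl fun i _ => ?_
      rw [Polynomial.map_sub, Polynomial.map_X, Polynomial.map_C, ev_map (MvPolynomial.eval x)]
      simp only [MvPolynomial.eval_X]
    rw [h4, ← h3, ← h1, charpoly_cB (by omega), charpoly_Blk (by omega) hSH, Polynomial.map_sub,
      Polynomial.map_mul, Polynomial.map_X, hS, Matrix.charpoly_map, Polynomial.map_C]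
    congr 2
    rw [map_mul, map_pow]
    congr 1
    · exact MvPolynomial.eval_C _
    · congr 1
      rw [hc, map_mul, map_prod]
      simp
  refine ⟨cB (Blk (Sl a) c), cB (bk u 0 0 1) * cB (nW (wx MvPolynomial.X)), ?_, ?_, hinter, ?_, ?_,
    ?_, ?_⟩
  · exact (lowUni_cB (by omega) hu).mul (lowUni_nW (by omega) _ hw0)
  · exact hsd
  · intro x
    rw [hmap]
    exact Blk_mem_sliceD hn _ _
  · intro s hs
    obtain ⟨a', c', rfl⟩ := exists_Blk hn hs
    obtain ⟨x, hx, hx'⟩ := exists_x hn a' c'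
    refine ⟨x, ?_⟩
    rw [hmap]
    rw [hchar, hx] at hx'
    have h1 := sub_left_injective hx'
    have h2 := mul_left_cancel₀ Polynomial.X_ne_zero h1
    rw [Pool.Agent.MP_c45d35_ag.SL.Sl_injective h2, hx]
  · intro x x' h h'
    rw [hmap, hmap, h']
    rw [hchar, hchar, h'] at h
    have h1 := sub_left_injective h
    have h2 := mul_left_cancel₀ Polynomial.X_ne_zero h1
    rw [Pool.Agent.MP_c45d35_ag.SL.Sl_injective h2]
  · rw [Blk_last hn, hc]
    have h4 : ((-1 : MvPolynomial (Fin n) ℂ)) ^ (n - 1) *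
        (algebraMap ℂ (MvPolynomial (Fin n) ℂ) ((-1) ^ (n - 1) / 2) *
          (2 * ∏ k, MvPolynomial.X k)) =
        (algebraMap ℂ (MvPolynomial (Fin n) ℂ)
          ((-1) ^ (n - 1) * ((-1) ^ (n - 1) / 2) * 2)) * ∏ k, MvPolynomial.X k := by
      rw [map_mul, map_mul, map_pow, map_neg, map_one]
      have : algebraMap ℂ (MvPolynomial (Fin n) ℂ) 2 = 2 := map_ofNat _ 2
      rw [this]
      ring
    rw [h4]
    have h5 : ((-1 : ℂ)) ^ (n - 1) * ((-1) ^ (n - 1) / 2) * 2 = 1 := by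
      have : ((-1 : ℂ)) ^ (n - 1) * (-1) ^ (n - 1) = 1 := by
        rw [← mul_pow]
        norm_num
      linear_combination this
    rw [h5, map_one, one_mul]

end Pool.Agent.MTD.TD
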