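import Pool.Agent.MTD.TV1

/-! # MTD : type `D`, invariant polynomials come from the slice (row I1) -/

namespace Pool.Agent.MTD.TD

open Matrix


section ti1
open MvPolynomial

variable {n : ℕ}

theorem ti1_coeff_sign (c : Fin n → ℂ) (p : MvPolynomial (Fin n) ℂ) (d : Fin n →₀ ℕ) :
    coeff d (aeval (fun k => C (c k) * X k : Fin n → MvPolynomial (Fin n) ℂ) p) =
      (∏ k, c k ^ d k) * coeff d p := by
  induction p using MvPolynomial.induction_on' with
  | monomial u a =>
    have h1 : aeval (fun k => C (c k) * X k : Fin n → MvPolynomial (Fin n) ℂ) (monomial u a) =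
        C (∏ k, c k ^ u k) * monomial u a := by
      rw [aeval_monomial, Finsupp.prod_fintype _ _ (fun i => pow_zero _)]
      simp only [mul_pow, Finset.prod_mul_distrib]
      rw [monomial_eq, Finsupp.prod_fintype _ _ (fun i => pow_zero _), MvPolynomial.algebraMap_eq]
      simp only [map_prod, map_pow]
      ring
    rw [h1, coeff_C_mul, coeff_monomial]
    split_ifs with h
    · rw [h]
    · simp
  | add p q hp hq => rw [map_add, coeff_add, coeff_add, hp, hq, mul_add]

theorem ti1_parity {p : MvPolynomial (Fin n) ℂ}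
    (hsign : ∀ i j : Fin n, i ≠ j →
      aeval (fun k => if k = i ∨ k = j then - X k else X k : Fin n → MvPolynomial (Fin n) ℂ) p = p)
    {d : Fin n →₀ ℕ} (hd : coeff d p ≠ 0) (i j : Fin n) : d i % 2 = d j % 2 := by
  by_cases hij : i = j
  · rw [hij]
  have h1 := ti1_coeff_sign (fun k => if k = i ∨ k = j then -1 else 1) p d
  have h2 : (fun k => C (if k = i ∨ k = j then (-1 : ℂ) else 1) * X k :
      Fin n → MvPolynomial (Fin n) ℂ) = fun k => if k = i ∨ k = j then - X k else X k := by
    funext k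
    split_ifs <;> simp
  rw [h2, hsign i j hij] at h1
  have h3 : (∏ k, (if k = i ∨ k = j then (-1 : ℂ) else 1) ^ d k) = (-1) ^ d i * (-1) ^ d j := by
    rw [Finset.prod_eq_mul i j hij]
    · simp
    · intro k _ hk
      rw [if_neg (by rintro (h | h); exacts [hk.1 h, hk.2 h]), one_pow]
    · intro h; exact absurd (Finset.mem_univ _) h
    · intro h; exact absurd (Finset.mem_univ _) h
  rw [h3, ← pow_add] at h1
  have h4 : ((-1 : ℂ)) ^ (d i + d j) = 1 := by
    apply mul_right_cancel₀ hd
    rw [← h1, one_mul]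
  have h5 : Even (d i + d j) := by
    by_contra hodd
    rw [Nat.not_even_iff_odd] at hodd
    rw [hodd.neg_one_pow] at h4
    norm_num at h4
  rw [Nat.even_add] at h5
  rcases Nat.even_or_odd (d i) with h6 | h6 <;> rcases Nat.even_or_odd (d j) with h7 | h7
  · rw [Nat.even_iff.1 h6, Nat.even_iff.1 h7]
  · exact absurd (h5.1 h6) (Nat.not_even_iff_odd.2 h7)
  · exact absurd (h5.2 h7) (Nat.not_even_iff_odd.2 h6)
  · rw [Nat.odd_iff.1 h6, Nat.odd_iff.1 h7]

/-- half of the exponents -/
noncomputable def ti1_half (d : Fin n →₀ ℕ) : Fin n →₀ ℕ := d.mapRange (fun a => a / 2) rfl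

/-- the parts -/
noncomputable def ti1_part (i0 : Fin n) (p : MvPolynomial (Fin n) ℂ) (e : ℕ) :
    MvPolynomial (Fin n) ℂ :=
  ∑ d ∈ p.support.filter (fun d => d i0 % 2 = e), monomial (ti1_half d) (coeff d p)

theorem ti1_half_map (σ : Equiv.Perm (Fin n)) (d : Fin n →₀ ℕ) :
    (ti1_half d).mapDomain σ = ti1_half (d.mapDomain σ) := by
  ext k
  obtain ⟨i, rfl⟩ := σ.surjective k
  unfold ti1_half
  rw [Finsupp.mapRange_apply, Finsupp.mapDomain_apply σ.injective,
    Finsupp.mapDomain_apply σ.injective, Finsupp.mapRange_apply]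

theorem ti1_coeff_map {p : MvPolynomial (Fin n) ℂ}
    (hsym : ∀ σ : Equiv.Perm (Fin n), rename σ p = p) (σ : Equiv.Perm (Fin n)) (d : Fin n →₀ ℕ) :
    coeff (d.mapDomain σ) p = coeff d p := by
  conv_lhs => rw [← hsym σ]
  exact coeff_rename_mapDomain σ σ.injective p d

theorem ti1_part_symm {p : MvPolynomial (Fin n) ℂ}
    (hsym : ∀ σ : Equiv.Perm (Fin n), rename σ p = p)
    (hsign : ∀ i j : Fin n, i ≠ j →
      aeval (fun k => if k = i ∨ k = j then - X k else X k : Fin n → MvPolynomial (Fin n) ℂ) p = p)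
    (i0 : Fin n) (e : ℕ) (σ : Equiv.Perm (Fin n)) :
    rename σ (ti1_part i0 p e) = ti1_part i0 p e := by
  unfold ti1_part
  rw [map_sum]
  refine Finset.sum_nbij' (fun d => d.mapDomain σ) (fun d => d.mapDomain σ.symm) ?_ ?_ ?_ ?_ ?_
  · intro d hd
    rw [Finset.mem_filter, mem_support_iff] at hd ⊢
    refine ⟨by rw [ti1_coeff_map hsym]; exact hd.1, ?_⟩
    rw [← hd.2]
    obtain ⟨i, hi⟩ := σ.surjective i0
    conv_lhs => rw [← hi]
    rw [Finsupp.mapDomain_apply σ.injective]
    exact ti1_parity hsign hd.1 _ _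
  · intro d hd
    rw [Finset.mem_filter, mem_support_iff] at hd ⊢
    refine ⟨by rw [ti1_coeff_map hsym]; exact hd.1, ?_⟩
    rw [← hd.2]
    obtain ⟨i, hi⟩ := σ.symm.surjective i0
    conv_lhs => rw [← hi]
    rw [Finsupp.mapDomain_apply σ.symm.injective]
    exact ti1_parity hsign hd.1 _ _
  · intro d _
    rw [← Finsupp.mapDomain_comp]
    simp
  · intro d _
    rw [← Finsupp.mapDomain_comp]
    simp
  · intro d _
    rw [rename_monomial, ti1_half_map, ti1_coeff_map hsym]

theorem ti1_decomp {p : MvPolynomial (Fin n) ℂ}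
    (hsign : ∀ i j : Fin n, i ≠ j →
      aeval (fun k => if k = i ∨ k = j then - X k else X k : Fin n → MvPolynomial (Fin n) ℂ) p = p)
    (i0 : Fin n) : p = expand 2 (ti1_part i0 p 0) + (∏ k, X k) * expand 2 (ti1_part i0 p 1) := by
  have h1 : expand 2 (ti1_part i0 p 0) =
      ∑ d ∈ p.support.filter (fun d => d i0 % 2 = 0), monomial d (coeff d p) := by
    unfold ti1_part
    rw [map_sum]
    refine Finset.sum_congr rfl fun d hd => ?_
    rw [Finset.mem_filter, mem_support_iff] at hd
    rw [expand_monomial]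
    have h5 : 2 • ti1_half d = d := by
      ext k
      have h2 := ti1_parity hsign hd.1 k i0
      rw [hd.2] at h2
      show 2 * (d k / 2) = d k
      omega
    rw [h5]
  have h2 : (∏ k, X k) * expand 2 (ti1_part i0 p 1) =
      ∑ d ∈ p.support.filter (fun d => ¬ d i0 % 2 = 0), monomial d (coeff d p) := by
    have h3 : (∏ k, X k : MvPolynomial (Fin n) ℂ) =
        monomial (Finsupp.equivFunOnFinite.symm (fun _ => 1)) 1 := by
      rw [monomial_eq, Finsupp.prod_fintype _ _ (fun i => pow_zero _)]
      simp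
    unfold ti1_part
    rw [map_sum, Finset.mul_sum]
    have h4 : p.support.filter (fun d => ¬ d i0 % 2 = 0) =
        p.support.filter (fun d => d i0 % 2 = 1) := by
      apply Finset.filter_congr
      intro d _
      omega
    rw [h4]
    refine Finset.sum_congr rfl fun d hd => ?_
    rw [Finset.mem_filter, mem_support_iff] at hd
    have h5 : Finsupp.equivFunOnFinite.symm (fun _ => 1) + 2 • ti1_half d = d := by
      ext k
      have h2 := ti1_parity hsign hd.1 k i0
      rw [hd.2] at h2
      show 1 + 2 * (d k / 2) = d k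
      omega
    rw [expand_monomial, h3, monomial_mul, one_mul, h5]
  rw [h1, h2, Finset.sum_filter_add_sum_filter_not]
  exact (support_sum_monomial_coeff p).symm

/-- subalgebras containing the elementary symmetric polynomials of the squares and the product -/
theorem ti1_mem (S : Subalgebra ℂ (MvPolynomial (Fin n) ℂ)) (hn : 0 < n)
    (h1 : (∏ k, X k : MvPolynomial (Fin n) ℂ) ∈ S)
    (h2 : ∀ j, expand 2 (esymm (Fin n) ℂ j) ∈ S) {p : MvPolynomial (Fin n) ℂ}
    (hsym : ∀ σ : Equiv.Perm (Fin n), rename σ p = p)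
    (hsign : ∀ i j : Fin n, i ≠ j →
      aeval (fun k => if k = i ∨ k = j then - X k else X k : Fin n → MvPolynomial (Fin n) ℂ) p = p) :
    p ∈ S := by
  have key : ∀ q : MvPolynomial (Fin n) ℂ, q.IsSymmetric → expand 2 q ∈ S := by
    intro q hq
    obtain ⟨Q, hQ⟩ := esymmAlgHom_surjective ℂ (σ := Fin n) (n := n) (by simp) ⟨q, hq⟩
    have hQ' : aeval (fun i : Fin n => esymm (Fin n) ℂ (i + 1)) Q = q := by
      rw [← esymmAlgHom_apply, hQ]
    rw [← hQ', MvPolynomial.comp_aeval_apply]
    have h3 : (fun i : Fin n => expand 2 (esymm (Fin n) ℂ (i + 1))) =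
        fun i : Fin n => S.val ⟨_, h2 (i + 1)⟩ := rfl
    rw [h3, ← MvPolynomial.comp_aeval_apply]
    exact SetLike.coe_mem _
  rw [ti1_decomp hsign ⟨0, hn⟩]
  exact S.add_mem (key _ fun σ => ti1_part_symm hsym hsign _ _ σ)
    (S.mul_mem h1 (key _ fun σ => ti1_part_symm hsym hsign _ _ σ))

/-- the elementary symmetric polynomials of the squares as coefficients -/
theorem ti1_esymm (j : ℕ) (hj : j ≤ n) : expand 2 (esymm (Fin n) ℂ j) = (-1) ^ j *
    (∏ k : Fin n, (Polynomial.X ^ 2 - Polynomial.C (X k ^ 2) :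
      Polynomial (MvPolynomial (Fin n) ℂ))).coeff ((n - j) * 2) := by
  have h1 : (∏ k : Fin n, (Polynomial.X ^ 2 - Polynomial.C (X k ^ 2) :
      Polynomial (MvPolynomial (Fin n) ℂ))) = Polynomial.expand _ 2
      (∏ k : Fin n, (Polynomial.X + Polynomial.C (-(X k ^ 2)))) := by
    rw [map_prod]
    refine Finset.prod_congr rfl fun k _ => ?_
    rw [map_add, Polynomial.expand_X, Polynomial.expand_C, map_neg, sub_eq_add_neg]
  rw [h1, Polynomial.coeff_expand_mul (by norm_num), Finset.prod_X_add_C_coeff _ _ (by simp)]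
  rw [Finset.card_univ, Fintype.card_fin, Nat.sub_sub_self hj, esymm, map_sum, Finset.mul_sum]
  refine Finset.sum_congr rfl fun t ht => ?_
  rw [Finset.mem_powersetCard] at ht
  rw [map_prod]
  have h2 : ∏ i ∈ t, (-(X i ^ 2) : MvPolynomial (Fin n) ℂ) = (-1) ^ j * ∏ i ∈ t, X i ^ 2 := by
    rw [← ht.2, ← Finset.prod_const, ← Finset.prod_mul_distrib]
    exact Finset.prod_congr rfl fun i _ => by ring
  rw [h2, ← mul_assoc, ← pow_add, ← two_mul, pow_mul]
  simp

end ti1

variable {n : ℕ}

/-! ### The reflections -/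

theorem ti1_sr_apply {R : Type*} [CommRing R] (β : RD n) (x : Fin n → R) (k : Fin n) :
    (DD n).sr β x k = x k - (x β.1.1.1 + (sg β : R) * x β.1.1.2) *
      ((if k = β.1.1.1 then 1 else 0) + (sg β : R) * (if k = β.1.1.2 then 1 else 0)) := by
  unfold Dat.sr
  show x k - ev (wtD (rp β) - wtD (rq β)) x * (((wtD (rp β) - wtD (rq β)) k : ℤ) : R) = _
  rw [ev_rt, rt_apply]
  push_cast
  rfl

theorem ti1_sr_false {R : Type*} [CommRing R] {i j : Fin n} (hij : i < j) (x : Fin n → R) :
    (DD n).sr (⟨(i, j), hij⟩, false) x = x ∘ Equiv.swap i j := by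
  funext k
  rw [ti1_sr_apply]
  have hsg : sg ((⟨(i, j), hij⟩, false) : RD n) = -1 := rfl
  rw [hsg]
  simp only [Function.comp_apply]
  by_cases h1 : k = i
  · subst h1
    rw [Equiv.swap_apply_left, if_pos rfl, if_neg hij.ne]
    push_cast
    ring
  · by_cases h2 : k = j
    · subst h2
      rw [Equiv.swap_apply_right, if_neg h1, if_pos rfl]
      push_cast
      ring
    · rw [Equiv.swap_apply_of_ne_of_ne h1 h2, if_neg h1, if_neg h2]
      ring

theorem ti1_sr_true {R : Type*} [CommRing R] {i j : Fin n} (hij : i < j) (x : Fin n → R)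
    (k : Fin n) : (DD n).sr (⟨(i, j), hij⟩, true) x (Equiv.swap i j k) =
      if k = i ∨ k = j then - x k else x k := by
  rw [ti1_sr_apply]
  have hsg : sg ((⟨(i, j), hij⟩, true) : RD n) = 1 := rfl
  rw [hsg]
  by_cases h1 : k = i
  · subst h1
    rw [Equiv.swap_apply_left, if_neg hij.ne', if_pos rfl, if_pos (Or.inl rfl)]
    push_cast
    ring
  · by_cases h2 : k = j
    · subst h2
      rw [Equiv.swap_apply_right, if_pos rfl, if_neg hij.ne, if_pos (Or.inr rfl)]
      push_cast
      ring
    · rw [Equiv.swap_apply_of_ne_of_ne h1 h2, if_neg h1, if_neg h2,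
        if_neg (by rintro (h | h); exacts [h1 h, h2 h])]
      ring

/-! ### The characteristic polynomial of the slice element -/

theorem ti1_conj {R : Type*} [CommRing R] {N : ℕ} (P Q A : Matrix (Fin N) (Fin N) R)
    (h1 : P * Q = 1) (h2 : Q * P = 1) : (P * A * Q).charpoly = A.charpoly := by
  have h3 : P⁻¹ = Q := Matrix.inv_eq_right_inv h1
  rw [← h3]
  exact Matrix.charpoly_units_conj (⟨P, Q, h1, h2⟩ : (Matrix (Fin N) (Fin N) R)ˣ) A

theorem ti1_upper {R : Type*} [CommRing R] [Algebra ℂ R] (d : Fin (2 * n) → R) :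
    ((eD n).map (algebraMap ℂ R) + Matrix.diagonal d).charpoly =
      ∏ i : Fin (2 * n), (Polynomial.X - Polynomial.C (d i)) := by
  rw [Matrix.charpoly_of_isUpperTriangular]
  · refine Finset.prod_congr rfl fun i _ => ?_
    rw [Matrix.add_apply, Matrix.diagonal_apply_eq, Matrix.map_apply]
    have : eD n i i = 0 := by
      simp only [eD, Matrix.of_apply]
      rw [if_neg (by omega), if_neg (by omega)]
    rw [this, map_zero, zero_add]
  · intro i j hij
    have hij' : (j : ℕ) < (i : ℕ) := hij
    rw [Matrix.add_apply, Matrix.diagonal_apply_ne _ (by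
      intro h'
      rw [h'] at hij'
      omega), Matrix.map_apply]
    have : eD n i j = 0 := by
      simp only [eD, Matrix.of_apply]
      rw [if_neg (by omega), if_neg (by omega)]
    rw [this, map_zero, add_zero]

/-- labels and indices -/
def ti1_e : Lab n ≃ Fin (2 * n) := ⟨ix, lb, lb_ix, ix_lb⟩

theorem ti1_prod {R : Type*} [CommRing R] (x : Fin n → R) :
    ∏ i : Fin (2 * n), (Polynomial.X - Polynomial.C (ev (wtD i) x)) =
      ∏ k : Fin n, (Polynomial.X ^ 2 - Polynomial.C (x k ^ 2)) := by
  rw [← Equiv.prod_comp (ti1_e (n := n)), Fintype.prod_prod_type]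
  refine Finset.prod_congr rfl fun k _ => ?_
  rw [Fintype.prod_bool]
  have h1 : ev (wtD (ti1_e (k, true))) x = x k := by
    show ev (wtD (ix (k, true))) x = x k
    rw [ev_ix]
    rfl
  have h2 : ev (wtD (ti1_e (k, false))) x = - x k := by
    show ev (wtD (ix (k, false))) x = - x k
    rw [ev_ix]
    rfl
  rw [h1, h2, map_neg, map_pow]
  ring

theorem ti1_charpoly (hn : 2 ≤ n) : (sxD n).charpoly =
    ∏ k : Fin n, (Polynomial.X ^ 2 - Polynomial.C (MvPolynomial.X k ^ 2) :
      Polynomial (MvPolynomial (Fin n) ℂ)) := by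
  have h1 : pxD n * sd (pxD n) = 1 := mul_sd (px_sd hn)
  have h2 : sxD n = pxD n * ((eD n).map MvPolynomial.C +
      Matrix.diagonal fun i => ev (wtD i) MvPolynomial.X) * sd (pxD n) := by
    rw [px_conj0 hn, Matrix.mul_assoc, h1, Matrix.mul_one]
  rw [h2, ti1_conj _ _ _ h1 (px_sd hn)]
  have h3 := ti1_upper (n := n) (R := MvPolynomial (Fin n) ℂ)
    (fun i => ev (wtD i) MvPolynomial.X)
  rw [MvPolynomial.algebraMap_eq] at h3
  rw [h3]
  exact ti1_prod _

/-- **Descent.**  Let `p` be invariant under `W(D_n)` (generated by the transpositions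
`x_i ↔ x_j` and `(x_i, x_j) ↦ (-x_j, -x_i)`, so it contains the changes of two signs).
* Invariance under the changes of two signs: every monomial of `p` has all exponents of the same
  parity, so `p = p₀(x_1², ..., x_n²) + (∏ x) p₁(x_1², ..., x_n²)`.
* Invariance under the transpositions: `p₀`, `p₁` are symmetric, hence polynomials in the elementary
  symmetric polynomials (`MvPolynomial.esymmAlgEquiv` or `MvPolynomial.esymmAlgHom_surjective`)
  of the `x_i²`.
* The `e_j(x²)` are, up to sign, coefficients of `∏ (T² - x_i²) = charpoly (sC x)`, polynomials in the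
  entries of `sC x`  (`charpoly (sC x) = ∏ (T - ev (wtD i) x)` since `sC x` is conjugate to `e + x`
  by `px_conj`, upper triangular), and `∏ x` is a linear form in the entries by `prod_X`. -/
theorem descend (hn : 2 ≤ n) (p : MvPolynomial (Fin n) ℂ)
    (hp : ∀ β, MvPolynomial.aeval ((DD n).sr β (XP n)) p = p) :
    ∃ P : MvPolynomial (Fin (2 * n) × Fin (2 * n)) ℂ, ∀ x : Fin n → ℂ,
      MvPolynomial.eval (fun ij => (DD n).sC x ij.1 ij.2) P = MvPolynomial.eval x p := by
  have hsw : ∀ i j : Fin n, i ≠ j → MvPolynomial.rename (Equiv.swap i j) p = p := by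
    have h1 : ∀ i j : Fin n, i < j → MvPolynomial.rename (Equiv.swap i j) p = p := by
      intro i j hij
      have h2 := hp (⟨(i, j), hij⟩, false)
      rw [ti1_sr_false, ← MvPolynomial.aeval_rename] at h2
      rw [← h2]
      conv_lhs => rw [h2]
      exact (MvPolynomial.aeval_X_left_apply _).symm
    intro i j hij
    rcases lt_or_gt_of_ne hij with h | h
    · exact h1 i j h
    · rw [Equiv.swap_comm]
      exact h1 j i h
  have hsym : ∀ σ : Equiv.Perm (Fin n), MvPolynomial.rename σ p = p := by
    intro σ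
    induction σ using Equiv.Perm.swap_induction_on with
    | one => exact MvPolynomial.rename_id_apply p
    | swap_mul f i j hij ih =>
      have h3 : (⇑(Equiv.swap i j * f) : Fin n → Fin n) = ⇑(Equiv.swap i j) ∘ ⇑f := rfl
      rw [h3, ← MvPolynomial.rename_rename, ih, hsw i j hij]
  have hsign : ∀ i j : Fin n, i ≠ j → MvPolynomial.aeval
      (fun k => if k = i ∨ k = j then - MvPolynomial.X k else MvPolynomial.X k :
        Fin n → MvPolynomial (Fin n) ℂ) p = p := by
    have h1 : ∀ i j : Fin n, i < j → MvPolynomial.aeval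
      (fun k => if k = i ∨ k = j then - MvPolynomial.X k else MvPolynomial.X k :
        Fin n → MvPolynomial (Fin n) ℂ) p = p := by
      intro i j hij
      have h2 := hp (⟨(i, j), hij⟩, true)
      rw [← hsw i j hij.ne, MvPolynomial.aeval_rename, hsw i j hij.ne] at h2
      have h4 : ((DD n).sr (⟨(i, j), hij⟩, true) (XP n)) ∘ ⇑(Equiv.swap i j) =
          fun k => if k = i ∨ k = j then - MvPolynomial.X k else MvPolynomial.X k := by
        funext k
        exact ti1_sr_true hij _ k
      rw [h4] at h2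
      exact h2
    intro i j hij
    rcases lt_or_gt_of_ne hij with h | h
    · exact h1 i j h
    · have h5 := h1 j i h
      simp only [or_comm (a := _ = j)] at h5
      exact h5
  set f : MvPolynomial (Fin (2 * n) × Fin (2 * n)) ℂ →ₐ[ℂ] MvPolynomial (Fin n) ℂ :=
    MvPolynomial.aeval (fun ij : Fin (2 * n) × Fin (2 * n) => sxD n ij.1 ij.2) with hf
  have hmem : p ∈ f.range := by
    refine ti1_mem f.range (by omega) ?_ ?_ hsym hsign
    · rw [prod_X hn]
      have hent : ∀ i j, sxD n i j ∈ f.range := fun i j => ⟨MvPolynomial.X (i, j), by simp [hf]⟩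
      exact f.range.mul_mem (f.range.pow_mem (f.range.neg_mem f.range.one_mem) _)
        (f.range.sub_mem (hent _ _) (hent _ _))
    · intro j
      by_cases hj : j ≤ n
      · rw [ti1_esymm j hj, ← ti1_charpoly hn]
        refine f.range.mul_mem (f.range.pow_mem (f.range.neg_mem f.range.one_mem) _) ?_
        have h6 : sxD n = (Matrix.of fun i j => (MvPolynomial.X (i, j) :
            MvPolynomial (Fin (2 * n) × Fin (2 * n)) ℂ)).map (f : _ →+* _) := by
          ext1 i j
          simp [hf]
        rw [h6, Matrix.charpoly_map, Polynomial.coeff_map]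
        exact ⟨_, rfl⟩
      · have h7 : MvPolynomial.esymm (Fin n) ℂ j = 0 := by
          unfold MvPolynomial.esymm
          rw [Finset.powersetCard_eq_empty.2 (by rw [Finset.card_univ, Fintype.card_fin]; omega),
            Finset.sum_empty]
        rw [h7, map_zero]
        exact f.range.zero_mem
  obtain ⟨P, hP⟩ := hmem
  refine ⟨P, fun x => ?_⟩
  have h8 : MvPolynomial.eval x (f P) = MvPolynomial.eval x p := by
    rw [← hP]; rfl
  rw [← h8, hf]
  show MvPolynomial.eval (fun ij : Fin (2 * n) × Fin (2 * n) =>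
    MvPolynomial.eval x (sxD n ij.1 ij.2)) P = _
  generalize P = Q
  induction Q using MvPolynomial.induction_on with
  | C a => simp
  | add p q hp hq => simp only [map_add, hp, hq]
  | mul_X p i hp => simp only [map_mul, MvPolynomial.aeval_X, MvPolynomial.eval_X, hp]

end Pool.Agent.MTD.TD
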