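import Pool.Agent.MTD.TV3

/-! # MTD : type `D`, eigenvectors and the matrix `qC` (row V4) -/

namespace Pool.Agent.MTD.TD

open Matrix
open Pool.Agent.MP_c45d35_ag (chi UpUni LowUni)

variable {n : ℕ}

/-- The eigenvector at a point. -/
noncomputable def wC (x : Fin n → ℂ) (a : Lab n) : Fin (2 * n) → ℂ := fun i =>
  MvPolynomial.eval x (wv a i)

theorem eval_mulVec {N : ℕ} (x : Fin n → ℂ) (M : Matrix (Fin N) (Fin N) (MvPolynomial (Fin n) ℂ))
    (v : Fin N → MvPolynomial (Fin n) ℂ) (i : Fin N) :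
    MvPolynomial.eval x (M.mulVec v i) =
      (M.map (MvPolynomial.eval x)).mulVec (fun i => MvPolynomial.eval x (v i)) i := by
  simp only [Matrix.mulVec, dotProduct, map_sum, map_mul, Matrix.map_apply]

theorem eval_yl (x : Fin n → ℂ) (a : Lab n) :
    MvPolynomial.eval x (yl (XP n) a) = yl x a := by
  rw [← yl_map (MvPolynomial.eval x) (XP n) a]
  congr 1
  funext k
  exact MvPolynomial.eval_X k

theorem eval_pl (x : Fin n → ℂ) (a : Lab n) :
    MvPolynomial.eval x (pl (XP n) a) = pl x a := by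
  rw [← pl_map (MvPolynomial.eval x) (XP n) a]
  congr 1
  funext k
  exact MvPolynomial.eval_X k

/-- At a regular point the eigenvector `w_a` is a nonzero multiple of the column `ix a` of `qC x`:
`qC⁻¹ w_a` is an eigenvector of `Dx x` (eigenvalue `yl x a`) and of `diagonal (pl x (lb i))`
(eigenvalue `pl x a`, `yy_wv`, `yy_q`), so its `i`-th coordinate vanishes unless `lb i = a`
(`lab_sep`); it is nonzero because the first coordinate of `w_a` is `1`. -/
theorem wC_q (hn : 2 ≤ n) {x : Fin n → ℂ} (hx : (DD n).Reg x) (a : Lab n) :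
    ∃ c : ℂ, c ≠ 0 ∧ wC x a = c • fun i => (DD n).qC x i (ix a) := by
  have A := ax hn
  set q := (DD n).qC x with hq
  have hqd : IsUnit q.det := by rw [A.det _ (A.qC_isG x)]; exact isUnit_one
  have hqi : q * q⁻¹ = 1 := Matrix.mul_nonsing_inv q hqd
  have hqi' : q⁻¹ * q = 1 := Matrix.nonsing_inv_mul q hqd
  -- eigenvector equations for `w_a`
  have h1 : ((DD n).sC x).mulVec (wC x a) = yl x a • wC x a := by
    funext i
    have h := congrArg (MvPolynomial.eval x) (congrFun (wv_eig hn a) i)
    rw [eval_mulVec, Pi.smul_apply, smul_eq_mul, map_mul, eval_yl] at h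
    exact h
  have h2 : (yyC n x).mulVec (wC x a) = pl x a • wC x a := by
    funext i
    have h := congrArg (MvPolynomial.eval x) (congrFun (yy_wv hn a) i)
    rw [eval_mulVec, Pi.smul_apply, smul_eq_mul, map_mul, eval_pl] at h
    exact h
  set v : Fin (2 * n) → ℂ := q⁻¹.mulVec (wC x a) with hv
  have hwv : wC x a = q.mulVec v := by
    rw [hv, Matrix.mulVec_mulVec, hqi, Matrix.one_mulVec]
  have h3 : ((DD n).Dx x).mulVec v = yl x a • v := by
    have e : (DD n).Dx x * q⁻¹ = q⁻¹ * (DD n).sC x := by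
      have e1 := A.qC_conj hx
      calc (DD n).Dx x * q⁻¹ = q⁻¹ * (q * (DD n).Dx x) * q⁻¹ := by
            rw [← Matrix.mul_assoc q⁻¹, hqi', Matrix.one_mul]
        _ = q⁻¹ * ((DD n).sC x * q) * q⁻¹ := by rw [e1]
        _ = q⁻¹ * (DD n).sC x * (q * q⁻¹) := by simp only [Matrix.mul_assoc]
        _ = q⁻¹ * (DD n).sC x := by rw [hqi, Matrix.mul_one]
    rw [hv, Matrix.mulVec_mulVec, e, ← Matrix.mulVec_mulVec, h1, Matrix.mulVec_smul]
  have h4 : (Matrix.diagonal fun i => pl x (lb i)).mulVec v = pl x a • v := by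
    have e : (Matrix.diagonal fun i => pl x (lb i)) * q⁻¹ = q⁻¹ * yyC n x := by
      have e1 := yy_q hn hx
      calc (Matrix.diagonal fun i => pl x (lb i)) * q⁻¹ =
            q⁻¹ * (q * (Matrix.diagonal fun i => pl x (lb i))) * q⁻¹ := by
            rw [← Matrix.mul_assoc q⁻¹, hqi', Matrix.one_mul]
        _ = q⁻¹ * (yyC n x * q) * q⁻¹ := by rw [e1]
        _ = q⁻¹ * yyC n x * (q * q⁻¹) := by simp only [Matrix.mul_assoc]
        _ = q⁻¹ * yyC n x := by rw [hqi, Matrix.mul_one]
    rw [hv, Matrix.mulVec_mulVec, e, ← Matrix.mulVec_mulVec, h2, Matrix.mulVec_smul]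
  have h5 : ∀ i, i ≠ ix a → v i = 0 := by
    intro i hi
    by_contra hvi
    apply hi
    have e1 := congrFun h3 i
    have e2 := congrFun h4 i
    rw [Dat.Dx, Matrix.mulVec_diagonal, Pi.smul_apply, smul_eq_mul] at e1
    rw [Matrix.mulVec_diagonal, Pi.smul_apply, smul_eq_mul] at e2
    have e3 : yl x (lb i) = yl x a := by
      rw [← ev_ix x (lb i), ix_lb]
      exact mul_right_cancel₀ hvi e1
    have e4 : pl x (lb i) = pl x a := mul_right_cancel₀ hvi e2
    rw [← lab_sep hx e3 e4, ix_lb]
  have h6 : wC x a = v (ix a) • fun i => q i (ix a) := by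
    rw [hwv]
    funext i
    rw [Matrix.mulVec, dotProduct, Finset.sum_eq_single (ix a)]
    · rw [Pi.smul_apply, smul_eq_mul, mul_comm]
    · intro k _ hk
      rw [h5 k hk, mul_zero]
    · intro h
      exact absurd (Finset.mem_univ _) h
  refine ⟨v (ix a), ?_, h6⟩
  intro h0
  have h7 := congrFun h6 (⟨0, by omega⟩ : Fin (2 * n))
  rw [h0, zero_smul, Pi.zero_apply] at h7
  have h8 : wC x a ⟨0, by omega⟩ = 1 := by
    unfold wC
    rw [wv_zero hn a, map_one]
  rw [h8] at h7
  exact one_ne_zero h7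

/-- rows of `e` above the middle -/
theorem eD_mul_row {m : ℕ} (hm : m + 1 < n) (u : Matrix (Fin (2 * n)) (Fin (2 * n)) ℂ)
    (r : Fin (2 * n)) : (eD n * u) ⟨m, by omega⟩ r =
      u ⟨m + 1, by omega⟩ r + if m + 2 = n then u ⟨n, by omega⟩ r else 0 := by
  have h : ∀ k : Fin (2 * n), eD n ⟨m, by omega⟩ k =
      (if k = ⟨m + 1, by omega⟩ then 1 else 0) +
        (if k = ⟨n, by omega⟩ then (if m + 2 = n then 1 else 0) else 0) := by
    intro k
    simp only [eD, Matrix.of_apply, Fin.ext_iff]
    by_cases c1 : (k : ℕ) = m + 1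
    · rw [if_pos (Or.inl ⟨c1, by omega⟩), if_pos c1, if_neg (by omega), add_zero]
    · by_cases c2 : (k : ℕ) = n
      · by_cases c3 : m + 2 = n
        · rw [if_pos (Or.inr ⟨c3, c2⟩), if_neg c1, if_pos c2, if_pos c3, zero_add]
        · rw [if_neg (by omega), if_neg (by omega), if_neg c1, if_pos c2, if_neg c3, zero_add]
      · rw [if_neg (by omega), if_neg (by omega), if_neg c1, if_neg c2, zero_add]
  rw [Matrix.mul_apply]
  simp only [h, add_mul, ite_mul, one_mul, zero_mul, Finset.sum_add_distrib, Finset.sum_ite_eq',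
    Finset.mem_univ, if_true]

/-- the middle entry of an upper unipotent isometry vanishes -/
theorem mid_zero (hn : 2 ≤ n) {u : Matrix (Fin (2 * n)) (Fin (2 * n)) ℂ} (hu : UpUni u)
    (hs : sd u * u = 1) : u ⟨n - 1, by omega⟩ ⟨n, by omega⟩ = 0 := by
  have h := congrFun (congrFun hs ⟨n - 1, by omega⟩) ⟨n, by omega⟩
  rw [Matrix.one_apply_ne (by rw [ne_eq, Fin.ext_iff]; simp only; omega), Matrix.mul_apply] at h
  have hne : (⟨n - 1, by omega⟩ : Fin (2 * n)) ≠ ⟨n, by omega⟩ := by
    rw [ne_eq, Fin.ext_iff]; simp only; omega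
  have r1 : Fin.rev (⟨n - 1, by omega⟩ : Fin (2 * n)) = ⟨n, by omega⟩ := by
    apply Fin.ext; rw [Fin.val_rev]; simp only; omega
  have r2 : Fin.rev (⟨n, by omega⟩ : Fin (2 * n)) = ⟨n - 1, by omega⟩ := by
    apply Fin.ext; rw [Fin.val_rev]; simp only; omega
  rw [Finset.sum_eq_add (⟨n - 1, by omega⟩ : Fin (2 * n)) ⟨n, by omega⟩ hne] at h
  · rw [sd_apply, sd_apply, r1, r2, hu.2, one_mul, mul_one] at h
    linear_combination (1 / 2 : ℂ) * h
  · rintro k _ ⟨hk1, hk2⟩
    rw [sd_apply, r1]
    rcases lt_or_gt_of_ne hk2 with h' | h'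
    · have : (⟨n, by omega⟩ : Fin (2 * n)) < Fin.rev k := by
        rw [Fin.lt_def, Fin.val_rev]
        have e1 : (k : ℕ) < n := h'
        have e2 : (k : ℕ) ≠ n - 1 := fun e => hk1 (Fin.ext e)
        simp only
        omega
      rw [hu.1 _ _ this, zero_mul]
    · rw [hu.1 _ _ h', mul_zero]
  · intro h'
    exact absurd (Finset.mem_univ _) h'
  · intro h'
    exact absurd (Finset.mem_univ _) h'

/-- The first row of `qC` at the first `n` columns and at the column `n`.  As `pC` is lower
unipotent, the first row of `qC = pC * ueC` is that of `ueC`.  The column `v = ueC · (ix a)` is an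
eigenvector of `e + x` with eigenvalue `y = yl x a`; rows `i < j` (where `j = a.1`) give
`v_{i+1} = (y - x_i) v_i`; in the case `a = (n-1, false)`, the row `n-2` gives
`v_{n-1} + v_n = (y - x_{n-2}) v_{n-2}` and `v_{n-1} = ueC (n-1) n = 0` because `ueC` is upper
unipotent and `sd ueC * ueC = 1`. -/
theorem qC_row0 (hn : 2 ≤ n) {x : Fin n → ℂ} (hx : (DD n).Reg x) (a : Lab n)
    (ha : a.2 = true ∨ (a.1 : ℕ) + 1 = n) :
    (DD n).qC x ⟨0, by omega⟩ (ix a) *
      ∏ l ∈ Finset.univ.filter (fun l : Fin n => l < a.1), (yl x a - x l) = 1 := by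
  have A := ax hn
  have hpc : LowUni ((DD n).pC x) := ⟨fun i j h => by
    show MvPolynomial.eval x (pxD n i j) = 0
    rw [(px_low hn).1 i j h, map_zero], fun i => by
    show MvPolynomial.eval x (pxD n i i) = 1
    rw [(px_low hn).2 i, map_one]⟩
  set u := (DD n).ueC x with hu'
  have hu : UpUni u := A.ueC_upUni x
  have hs : sd u * u = 1 := ((isG_iff u).1 (A.ueC_isG x)).1
  have h0 : (DD n).qC x ⟨0, by omega⟩ (ix a) = u ⟨0, by omega⟩ (ix a) := by
    unfold Dat.qC
    rw [Matrix.mul_apply, Finset.sum_eq_single (⟨0, by omega⟩ : Fin (2 * n))]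
    · rw [hpc.2, one_mul]
    · intro k _ hk
      have : (⟨0, by omega⟩ : Fin (2 * n)) < k := by
        have h1 : (k : ℕ) ≠ 0 := fun h => hk (Fin.ext h)
        rw [Fin.lt_def]
        simp only
        omega
      rw [hpc.1 _ k this, zero_mul]
    · intro h
      exact absurd (Finset.mem_univ _) h
  rw [h0]
  set r := ix a with hr
  have ha1 := a.1.2
  -- rows
  have hrow : ∀ m : ℕ, ∀ hm : m + 1 < n, (yl x a - x ⟨m, by omega⟩) * u ⟨m, by omega⟩ r =
      u ⟨m + 1, by omega⟩ r + if m + 2 = n then u ⟨n, by omega⟩ r else 0 := by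
    intro m hm
    have h1 := congrFun (congrFun (A.ueC_conj hx) ⟨m, by omega⟩) r
    rw [e_eq hn, Matrix.add_mul, Matrix.add_apply, Dat.Dx, Matrix.mul_diagonal,
      Matrix.diagonal_mul, ← hu', eD_mul_row hm] at h1
    have h2 : ev ((DD n).wt r) x = yl x a := ev_ix x a
    have h3 : ev ((DD n).wt ⟨m, by omega⟩) x = x ⟨m, by omega⟩ := ev_wt_lo ⟨m, by omega⟩ x
    rw [h2, h3] at h1
    linear_combination h1
  -- the value of `ix a`
  have hrv : (r : ℕ) = if a.2 then (a.1 : ℕ) else 2 * n - 1 - (a.1 : ℕ) := by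
    rw [hr]
    unfold ix
    split_ifs
    · rfl
    · rw [Fin.val_rev]
      show 2 * n - ((a.1 : ℕ) + 1) = _
      omega
  have hge : (a.1 : ℕ) ≤ r := by
    rw [hrv]
    split_ifs <;> omega
  have key : ∀ m : ℕ, ∀ hm : m < a.1,
      u ⟨m, by omega⟩ r = u ⟨0, by omega⟩ r *
        ∏ l ∈ Finset.univ.filter (fun l : Fin n => (l : ℕ) < m), (yl x a - x l) := by
    intro m
    induction m with
    | zero =>
      intro hm
      have : Finset.univ.filter (fun l : Fin n => (l : ℕ) < 0) = ∅ := by
        apply Finset.filter_eq_empty_iff.mpr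
        intro l _ hl
        omega
      rw [this, Finset.prod_empty, mul_one]
    | succ m ih =>
      intro hm
      have h2 := ih (by omega)
      have h1 := hrow m (by omega)
      rw [if_neg (by omega), add_zero] at h1
      have h3 : Finset.univ.filter (fun l : Fin n => (l : ℕ) < m + 1) =
          insert (⟨m, by omega⟩ : Fin n) (Finset.univ.filter (fun l : Fin n => (l : ℕ) < m)) := by
        ext l
        simp only [Finset.mem_filter, Finset.mem_univ, true_and, Finset.mem_insert,
          Fin.ext_iff]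
        omega
      rw [← h1, h2, h3, Finset.prod_insert (by simp)]
      ring
  have hfil : Finset.univ.filter (fun l : Fin n => l < a.1) =
      Finset.univ.filter (fun l : Fin n => (l : ℕ) < (a.1 : ℕ)) := rfl
  rw [hfil]
  rcases Nat.eq_zero_or_pos (a.1 : ℕ) with hz | hp
  · -- the first index
    have h2t : a.2 = true := by
      rcases ha with h | h
      · exact h
      · omega
    have hr0 : r = (⟨0, by omega⟩ : Fin (2 * n)) := by
      apply Fin.ext
      rw [hrv, if_pos h2t, hz]
    have : Finset.univ.filter (fun l : Fin n => (l : ℕ) < (a.1 : ℕ)) = ∅ := by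
      apply Finset.filter_eq_empty_iff.mpr
      intro l _ hl
      omega
    rw [this, Finset.prod_empty, mul_one, hr0, hu.2]
  · obtain ⟨m, hm⟩ : ∃ m, (a.1 : ℕ) = m + 1 := ⟨a.1 - 1, by omega⟩
    have h1 := hrow m (by omega)
    have h2 := key m (by omega)
    have h3 : Finset.univ.filter (fun l : Fin n => (l : ℕ) < m + 1) =
        insert (⟨m, by omega⟩ : Fin n) (Finset.univ.filter (fun l : Fin n => (l : ℕ) < m)) := by
      ext l
      simp only [Finset.mem_filter, Finset.mem_univ, true_and, Finset.mem_insert,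
        Fin.ext_iff]
      omega
    have h4 : u ⟨m + 1, by omega⟩ r + (if m + 2 = n then u ⟨n, by omega⟩ r else 0) = 1 := by
      by_cases h2t : a.2 = true
      · have hrm : r = (⟨m + 1, by omega⟩ : Fin (2 * n)) := by
          apply Fin.ext
          rw [hrv, if_pos h2t, hm]
        rw [hrm, hu.2]
        split_ifs with hmn
        · rw [hu.1 _ _ (by rw [Fin.lt_def]; simp only; omega), add_zero]
        · rw [add_zero]
      · have han : (a.1 : ℕ) + 1 = n := by
          rcases ha with h | h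
          · exact absurd h h2t
          · exact h
        have hrm : r = (⟨n, by omega⟩ : Fin (2 * n)) := by
          apply Fin.ext
          rw [hrv, if_neg h2t]
          simp only
          omega
        rw [if_pos (by omega), hrm, hu.2]
        have h5 := mid_zero hn hu hs
        have h6 : (⟨m + 1, by omega⟩ : Fin (2 * n)) = ⟨n - 1, by omega⟩ := by
          apply Fin.ext
          simp only
          omega
        rw [h6, h5, zero_add]
    rw [h4, h2] at h1
    rw [hm, h3, Finset.prod_insert (by simp)]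
    linear_combination h1

end Pool.Agent.MTD.TD
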