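import Pool.Agent.MTD.TC3
import Pool.Agent.MTD.TI1
import Pool.Agent.MTD.TV4

/-! # MTD : type `D`, the polynomial `F` (row F1) -/

namespace Pool.Agent.MTD.TD

open Matrix
open Pool.Agent.MTD.GR Pool.Agent.MTD.LA
open Pool.Agent.MP_c45d35_ag (chi UpUni LowUni chi_add chi_zero chi_mul chi_neg)

variable {n k b : ℕ}

/-- The sum `CG` is multilinear in the functionals. -/
theorem CG_sum {K : Type*} [CommRing K] [Algebra ℂ K] {B : ℕ} {σ : Type*} [Fintype σ]
    (k : ℕ) (ε : ℤ) (x : Fin n → K)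
    (w : Lab n → Fin (2 * n) → K) (c : Fin B → σ → K)
    (φ : σ → Matrix (GI (2 * n)) (GI (2 * n)) K →ₗ[K] K) :
    CG k ε x w (fun a => ∑ J : σ, c a J • φ J) =
      ∑ J : Fin B → σ, (∏ a, c a (J a)) * CG k ε x w fun a => φ (J a) := by
  classical
  have h1 : ∀ X : Matrix (GI (2 * n)) (GI (2 * n)) K,
      ∏ a, (∑ J : σ, c a J • φ J) X = ∑ J : Fin B → σ, (∏ a, c a (J a)) * ∏ a, φ (J a) X := by
    intro X
    have h2 : ∀ a, (∑ J : σ, c a J • φ J) X = ∑ J : σ, c a J * φ J X := by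
      intro a
      rw [LinearMap.sum_apply]
      rfl
    simp only [h2]
    rw [Finset.prod_univ_sum, Fintype.piFinset_univ]
    refine Finset.sum_congr rfl fun J _ => ?_
    rw [Finset.prod_mul_distrib]
  rw [CG_eq]
  simp only [h1, CG_eq, Finset.mul_sum, Finset.sum_mul]
  have h3 : ∀ r : RS n k ε, (∑ R ∈ Finset.univ.filter (fun R : Finset (Fin k) => Even R.card),
      ∑ J : Fin B → σ, (∏ a, c a (J a)) * (∏ a, φ (J a) (VV x w r.1 R)) *
        Ring.inverse (D0 x r.1 * DR (fun i => yl x (r.1 i)) R)) =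
      ∑ J : Fin B → σ, ∑ R ∈ Finset.univ.filter (fun R : Finset (Fin k) => Even R.card),
        (∏ a, c a (J a)) * (∏ a, φ (J a) (VV x w r.1 R)) *
        Ring.inverse (D0 x r.1 * DR (fun i => yl x (r.1 i)) R) := fun r => Finset.sum_comm
  simp only [h3]
  rw [Finset.sum_comm]
  refine Finset.sum_congr rfl fun J _ => Finset.sum_congr rfl fun r _ =>
    Finset.sum_congr rfl fun R _ => ?_
  ring

/-- **The function `F`.**  `P = ∑_J (∏_a ∏_i X_{a, I_a i, J_a i}) P_J(s)`, `P_J` from `CK_poly` and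
`descend`; `CK_apply`, `CG_sum`, definition of `pg`. -/
theorem exists_PF (hn : 2 ≤ n) (ε : ℤ) (I : Fin (b + 1) → Fin k → Fin (2 * n)) :
    ∃ P : MvPolynomial (Idx (2 * n) (b + 1)) ℂ, ∀ x : Fin n → ℂ, (DD n).Reg x →
      ∀ g : Fin (b + 1) → Matrix (Fin (2 * n)) (Fin (2 * n)) ℂ,
      MvPolynomial.eval (co g ((DD n).sC x)) P = CG k ε x (wC x) fun a => pg (g a) (I a) := by
  have h1 : ∀ J : Fin (b + 1) → Fin k → Fin (2 * n),
      ∃ P : MvPolynomial (Fin (2 * n) × Fin (2 * n)) ℂ, ∀ x : Fin n → ℂ, (DD n).Reg x →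
        MvPolynomial.eval (fun ij => (DD n).sC x ij.1 ij.2) P =
          CG k ε x (wC x) fun a => ph (J a) := by
    intro J
    obtain ⟨p, hp, hp'⟩ := CK_poly (k := k) hn ε J
    obtain ⟨P, hP⟩ := descend hn p hp'
    refine ⟨P, fun x hx => ?_⟩
    rw [hP x, ← hp ⟨x, hx⟩, CK_apply]
    rfl
  choose PJ hPJ using h1
  refine ⟨∑ J : Fin (b + 1) → Fin k → Fin (2 * n),
    (∏ a, ∏ i, MvPolynomial.X (Sum.inl (a, I a i, J a i))) *
      MvPolynomial.rename Sum.inr (PJ J), fun x hx g => ?_⟩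
  have h2 := CG_sum (B := b + 1) k ε x (wC x) (fun a J => ∏ i, g a (I a i) (J i))
    (fun J : Fin k → Fin (2 * n) => ph J)
  have h3 : (fun a => pg (g a) (I a)) =
      fun a : Fin (b + 1) => ∑ J : Fin k → Fin (2 * n), (∏ i, g a (I a i) (J i)) • ph J := rfl
  rw [h3, h2, map_sum]
  refine Finset.sum_congr rfl fun J _ => ?_
  rw [map_mul, map_prod, ← hPJ J x hx, MvPolynomial.eval_rename]
  congr 1
  refine Finset.prod_congr rfl fun a _ => ?_
  rw [map_prod]
  refine Finset.prod_congr rfl fun i _ => ?_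
  rw [MvPolynomial.eval_X]
  rfl

section f1aux
variable {K : Type*} [CommRing K] {N : ℕ} {A : Type*}

/-- The span of the products of `j` vectors `w_a` with weight `μ`. -/
def f1S (w : A → Fin N → K) (lam : A → K) (j : ℕ) (μ : K) :
    Submodule K (Matrix (GI N) (GI N) K) :=
  Submodule.span K {X | ∃ l : List A, l.length = j ∧ (l.map lam).prod = μ ∧
    X = (l.map fun a => io (w a)).prod}

theorem f1S_mul {w : A → Fin N → K} {lam : A → K} {j j' : ℕ} {μ μ' : K}
    {X X' : Matrix (GI N) (GI N) K} (hX : X ∈ f1S w lam j μ) (hX' : X' ∈ f1S w lam j' μ') :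
    X * X' ∈ f1S w lam (j + j') (μ * μ') := by
  have h1 := Submodule.mul_mem_mul hX hX'
  unfold f1S at h1
  rw [Submodule.span_mul_span] at h1
  refine Submodule.span_mono ?_ h1
  rintro _ ⟨Y, ⟨l, hl, hμ, rfl⟩, Y', ⟨l', hl', hμ', rfl⟩, rfl⟩
  refine ⟨l ++ l', by rw [List.length_append, hl, hl'], ?_, ?_⟩
  · rw [List.map_append, List.prod_append, hμ, hμ']
  · rw [List.map_append, List.prod_append]

theorem f1S_one (w : A → Fin N → K) (lam : A → K) : (1 : Matrix (GI N) (GI N) K) ∈ f1S w lam 0 1 :=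
  Submodule.subset_span ⟨[], rfl, rfl, rfl⟩

theorem f1S_pow {w : A → Fin N → K} {lam : A → K} {X : Matrix (GI N) (GI N) K}
    (hX : X ∈ f1S w lam 2 1) (m : ℕ) : X ^ m ∈ f1S w lam (m * 2) 1 := by
  induction m with
  | zero => exact f1S_one w lam
  | succ m ih =>
    have h1 := f1S_mul ih hX
    rw [one_mul, ← Nat.succ_mul] at h1
    rw [pow_succ]
    exact h1

theorem f1S_pg {w : A → Fin N → K} {lam : A → K} {h : Matrix (Fin N) (Fin N) K}
    (hw : ∀ a, h.mulVec (w a) = lam a • w a) (g : Matrix (Fin N) (Fin N) K) {k : ℕ} {μ : K}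
    (I : Fin k → Fin N) {X : Matrix (GI N) (GI N) K} (hX : X ∈ f1S w lam k μ) :
    pg (g * h) I X = μ * pg g I X := by
  unfold f1S at hX
  induction hX using Submodule.span_induction with
  | mem X hX =>
    obtain ⟨l, hl, hμ, rfl⟩ := hX
    rw [pg_semi w lam h hw g I l hl, hμ]
  | zero => rw [map_zero, map_zero, mul_zero]
  | add X Y _ _ hX hY => rw [map_add, map_add, hX, hY, mul_add]
  | smul c X _ hX => rw [map_smul, map_smul, hX, smul_eq_mul, smul_eq_mul]; ring

theorem f1S_ordP (w : A → Fin N → K) (lam : A → K) {k : ℕ} (r : Fin k → A) (C : Finset (Fin k)) :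
    ordP (fun i => io (w (r i))) C ∈ f1S w lam C.card (∏ i ∈ C, lam (r i)) := by
  have h1 : ((List.finRange k).filter (· ∈ C)).toFinset = C := by
    ext x
    simp
  have hnd : ((List.finRange k).filter (· ∈ C)).Nodup := (List.nodup_finRange k).filter _
  refine Submodule.subset_span ⟨((List.finRange k).filter (· ∈ C)).map r, ?_, ?_, ?_⟩
  · rw [List.length_map, ← List.toFinset_card_of_nodup hnd, h1]
  · rw [List.map_map]
    have h2 := List.prod_toFinset (fun i => lam (r i)) hnd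
    rw [h1] at h2
    exact h2.symm
  · rw [List.map_map]
    rfl

end f1aux

/-- Semi-invariance of `V(r, R)`: it is a linear combination of products of `k` vectors
`w_{r i}` (`i ∉ R`), and pairs `w_{r i} w_{ng (r i)}` (`i ∈ R`, `|R|/2` of them); `pg_semi`. -/
theorem pg_VV (x : Fin n → ℂ) (w : Lab n → Fin (2 * n) → ℂ) (lam : Lab n → ℂ)
    (h : Matrix (Fin (2 * n)) (Fin (2 * n)) ℂ) (hw : ∀ a, h.mulVec (w a) = lam a • w a)
    (hlam : ∀ a, lam a * lam (ng a) = 1) (g : Matrix (Fin (2 * n)) (Fin (2 * n)) ℂ)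
    (I : Fin k → Fin (2 * n)) (r : Fin k → Lab n) (R : Finset (Fin k)) (hR : Even R.card) :
    pg (g * h) I (VV x w r R) = (∏ i ∈ Rᶜ, lam (r i)) * pg g I (VV x w r R) := by
  refine f1S_pg hw g I ?_
  have h1 : NC (fun i => yl x (r i)) (fun i => io (w (r i))) Rᶜ ∈
      f1S w lam Rᶜ.card (∏ i ∈ Rᶜ, lam (r i)) :=
    Submodule.smul_mem _ _ (f1S_ordP w lam r Rᶜ)
  have h2 : Om (fun i => yl x (r i)) (fun i => io (w (r i))) (fun i => io (w (ng (r i)))) R ∈
      f1S w lam 2 1 := by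
    refine Submodule.sum_mem _ fun i _ => Submodule.smul_mem _ _ (Submodule.subset_span
      ⟨[r i, ng (r i)], rfl, ?_, ?_⟩)
    · simp [hlam]
    · simp
  have h3 := f1S_mul h1 (f1S_pow h2 (R.card / 2))
  have h4 : Rᶜ.card + R.card / 2 * 2 = k := by
    rw [Nat.div_mul_cancel hR.two_dvd, Finset.card_compl, Fintype.card_fin]
    have := Finset.card_le_univ R
    rw [Fintype.card_fin] at this
    omega
  rw [h4, mul_one] at h3
  exact Submodule.smul_mem _ _ h3

/-- `V(r, ∅)` is the ordered product divided by the Vandermonde determinant. -/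
theorem pg_VV_empty (x : Fin n → ℂ) (w : Lab n → Fin (2 * n) → ℂ)
    (g : Matrix (Fin (2 * n)) (Fin (2 * n)) ℂ) (I : Fin k → Fin (2 * n)) (r : Fin k → Lab n) :
    pg g I (VV x w r ∅) = Ring.inverse (vd (fun i => yl x (r i)) Finset.univ) *
      Matrix.det (Matrix.of fun i j => (g.mulVec (w (r j))) (I i)) := by
  have h1 : VV x w r ∅ = Ring.inverse (vd (fun i => yl x (r i)) Finset.univ) •
      (List.ofFn fun i => io (w (r i))).prod := by
    unfold VV VR
    rw [sp_empty, Finset.card_empty, Nat.zero_div, Nat.factorial_zero, pow_zero, mul_one,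
      Finset.compl_empty, NC]
    have h2 : ordP (fun i => io (w (r i))) Finset.univ = (List.ofFn fun i => io (w (r i))).prod := by
      unfold ordP
      rw [List.filter_eq_self.2 (by simp), List.ofFn_eq_map]
    rw [h2]
    simp
  rw [h1, map_smul, smul_eq_mul, pg_prod]

/-- The invariance at the regular points: `h_a` commutes with `sC x`, so it is
`qC Tt(τ_a) qC⁻¹` (`cent`), and `h_a w_c = chi (wtD (ix c)) τ_a • w_c` (`wC_q`);
`∏_a τ_a = 1` (all the `wtD`-characters of `∏ τ_a` are trivial). -/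
theorem invP_reg (hn : 2 ≤ n) (ε : ℤ) (I : Fin (b + 1) → Fin k → Fin (2 * n))
    {x : Fin n → ℂ} (hx : (DD n).Reg x)
    (g h : Fin (b + 1) → Matrix (Fin (2 * n)) (Fin (2 * n)) ℂ)
    (hh : ∀ a, (DD n).IsG (h a) ∧ Commute (h a) ((DD n).sC x)) (hp : (List.ofFn h).prod = 1) :
    CG k ε x (wC x) (fun a => pg (g a * h a) (I a)) = CG k ε x (wC x) fun a => pg (g a) (I a) := by
  have A := ax hn
  set q := (DD n).qC x with hq
  have hqG : (DD n).IsG q := A.qC_isG x
  have hqi : q⁻¹ * q = 1 := A.inv_mul hqG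
  have hqi' : q * q⁻¹ = 1 := A.mul_inv hqG
  have hconj : q * (DD n).Dx x = (DD n).sC x * q := A.qC_conj hx
  have hconj' : q⁻¹ * (DD n).sC x = (DD n).Dx x * q⁻¹ := by
    calc q⁻¹ * (DD n).sC x = q⁻¹ * ((DD n).sC x * q) * q⁻¹ := by
          rw [Matrix.mul_assoc, Matrix.mul_assoc, hqi', Matrix.mul_one]
      _ = (q⁻¹ * q) * (DD n).Dx x * q⁻¹ := by rw [← hconj]; simp only [Matrix.mul_assoc]
      _ = (DD n).Dx x * q⁻¹ := by rw [hqi, Matrix.one_mul]
  have key : ∀ a, ∃ τ : Fin n → ℂˣ, h a = q * (DD n).Tt τ * q⁻¹ := by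
    intro a
    obtain ⟨τ, hτ⟩ := A.cent (q⁻¹ * h a * q) x
      (A.mul _ _ (A.mul _ _ (A.inv _ hqG) (hh a).1) hqG) hx (by
        change q⁻¹ * h a * q * (DD n).Dx x = (DD n).Dx x * (q⁻¹ * h a * q)
        have h1 : h a * (DD n).sC x = (DD n).sC x * h a := (hh a).2
        calc q⁻¹ * h a * q * (DD n).Dx x = q⁻¹ * (h a * (q * (DD n).Dx x)) := by
              simp only [Matrix.mul_assoc]
          _ = q⁻¹ * ((h a * (DD n).sC x) * q) := by rw [hconj]; simp only [Matrix.mul_assoc]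
          _ = (q⁻¹ * (DD n).sC x) * (h a * q) := by rw [h1]; simp only [Matrix.mul_assoc]
          _ = (DD n).Dx x * (q⁻¹ * h a * q) := by rw [hconj']; simp only [Matrix.mul_assoc])
    refine ⟨τ, ?_⟩
    rw [← hτ]
    calc h a = (q * q⁻¹) * h a * (q * q⁻¹) := by rw [hqi', Matrix.one_mul, Matrix.mul_one]
      _ = q * (q⁻¹ * h a * q) * q⁻¹ := by simp only [Matrix.mul_assoc]
  choose τ hτ using key
  have hprod : (DD n).Tt (∏ a, τ a) = 1 := by
    have h1 : h = fun a => q * (DD n).Tt (τ a) * q⁻¹ := funext hτ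
    rw [h1, prod_ofFn_conj A q hqG] at hp
    calc (DD n).Tt (∏ a, τ a) = (q⁻¹ * q) * (DD n).Tt (∏ a, τ a) * (q⁻¹ * q) := by
          rw [hqi, Matrix.one_mul, Matrix.mul_one]
      _ = q⁻¹ * (q * (DD n).Tt (∏ a, τ a) * q⁻¹) * q := by simp only [Matrix.mul_assoc]
      _ = 1 := by rw [hp, Matrix.mul_one, hqi]
  set lam : Fin (b + 1) → Lab n → ℂ := fun a c => ((chi (wtD (ix c)) (τ a) : ℂˣ) : ℂ) with hlam
  have hw : ∀ a c, (h a).mulVec (wC x c) = lam a c • wC x c := by
    intro a c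
    obtain ⟨c0, _, hc0⟩ := wC_q hn hx c
    rw [hc0, Matrix.mulVec_smul, smul_comm]
    congr 1
    funext i
    have h1 : (h a * q) i (ix c) = (q * (DD n).Tt (τ a)) i (ix c) := by
      rw [hτ a, Matrix.mul_assoc, hqi, Matrix.mul_one]
    have h2 : (q * (DD n).Tt (τ a)) i (ix c) = q i (ix c) * lam a c := by
      unfold Dat.Tt
      rw [Matrix.mul_diagonal]
      rfl
    rw [h2] at h1
    change (h a * q) i (ix c) = lam a c * q i (ix c)
    rw [h1, mul_comm]
  have hinv : ∀ a c, lam a c * lam a (ng c) = 1 := by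
    intro a c
    rw [hlam]
    simp only
    rw [ix_ng, ← Units.val_mul, ← chi_add]
    have h1 : wtD (ix c) + wtD (Fin.rev (ix c)) = 0 := by
      funext l
      simp only [wtD, Pi.add_apply, Pi.zero_apply, Fin.rev_rev]
      ring
    rw [h1, chi_zero, Units.val_one]
  have hone : ∀ c, ∏ a, lam a c = 1 := by
    intro c
    have h1 := congrFun (congrFun hprod (ix c)) (ix c)
    unfold Dat.Tt at h1
    rw [Matrix.diagonal_apply_eq, Matrix.one_apply_eq] at h1
    have h2 : chi (wtD (ix c)) (∏ a, τ a) = ∏ a, chi (wtD (ix c)) (τ a) := by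
      unfold chi
      rw [Finset.prod_comm]
      refine Finset.prod_congr rfl fun l _ => ?_
      rw [Finset.prod_apply, Finset.prod_zpow]
    have h3 : ((chi (wtD (ix c)) (∏ a, τ a) : ℂˣ) : ℂ) = 1 := h1
    rw [h2, Units.coe_prod] at h3
    exact h3
  rw [CG_eq, CG_eq]
  refine Finset.sum_congr rfl fun r _ => Finset.sum_congr rfl fun R hR => ?_
  congr 1
  have hR' : Even R.card := (Finset.mem_filter.1 hR).2
  have h1 : ∀ a, pg (g a * h a) (I a) (VV x (wC x) r.1 R) =
      (∏ i ∈ Rᶜ, lam a (r.1 i)) * pg (g a) (I a) (VV x (wC x) r.1 R) := fun a =>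
    pg_VV x (wC x) (lam a) (h a) (hw a) (hinv a) (g a) (I a) r.1 R hR'
  simp only [h1]
  rw [Finset.prod_mul_distrib, Finset.prod_comm]
  simp only [hone]
  rw [Finset.prod_const_one, one_mul]

end Pool.Agent.MTD.TD
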