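import Pool.Agent.MTD.TQ3

/-! # MTD : type `D`, invariance follows from invariance at regular points (row Q4) -/

namespace Pool.Agent.MTD.TD

open Matrix Filter Topology
open Pool.Agent.MP_c45d35_ag (chi UpUni LowUni)

variable {n : ℕ}

/-- products of elements of the group commuting with `s` -/
theorem q4_prod (hn : 2 ≤ n) (s : Matrix (Fin (2 * n)) (Fin (2 * n)) ℂ) {b : ℕ}
    (f : Fin b → Matrix (Fin (2 * n)) (Fin (2 * n)) ℂ)
    (hf : ∀ a, (DD n).IsG (f a) ∧ Commute (f a) s) :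
    (DD n).IsG (List.ofFn f).prod ∧ Commute (List.ofFn f).prod s := by
  induction b with
  | zero =>
    simp only [List.ofFn_zero, List.prod_nil]
    exact ⟨(ax hn).one, Commute.one_left s⟩
  | succ b ih =>
    rw [List.ofFn_succ, List.prod_cons]
    obtain ⟨h1, h2⟩ := ih (fun a => f a.succ) fun a => hf a.succ
    exact ⟨(ax hn).mul _ _ (hf 0).1 h1, (hf 0).2.mul_left h2⟩

/-- limits of products -/
theorem q4_tendsto {l : Filter ℂ} {b : ℕ} (H : Fin b → ℂ → Matrix (Fin (2 * n)) (Fin (2 * n)) ℂ)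
    (f : Fin b → Matrix (Fin (2 * n)) (Fin (2 * n)) ℂ) (hf : ∀ a, Tendsto (H a) l (𝓝 (f a))) :
    Tendsto (fun t => (List.ofFn fun a => H a t).prod) l (𝓝 (List.ofFn f).prod) := by
  induction b with
  | zero =>
    simp only [List.ofFn_zero, List.prod_nil]
    exact tendsto_const_nhds
  | succ b ih =>
    simp only [List.ofFn_succ, List.prod_cons]
    exact (hf 0).mul (ih (fun a => H a.succ) (fun a => f a.succ) fun a => hf a.succ)

/-- the coordinates of a point depend continuously on the matrices -/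
theorem q4_co {l : Filter ℂ} {b : ℕ} (g : Fin b → ℂ → Matrix (Fin (2 * n)) (Fin (2 * n)) ℂ)
    (s : ℂ → Matrix (Fin (2 * n)) (Fin (2 * n)) ℂ)
    (g0 : Fin b → Matrix (Fin (2 * n)) (Fin (2 * n)) ℂ) (s0 : Matrix (Fin (2 * n)) (Fin (2 * n)) ℂ)
    (hg : ∀ a, Tendsto (g a) l (𝓝 (g0 a))) (hs : Tendsto s l (𝓝 s0)) :
    Tendsto (fun t => co (fun a => g a t) (s t)) l (𝓝 (co g0 s0)) := by
  rw [tendsto_pi_nhds]
  rintro (⟨a, i, j⟩ | ⟨i, j⟩)
  · exact (tendsto_pi_nhds.1 (tendsto_pi_nhds.1 (hg a) i)) j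
  · exact (tendsto_pi_nhds.1 (tendsto_pi_nhds.1 hs i)) j

/-- Let `s = sC x0`, `h_a ∈ G` commuting with `s`, `∏ h_a = 1`, `g' = g h`.  Take a regular `v`
(`exists_reg`), curves `H_a(t) → h_a` for `a ≥ 1` (`exists_curveG`) and
`H_0(t) = (∏_{a≥1} H_a(t))⁻¹ → (∏_{a ≥ 1} h_a)⁻¹ = h_0`.  The invariance holds at
`x0 + t v` for small `t ≠ 0`; let `t → 0` (polynomials are continuous). -/
theorem invP_of_reg (hn : 2 ≤ n) {b : ℕ} (P : MvPolynomial (Idx (2 * n) (b + 1)) ℂ)
    (hP : ∀ x : Fin n → ℂ, (DD n).Reg x →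
      ∀ g h : Fin (b + 1) → Matrix (Fin (2 * n)) (Fin (2 * n)) ℂ,
      (∀ a, (DD n).IsG (h a) ∧ Commute (h a) ((DD n).sC x)) → (List.ofFn h).prod = 1 →
      MvPolynomial.eval (co (fun a => g a * h a) ((DD n).sC x)) P =
        MvPolynomial.eval (co g ((DD n).sC x)) P) :
    InvP (DD n) (b + 1) P := by
  intro g g' h s _ hs hh hprod hg'
  obtain ⟨x0, hx0⟩ := (ax hn).sx_surj s hs
  have hs0 : s = (DD n).sC x0 := hx0
  rw [hs0] at hh ⊢
  obtain ⟨v, hv⟩ := exists_reg (ax hn)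
  have hcur : ∀ a : Fin b, ∃ H : ℂ → Matrix (Fin (2 * n)) (Fin (2 * n)) ℂ,
      Tendsto H (𝓝[≠] 0) (𝓝 (h a.succ)) ∧
      ∀ᶠ t in 𝓝[≠] (0 : ℂ), (DD n).IsG (H t) ∧ Commute (H t) ((DD n).sC (x0 + t • v)) :=
    fun a => exists_curveG hn x0 v hv (h a.succ) (hh a.succ).1 (hh a.succ).2
  choose H hH1 hH2 using hcur
  -- the product of the factors with `a ≥ 1`
  obtain ⟨q, hq⟩ : ∃ q, q = (List.ofFn fun a : Fin b => h a.succ).prod := ⟨_, rfl⟩
  obtain ⟨Q, hQ⟩ : ∃ Q : ℂ → Matrix (Fin (2 * n)) (Fin (2 * n)) ℂ,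
      Q = fun t => (List.ofFn fun a : Fin b => H a t).prod := ⟨_, rfl⟩
  have hQq : Tendsto Q (𝓝[≠] 0) (𝓝 q) := by
    rw [hQ, hq]
    exact q4_tendsto H (fun a => h a.succ) hH1
  have hhq : h 0 * q = 1 := by
    rw [hq, ← List.prod_cons, ← List.ofFn_succ]
    exact hprod
  have hqG := (q4_prod hn ((DD n).sC x0) (fun a : Fin b => h a.succ) fun a => hh a.succ).1
  rw [← hq] at hqG
  have hqdet : q.det = 1 := (ax hn).det q hqG
  have hqadj : q.adjugate = h 0 := by
    have h1 : q * q.adjugate = 1 := by rw [Matrix.mul_adjugate, hqdet, one_smul]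
    calc q.adjugate = (h 0 * q) * q.adjugate := by rw [hhq, Matrix.one_mul]
      _ = h 0 * (q * q.adjugate) := by rw [Matrix.mul_assoc]
      _ = h 0 := by rw [h1, Matrix.mul_one]
  have hQadj : Tendsto (fun t => (Q t).adjugate) (𝓝[≠] 0) (𝓝 (h 0)) := by
    rw [← hqadj]
    exact ((continuous_id.matrix_adjugate : Continuous fun A :
      Matrix (Fin (2 * n)) (Fin (2 * n)) ℂ => A.adjugate).tendsto q).comp hQq
  -- the family of curves
  obtain ⟨HH, hHH⟩ : ∃ HH : Fin (b + 1) → ℂ → Matrix (Fin (2 * n)) (Fin (2 * n)) ℂ,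
      HH = Fin.cons (fun t => (Q t).adjugate) H := ⟨_, rfl⟩
  have hHH0 : ∀ t, HH 0 t = (Q t).adjugate := by
    intro t
    rw [hHH, Fin.cons_zero]
  have hHHs : ∀ (a : Fin b) t, HH a.succ t = H a t := by
    intro a t
    rw [hHH, Fin.cons_succ]
  have hlim : ∀ a, Tendsto (HH a) (𝓝[≠] 0) (𝓝 (h a)) := by
    intro a
    refine Fin.cases ?_ (fun a => ?_) a
    · have : HH 0 = fun t => (Q t).adjugate := funext hHH0
      rw [this]
      exact hQadj
    · have : HH a.succ = H a := funext (hHHs a)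
      rw [this]
      exact hH1 a
  have hcurve : Tendsto (fun t : ℂ => x0 + t • v) (𝓝[≠] 0) (𝓝 x0) := by
    have h1 : Tendsto (fun t : ℂ => x0 + t • v) (𝓝 0) (𝓝 (x0 + (0 : ℂ) • v)) :=
      (continuous_curve x0 v).tendsto 0
    rw [zero_smul, add_zero] at h1
    exact h1.mono_left nhdsWithin_le_nhds
  have hsC : Tendsto (fun t : ℂ => (DD n).sC (x0 + t • v)) (𝓝[≠] 0) (𝓝 ((DD n).sC x0)) :=
    ((continuous_sC (D := DD n)).tendsto x0).comp hcurve
  -- invariance along the curve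
  have hev : ∀ᶠ t in 𝓝[≠] (0 : ℂ),
      MvPolynomial.eval (co (fun a => g a * HH a t) ((DD n).sC (x0 + t • v))) P =
        MvPolynomial.eval (co g ((DD n).sC (x0 + t • v))) P := by
    filter_upwards [eventually_reg x0 v hv, eventually_all.2 hH2] with t ht1 ht2
    obtain ⟨hQG, hQc⟩ := q4_prod hn ((DD n).sC (x0 + t • v)) (fun a : Fin b => H a t) ht2
    have hQt : Q t = (List.ofFn fun a : Fin b => H a t).prod := by rw [hQ]
    rw [← hQt] at hQG hQc
    have hdet : (Q t).det = 1 := (ax hn).det _ hQG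
    have e1 : Q t * (Q t).adjugate = 1 := by rw [Matrix.mul_adjugate, hdet, one_smul]
    have e2 : (Q t).adjugate * Q t = 1 := by rw [Matrix.adjugate_mul, hdet, one_smul]
    have e3 : (Q t)⁻¹ = (Q t).adjugate := Matrix.inv_eq_right_inv e1
    refine hP (x0 + t • v) ht1 g (fun a => HH a t) ?_ ?_
    · intro a
      refine Fin.cases ?_ (fun a => ?_) a
      · show (DD n).IsG (HH 0 t) ∧ Commute (HH 0 t) ((DD n).sC (x0 + t • v))
        rw [hHH0]
        refine ⟨by rw [← e3]; exact (ax hn).inv _ hQG, ?_⟩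
        show (Q t).adjugate * (DD n).sC (x0 + t • v) = (DD n).sC (x0 + t • v) * (Q t).adjugate
        calc (Q t).adjugate * (DD n).sC (x0 + t • v)
            = (Q t).adjugate * ((DD n).sC (x0 + t • v) * (Q t * (Q t).adjugate)) := by
              rw [e1, Matrix.mul_one]
          _ = (Q t).adjugate * ((DD n).sC (x0 + t • v) * Q t) * (Q t).adjugate := by
              simp only [Matrix.mul_assoc]
          _ = (Q t).adjugate * (Q t * (DD n).sC (x0 + t • v)) * (Q t).adjugate := by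
              rw [hQc.eq]
          _ = ((Q t).adjugate * Q t) * (DD n).sC (x0 + t • v) * (Q t).adjugate := by
              simp only [Matrix.mul_assoc]
          _ = (DD n).sC (x0 + t • v) * (Q t).adjugate := by rw [e2, Matrix.one_mul]
      · show (DD n).IsG (HH a.succ t) ∧ Commute (HH a.succ t) ((DD n).sC (x0 + t • v))
        rw [hHHs]
        exact ht2 a
    · rw [List.ofFn_succ, List.prod_cons, hHH0]
      have e4 : (List.ofFn fun a : Fin b => HH a.succ t) = List.ofFn fun a : Fin b => H a t := by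
        congr 1
        funext a
        exact hHHs a t
      rw [e4, ← hQt, e2]
  -- the limit
  have hL : Tendsto (fun t => MvPolynomial.eval
      (co (fun a => g a * HH a t) ((DD n).sC (x0 + t • v))) P) (𝓝[≠] 0)
      (𝓝 (MvPolynomial.eval (co (fun a => g a * h a) ((DD n).sC x0)) P)) :=
    ((MvPolynomial.continuous_eval P).tendsto _).comp
      (q4_co (fun a t => g a * HH a t) (fun t => (DD n).sC (x0 + t • v)) (fun a => g a * h a)
        ((DD n).sC x0) (fun a => tendsto_const_nhds.mul (hlim a)) hsC)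
  have hR : Tendsto (fun t : ℂ => MvPolynomial.eval (co g ((DD n).sC (x0 + t • v))) P) (𝓝[≠] 0)
      (𝓝 (MvPolynomial.eval (co g ((DD n).sC x0)) P)) :=
    ((MvPolynomial.continuous_eval P).tendsto _).comp
      (q4_co (fun a _ => g a) (fun t => (DD n).sC (x0 + t • v)) g ((DD n).sC x0)
        (fun a => tendsto_const_nhds) hsC)
  have hfin := tendsto_nhds_unique_of_eventuallyEq hL hR hev
  have hgg : g' = fun a => g a * h a := funext hg'
  rw [hgg]
  exact hfin

end Pool.Agent.MTD.TD
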