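import Pool.Agent.MTD.TF1
import Pool.Agent.MTD.TQ4

/-! # MTD : type `D`, the top elements (row F2) -/

namespace Pool.Agent.MTD.TD

open Matrix
open Pool.Agent.MTD.GR Pool.Agent.MTD.LA
open Pool.Agent.MP_c45d35_ag (chi UpUni LowUni chi_add chi_zero chi_mul chi_neg)

variable {n k b : ℕ}

/-- The standard tuple: `0, ..., k-1` with signs `+`, except that for `k = n`, `ε = -1` the last sign
is `-`. -/
def r0 (hk : k ≤ n) (ε : ℤ) (j : Fin k) : Lab n :=
  (Fin.castLE hk j, !decide ((j : ℕ) + 1 = n ∧ ε = -1))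

/-- The weight of a term. -/
def wtR (r : Fin k → Lab n) (R : Finset (Fin k)) : Fin n → ℤ := ∑ i ∈ Rᶜ, wtD (ix (r i))

/-- The standard weight. -/
def lam0 (hk : k ≤ n) (ε : ℤ) : Fin n → ℤ := ∑ j, wtD (ix (r0 hk ε j))

theorem wt_ix (a : Lab n) : wtD (ix a) = sgl a • (Pi.single a.1 1 : Fin n → ℤ) := by
  unfold ix sgl
  split_ifs
  · rw [wt_lo, one_smul]
  · rw [wt_rev, wt_lo, neg_one_smul]

theorem sgl_ne (a : Lab n) : sgl a ≠ 0 := by
  unfold sgl
  split_ifs <;> norm_num

theorem sgl_le (a : Lab n) : sgl a ≤ 1 := by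
  unfold sgl
  split_ifs <;> norm_num

theorem sgl_r0 (hk : k ≤ n) (ε : ℤ) (j : Fin k) :
    sgl (r0 hk ε j) = if (j : ℕ) + 1 = n ∧ ε = -1 then -1 else 1 := by
  unfold sgl r0
  by_cases h : (j : ℕ) + 1 = n ∧ ε = -1
  · rw [if_pos h, if_neg]
    show ¬ ((!decide ((j : ℕ) + 1 = n ∧ ε = -1)) = true)
    rw [decide_eq_true h]
    decide
  · rw [if_neg h, if_pos]
    show (!decide ((j : ℕ) + 1 = n ∧ ε = -1)) = true
    rw [decide_eq_false h]
    rfl

theorem r0_mem (hn : 2 ≤ n) (hk : k ≤ n) (hk' : k + 2 ≤ n ∨ k = n) (ε : ℤ)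
    (hε : ε = 1 ∨ ε = -1) :
    Function.Injective (fun i => (r0 hk ε i).1) ∧ (k = n → ∏ i, sgl (r0 hk ε i) = ε) := by
  refine ⟨Fin.castLE_injective hk, fun h => ?_⟩
  subst h
  rcases hε with rfl | rfl
  · refine Finset.prod_eq_one fun i _ => ?_
    rw [sgl_r0, if_neg]
    rintro ⟨_, h⟩
    norm_num at h
  · rw [Finset.prod_eq_single (⟨k - 1, by omega⟩ : Fin k)]
    · rw [sgl_r0, if_pos]
      refine ⟨?_, rfl⟩
      show k - 1 + 1 = k
      omega
    · intro i _ hi
      rw [sgl_r0, if_neg]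
      rintro ⟨h, _⟩
      apply hi
      apply Fin.ext
      show (i : ℕ) = k - 1
      omega
    · intro h
      exact absurd (Finset.mem_univ _) h

theorem wtR_apply (r : Fin k → Lab n) (R : Finset (Fin k)) (l : Fin n) :
    wtR r R l = ∑ i ∈ Rᶜ, if (r i).1 = l then sgl (r i) else 0 := by
  unfold wtR
  rw [Finset.sum_apply]
  refine Finset.sum_congr rfl fun i _ => ?_
  rw [wt_ix, Pi.smul_apply, Pi.single_apply, smul_eq_mul]
  by_cases h : (r i).1 = l
  · rw [if_pos h, if_pos h.symm, mul_one]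
  · rw [if_neg h, if_neg (fun h' => h h'.symm), mul_zero]

theorem wtR_mem (r : Fin k → Lab n) (hr : Function.Injective fun i => (r i).1)
    (R : Finset (Fin k)) (i : Fin k) (hi : i ∉ R) : wtR r R (r i).1 = sgl (r i) := by
  rw [wtR_apply, Finset.sum_eq_single i]
  · rw [if_pos rfl]
  · intro j _ hj
    rw [if_neg]
    exact fun h => hj (hr h)
  · intro h
    exact absurd (Finset.mem_compl.2 hi) h

theorem wtR_zero (r : Fin k → Lab n) (R : Finset (Fin k)) (l : Fin n)
    (h : ∀ i, i ∉ R → (r i).1 ≠ l) : wtR r R l = 0 := by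
  rw [wtR_apply]
  exact Finset.sum_eq_zero fun i hi => if_neg (h i (Finset.mem_compl.1 hi))

theorem wtR_le (r : Fin k → Lab n) (hr : Function.Injective fun i => (r i).1)
    (R : Finset (Fin k)) (l : Fin n) : wtR r R l ≤ 1 := by
  by_cases h : ∀ i, i ∉ R → (r i).1 ≠ l
  · rw [wtR_zero r R l h]
    norm_num
  · push Not at h
    obtain ⟨i, hi, rfl⟩ := h
    rw [wtR_mem r hr R i hi]
    exact sgl_le _

theorem wtR_card (r : Fin k → Lab n) (R : Finset (Fin k)) (S : Finset (Fin n))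
    (h : ∀ l ∈ S, wtR r R l ≠ 0) : S.card + R.card ≤ k := by
  classical
  have h1 : S ⊆ (Rᶜ).image (fun i => (r i).1) := by
    intro l hl
    by_contra hc
    refine h l hl (wtR_zero r R l fun i hi h' => hc ?_)
    exact Finset.mem_image.2 ⟨i, Finset.mem_compl.2 hi, h'⟩
  have h2 := (Finset.card_le_card h1).trans Finset.card_image_le
  rw [Finset.card_compl, Fintype.card_fin] at h2
  have h3 : R.card ≤ k := by simpa using Finset.card_le_univ R
  omega

theorem lam0_eq (hk : k ≤ n) (ε : ℤ) : lam0 hk ε = wtR (r0 hk ε) ∅ := by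
  unfold lam0 wtR
  rw [Finset.compl_empty]

theorem lam0_at (hk : k ≤ n) (ε : ℤ) (j : Fin k) :
    lam0 hk ε (Fin.castLE hk j) = sgl (r0 hk ε j) := by
  rw [lam0_eq]
  exact wtR_mem (r0 hk ε) (Fin.castLE_injective hk) ∅ j (Finset.notMem_empty _)

theorem lam0_lt (hk : k ≤ n) (ε : ℤ) (l : Fin n) (hl : (l : ℕ) < k) :
    lam0 hk ε l = if (l : ℕ) + 1 = n ∧ ε = -1 then -1 else 1 := by
  have h := lam0_at hk ε ⟨l, hl⟩
  rw [sgl_r0] at h
  exact h

theorem lam0_ge (hk : k ≤ n) (ε : ℤ) (l : Fin n) (hl : k ≤ (l : ℕ)) : lam0 hk ε l = 0 := by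
  rw [lam0_eq]
  refine wtR_zero _ _ _ fun i _ h => ?_
  have h1 : (i : ℕ) = l := congrArg Fin.val h
  have := i.2
  omega

/-- Comparison of weights. -/
theorem wt_lt_or (hk : k ≤ n) (hk' : k + 2 ≤ n ∨ k = n) (ε : ℤ) (hε : ε = 1 ∨ ε = -1)
    (r : RS n k ε) (R : Finset (Fin k)) (hR : Even R.card) :
    toLex (wtR r.1 R) < toLex (lam0 hk ε) ∨
      (R = ∅ ∧ ∃ π : Equiv.Perm (Fin k), r.1 = fun j => r0 hk ε (π j)) := by
  classical
  rcases lt_trichotomy (toLex (wtR r.1 R)) (toLex (lam0 hk ε)) with h | h | h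
  · exact Or.inl h
  · right
    have h1 : wtR r.1 R = lam0 hk ε := toLex_inj.1 h
    have hcard := wtR_card r.1 R (Finset.univ.map (Fin.castLEEmb hk)) (by
      intro l hl
      obtain ⟨j, _, rfl⟩ := Finset.mem_map.1 hl
      rw [h1]
      show lam0 hk ε (Fin.castLE hk j) ≠ 0
      rw [lam0_at]
      exact sgl_ne _)
    rw [Finset.card_map, Finset.card_univ, Fintype.card_fin] at hcard
    have hR0 : R = ∅ := Finset.card_eq_zero.1 (by omega)
    refine ⟨hR0, ?_⟩
    have h5 : ∀ j, lam0 hk ε (r.1 j).1 = sgl (r.1 j) := by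
      intro j
      rw [← h1]
      exact wtR_mem r.1 r.2.1 R j (by rw [hR0]; exact Finset.notMem_empty _)
    have h3 : ∀ j, ((r.1 j).1 : ℕ) < k := by
      intro j
      by_contra hc
      have h4 := h5 j
      rw [lam0_ge hk ε _ (not_lt.1 hc)] at h4
      exact sgl_ne _ h4.symm
    let f : Fin k → Fin k := fun j => ⟨(r.1 j).1, h3 j⟩
    have hf : Function.Injective f := fun i j hij => by
      have h7 : ((r.1 i).1 : ℕ) = (r.1 j).1 := congrArg (fun a : Fin k => (a : ℕ)) hij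
      exact r.2.1 (Fin.ext h7)
    refine ⟨Equiv.ofBijective f (Finite.injective_iff_bijective.1 hf), ?_⟩
    funext j
    show r.1 j = r0 hk ε (f j)
    have h6 := h5 j
    have h7 : lam0 hk ε (r.1 j).1 = sgl (r0 hk ε (f j)) := lam0_at hk ε (f j)
    rw [h7] at h6
    refine Prod.ext rfl ?_
    unfold sgl at h6
    by_cases c1 : (r0 hk ε (f j)).2 = true
    · by_cases c2 : (r.1 j).2 = true
      · rw [c1, c2]
      · rw [if_pos c1, if_neg c2] at h6
        norm_num at h6
    · by_cases c2 : (r.1 j).2 = true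
      · rw [if_neg c1, if_pos c2] at h6
        norm_num at h6
      · rw [Bool.not_eq_true] at c1 c2
        rw [c1, c2]
  · exfalso
    obtain ⟨l, hl1, hl2⟩ := h
    have hl1' : ∀ l' : Fin n, l' < l → lam0 hk ε l' = wtR r.1 R l' := hl1
    have hl2' : lam0 hk ε l < wtR r.1 R l := hl2
    have hle := wtR_le r.1 r.2.1 R l
    rcases hk' with hkn | hkn
    · have hlk : k ≤ (l : ℕ) := by
        by_contra hc
        have h1 := lam0_lt hk ε l (not_le.1 hc)
        rw [if_neg (by omega)] at h1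
        omega
      have hcard := wtR_card r.1 R (insert l (Finset.univ.map (Fin.castLEEmb hk))) (by
        intro l' hl'
        rcases Finset.mem_insert.1 hl' with rfl | hl'
        · rw [lam0_ge hk ε _ hlk] at hl2'
          exact ne_of_gt hl2'
        · obtain ⟨j, _, rfl⟩ := Finset.mem_map.1 hl'
          have hj : Fin.castLE hk j < l := by
            show (j : ℕ) < l
            have := j.2
            omega
          have h2 := hl1' _ hj
          rw [lam0_at] at h2
          show wtR r.1 R (Fin.castLE hk j) ≠ 0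
          rw [← h2]
          exact sgl_ne _)
      rw [Finset.card_insert_of_notMem, Finset.card_map, Finset.card_univ, Fintype.card_fin] at hcard
      · omega
      · intro hc
        obtain ⟨j, _, hj⟩ := Finset.mem_map.1 hc
        have : (j : ℕ) = l := congrArg Fin.val hj
        have := j.2
        omega
    · subst hkn
      have hlam := lam0_lt hk ε l l.2
      by_cases c : (l : ℕ) + 1 = k ∧ ε = -1
      swap
      · rw [if_neg c] at hlam
        omega
      obtain ⟨c1, rfl⟩ := c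
      rw [if_pos ⟨c1, rfl⟩] at hlam
      have hone : ∀ l' : Fin k, l' < l → wtR r.1 R l' = 1 := by
        intro l' hl'
        rw [← hl1' l' hl', lam0_lt hk _ l' l'.2, if_neg]
        rintro ⟨h, _⟩
        have : (l' : ℕ) < l := hl'
        omega
      by_cases c2 : wtR r.1 R l = 0
      · have hcard := wtR_card r.1 R (Finset.univ.erase l) (by
          intro l' hl'
          have h1 : l' ≠ l := Finset.ne_of_mem_erase hl'
          have h2 : l' < l := by
            have h3 : (l' : ℕ) ≠ l := fun h => h1 (Fin.ext h)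
            have := l'.2
            show (l' : ℕ) < l
            omega
          rw [hone l' h2]
          norm_num)
        rw [Finset.card_erase_of_mem (Finset.mem_univ _), Finset.card_univ, Fintype.card_fin] at hcard
        have hne : R.card ≠ 0 := by
          intro h0
          have hR0 : R = ∅ := Finset.card_eq_zero.1 h0
          have hbij : Function.Bijective fun i => (r.1 i).1 := Finite.injective_iff_bijective.1 r.2.1
          obtain ⟨i, hi⟩ := hbij.2 l
          have h4 := wtR_mem r.1 r.2.1 R i (by rw [hR0]; exact Finset.notMem_empty _)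
          have hi' : (r.1 i).1 = l := hi
          rw [hi', c2] at h4
          exact sgl_ne _ h4.symm
        obtain ⟨m, hm⟩ := hR
        omega
      · have hv : wtR r.1 R l = 1 := by omega
        have hcard := wtR_card r.1 R Finset.univ (by
          intro l' _
          rcases lt_trichotomy l' l with h | h | h
          · rw [hone l' h]; norm_num
          · rw [h, hv]; norm_num
          · exfalso
            have h3 : (l : ℕ) < l' := h
            have := l'.2
            omega)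
        rw [Finset.card_univ, Fintype.card_fin] at hcard
        have hR0 : R = ∅ := Finset.card_eq_zero.1 (by omega)
        have hprod := r.2.2 rfl
        rw [Finset.prod_eq_one] at hprod
        · norm_num at hprod
        · intro i _
          rw [← wtR_mem r.1 r.2.1 R i (by rw [hR0]; exact Finset.notMem_empty _)]
          rcases lt_trichotomy (r.1 i).1 l with h | h | h
          · exact hone _ h
          · rw [h, hv]
          · exfalso
            have h3 : (l : ℕ) < (r.1 i).1 := h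
            have := (r.1 i).1.2
            omega

/-! ### The expansion -/

/-- The expansion. -/
theorem Phi_expand (hn : 2 ≤ n) (ε : ℤ) (I : Fin (b + 1) → Fin k → Fin (2 * n))
    (P : MvPolynomial (Idx (2 * n) (b + 1)) ℂ)
    (hP : ∀ x : Fin n → ℂ, (DD n).Reg x →
      ∀ g : Fin (b + 1) → Matrix (Fin (2 * n)) (Fin (2 * n)) ℂ,
      MvPolynomial.eval (co g ((DD n).sC x)) P = CG k ε x (wC x) fun a => pg (g a) (I a))
    (y : XX (DD n) (b + 1)) (t : Fin n → ℂˣ) :
    Phi (DD n) P y t = ∑ r : RS n k ε,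
      ∑ R ∈ Finset.univ.filter (fun R : Finset (Fin k) => Even R.card),
      ((∏ a, pg ((y.1 a).1 * ((DD n).qC y.2.1)⁻¹) (I a) (VV y.2.1 (wC y.2.1) r.1 R)) *
        Ring.inverse (D0 y.2.1 r.1 * DR (fun i => yl y.2.1 (r.1 i)) R)) *
        ((chi (wtR r.1 R) t : ℂˣ) : ℂ) := by
  have A := ax hn
  obtain ⟨q, hq⟩ : ∃ q, q = (DD n).qC y.2.1 := ⟨_, rfl⟩
  have hq1 : q⁻¹ * q = 1 := by
    rw [hq]
    exact A.inv_mul (A.qC_isG y.2.1)
  unfold Phi
  rw [hP y.2.1 y.2.2, CG_eq, ← hq]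
  refine Finset.sum_congr rfl fun r _ => Finset.sum_congr rfl fun R hR => ?_
  have hR' : Even R.card := (Finset.mem_filter.1 hR).2
  obtain ⟨h, hh⟩ : ∃ h : Matrix (Fin (2 * n)) (Fin (2 * n)) ℂ, h = q * (DD n).Tt t * q⁻¹ :=
    ⟨_, rfl⟩
  have hhq : h * q = q * (DD n).Tt t := by
    rw [hh, Matrix.mul_assoc, hq1, Matrix.mul_one]
  have hw : ∀ a : Lab n, h.mulVec (wC y.2.1 a) =
      (((chi (wtD (ix a)) t : ℂˣ) : ℂ)) • wC y.2.1 a := by
    intro a
    obtain ⟨c, _, hc'⟩ := wC_q hn y.2.2 a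
    rw [hc', Matrix.mulVec_smul, smul_comm]
    congr 1
    rw [← hq]
    funext i
    have h1 : (h * q) i (ix a) = q i (ix a) * ((chi (wtD (ix a)) t : ℂˣ) : ℂ) := by
      rw [hhq]
      exact Matrix.mul_diagonal _ _ _ _
    rw [Pi.smul_apply, smul_eq_mul]
    exact h1.trans (mul_comm _ _)
  have hlam : ∀ a : Lab n, ((chi (wtD (ix a)) t : ℂˣ) : ℂ) * ((chi (wtD (ix (ng a))) t : ℂˣ) : ℂ) =
      1 := by
    intro a
    rw [ix_ng, wt_rev, chi_neg, ← Units.val_mul, mul_inv_cancel, Units.val_one]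
  have hX : ((chi (wtR r.1 R) t : ℂˣ) : ℂ) =
      ∏ i ∈ Rᶜ, ((chi (wtD (ix (r.1 i))) t : ℂˣ) : ℂ) := by
    unfold wtR
    rw [chi_sum, Units.coe_prod]
  have hterm : ∀ a : Fin (b + 1), pg ((y.1 a).1 *
      (if a = 0 then ((DD n).Tt t : Matrix (Fin (2 * n)) (Fin (2 * n)) ℂ) else 1) * q⁻¹) (I a)
        (VV y.2.1 (wC y.2.1) r.1 R) =
      (if a = 0 then ((chi (wtR r.1 R) t : ℂˣ) : ℂ) else 1) *
        pg ((y.1 a).1 * q⁻¹) (I a) (VV y.2.1 (wC y.2.1) r.1 R) := by
    intro a
    by_cases ha : a = 0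
    · rw [if_pos ha, if_pos ha, hX, ← pg_VV y.2.1 (wC y.2.1)
        (fun a => ((chi (wtD (ix a)) t : ℂˣ) : ℂ)) h hw hlam ((y.1 a).1 * q⁻¹) (I a) r.1 R hR']
      have e : (y.1 a).1 * (DD n).Tt t * q⁻¹ = (y.1 a).1 * q⁻¹ * h := by
        rw [hh]
        calc (y.1 a).1 * (DD n).Tt t * q⁻¹ = (y.1 a).1 * (1 * (DD n).Tt t * q⁻¹) := by
              rw [Matrix.one_mul, Matrix.mul_assoc]
          _ = (y.1 a).1 * ((q⁻¹ * q) * (DD n).Tt t * q⁻¹) := by rw [hq1]
          _ = (y.1 a).1 * q⁻¹ * (q * (DD n).Tt t * q⁻¹) := by simp only [Matrix.mul_assoc]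
      rw [e]
    · rw [if_neg ha, if_neg ha, Matrix.mul_one, one_mul]
  rw [Finset.prod_congr rfl fun a _ => hterm a, Finset.prod_mul_distrib,
    Finset.prod_ite_eq' Finset.univ (0 : Fin (b + 1)), if_pos (Finset.mem_univ _)]
  ring

/-! ### The leading terms -/

theorem r0_prop (hk : k ≤ n) (ε : ℤ) (j : Fin k) :
    (r0 hk ε j).2 = true ∨ ((r0 hk ε j).1 : ℕ) + 1 = n := by
  by_cases h : (j : ℕ) + 1 = n
  · exact Or.inr h
  · refine Or.inl ?_
    unfold r0
    simp [h]

theorem yl_r0 (hk : k ≤ n) (ε : ℤ) (x : Fin n → ℂ) (j : Fin k) (hj : (j : ℕ) + 1 ≠ n) :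
    yl x (r0 hk ε j) = x (Fin.castLE hk j) := by
  unfold yl r0
  simp [hj]

theorem yl_sgl (x : Fin n → ℂ) (a : Lab n) : yl x a = (sgl a : ℂ) * x a.1 := by
  unfold yl sgl
  split_ifs <;> simp

theorem wC_coef (hn : 2 ≤ n) {x : Fin n → ℂ} (hx : (DD n).Reg x) (a : Lab n)
    (ha : a.2 = true ∨ (a.1 : ℕ) + 1 = n) :
    wC x a = (∏ l ∈ Finset.univ.filter (fun l : Fin n => l < a.1), (yl x a - x l)) •
      fun i => (DD n).qC x i (ix a) := by
  obtain ⟨c, _, hc'⟩ := wC_q hn hx a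
  have h0 : wC x a ⟨0, by omega⟩ = 1 := by
    unfold wC
    rw [wv_zero hn a, map_one]
  have h1 := qC_row0 hn hx a ha
  rw [hc'] at h0
  have h0' : c * (DD n).qC x ⟨0, by omega⟩ (ix a) = 1 := h0
  have h2 : c = ∏ l ∈ Finset.univ.filter (fun l : Fin n => l < a.1), (yl x a - x l) := by
    linear_combination (-c) * h1 +
      (∏ l ∈ Finset.univ.filter (fun l : Fin n => l < a.1), (yl x a - x l)) * h0'
  rw [hc', h2]

theorem filter_castLE (hk : k ≤ n) (j : Fin k) :
    Finset.univ.filter (fun l : Fin n => l < Fin.castLE hk j) =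
      (Finset.univ.filter (fun i : Fin k => i < j)).map (Fin.castLEEmb hk) := by
  ext l
  rw [Finset.mem_filter, Finset.mem_map]
  constructor
  · rintro ⟨_, h⟩
    have h' : (l : ℕ) < j := h
    have := j.2
    refine ⟨⟨l, by omega⟩, Finset.mem_filter.2 ⟨Finset.mem_univ _, h'⟩, rfl⟩
  · rintro ⟨i, hi, rfl⟩
    exact ⟨Finset.mem_univ _, (Finset.mem_filter.1 hi).2⟩

theorem prod_tri {M : Type*} [CommMonoid M] (f : Fin k → Fin k → M) :
    ∏ j, ∏ i ∈ Finset.univ.filter (fun i : Fin k => i < j), f i j =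
      ∏ i, ∏ j ∈ Finset.univ.filter (fun j : Fin k => i < j), f i j := by
  refine Finset.prod_comm' fun j i => ?_
  simp [and_comm]

theorem vd_univ (v : Fin k → ℂ) : vd v Finset.univ = (Matrix.vandermonde v).det := by
  rw [Matrix.det_vandermonde]
  unfold vd
  refine Finset.prod_congr rfl fun i _ => ?_
  rw [Finset.filter_lt_eq_Ioi]

theorem prod_coef (hk : k ≤ n) (ε : ℤ) (x : Fin n → ℂ) :
    ∏ j, ∏ l ∈ Finset.univ.filter (fun l : Fin n => l < (r0 hk ε j).1),
      (yl x (r0 hk ε j) - x l) = (Matrix.vandermonde fun j => yl x (r0 hk ε j)).det := by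
  rw [← vd_univ]
  unfold vd
  rw [← prod_tri]
  refine Finset.prod_congr rfl fun j _ => ?_
  have h : (r0 hk ε j).1 = Fin.castLE hk j := rfl
  rw [h, filter_castLE, Finset.prod_map]
  refine Finset.prod_congr rfl fun i hi => ?_
  have hij : (i : ℕ) < j := (Finset.mem_filter.1 hi).2
  have := j.2
  have h9 := yl_r0 hk ε x i (by omega)
  show yl x (r0 hk ε j) - x (Fin.castLE hk i) = yl x (r0 hk ε j) - yl x (r0 hk ε i)
  rw [h9]

/-- The value of the leading terms: for a permutation `π`,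
`∏_a (...)(VV r ∅) / (D0 DR) = ∏_a minor_a / Eu`.  `qC⁻¹ w_a = c_a e_{ix a}` with
`c_a = ∏_{l < a.1} (yl x a - x_l)` for the labels `a = r0 j` (`wC_q`, `qC_row0`, `wv_zero`); the product
of the `c_a` is the Vandermonde determinant, and the signs of `π` cancel between `vd` and `det`. -/
theorem lead_term (hn : 2 ≤ n) (hk : k ≤ n) (hk' : k + 2 ≤ n ∨ k = n) (ε : ℤ)
    (hε : ε = 1 ∨ ε = -1) (I : Fin k → Fin (2 * n)) (g : Matrix (Fin (2 * n)) (Fin (2 * n)) ℂ)
    {x : Fin n → ℂ} (hx : (DD n).Reg x) (π : Equiv.Perm (Fin k)) :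
    pg (g * ((DD n).qC x)⁻¹) I (VV x (wC x) (fun j => r0 hk ε (π j)) ∅) =
      Matrix.det (Matrix.of fun i j => g (I i) (ix (r0 hk ε j))) := by
  have A := ax hn
  rw [pg_VV_empty, vd_univ]
  obtain ⟨C, hC⟩ : ∃ C : Fin k → ℂ, C = fun j =>
    ∏ l ∈ Finset.univ.filter (fun l : Fin n => l < (r0 hk ε j).1), (yl x (r0 hk ε j) - x l) :=
    ⟨_, rfl⟩
  have hV : ∏ j, C j = (Matrix.vandermonde fun j => yl x (r0 hk ε j)).det := by
    rw [hC]
    exact prod_coef hk ε x
  have hV0 : (Matrix.vandermonde fun j => yl x (r0 hk ε j)).det ≠ 0 := by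
    rw [Matrix.det_vandermonde_ne_zero_iff]
    intro i j hij
    by_contra hne
    obtain ⟨β, s, hs, _, h⟩ := yl_sub_eq (a := r0 hk ε i) (c := r0 hk ε j)
      (fun h => hne (Fin.castLE_injective hk h))
    have h1 := h x
    rw [show yl x (r0 hk ε i) = yl x (r0 hk ε j) from hij, sub_self] at h1
    have h2 := hx β
    rcases hs with rfl | rfl
    · apply h2
      rw [Int.cast_one, one_mul] at h1
      exact h1.symm
    · apply h2
      rw [Int.cast_neg, Int.cast_one, neg_one_mul] at h1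
      exact neg_eq_zero.1 h1.symm
  have hmat : (Matrix.of fun i j => ((g * ((DD n).qC x)⁻¹).mulVec
      (wC x (r0 hk ε (π j)))) (I i)) =
      Matrix.of fun i j => C (π j) *
        ((Matrix.of fun i j => g (I i) (ix (r0 hk ε j))).submatrix id π) i j := by
    ext i j
    rw [Matrix.of_apply, Matrix.of_apply, wC_coef hn hx _ (r0_prop hk ε (π j)),
      Matrix.mulVec_smul, Pi.smul_apply, smul_eq_mul]
    have h1 : C (π j) = ∏ l ∈ Finset.univ.filter (fun l : Fin n => l < (r0 hk ε (π j)).1),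
      (yl x (r0 hk ε (π j)) - x l) := by
      rw [hC]
    rw [← h1]
    congr 1
    have h2 : (g * ((DD n).qC x)⁻¹ * (DD n).qC x) = g := by
      rw [Matrix.mul_assoc, A.inv_mul (A.qC_isG x), Matrix.mul_one]
    show (g * ((DD n).qC x)⁻¹ * (DD n).qC x) (I i) (ix (r0 hk ε (π j))) = _
    rw [h2]
    rfl
  rw [hmat, Matrix.det_mul_row, Equiv.prod_comp π C, hV, Matrix.det_permute']
  have hV1 : (Matrix.vandermonde fun i => yl x (r0 hk ε (π i))) =
      (Matrix.vandermonde fun j => yl x (r0 hk ε j)).submatrix π id := by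
    ext i j
    rfl
  rw [hV1, Matrix.det_permute]
  obtain ⟨V, hVdef⟩ : ∃ V, V = (Matrix.vandermonde fun j => yl x (r0 hk ε j)).det := ⟨_, rfl⟩
  rw [← hVdef] at hV0 ⊢
  have hs : (((Equiv.Perm.sign π : ℤˣ) : ℤ) : ℂ) ≠ 0 := by
    rcases Int.units_eq_one_or (Equiv.Perm.sign π) with h7 | h7 <;> rw [h7] <;> simp
  rw [Ring.inverse_eq_inv']
  field_simp

/-! ### The denominator of the leading terms -/

/-- `∏_{i ≠ j} (y_i + y_j)` -/
theorem DR_empty (y : Fin k → ℂ) :
    DR y ∅ = ∏ i, ∏ j ∈ Finset.univ.filter (fun j : Fin k => i < j), (y i + y j) ^ 2 := by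
  unfold DR
  rw [← Finset.prod_mul_distrib]
  refine Finset.prod_congr rfl fun i _ => ?_
  rw [← Finset.prod_mul_distrib]
  refine Finset.prod_congr rfl fun j _ => ?_
  unfold et
  rw [if_neg (Finset.notMem_empty _), if_neg (Finset.notMem_empty _)]
  ring

theorem DR_empty' (y : Fin k → ℂ) :
    DR y ∅ = ∏ i, ∏ j, if i = j then 1 else (y i + y j) := by
  rw [DR_empty]
  have h1 : ∀ i : Fin k, ∏ j, (if i = j then (1 : ℂ) else (y i + y j)) =
      (∏ j ∈ Finset.univ.filter (fun j : Fin k => i < j), (y i + y j)) *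
        ∏ j ∈ Finset.univ.filter (fun j : Fin k => j < i), (y i + y j) := by
    intro i
    rw [Finset.prod_filter, Finset.prod_filter, ← Finset.prod_mul_distrib]
    refine Finset.prod_congr rfl fun j _ => ?_
    rcases lt_trichotomy i j with h | h | h
    · rw [if_neg (ne_of_lt h), if_pos h, if_neg (not_lt.2 h.le), mul_one]
    · subst h
      simp
    · rw [if_neg (ne_of_gt h), if_neg (not_lt.2 h.le), if_pos h, one_mul]
  rw [Finset.prod_congr rfl fun i _ => h1 i, Finset.prod_mul_distrib]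
  have h2 : ∏ i, ∏ j ∈ Finset.univ.filter (fun j : Fin k => j < i), (y i + y j) =
      ∏ i, ∏ j ∈ Finset.univ.filter (fun j : Fin k => i < j), (y i + y j) := by
    rw [← prod_tri fun i j => y i + y j]
    exact Finset.prod_congr rfl fun i _ => Finset.prod_congr rfl fun j _ => add_comm _ _
  rw [h2, ← Finset.prod_mul_distrib]
  refine Finset.prod_congr rfl fun i _ => ?_
  rw [← Finset.prod_mul_distrib]
  exact Finset.prod_congr rfl fun j _ => sq _

theorem DR_perm (y : Fin k → ℂ) (π : Equiv.Perm (Fin k)) : DR (fun i => y (π i)) ∅ = DR y ∅ := by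
  rw [DR_empty', DR_empty', ← Equiv.prod_comp π (fun i => ∏ j, if i = j then (1 : ℂ) else (y i + y j))]
  refine Finset.prod_congr rfl fun i _ => ?_
  rw [← Equiv.prod_comp π (fun j => if π i = j then (1 : ℂ) else (y (π i) + y j))]
  refine Finset.prod_congr rfl fun j _ => ?_
  by_cases h : i = j
  · rw [if_pos h, if_pos (congrArg π h)]
  · rw [if_neg h, if_neg (fun h' => h (π.injective h'))]

theorem D0_r0 (hk : k ≤ n) (ε : ℤ) (x : Fin n → ℂ) (π : Equiv.Perm (Fin k)) :
    D0 x (fun j => r0 hk ε (π j)) = ∏ i : Fin k,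
      ∏ l ∈ Finset.univ.filter (fun l : Fin n => k ≤ (l : ℕ)),
        (x (Fin.castLE hk i) ^ 2 - x l ^ 2) := by
  unfold D0
  have h1 : Finset.univ.filter (fun l : Fin n => ∀ i', (r0 hk ε (π i')).1 ≠ l) =
      Finset.univ.filter (fun l : Fin n => k ≤ (l : ℕ)) := by
    ext l
    rw [Finset.mem_filter, Finset.mem_filter]
    refine and_congr_right fun _ => ⟨fun h => ?_, fun h i' h' => ?_⟩
    · by_contra hc
      refine h (π.symm ⟨l, not_le.1 hc⟩) ?_
      rw [Equiv.apply_symm_apply]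
      rfl
    · have h2 : ((π i' : Fin k) : ℕ) = l := congrArg Fin.val h'
      have := (π i').2
      omega
  rw [h1]
  exact Equiv.prod_comp π (fun i => ∏ l ∈ Finset.univ.filter (fun l : Fin n => k ≤ (l : ℕ)),
        (x (Fin.castLE hk i) ^ 2 - x l ^ 2))

theorem Eu_DD (lam : Fin n → ℤ) (x : Fin n → ℂ) : Eu (DD n) lam x =
    ∏ p, ∏ q ∈ Finset.univ.filter (fun q : Fin n => p < q),
      ((x p + x q) ^ (lam p + lam q).toNat * (x p - x q) ^ (lam p - lam q).toNat) := by
  have h0 : Eu (DD n) lam x = ∏ p : {p : Fin n × Fin n // p.1 < p.2},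
      ((x p.1.1 + x p.1.2) ^ (lam p.1.1 + lam p.1.2).toNat *
        (x p.1.1 - x p.1.2) ^ (lam p.1.1 - lam p.1.2).toNat) := by
    unfold Eu
    rw [Fintype.prod_prod_type]
    refine Finset.prod_congr rfl fun p _ => ?_
    rw [Fintype.prod_bool]
    have e1 := ev_rt ((p, true) : RD n) x
    have e2 := ev_rt ((p, false) : RD n) x
    have e3 := ev_rt ((p, true) : RD n) lam
    have e4 := ev_rt ((p, false) : RD n) lam
    have s1 : sg ((p, true) : RD n) = 1 := rfl
    have s2 : sg ((p, false) : RD n) = -1 := rfl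
    rw [s1, Int.cast_one, one_mul] at e1 e3
    rw [s2, Int.cast_neg, Int.cast_one, neg_one_mul, ← sub_eq_add_neg] at e2 e4
    have f1 : ev ((DD n).rt (p, true)) x = x p.1.1 + x p.1.2 := e1
    have f2 : ev ((DD n).rt (p, false)) x = x p.1.1 - x p.1.2 := e2
    have f3 : ev ((DD n).cr (p, true)) lam = lam p.1.1 + lam p.1.2 := e3
    have f4 : ev ((DD n).cr (p, false)) lam = lam p.1.1 - lam p.1.2 := e4
    rw [f1, f2, f3, f4]
  rw [h0]
  have h1 : ∏ p ∈ Finset.univ.filter (fun p : Fin n × Fin n => p.1 < p.2),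
      ((x p.1 + x p.2) ^ (lam p.1 + lam p.2).toNat *
        (x p.1 - x p.2) ^ (lam p.1 - lam p.2).toNat) =
      ∏ p : {p : Fin n × Fin n // p.1 < p.2},
      ((x p.1.1 + x p.1.2) ^ (lam p.1.1 + lam p.1.2).toNat *
        (x p.1.1 - x p.1.2) ^ (lam p.1.1 - lam p.1.2).toNat) :=
    Finset.prod_subtype _ (fun p => by simp) _
  rw [← h1, Finset.prod_filter, Fintype.prod_prod_type]
  refine Finset.prod_congr rfl fun p _ => ?_
  rw [Finset.prod_filter]

/-- The denominator of the leading terms. -/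
theorem lead_den (hn : 2 ≤ n) (hk : k ≤ n) (hk' : k + 2 ≤ n ∨ k = n) (ε : ℤ)
    (hε : ε = 1 ∨ ε = -1) (x : Fin n → ℂ) (π : Equiv.Perm (Fin k)) :
    D0 x (fun j => r0 hk ε (π j)) * DR (fun i => yl x (r0 hk ε (π i))) ∅ =
      Eu (DD n) (lam0 hk ε) x := by
  rw [D0_r0, DR_perm (fun i => yl x (r0 hk ε i)), DR_empty, Eu_DD, ← Finset.prod_mul_distrib]
  refine Fintype.prod_of_injective (Fin.castLE hk) (Fin.castLE_injective hk) _ _ ?_ ?_
  · intro p hp
    have hkp : k ≤ (p : ℕ) := by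
      by_contra hc
      exact hp ⟨⟨p, not_le.1 hc⟩, rfl⟩
    refine Finset.prod_eq_one fun q hq => ?_
    have hpq : (p : ℕ) < q := (Finset.mem_filter.1 hq).2
    rw [lam0_ge hk ε p hkp, lam0_ge hk ε q (by omega)]
    simp
  · intro i
    rw [← Finset.prod_filter_mul_prod_filter_not
      (Finset.univ.filter fun q : Fin n => Fin.castLE hk i < q) (fun q => (q : ℕ) < k), mul_comm]
    congr 1
    · -- the indices below `k`
      have hs : (Finset.univ.filter fun q : Fin n => Fin.castLE hk i < q).filter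
          (fun q : Fin n => (q : ℕ) < k) =
          (Finset.univ.filter fun j : Fin k => i < j).map (Fin.castLEEmb hk) := by
        ext q
        rw [Finset.mem_filter, Finset.mem_filter, Finset.mem_map]
        constructor
        · rintro ⟨⟨_, h⟩, h'⟩
          exact ⟨⟨q, h'⟩, Finset.mem_filter.2 ⟨Finset.mem_univ _, h⟩, rfl⟩
        · rintro ⟨j, hj, rfl⟩
          exact ⟨⟨Finset.mem_univ _, (Finset.mem_filter.1 hj).2⟩, j.2⟩
      rw [hs, Finset.prod_map]
      refine Finset.prod_congr rfl fun j hj => ?_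
      have hij : (i : ℕ) < j := (Finset.mem_filter.1 hj).2
      have hj2 := j.2
      show (yl x (r0 hk ε i) + yl x (r0 hk ε j)) ^ 2 =
        (x (Fin.castLE hk i) + x (Fin.castLE hk j)) ^
          (lam0 hk ε (Fin.castLE hk i) + lam0 hk ε (Fin.castLE hk j)).toNat *
        (x (Fin.castLE hk i) - x (Fin.castLE hk j)) ^
          (lam0 hk ε (Fin.castLE hk i) - lam0 hk ε (Fin.castLE hk j)).toNat
      rw [lam0_at, lam0_at, yl_r0 hk ε x i (by omega), sgl_r0 hk ε i, if_neg (by omega),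
        yl_sgl x (r0 hk ε j)]
      have hr : (r0 hk ε j).1 = Fin.castLE hk j := rfl
      rw [hr, sgl_r0 hk ε j]
      by_cases c : (j : ℕ) + 1 = n ∧ ε = -1
      · rw [if_pos c, show ((1 : ℤ) + -1).toNat = 0 from rfl,
          show ((1 : ℤ) - -1).toNat = 2 from rfl, pow_zero, one_mul]
        push_cast
        ring
      · rw [if_neg c, show ((1 : ℤ) + 1).toNat = 2 from rfl,
          show ((1 : ℤ) - 1).toNat = 0 from rfl, pow_zero, mul_one, Int.cast_one, one_mul]
    · have hs : (Finset.univ.filter fun q : Fin n => Fin.castLE hk i < q).filter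
          (fun q : Fin n => ¬ (q : ℕ) < k) = Finset.univ.filter (fun l : Fin n => k ≤ (l : ℕ)) := by
        ext q
        rw [Finset.mem_filter, Finset.mem_filter, Finset.mem_filter]
        constructor
        · rintro ⟨⟨_, _⟩, h'⟩
          exact ⟨Finset.mem_univ _, not_lt.1 h'⟩
        · rintro ⟨_, h⟩
          refine ⟨⟨Finset.mem_univ _, ?_⟩, not_lt.2 h⟩
          show (i : ℕ) < q
          have := i.2
          omega
      rw [hs]
      refine Finset.prod_congr rfl fun l hl => ?_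
      have hkl : k ≤ (l : ℕ) := (Finset.mem_filter.1 hl).2
      have hl2 := l.2
      have hi2 := i.2
      rw [lam0_at, lam0_ge hk ε l hkl, sgl_r0 hk ε i, if_neg (by omega)]
      norm_num
      ring

/-- **Top elements in type `D`** (compare the end of the proof of `top_GL`). -/
theorem top_D (hn : 2 ≤ n) (hk : k ≤ n) (hk' : k + 2 ≤ n ∨ k = n) (ε : ℤ)
    (hε : ε = 1 ∨ ε = -1) (b : ℕ) (I : Fin (b + 1) → Fin k → Fin (2 * n)) :
    ∃ P : MvPolynomial (Idx (2 * n) (b + 1)) ℂ, InvP (DD n) (b + 1) P ∧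
      IsLead (DD n) P (lam0 hk ε) ∧
      ∀ y : XX (DD n) (b + 1), Eu (DD n) (lam0 hk ε) y.2.1 * cf (DD n) P (lam0 hk ε) y =
        ∏ a, ((y.1 a).1.submatrix (I a) (fun j => ix (r0 hk ε j))).det := by
  classical
  obtain ⟨P, hP⟩ := exists_PF hn ε I
  have hinv : InvP (DD n) (b + 1) P := by
    refine invP_of_reg hn P fun x hx g h hh hp => ?_
    rw [hP x hx, hP x hx]
    exact invP_reg hn ε I hx g h hh hp
  obtain ⟨T, hT⟩ : ∃ T : RS n k ε × Finset (Fin k) → XX (DD n) (b + 1) → ℂ, T = fun p y =>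
    (∏ a, pg ((y.1 a).1 * ((DD n).qC y.2.1)⁻¹) (I a) (VV y.2.1 (wC y.2.1) p.1.1 p.2)) *
        Ring.inverse (D0 y.2.1 p.1.1 * DR (fun i => yl y.2.1 (p.1.1 i)) p.2) := ⟨_, rfl⟩
  obtain ⟨U, hU⟩ : ∃ U : Finset (RS n k ε × Finset (Fin k)), U = Finset.univ ×ˢ
    Finset.univ.filter (fun R : Finset (Fin k) => Even R.card) := ⟨_, rfl⟩
  have hexp0 : ∀ (y : XX (DD n) (b + 1)) (t : Fin n → ℂˣ), Phi (DD n) P y t =
      ∑ p ∈ U, T p y * ((chi (wtR p.1.1 p.2) t : ℂˣ) : ℂ) := by
    intro y t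
    rw [Phi_expand hn ε I P hP, hU, Finset.sum_product, hT]
  obtain ⟨s, hs⟩ : ∃ s : Finset (Fin n → ℤ), s = U.image (fun p => wtR p.1.1 p.2) := ⟨_, rfl⟩
  obtain ⟨c, hc⟩ : ∃ c : (Fin n → ℤ) → XX (DD n) (b + 1) → ℂ, c = fun μ y =>
    ∑ p ∈ U.filter (fun p => wtR p.1.1 p.2 = μ), T p y := ⟨_, rfl⟩
  have hexp : ∀ (y : XX (DD n) (b + 1)) (t : Fin n → ℂˣ), Phi (DD n) P y t =
      ∑ μ ∈ s, c μ y * ((chi μ t : ℂˣ) : ℂ) := by
    intro y t
    rw [hexp0 y t, ← Finset.sum_fiberwise_of_maps_to (s := U)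
      (t := s) (g := fun p => wtR p.1.1 p.2)
      (fun p hp => by rw [hs]; exact Finset.mem_image_of_mem _ hp)]
    refine Finset.sum_congr rfl fun μ _ => ?_
    rw [hc, Finset.sum_mul]
    refine Finset.sum_congr rfl fun p hp => ?_
    rw [(Finset.mem_filter.1 hp).2]
  obtain ⟨h1, h2⟩ := cf_of_Phi s c hexp
  have hUmem : ∀ p ∈ U, Even p.2.card := by
    intro p hp
    rw [hU, Finset.mem_product, Finset.mem_filter] at hp
    exact hp.2.2
  have hr0 := r0_mem hn hk hk' ε hε
  let rp : Equiv.Perm (Fin k) → RS n k ε := fun π => ⟨fun j => r0 hk ε (π j),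
    hr0.1.comp π.injective, fun h => (Equiv.prod_comp π (fun i => sgl (r0 hk ε i))).trans (hr0.2 h)⟩
  have hperm : ∀ π : Equiv.Perm (Fin k), wtR (fun j => r0 hk ε (π j)) ∅ = lam0 hk ε := by
    intro π
    unfold wtR lam0
    rw [Finset.compl_empty]
    exact Equiv.sum_comp π (fun j => wtD (ix (r0 hk ε j)))
  have hpU : ∀ π, (rp π, (∅ : Finset (Fin k))) ∈ U := by
    intro π
    rw [hU, Finset.mem_product, Finset.mem_filter]
    exact ⟨Finset.mem_univ _, Finset.mem_univ _, by simp⟩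
  have hlead : IsLead (DD n) P (lam0 hk ε) := by
    intro κ hκ
    have h3 := h2 hκ
    rw [hs] at h3
    obtain ⟨p, hp, rfl⟩ := Finset.mem_image.1 h3
    rcases wt_lt_or hk hk' ε hε p.1 p.2 (hUmem p hp) with h | ⟨hR, π, hπ⟩
    · exact h.le
    · rw [hπ, hR, hperm π]
  have hmem : lam0 hk ε ∈ s := by
    rw [hs]
    exact Finset.mem_image.2 ⟨(rp 1, ∅), hpU 1, hperm 1⟩
  have hset : U.filter (fun p => wtR p.1.1 p.2 = lam0 hk ε) =
      Finset.univ.image fun π : Equiv.Perm (Fin k) => (rp π, (∅ : Finset (Fin k))) := by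
    ext p
    rw [Finset.mem_filter, Finset.mem_image]
    constructor
    · rintro ⟨hp, hp'⟩
      rcases wt_lt_or hk hk' ε hε p.1 p.2 (hUmem p hp) with h | ⟨hR, π, hπ⟩
      · rw [hp'] at h
        exact absurd h (lt_irrefl _)
      · exact ⟨π, Finset.mem_univ _, Prod.ext (Subtype.ext hπ.symm) hR.symm⟩
    · rintro ⟨π, _, rfl⟩
      exact ⟨hpU π, hperm π⟩
  have hlc : ∀ y : XX (DD n) (b + 1), Eu (DD n) (lam0 hk ε) y.2.1 * c (lam0 hk ε) y =
      (k.factorial : ℂ) *
        ∏ a, ((y.1 a).1.submatrix (I a) (fun j => ix (r0 hk ε j))).det := by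
    intro y
    have hterm : ∀ π : Equiv.Perm (Fin k), Eu (DD n) (lam0 hk ε) y.2.1 * T (rp π, ∅) y =
        ∏ a, ((y.1 a).1.submatrix (I a) (fun j => ix (r0 hk ε j))).det := by
      intro π
      have hE : Eu (DD n) (lam0 hk ε) y.2.1 ≠ 0 := Eu_ne_zero _ y.2.2
      have h3 : T (rp π, ∅) y = (∏ a, pg ((y.1 a).1 * ((DD n).qC y.2.1)⁻¹) (I a)
          (VV y.2.1 (wC y.2.1) (fun j => r0 hk ε (π j)) ∅)) *
          Ring.inverse (D0 y.2.1 (fun j => r0 hk ε (π j)) *
            DR (fun i => yl y.2.1 (r0 hk ε (π i))) ∅) := by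
        rw [hT]
      rw [h3, lead_den hn hk hk' ε hε, Finset.prod_congr rfl fun a _ =>
        lead_term hn hk hk' ε hε (I a) (y.1 a).1 y.2.2 π, Ring.inverse_eq_inv']
      have h4 : ∀ a, Matrix.det (Matrix.of fun i j => (y.1 a).1 (I a i) (ix (r0 hk ε j))) =
          ((y.1 a).1.submatrix (I a) (fun j => ix (r0 hk ε j))).det := fun a => rfl
      rw [Finset.prod_congr rfl fun a _ => h4 a]
      field_simp
    rw [hc]
    show Eu (DD n) (lam0 hk ε) y.2.1 *
      ∑ p ∈ U.filter (fun p => wtR p.1.1 p.2 = lam0 hk ε), T p y = _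
    rw [hset, Finset.sum_image (fun π _ π' _ h => by
      refine Equiv.ext fun j => ?_
      have h5 : (fun j => r0 hk ε (π j)) = fun j => r0 hk ε (π' j) :=
        congrArg (fun p : RS n k ε × Finset (Fin k) => p.1.1) h
      exact hr0.1 (congrArg Prod.fst (congrFun h5 j))), Finset.mul_sum,
      Finset.sum_congr rfl fun π _ => hterm π, Finset.sum_const, Finset.card_univ,
      Fintype.card_perm, Fintype.card_fin, nsmul_eq_mul]
  have hfac : ((k.factorial : ℕ) : ℂ) ≠ 0 := Nat.cast_ne_zero.2 (Nat.factorial_ne_zero _)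
  refine ⟨(((k.factorial : ℕ) : ℂ)⁻¹) • P, ?_, ?_, ?_⟩
  · intro g g' h s hg hs hc hp' hg'
    rw [MvPolynomial.smul_eval, MvPolynomial.smul_eval, hinv g g' h s hg hs hc hp' hg']
  · intro κ hκ
    obtain ⟨y, hy⟩ := mem_supp.1 hκ
    refine hlead κ (mem_supp.2 ⟨y, fun h => hy ?_⟩)
    rw [cf_smul, Pi.smul_apply, h, smul_zero]
  · intro y
    rw [cf_smul, Pi.smul_apply, h1 _ hmem, smul_eq_mul]
    have h3 := hlc y
    field_simp
    linear_combination h3

end Pool.Agent.MTD.TD
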