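import Mathlib

/-! # MTD : local algebra for the top elements of type `D` (row L1: basic lemmas)

`K` a commutative ring, `Λ` a `K`-algebra (the Grassmann algebra) with a submodule `E` (the vectors)
all of whose elements have square zero.  `P i, Q i ∈ E` (`i < k`), `y i ∈ K`. -/

namespace Pool.Agent.MTD.LA

variable {K Λ : Type*} [CommRing K] [Algebra ℂ K] [Ring Λ] [Algebra K Λ] {k : ℕ}

/-- `∏_{i<j∈C} (y_j - y_i)` -/
def vd (y : Fin k → K) (C : Finset (Fin k)) : K :=
  ∏ i ∈ C, ∏ j ∈ C.filter (i < ·), (y j - y i)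

/-- `∏_{i<j∈C} (y_i + y_j)` -/
def sp (y : Fin k → K) (C : Finset (Fin k)) : K :=
  ∏ i ∈ C, ∏ j ∈ C.filter (i < ·), (y i + y j)

/-- The ordered product of the `P_i`, `i ∈ C`. -/
def ordP (P : Fin k → Λ) (C : Finset (Fin k)) : Λ :=
  (((List.finRange k).filter (· ∈ C)).map P).prod

/-- The ordered product divided by the Vandermonde determinant. -/
noncomputable def NC (y : Fin k → K) (P : Fin k → Λ) (C : Finset (Fin k)) : Λ :=
  Ring.inverse (vd y C) • ordP P C

/-- The coefficient of `P_i Q_i`. -/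
noncomputable def cO (y : Fin k → K) (i : Fin k) : K :=
  Ring.inverse (2 * ∏ l ∈ Finset.univ.erase i, (y l ^ 2 - y i ^ 2))

/-- `Ω_R = ∑_{i∈R} (2 ∏_{l≠i} (y_l² - y_i²))⁻¹ P_i Q_i` -/
noncomputable def Om (y : Fin k → K) (P Q : Fin k → Λ) (R : Finset (Fin k)) : Λ :=
  ∑ i ∈ R, cO y i • (P i * Q i)

/-- `V(R) = ∏_{i<j∈R} (y_i + y_j) · (P_{R^c} / vd(R^c)) · Ω_R^m / m!`, `m = |R|/2`. -/
noncomputable def VR (y : Fin k → K) (P Q : Fin k → Λ) (R : Finset (Fin k)) : Λ :=
  (sp y R * algebraMap ℂ K (1 / ((R.card / 2).factorial : ℂ))) •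
    (NC y P Rᶜ * Om y P Q R ^ (R.card / 2))

/-- The sign `-1` on `R`, `1` elsewhere. -/
def et (K : Type*) [CommRing K] (R : Finset (Fin k)) (i : Fin k) : K := if i ∈ R then -1 else 1

/-- `∏_{i<j} (y_i + y_j) (η_i y_i + η_j y_j)` -/
def DR (y : Fin k → K) (R : Finset (Fin k)) : K :=
  (∏ i, ∏ j ∈ Finset.univ.filter (i < ·), (y i + y j)) *
    ∏ i, ∏ j ∈ Finset.univ.filter (i < ·), (et K R i * y i + et K R j * y j)

/-- `c` is a unit of `O`. -/
def UO (O : Subalgebra ℂ K) (c : K) : Prop := c ∈ O ∧ ∃ c' ∈ O, c * c' = 1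

/-- The local situation: `O ⊂ K` a subring, `L ⊂ Λ` a subring with `O L ⊂ L` (the lattice). -/
structure Loc (O : Subalgebra ℂ K) (L : Subring Λ) (E : Submodule K Λ) (y : Fin k → K)
    (P Q : Fin k → Λ) : Prop where
  smul_mem : ∀ c ∈ O, ∀ v ∈ L, c • v ∈ L
  sq : ∀ u ∈ E, u * u = 0
  y_mem : ∀ i, y i ∈ O
  P_mem : ∀ i, P i ∈ L
  Q_mem : ∀ i, Q i ∈ L
  P_E : ∀ i, P i ∈ E
  Q_E : ∀ i, Q i ∈ E

section basic

variable {O : Subalgebra ℂ K} {L : Subring Λ} {E : Submodule K Λ} {y : Fin k → K} {P Q : Fin k → Λ}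

theorem UO.inverse {c : K} (h : UO O c) : Ring.inverse c ∈ O ∧ c * Ring.inverse c = 1 ∧ IsUnit c := by
  obtain ⟨_, c', hc', h1⟩ := h
  have hu : IsUnit c := IsUnit.of_mul_eq_one c' h1
  have h2 : c * Ring.inverse c = 1 := Ring.mul_inverse_cancel c hu
  have h3 : Ring.inverse c = c' := by
    calc Ring.inverse c = Ring.inverse c * (c * c') := by rw [h1, mul_one]
      _ = (c * Ring.inverse c) * c' := by ring
      _ = c' := by rw [h2, one_mul]
  exact ⟨by rw [h3]; exact hc', h2, hu⟩

theorem UO.mul {c c' : K} (h : UO O c) (h' : UO O c') : UO O (c * c') := by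
  obtain ⟨h1, d, h2, h3⟩ := h
  obtain ⟨h1', d', h2', h3'⟩ := h'
  refine ⟨O.mul_mem h1 h1', d * d', O.mul_mem h2 h2', ?_⟩
  calc c * c' * (d * d') = (c * d) * (c' * d') := by ring
    _ = 1 := by rw [h3, h3', one_mul]

theorem UO.neg {c : K} (h : UO O c) : UO O (-c) := by
  obtain ⟨h1, d, h2, h3⟩ := h
  exact ⟨O.neg_mem h1, -d, O.neg_mem h2, by rw [neg_mul_neg, h3]⟩

theorem UO.prod {ι : Type*} (s : Finset ι) (f : ι → K) (h : ∀ i ∈ s, UO O (f i)) :
    UO O (∏ i ∈ s, f i) :=
  Finset.prod_induction f (UO O) (fun _ _ => UO.mul) ⟨O.one_mem, 1, O.one_mem, one_mul 1⟩ h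

theorem UO.two : UO O (2 : K) := by
  have h1 : (2 : K) = algebraMap ℂ K 2 := (map_ofNat _ 2).symm
  rw [h1]
  refine ⟨O.algebraMap_mem 2, algebraMap ℂ K (1 / 2), O.algebraMap_mem _, ?_⟩
  rw [← map_mul]
  norm_num

theorem anti (h : ∀ u ∈ E, u * u = 0) {u v : Λ} (hu : u ∈ E) (hv : v ∈ E) : u * v = -(v * u) := by
  have h1 := h (u + v) (E.add_mem hu hv)
  rw [mul_add, add_mul, add_mul, h u hu, h v hv, zero_add, add_zero] at h1
  rw [eq_neg_iff_add_eq_zero, add_comm]
  exact h1

/-- products of two vectors are central in the algebra generated by the vectors -/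
theorem pair_central (h : ∀ u ∈ E, u * u = 0) {u v : Λ} (hu : u ∈ E) (hv : v ∈ E) {x : Λ}
    (hx : x ∈ Algebra.adjoin K (E : Set Λ)) : Commute (u * v) x := by
  induction hx using Algebra.adjoin_induction with
  | mem e he =>
    change u * v * e = e * (u * v)
    rw [mul_assoc, anti h hv he, mul_neg, ← mul_assoc, anti h hu he, neg_mul, neg_neg, mul_assoc]
  | algebraMap r => exact (Algebra.commutes r (u * v)).symm
  | add x y _ _ hx hy => exact hx.add_right hy
  | mul x y _ _ hx hy => exact hx.mul_right hy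

theorem pair_sq (h : ∀ u ∈ E, u * u = 0) {u v : Λ} (hu : u ∈ E) (hv : v ∈ E) :
    (u * v) * (u * v) = 0 := by
  rw [mul_assoc, ← mul_assoc v u v, anti h hv hu, neg_mul, mul_assoc u v v, h v hv, mul_zero,
    neg_zero, mul_zero]

theorem ordP_adjoin (hP : ∀ i, P i ∈ E) (C : Finset (Fin k)) :
    ordP P C ∈ Algebra.adjoin K (E : Set Λ) := by
  refine list_prod_mem fun x hx => ?_
  rw [List.mem_map] at hx
  obtain ⟨i, _, rfl⟩ := hx
  exact Algebra.subset_adjoin (hP i)

theorem NC_adjoin (hP : ∀ i, P i ∈ E) (C : Finset (Fin k)) :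
    NC y P C ∈ Algebra.adjoin K (E : Set Λ) :=
  Subalgebra.smul_mem _ (ordP_adjoin hP C) _

theorem Om_adjoin (hP : ∀ i, P i ∈ E) (hQ : ∀ i, Q i ∈ E) (R : Finset (Fin k)) :
    Om y P Q R ∈ Algebra.adjoin K (E : Set Λ) :=
  Subalgebra.sum_mem _ fun i _ => Subalgebra.smul_mem _ (Subalgebra.mul_mem _
    (Algebra.subset_adjoin (hP i)) (Algebra.subset_adjoin (hQ i))) _

/-- `Ω_R` is central. -/
theorem Om_central (h : ∀ u ∈ E, u * u = 0) (hP : ∀ i, P i ∈ E) (hQ : ∀ i, Q i ∈ E)
    (R : Finset (Fin k)) {x : Λ} (hx : x ∈ Algebra.adjoin K (E : Set Λ)) :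
    Commute (Om y P Q R) x :=
  Commute.sum_left _ _ _ fun i _ => (pair_central h (hP i) (hQ i) hx).smul_left _

theorem sp_empty : sp y (∅ : Finset (Fin k)) = 1 := rfl

/-- products over the pairs of an enlarged set -/
theorem l1_pairs (F : Fin k → Fin k → K) {p : Fin k} {C : Finset (Fin k)} (hp : p ∉ C) :
    ∏ i ∈ insert p C, ∏ j ∈ (insert p C).filter (i < ·), F i j =
      (∏ i ∈ C, ∏ j ∈ C.filter (i < ·), F i j) *
        ∏ l ∈ C, (if p < l then F p l else F l p) := by
  rw [Finset.prod_insert hp]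
  have h1 : (insert p C).filter (p < ·) = C.filter (p < ·) := by
    rw [Finset.filter_insert, if_neg (lt_irrefl p)]
  have h2 : ∀ i ∈ C, ∏ j ∈ (insert p C).filter (i < ·), F i j =
      (if i < p then F i p else 1) * ∏ j ∈ C.filter (i < ·), F i j := by
    intro i hi
    rw [Finset.filter_insert]
    split_ifs with h
    · rw [Finset.prod_insert (fun h' => hp (Finset.mem_filter.1 h').1)]
    · rw [one_mul]
  have h3 : ∏ l ∈ C, (if p < l then F p l else F l p) =
      (∏ l ∈ C, if p < l then F p l else 1) * ∏ l ∈ C, if l < p then F l p else 1 := by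
    rw [← Finset.prod_mul_distrib]
    refine Finset.prod_congr rfl fun l hl => ?_
    have hne : p ≠ l := fun h => hp (h ▸ hl)
    rcases lt_or_gt_of_ne hne with h | h
    · rw [if_pos h, if_pos h, if_neg h.not_gt, mul_one]
    · rw [if_neg h.not_gt, if_neg h.not_gt, if_pos h, one_mul]
  rw [Finset.prod_congr rfl h2, Finset.prod_mul_distrib, h1, h3, Finset.prod_filter]
  ring

theorem sp_insert {p : Fin k} {C : Finset (Fin k)} (hp : p ∉ C) :
    sp y (insert p C) = sp y C * ∏ l ∈ C, (y p + y l) := by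
  unfold sp
  rw [l1_pairs (fun i j => y i + y j) hp]
  congr 1
  refine Finset.prod_congr rfl fun l _ => ?_
  split_ifs
  · rfl
  · exact add_comm _ _

theorem NC_empty : NC y P (∅ : Finset (Fin k)) = 1 := by
  have h1 : vd y (∅ : Finset (Fin k)) = 1 := rfl
  have h2 : ordP P (∅ : Finset (Fin k)) = 1 := by
    unfold ordP
    rw [List.filter_eq_nil_iff.2 (by simp), List.map_nil, List.prod_nil]
  rw [NC, h1, h2, Ring.inverse_one, one_smul]

theorem l1_vd {p : Fin k} {C : Finset (Fin k)} (hp : p ∉ C) :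
    vd y (insert p C) = vd y C * ((-1) ^ (C.filter (p < ·)).card * ∏ l ∈ C, (y p - y l)) := by
  unfold vd
  rw [l1_pairs (fun i j => y j - y i) hp]
  congr 1
  rw [Finset.card_filter, ← Finset.prod_pow_eq_pow_sum, ← Finset.prod_mul_distrib]
  refine Finset.prod_congr rfl fun l _ => ?_
  split_ifs
  · ring
  · ring

/-- moving a vector through a product of vectors -/
theorem l1_move (h : ∀ u ∈ E, u * u = 0) {u : Λ} (hu : u ∈ E) (l : List Λ)
    (hl : ∀ x ∈ l, x ∈ E) : u * l.prod = (-1) ^ l.length * (l.prod * u) := by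
  induction l with
  | nil => simp
  | cons a t ih =>
    rw [List.prod_cons, List.length_cons, ← mul_assoc, anti h hu (hl a List.mem_cons_self),
      neg_mul, mul_assoc, ih fun x hx => hl x (List.mem_cons_of_mem _ hx), pow_succ']
    have h1 : a * ((-1 : Λ) ^ t.length * (t.prod * u)) = (-1 : Λ) ^ t.length * (a * (t.prod * u)) := by
      rw [← mul_assoc, ((Commute.neg_one_right a).pow_right t.length).eq, mul_assoc]
    rw [h1, mul_assoc a]
    simp only [neg_mul, one_mul]

/-- inserting an index into a sorted list -/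
theorem l1_list (h : ∀ u ∈ E, u * u = 0) (hP : ∀ i, P i ∈ E) {p : Fin k} {C : Finset (Fin k)}
    (hp : p ∉ C) (l : List (Fin k)) (hl : l.Pairwise (· < ·)) (hpl : p ∈ l) :
    ((l.filter (· ∈ insert p C)).map P).prod =
      (-1) ^ (l.filter fun x => x ∈ C ∧ p < x).length * (((l.filter (· ∈ C)).map P).prod * P p) := by
  induction l with
  | nil => exact absurd hpl List.not_mem_nil
  | cons a t ih =>
    rw [List.pairwise_cons] at hl
    rcases eq_or_ne a p with rfl | hap
    · have h1 : t.filter (· ∈ insert a C) = t.filter (· ∈ C) := by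
        refine List.filter_congr fun x hx => ?_
        have hne : x ≠ a := (hl.1 x hx).ne'
        simp [hne]
      have h2 : t.filter (fun x => x ∈ C ∧ a < x) = t.filter (· ∈ C) := by
        refine List.filter_congr fun x hx => ?_
        simp [hl.1 x hx]
      rw [List.filter_cons_of_pos (by simp), List.filter_cons_of_neg (by simp),
        List.filter_cons_of_neg (by simpa using hp), h1, h2, List.map_cons, List.prod_cons,
        l1_move h (hP a), List.length_map]
      intro x hx
      rw [List.mem_map] at hx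
      obtain ⟨i, _, rfl⟩ := hx
      exact hP i
    · have hpt : p ∈ t := by
        rcases List.mem_cons.1 hpl with h1 | h1
        · exact absurd h1.symm hap
        · exact h1
      have hlt : a < p := hl.1 p hpt
      have ih' := ih hl.2 hpt
      rw [List.filter_cons_of_neg (p := fun x => decide (x ∈ C ∧ p < x))
        (by simp [hlt.not_gt])]
      by_cases haC : a ∈ C
      · rw [List.filter_cons_of_pos (by simp [haC]), List.filter_cons_of_pos (by simp [haC]),
          List.map_cons, List.map_cons, List.prod_cons, List.prod_cons, ih', mul_assoc (P a),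
          ← mul_assoc (P a), ((Commute.neg_one_right (P a)).pow_right _).eq, mul_assoc]
      · rw [List.filter_cons_of_neg (by simp [haC, hap]), List.filter_cons_of_neg (by simp [haC]),
          ih']

/-- **Insertion lemma.**  Moving `P_p` to the right end of the ordered product gives the sign
`(-1)^{#{l ∈ C, p < l}}`, and so does the Vandermonde determinant. -/
theorem NC_insert (h : ∀ u ∈ E, u * u = 0) (hP : ∀ i, P i ∈ E) {p : Fin k} {C : Finset (Fin k)}
    (hp : p ∉ C) : NC y P (insert p C) =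
      Ring.inverse (∏ l ∈ C, (y p - y l)) • (NC y P C * P p) := by
  have h1 : ordP P (insert p C) = (-1) ^ (C.filter (p < ·)).card * (ordP P C * P p) := by
    unfold ordP
    rw [l1_list h hP hp (List.finRange k) (List.pairwise_lt_finRange k) (List.mem_finRange p)]
    congr 2
    rw [← List.toFinset_card_of_nodup ((List.nodup_finRange k).filter _)]
    congr 1
    ext x
    simp
  have h2 : ((-1 : Λ) ^ (C.filter (p < ·)).card) * (ordP P C * P p) =
      ((-1 : K) ^ (C.filter (p < ·)).card) • (ordP P C * P p) := by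
    rw [Algebra.smul_def, map_pow, map_neg, map_one]
  have h3 : Ring.inverse ((-1 : K) ^ (C.filter (p < ·)).card) * (-1) ^ (C.filter (p < ·)).card = 1 :=
    Ring.inverse_mul_cancel _ (IsUnit.pow _ isUnit_one.neg)
  rw [NC, NC, l1_vd hp, h1, h2, smul_smul, Ring.mul_inverse_rev, Ring.mul_inverse_rev,
    smul_mul_assoc, smul_smul]
  congr 1
  calc Ring.inverse (∏ l ∈ C, (y p - y l)) * Ring.inverse ((-1 : K) ^ (C.filter (p < ·)).card) *
        Ring.inverse (vd y C) * (-1) ^ (C.filter (p < ·)).card =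
        Ring.inverse (∏ l ∈ C, (y p - y l)) * Ring.inverse (vd y C) *
        (Ring.inverse ((-1 : K) ^ (C.filter (p < ·)).card) * (-1) ^ (C.filter (p < ·)).card) := by
        ring
    _ = _ := by rw [h3, mul_one]

theorem Om_insert {p : Fin k} {R : Finset (Fin k)} (hp : p ∉ R) :
    Om y P Q (insert p R) = Om y P Q R + cO y p • (P p * Q p) := by
  rw [Om, Om, Finset.sum_insert hp, add_comm]

/-- `(A + B)^m = A^m + m A^{m-1} B` if `B² = 0`. -/
theorem add_pow_sq_zero {A B : Λ} (hAB : Commute A B) (hB : B * B = 0) (m : ℕ) :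
    (A + B) ^ m = A ^ m + (m : Λ) * (A ^ (m - 1) * B) := by
  induction m with
  | zero => simp
  | succ m ih =>
    rw [pow_succ, ih, mul_add, add_mul, add_mul, Nat.add_sub_cancel]
    have h1 : (m : Λ) * (A ^ (m - 1) * B) * B = 0 := by
      rw [mul_assoc, mul_assoc, hB, mul_zero, mul_zero]
    have h2 : (m : Λ) * (A ^ (m - 1) * B) * A = (m : Λ) * (A ^ m * B) := by
      rcases Nat.eq_zero_or_pos m with rfl | hm
      · simp
      · rw [mul_assoc, mul_assoc, ← hAB.eq, ← mul_assoc (A ^ (m - 1)), ← pow_succ,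
          Nat.sub_add_cancel hm]
    rw [h1, h2, add_zero, ← pow_succ]
    push_cast
    rw [add_mul, one_mul]
    abel

end basic

end Pool.Agent.MTD.LA
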