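import Pool.Agent.MTD.TD1

/-! # MTD : square roots of matrices near `1` (row Q0) -/

namespace Pool.Agent.MTD.TD

open Matrix Filter Topology

/-- a local square root in a complete normed algebra -/
theorem exists_sqrt_normed {A : Type*} [NormedRing A] [NormedAlgebra ℂ A] [CompleteSpace A] :
    ∃ Rt : A → A, Tendsto Rt (𝓝 1) (𝓝 1) ∧ ∀ᶠ E in 𝓝 (1 : A), Rt E * Rt E = E := by
  have h2 : (2 : ℂ) ≠ 0 := two_ne_zero
  set f' : A ≃L[ℂ] A := ContinuousLinearEquiv.smulLeft (Units.mk0 (2 : ℂ) h2) with hf'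
  have hd : HasStrictFDerivAt (fun X : A => X * X) (f' : A →L[ℂ] A) 1 := by
    have h := (hasStrictFDerivAt_id (𝕜 := ℂ) (1 : A)).mul' (hasStrictFDerivAt_id (𝕜 := ℂ) (1 : A))
    refine h.congr_fderiv ?_
    ext X
    simp [hf', two_smul]
  refine ⟨hd.localInverse _ _ _, ?_, ?_⟩
  · have := hd.localInverse_tendsto
    simpa using this
  · have := hd.eventually_right_inverse
    simpa using this

/-- the equation `r X + X s = 0` has only the zero solution if `r`, `s` are near one -/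
theorem eq_zero_of_near {A : Type*} [NormedRing A] [NormedAlgebra ℂ A] {r s X : A}
    (hr : ‖r - 1‖ < 1) (hs : ‖s - 1‖ < 1) (h : r * X + X * s = 0) : X = 0 := by
  have h1 : (2 : ℂ) • X = -((r - 1) * X + X * (s - 1)) := by
    rw [two_smul]
    have : X + X = (r * X + X * s) - ((r - 1) * X + X * (s - 1)) := by noncomm_ring
    rw [this, h, zero_sub]
  have h2 : 2 * ‖X‖ ≤ ‖r - 1‖ * ‖X‖ + ‖X‖ * ‖s - 1‖ := by
    calc 2 * ‖X‖ = ‖(2 : ℂ) • X‖ := by rw [norm_smul]; norm_num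
      _ = ‖(r - 1) * X + X * (s - 1)‖ := by rw [h1, norm_neg]
      _ ≤ ‖(r - 1) * X‖ + ‖X * (s - 1)‖ := norm_add_le _ _
      _ ≤ ‖r - 1‖ * ‖X‖ + ‖X‖ * ‖s - 1‖ := add_le_add (norm_mul_le _ _) (norm_mul_le _ _)
  rw [← norm_eq_zero]
  have h3 := norm_nonneg X
  by_contra hne
  have h4 : 0 < ‖X‖ := lt_of_le_of_ne h3 (Ne.symm hne)
  nlinarith [mul_pos h4 (sub_pos.2 hr), mul_pos h4 (sub_pos.2 hs)]

theorem continuous_sd {N : ℕ} : Continuous (sd : Matrix (Fin N) (Fin N) ℂ → _) := by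
  refine continuous_matrix fun i j => ?_
  exact (continuous_id (X := Matrix (Fin N) (Fin N) ℂ)).matrix_elem (Fin.rev j) (Fin.rev i)

/-- A local square root near `1`.

Proof: the map `X ↦ X * X` on matrices has derivative `2` at `1` (invertible), so it has a local
inverse `Rt` near `1` (inverse function theorem, `HasStrictFDerivAt.toOpenPartialHomeomorph` /
`HasStrictFDerivAt.localInverse`), continuous at `1` with `Rt 1 = 1`.  (Alternatively: the power
series, or Newton's iteration.)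

Commutation: if `A` commutes with `E = r * r`, `r = Rt E`, then `X = A r - r A` satisfies
`r X + X r = A r² - r² A = 0`; the linear map `X ↦ r X + X r` is invertible for `r` near `1` (at
`r = 1` it is `2`, and invertibility of linear endomorphisms is open), so `X = 0`.

`sd`: if `sd E = E` then `(sd r)² = E`, so `sd r` commutes with `E`, hence with `r`, and
`(r - sd r)(r + sd r) = 0` with `r + sd r` near `2`, hence invertible. -/
theorem exists_local_sqrt (N : ℕ) :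
    ∃ Rt : Matrix (Fin N) (Fin N) ℂ → Matrix (Fin N) (Fin N) ℂ,
      Tendsto Rt (𝓝 1) (𝓝 1) ∧
      ∀ᶠ E in 𝓝 (1 : Matrix (Fin N) (Fin N) ℂ), Rt E * Rt E = E ∧ IsUnit (Rt E).det ∧
        (∀ A : Matrix (Fin N) (Fin N) ℂ, Commute A E → Commute A (Rt E)) ∧
        (sd E = E → sd (Rt E) = Rt E) := by
  let _ : NormedRing (Matrix (Fin N) (Fin N) ℂ) := Matrix.linftyOpNormedRing
  let _ : NormedAlgebra ℂ (Matrix (Fin N) (Fin N) ℂ) := Matrix.linftyOpNormedAlgebra
  obtain ⟨Rt, h1, h2⟩ := exists_sqrt_normed (A := Matrix (Fin N) (Fin N) ℂ)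
  refine ⟨Rt, h1, ?_⟩
  -- closeness to one
  have hn : ∀ᶠ r in 𝓝 (1 : Matrix (Fin N) (Fin N) ℂ), ‖r - 1‖ < 1 := by
    have := Metric.ball_mem_nhds (1 : Matrix (Fin N) (Fin N) ℂ) one_pos
    filter_upwards [this] with r hr
    rwa [Metric.mem_ball, dist_eq_norm] at hr
  have hsd : Tendsto (fun r : Matrix (Fin N) (Fin N) ℂ => sd r) (𝓝 1) (𝓝 1) := by
    have := (continuous_sd (N := N)).tendsto 1
    rwa [sd_one] at this
  have hdet : ∀ᶠ r in 𝓝 (1 : Matrix (Fin N) (Fin N) ℂ), IsUnit r.det := by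
    have hc : Continuous fun r : Matrix (Fin N) (Fin N) ℂ => r.det := continuous_id.matrix_det
    have : ∀ᶠ r in 𝓝 (1 : Matrix (Fin N) (Fin N) ℂ), r.det ≠ 0 := by
      refine (hc.tendsto 1).eventually_ne ?_
      rw [Matrix.det_one]
      exact one_ne_zero
    filter_upwards [this] with r hr
    exact hr.isUnit
  have h3 : ∀ᶠ E in 𝓝 (1 : Matrix (Fin N) (Fin N) ℂ), ‖Rt E - 1‖ < 1 := h1.eventually hn
  have h4 : ∀ᶠ E in 𝓝 (1 : Matrix (Fin N) (Fin N) ℂ), ‖sd (Rt E) - 1‖ < 1 :=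
    (hsd.comp h1).eventually hn
  have h5 : ∀ᶠ E in 𝓝 (1 : Matrix (Fin N) (Fin N) ℂ), IsUnit (Rt E).det := h1.eventually hdet
  filter_upwards [h2, h3, h4, h5] with E e2 e3 e4 e5
  have hcomm : ∀ A : Matrix (Fin N) (Fin N) ℂ, Commute A E → Commute A (Rt E) := by
    intro A hA
    have h6 : A * (Rt E * Rt E) = (Rt E * Rt E) * A := by rw [e2]; exact hA
    have h7 : Rt E * (A * Rt E - Rt E * A) + (A * Rt E - Rt E * A) * Rt E = 0 := by
      have : Rt E * (A * Rt E - Rt E * A) + (A * Rt E - Rt E * A) * Rt E =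
        A * (Rt E * Rt E) - (Rt E * Rt E) * A := by noncomm_ring
      rw [this, h6, sub_self]
    exact sub_eq_zero.1 (eq_zero_of_near e3 e3 h7)
  refine ⟨e2, e5, hcomm, fun hE => ?_⟩
  have h6 : sd (Rt E) * sd (Rt E) = E := by rw [← sd_mul, e2, hE]
  have h7 : Commute (sd (Rt E)) E := by
    calc sd (Rt E) * E = sd (Rt E) * (sd (Rt E) * sd (Rt E)) := by rw [h6]
      _ = sd (Rt E) * sd (Rt E) * sd (Rt E) := (Matrix.mul_assoc _ _ _).symm
      _ = E * sd (Rt E) := by rw [h6]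
  have h8 : sd (Rt E) * Rt E = Rt E * sd (Rt E) := hcomm _ h7
  have h9 : Rt E * (sd (Rt E) - Rt E) + (sd (Rt E) - Rt E) * sd (Rt E) = 0 := by
    have : Rt E * (sd (Rt E) - Rt E) + (sd (Rt E) - Rt E) * sd (Rt E) =
        sd (Rt E) * sd (Rt E) - Rt E * Rt E := by noncomm_ring
    rw [this, h6, e2, sub_self]
  exact sub_eq_zero.1 (eq_zero_of_near e3 e4 h9)

end Pool.Agent.MTD.TD
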