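import Pool.Agent.MTD.TV4

/-! # MTD : type `D`, the algebra generated by `s` and `𝓎` (row Q1) -/

namespace Pool.Agent.MTD.TD

open Matrix
open Pool.Agent.MP_c45d35_ag (chi UpUni LowUni)

variable {n : ℕ}

/-- `s 𝓎 = 𝓎 s = ∏ x`. -/
theorem sC_yyC (hn : 2 ≤ n) (x : Fin n → ℂ) :
    (DD n).sC x * yyC n x = (∏ k, x k) • (1 : Matrix (Fin (2 * n)) (Fin (2 * n)) ℂ) ∧
      yyC n x * (DD n).sC x = (∏ k, x k) • (1 : Matrix (Fin (2 * n)) (Fin (2 * n)) ℂ) ∧
      sd (yyC n x) = - yyC n x ∧ sd ((DD n).sC x) = - (DD n).sC x := by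
  have hp : (((∏ k, MvPolynomial.X k : MvPolynomial (Fin n) ℂ) •
      (1 : Matrix (Fin (2 * n)) (Fin (2 * n)) (MvPolynomial (Fin n) ℂ))).map
      (MvPolynomial.eval x)) = (∏ k, x k) • (1 : Matrix (Fin (2 * n)) (Fin (2 * n)) ℂ) := by
    ext i j
    rw [Matrix.map_apply, Matrix.smul_apply, Matrix.smul_apply, smul_eq_mul, smul_eq_mul, map_mul,
      map_prod, Matrix.one_apply, Matrix.one_apply]
    simp only [MvPolynomial.eval_X]
    split_ifs <;> simp
  have h1 := congrArg (fun M => M.map (MvPolynomial.eval x)) (sx_yy hn)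
  have h2 := congrArg (fun M => M.map (MvPolynomial.eval x)) (yy_sx hn)
  have h3 := congrArg (fun M => M.map (MvPolynomial.eval x)) (sd_yy hn)
  rw [hp, Matrix.map_mul] at h1 h2
  refine ⟨h1, h2, ?_, (sx_mem0 hn x).1⟩
  rw [yyC, sd_map, h3]
  ext i j
  simp

/-- intertwiners -/
theorem q1_semi {R : Type*} [CommRing R] {N : ℕ} {A M M' : Matrix (Fin N) (Fin N) R}
    (h : A * M = M' * A) (P : Polynomial R) :
    A * Polynomial.aeval M P = Polynomial.aeval M' P * A := by
  induction P using Polynomial.induction_on' with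
  | add p q hp hq => rw [map_add, map_add, mul_add, add_mul, hp, hq]
  | monomial k c =>
    have hk : ∀ k : ℕ, A * M ^ k = M' ^ k * A := by
      intro k
      induction k with
      | zero => simp
      | succ k ih => rw [pow_succ, ← mul_assoc, ih, mul_assoc, h, ← mul_assoc, ← pow_succ]
    rw [Polynomial.aeval_monomial, Polynomial.aeval_monomial, ← mul_assoc, mul_assoc _ _ A,
      ← hk k, ← mul_assoc]
    congr 1
    exact (Algebra.commutes c A).symm

theorem q1_comm {R : Type*} [CommRing R] {N : ℕ} {A B : Matrix (Fin N) (Fin N) R}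
    (h : Commute A B) (P : Polynomial R) : Commute (Polynomial.aeval A P) B :=
  (q1_semi (A := B) (M := A) (M' := A) h.symm.eq P).symm

/-- `∏ (Z - X_l²)` -/
noncomputable def q1_F (n : ℕ) : Polynomial (MvPolynomial (Fin n) ℂ) :=
  ∏ l : Fin n, (Polynomial.X - Polynomial.C (MvPolynomial.X l ^ 2))

theorem q1_prod (n : ℕ) : (∏ i : Fin (2 * n), (Polynomial.X - Polynomial.C (ev (wtD i) (XP n))) :
    Polynomial (MvPolynomial (Fin n) ℂ)) = (q1_F n).comp (Polynomial.X ^ 2) := by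
  let e : Lab n ≃ Fin (2 * n) := ⟨ix, lb, lb_ix, ix_lb⟩
  rw [← Equiv.prod_comp e, Fintype.prod_prod_type, q1_F, Polynomial.prod_comp]
  refine Finset.prod_congr rfl fun l _ => ?_
  rw [Fintype.prod_bool]
  have h1 : ev (wtD (e (l, true))) (XP n) = MvPolynomial.X l := by
    change ev (wtD (ix (l, true))) (XP n) = _
    rw [ev_ix]
    simp [yl]
  have h2 : ev (wtD (e (l, false))) (XP n) = - MvPolynomial.X l := by
    change ev (wtD (ix (l, false))) (XP n) = _
    rw [ev_ix]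
    simp [yl]
  rw [h1, h2, Polynomial.sub_comp, Polynomial.X_comp, Polynomial.C_comp, Polynomial.C_neg,
    Polynomial.C_pow]
  ring

theorem q1_coeff (n : ℕ) : (q1_F n).coeff 0 =
    (-1) ^ n * (∏ k, MvPolynomial.X k : MvPolynomial (Fin n) ℂ) ^ 2 := by
  rw [Polynomial.coeff_zero_eq_eval_zero, q1_F, Polynomial.eval_prod]
  have h : ∀ l : Fin n, Polynomial.eval 0 (Polynomial.X - Polynomial.C
      ((MvPolynomial.X l : MvPolynomial (Fin n) ℂ) ^ 2)) =
      (-1) * ((MvPolynomial.X l : MvPolynomial (Fin n) ℂ) ^ 2) := by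
    intro l
    rw [Polynomial.eval_sub, Polynomial.eval_X, Polynomial.eval_C]
    ring
  simp only [h]
  rw [Finset.prod_mul_distrib, Finset.prod_const, Finset.card_univ, Fintype.card_fin,
    Finset.prod_pow]

theorem q1_eD (n : ℕ) (i j : Fin (2 * n)) : eD n i j =
    if ((j : ℕ) = (i : ℕ) + 1 ∧ (j : ℕ) + 1 ≤ n) ∨ ((i : ℕ) + 2 = n ∧ (j : ℕ) = n) then 1
    else if ((j : ℕ) = (i : ℕ) + 1 ∧ n ≤ (i : ℕ)) ∨ ((i : ℕ) + 1 = n ∧ (j : ℕ) = n + 1) then -1
    else 0 := rfl

theorem q1_eD_low (i j : Fin (2 * n)) (h : j ≤ i) : eD n i j = 0 := by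
  have h' : (j : ℕ) ≤ (i : ℕ) := h
  rw [q1_eD, if_neg (by omega), if_neg (by omega)]

/-- the generic `e + X` -/
noncomputable def q1_M (n : ℕ) : Matrix (Fin (2 * n)) (Fin (2 * n)) (MvPolynomial (Fin n) ℂ) :=
  (eD n).map MvPolynomial.C + Matrix.diagonal fun i => ev (wtD i) MvPolynomial.X

theorem q1_charpoly (n : ℕ) : (q1_M n).charpoly = (q1_F n).comp (Polynomial.X ^ 2) := by
  rw [Matrix.charpoly_of_isUpperTriangular, ← q1_prod]
  · refine Finset.prod_congr rfl fun i _ => ?_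
    rw [q1_M, Matrix.add_apply, Matrix.map_apply, q1_eD_low i i le_rfl, map_zero, zero_add,
      Matrix.diagonal_apply_eq]
  · intro i j hij
    have hij' : j < i := hij
    rw [q1_M, Matrix.add_apply, Matrix.map_apply, q1_eD_low i j hij'.le, map_zero, zero_add,
      Matrix.diagonal_apply_ne _ hij'.ne']

theorem q1_sx_zero (hn : 2 ≤ n) : Polynomial.aeval (sxD n ^ 2) (q1_F n) = 0 := by
  have h1 : Polynomial.aeval (q1_M n) ((q1_F n).comp (Polynomial.X ^ 2)) = 0 := by
    rw [← q1_charpoly]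
    exact Matrix.aeval_self_charpoly _
  have h2 := q1_semi (A := pxD n) (M := q1_M n) (M' := sxD n) (px_conj0 hn)
    ((q1_F n).comp (Polynomial.X ^ 2))
  rw [h1, mul_zero, Polynomial.aeval_comp, Polynomial.aeval_X_pow] at h2
  have h3 : pxD n * sd (pxD n) = 1 := mul_sd (px_sd hn)
  calc Polynomial.aeval (sxD n ^ 2) (q1_F n)
      = (Polynomial.aeval (sxD n ^ 2) (q1_F n) * pxD n) * sd (pxD n) := by
        rw [Matrix.mul_assoc, h3, Matrix.mul_one]
    _ = 0 := by rw [← h2, Matrix.zero_mul]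

theorem q1_prodX_ne (n : ℕ) : (∏ k, MvPolynomial.X k : MvPolynomial (Fin n) ℂ) ≠ 0 :=
  Finset.prod_ne_zero_iff.2 fun k _ => MvPolynomial.X_ne_zero k

/-- the generic form of `yyC_sq` -/
theorem q1_yy_sq (hn : 2 ≤ n) :
    yy n * yy n = (-(-1) ^ n : MvPolynomial (Fin n) ℂ) •
      Polynomial.aeval (sxD n ^ 2) (q1_F n).divX := by
  set p : MvPolynomial (Fin n) ℂ := ∏ k, MvPolynomial.X k with hp
  set A := Polynomial.aeval (sxD n ^ 2) (q1_F n).divX with hA
  have h1 : sxD n ^ 2 * A = -((-1) ^ n * p ^ 2) • (1 : Matrix _ _ _) := by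
    have h2 := q1_sx_zero hn
    rw [← Polynomial.X_mul_divX_add (q1_F n), map_add, map_mul, Polynomial.aeval_X,
      Polynomial.aeval_C, q1_coeff, Algebra.algebraMap_eq_smul_one] at h2
    rw [neg_smul]
    exact eq_neg_of_add_eq_zero_left h2
  have h2 : (yy n * yy n) * sxD n ^ 2 = p ^ 2 • (1 : Matrix _ _ _) := by
    have e1 : (yy n * yy n) * sxD n ^ 2 = yy n * (yy n * sxD n) * sxD n := by
      rw [pow_two]
      simp only [Matrix.mul_assoc]
    rw [e1, yy_sx hn, mul_smul_comm, Matrix.mul_one, smul_mul_assoc, yy_sx hn, smul_smul, ← hp,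
      ← pow_two]
  have h3 : p ^ 2 • A = -((-1) ^ n * p ^ 2) • (yy n * yy n) := by
    calc p ^ 2 • A = ((yy n * yy n) * sxD n ^ 2) * A := by
          rw [h2, smul_mul_assoc, Matrix.one_mul]
      _ = (yy n * yy n) * (sxD n ^ 2 * A) := Matrix.mul_assoc _ _ _
      _ = _ := by rw [h1, mul_smul_comm, Matrix.mul_one]
  have h4 : ((-1 : MvPolynomial (Fin n) ℂ) ^ n) * (-1) ^ n = 1 := by
    rw [← mul_pow]
    norm_num
  have hp0 : p ^ 2 ≠ 0 := pow_ne_zero _ (q1_prodX_ne n)
  refine Matrix.ext fun i j => ?_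
  have h5 := congrFun (congrFun h3 i) j
  rw [Matrix.smul_apply, Matrix.smul_apply, smul_eq_mul, smul_eq_mul] at h5
  rw [Matrix.smul_apply, smul_eq_mul]
  apply mul_left_cancel₀ hp0
  linear_combination ((-1 : MvPolynomial (Fin n) ℂ) ^ n) * h5 -
    p ^ 2 * (yy n * yy n) i j * h4

/-- `𝓎²` is a polynomial in `s`: by Cayley-Hamilton, with `χ(T) = ∏ (T² - x_l²)`,
`G(T) = (χ(T) - χ(0))/T²`, `𝓎² = -(-1)^n G(s)` when `∏ x ≠ 0` (`𝓎 = (∏ x) s⁻¹`, `χ(0) = (-1)^n (∏ x)²`),
and in general by continuity / as an identity of polynomials in `x`. -/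
theorem yyC_sq (hn : 2 ≤ n) (x : Fin n → ℂ) :
    ∃ Q : Polynomial ℂ, yyC n x * yyC n x = Polynomial.aeval ((DD n).sC x) Q := by
  have h1 := congrArg (fun M => M.map (MvPolynomial.eval x)) (q1_yy_sq hn)
  simp only [Matrix.map_mul] at h1
  have h2 : (Polynomial.aeval (sxD n ^ 2) (q1_F n).divX).map (MvPolynomial.eval x) =
      Polynomial.aeval ((DD n).sC x ^ 2) ((q1_F n).divX.map (MvPolynomial.eval x)) := by
    have h3 := Polynomial.map_aeval_eq_aeval_map (φ := MvPolynomial.eval x)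
      (ψ := (MvPolynomial.eval x).mapMatrix) (R := MvPolynomial (Fin n) ℂ) (T := ℂ)
      (S := Matrix (Fin (2 * n)) (Fin (2 * n)) (MvPolynomial (Fin n) ℂ))
      (U := Matrix (Fin (2 * n)) (Fin (2 * n)) ℂ) (by
        refine RingHom.ext fun c => ?_
        rw [RingHom.comp_apply, RingHom.comp_apply]
        ext i j
        rw [RingHom.mapMatrix_apply, Matrix.map_apply, Matrix.algebraMap_matrix_apply,
          Matrix.algebraMap_matrix_apply]
        split_ifs <;> simp) (q1_F n).divX (sxD n ^ 2)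
    rw [map_pow] at h3
    exact h3
  have h3 : ∀ (c : MvPolynomial (Fin n) ℂ)
      (A : Matrix (Fin (2 * n)) (Fin (2 * n)) (MvPolynomial (Fin n) ℂ)),
      (c • A).map (MvPolynomial.eval x) = (MvPolynomial.eval x c) • A.map (MvPolynomial.eval x) := by
    intro c A
    ext i j
    simp
  rw [h3, h2] at h1
  refine ⟨Polynomial.C (MvPolynomial.eval x (-(-1) ^ n)) *
    ((q1_F n).divX.map (MvPolynomial.eval x)).comp (Polynomial.X ^ 2), ?_⟩
  rw [map_mul, Polynomial.aeval_C, Polynomial.aeval_comp, Polynomial.aeval_X_pow,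
    ← Algebra.smul_def]
  exact h1

/-! ### the kernel of `e + x` -/

theorem q1_mv {N : ℕ} {R : Type*} [CommRing R] (A : Matrix (Fin N) (Fin N) R) (u : Fin N → R)
    (i : Fin N) : (A.mulVec u) i = ∑ j, A i j * u j := rfl

theorem q1_row_lt (x u : Fin (2 * n) → ℂ) (i : Fin (2 * n)) (h : (i : ℕ) + 2 < n) :
    ((eD n + Matrix.diagonal x).mulVec u) i = u ⟨i + 1, by omega⟩ + x i * u i := by
  rw [Matrix.add_mulVec, Pi.add_apply, Matrix.mulVec_diagonal]
  congr 1
  rw [q1_mv, Fintype.sum_eq_single (⟨i + 1, by omega⟩ : Fin (2 * n))]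
  · rw [q1_eD, if_pos (Or.inl ⟨rfl, by simp only; omega⟩), one_mul]
  · intro j hj
    have hj' : (j : ℕ) ≠ i + 1 := fun h' => hj (Fin.ext h')
    rw [q1_eD, if_neg (by omega), if_neg (by omega), zero_mul]

theorem q1_row_two (x u : Fin (2 * n) → ℂ) (i : Fin (2 * n)) (h : (i : ℕ) + 2 = n) :
    ((eD n + Matrix.diagonal x).mulVec u) i =
      u ⟨n - 1, by omega⟩ + u ⟨n, by omega⟩ + x i * u i := by
  rw [Matrix.add_mulVec, Pi.add_apply, Matrix.mulVec_diagonal]
  congr 1
  rw [q1_mv, Fintype.sum_eq_add (⟨n - 1, by omega⟩ : Fin (2 * n)) (⟨n, by omega⟩ : Fin (2 * n))]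
  · rw [q1_eD, q1_eD, if_pos (Or.inl ⟨by simp only; omega, by simp only; omega⟩),
      if_pos (Or.inr ⟨h, rfl⟩), one_mul, one_mul]
  · intro h'
    rw [Fin.mk.injEq] at h'
    omega
  · intro j hj
    have h1 : (j : ℕ) ≠ n - 1 := fun h' => hj.1 (Fin.ext h')
    have h2 : (j : ℕ) ≠ n := fun h' => hj.2 (Fin.ext h')
    rw [q1_eD, if_neg (by omega), if_neg (by omega), zero_mul]

theorem q1_row_one (x u : Fin (2 * n) → ℂ) (i : Fin (2 * n)) (h : (i : ℕ) + 1 = n)
    (h2 : 2 ≤ n) :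
    ((eD n + Matrix.diagonal x).mulVec u) i = - u ⟨n + 1, by omega⟩ + x i * u i := by
  rw [Matrix.add_mulVec, Pi.add_apply, Matrix.mulVec_diagonal]
  congr 1
  rw [q1_mv, Fintype.sum_eq_single (⟨n + 1, by omega⟩ : Fin (2 * n))]
  · rw [q1_eD, if_neg (by simp only; omega), if_pos (Or.inr ⟨h, rfl⟩), neg_one_mul]
  · intro j hj
    have hj' : (j : ℕ) ≠ n + 1 := fun h' => hj (Fin.ext h')
    rw [q1_eD, if_neg (by omega), if_neg (by omega), zero_mul]

theorem q1_row_gt (x u : Fin (2 * n) → ℂ) (i : Fin (2 * n)) (h : n ≤ (i : ℕ))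
    (h2 : (i : ℕ) + 1 < 2 * n) :
    ((eD n + Matrix.diagonal x).mulVec u) i = - u ⟨i + 1, h2⟩ + x i * u i := by
  rw [Matrix.add_mulVec, Pi.add_apply, Matrix.mulVec_diagonal]
  congr 1
  rw [q1_mv, Fintype.sum_eq_single (⟨i + 1, h2⟩ : Fin (2 * n))]
  · rw [q1_eD, if_neg (by simp only; omega), if_pos (Or.inl ⟨rfl, h⟩), neg_one_mul]
  · intro j hj
    have hj' : (j : ℕ) ≠ i + 1 := fun h' => hj (Fin.ext h')
    rw [q1_eD, if_neg (by omega), if_neg (by omega), zero_mul]

/-- the structure of the kernel of `e + x` in `ker ε_0` -/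
theorem q1_ker (hn : 2 ≤ n) (x u : Fin (2 * n) → ℂ)
    (h : (eD n + Matrix.diagonal x).mulVec u = 0) (h0 : u ⟨0, by omega⟩ = 0) :
    (∀ i : Fin (2 * n), (i : ℕ) + 2 ≤ n → u i = 0) ∧
    u ⟨n - 1, by omega⟩ + u ⟨n, by omega⟩ = 0 ∧
    (u ⟨n - 1, by omega⟩ = 0 → u = 0) := by
  have hr : ∀ i, ((eD n + Matrix.diagonal x).mulVec u) i = 0 := fun i => congrFun h i
  have h1 : ∀ k : ℕ, ∀ hk : k + 2 ≤ n, u ⟨k, by omega⟩ = 0 := by
    intro k
    induction k with
    | zero => exact fun _ => h0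
    | succ k ih =>
      intro hk
      have h2 := hr ⟨k, by omega⟩
      rw [q1_row_lt x u ⟨k, by omega⟩ (by simp only; omega), ih (by omega), mul_zero,
        add_zero] at h2
      exact h2
  have h2 : u ⟨n - 1, by omega⟩ + u ⟨n, by omega⟩ = 0 := by
    have h3 := hr ⟨n - 2, by omega⟩
    rw [q1_row_two x u ⟨n - 2, by omega⟩ (by simp only; omega), h1 (n - 2) (by omega), mul_zero,
      add_zero] at h3
    exact h3
  refine ⟨fun i hi => h1 i hi, h2, fun h3 => ?_⟩
  have h4 : u ⟨n, by omega⟩ = 0 := by rw [h3, zero_add] at h2; exact h2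
  have h5 : ∀ k : ℕ, ∀ hk : n + k < 2 * n, u ⟨n + k, hk⟩ = 0 := by
    intro k
    induction k with
    | zero => exact fun _ => h4
    | succ k ih =>
      intro hk
      have h6 := hr ⟨n + k, by omega⟩
      rw [q1_row_gt x u ⟨n + k, by omega⟩ (by simp only; omega) (by simp only; omega),
        ih (by omega), mul_zero, add_zero, neg_eq_zero] at h6
      exact h6
  funext i
  have hi := i.2
  rw [Pi.zero_apply]
  rcases lt_trichotomy ((i : ℕ) + 1) n with h6 | h6 | h6
  · exact h1 i (by omega)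
  · have h7 : i = ⟨n - 1, by omega⟩ := Fin.ext (by simp only; omega)
    rw [h7]
    exact h3
  · have h7 : i = ⟨n + (i - n), by omega⟩ := Fin.ext (by simp only; omega)
    rw [h7]
    exact h5 _ _

/-! ### the first row of `y0` -/

theorem q1_col_zero (r : Fin (2 * n) → MvPolynomial (Fin n) ℂ) (l : Fin (2 * n))
    (h : (l : ℕ) = 0) (hn : 2 ≤ n) :
    ∑ j, r j * q1_M n j l = r l * ev (wtD l) (XP n) := by
  simp only [q1_M, Matrix.add_apply, mul_add, Finset.sum_add_distrib]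
  have h1 : ∑ j, r j * (Matrix.diagonal fun i => ev (wtD i) (XP n)) j l =
      r l * ev (wtD l) (XP n) := by
    rw [Fintype.sum_eq_single l]
    · rw [Matrix.diagonal_apply_eq]
    · intro j hj
      rw [Matrix.diagonal_apply_ne _ hj, mul_zero]
  rw [h1, Finset.sum_eq_zero, zero_add]
  intro j _
  rw [Matrix.map_apply, q1_eD, if_neg (by omega), if_neg (by omega), map_zero, mul_zero]

theorem q1_col_diag (r : Fin (2 * n) → MvPolynomial (Fin n) ℂ) (l : Fin (2 * n)) :
    ∑ j, r j * q1_M n j l =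
      (∑ j, r j * MvPolynomial.C (eD n j l)) + r l * ev (wtD l) (XP n) := by
  simp only [q1_M, Matrix.add_apply, mul_add, Finset.sum_add_distrib, Matrix.map_apply]
  congr 1
  rw [Fintype.sum_eq_single l]
  · rw [Matrix.diagonal_apply_eq]
  · intro j hj
    rw [Matrix.diagonal_apply_ne _ hj, mul_zero]

theorem q1_col_lt (r : Fin (2 * n) → MvPolynomial (Fin n) ℂ) (l : Fin (2 * n))
    (h : 0 < (l : ℕ)) (h' : (l : ℕ) < n) :
    ∑ j, r j * q1_M n j l = r ⟨l - 1, by omega⟩ + r l * ev (wtD l) (XP n) := by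
  rw [q1_col_diag]
  congr 1
  rw [Fintype.sum_eq_single (⟨l - 1, by omega⟩ : Fin (2 * n))]
  · rw [q1_eD, if_pos (Or.inl ⟨by simp only; omega, by omega⟩), map_one, mul_one]
  · intro j hj
    have hj' : (j : ℕ) ≠ l - 1 := fun h' => hj (Fin.ext h')
    rw [q1_eD, if_neg (by omega), if_neg (by omega), map_zero, mul_zero]

theorem q1_col_n (hn : 2 ≤ n) (r : Fin (2 * n) → MvPolynomial (Fin n) ℂ) (l : Fin (2 * n))
    (h : (l : ℕ) = n) :
    ∑ j, r j * q1_M n j l = r ⟨n - 2, by omega⟩ + r l * ev (wtD l) (XP n) := by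
  rw [q1_col_diag]
  congr 1
  rw [Fintype.sum_eq_single (⟨n - 2, by omega⟩ : Fin (2 * n))]
  · rw [q1_eD, if_pos (Or.inr ⟨by simp only; omega, h⟩), map_one, mul_one]
  · intro j hj
    have hj' : (j : ℕ) ≠ n - 2 := fun h' => hj (Fin.ext h')
    rw [q1_eD, if_neg (by omega), if_neg (by omega), map_zero, mul_zero]

theorem q1_col_n1 (hn : 2 ≤ n) (r : Fin (2 * n) → MvPolynomial (Fin n) ℂ) (l : Fin (2 * n))
    (h : (l : ℕ) = n + 1) :
    ∑ j, r j * q1_M n j l =
      -(r ⟨n - 1, by omega⟩ + r ⟨n, by omega⟩) + r l * ev (wtD l) (XP n) := by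
  rw [q1_col_diag]
  congr 1
  rw [Fintype.sum_eq_add (⟨n - 1, by omega⟩ : Fin (2 * n)) (⟨n, by omega⟩ : Fin (2 * n))]
  · rw [q1_eD, q1_eD, if_neg (by simp only; omega),
      if_pos (Or.inr ⟨by simp only; omega, h⟩), if_neg (by simp only; omega),
      if_pos (Or.inl ⟨by simp only; omega, by simp only; omega⟩), map_neg, map_one]
    ring
  · intro h'
    rw [Fin.mk.injEq] at h'
    omega
  · intro j hj
    have h1 : (j : ℕ) ≠ n - 1 := fun h' => hj.1 (Fin.ext h')
    have h2 : (j : ℕ) ≠ n := fun h' => hj.2 (Fin.ext h')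
    rw [q1_eD, if_neg (by omega), if_neg (by omega), map_zero, mul_zero]

theorem q1_col_gt (r : Fin (2 * n) → MvPolynomial (Fin n) ℂ) (l : Fin (2 * n))
    (h : n + 1 < (l : ℕ)) :
    ∑ j, r j * q1_M n j l = - r ⟨l - 1, by omega⟩ + r l * ev (wtD l) (XP n) := by
  rw [q1_col_diag]
  congr 1
  rw [Fintype.sum_eq_single (⟨l - 1, by omega⟩ : Fin (2 * n))]
  · rw [q1_eD, if_neg (by simp only; omega),
      if_pos (Or.inl ⟨by simp only; omega, by simp only; omega⟩), map_neg, map_one]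
    ring
  · intro j hj
    have hj' : (j : ℕ) ≠ l - 1 := fun h' => hj (Fin.ext h')
    rw [q1_eD, if_neg (by omega), if_neg (by omega), map_zero, mul_zero]

theorem q1_ev_lo (l : Fin (2 * n)) (h : (l : ℕ) < n) :
    ev (wtD l) (XP n) = MvPolynomial.X ⟨l, h⟩ := by
  have h1 := ev_wt_lo (⟨l, h⟩ : Fin n) (XP n)
  exact h1

theorem q1_ev_ne (l : Fin (2 * n)) : ev (wtD l) (XP n) ≠ 0 := by
  rcases idx_cases l with ⟨i, rfl⟩ | ⟨i, rfl⟩
  · rw [ev_wt_lo]
    exact MvPolynomial.X_ne_zero i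
  · rw [ev_wt_rev, ev_wt_lo]
    exact neg_ne_zero.2 (MvPolynomial.X_ne_zero i)

theorem q1_first (hn : 2 ≤ n) (r : Fin (2 * n) → MvPolynomial (Fin n) ℂ)
    (h : ∀ l : Fin (2 * n), ∑ j, r j * q1_M n j l =
      if (l : ℕ) = 0 then (∏ k, MvPolynomial.X k : MvPolynomial (Fin n) ℂ) else 0) :
    r ⟨n - 1, by omega⟩ = (-1) ^ (n - 1) ∧ r ⟨n, by omega⟩ = - (-1) ^ (n - 1) ∧
      ∀ l : Fin (2 * n), n < (l : ℕ) → r l = 0 := by
  have h1 : ∀ k : ℕ, ∀ hk : k < n, r ⟨k, by omega⟩ *
      (∏ m ∈ Finset.univ.filter (fun m : Fin n => (m : ℕ) ≤ k), MvPolynomial.X m) =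
      (-1) ^ k * ∏ k, MvPolynomial.X k := by
    intro k
    induction k with
    | zero =>
      intro hk
      have h2 := h ⟨0, by omega⟩
      rw [q1_col_zero r ⟨0, by omega⟩ rfl hn, if_pos rfl, q1_ev_lo _ hk] at h2
      have h3 : Finset.univ.filter (fun m : Fin n => (m : ℕ) ≤ 0) = {⟨0, hk⟩} := by
        ext m
        simp only [Finset.mem_filter, Finset.mem_univ, true_and, Finset.mem_singleton, Fin.ext_iff]
        omega
      rw [h3, Finset.prod_singleton, pow_zero, one_mul]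
      exact h2
    | succ k ih =>
      intro hk
      have h2 := h ⟨k + 1, by omega⟩
      rw [q1_col_lt r ⟨k + 1, by omega⟩ (by simp only; omega) hk, if_neg (by simp only; omega),
        q1_ev_lo _ hk] at h2
      have h3 : Finset.univ.filter (fun m : Fin n => (m : ℕ) ≤ k + 1) =
          insert ⟨k + 1, hk⟩ (Finset.univ.filter (fun m : Fin n => (m : ℕ) ≤ k)) := by
        ext m
        simp only [Finset.mem_filter, Finset.mem_univ, true_and, Finset.mem_insert, Fin.ext_iff]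
        omega
      have h4 := ih (by omega)
      rw [h3, Finset.prod_insert (by simp), pow_succ]
      have h5 : r ⟨k + 1 - 1, by omega⟩ = r ⟨k, by omega⟩ := rfl
      simp only at h2
      rw [h5] at h2
      linear_combination (∏ m ∈ Finset.univ.filter (fun m : Fin n => (m : ℕ) ≤ k),
        MvPolynomial.X m) * h2 - h4
  have hp0 := q1_prodX_ne n
  have h2 : r ⟨n - 1, by omega⟩ = (-1) ^ (n - 1) := by
    have h3 := h1 (n - 1) (by omega)
    have h4 : Finset.univ.filter (fun m : Fin n => (m : ℕ) ≤ n - 1) = Finset.univ := by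
      ext m
      have := m.2
      simp only [Finset.mem_filter, Finset.mem_univ, true_and, iff_true]
      omega
    rw [h4] at h3
    exact mul_right_cancel₀ hp0 h3
  have h3 : r ⟨n, by omega⟩ = - (-1) ^ (n - 1) := by
    have h4 := h ⟨n, by omega⟩
    rw [q1_col_n hn r ⟨n, by omega⟩ rfl, if_neg (by simp only; omega)] at h4
    have h5 := h ⟨n - 1, by omega⟩
    rw [q1_col_lt r ⟨n - 1, by omega⟩ (by simp only; omega) (by simp only; omega),
      if_neg (by simp only; omega), h2, q1_ev_lo _ (by simp only; omega)] at h5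
    have h6 : ev (wtD (⟨n, by omega⟩ : Fin (2 * n))) (XP n) =
        - MvPolynomial.X ⟨n - 1, by omega⟩ := by
      have h7 : (⟨n, by omega⟩ : Fin (2 * n)) = Fin.rev (lo ⟨n - 1, by omega⟩) := by
        apply Fin.ext
        rw [Fin.val_rev]
        show n = 2 * n - ((n - 1) + 1)
        omega
      rw [h7, ev_wt_rev, ev_wt_lo]
    rw [h6] at h4
    have h8 : r ⟨n - 1 - 1, by omega⟩ = r ⟨n - 2, by omega⟩ := by
      congr 1
    simp only at h5
    rw [h8] at h5
    have h9 : (MvPolynomial.X ⟨n - 1, by omega⟩ : MvPolynomial (Fin n) ℂ) ≠ 0 :=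
      MvPolynomial.X_ne_zero _
    apply mul_right_cancel₀ h9
    linear_combination h5 - h4
  refine ⟨h2, h3, ?_⟩
  have h4 : ∀ k : ℕ, ∀ hk : n + 1 + k < 2 * n, r ⟨n + 1 + k, hk⟩ = 0 := by
    intro k
    induction k with
    | zero =>
      intro hk
      have h5 := h ⟨n + 1, by omega⟩
      rw [q1_col_n1 hn r ⟨n + 1, by omega⟩ rfl, if_neg (by simp only; omega), h2, h3,
        add_neg_cancel, neg_zero, zero_add] at h5
      exact (mul_eq_zero.1 h5).resolve_right (q1_ev_ne _)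
    | succ k ih =>
      intro hk
      have h5 := h ⟨n + 1 + (k + 1), hk⟩
      rw [q1_col_gt r ⟨n + 1 + (k + 1), hk⟩ (by simp only; omega),
        if_neg (by simp only; omega)] at h5
      have h6 : r ⟨n + 1 + (k + 1) - 1, by omega⟩ = 0 := ih (by omega)
      simp only at h5
      rw [h6, neg_zero, zero_add] at h5
      exact (mul_eq_zero.1 h5).resolve_right (q1_ev_ne _)
  intro l hl
  have hl2 := l.2
  have h5 : l = ⟨n + 1 + (l - (n + 1)), by omega⟩ := Fin.ext (by simp only; omega)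
  rw [h5]
  exact h4 _ _

/-- the first row of `y0 = sd px * yy * px` at a point -/
theorem q1_y0 (hn : 2 ≤ n) (x : Fin n → ℂ) (u : Fin (2 * n) → ℂ) :
    (∀ i : Fin (2 * n), (i : ℕ) + 2 ≤ n → u i = 0) →
    u ⟨n - 1, by omega⟩ + u ⟨n, by omega⟩ = 0 →
    ((sd ((DD n).pC x) * yyC n x * (DD n).pC x).mulVec u) ⟨0, by omega⟩ =
      2 * (-1) ^ (n - 1) * u ⟨n - 1, by omega⟩ := by
  intro hu1 hu2
  set Y0 := sd (pxD n) * yy n * pxD n with hY0
  have h1 : Y0 * q1_M n = (∏ k, MvPolynomial.X k : MvPolynomial (Fin n) ℂ) • 1 := by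
    have h2 : pxD n * q1_M n = sxD n * pxD n := px_conj0 hn
    rw [hY0, Matrix.mul_assoc, h2, Matrix.mul_assoc, ← Matrix.mul_assoc (yy n), yy_sx hn,
      smul_mul_assoc, Matrix.one_mul, mul_smul_comm, px_sd hn]
  have h2 := q1_first hn (fun j => Y0 ⟨0, by omega⟩ j) (fun l => by
    have h3 := congrFun (congrFun h1 ⟨0, by omega⟩) l
    rw [Matrix.mul_apply] at h3
    rw [h3, Matrix.smul_apply, Matrix.one_apply, smul_eq_mul]
    by_cases hl : (l : ℕ) = 0
    · rw [if_pos hl, if_pos (Fin.ext hl.symm), mul_one]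
    · rw [if_neg hl, if_neg (fun h' => hl (by rw [← h'])), mul_zero])
  have h3 : sd ((DD n).pC x) * yyC n x * (DD n).pC x = Y0.map (MvPolynomial.eval x) := by
    rw [hY0, Matrix.map_mul, Matrix.map_mul]
    rfl
  rw [h3]
  rw [q1_mv, Fintype.sum_eq_add (⟨n - 1, by omega⟩ : Fin (2 * n)) (⟨n, by omega⟩ : Fin (2 * n))]
  · rw [Matrix.map_apply, Matrix.map_apply, h2.1, h2.2.1]
    have h4 : u ⟨n, by omega⟩ = - u ⟨n - 1, by omega⟩ := eq_neg_of_add_eq_zero_right hu2
    rw [h4, map_neg, map_pow, map_neg, map_one]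
    ring
  · intro h'
    rw [Fin.mk.injEq] at h'
    omega
  · intro j hj
    have e1 : (j : ℕ) ≠ n - 1 := fun h' => hj.1 (Fin.ext h')
    have e2 : (j : ℕ) ≠ n := fun h' => hj.2 (Fin.ext h')
    by_cases e3 : (j : ℕ) + 2 ≤ n
    · rw [hu1 j e3, mul_zero]
    · rw [Matrix.map_apply, h2.2.2 j (by omega), map_zero, zero_mul]

/-- No nonzero subspace of `ker ε_0` (`ε_0` the first coordinate) is invariant under `s` and `𝓎`.
It would contain a common eigenvector `v`, `s v = z v`, `v_0 = 0`.  Transport to `e + x` by `pC x`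
(first coordinates are preserved; `y0 = pC⁻¹ 𝓎 pC`).  If `z ≠ 0`: `eD_eigen`.  If `z = 0`: the rows of
`(e + x) v = 0` give `v_i = 0` for `i ≤ n-2`, `v_n = -v_{n-1}`, `v_{n+1} = x_{n-1} v_{n-1}`,
`v_{i+1} = d_i v_i` for `i ≥ n+1`, so `v` is a multiple `t` of a vector with `v_{n-1} = 1`; the first
coordinate of `y0 v` is `t (y0_{0,n-1} - y0_{0,n}) + ... = 2 t (-1)^{n-1} ≠ 0` (see `exists_yy` for the
explicit `y0`; its entries `(0, j)`, `j ≥ n+1` vanish), but `y0 v` is a multiple of `v`: contradiction.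

(The explicit `y0` is not available from the statement of `exists_yy`.  Alternative argument for
`z = 0`, using only `y0 (e + x) = (e + x) y0 = ∏ x` as identities of polynomials in `x`: the first
row `r = (y0_{0,j})_j` satisfies `r (e + X) = (∏ X) ε_0`, which determines it over the fraction
field: `r_0 X_0 = ∏ X`, `r_{j} + r_{j+1} X_{j+1} = 0` for `j + 1 ≤ n-1`, `r_{n-2} - r_n X_{n-1} = 0`,
`- r_{n-1} - r_n - r_{n+1} X_{n-2} = 0`, `- r_{j} - r_{j+1} X_{2n-2-j} = 0` for `j ≥ n+1`.  So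
`r_{n-1} = (-1)^{n-1}`, `r_n = (-1)^n`, `r_j = 0` for `j ≥ n+1`.) -/
theorem inv_sub_zero (hn : 2 ≤ n) (x : Fin n → ℂ) (W : Submodule ℂ (Fin (2 * n) → ℂ))
    (hs : ∀ v ∈ W, ((DD n).sC x).mulVec v ∈ W) (hy : ∀ v ∈ W, (yyC n x).mulVec v ∈ W)
    (h0 : ∀ v ∈ W, v ⟨0, by omega⟩ = 0) : W = ⊥ := by
  by_contra hW
  have : Nontrivial W := Submodule.nontrivial_iff_ne_bot.2 hW
  let S : Module.End ℂ W := ((Matrix.toLin' ((DD n).sC x))).restrict (fun v hv => by
    rw [Matrix.toLin'_apply]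
    exact hs v hv)
  obtain ⟨z, hz⟩ := Module.End.exists_eigenvalue S
  obtain ⟨v, hv⟩ := hz.exists_hasEigenvector
  have hv0 : (v : Fin (2 * n) → ℂ) ≠ 0 := fun h => hv.2 (Subtype.ext h)
  have hvz : ((DD n).sC x).mulVec (v : Fin (2 * n) → ℂ) = z • (v : Fin (2 * n) → ℂ) := by
    have h1 := congrArg (fun w : W => (w : Fin (2 * n) → ℂ)) hv.apply_eq_smul
    simp only [S, LinearMap.restrict_apply, Matrix.toLin'_apply, Submodule.coe_smul] at h1
    exact h1
  by_cases hz0 : z = 0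
  · rw [hz0, zero_smul] at hvz
    set p := (DD n).pC x with hp
    have e1 : p * (eD n + Matrix.diagonal fun i => ev (wtD i) x) = (DD n).sC x * p := by
      have h1 := (ax hn).pC_conj x
      rw [e_eq hn, add_comm] at h1
      exact h1
    have e2 : sd p * p = 1 := by
      have h1 := (isG_iff _).1 ((ax hn).pC_isG x)
      exact h1.1
    have e3 : p * sd p = 1 := mul_sd e2
    set u := (sd p).mulVec (v : Fin (2 * n) → ℂ) with hu
    have e4 : p.mulVec u = (v : Fin (2 * n) → ℂ) := by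
      rw [hu, Matrix.mulVec_mulVec, e3, Matrix.one_mulVec]
    have hrow : ∀ w : Fin (2 * n) → ℂ, (p.mulVec w) ⟨0, by omega⟩ = w ⟨0, by omega⟩ := by
      intro w
      have hlow := px_low hn
      rw [q1_mv, Fintype.sum_eq_single (⟨0, by omega⟩ : Fin (2 * n))]
      · rw [hp]
        change (MvPolynomial.eval x (pxD n ⟨0, by omega⟩ ⟨0, by omega⟩)) * _ = _
        rw [hlow.2, map_one, one_mul]
      · intro j hj
        rw [hp]
        change (MvPolynomial.eval x (pxD n ⟨0, by omega⟩ j)) * _ = _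
        rw [hlow.1, map_zero, zero_mul]
        rw [Fin.lt_def]
        have : (j : ℕ) ≠ 0 := fun h => hj (Fin.ext h)
        simp only
        omega
    have e5 : u ⟨0, by omega⟩ = 0 := by
      rw [← hrow u, e4]
      exact h0 v v.2
    have e6 : (eD n + Matrix.diagonal fun i => ev (wtD i) x).mulVec u = 0 := by
      have h1 : p.mulVec ((eD n + Matrix.diagonal fun i => ev (wtD i) x).mulVec u) = 0 := by
        rw [Matrix.mulVec_mulVec, e1, ← Matrix.mulVec_mulVec, e4, hvz]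
      have h2 := congrArg (fun w => (sd p).mulVec w) h1
      simp only [Matrix.mulVec_mulVec, Matrix.mulVec_zero] at h2
      rw [← Matrix.mul_assoc, e2, Matrix.one_mul] at h2
      exact h2
    obtain ⟨k1, k2, k3⟩ := q1_ker hn _ u e6 e5
    have e7 := q1_y0 hn x u k1 k2
    have e8 : ((sd p * yyC n x * p).mulVec u) ⟨0, by omega⟩ = 0 := by
      rw [← hrow ((sd p * yyC n x * p).mulVec u), Matrix.mulVec_mulVec]
      have h1 : p * (sd p * yyC n x * p) = yyC n x * p := by
        rw [← Matrix.mul_assoc, ← Matrix.mul_assoc, e3, Matrix.one_mul]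
      rw [h1, ← Matrix.mulVec_mulVec, e4]
      exact h0 _ (hy v v.2)
    rw [e8] at e7
    have e9 : u ⟨n - 1, by omega⟩ = 0 := by
      have h1 : (2 * (-1) ^ (n - 1) : ℂ) ≠ 0 := mul_ne_zero two_ne_zero (pow_ne_zero _ (by norm_num))
      exact (mul_eq_zero.1 e7.symm).resolve_left h1
    apply hv0
    rw [← e4, k3 e9, Matrix.mulVec_zero]
  · exact hv0 (eig_unique hn x z hz0 _ 0 hvz (by simp) (by
      rw [h0 v v.2]
      rfl))

/-- **Structure of the commutant.**  The rows `ε_0 s^j` (`j < 2n`) and `ε_0 𝓎` span all rows: their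
common kernel is invariant under `s` and `𝓎` (`sC_yyC`, `yyC_sq`, Cayley-Hamilton) and contained in
`ker ε_0`.  So the first row of `h` is that of `Q(s) + β 𝓎` for some `Q`, `β`; the image of
`h - Q(s) - β 𝓎` is invariant under `s` and `𝓎` and contained in `ker ε_0`. -/
theorem comm_struct (hn : 2 ≤ n) (x : Fin n → ℂ) (h : Matrix (Fin (2 * n)) (Fin (2 * n)) ℂ)
    (hs : Commute h ((DD n).sC x)) (hy : Commute h (yyC n x)) :
    ∃ (Q : Polynomial ℂ) (β : ℂ), h = Polynomial.aeval ((DD n).sC x) Q + β • yyC n x := by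
  obtain ⟨c1, c2, _, _⟩ := sC_yyC hn x
  obtain ⟨Q2, hQ2⟩ := yyC_sq hn x
  set s := (DD n).sC x with hsdef
  set y := yyC n x with hydef
  set o : Fin (2 * n) := ⟨0, by omega⟩ with ho
  have hQv : ∀ (Q : Polynomial ℂ) (v : Fin (2 * n) → ℂ),
      (Polynomial.aeval s Q).mulVec (s.mulVec v) = (Polynomial.aeval s (Q * Polynomial.X)).mulVec v := by
    intro Q v
    rw [map_mul, Polynomial.aeval_X, Matrix.mulVec_mulVec]
  -- the common kernel
  let Kr : Submodule ℂ (Fin (2 * n) → ℂ) :=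
    { carrier := {v | (∀ Q : Polynomial ℂ, ((Polynomial.aeval s Q).mulVec v) o = 0) ∧
        (y.mulVec v) o = 0}
      add_mem' := by
        rintro v w ⟨hv1, hv2⟩ ⟨hw1, hw2⟩
        refine ⟨fun Q => ?_, ?_⟩
        · rw [Matrix.mulVec_add, Pi.add_apply, hv1, hw1, add_zero]
        · rw [Matrix.mulVec_add, Pi.add_apply, hv2, hw2, add_zero]
      zero_mem' := ⟨fun Q => by rw [Matrix.mulVec_zero]; rfl, by rw [Matrix.mulVec_zero]; rfl⟩
      smul_mem' := by
        rintro c v ⟨hv1, hv2⟩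
        refine ⟨fun Q => ?_, ?_⟩
        · rw [Matrix.mulVec_smul, Pi.smul_apply, hv1, smul_zero]
        · rw [Matrix.mulVec_smul, Pi.smul_apply, hv2, smul_zero] }
  have hKr0 : ∀ v ∈ Kr, v o = 0 := by
    intro v hv
    have h1 := hv.1 1
    rw [map_one, Matrix.one_mulVec] at h1
    exact h1
  have hKr : Kr = ⊥ := by
    refine inv_sub_zero hn x Kr (fun v hv => ?_) (fun v hv => ?_) hKr0
    · refine ⟨fun Q => ?_, ?_⟩
      · rw [hQv]
        exact hv.1 _
      · rw [Matrix.mulVec_mulVec, c2, Matrix.smul_mulVec, Matrix.one_mulVec, Pi.smul_apply,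
          hKr0 v hv, smul_zero]
    · refine ⟨fun Q => ?_, ?_⟩
      · rw [← Polynomial.divX_mul_X_add Q, map_add, map_mul, Polynomial.aeval_X,
          Polynomial.aeval_C, Matrix.mulVec_mulVec, add_mul, Matrix.mul_assoc, c1,
          mul_smul_comm, Matrix.mul_one, Algebra.algebraMap_eq_smul_one, smul_mul_assoc,
          Matrix.one_mul, Matrix.add_mulVec, Matrix.smul_mulVec, Matrix.smul_mulVec,
          Pi.add_apply, Pi.smul_apply, Pi.smul_apply, hv.1, hv.2, smul_zero, smul_zero, add_zero]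
      · rw [Matrix.mulVec_mulVec, hQ2]
        exact hv.1 _
  -- the rows
  let A : Submodule ℂ (Fin (2 * n) → ℂ) :=
    { carrier := {r | ∃ (Q : Polynomial ℂ) (b : ℂ), r = (Polynomial.aeval s Q + b • y) o}
      add_mem' := by
        rintro _ _ ⟨Q, b, rfl⟩ ⟨Q', b', rfl⟩
        refine ⟨Q + Q', b + b', ?_⟩
        rw [map_add, add_smul, add_add_add_comm]
        rfl
      zero_mem' := ⟨0, 0, by rw [map_zero, zero_smul, add_zero]; rfl⟩
      smul_mem' := by
        rintro c _ ⟨Q, b, rfl⟩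
        refine ⟨c • Q, c * b, ?_⟩
        rw [map_smul, mul_smul, ← smul_add]
        rfl }
  have hA : A = ⊤ := by
    by_contra hne
    obtain ⟨f, hf0, hf⟩ := Submodule.exists_le_ker_of_lt_top A (lt_top_iff_ne_top.2 hne)
    let v : Fin (2 * n) → ℂ := fun i => f (Pi.single i 1)
    have hfv : ∀ r : Fin (2 * n) → ℂ, f r = dotProduct r v := by
      intro r
      conv_lhs => rw [← Finset.univ_sum_single r]
      rw [map_sum]
      unfold dotProduct
      refine Finset.sum_congr rfl fun i _ => ?_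
      have h1 : (Pi.single i (r i) : Fin (2 * n) → ℂ) =
          r i • (Pi.single i (1 : ℂ) : Fin (2 * n) → ℂ) := by
        rw [← Pi.single_smul, smul_eq_mul, mul_one]
      rw [h1, map_smul, smul_eq_mul]
    have hv : v ∈ Kr := by
      refine ⟨fun Q => ?_, ?_⟩
      · have h1 : (Polynomial.aeval s Q) o ∈ A := ⟨Q, 0, by rw [zero_smul, add_zero]⟩
        have h2 := hf h1
        rw [LinearMap.mem_ker, hfv] at h2
        exact h2
      · have h1 : y o ∈ A := ⟨0, 1, by rw [map_zero, one_smul, zero_add]⟩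
        have h2 := hf h1
        rw [LinearMap.mem_ker, hfv] at h2
        exact h2
    rw [hKr, Submodule.mem_bot] at hv
    apply hf0
    refine LinearMap.ext fun r => ?_
    rw [hfv, hv, dotProduct_zero, LinearMap.zero_apply]
  obtain ⟨Q, b, hQb⟩ : h o ∈ A := by rw [hA]; exact Submodule.mem_top
  refine ⟨Q, b, ?_⟩
  set g := h - (Polynomial.aeval s Q + b • y) with hg
  have hsy : Commute s y := by
    rw [commute_iff_eq, c1, c2]
  have hgs : Commute g s := by
    refine hs.sub_left (Commute.add_left ?_ ?_)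
    · exact q1_comm (Commute.refl s) Q
    · exact hsy.symm.smul_left b
  have hgy : Commute g y := by
    refine hy.sub_left (Commute.add_left ?_ ?_)
    · exact q1_comm hsy Q
    · exact (Commute.refl y).smul_left b
  have hg0 : ∀ v : Fin (2 * n) → ℂ, (g.mulVec v) o = 0 := by
    intro v
    unfold Matrix.mulVec
    have h1 : g o = 0 := by
      rw [hg]
      change h o - (Polynomial.aeval s Q + b • y) o = 0
      rw [← hQb, sub_self]
    change dotProduct (g o) v = 0
    rw [h1, zero_dotProduct]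
  have hrange := inv_sub_zero hn x (LinearMap.range (Matrix.toLin' g)) (by
    rintro _ ⟨v, rfl⟩
    refine ⟨s.mulVec v, ?_⟩
    rw [Matrix.toLin'_apply, Matrix.toLin'_apply, Matrix.mulVec_mulVec, Matrix.mulVec_mulVec,
      hgs.eq]) (by
    rintro _ ⟨v, rfl⟩
    refine ⟨y.mulVec v, ?_⟩
    rw [Matrix.toLin'_apply, Matrix.toLin'_apply, Matrix.mulVec_mulVec, Matrix.mulVec_mulVec,
      hgy.eq]) (by
    rintro _ ⟨v, rfl⟩
    rw [Matrix.toLin'_apply]
    exact hg0 v)
  rw [LinearMap.range_eq_bot] at hrange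
  have h1 : g = 0 := by
    have h2 := congrArg LinearMap.toMatrix' hrange
    rw [LinearMap.toMatrix'_toLin', map_zero] at h2
    exact h2
  exact sub_eq_zero.1 h1

end Pool.Agent.MTD.TD
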