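import Pool.Agent.MTD.TV4
import Pool.Agent.MTD.TDB1

/-! # MTD : type `D`, isometries commuting with `s` (row Q2) -/

namespace Pool.Agent.MTD.TD

open Matrix
open Pool.Agent.MP_c45d35_ag (chi UpUni LowUni IsHess IsLie st Jm fm)


variable {n : ℕ}

/-- Every point with `∏ x = 0` can be moved by reflections to a point with last coordinate `0`,
without changing `sC` and `yyC` (`Ax.sC_sr`, `yy_sr`). -/
theorem exists_last_zero (hn : 2 ≤ n) (x : Fin n → ℂ) (hx : ∏ k, x k = 0) :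
    ∃ x' : Fin n → ℂ, x' ⟨n - 1, by omega⟩ = 0 ∧ (DD n).sC x' = (DD n).sC x ∧
      yyC n x' = yyC n x := by
  obtain ⟨k, -, hk⟩ := Finset.prod_eq_zero_iff.1 hx
  by_cases h : (k : ℕ) = n - 1
  · refine ⟨x, ?_, rfl, rfl⟩
    rw [← hk]
    congr 1
    exact Fin.ext h.symm
  · have hk2 := k.2
    have hlt : k < (⟨n - 1, by omega⟩ : Fin n) := by
      rw [Fin.lt_def]
      simp only
      omega
    obtain ⟨β, hβ⟩ : ∃ β : RD n, β = (⟨(k, ⟨n - 1, by omega⟩), hlt⟩, false) := ⟨_, rfl⟩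
    refine ⟨(DD n).sr β x, ?_, sx_refl' hn β x, ?_⟩
    · show x ⟨n - 1, by omega⟩ - ev (wtD (rp β) - wtD (rq β)) x *
        (((wtD (rp β) - wtD (rq β)) ⟨n - 1, by omega⟩ : ℤ) : ℂ) = 0
      rw [ev_rt, rt_apply, hβ]
      simp only [sg, Bool.false_eq_true, if_false]
      rw [if_neg (ne_of_gt hlt), if_pos trivial, hk]
      push_cast
      ring
    · have h1 := yy_sr hn β
      have h2 : ∀ p : MvPolynomial (Fin n) ℂ, MvPolynomial.eval ((DD n).sr β x) p =
          MvPolynomial.eval x (MvPolynomial.aeval ((DD n).sr β (XP n)) p) := by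
        intro p
        induction p using MvPolynomial.induction_on with
        | C a => simp
        | add p q hp hq => rw [map_add, map_add, map_add, hp, hq]
        | mul_X p i hp =>
          rw [map_mul, map_mul, map_mul, hp, MvPolynomial.aeval_X, MvPolynomial.eval_X]
          congr 1
          simp [Dat.sr, ev, XP]
      unfold yyC
      conv_rhs => rw [← h1]
      ext i j
      simp only [Matrix.map_apply]
      exact h2 _

/-! ### The kernel of the Hessenberg matrix -/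

/-- The Hessenberg matrix `em + diagonal (dx x)`. -/
noncomputable abbrev q2M (x : Fin n → ℂ) : Matrix (Fin (2 * n - 1)) (Fin (2 * n - 1)) ℂ :=
  Pool.Agent.MP_c45d35_ag.em ℂ (2 * n - 1) + Matrix.diagonal (dx x)

theorem q2_row (x : Fin n → ℂ) (v : Fin (2 * n - 1) → ℂ) (i : Fin (2 * n - 1)) :
    (q2M x).mulVec v i = dx x i * v i + if h : (i : ℕ) + 1 < 2 * n - 1 then v ⟨i + 1, h⟩ else 0 := by
  rw [q2M, Matrix.add_mulVec, Pi.add_apply, Matrix.mulVec_diagonal, add_comm]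
  congr 1
  unfold Matrix.mulVec dotProduct
  split_ifs with h
  · rw [Finset.sum_eq_single (⟨i + 1, h⟩ : Fin (2 * n - 1))]
    · show (if ((i : ℕ) + 1 : ℕ) = (i : ℕ) + 1 then (1 : ℂ) else 0) * _ = _
      rw [if_pos rfl, one_mul]
    · intro j _ hj
      show (if (j : ℕ) = (i : ℕ) + 1 then (1 : ℂ) else 0) * _ = 0
      rw [if_neg (fun h' => hj (Fin.ext h')), zero_mul]
    · intro h'
      exact absurd (Finset.mem_univ _) h'
  · refine Finset.sum_eq_zero fun j _ => ?_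
    show (if (j : ℕ) = (i : ℕ) + 1 then (1 : ℂ) else 0) * _ = 0
    have hj := j.2
    rw [if_neg (by omega), zero_mul]

theorem q2_inj (hn : 2 ≤ n) (x : Fin n → ℂ) (v : Fin (2 * n - 1) → ℂ)
    (hv : (q2M x).mulVec v = 0) (h0 : v ⟨0, by omega⟩ = 0) : v = 0 := by
  have key : ∀ m : ℕ, ∀ h : m < 2 * n - 1, v ⟨m, h⟩ = 0 := by
    intro m
    induction m with
    | zero => exact fun _ => h0
    | succ m ih =>
      intro h
      have h1 := congrFun hv ⟨m, by omega⟩
      rw [q2_row, dif_pos h, ih (by omega), mul_zero, zero_add] at h1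
      exact h1
  funext i
  exact key i i.2

theorem q2_exists (hn : 2 ≤ n) (x : Fin n → ℂ) :
    ∃ k : Fin (2 * n - 1) → ℂ, (q2M x).mulVec k = 0 ∧ k ⟨0, by omega⟩ = 1 := by
  have hdet : (q2M x).det = 0 := by
    rw [Pool.Agent.MP_c45d35_ag.BlockD.Up.det (A := q2M x)]
    · refine Finset.prod_eq_zero (Finset.mem_univ (⟨n - 1, by omega⟩ : Fin (2 * n - 1))) ?_
      show (if ((n - 1 : ℕ)) = (n - 1 : ℕ) + 1 then (1 : ℂ) else 0) + Matrix.diagonal (dx x) _ _ = 0
      rw [if_neg (by omega), Matrix.diagonal_apply_eq, zero_add]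
      unfold dx
      rw [dif_neg (by simp only; omega), dif_pos (by simp only; omega)]
    · intro i j hij
      rw [Fin.lt_def] at hij
      show (if (j : ℕ) = (i : ℕ) + 1 then (1 : ℂ) else 0) + Matrix.diagonal (dx x) _ _ = 0
      rw [if_neg (by omega), Matrix.diagonal_apply_ne _ (by rw [Ne, Fin.ext_iff]; omega), zero_add]
  obtain ⟨v, hv0, hv⟩ := Matrix.exists_mulVec_eq_zero_iff.2 hdet
  have h0 : v ⟨0, by omega⟩ ≠ 0 := fun h => hv0 (q2_inj hn x v hv h)
  refine ⟨(v ⟨0, by omega⟩)⁻¹ • v, ?_, ?_⟩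
  · rw [Matrix.mulVec_smul, hv, smul_zero]
  · rw [Pi.smul_apply, smul_eq_mul, inv_mul_cancel₀ h0]

theorem q2_span (hn : 2 ≤ n) (x : Fin n → ℂ) {k : Fin (2 * n - 1) → ℂ}
    (hk : (q2M x).mulVec k = 0) (hk0 : k ⟨0, by omega⟩ = 1) (v : Fin (2 * n - 1) → ℂ)
    (hv : (q2M x).mulVec v = 0) : v = v ⟨0, by omega⟩ • k := by
  have h := q2_inj hn x (v - v ⟨0, by omega⟩ • k) (by
    rw [Matrix.mulVec_sub, Matrix.mulVec_smul, hk, hv, smul_zero, sub_zero]) (by
    rw [Pi.sub_apply, Pi.smul_apply, hk0, smul_eq_mul, mul_one, sub_self])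
  exact sub_eq_zero.1 h

theorem q2_ka_ne (j : ℕ) : tdb3_ka ℂ n j ≠ 0 := by
  intro h
  have h1 := tdb3_ka_sq (R := ℂ) (n := n) j
  rw [h, zero_mul] at h1
  simp at h1

theorem q2_flfl (w : Fin (2 * n - 1) → ℂ) : fl (fl w) = (1 / 4 : ℂ) • w := by
  funext j
  rw [tdb3_fl_fl]
  rfl

theorem q2_fl_smul (c : ℂ) (w : Fin (2 * n - 1) → ℂ) : fl (c • w) = c • fl w := by
  funext j
  rw [tdb3_fl, Pi.smul_apply, Pi.smul_apply, tdb3_fl, smul_eq_mul, smul_eq_mul]
  ring

/-- `fl w M = 0` iff `M w = 0`. -/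
theorem q2_fl_M (x : Fin n → ℂ) (w : Fin (2 * n - 1) → ℂ) (j : Fin (2 * n - 1)) :
    (fl w ᵥ* q2M x) j = - (tdb3_ka ℂ n j * (q2M x).mulVec w (Fin.rev j)) := by
  have h := tdb3_fl_mul (q2M x) w j
  rw [tdb3_st_M0] at h
  have h2 : (fl w ᵥ* q2M x) j = ∑ l, fl w l * q2M x l j := rfl
  rw [h2, h]
  have h3 : ∑ l, (- q2M x) (Fin.rev j) l * w l = - (q2M x).mulVec w (Fin.rev j) := by
    show ((- q2M x).mulVec w) (Fin.rev j) = _
    rw [Matrix.neg_mulVec]
    rfl
  rw [h3, mul_neg]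

theorem q2_left (hn : 2 ≤ n) (x : Fin n → ℂ) {k : Fin (2 * n - 1) → ℂ}
    (hk : (q2M x).mulVec k = 0) (hk0 : k ⟨0, by omega⟩ = 1) (η : Fin (2 * n - 1) → ℂ)
    (hη : η ᵥ* q2M x = 0) : ∃ b : ℂ, η = b • fl k := by
  have h1 : (q2M x).mulVec (fl η) = 0 := by
    funext i
    have h2 := q2_fl_M x (fl η) (Fin.rev i)
    rw [q2_flfl, Matrix.smul_vecMul, hη, smul_zero, Fin.rev_rev] at h2
    have h3 : tdb3_ka ℂ n ((Fin.rev i : Fin (2 * n - 1)) : ℕ) * (q2M x).mulVec (fl η) i = 0 := by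
      have h4 : (0 : Fin (2 * n - 1) → ℂ) (Fin.rev i) = 0 := rfl
      rw [h4] at h2
      linear_combination h2
    exact (mul_eq_zero.1 h3).resolve_left (q2_ka_ne _)
  have h2 := q2_span hn x hk hk0 _ h1
  refine ⟨4 * fl η ⟨0, by omega⟩, ?_⟩
  have h3 : fl (fl η) = fl η ⟨0, by omega⟩ • fl k := by
    conv_lhs => rw [h2]
    rw [q2_fl_smul]
  rw [q2_flfl] at h3
  rw [mul_smul, ← h3, smul_smul]
  norm_num

theorem q2_left0 (x : Fin n → ℂ) {k : Fin (2 * n - 1) → ℂ}
    (hk : (q2M x).mulVec k = 0) : fl k ᵥ* q2M x = 0 := by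
  funext j
  rw [q2_fl_M, hk]
  simp


/-- Polynomials in `M` act on the kernel vector as scalars. -/
theorem q2_poly (x : Fin n → ℂ) {k : Fin (2 * n - 1) → ℂ} (hk : (q2M x).mulVec k = 0)
    (X : Matrix (Fin (2 * n - 1)) (Fin (2 * n - 1)) ℂ) (hX : Commute X (q2M x)) :
    ∃ q : ℂ, X.mulVec k = q • k ∧ (st X).mulVec k = q • k ∧ fl k ᵥ* X = q • fl k := by
  have hH : IsHess (q2M x) := by
    constructor
    · intro i j hij
      show (if (j : ℕ) = (i : ℕ) + 1 then (1 : ℂ) else 0) + Matrix.diagonal (dx x) _ _ = 1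
      rw [if_pos hij, Matrix.diagonal_apply_ne _ (by rw [Ne, Fin.ext_iff]; omega), add_zero]
    · intro i j hij
      show (if (j : ℕ) = (i : ℕ) + 1 then (1 : ℂ) else 0) + Matrix.diagonal (dx x) _ _ = 0
      rw [if_neg (by omega), Matrix.diagonal_apply_ne _ (by rw [Ne, Fin.ext_iff]; omega), add_zero]
  obtain ⟨Q, hQ⟩ := Pool.Agent.MP_c45d35_ag.hess_commute hH hX
  obtain ⟨T, hT⟩ : ∃ T, T = Polynomial.aeval (q2M x) Q.divX := ⟨_, rfl⟩
  have h1 : X = T * q2M x + Q.coeff 0 • 1 := by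
    rw [hQ, hT]
    conv_lhs => rw [← Polynomial.divX_mul_X_add Q]
    rw [map_add, map_mul, Polynomial.aeval_X, Polynomial.aeval_C, Algebra.algebraMap_eq_smul_one]
  have h2 : X = q2M x * T + Q.coeff 0 • 1 := by
    rw [hQ, hT]
    conv_lhs => rw [← Polynomial.divX_mul_X_add Q]
    rw [mul_comm Q.divX, map_add, map_mul, Polynomial.aeval_X, Polynomial.aeval_C,
      Algebra.algebraMap_eq_smul_one]
  refine ⟨Q.coeff 0, ?_, ?_, ?_⟩
  · rw [h1, Matrix.add_mulVec, ← Matrix.mulVec_mulVec, hk, Matrix.mulVec_zero, zero_add,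
      Matrix.smul_mulVec, Matrix.one_mulVec]
  · have h3 : st X = - (st T * q2M x) + Q.coeff 0 • 1 := by
      rw [h2, Pool.Agent.MP_c45d35_ag.st_add, Pool.Agent.MP_c45d35_ag.st_mul, tdb3_st_M0,
        Pool.Agent.MP_c45d35_ag.st_smul, Pool.Agent.MP_c45d35_ag.st_one, mul_neg]
    rw [h3, Matrix.add_mulVec, Matrix.neg_mulVec, ← Matrix.mulVec_mulVec, hk, Matrix.mulVec_zero,
      neg_zero, zero_add, Matrix.smul_mulVec, Matrix.one_mulVec]
  · rw [h2, Matrix.vecMul_add, ← Matrix.vecMul_vecMul, q2_left0 x hk, Matrix.zero_vecMul, zero_add,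
      Matrix.vecMul_smul, Matrix.vecMul_one]

/-! ### Block matrices -/

theorem q2_bk_mul (A A' : Matrix (Fin (2 * n - 1)) (Fin (2 * n - 1)) ℂ)
    (b c b' c' : Fin (2 * n - 1) → ℂ) (d d' : ℂ) :
    bk A b c d * bk A' b' c' d' =
      bk (A * A' + Matrix.vecMulVec b c') (A.mulVec b' + d' • b) (c ᵥ* A' + d • c')
        (c ⬝ᵥ b' + d * d') := by
  rw [tdb4_bk_mul]
  congr 1
  funext i
  rw [Pi.add_apply, Pi.smul_apply, smul_eq_mul, mul_comm d']
  rfl

theorem q2_sd (hn : 1 ≤ n) (A : Matrix (Fin (2 * n - 1)) (Fin (2 * n - 1)) ℂ)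
    (b c : Fin (2 * n - 1) → ℂ) (d : ℂ) :
    sd (cB (bk A b c d)) = cB (bk (st A) ((-8 : ℂ) • fl c) ((-(1 / 2) : ℂ) • fl b) d) := by
  rw [sd_cB hn]
  congr 2
  · funext i
    rw [Pi.smul_apply, smul_eq_mul]
    ring
  · funext i
    rw [Pi.smul_apply, smul_eq_mul]
    show -(1 / 2 * fl b i) = _
    ring

theorem q2_zero : (bk 0 0 0 0 : Matrix (IB n) (IB n) ℂ) = 0 := by
  ext p q
  rcases p with a | a <;> rcases q with b | b <;> rfl

theorem q2_cB_zero : cB (0 : Matrix (IB n) (IB n) ℂ) = 0 := by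
  have h := cB_sub (R := ℂ) (0 : Matrix (IB n) (IB n) ℂ) 0
  rwa [sub_self, sub_self] at h

/-- The determinant of the reflection. -/
theorem q2_det (hn : 1 ≤ n) : (cB (bk 1 0 0 (-1)) : Matrix (Fin (2 * n)) (Fin (2 * n)) ℂ).det = -1 := by
  have h1 : (cB (bk 1 0 0 (-1)) : Matrix (Fin (2 * n)) (Fin (2 * n)) ℂ).det =
      (bk 1 0 0 (-1) : Matrix (IB n) (IB n) ℂ).det := by
    rw [Matrix.det_eq_sign_charpoly_coeff, Matrix.det_eq_sign_charpoly_coeff, charpoly_cB hn,
      s1_card hn]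
  rw [h1]
  have h2 : (bk 1 0 0 (-1) : Matrix (IB n) (IB n) ℂ) =
      Matrix.fromBlocks 1 0 0 (Matrix.of fun _ _ : Unit => (-1 : ℂ)) := rfl
  rw [h2, Matrix.det_fromBlocks_zero₂₁, Matrix.det_one, one_mul]
  simp

/-- The structure of `y0`. -/
theorem q2_y (hn : 2 ≤ n) (x : Fin n → ℂ) {k : Fin (2 * n - 1) → ℂ}
    (hk : (q2M x).mulVec k = 0) (hk0 : k ⟨0, by omega⟩ = 1)
    (y : Matrix (Fin (2 * n)) (Fin (2 * n)) ℂ)
    (hy1 : y * cB (bk (q2M x) 0 0 0) = 0) (hy2 : cB (bk (q2M x) 0 0 0) * y = 0)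
    (hy3 : sd y = -y) :
    ∃ g : ℂ, y = cB (bk 0 ((2 * g) • k) (g • fl k) 0) := by
  have hn1 : 1 ≤ n := by omega
  obtain ⟨Y, rfl⟩ := cB_surjective hn1 y
  obtain ⟨A, b, c, d, rfl⟩ := tdb4_toBlocks Y
  rw [← cB_mul hn1, ← q2_cB_zero, ← q2_zero] at hy1 hy2
  have h1 := cB_injective hn1 hy1
  have h2 := cB_injective hn1 hy2
  rw [q2_bk_mul] at h1 h2
  obtain ⟨a1, -, a3, -⟩ := tdb4_bk_inj h1
  obtain ⟨b1, b2, -, -⟩ := tdb4_bk_inj h2
  simp only [Matrix.vecMulVec_zero, Matrix.zero_vecMulVec, add_zero, smul_zero] at a1 a3 b1 b2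
  rw [q2_sd hn1, ← tdb4_cB_neg, tdb4_bk_neg] at hy3
  obtain ⟨c1, c2, -, c4⟩ := tdb4_bk_inj (cB_injective hn1 hy3)
  have hd : d = 0 := by linear_combination c4 / 2
  obtain ⟨g, hg⟩ := q2_left hn x hk hk0 c a3
  have hb : b = (2 * g) • k := by
    funext i
    have h3 := congrFun c2 i
    rw [hg, q2_fl_smul, q2_flfl] at h3
    simp only [Pi.smul_apply, smul_eq_mul] at h3 ⊢
    linear_combination h3
  have hA : A = 0 := by
    have h3 : ∀ i j, A i j = k i * A ⟨0, by omega⟩ j := by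
      intro i j
      have h4 : (q2M x).mulVec (fun l => A l j) = 0 := by
        funext l
        exact congrFun (congrFun b1 l) j
      have h5 := congrFun (q2_span hn x hk hk0 _ h4) i
      rw [Pi.smul_apply, smul_eq_mul] at h5
      rw [h5, mul_comm]
    have h6 : (fun j => A ⟨0, by omega⟩ j) ᵥ* q2M x = 0 := by
      funext j
      exact congrFun (congrFun a1 ⟨0, by omega⟩) j
    obtain ⟨a', ha'⟩ := q2_left hn x hk hk0 _ h6
    have h7 : A = a' • Matrix.of fun i j => k i * fl k j := by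
      ext i j
      rw [h3, congrFun ha' j, Matrix.smul_apply, Matrix.of_apply, Pi.smul_apply, smul_eq_mul,
        smul_eq_mul]
      ring
    have h8 : st A = A := by
      rw [h7, Pool.Agent.MP_c45d35_ag.st_smul, tdb3_st_vec]
    rw [h8] at c1
    ext i j
    have h9 := congrFun (congrFun c1 i) j
    rw [Matrix.neg_apply] at h9
    rw [Matrix.zero_apply]
    linear_combination h9 / 2
  exact ⟨g, by rw [hA, hb, hg, hd]⟩

/-- The block elements commute. -/
theorem q2_comm (hn : 1 ≤ n) {k : Fin (2 * n - 1) → ℂ}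
    (X : Matrix (Fin (2 * n - 1)) (Fin (2 * n - 1)) ℂ) (q b g : ℂ)
    (h1 : X.mulVec k = q • k) (h2 : fl k ᵥ* X = q • fl k) :
    Commute (cB (bk X ((2 * b) • k) (b • fl k) q)) (cB (bk 0 ((2 * g) • k) (g • fl k) 0)) := by
  show _ * _ = _ * _
  rw [← cB_mul hn, ← cB_mul hn, q2_bk_mul, q2_bk_mul]
  congr 2
  · rw [Matrix.mul_zero, Matrix.zero_mul, zero_add, zero_add]
    ext i j
    simp only [Matrix.vecMulVec_apply, Pi.smul_apply, smul_eq_mul]
    ring
  · rw [Matrix.mulVec_smul, h1, Matrix.zero_mulVec, zero_smul, add_zero, zero_add, smul_smul,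
      smul_smul, mul_comm (2 * g) q]
  · rw [Matrix.vecMul_zero, Matrix.smul_vecMul, h2, zero_smul, add_zero, zero_add, smul_smul,
      smul_smul, mul_comm q g]
  · rw [smul_dotProduct, dotProduct_smul, smul_dotProduct, dotProduct_smul]
    simp only [smul_eq_mul]
    ring

theorem q2_main (hn : 2 ≤ n) (x : Fin n → ℂ) (h y : Matrix (Fin (2 * n)) (Fin (2 * n)) ℂ)
    (hh : sd h * h = 1) (hs : Commute h (cB (bk (q2M x) 0 0 0)))
    (hy1 : y * cB (bk (q2M x) 0 0 0) = 0) (hy2 : cB (bk (q2M x) 0 0 0) * y = 0)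
    (hy3 : sd y = -y) :
    Commute h y ∨ ∃ ρ : Matrix (Fin (2 * n)) (Fin (2 * n)) ℂ, sd ρ * ρ = 1 ∧ ρ.det = -1 ∧
      Commute ρ (cB (bk (q2M x) 0 0 0)) ∧ Commute (h * ρ) y := by
  have hn1 : 1 ≤ n := by omega
  obtain ⟨k, hk, hk0⟩ := q2_exists hn x
  obtain ⟨g, hg⟩ := q2_y hn x hk hk0 y hy1 hy2 hy3
  obtain ⟨Y, rfl⟩ := cB_surjective hn1 h
  obtain ⟨X, ξ, η, δ, rfl⟩ := tdb4_toBlocks Y
  have hs' := hs.eq
  rw [← cB_mul hn1, ← cB_mul hn1, q2_bk_mul, q2_bk_mul] at hs'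
  obtain ⟨a1, a2, a3, -⟩ := tdb4_bk_inj (cB_injective hn1 hs')
  simp only [Matrix.vecMulVec_zero, Matrix.zero_vecMulVec, add_zero, smul_zero, zero_smul,
    Matrix.mulVec_zero, Matrix.zero_vecMul] at a1 a2 a3
  obtain ⟨b, hb⟩ := q2_left hn x hk hk0 η a3
  have ha := q2_span hn x hk hk0 ξ a2.symm
  obtain ⟨a, ha'⟩ : ∃ a : ℂ, a = ξ ⟨0, by omega⟩ := ⟨_, rfl⟩
  rw [← ha'] at ha
  clear ha'
  obtain ⟨q, q1, q2, q3⟩ := q2_poly x hk X a1
  subst ha
  subst hb
  subst hg
  rw [q2_sd hn1, ← cB_mul hn1, ← cB_one (R := ℂ) hn1, q2_bk_mul, ← tdb3_bk_one] at hh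
  obtain ⟨b1, b2, -, b4⟩ := tdb4_bk_inj (cB_injective hn1 hh)
  obtain ⟨κ, hκ⟩ : ∃ κ : ℂ, κ = fl k ⬝ᵥ k := ⟨_, rfl⟩
  -- the equations
  have e1 : q ^ 2 - 2 * b ^ 2 * κ = 1 := by
    have h1 := congrFun (congrArg (fun Z : Matrix (Fin (2 * n - 1)) (Fin (2 * n - 1)) ℂ =>
      Z.mulVec k) b1) ⟨0, by omega⟩
    simp only [Matrix.add_mulVec, ← Matrix.mulVec_mulVec, q1, Matrix.mulVec_smul, q2,
      Matrix.one_mulVec, Pi.add_apply, Pi.smul_apply, smul_eq_mul, hk0, Matrix.vecMulVec_mulVec,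
      q2_fl_smul, q2_flfl, smul_dotProduct, ← hκ] at h1
    simp at h1
    linear_combination h1
  have e2 : a * q = 2 * b * δ := by
    have h1 := congrFun b2 ⟨0, by omega⟩
    rw [Matrix.mulVec_smul, q2, q2_fl_smul, q2_flfl] at h1
    simp only [Pi.add_apply, Pi.smul_apply, smul_eq_mul, hk0, Pi.zero_apply] at h1
    linear_combination h1
  have e3 : δ ^ 2 - 1 / 2 * a ^ 2 * κ = 1 := by
    rw [q2_fl_smul, smul_dotProduct, smul_dotProduct, dotProduct_smul, ← hκ] at b4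
    simp only [smul_eq_mul] at b4
    linear_combination b4
  have e4 : a ^ 2 = 4 * b ^ 2 := by
    linear_combination (-a ^ 2) * e1 + (a * q + 2 * b * δ) * e2 + 4 * b ^ 2 * e3
  have e5 : (a = 2 * b ∧ δ = q) ∨ (a = -(2 * b) ∧ δ = -q) := by
    have h1 : (a - 2 * b) * (a + 2 * b) = 0 := by linear_combination e4
    by_cases hb0 : b = 0
    · subst hb0
      have ha0 : a = 0 := by
        have : a ^ 2 = 0 := by rw [e4]; ring
        exact pow_eq_zero_iff (two_ne_zero) |>.1 this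
      subst ha0
      have h2 : (δ - q) * (δ + q) = 0 := by linear_combination e3 - e1
      rcases mul_eq_zero.1 h2 with h3 | h3
      · exact Or.inl ⟨by ring, by linear_combination h3⟩
      · exact Or.inr ⟨by ring, by linear_combination h3⟩
    · rcases mul_eq_zero.1 h1 with h3 | h3
      · have h4 : a = 2 * b := by linear_combination h3
        refine Or.inl ⟨h4, ?_⟩
        rw [h4] at e2
        have h5 : (2 * b) * (δ - q) = 0 := by linear_combination -e2
        have h6 := (mul_eq_zero.1 h5).resolve_left (mul_ne_zero two_ne_zero hb0)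
        linear_combination h6
      · have h4 : a = -(2 * b) := by linear_combination h3
        refine Or.inr ⟨h4, ?_⟩
        rw [h4] at e2
        have h5 : (2 * b) * (δ + q) = 0 := by linear_combination -e2
        have h6 := (mul_eq_zero.1 h5).resolve_left (mul_ne_zero two_ne_zero hb0)
        linear_combination h6
  rcases e5 with ⟨h1, h2⟩ | ⟨h1, h2⟩
  · left
    rw [h1, h2]
    exact q2_comm hn1 X q b g q1 q3
  · right
    refine ⟨cB (bk 1 0 0 (-1)), ?_, q2_det hn1, ?_, ?_⟩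
    · rw [q2_sd hn1, ← cB_mul hn1, q2_bk_mul, ← cB_one (R := ℂ) hn1, ← tdb3_bk_one]
      have hf : fl (0 : Fin (2 * n - 1) → ℂ) = 0 := by
        funext j
        rw [tdb3_fl]
        simp
      rw [hf, Pool.Agent.MP_c45d35_ag.st_one]
      simp
    · show _ * _ = _ * _
      rw [← cB_mul hn1, ← cB_mul hn1, q2_bk_mul, q2_bk_mul]
      simp
    · rw [← cB_mul hn1, q2_bk_mul]
      have h3 : (bk (X * 1 + Matrix.vecMulVec (a • k) 0) (X.mulVec 0 + (-1 : ℂ) • (a • k))
          ((b • fl k) ᵥ* 1 + δ • 0) ((b • fl k) ⬝ᵥ 0 + δ * -1) : Matrix (IB n) (IB n) ℂ) =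
          bk X ((2 * b) • k) (b • fl k) q := by
        rw [h1, h2]
        congr 1
        · simp
        · simp [smul_smul]
        · simp
        · simp
      rw [h3]
      exact q2_comm hn1 X q b g q1 q3

/-- If `∏ x ≠ 0` then `s = sC x` is invertible and `𝓎 = (∏ x) s⁻¹` (`sx_yy`), so `h` commutes with `𝓎`.
Otherwise, by `exists_last_zero`, let `x_{n-1} = 0`, and transport by `pC x`.  Then `e + x = cB (bk M 0 0 0)` with `M = em + diagonal (dx x)` (`Dx_cB`,
`eD_cB`), a Hessenberg matrix with `st M = -M`, whose kernel is spanned by a vector `k` with `k_0 = 1`.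
Let `h` be an isometry (`sd h * h = 1`) commuting with `e + x`; `h = cB (bk X ξ η δ)` with `X M = M X`,
so `X = Q(M)` (`hess_commute`), `M ξ = 0`, `η M = 0`, so `ξ = a k`, `η = b fl k` (note
`fl k` spans the left kernel).  With `q = Q(0)`, `κ = fl k ⬝ k`: `sd_cB` and `sd h * h = 1` give
(apply to `k`) `q² - 2 b² κ = 1`, `a q = 2 b δ`, `δ² - ½ a² κ = 1`, whence
`a² (1 + 2 b² κ) = 4 b² (1 + ½ a² κ)`, `a² = 4 b²`; so `a = 2 ε b`, `δ = ε q` with `ε = ± 1`.
The matrix `y0` (`= pC⁻¹ 𝓎 pC`) satisfies `(e + x) y0 = y0 (e + x) = 0`, `sd y0 = - y0`, so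
`y0 = β₀ cB (bk 0 (2 k) (fl k) 0)` (the block `A` is a multiple of `k ⊗ fl k`, which is `st`-symmetric,
so it vanishes).  If `ε = 1` then `h = Q(e+x) + b cB (bk 0 (2k) (fl k) 0)` commutes with `y0`; if
`ε = -1` then `h * ρ` does, where `ρ = cB (bk 1 0 0 (-1))` (the transposition of `n-1` and `n`), which
is an isometry of determinant `-1` commuting with `e + x`. -/
theorem isom_comm (hn : 2 ≤ n) (x : Fin n → ℂ) (h : Matrix (Fin (2 * n)) (Fin (2 * n)) ℂ)
    (hh : sd h * h = 1) (hs : Commute h ((DD n).sC x)) :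
    Commute h (yyC n x) ∨ ∃ ρ : Matrix (Fin (2 * n)) (Fin (2 * n)) ℂ, sd ρ * ρ = 1 ∧ ρ.det = -1 ∧
      Commute ρ ((DD n).sC x) ∧ Commute (h * ρ) (yyC n x) := by
  have hn1 : 1 ≤ n := by omega
  -- the identities for `𝓎`
  have hy : ∀ x : Fin n → ℂ, (DD n).sC x * yyC n x = (∏ k, x k) • 1 ∧
      yyC n x * (DD n).sC x = (∏ k, x k) • 1 ∧ sd (yyC n x) = - yyC n x := by
    intro x
    have h0 : ((∏ k, MvPolynomial.X k : MvPolynomial (Fin n) ℂ) •
        (1 : Matrix (Fin (2 * n)) (Fin (2 * n)) (MvPolynomial (Fin n) ℂ))).map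
        (MvPolynomial.eval x) = (∏ k, x k) • 1 := by
      ext i j
      rw [Matrix.map_apply, Matrix.smul_apply, Matrix.smul_apply, smul_eq_mul, map_mul, map_prod,
        smul_eq_mul, Matrix.one_apply, Matrix.one_apply]
      congr 1
      · exact Finset.prod_congr rfl fun k _ => MvPolynomial.eval_X _
      · split_ifs <;> simp
    refine ⟨?_, ?_, ?_⟩
    · have h1 := congrArg (fun Z : Matrix (Fin (2 * n)) (Fin (2 * n)) (MvPolynomial (Fin n) ℂ) =>
        Z.map (MvPolynomial.eval x)) (sx_yy hn)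
      rw [h0, Matrix.map_mul] at h1
      exact h1
    · have h1 := congrArg (fun Z : Matrix (Fin (2 * n)) (Fin (2 * n)) (MvPolynomial (Fin n) ℂ) =>
        Z.map (MvPolynomial.eval x)) (yy_sx hn)
      rw [h0, Matrix.map_mul] at h1
      exact h1
    · have h1 := congrArg (fun Z : Matrix (Fin (2 * n)) (Fin (2 * n)) (MvPolynomial (Fin n) ℂ) =>
        Z.map (MvPolynomial.eval x)) (sd_yy hn)
      rw [← sd_map] at h1
      show sd ((yy n).map (MvPolynomial.eval x)) = _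
      rw [h1]
      ext i j
      simp [yyC]
  by_cases hx : ∏ k, x k = 0
  · obtain ⟨x', h1, h2, h3⟩ := exists_last_zero hn x hx
    rw [← h2] at hs
    rw [← h2, ← h3]
    clear h2 h3
    obtain ⟨y1, y2, y3⟩ := hy x'
    have hx' : ∏ k, x' k = 0 := Finset.prod_eq_zero (Finset.mem_univ _) h1
    rw [hx', zero_smul] at y1 y2
    -- the conjugator
    obtain ⟨P, hP⟩ : ∃ P, P = (DD n).pC x' := ⟨_, rfl⟩
    have hP1 : sd P * P = 1 := by
      rw [hP]
      exact ((isG_iff _).1 ((ax hn).pC_isG x')).1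
    have hP2 : P * sd P = 1 := mul_sd hP1
    have hPdet : (sd P).det * P.det = 1 := by rw [← Matrix.det_mul, hP1, Matrix.det_one]
    have hA : (DD n).Dx x' + (DD n).e = cB (bk (q2M x') 0 0 0) := by
      rw [e_eq hn, ← eD_cB hn]
      have h4 : (DD n).Dx x' = cB (bk (Matrix.diagonal (dx x')) 0 0 0) := by
        have h5 := Dx_cB hn x'
        have h6 : (DD n).Dx x' = Matrix.diagonal fun i => ev (wtD i) x' := rfl
        rw [h6, h5]
        congr 2
        · funext i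
          split_ifs with h7
          · have h8 : (⟨(i : ℕ), by omega⟩ : Fin n) = ⟨n - 1, by omega⟩ :=
              Fin.ext (by simp only; omega)
            rw [h8, h1, mul_zero]
            rfl
          · rfl
        · funext i
          split_ifs with h7
          · have h8 : (⟨(i : ℕ), by omega⟩ : Fin n) = ⟨n - 1, by omega⟩ :=
              Fin.ext (by simp only; omega)
            rw [h8, h1, mul_zero]
            rfl
          · rfl
      rw [h4, ← cB_add]
      congr 1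
      have h9 : ∀ A A' : Matrix (Fin (2 * n - 1)) (Fin (2 * n - 1)) ℂ,
          (bk A 0 0 0 + bk A' 0 0 0 : Matrix (IB n) (IB n) ℂ) = bk (A + A') 0 0 0 := by
        intro A A'
        ext p q
        rcases p with a | a <;> rcases q with b | b <;> simp [bk]
      rw [h9, add_comm]
    obtain ⟨A, hA'⟩ : ∃ A, A = cB (bk (q2M x') 0 0 0) := ⟨_, rfl⟩
    have hc : (DD n).sC x' = P * A * sd P := by
      have h4 := (ax hn).pC_conj x'
      rw [hA, ← hP, ← hA'] at h4
      rw [h4, Matrix.mul_assoc, hP2, Matrix.mul_one]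
    have hc' : sd P * (DD n).sC x' * P = A := by
      rw [hc]
      calc sd P * (P * A * sd P) * P = (sd P * P) * A * (sd P * P) := by
            simp only [Matrix.mul_assoc]
        _ = A := by rw [hP1, Matrix.one_mul, Matrix.mul_one]
    -- conjugation
    have cj : ∀ Z W : Matrix (Fin (2 * n)) (Fin (2 * n)) ℂ,
        (sd P * Z * P) * (sd P * W * P) = sd P * (Z * W) * P := by
      intro Z W
      calc (sd P * Z * P) * (sd P * W * P) = sd P * Z * (P * sd P) * W * P := by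
            simp only [Matrix.mul_assoc]
        _ = _ := by rw [hP2, Matrix.mul_one, Matrix.mul_assoc (sd P) Z W]
    have cj' : ∀ Z W : Matrix (Fin (2 * n)) (Fin (2 * n)) ℂ,
        (P * Z * sd P) * (P * W * sd P) = P * (Z * W) * sd P := by
      intro Z W
      calc (P * Z * sd P) * (P * W * sd P) = P * Z * (sd P * P) * W * sd P := by
            simp only [Matrix.mul_assoc]
        _ = _ := by rw [hP1, Matrix.mul_one, Matrix.mul_assoc P Z W]
    have cc : ∀ Z : Matrix (Fin (2 * n)) (Fin (2 * n)) ℂ, P * (sd P * Z * P) * sd P = Z := by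
      intro Z
      calc P * (sd P * Z * P) * sd P = (P * sd P) * Z * (P * sd P) := by
            simp only [Matrix.mul_assoc]
        _ = Z := by rw [hP2, Matrix.one_mul, Matrix.mul_one]
    have hm := q2_main hn x' (sd P * h * P) (sd P * yyC n x' * P) (by
        rw [sd_mul, sd_mul, sd_sd]
        rw [← Matrix.mul_assoc (sd P) (sd h) P, cj, hh, Matrix.mul_one, hP1])
      (by
        rw [← hA', ← hc']
        show _ * _ = _ * _
        rw [cj, cj, hs.eq])
      (by rw [← hA', ← hc', cj, y2, Matrix.mul_zero, Matrix.zero_mul])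
      (by rw [← hA', ← hc', cj, y1, Matrix.mul_zero, Matrix.zero_mul])
      (by
        rw [sd_mul, sd_mul, sd_sd, y3, ← Matrix.mul_assoc, Matrix.mul_neg, Matrix.neg_mul])
    rw [← hA'] at hm
    rcases hm with hm | ⟨ρ, r1, r2, r3, r4⟩
    · left
      have h4 := hm.eq
      rw [cj, cj] at h4
      show _ * _ = _ * _
      rw [← cc (h * yyC n x'), h4, cc]
    · right
      refine ⟨P * ρ * sd P, ?_, ?_, ?_, ?_⟩
      · rw [sd_mul, sd_mul, sd_sd, ← Matrix.mul_assoc P (sd ρ) (sd P), cj', r1, Matrix.mul_one, hP2]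
      · rw [Matrix.det_mul, Matrix.det_mul, r2]
        linear_combination (-1 : ℂ) * hPdet
      · rw [hc]
        show _ * _ = _ * _
        rw [cj', cj', r3.eq]
      · show _ * _ = _ * _
        have h5 : h * (P * ρ * sd P) = P * ((sd P * h * P) * ρ) * sd P := by
          rw [← cj', cc]
        rw [h5]
        conv_lhs => rw [← cc (yyC n x')]
        conv_rhs => rw [← cc (yyC n x')]
        rw [cj', cj', r4.eq]
  · left
    obtain ⟨y1, y2, -⟩ := hy x
    have h1 : (∏ k, x k) • (h * yyC n x) = (∏ k, x k) • (yyC n x * h) := by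
      calc (∏ k, x k) • (h * yyC n x) = ((∏ k, x k) • 1) * (h * yyC n x) := by
            rw [Matrix.smul_mul, Matrix.one_mul]
        _ = yyC n x * ((DD n).sC x * h) * yyC n x := by
            rw [← y2]
            simp only [Matrix.mul_assoc]
        _ = yyC n x * h * ((DD n).sC x * yyC n x) := by
            rw [← hs.eq]
            simp only [Matrix.mul_assoc]
        _ = _ := by rw [y1, Matrix.mul_smul, Matrix.mul_one]
    exact smul_right_injective _ hx h1

end Pool.Agent.MTD.TD
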