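import Pool.Agent.MTD.TQ0
import Pool.Agent.MTD.TQ1
import Pool.Agent.MTD.TQ2

/-! # MTD : type `D`, deformation of centralizers (row Q3) -/

namespace Pool.Agent.MTD.TD

open Matrix Filter Topology
open Pool.Agent.MP_c45d35_ag (chi UpUni LowUni)

variable {n : ℕ}

/-- a matrix commuting with a diagonal matrix -/
theorem q3_comm_diag {N : ℕ} (g : Matrix (Fin N) (Fin N) ℂ) (d : Fin N → ℂ)
    (h : Commute g (Matrix.diagonal d)) (i j : Fin N) (hij : g i j ≠ 0) : d i = d j := by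
  have h1 := congrFun (congrFun h.eq i) j
  rw [Matrix.mul_diagonal, Matrix.diagonal_mul, mul_comm] at h1
  exact (mul_right_cancel₀ hij h1).symm

/-- the determinant of a diagonal isometry -/
theorem q3_prod {n : ℕ} (d : Fin (2 * n) → ℂ) (h : ∀ i, d (Fin.rev i) * d i = 1) :
    ∏ i, d i = 1 := by
  refine Finset.prod_involution (fun i _ => Fin.rev i) ?_ ?_ ?_ ?_
  · intro i _
    rw [mul_comm]
    exact h i
  · intro i _ _ he
    have h1 := congrArg Fin.val he
    rw [Fin.val_rev] at h1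
    have := i.2
    omega
  · intro i _
    exact Finset.mem_univ _
  · intro i _
    exact Fin.rev_rev i

theorem q3_ev_lb (x : Fin n → ℂ) (i : Fin (2 * n)) : ev (wtD i) x = yl x (lb i) := by
  have h := ev_ix x (lb i)
  rw [ix_lb] at h
  exact h

/-- At a regular point, an isometry commuting with `s` and `𝓎` has determinant one: conjugating with
`qC x` it commutes with `Dx x` and with `diagonal (pl x (lb i))` (`yy_q`), so it is diagonal
(`lab_sep`), with entries `d_i d_{rev i} = 1`. -/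
theorem det_one_of_comm (hn : 2 ≤ n) {x : Fin n → ℂ} (hx : (DD n).Reg x)
    (h : Matrix (Fin (2 * n)) (Fin (2 * n)) ℂ) (hh : sd h * h = 1)
    (hs : Commute h ((DD n).sC x)) (hy : Commute h (yyC n x)) : h.det = 1 := by
  have A := ax hn
  obtain ⟨q, hq⟩ : ∃ q, q = (DD n).qC x := ⟨_, rfl⟩
  have hqG := (isG_iff _).1 (A.qC_isG x)
  have hqs := A.qC_conj hx
  have hqy := yy_q hn hx
  rw [← hq] at hqG hqs hqy
  have hq1 : sd q * q = 1 := hqG.1
  have hq2 : q * sd q = 1 := mul_eq_one_comm.1 hq1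
  obtain ⟨g, hg⟩ : ∃ g, g = sd q * h * q := ⟨_, rfl⟩
  have key : ∀ S T : Matrix (Fin (2 * n)) (Fin (2 * n)) ℂ, Commute h S → S * q = q * T →
      Commute g T := by
    intro S T hS hST
    have hST' : sd q * S = T * sd q := by
      calc sd q * S = sd q * S * (q * sd q) := by rw [hq2, Matrix.mul_one]
        _ = sd q * (S * q) * sd q := by simp only [Matrix.mul_assoc]
        _ = (sd q * q) * T * sd q := by rw [hST]; simp only [Matrix.mul_assoc]
        _ = T * sd q := by rw [hq1, Matrix.one_mul]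
    change g * T = T * g
    rw [hg]
    calc sd q * h * q * T = sd q * h * (q * T) := by simp only [Matrix.mul_assoc]
      _ = sd q * (h * S) * q := by rw [← hST]; simp only [Matrix.mul_assoc]
      _ = (sd q * S) * h * q := by rw [hS.eq]; simp only [Matrix.mul_assoc]
      _ = T * (sd q * h * q) := by rw [hST']; simp only [Matrix.mul_assoc]
  have h1 : Commute g (Matrix.diagonal fun i => ev (wtD i) x) := key _ _ hs hqs.symm
  have h2 : Commute g (Matrix.diagonal fun i => pl x (lb i)) := key _ _ hy hqy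
  have hdiag : ∀ i j, i ≠ j → g i j = 0 := by
    intro i j hij
    by_contra hne
    apply hij
    have h3 := q3_comm_diag g _ h1 i j hne
    have h4 := q3_comm_diag g _ h2 i j hne
    simp only [q3_ev_lb] at h3
    have h5 := lab_sep hx h3 h4
    rw [← ix_lb i, ← ix_lb j, h5]
  have hgd : g = Matrix.diagonal fun i => g i i := by
    ext i j
    by_cases hij : i = j
    · subst hij
      rw [Matrix.diagonal_apply_eq]
    · rw [Matrix.diagonal_apply_ne _ hij, hdiag i j hij]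
  have hgg : sd g * g = 1 := by
    rw [hg, sd_mul, sd_mul, sd_sd]
    calc sd q * (sd h * q) * (sd q * h * q) = sd q * sd h * (q * sd q) * h * q := by
          simp only [Matrix.mul_assoc]
      _ = sd q * (sd h * h) * q := by rw [hq2, Matrix.mul_one]; simp only [Matrix.mul_assoc]
      _ = 1 := by rw [hh, Matrix.mul_one, hq1]
  have hd : ∀ i, g (Fin.rev i) (Fin.rev i) * g i i = 1 := by
    intro i
    have h3 := congrFun (congrFun hgg i) i
    rw [hgd, sd_diagonal, Matrix.diagonal_mul_diagonal, Matrix.diagonal_apply_eq,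
      Matrix.one_apply_eq] at h3
    simpa using h3
  have hgdet : g.det = 1 := by
    rw [hgd, Matrix.det_diagonal]
    exact q3_prod (fun i => g i i) hd
  have h6 : g.det = h.det := by
    rw [hg, Matrix.det_mul, Matrix.det_mul, sd_det, hqG.2, one_mul, mul_one]
  rw [← h6, hgdet]

theorem q3_aeval_sd {N : ℕ} (X : Matrix (Fin N) (Fin N) ℂ) (Q : Polynomial ℂ) :
    sd (Polynomial.aeval X Q) = Polynomial.aeval (sd X) Q := by
  induction Q using Polynomial.induction_on' with
  | add p q hp hq => rw [map_add, map_add, sd_add, hp, hq]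
  | monomial k a =>
    rw [Polynomial.aeval_monomial, Polynomial.aeval_monomial, ← Algebra.smul_def,
      ← Algebra.smul_def, sd_smul, sd_pow]

theorem q3_aeval_comm {N : ℕ} {X Y : Matrix (Fin N) (Fin N) ℂ} (h : Commute X Y)
    (Q : Polynomial ℂ) : Commute (Polynomial.aeval X Q) Y := by
  induction Q using Polynomial.induction_on' with
  | add p q hp hq =>
    rw [map_add]
    exact hp.add_left hq
  | monomial k a =>
    rw [Polynomial.aeval_monomial, ← Algebra.smul_def]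
    exact (h.pow_left k).smul_left a

theorem q3_cont_map (M : Matrix (Fin (2 * n)) (Fin (2 * n)) (MvPolynomial (Fin n) ℂ))
    (x0 v : Fin n → ℂ) :
    Continuous fun t : ℂ => M.map (MvPolynomial.eval (x0 + t • v)) := by
  refine continuous_matrix fun i j => ?_
  exact (MvPolynomial.continuous_eval (M i j)).comp (by fun_prop)

theorem q3_cont_sd {N : ℕ} {F : ℂ → Matrix (Fin N) (Fin N) ℂ} (hF : Continuous F) :
    Continuous fun t => sd (F t) := by
  refine continuous_matrix fun i j => ?_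
  exact hF.matrix_elem _ _

theorem q3_inv_tendsto (N : ℕ) :
    Tendsto (fun A : Matrix (Fin N) (Fin N) ℂ => A⁻¹) (𝓝 1) (𝓝 1) := by
  have h1 : (fun A : Matrix (Fin N) (Fin N) ℂ => A⁻¹) = fun A => (A.det)⁻¹ • A.adjugate := by
    funext A
    rw [Matrix.inv_def, Ring.inverse_eq_inv']
  rw [h1]
  have h2 : Tendsto (fun A : Matrix (Fin N) (Fin N) ℂ => A.det) (𝓝 1) (𝓝 1) := by
    have := (continuous_id.matrix_det : Continuous fun A : Matrix (Fin N) (Fin N) ℂ => A.det)
    have h3 : Tendsto (fun A : Matrix (Fin N) (Fin N) ℂ => A.det) (𝓝 1)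
        (𝓝 (1 : Matrix (Fin N) (Fin N) ℂ).det) := this.tendsto 1
    rwa [Matrix.det_one] at h3
  have h4 : Tendsto (fun A : Matrix (Fin N) (Fin N) ℂ => A.adjugate) (𝓝 1) (𝓝 1) := by
    have := (continuous_id.matrix_adjugate : Continuous
      fun A : Matrix (Fin N) (Fin N) ℂ => A.adjugate)
    have h3 : Tendsto (fun A : Matrix (Fin N) (Fin N) ℂ => A.adjugate) (𝓝 1)
        (𝓝 (1 : Matrix (Fin N) (Fin N) ℂ).adjugate) := this.tendsto 1
    rwa [Matrix.adjugate_one] at h3
  have h5 := (h2.inv₀ one_ne_zero).smul h4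
  rwa [inv_one, one_smul] at h5

/-- **Deformation.**  Let `h` be an isometry commuting with `s(x0)` and `𝓎(x0)`, `v` regular,
`x_t = x0 + t v`.  By `comm_struct` `h = Q(s) + β 𝓎`; put `H0(t) = Q(s(x_t)) + β 𝓎(x_t)`,
`E(t) = sd (H0 t) * H0 t → 1` (`t → 0`), which commutes with `s(x_t)`, `𝓎(x_t)`, `H0(t)` and satisfies
`sd E = E`; `H(t) = H0(t) * (Rt (E t))⁻¹` with `Rt` from `exists_local_sqrt`.  Then
`sd (H t) * H t = 1`, and `det (H t) = 1` by `det_one_of_comm` for small `t ≠ 0`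
(`eventually_reg`). -/
theorem exists_curve (hn : 2 ≤ n) (x0 v : Fin n → ℂ) (hv : (DD n).Reg v)
    (h : Matrix (Fin (2 * n)) (Fin (2 * n)) ℂ) (hh : sd h * h = 1)
    (hs : Commute h ((DD n).sC x0)) (hy : Commute h (yyC n x0)) :
    ∃ H : ℂ → Matrix (Fin (2 * n)) (Fin (2 * n)) ℂ, Tendsto H (𝓝[≠] 0) (𝓝 h) ∧
      ∀ᶠ t in 𝓝[≠] (0 : ℂ), (DD n).IsG (H t) ∧ Commute (H t) ((DD n).sC (x0 + t • v)) := by
  obtain ⟨Q, β, hQ⟩ := comm_struct hn x0 h hs hy
  obtain ⟨Rt, hRt1, hRt2⟩ := exists_local_sqrt (2 * n)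
  obtain ⟨s, hsdef⟩ : ∃ s : ℂ → Matrix (Fin (2 * n)) (Fin (2 * n)) ℂ,
      ∀ t, s t = (DD n).sC (x0 + t • v) := ⟨_, fun t => rfl⟩
  obtain ⟨y, hydef⟩ : ∃ y : ℂ → Matrix (Fin (2 * n)) (Fin (2 * n)) ℂ,
      ∀ t, y t = yyC n (x0 + t • v) := ⟨_, fun t => rfl⟩
  obtain ⟨H0, hH0⟩ : ∃ H0 : ℂ → Matrix (Fin (2 * n)) (Fin (2 * n)) ℂ,
      ∀ t, H0 t = Polynomial.aeval (s t) Q + β • y t := ⟨_, fun t => rfl⟩
  have hx00 : x0 + (0 : ℂ) • v = x0 := by rw [zero_smul, add_zero]
  have hH00 : H0 0 = h := by rw [hH0, hsdef, hydef, hx00, ← hQ]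
  have hscont : Continuous s := by
    have : s = fun t => (sxD n).map (MvPolynomial.eval (x0 + t • v)) := funext hsdef
    rw [this]
    exact q3_cont_map _ x0 v
  have hycont : Continuous y := by
    have : y = fun t => (yy n).map (MvPolynomial.eval (x0 + t • v)) := funext hydef
    rw [this]
    exact q3_cont_map _ x0 v
  have hH0cont : Continuous H0 := by
    have : H0 = fun t => Polynomial.aeval (s t) Q + β • y t := funext hH0
    rw [this]
    exact ((Polynomial.continuous_aeval Q).comp hscont).add (hycont.const_smul β)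
  obtain ⟨E, hE⟩ : ∃ E : ℂ → Matrix (Fin (2 * n)) (Fin (2 * n)) ℂ,
      ∀ t, E t = sd (H0 t) * H0 t := ⟨_, fun t => rfl⟩
  have hEcont : Continuous E := by
    have : E = fun t => sd (H0 t) * H0 t := funext hE
    rw [this]
    exact (q3_cont_sd hH0cont).matrix_mul hH0cont
  have hE0 : E 0 = 1 := by rw [hE, hH00, hh]
  have hE1 : Tendsto E (𝓝 0) (𝓝 1) := by
    have := hEcont.tendsto 0
    rwa [hE0] at this
  have hsy : ∀ t, Commute (s t) (y t) := by
    intro t
    obtain ⟨h1, h2, _, _⟩ := sC_yyC hn (x0 + t • v)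
    rw [hsdef, hydef]
    change _ * _ = _ * _
    rw [h1, h2]
  have hsds : ∀ t, sd (s t) = - s t := by
    intro t
    rw [hsdef]
    exact (sC_yyC hn (x0 + t • v)).2.2.2
  have hsdy : ∀ t, sd (y t) = - y t := by
    intro t
    rw [hydef]
    exact (sC_yyC hn (x0 + t • v)).2.2.1
  have hH0s : ∀ t, Commute (H0 t) (s t) := by
    intro t
    rw [hH0]
    exact (q3_aeval_comm (Commute.refl _) Q).add_left ((hsy t).symm.smul_left β)
  have hH0y : ∀ t, Commute (H0 t) (y t) := by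
    intro t
    rw [hH0]
    exact (q3_aeval_comm (hsy t) Q).add_left ((Commute.refl _).smul_left β)
  have hsdH0 : ∀ t, sd (H0 t) = Polynomial.aeval (-s t) Q + β • -y t := by
    intro t
    rw [hH0, sd_add, sd_smul, q3_aeval_sd, hsds, hsdy]
  have hsdH0s : ∀ t, Commute (sd (H0 t)) (s t) := by
    intro t
    rw [hsdH0]
    exact (q3_aeval_comm (Commute.refl (s t)).neg_left Q).add_left
      ((hsy t).symm.neg_left.smul_left β)
  have hsdH0y : ∀ t, Commute (sd (H0 t)) (y t) := by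
    intro t
    rw [hsdH0]
    exact (q3_aeval_comm (hsy t).neg_left Q).add_left ((Commute.refl (y t)).neg_left.smul_left β)
  have hEs : ∀ t, Commute (E t) (s t) := fun t => by
    rw [hE]
    exact (hsdH0s t).mul_left (hH0s t)
  have hEy : ∀ t, Commute (E t) (y t) := fun t => by
    rw [hE]
    exact (hsdH0y t).mul_left (hH0y t)
  have hsdE : ∀ t, sd (E t) = E t := by
    intro t
    rw [hE, sd_mul, sd_sd]
  refine ⟨fun t => H0 t * (Rt (E t))⁻¹, ?_, ?_⟩
  · have h1 : Tendsto (fun t => (Rt (E t))⁻¹) (𝓝[≠] 0) (𝓝 1) :=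
      ((q3_inv_tendsto (2 * n)).comp (hRt1.comp hE1)).mono_left nhdsWithin_le_nhds
    have h2 : Tendsto H0 (𝓝[≠] 0) (𝓝 h) := by
      have := hH0cont.tendsto 0
      rw [hH00] at this
      exact this.mono_left nhdsWithin_le_nhds
    have h3 := h2.mul h1
    rwa [mul_one] at h3
  · have h1 : ∀ᶠ t in 𝓝[≠] (0 : ℂ), Rt (E t) * Rt (E t) = E t ∧ IsUnit (Rt (E t)).det ∧
        (∀ A : Matrix (Fin (2 * n)) (Fin (2 * n)) ℂ, Commute A (E t) → Commute A (Rt (E t))) ∧
        (sd (E t) = E t → sd (Rt (E t)) = Rt (E t)) :=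
      (hE1.eventually hRt2).filter_mono nhdsWithin_le_nhds
    filter_upwards [h1, eventually_reg (D := DD n) x0 v hv] with t ht hreg
    obtain ⟨hr1, hr2, hr3, hr4⟩ := ht
    have hr5 := hr4 (hsdE t)
    generalize hr : Rt (E t) = r at hr1 hr2 hr3 hr5
    have hri1 : r * r⁻¹ = 1 := Matrix.mul_nonsing_inv r hr2
    have hri2 : r⁻¹ * r = 1 := Matrix.nonsing_inv_mul r hr2
    have hsdr : sd r⁻¹ = r⁻¹ := by
      have h2 : sd r⁻¹ * r = 1 := by
        have h3 := congrArg sd hri1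
        rw [sd_mul, hr5, sd_one] at h3
        exact h3
      calc sd r⁻¹ = sd r⁻¹ * (r * r⁻¹) := by rw [hri1, Matrix.mul_one]
        _ = r⁻¹ := by rw [← Matrix.mul_assoc, h2, Matrix.one_mul]
    have hcomm : ∀ B, Commute B (E t) → Commute B r⁻¹ := by
      intro B hB
      have h2 : B * r = r * B := (hr3 B hB).eq
      change B * r⁻¹ = r⁻¹ * B
      calc B * r⁻¹ = (r⁻¹ * r) * B * r⁻¹ := by rw [hri2, Matrix.one_mul]
        _ = r⁻¹ * (r * B) * r⁻¹ := by simp only [Matrix.mul_assoc]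
        _ = r⁻¹ * B * (r * r⁻¹) := by rw [← h2]; simp only [Matrix.mul_assoc]
        _ = r⁻¹ * B := by rw [hri1, Matrix.mul_one]
    have hHs : Commute (H0 t * r⁻¹) ((DD n).sC (x0 + t • v)) := by
      rw [← hsdef]
      exact (hH0s t).mul_left (hcomm _ (hEs t).symm).symm
    have hHy : Commute (H0 t * r⁻¹) (yyC n (x0 + t • v)) := by
      rw [← hydef]
      exact (hH0y t).mul_left (hcomm _ (hEy t).symm).symm
    have hHH : sd (H0 t * r⁻¹) * (H0 t * r⁻¹) = 1 := by
      rw [sd_mul, hsdr]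
      calc r⁻¹ * sd (H0 t) * (H0 t * r⁻¹) = r⁻¹ * (sd (H0 t) * H0 t) * r⁻¹ := by
            simp only [Matrix.mul_assoc]
        _ = (r⁻¹ * r) * (r * r⁻¹) := by rw [← hE, ← hr1]; simp only [Matrix.mul_assoc]
        _ = 1 := by rw [hri1, hri2, Matrix.mul_one]
    exact ⟨(isG_iff _).2 ⟨hHH, det_one_of_comm hn hreg _ hHH hHs hHy⟩, hHs⟩

/-- An element of `SO_{2n}` commuting with `s(x0)` commutes with `𝓎(x0)`: otherwise `h ρ` does
(`isom_comm`), and `h ρ` is a limit of matrices of determinant one (`exists_curve`), but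
`det (h ρ) = -1`. -/
theorem comm_yy (hn : 2 ≤ n) (x0 : Fin n → ℂ) (h : Matrix (Fin (2 * n)) (Fin (2 * n)) ℂ)
    (hG : (DD n).IsG h) (hs : Commute h ((DD n).sC x0)) : Commute h (yyC n x0) := by
  obtain ⟨hh, hdet⟩ := (isG_iff h).1 hG
  rcases isom_comm hn x0 h hh hs with h1 | ⟨ρ, hρ, hρdet, hρs, hρy⟩
  · exact h1
  · exfalso
    obtain ⟨v, hv⟩ := exists_reg (ax hn)
    have h2 : sd (h * ρ) * (h * ρ) = 1 := by
      rw [sd_mul]
      calc sd ρ * sd h * (h * ρ) = sd ρ * (sd h * h) * ρ := by simp only [Matrix.mul_assoc]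
        _ = 1 := by rw [hh, Matrix.mul_one, hρ]
    obtain ⟨H, hH, hHG⟩ := exists_curve hn x0 v hv (h * ρ) h2 (hs.mul_left hρs) hρy
    have h3 : Tendsto (fun t => (H t).det) (𝓝[≠] 0) (𝓝 (h * ρ).det) := by
      have hc : Continuous fun A : Matrix (Fin (2 * n)) (Fin (2 * n)) ℂ => A.det :=
        continuous_id.matrix_det
      exact (hc.tendsto _).comp hH
    have h4 : Tendsto (fun t => (H t).det) (𝓝[≠] 0) (𝓝 1) := by
      refine tendsto_const_nhds.congr' ?_
      filter_upwards [hHG] with t ht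
      exact ((isG_iff _).1 ht.1).2.symm
    have h5 := tendsto_nhds_unique h3 h4
    rw [Matrix.det_mul, hdet, hρdet] at h5
    norm_num at h5

/-- **Density.** -/
theorem exists_curveG (hn : 2 ≤ n) (x0 v : Fin n → ℂ) (hv : (DD n).Reg v)
    (h : Matrix (Fin (2 * n)) (Fin (2 * n)) ℂ) (hG : (DD n).IsG h)
    (hs : Commute h ((DD n).sC x0)) :
    ∃ H : ℂ → Matrix (Fin (2 * n)) (Fin (2 * n)) ℂ, Tendsto H (𝓝[≠] 0) (𝓝 h) ∧
      ∀ᶠ t in 𝓝[≠] (0 : ℂ), (DD n).IsG (H t) ∧ Commute (H t) ((DD n).sC (x0 + t • v)) :=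
  exists_curve hn x0 v hv h ((isG_iff h).1 hG).1 hs (comm_yy hn x0 h hG hs)

end Pool.Agent.MTD.TD
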