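import Pool.Agent.MTD.TD3

/-! # MTD : type `D`, labels of the weights (row V1) -/

namespace Pool.Agent.MTD.TD

open Matrix
open Pool.Agent.MP_c45d35_ag (chi UpUni LowUni)

/-- Labels of the weights `± ε_i` (`true` is `+`). -/
abbrev Lab (n : ℕ) := Fin n × Bool

variable {n : ℕ}

/-- The generic point. -/
noncomputable abbrev XP (n : ℕ) : Fin n → MvPolynomial (Fin n) ℂ := MvPolynomial.X

/-- The opposite label. -/
def ng (a : Lab n) : Lab n := (a.1, !a.2)

/-- The value `± x_i`. -/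
def yl {R : Type*} [CommRing R] (x : Fin n → R) (a : Lab n) : R := if a.2 then x a.1 else - x a.1

/-- The value `± ∏_{l≠i} x_l`. -/
def pl {R : Type*} [CommRing R] (x : Fin n → R) (a : Lab n) : R :=
  if a.2 then ∏ l ∈ Finset.univ.erase a.1, x l else - ∏ l ∈ Finset.univ.erase a.1, x l

/-- The sign. -/
def sgl (a : Lab n) : ℤ := if a.2 then 1 else -1

/-- The index of the weight. -/
def ix (a : Lab n) : Fin (2 * n) := if a.2 then lo a.1 else Fin.rev (lo a.1)

/-- The label of an index. -/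
def lb (i : Fin (2 * n)) : Lab n :=
  if h : (i : ℕ) < n then (⟨i, h⟩, true) else (⟨2 * n - 1 - i, by have := i.2; omega⟩, false)

/-- The action of the reflection `β` on the labels. -/
def sL (β : RD n) (a : Lab n) : Lab n :=
  if a.1 = β.1.1.1 then (β.1.1.2, xor a.2 β.2)
  else if a.1 = β.1.1.2 then (β.1.1.1, xor a.2 β.2) else a

theorem ng_ng (a : Lab n) : ng (ng a) = a := by
  obtain ⟨i, s⟩ := a
  simp [ng]

theorem lb_ix (a : Lab n) : lb (ix a) = a := by
  obtain ⟨i, s⟩ := a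
  have hi := i.2
  cases s
  · have h1 : ix ((i, false) : Lab n) = Fin.rev (lo i) := rfl
    have h2 : ((Fin.rev (lo i) : Fin (2 * n)) : ℕ) = 2 * n - ((i : ℕ) + 1) := by
      rw [Fin.val_rev]; rfl
    rw [h1]
    unfold lb
    rw [dif_neg (by rw [h2]; omega)]
    refine Prod.ext (Fin.ext ?_) rfl
    show 2 * n - 1 - ((Fin.rev (lo i) : Fin (2 * n)) : ℕ) = (i : ℕ)
    rw [h2]
    omega
  · have h1 : ix ((i, true) : Lab n) = lo i := rfl
    rw [h1]
    unfold lb
    have h2 : ((lo i : Fin (2 * n)) : ℕ) = i := rfl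
    rw [dif_pos (by rw [h2]; exact hi)]
    exact Prod.ext (Fin.ext rfl) rfl

theorem ix_lb (i : Fin (2 * n)) : ix (lb i) = i := by
  have hi := i.2
  unfold lb
  by_cases h : (i : ℕ) < n
  · rw [dif_pos h]
    exact Fin.ext rfl
  · rw [dif_neg h]
    apply Fin.ext
    show ((Fin.rev (lo (⟨2 * n - 1 - i, _⟩ : Fin n)) : Fin (2 * n)) : ℕ) = i
    rw [Fin.val_rev]
    show 2 * n - ((2 * n - 1 - (i : ℕ)) + 1) = i
    omega

theorem ix_ng (a : Lab n) : ix (ng a) = Fin.rev (ix a) := by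
  obtain ⟨i, s⟩ := a
  cases s
  · show lo i = Fin.rev (Fin.rev (lo i))
    rw [Fin.rev_rev]
  · rfl

theorem ev_ix {R : Type*} [CommRing R] (x : Fin n → R) (a : Lab n) :
    ev (wtD (ix a)) x = yl x a := by
  obtain ⟨i, s⟩ := a
  cases s
  · show ev (wtD (Fin.rev (lo i))) x = - x i
    rw [ev_wt_rev, ev_wt_lo]
  · exact ev_wt_lo i x

theorem yl_ng {R : Type*} [CommRing R] (x : Fin n → R) (a : Lab n) : yl x (ng a) = - yl x a := by
  obtain ⟨i, s⟩ := a
  cases s
  · show x i = - (- x i)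
    rw [neg_neg]
  · rfl

theorem pl_ng {R : Type*} [CommRing R] (x : Fin n → R) (a : Lab n) : pl x (ng a) = - pl x a := by
  obtain ⟨i, s⟩ := a
  cases s
  · show (∏ l ∈ Finset.univ.erase i, x l) = - (- ∏ l ∈ Finset.univ.erase i, x l)
    rw [neg_neg]
  · rfl

theorem yl_mul_pl {R : Type*} [CommRing R] (x : Fin n → R) (a : Lab n) :
    yl x a * pl x a = ∏ k, x k := by
  obtain ⟨i, s⟩ := a
  have h := Finset.mul_prod_erase Finset.univ x (Finset.mem_univ i)
  cases s
  · show (- x i) * (- ∏ l ∈ Finset.univ.erase i, x l) = _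
    rw [neg_mul_neg, h]
  · exact h

theorem yl_map {R S : Type*} [CommRing R] [CommRing S] (f : R →+* S) (x : Fin n → R) (a : Lab n) :
    yl (fun k => f (x k)) a = f (yl x a) := by
  obtain ⟨i, s⟩ := a
  cases s
  · exact (map_neg f (x i)).symm
  · rfl

theorem pl_map {R S : Type*} [CommRing R] [CommRing S] (f : R →+* S) (x : Fin n → R) (a : Lab n) :
    pl (fun k => f (x k)) a = f (pl x a) := by
  obtain ⟨i, s⟩ := a
  cases s
  · show (- ∏ l ∈ Finset.univ.erase i, f (x l)) = f (- ∏ l ∈ Finset.univ.erase i, x l)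
    rw [map_neg, map_prod]
  · show (∏ l ∈ Finset.univ.erase i, f (x l)) = f (∏ l ∈ Finset.univ.erase i, x l)
    rw [map_prod]

theorem sL_fst1 (β : RD n) (s : Bool) : sL β (β.1.1.1, s) = (β.1.1.2, xor s β.2) := by
  unfold sL
  rw [if_pos rfl]

theorem sL_fst2 (β : RD n) (s : Bool) : sL β (β.1.1.2, s) = (β.1.1.1, xor s β.2) := by
  have h := β.1.2
  unfold sL
  rw [if_neg (show ¬ (β.1.1.2 = β.1.1.1) from ne_of_gt h), if_pos rfl]

theorem sL_fst3 (β : RD n) {k : Fin n} (h1 : k ≠ β.1.1.1) (h2 : k ≠ β.1.1.2) (s : Bool) :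
    sL β (k, s) = (k, s) := by
  unfold sL
  rw [if_neg h1, if_neg h2]

theorem sL_sL (β : RD n) (a : Lab n) : sL β (sL β a) = a := by
  obtain ⟨k, s⟩ := a
  by_cases h1 : k = β.1.1.1
  · subst h1
    rw [sL_fst1, sL_fst2]
    simp
  · by_cases h2 : k = β.1.1.2
    · subst h2
      rw [sL_fst2, sL_fst1]
      simp
    · rw [sL_fst3 β h1 h2, sL_fst3 β h1 h2]

theorem sL_ng (β : RD n) (a : Lab n) : sL β (ng a) = ng (sL β a) := by
  obtain ⟨k, s⟩ := a
  show sL β (k, !s) = _
  by_cases h1 : k = β.1.1.1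
  · subst h1
    rw [sL_fst1, sL_fst1]
    simp [ng]
  · by_cases h2 : k = β.1.1.2
    · subst h2
      rw [sL_fst2, sL_fst2]
      simp [ng]
    · rw [sL_fst3 β h1 h2, sL_fst3 β h1 h2]
      rfl

theorem sL_fst (β : RD n) {a c : Lab n} (h : a.1 ≠ c.1) : (sL β a).1 ≠ (sL β c).1 := by
  obtain ⟨k, s⟩ := a
  obtain ⟨l, t⟩ := c
  replace h : k ≠ l := h
  have hb : β.1.1.1 ≠ β.1.1.2 := ne_of_lt β.1.2
  by_cases h1 : k = β.1.1.1
  · subst h1
    rw [sL_fst1]
    by_cases h2 : l = β.1.1.2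
    · subst h2
      rw [sL_fst2]
      exact hb.symm
    · rw [sL_fst3 β h.symm h2]
      exact fun h' => h2 h'.symm
  · by_cases h2 : k = β.1.1.2
    · subst h2
      rw [sL_fst2]
      by_cases h3 : l = β.1.1.1
      · subst h3
        rw [sL_fst1]
        exact hb
      · rw [sL_fst3 β h3 h.symm]
        exact fun h' => h3 h'.symm
    · rw [sL_fst3 β h1 h2]
      by_cases h3 : l = β.1.1.1
      · subst h3
        rw [sL_fst1]
        exact h2
      · by_cases h4 : l = β.1.1.2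
        · subst h4
          rw [sL_fst2]
          exact h1
        · rw [sL_fst3 β h3 h4]
          exact h

theorem sr_val {R : Type*} [CommRing R] (β : RD n) (x : Fin n → R) (k : Fin n) :
    (DD n).sr β x k = x k - (x β.1.1.1 + (sg β : R) * x β.1.1.2) *
      ((if k = β.1.1.1 then 1 else 0) + (sg β : R) * (if k = β.1.1.2 then 1 else 0)) := by
  show x k - ev (wtD (rp β) - wtD (rq β)) x * (((wtD (rp β) - wtD (rq β)) k : ℤ) : R) = _
  rw [ev_rt, rt_apply]
  push_cast
  rfl

theorem sg_sq' {R : Type*} [CommRing R] (β : RD n) : (sg β : R) * (sg β : R) = 1 := by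
  have h := congrArg (fun z : ℤ => (z : R)) (sg_sq β)
  simp only [Int.cast_mul, Int.cast_one] at h
  exact h

theorem sr_1 {R : Type*} [CommRing R] (β : RD n) (x : Fin n → R) :
    (DD n).sr β x β.1.1.1 = - (sg β : R) * x β.1.1.2 := by
  have hb : β.1.1.1 ≠ β.1.1.2 := ne_of_lt β.1.2
  rw [sr_val, if_pos rfl, if_neg hb]
  ring

theorem sr_2 {R : Type*} [CommRing R] (β : RD n) (x : Fin n → R) :
    (DD n).sr β x β.1.1.2 = - (sg β : R) * x β.1.1.1 := by
  have hb : β.1.1.1 ≠ β.1.1.2 := ne_of_lt β.1.2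
  rw [sr_val, if_pos rfl, if_neg hb.symm]
  have := sg_sq' (R := R) β
  linear_combination (-x β.1.1.2) * this

theorem sr_3 {R : Type*} [CommRing R] (β : RD n) (x : Fin n → R) {k : Fin n} (h1 : k ≠ β.1.1.1)
    (h2 : k ≠ β.1.1.2) : (DD n).sr β x k = x k := by
  rw [sr_val, if_neg h1, if_neg h2]
  ring

/-- `yl` with the sign as a factor. -/
theorem yl_eq {R : Type*} [CommRing R] (x : Fin n → R) (k : Fin n) (s : Bool) :
    yl x (k, s) = (if s then 1 else -1) * x k := by
  cases s <;> simp [yl]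

theorem pl_eq {R : Type*} [CommRing R] (x : Fin n → R) (k : Fin n) (s : Bool) :
    pl x (k, s) = (if s then 1 else -1) * ∏ l ∈ Finset.univ.erase k, x l := by
  cases s <;> simp [pl]

theorem sgn_xor {R : Type*} [CommRing R] (β : RD n) (s : Bool) :
    (if xor s β.2 then (1 : R) else -1) = - (sg β : R) * (if s then 1 else -1) := by
  unfold sg
  cases s <;> cases β.2 <;> simp

/-- `(s_β x)_a = x_{s_β a}` -/
theorem yl_sr {R : Type*} [CommRing R] (β : RD n) (x : Fin n → R) (a : Lab n) :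
    yl ((DD n).sr β x) a = yl x (sL β a) := by
  obtain ⟨k, s⟩ := a
  by_cases h1 : k = β.1.1.1
  · subst h1
    rw [sL_fst1, yl_eq, yl_eq, sgn_xor, sr_1]
    ring
  · by_cases h2 : k = β.1.1.2
    · subst h2
      rw [sL_fst2, yl_eq, yl_eq, sgn_xor, sr_2]
      ring
    · rw [sL_fst3 β h1 h2, yl_eq, yl_eq, sr_3 β x h1 h2]

theorem pl_sr {R : Type*} [CommRing R] (β : RD n) (x : Fin n → R) (a : Lab n) :
    pl ((DD n).sr β x) a = pl x (sL β a) := by
  obtain ⟨k, s⟩ := a
  have hb : β.1.1.1 ≠ β.1.1.2 := ne_of_lt β.1.2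
  by_cases h1 : k = β.1.1.1
  · subst h1
    rw [sL_fst1, pl_eq, pl_eq, sgn_xor]
    have m2 : β.1.1.2 ∈ (Finset.univ : Finset (Fin n)).erase β.1.1.1 :=
      Finset.mem_erase.2 ⟨hb.symm, Finset.mem_univ _⟩
    have m1 : β.1.1.1 ∈ (Finset.univ : Finset (Fin n)).erase β.1.1.2 :=
      Finset.mem_erase.2 ⟨hb, Finset.mem_univ _⟩
    rw [← Finset.mul_prod_erase _ _ m2, ← Finset.mul_prod_erase _ _ m1, sr_2,
      Finset.erase_right_comm]
    have e : ∏ l ∈ ((Finset.univ : Finset (Fin n)).erase β.1.1.2).erase β.1.1.1,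
        (DD n).sr β x l = ∏ l ∈ ((Finset.univ : Finset (Fin n)).erase β.1.1.2).erase β.1.1.1, x l := by
      refine Finset.prod_congr rfl fun l hl => sr_3 β x ?_ ?_
      · exact (Finset.mem_erase.1 hl).1
      · exact (Finset.mem_erase.1 (Finset.mem_erase.1 hl).2).1
    rw [e]
    ring
  · by_cases h2 : k = β.1.1.2
    · subst h2
      rw [sL_fst2, pl_eq, pl_eq, sgn_xor]
      have m2 : β.1.1.2 ∈ (Finset.univ : Finset (Fin n)).erase β.1.1.1 :=
        Finset.mem_erase.2 ⟨hb.symm, Finset.mem_univ _⟩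
      have m1 : β.1.1.1 ∈ (Finset.univ : Finset (Fin n)).erase β.1.1.2 :=
        Finset.mem_erase.2 ⟨hb, Finset.mem_univ _⟩
      rw [← Finset.mul_prod_erase _ _ m2, ← Finset.mul_prod_erase _ _ m1, sr_1,
        Finset.erase_right_comm]
      have e : ∏ l ∈ ((Finset.univ : Finset (Fin n)).erase β.1.1.1).erase β.1.1.2,
          (DD n).sr β x l =
          ∏ l ∈ ((Finset.univ : Finset (Fin n)).erase β.1.1.1).erase β.1.1.2, x l := by
        refine Finset.prod_congr rfl fun l hl => sr_3 β x ?_ ?_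
        · exact (Finset.mem_erase.1 (Finset.mem_erase.1 hl).2).1
        · exact (Finset.mem_erase.1 hl).1
      rw [e]
      ring
    · rw [sL_fst3 β h1 h2, pl_eq, pl_eq]
      have m1 : β.1.1.1 ∈ (Finset.univ : Finset (Fin n)).erase k :=
        Finset.mem_erase.2 ⟨fun h => h1 h.symm, Finset.mem_univ _⟩
      have m2 : β.1.1.2 ∈ ((Finset.univ : Finset (Fin n)).erase k).erase β.1.1.1 :=
        Finset.mem_erase.2 ⟨hb.symm, Finset.mem_erase.2 ⟨fun h => h2 h.symm, Finset.mem_univ _⟩⟩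
      rw [← Finset.mul_prod_erase _ _ m1, ← Finset.mul_prod_erase _ _ m2,
        ← Finset.mul_prod_erase _ x m1, ← Finset.mul_prod_erase _ x m2, sr_1, sr_2]
      have e : ∏ l ∈ (((Finset.univ : Finset (Fin n)).erase k).erase β.1.1.1).erase β.1.1.2,
          (DD n).sr β x l =
          ∏ l ∈ (((Finset.univ : Finset (Fin n)).erase k).erase β.1.1.1).erase β.1.1.2, x l := by
        refine Finset.prod_congr rfl fun l hl => sr_3 β x ?_ ?_
        · exact (Finset.mem_erase.1 (Finset.mem_erase.1 hl).2).1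
        · exact (Finset.mem_erase.1 hl).1
      rw [e]
      have := sg_sq' (R := R) β
      linear_combination ((if s then (1 : R) else -1) * x β.1.1.1 * x β.1.1.2 *
        ∏ l ∈ (((Finset.univ : Finset (Fin n)).erase k).erase β.1.1.1).erase β.1.1.2, x l) * this

/-- Every difference or sum of two coordinates with distinct indices is, up to sign, a root. -/
theorem yl_sub_eq {a c : Lab n} (h : a.1 ≠ c.1) : ∃ β : RD n, ∃ ε : ℤ, (ε = 1 ∨ ε = -1) ∧
    (({β.1.1.1, β.1.1.2} : Finset (Fin n)) = {a.1, c.1}) ∧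
    ∀ {R : Type} [CommRing R] (x : Fin n → R), yl x a - yl x c = (ε : R) * ev ((DD n).rt β) x := by
  obtain ⟨k, s⟩ := a
  obtain ⟨l, t⟩ := c
  replace h : k ≠ l := h
  rcases lt_or_gt_of_ne h with h1 | h1
  · refine ⟨(⟨(k, l), h1⟩, xor s t), if s then 1 else -1, ?_, rfl, ?_⟩
    · cases s <;> simp
    · intro R _ x
      have e : ev ((DD n).rt (⟨(k, l), h1⟩, xor s t)) x =
          x k + (sg ((⟨(k, l), h1⟩, xor s t) : RD n) : R) * x l :=
        ev_rt (⟨(k, l), h1⟩, xor s t) x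
      rw [e, yl_eq, yl_eq]
      unfold sg
      cases s <;> cases t <;> simp <;> ring
  · refine ⟨(⟨(l, k), h1⟩, xor s t), if t then -1 else 1, ?_, ?_, ?_⟩
    · cases t <;> simp
    · exact Finset.pair_comm l k
    · intro R _ x
      have e : ev ((DD n).rt (⟨(l, k), h1⟩, xor s t)) x =
          x l + (sg ((⟨(l, k), h1⟩, xor s t) : RD n) : R) * x k :=
        ev_rt (⟨(l, k), h1⟩, xor s t) x
      rw [e, yl_eq, yl_eq]
      unfold sg
      cases s <;> cases t <;> simp <;> ring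

/-- Labels are separated by `yl` and `pl` at the regular points. -/
theorem lab_sep {x : Fin n → ℂ} (hx : (DD n).Reg x) {a c : Lab n} (h1 : yl x a = yl x c)
    (h2 : pl x a = pl x c) : a = c := by
  by_cases h : a.1 = c.1
  · obtain ⟨k, s⟩ := a
    obtain ⟨l, t⟩ := c
    replace h : k = l := h
    subst h
    by_contra hne
    have hst : s ≠ t := fun h' => hne (by rw [h'])
    have hxk : x k = 0 := by
      rw [yl_eq, yl_eq] at h1
      revert h1 hst
      cases s <;> cases t <;> simp <;> intro h1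
      · linear_combination (-1/2 : ℂ) * h1
      · linear_combination (1/2 : ℂ) * h1
    have hp : ∏ l ∈ Finset.univ.erase k, x l = 0 := by
      rw [pl_eq, pl_eq] at h2
      revert h2 hst
      generalize (∏ l ∈ Finset.univ.erase k, x l) = P
      cases s <;> cases t <;> simp <;> intro h2
      · linear_combination (-1/2 : ℂ) * h2
      · linear_combination (1/2 : ℂ) * h2
    obtain ⟨l, hl, hxl⟩ := Finset.prod_eq_zero_iff.1 hp
    have hlk : l ≠ k := (Finset.mem_erase.1 hl).1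
    obtain ⟨β, ε, hε, -, hβ⟩ := yl_sub_eq (a := ((l, true) : Lab n)) (c := (k, true)) hlk
    have h3 := hβ x
    have h4 : yl x (l, true) = x l := rfl
    have h5 : yl x (k, true) = x k := rfl
    rw [h4, h5, hxl, hxk, sub_zero] at h3
    refine hx β ?_
    rcases mul_eq_zero.1 h3.symm with h6 | h6
    · rcases hε with rfl | rfl
      · norm_num at h6
      · norm_num at h6
    · exact h6
  · exfalso
    obtain ⟨β, ε, hε, -, hβ⟩ := yl_sub_eq h
    have h3 := hβ x
    rw [h1, sub_self] at h3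
    refine hx β ?_
    rcases mul_eq_zero.1 h3.symm with h6 | h6
    · rcases hε with rfl | rfl
      · norm_num at h6
      · norm_num at h6
    · exact h6

end Pool.Agent.MTD.TD
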