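import Pool.Agent.MTD.TV1

/-! # MTD : type `D`, the polynomial eigenvectors (row V2) -/

namespace Pool.Agent.MTD.TD

open Matrix
open Pool.Agent.MP_c45d35_ag (chi UpUni LowUni)

variable {n : ℕ}

/-! ### Auxiliary lemmas -/

/-- The conjugation after a substitution. -/
theorem v2_conj (hn : 2 ≤ n) {R : Type*} [CommRing R] [Algebra ℂ R]
    (φ : MvPolynomial (Fin n) ℂ →ₐ[ℂ] R) :
    (pxD n).map φ * ((eD n).map (algebraMap ℂ R) +
      Matrix.diagonal fun i => ev (wtD i) fun k => φ (MvPolynomial.X k)) =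
      (sxD n).map φ * (pxD n).map φ := by
  have h := congrArg (fun M => M.map (φ : MvPolynomial (Fin n) ℂ →+* R)) (px_conj0 hn)
  rw [Matrix.map_mul, Matrix.map_mul, Matrix.map_add _ (map_add _),
    Matrix.diagonal_map (map_zero _)] at h
  have h1 : ((eD n).map MvPolynomial.C).map (φ : MvPolynomial (Fin n) ℂ →+* R) =
      (eD n).map (algebraMap ℂ R) := by
    ext i j
    simp only [Matrix.map_apply]
    exact φ.commutes _
  have h2 : (fun i => (φ : MvPolynomial (Fin n) ℂ →+* R) (ev (wtD i) MvPolynomial.X)) =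
      fun i => ev (wtD i) fun k => φ (MvPolynomial.X k) := by
    funext i
    exact ev_map (φ : MvPolynomial (Fin n) ℂ →+* R) _ _
  rw [h1, h2] at h
  exact h

theorem v2_eD (hn : 2 ≤ n) (i : Fin (2 * n)) : eD n i ⟨0, by omega⟩ = 0 := by
  unfold eD
  simp only [Matrix.of_apply]
  rw [if_neg (by omega), if_neg (by omega)]

theorem v2_eDm (hn : 2 ≤ n) {R : Type*} [CommRing R] [Algebra ℂ R] (i : Fin (2 * n)) :
    (eD n).map (algebraMap ℂ R) i ⟨0, by omega⟩ = 0 := by
  rw [Matrix.map_apply, v2_eD hn, map_zero]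

/-- The first column of the conjugator is an eigenvector. -/
theorem v2_col (hn : 2 ≤ n) {R : Type*} [CommRing R] [Algebra ℂ R]
    (φ : MvPolynomial (Fin n) ℂ →ₐ[ℂ] R) :
    ((sxD n).map φ).mulVec (fun k => (pxD n).map φ k ⟨0, by omega⟩) =
      φ (MvPolynomial.X ⟨0, by omega⟩) • fun k => (pxD n).map φ k ⟨0, by omega⟩ := by
  funext i
  have h := congrFun (congrFun (v2_conj hn φ) i) ⟨0, by omega⟩
  rw [Matrix.mul_apply, Matrix.mul_apply, Finset.sum_eq_single ⟨0, by omega⟩] at h
  · rw [Matrix.add_apply, v2_eDm hn, zero_add, Matrix.diagonal_apply_eq] at h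
    have h1 : ev (wtD (⟨0, by omega⟩ : Fin (2 * n))) (fun k => φ (MvPolynomial.X k)) =
        φ (MvPolynomial.X (⟨0, by omega⟩ : Fin n)) :=
      ev_wt_lo (⟨0, by omega⟩ : Fin n) (fun k => φ (MvPolynomial.X k))
    rw [h1] at h
    rw [Matrix.mulVec, dotProduct, Pi.smul_apply, smul_eq_mul, ← h, mul_comm]
  · intro b _ hb
    rw [Matrix.add_apply, v2_eDm hn, zero_add, Matrix.diagonal_apply_ne _ hb, mul_zero]
  · intro h'
    exact absurd (Finset.mem_univ _) h'

theorem v2_eval_aeval (x : Fin n → ℂ) (y : Fin n → MvPolynomial (Fin n) ℂ)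
    (p : MvPolynomial (Fin n) ℂ) :
    MvPolynomial.eval x (MvPolynomial.aeval y p) =
      MvPolynomial.eval (fun k => MvPolynomial.eval x (y k)) p := by
  induction p using MvPolynomial.induction_on with
  | C a => simp
  | add p q hp hq => rw [map_add, map_add, map_add, hp, hq]
  | mul_X p k hp => rw [map_mul, map_mul, map_mul, hp, MvPolynomial.aeval_X, MvPolynomial.eval_X]

theorem v2_sr_map {R S : Type*} [CommRing R] [CommRing S] (φ : R →+* S) (β : RD n) (x : Fin n → R) :
    (DD n).sr β (fun k => φ (x k)) = fun k => φ ((DD n).sr β x k) := by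
  funext k
  simp only [Dat.sr, map_sub, map_mul, map_intCast]
  rw [ev_map]

theorem v2_ynz (_hn : 2 ≤ n) (a : Lab n) : yl (XP n) a ≠ 0 := by
  intro h
  have h1 := congrArg (MvPolynomial.eval (fun _ : Fin n => (1 : ℂ))) h
  unfold yl at h1
  split_ifs at h1 <;> simp at h1

/-- A polynomial which vanishes where a nonzero polynomial does not vanish is zero. -/
theorem v2_zero {p q : MvPolynomial (Fin n) ℂ} (hq : q ≠ 0)
    (h : ∀ x : Fin n → ℂ, MvPolynomial.eval x q ≠ 0 → MvPolynomial.eval x p = 0) : p = 0 := by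
  have h1 : p * q = 0 := by
    apply MvPolynomial.funext
    intro x
    rw [map_mul, map_zero]
    by_cases hx : MvPolynomial.eval x q = 0
    · rw [hx, mul_zero]
    · rw [h x hx, zero_mul]
  exact (mul_eq_zero.1 h1).resolve_right hq

theorem v2_yl_eval (x : Fin n → ℂ) (a : Lab n) :
    MvPolynomial.eval x (yl (XP n) a) = yl x a := by
  rw [← yl_map (MvPolynomial.eval x)]
  congr 1
  funext k
  exact MvPolynomial.eval_X k

/-- Uniqueness of the eigenvectors of `sC x` with nonzero eigenvalue: transport by `pC x` (lower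
unipotent, so it preserves the first coordinate) to `e + x` and use `eD_eigen`. -/
theorem eig_unique (hn : 2 ≤ n) (x : Fin n → ℂ) (z : ℂ) (hz : z ≠ 0) (v v' : Fin (2 * n) → ℂ)
    (hv : ((DD n).sC x).mulVec v = z • v) (hv' : ((DD n).sC x).mulVec v' = z • v')
    (h0 : v ⟨0, by omega⟩ = v' ⟨0, by omega⟩) : v = v' := by
  have hconj := v2_conj hn (MvPolynomial.aeval x : MvPolynomial (Fin n) ℂ →ₐ[ℂ] ℂ)
  have hE : ∀ M : Matrix (Fin (2 * n)) (Fin (2 * n)) (MvPolynomial (Fin n) ℂ),
      M.map (MvPolynomial.aeval x : MvPolynomial (Fin n) ℂ →ₐ[ℂ] ℂ) =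
        M.map (MvPolynomial.eval x) := by
    intro M
    ext i j
    rw [Matrix.map_apply, Matrix.map_apply, ← MvPolynomial.coe_aeval_eq_eval]
    rfl
  have hid : (eD n).map (algebraMap ℂ ℂ) = eD n := by
    ext i j
    rfl
  have hX : (fun k => (MvPolynomial.aeval x : MvPolynomial (Fin n) ℂ →ₐ[ℂ] ℂ)
      (MvPolynomial.X k)) = x := by
    funext k
    exact MvPolynomial.aeval_X x k
  rw [hE, hE, hid] at hconj
  simp only [MvPolynomial.aeval_X] at hconj
  set P := (pxD n).map (MvPolynomial.eval x) with hP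
  have hlow : LowUni P := by
    obtain ⟨h1, h2⟩ := px_low hn
    refine ⟨fun i j hij => ?_, fun i => ?_⟩
    · rw [hP, Matrix.map_apply, h1 i j hij, map_zero]
    · rw [hP, Matrix.map_apply, h2 i, map_one]
  have hs : (DD n).sC x = (sxD n).map (MvPolynomial.eval x) := rfl
  rw [hs] at hv hv'
  set S := (sxD n).map (MvPolynomial.eval x) with hS
  -- the difference
  have hw : S.mulVec (v - v') = z • (v - v') := by
    rw [Matrix.mulVec_sub, hv, hv', smul_sub]
  have hu : (eD n + Matrix.diagonal fun i => ev (wtD i) x).mulVec (P⁻¹.mulVec (v - v')) =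
      z • (P⁻¹.mulVec (v - v')) := by
    have h1 : P⁻¹ * S = (eD n + Matrix.diagonal fun i => ev (wtD i) x) * P⁻¹ := by
      calc P⁻¹ * S = P⁻¹ * S * (P * P⁻¹) := by rw [hlow.mul_inv, Matrix.mul_one]
        _ = P⁻¹ * (S * P) * P⁻¹ := by simp only [Matrix.mul_assoc]
        _ = P⁻¹ * (P * (eD n + Matrix.diagonal fun i => ev (wtD i) x)) * P⁻¹ := by rw [hconj]
        _ = (P⁻¹ * P) * (eD n + Matrix.diagonal fun i => ev (wtD i) x) * P⁻¹ := by
            simp only [Matrix.mul_assoc]
        _ = _ := by rw [hlow.inv_mul, Matrix.one_mul]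
    rw [Matrix.mulVec_mulVec, ← h1, ← Matrix.mulVec_mulVec, hw, Matrix.mulVec_smul]
  have hu0 : P⁻¹.mulVec (v - v') = 0 := by
    refine eD_eigen hn x z hz _ hu ?_
    intro i hi
    have hinv := hlow.inv
    rw [Matrix.mulVec, dotProduct, Finset.sum_eq_single i]
    · have h3 : (v - v') i = 0 := by
        have h4 : i = ⟨0, by omega⟩ := Fin.ext hi
        rw [h4, Pi.sub_apply, h0, sub_self]
      rw [h3, mul_zero]
    · intro b _ hb
      have h5 : i < b := by
        rw [Fin.lt_def]
        have : (b : ℕ) ≠ (i : ℕ) := fun h => hb (Fin.ext h)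
        omega
      rw [hinv.1 i b h5, zero_mul]
    · intro h'
      exact absurd (Finset.mem_univ _) h'
  have h6 : v - v' = 0 := by
    have h7 : P.mulVec (P⁻¹.mulVec (v - v')) = v - v' := by
      rw [Matrix.mulVec_mulVec, hlow.mul_inv, Matrix.one_mulVec]
    rw [← h7, hu0, Matrix.mulVec_zero]
  exact sub_eq_zero.1 h6

/-- The slice element is invariant under the reflections, as a polynomial matrix. -/
theorem sxD_sr (hn : 2 ≤ n) (β : RD n) :
    (sxD n).map (MvPolynomial.aeval ((DD n).sr β (XP n)) :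
      MvPolynomial (Fin n) ℂ →ₐ[ℂ] MvPolynomial (Fin n) ℂ) = sxD n := by
  ext i j : 1
  rw [Matrix.map_apply]
  apply MvPolynomial.funext
  intro x
  rw [v2_eval_aeval]
  have h1 : (fun k => MvPolynomial.eval x ((DD n).sr β (XP n) k)) = (DD n).sr β x := by
    rw [← v2_sr_map (MvPolynomial.eval x) β (XP n)]
    congr 1
    funext k
    exact MvPolynomial.eval_X k
  rw [h1]
  exact congrFun (congrFun (sx_refl' hn β x) i) j

/-- The points of the orbit of the generic point. -/
theorem v2_pt (hn : 2 ≤ n) (a : Lab n) : ∃ y : Fin n → MvPolynomial (Fin n) ℂ,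
    y ⟨0, by omega⟩ = yl (XP n) a ∧
    (sxD n).map (MvPolynomial.aeval y : MvPolynomial (Fin n) ℂ →ₐ[ℂ] MvPolynomial (Fin n) ℂ) =
      sxD n := by
  -- one reflection
  have step : ∀ (β : RD n) (y : Fin n → MvPolynomial (Fin n) ℂ),
      (sxD n).map (MvPolynomial.aeval y : MvPolynomial (Fin n) ℂ →ₐ[ℂ] MvPolynomial (Fin n) ℂ) =
        sxD n →
      (sxD n).map (MvPolynomial.aeval ((DD n).sr β y) :
        MvPolynomial (Fin n) ℂ →ₐ[ℂ] MvPolynomial (Fin n) ℂ) = sxD n := by
    intro β y hy
    have h1 : ∀ p : MvPolynomial (Fin n) ℂ, MvPolynomial.aeval ((DD n).sr β y) p =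
        MvPolynomial.aeval y (MvPolynomial.aeval ((DD n).sr β (XP n)) p) := by
      intro p
      have h2 : (MvPolynomial.aeval ((DD n).sr β y) :
          MvPolynomial (Fin n) ℂ →ₐ[ℂ] MvPolynomial (Fin n) ℂ) =
          (MvPolynomial.aeval y).comp (MvPolynomial.aeval ((DD n).sr β (XP n))) := by
        apply MvPolynomial.algHom_ext
        intro k
        rw [AlgHom.comp_apply, MvPolynomial.aeval_X, MvPolynomial.aeval_X]
        have h3 := congrFun (v2_sr_map ((MvPolynomial.aeval y :
          MvPolynomial (Fin n) ℂ →ₐ[ℂ] MvPolynomial (Fin n) ℂ) :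
          MvPolynomial (Fin n) ℂ →+* MvPolynomial (Fin n) ℂ) β (XP n)) k
        rw [RingHom.coe_coe] at h3
        rw [← h3]
        congr 1
        funext l
        rw [MvPolynomial.aeval_X]
      rw [h2, AlgHom.comp_apply]
    ext i j : 1
    rw [Matrix.map_apply, h1]
    have h4 := congrFun (congrFun (sxD_sr hn β) i) j
    rw [Matrix.map_apply] at h4
    rw [h4]
    have h5 := congrFun (congrFun hy i) j
    rw [Matrix.map_apply] at h5
    exact h5
  have hid : (sxD n).map (MvPolynomial.aeval (XP n) :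
      MvPolynomial (Fin n) ℂ →ₐ[ℂ] MvPolynomial (Fin n) ℂ) = sxD n := by
    ext i j : 1
    rw [Matrix.map_apply, MvPolynomial.aeval_X_left_apply]
  have h0n : 0 < n := by omega
  have h1n : 1 < n := by omega
  have hyl : ∀ y : Fin n → MvPolynomial (Fin n) ℂ,
      y ⟨0, h0n⟩ = yl y ((⟨0, h0n⟩ : Fin n), true) := by
    intro y
    simp [yl]
  obtain ⟨i, b⟩ := a
  by_cases hi : (i : ℕ) = 0
  · obtain rfl : i = ⟨0, h0n⟩ := Fin.ext hi
    cases b with
    | true => exact ⟨XP n, hyl _, hid⟩
    | false =>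
      let β1 : RD n := (⟨(⟨0, h0n⟩, ⟨1, h1n⟩), by simp [Fin.lt_def]⟩, false)
      let β2 : RD n := (⟨(⟨0, h0n⟩, ⟨1, h1n⟩), by simp [Fin.lt_def]⟩, true)
      refine ⟨(DD n).sr β1 ((DD n).sr β2 (XP n)), ?_, step _ _ (step _ _ hid)⟩
      refine (hyl _).trans ?_
      rw [yl_sr, yl_sr]
      congr 1
  · let β : RD n := (⟨(⟨0, h0n⟩, i), by rw [Fin.lt_def]; exact Nat.pos_of_ne_zero hi⟩, !b)
    refine ⟨(DD n).sr β (XP n), ?_, step _ _ hid⟩
    refine (hyl _).trans ?_
    rw [yl_sr]
    congr 1
    simp [sL, β]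

/-- Divisibility by the equation of a hyperplane. -/
theorem v2_dvd {a c : Lab n} (hac : a.1 ≠ c.1) (p : MvPolynomial (Fin n) ℂ)
    (h : ∀ x : Fin n → ℂ, yl x a = yl x c → yl x c ≠ 0 → MvPolynomial.eval x p = 0) :
    yl (XP n) a - yl (XP n) c ∣ p := by
  -- substitute `X_{a.1} := ± y_c`
  let s : MvPolynomial (Fin n) ℂ := if a.2 then yl (XP n) c else - yl (XP n) c
  let y : Fin n → MvPolynomial (Fin n) ℂ := Function.update (XP n) a.1 s
  have hdiv : ∀ q : MvPolynomial (Fin n) ℂ,
      yl (XP n) a - yl (XP n) c ∣ q - MvPolynomial.aeval y q := by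
    intro q
    induction q using MvPolynomial.induction_on with
    | C r =>
      rw [MvPolynomial.aeval_C]
      simp
    | add q r hq hr =>
      have e : q + r - MvPolynomial.aeval y (q + r) =
          (q - MvPolynomial.aeval y q) + (r - MvPolynomial.aeval y r) := by
        rw [map_add]
        ring
      rw [e]
      exact dvd_add hq hr
    | mul_X q k hq =>
      have e : q * MvPolynomial.X k - MvPolynomial.aeval y (q * MvPolynomial.X k) =
          (q - MvPolynomial.aeval y q) * MvPolynomial.X k +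
          MvPolynomial.aeval y q * (MvPolynomial.X k - y k) := by
        rw [map_mul, MvPolynomial.aeval_X]
        ring
      rw [e]
      refine dvd_add (hq.mul_right _) (Dvd.dvd.mul_left ?_ _)
      by_cases hk : k = a.1
      · subst hk
        simp only [y, Function.update_self, s]
        obtain ⟨a1, a2⟩ := a
        cases a2
        · simp only [yl, Bool.false_eq_true, if_false]
          refine ⟨-1, ?_⟩
          ring
        · simp only [yl, if_true]
          exact dvd_refl _
      · simp only [y, Function.update_of_ne hk, sub_self]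
        exact dvd_zero _
  have hzero : MvPolynomial.aeval y p = 0 := by
    by_cases hn0 : yl (XP n) c = 0
    · exfalso
      have h1 := congrArg (MvPolynomial.eval (fun _ : Fin n => (1 : ℂ))) hn0
      unfold yl at h1
      split_ifs at h1 <;> simp at h1
    refine v2_zero hn0 fun x hx => ?_
    rw [v2_yl_eval] at hx
    rw [v2_eval_aeval]
    set x' : Fin n → ℂ := fun k => MvPolynomial.eval x (y k) with hx'
    have hc : yl x' c = yl x c := by
      have h2 : x' c.1 = x c.1 := by
        simp only [hx', y, Function.update_of_ne hac.symm, MvPolynomial.eval_X]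
      simp only [yl, h2]
    have ha : yl x' a = yl x c := by
      have h2 : x' a.1 = if a.2 then yl x c else - yl x c := by
        simp only [hx', y, Function.update_self, s]
        split_ifs
        · exact v2_yl_eval x c
        · rw [map_neg, v2_yl_eval]
      unfold yl
      rw [h2]
      split_ifs <;> simp [yl, *]
    exact h x' (by rw [ha, hc]) (by rw [hc]; exact hx)
  have := hdiv p
  rwa [hzero, sub_zero] at this

/-- **The eigenvectors.**  For a label `a` choose a point `x^a = σ_a(X)` of the `W(D_n)`-orbit of the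
generic point with `(x^a)_0 = yl X a` (swap `0` and `a.1`; if the sign is `-` change also the sign of
one other coordinate), and let `wv a` be the first column of `px` at `x^a`.  As
`px * (e + X) = sx * px` and `(e + X) e_0 = X_0 e_0`, this is an eigenvector of `sx(x^a) = sx` with
eigenvalue `yl X a` and first coordinate `1` (`px` is lower unipotent).  (Instead of choosing `x^a`
explicitly one may compose reflections `sr β`, using `sxD_sr`.)

Divisibility: at a point `x` of the hyperplane `yl x a = yl x c` with nonzero value, `wv a` and `wv c`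
agree by `eig_unique`; hence they agree on the whole hyperplane (density), and a polynomial vanishing
on the hyperplane is divisible by its equation.  Equivariance: both sides are eigenvectors for the
same eigenvalue (`yl_sr`) with first coordinate one; they agree at the points where the eigenvalue is
nonzero (`eig_unique`), hence everywhere. -/
theorem exists_wv (hn : 2 ≤ n) :
    ∃ wv : Lab n → Fin (2 * n) → MvPolynomial (Fin n) ℂ,
      (∀ a, (sxD n).mulVec (wv a) = yl (XP n) a • wv a) ∧
      (∀ a, wv a ⟨0, by omega⟩ = 1) ∧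
      (∀ a c : Lab n, a.1 ≠ c.1 → ∃ d : Fin (2 * n) → MvPolynomial (Fin n) ℂ,
        wv a - wv c = (yl (XP n) a - yl (XP n) c) • d) ∧
      (∀ (β : RD n) (a : Lab n) (i : Fin (2 * n)),
        MvPolynomial.aeval ((DD n).sr β (XP n)) (wv a i) = wv (sL β a) i) := by
  choose y hy0 hys using v2_pt hn
  let wv : Lab n → Fin (2 * n) → MvPolynomial (Fin n) ℂ := fun a k =>
    (pxD n).map (MvPolynomial.aeval (y a) :
      MvPolynomial (Fin n) ℂ →ₐ[ℂ] MvPolynomial (Fin n) ℂ) k ⟨0, by omega⟩
  have heig : ∀ a, (sxD n).mulVec (wv a) = yl (XP n) a • wv a := by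
    intro a
    have h := v2_col hn (MvPolynomial.aeval (y a) :
      MvPolynomial (Fin n) ℂ →ₐ[ℂ] MvPolynomial (Fin n) ℂ)
    rw [hys a, MvPolynomial.aeval_X, hy0 a] at h
    exact h
  have hone : ∀ a, wv a ⟨0, by omega⟩ = 1 := by
    intro a
    simp only [wv, Matrix.map_apply]
    rw [(px_low hn).2, map_one]
  -- evaluation of an eigenvector
  have hev : ∀ (u : Fin (2 * n) → MvPolynomial (Fin n) ℂ) (a : Lab n),
      (sxD n).mulVec u = yl (XP n) a • u → ∀ x : Fin n → ℂ,
      ((DD n).sC x).mulVec (fun k => MvPolynomial.eval x (u k)) =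
        yl x a • fun k => MvPolynomial.eval x (u k) := by
    intro u a hu x
    funext i
    have h1 := congrArg (MvPolynomial.eval x) (congrFun hu i)
    rw [Pi.smul_apply, smul_eq_mul, map_mul, v2_yl_eval, Matrix.mulVec, dotProduct, map_sum] at h1
    rw [Pi.smul_apply, smul_eq_mul, ← h1, Matrix.mulVec, dotProduct]
    refine Finset.sum_congr rfl fun k _ => ?_
    rw [map_mul]
    rfl
  refine ⟨wv, heig, hone, ?_, ?_⟩
  · intro a c hac
    have hd : ∀ i, yl (XP n) a - yl (XP n) c ∣ (wv a - wv c) i := by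
      intro i
      refine v2_dvd hac _ fun x hx hx0 => ?_
      have h1 := hev (wv a) a (heig a) x
      have h2 := hev (wv c) c (heig c) x
      rw [hx] at h1
      have h3 := eig_unique hn x (yl x c) hx0 _ _ h1 h2 (by rw [hone, hone])
      rw [Pi.sub_apply, map_sub, sub_eq_zero]
      exact congrFun h3 i
    choose d hd' using hd
    refine ⟨d, ?_⟩
    funext i
    rw [hd' i, Pi.smul_apply, smul_eq_mul]
  · intro β a i
    -- the transported vector
    let φ : MvPolynomial (Fin n) ℂ →ₐ[ℂ] MvPolynomial (Fin n) ℂ :=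
      MvPolynomial.aeval ((DD n).sr β (XP n))
    have hφy : φ (yl (XP n) a) = yl (XP n) (sL β a) := by
      rw [← yl_sr]
      have h1 := yl_map (φ : MvPolynomial (Fin n) ℂ →+* MvPolynomial (Fin n) ℂ) (XP n) a
      rw [RingHom.coe_coe] at h1
      rw [← h1]
      congr 1
      funext k
      exact MvPolynomial.aeval_X _ k
    have hu : (sxD n).mulVec (fun k => φ (wv a k)) = yl (XP n) (sL β a) • fun k => φ (wv a k) := by
      funext k
      have h1 := congrArg φ (congrFun (heig a) k)
      rw [Pi.smul_apply, smul_eq_mul, map_mul, hφy, Matrix.mulVec, dotProduct, map_sum] at h1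
      rw [Pi.smul_apply, smul_eq_mul, ← h1, Matrix.mulVec, dotProduct]
      refine Finset.sum_congr rfl fun l _ => ?_
      rw [map_mul]
      congr 1
      have h4 := congrFun (congrFun (sxD_sr hn β) k) l
      rw [Matrix.map_apply] at h4
      exact h4.symm
    have h5 : φ (wv a i) - wv (sL β a) i = 0 := by
      refine v2_zero (v2_ynz hn (sL β a)) fun x hx => ?_
      rw [v2_yl_eval] at hx
      have h1 := hev _ (sL β a) hu x
      have h2 := hev _ (sL β a) (heig (sL β a)) x
      have h3 := eig_unique hn x _ hx _ _ h1 h2 (by rw [hone, hone, map_one])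
      rw [map_sub, sub_eq_zero]
      exact congrFun h3 i
    exact sub_eq_zero.1 h5

open Classical in
/-- The polynomial eigenvectors. -/
noncomputable def wv (a : Lab n) : Fin (2 * n) → MvPolynomial (Fin n) ℂ :=
  if hn : 2 ≤ n then (exists_wv hn).choose a else 0

theorem wv_eig (hn : 2 ≤ n) (a : Lab n) :
    (sxD n).mulVec (wv a) = yl (XP n) a • wv a := by
  unfold wv
  simp only [dif_pos hn]
  exact (exists_wv hn).choose_spec.1 a

theorem wv_zero (hn : 2 ≤ n) (a : Lab n) : wv a (⟨0, by omega⟩ : Fin (2 * n)) = 1 := by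
  unfold wv
  simp only [dif_pos hn]
  exact (exists_wv hn).choose_spec.2.1 a

theorem wv_sub (hn : 2 ≤ n) (a c : Lab n) (h : a.1 ≠ c.1) :
    ∃ d : Fin (2 * n) → MvPolynomial (Fin n) ℂ,
      wv a - wv c = (yl (XP n) a - yl (XP n) c) • d := by
  unfold wv
  simp only [dif_pos hn]
  exact (exists_wv hn).choose_spec.2.2.1 a c h

theorem wv_sr (hn : 2 ≤ n) (β : RD n) (a : Lab n) (i : Fin (2 * n)) :
    MvPolynomial.aeval ((DD n).sr β (XP n)) (wv a i) = wv (sL β a) i := by
  unfold wv
  simp only [dif_pos hn]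
  exact (exists_wv hn).choose_spec.2.2.2 β a i

end Pool.Agent.MTD.TD
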