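import Pool.Agent.MTD.TV2

/-! # MTD : type `D`, the matrix `𝓎` (row V3) -/

namespace Pool.Agent.MTD.TD

open Matrix
open Pool.Agent.MP_c45d35_ag (chi UpUni LowUni)
open Pool.Agent.MP_c45d35_ag.BlockD (Up)

variable {n : ℕ}

section V3explicit

/-- The products `(-1)^(j-i) ∏_{l < i or l > j} X_l`. -/
noncomputable def V3_f (n i j : ℕ) : MvPolynomial (Fin n) ℂ :=
  (-1) ^ (j - i) * ∏ l ∈ Finset.univ.filter (fun l : Fin n => (l : ℕ) < i ∨ j < (l : ℕ)),
    MvPolynomial.X l

theorem V3_f_left {i j : ℕ} (hi : i < n) (hij : i < j) :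
    MvPolynomial.X (⟨i, hi⟩ : Fin n) * V3_f n i j + V3_f n (i + 1) j = 0 := by
  unfold V3_f
  have h1 : (Finset.univ.filter (fun l : Fin n => (l : ℕ) < i + 1 ∨ j < (l : ℕ))) =
      insert (⟨i, hi⟩ : Fin n) (Finset.univ.filter (fun l : Fin n => (l : ℕ) < i ∨ j < (l : ℕ))) := by
    ext l
    simp only [Finset.mem_filter, Finset.mem_univ, true_and, Finset.mem_insert, Fin.ext_iff]
    omega
  have h2 : (⟨i, hi⟩ : Fin n) ∉
      (Finset.univ.filter (fun l : Fin n => (l : ℕ) < i ∨ j < (l : ℕ))) := by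
    simp only [Finset.mem_filter, Finset.mem_univ, true_and]
    omega
  have h3 : j - i = (j - (i + 1)) + 1 := by omega
  rw [h1, Finset.prod_insert h2, h3, pow_succ]
  ring

theorem V3_f_right {i j : ℕ} (hj : j + 1 < n) (hij : i ≤ j) :
    MvPolynomial.X (⟨j + 1, hj⟩ : Fin n) * V3_f n i (j + 1) + V3_f n i j = 0 := by
  unfold V3_f
  have h1 : (Finset.univ.filter (fun l : Fin n => (l : ℕ) < i ∨ j < (l : ℕ))) =
      insert (⟨j + 1, hj⟩ : Fin n)
        (Finset.univ.filter (fun l : Fin n => (l : ℕ) < i ∨ j + 1 < (l : ℕ))) := by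
    ext l
    simp only [Finset.mem_filter, Finset.mem_univ, true_and, Finset.mem_insert, Fin.ext_iff]
    omega
  have h2 : (⟨j + 1, hj⟩ : Fin n) ∉
      (Finset.univ.filter (fun l : Fin n => (l : ℕ) < i ∨ j + 1 < (l : ℕ))) := by
    simp only [Finset.mem_filter, Finset.mem_univ, true_and]
    omega
  have h3 : j + 1 - i = (j - i) + 1 := by omega
  rw [h1, Finset.prod_insert h2, h3, pow_succ]
  ring

theorem V3_f_self {i : ℕ} (hi : i < n) :
    MvPolynomial.X (⟨i, hi⟩ : Fin n) * V3_f n i i = ∏ k, MvPolynomial.X k := by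
  unfold V3_f
  have h1 : (Finset.univ.filter (fun l : Fin n => (l : ℕ) < i ∨ i < (l : ℕ))) =
      Finset.univ.erase (⟨i, hi⟩ : Fin n) := by
    ext l
    simp only [Finset.mem_filter, Finset.mem_univ, true_and, Finset.mem_erase, Fin.ext_iff, and_true,
      Ne]
    omega
  rw [h1, Nat.sub_self, pow_zero, one_mul]
  exact Finset.mul_prod_erase Finset.univ _ (Finset.mem_univ _)

/-- The entries of `y0`. -/
noncomputable def V3_y (n i k : ℕ) : MvPolynomial (Fin n) ℂ :=
  if k < n ∧ i ≤ k then V3_f n i k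
  else if k = n ∧ i + 2 ≤ n then - V3_f n i (n - 1)
  else if n ≤ k ∧ n ≤ i ∧ i ≤ k then - V3_f n (2 * n - 1 - k) (2 * n - 1 - i)
  else if n < k ∧ i + 1 = n then V3_f n (2 * n - 1 - k) (n - 1)
  else 0

theorem V3_y1 {i k : ℕ} (h : k < n) (h' : i ≤ k) : V3_y n i k = V3_f n i k := by
  unfold V3_y
  rw [if_pos ⟨h, h'⟩]

theorem V3_y2 {i : ℕ} (h : i + 2 ≤ n) : V3_y n i n = - V3_f n i (n - 1) := by
  unfold V3_y
  rw [if_neg (by omega), if_pos ⟨rfl, h⟩]

theorem V3_y3 {i k : ℕ} (h : n ≤ i) (h' : i ≤ k) :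
    V3_y n i k = - V3_f n (2 * n - 1 - k) (2 * n - 1 - i) := by
  unfold V3_y
  rw [if_neg (by omega), if_neg (by omega), if_pos (by omega)]

theorem V3_y4 {i k : ℕ} (h : i + 1 = n) (h' : n < k) :
    V3_y n i k = V3_f n (2 * n - 1 - k) (n - 1) := by
  unfold V3_y
  rw [if_neg (by omega), if_neg (by omega), if_neg (by omega), if_pos (by omega)]

theorem V3_y5 {i k : ℕ} (h : k < i) : V3_y n i k = 0 := by
  unfold V3_y
  rw [if_neg (by omega), if_neg (by omega), if_neg (by omega), if_neg (by omega)]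

theorem V3_y6 {i k : ℕ} (h : i + 2 ≤ n) (h' : n < k) : V3_y n i k = 0 := by
  unfold V3_y
  rw [if_neg (by omega), if_neg (by omega), if_neg (by omega), if_neg (by omega)]

theorem V3_y7 {i : ℕ} (h : i + 1 = n) : V3_y n i n = 0 := by
  unfold V3_y
  rw [if_neg (by omega), if_neg (by omega), if_neg (by omega), if_neg (by omega)]

/-- Row sums of `e`. -/
theorem V3_row (hn : 2 ≤ n) (w : ℕ → MvPolynomial (Fin n) ℂ) (i : Fin (2 * n)) :
    ∑ l : Fin (2 * n), (eD n).map MvPolynomial.C i l * w l =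
      if (i : ℕ) + 3 ≤ n then w (i + 1)
      else if (i : ℕ) + 2 = n then w (i + 1) + w n
      else if (i : ℕ) + 1 = n then - w (n + 1)
      else if (i : ℕ) + 1 < 2 * n then - w (i + 1) else 0 := by
  have hi := i.2
  simp only [Matrix.map_apply, eD, Matrix.of_apply]
  split_ifs with h1 h2 h3 h4
  · rw [Finset.sum_eq_single (⟨(i : ℕ) + 1, by omega⟩ : Fin (2 * n))]
    · have e1 : ((⟨(i : ℕ) + 1, by omega⟩ : Fin (2 * n)) : ℕ) = (i : ℕ) + 1 := rfl
      rw [if_pos (by omega), map_one, one_mul]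
    · intro l _ hl
      have hl' : (l : ℕ) ≠ (i : ℕ) + 1 := fun h => hl (Fin.ext h)
      rw [if_neg (by omega), if_neg (by omega), map_zero, zero_mul]
    · intro h
      exact absurd (Finset.mem_univ _) h
  · rw [Finset.sum_eq_add (⟨(i : ℕ) + 1, by omega⟩ : Fin (2 * n)) (⟨n, by omega⟩ : Fin (2 * n))]
    · have e1 : ((⟨(i : ℕ) + 1, by omega⟩ : Fin (2 * n)) : ℕ) = (i : ℕ) + 1 := rfl
      have e2 : ((⟨n, by omega⟩ : Fin (2 * n)) : ℕ) = n := rfl
      rw [if_pos (by omega), if_pos (by omega), map_one, one_mul, one_mul]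
    · intro h
      have := congrArg Fin.val h
      simp only at this
      omega
    · intro l _ hl
      have hl' : (l : ℕ) ≠ (i : ℕ) + 1 := fun h => hl.1 (Fin.ext h)
      have hl'' : (l : ℕ) ≠ n := fun h => hl.2 (Fin.ext h)
      rw [if_neg (by omega), if_neg (by omega), map_zero, zero_mul]
    · intro h
      exact absurd (Finset.mem_univ _) h
    · intro h
      exact absurd (Finset.mem_univ _) h
  · rw [Finset.sum_eq_single (⟨n + 1, by omega⟩ : Fin (2 * n))]
    · have e1 : ((⟨n + 1, by omega⟩ : Fin (2 * n)) : ℕ) = n + 1 := rfl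
      rw [if_neg (by omega), if_pos (by omega), map_neg, map_one]
      ring
    · intro l _ hl
      have hl' : (l : ℕ) ≠ n + 1 := fun h => hl (Fin.ext h)
      rw [if_neg (by omega), if_neg (by omega), map_zero, zero_mul]
    · intro h
      exact absurd (Finset.mem_univ _) h
  · rw [Finset.sum_eq_single (⟨(i : ℕ) + 1, by omega⟩ : Fin (2 * n))]
    · have e1 : ((⟨(i : ℕ) + 1, by omega⟩ : Fin (2 * n)) : ℕ) = (i : ℕ) + 1 := rfl
      rw [if_neg (by omega), if_pos (by omega), map_neg, map_one]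
      ring
    · intro l _ hl
      have hl' : (l : ℕ) ≠ (i : ℕ) + 1 := fun h => hl (Fin.ext h)
      rw [if_neg (by omega), if_neg (by omega), map_zero, zero_mul]
    · intro h
      exact absurd (Finset.mem_univ _) h
  · refine Finset.sum_eq_zero fun l _ => ?_
    have hl := l.2
    rw [if_neg (by omega), if_neg (by omega), map_zero, zero_mul]

/-- The matrix `y0`. -/
noncomputable def V3_y0 (n : ℕ) : Matrix (Fin (2 * n)) (Fin (2 * n)) (MvPolynomial (Fin n) ℂ) :=
  Matrix.of fun i k => V3_y n i k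

/-- The diagonal entries. -/
theorem V3_diag_lo {i : Fin (2 * n)} (h : (i : ℕ) < n) :
    ev (wtD i) (MvPolynomial.X : Fin n → MvPolynomial (Fin n) ℂ) = MvPolynomial.X ⟨i, h⟩ := by
  have h1 : i = lo ⟨i, h⟩ := Fin.ext rfl
  conv_lhs => rw [h1]
  rw [ev_wt_lo]

theorem V3_diag_hi {i : Fin (2 * n)} (h : n ≤ (i : ℕ)) :
    ev (wtD i) (MvPolynomial.X : Fin n → MvPolynomial (Fin n) ℂ) =
      - MvPolynomial.X ⟨2 * n - 1 - i, by omega⟩ := by
  have hi := i.2
  have h1 : i = Fin.rev (lo ⟨2 * n - 1 - i, by omega⟩) := by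
    apply Fin.ext
    rw [Fin.val_rev]
    show (i : ℕ) = 2 * n - ((2 * n - 1 - (i : ℕ)) + 1)
    omega
  conv_lhs => rw [h1]
  rw [ev_wt_rev, ev_wt_lo]

theorem V3_congr {a b c d : ℕ} (h : a = c) (h' : b = d) : V3_f n a b = V3_f n c d := by
  rw [h, h']

/-- `(e + X) y0 = ∏ X`. -/
theorem V3_mul_y0 (hn : 2 ≤ n) :
    ((eD n).map MvPolynomial.C + Matrix.diagonal fun i => ev (wtD i) MvPolynomial.X) * V3_y0 n =
      (∏ k, MvPolynomial.X k : MvPolynomial (Fin n) ℂ) • 1 := by
  ext1 i k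
  rw [Matrix.add_mul, Matrix.add_apply, Matrix.diagonal_mul, Matrix.mul_apply, Matrix.smul_apply,
    smul_eq_mul]
  have h0 := V3_row hn (fun l => V3_y n l k) i
  have h0' : ∑ l : Fin (2 * n), (eD n).map MvPolynomial.C i l * V3_y0 n l k =
    ∑ l : Fin (2 * n), (eD n).map MvPolynomial.C i l * V3_y n l k := rfl
  rw [h0', h0]
  have h1 : V3_y0 n i k = V3_y n i k := rfl
  rw [h1]
  have hi := i.2
  have hk := k.2
  clear h0 h0' h1
  have hd : (1 : Matrix (Fin (2 * n)) (Fin (2 * n)) (MvPolynomial (Fin n) ℂ)) i k =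
      if (i : ℕ) = (k : ℕ) then 1 else 0 := by
    rw [Matrix.one_apply]
    simp only [Fin.ext_iff]
  rw [hd]
  by_cases hin : (i : ℕ) < n
  · rw [V3_diag_lo hin]
    by_cases hik : (i : ℕ) = k
    · -- the diagonal entry
      have e0 : V3_y n i k = V3_f n i i := by rw [← hik]; exact V3_y1 hin le_rfl
      have e1 : V3_y n (i + 1) k = 0 := V3_y5 (by omega)
      have e2 : V3_y n n k = 0 := V3_y5 (by omega)
      have e3 : V3_y n (n + 1) k = 0 := V3_y5 (by omega)
      rw [if_pos hik, e0, e1, e2, e3, ← V3_f_self hin]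
      split_ifs
      · ring
      · ring
      · ring
      · omega
      · omega
    rw [if_neg hik, mul_zero]
    by_cases hki : (k : ℕ) < i
    · have e0 : V3_y n i k = 0 := V3_y5 (by omega)
      have e1 : V3_y n (i + 1) k = 0 := V3_y5 (by omega)
      have e2 : V3_y n n k = 0 := V3_y5 (by omega)
      have e3 : V3_y n (n + 1) k = 0 := V3_y5 (by omega)
      rw [e0, e1, e2, e3]
      split_ifs <;> ring
    have hlt : (i : ℕ) < k := by omega
    by_cases h1 : (i : ℕ) + 3 ≤ n
    · rw [if_pos h1]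
      rcases lt_trichotomy (k : ℕ) n with h | h | h
      · rw [V3_y1 h (by omega), V3_y1 h (by omega), add_comm]
        exact V3_f_left hin hlt
      · rw [h, V3_y2 (by omega), V3_y2 (by omega)]
        have h2 := V3_f_left (j := n - 1) hin (by omega)
        linear_combination -h2
      · rw [V3_y6 (by omega) h, V3_y6 (by omega) h]
        ring
    rw [if_neg h1]
    by_cases h2 : (i : ℕ) + 2 = n
    · rw [if_pos h2]
      rcases lt_trichotomy (k : ℕ) n with h | h | h
      · rw [V3_y5 h, V3_y1 (i := (i : ℕ) + 1) h (by omega), V3_y1 (i := (i : ℕ)) h (by omega),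
          add_zero, add_comm]
        exact V3_f_left hin hlt
      · have e : V3_f n (2 * n - 1 - n) (2 * n - 1 - n) = V3_f n (i + 1) (n - 1) :=
          V3_congr (by omega) (by omega)
        rw [h, V3_y2 (i := (i : ℕ)) (by omega), V3_y7 (i := (i : ℕ) + 1) (by omega),
          V3_y3 le_rfl le_rfl, e]
        have h2 := V3_f_left (j := n - 1) hin (by omega)
        linear_combination -h2
      · have e : V3_f n (2 * n - 1 - k) (2 * n - 1 - n) = V3_f n (2 * n - 1 - k) (n - 1) :=
          V3_congr rfl (by omega)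
        rw [V3_y6 (i := (i : ℕ)) (by omega) h, V3_y4 (i := (i : ℕ) + 1) (by omega) h,
          V3_y3 (i := n) le_rfl (by omega), e]
        ring
    rw [if_neg h2, if_pos (by omega)]
    rcases lt_trichotomy (k : ℕ) n with h | h | h
    · omega
    · rw [h, V3_y5 (i := n + 1) (by omega), V3_y7 (i := (i : ℕ)) (by omega)]
      ring
    · rw [V3_y4 (i := (i : ℕ)) (by omega) h, V3_y3 (i := n + 1) (by omega) (by omega)]
      have e : V3_f n (2 * n - 1 - k) (2 * n - 1 - (n + 1)) = V3_f n (2 * n - 1 - k) (n - 2) :=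
        V3_congr rfl (by omega)
      have h3 := V3_f_right (n := n) (i := 2 * n - 1 - k) (j := n - 2) (by omega) (by omega)
      have e4 : (⟨n - 2 + 1, by omega⟩ : Fin n) = ⟨i, hin⟩ := Fin.ext (by simp only; omega)
      have e5 : V3_f n (2 * n - 1 - k) (n - 2 + 1) = V3_f n (2 * n - 1 - k) (n - 1) :=
        V3_congr rfl (by omega)
      rw [e4, e5] at h3
      rw [e]
      linear_combination h3
  · rw [V3_diag_hi (by omega), if_neg (by omega), if_neg (by omega), if_neg (by omega)]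
    have hx : (if (i : ℕ) + 1 < 2 * n then - V3_y n (i + 1) k else 0) = - V3_y n (i + 1) k := by
      split_ifs with h
      · rfl
      · rw [V3_y5 (by omega), neg_zero]
    rw [hx]
    rcases lt_trichotomy (k : ℕ) i with h | h | h
    · rw [if_neg (by omega), V3_y5 (i := (i : ℕ) + 1) (by omega), V3_y5 (i := (i : ℕ)) h]
      ring
    · rw [if_pos h.symm, h, V3_y5 (i := (i : ℕ) + 1) (by omega),
        V3_y3 (i := (i : ℕ)) (by omega) le_rfl, ← V3_f_self (i := 2 * n - 1 - i) (by omega)]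
      ring
    · rw [if_neg (by omega), V3_y3 (i := (i : ℕ) + 1) (by omega) (by omega),
        V3_y3 (i := (i : ℕ)) (by omega) (by omega)]
      have h3 := V3_f_right (n := n) (i := 2 * n - 1 - k) (j := 2 * n - 1 - (i + 1)) (by omega)
        (by omega)
      have e4 : (⟨2 * n - 1 - (i + 1) + 1, by omega⟩ : Fin n) = ⟨2 * n - 1 - i, by omega⟩ :=
        Fin.ext (by simp only; omega)
      have e5 : V3_f n (2 * n - 1 - k) (2 * n - 1 - (i + 1) + 1) =
          V3_f n (2 * n - 1 - k) (2 * n - 1 - i) := V3_congr rfl (by omega)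
      rw [e4, e5] at h3
      linear_combination h3


theorem V3_y0_up (i j : Fin (2 * n)) (h : j < i) : V3_y0 n i j = 0 := V3_y5 h

end V3explicit

section V3cancel
variable {N : ℕ} {R : Type*} [CommRing R] [IsDomain R]

/-- Cancellation. -/
theorem V3_cancel_left {A B C : Matrix (Fin N) (Fin N) R} (hA : A.det ≠ 0) (h : A * B = A * C) :
    B = C := by
  have h1 : A.det • B = A.det • C := by
    have h2 : A.adjugate * (A * B) = A.adjugate * (A * C) := by rw [h]
    rw [← Matrix.mul_assoc, ← Matrix.mul_assoc, Matrix.adjugate_mul, Matrix.smul_mul,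
      Matrix.smul_mul, Matrix.one_mul, Matrix.one_mul] at h2
    exact h2
  ext i j
  have h3 := congrFun (congrFun h1 i) j
  rw [Matrix.smul_apply, Matrix.smul_apply, smul_eq_mul, smul_eq_mul] at h3
  exact mul_left_cancel₀ hA h3

theorem V3_cancel_right {A B C : Matrix (Fin N) (Fin N) R} (hA : A.det ≠ 0) (h : B * A = C * A) :
    B = C := by
  have h1 : A.det • B = A.det • C := by
    have h2 : (B * A) * A.adjugate = (C * A) * A.adjugate := by rw [h]
    rw [Matrix.mul_assoc, Matrix.mul_assoc, Matrix.mul_adjugate, Matrix.mul_smul,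
      Matrix.mul_smul, Matrix.mul_one, Matrix.mul_one] at h2
    exact h2
  ext i j
  have h3 := congrFun (congrFun h1 i) j
  rw [Matrix.smul_apply, Matrix.smul_apply, smul_eq_mul, smul_eq_mul] at h3
  exact mul_left_cancel₀ hA h3

theorem V3_det_ne {A B : Matrix (Fin N) (Fin N) R} {c : R} (hc : c ≠ 0) (h : A * B = c • 1) :
    A.det ≠ 0 := by
  intro h0
  have h1 := congrArg Matrix.det h
  rw [Matrix.det_mul, h0, zero_mul, Matrix.det_smul, Matrix.det_one, mul_one] at h1
  exact pow_ne_zero _ hc h1.symm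

end V3cancel

theorem V3_prod_ne : (∏ k, MvPolynomial.X k : MvPolynomial (Fin n) ℂ) ≠ 0 :=
  Finset.prod_ne_zero_iff.2 fun k _ => MvPolynomial.X_ne_zero k

theorem V3_sd_A : sd ((eD n).map MvPolynomial.C + Matrix.diagonal fun i => ev (wtD i) MvPolynomial.X :
      Matrix (Fin (2 * n)) (Fin (2 * n)) (MvPolynomial (Fin n) ℂ)) =
    -((eD n).map MvPolynomial.C + Matrix.diagonal fun i => ev (wtD i) MvPolynomial.X) := by
  have h1 : sd (eD n) = - eD n := by
    ext i j
    have hi := i.2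
    have hj := j.2
    rw [sd_apply, Matrix.neg_apply]
    simp only [eD, Matrix.of_apply, Fin.val_rev]
    split_ifs <;> first | omega | simp
  rw [sd_add, sd_map, h1, sd_diagonal, neg_add]
  congr 1
  · ext1 i j
    rw [Matrix.map_apply, Matrix.neg_apply, Matrix.neg_apply, Matrix.map_apply, map_neg]
  · rw [Matrix.diagonal_neg]
    congr 1
    funext i
    exact ev_wt_rev i _

/-- **The matrix `𝓎 = (∏ x) s⁻¹`.**  Take `yy = px * y0 * sd px` where `y0 (e + X) = (e + X) y0 = ∏ X`,
`sd y0 = - y0`, `y0` upper triangular.  Explicitly `y0` has entries (all others are zero)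
`(i, j)`, `i ≤ j ≤ n-1`: `(-1)^{j-i} ∏_{l ∉ [i,j]} X_l`;
`(i, n)`, `i ≤ n-2`: `-(-1)^{n-1-i} ∏_{l < i} X_l` (all `l ≥ i` omitted);
and the entries determined by `sd y0 = - y0`, that is `y0 (rev j) (rev i) = - y0 i j`
(`(n,n)`: `-∏_{l≤n-2} X_l`; the entries `(n-1, n)` and `(i, j)` with `i ≤ n-2`, `j ≥ n+1` are zero). -/
theorem exists_yy (hn : 2 ≤ n) :
    ∃ yy : Matrix (Fin (2 * n)) (Fin (2 * n)) (MvPolynomial (Fin n) ℂ),
      yy * sxD n = (∏ k, MvPolynomial.X k : MvPolynomial (Fin n) ℂ) • 1 ∧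
      sxD n * yy = (∏ k, MvPolynomial.X k : MvPolynomial (Fin n) ℂ) • 1 ∧ sd yy = -yy ∧
      ∀ i j : Fin (2 * n), j < i → (sd (pxD n) * yy * pxD n) i j = 0 := by
  set A : Matrix (Fin (2 * n)) (Fin (2 * n)) (MvPolynomial (Fin n) ℂ) :=
    (eD n).map MvPolynomial.C + Matrix.diagonal fun i => ev (wtD i) MvPolynomial.X with hA
  set P : MvPolynomial (Fin n) ℂ := ∏ k, MvPolynomial.X k with hP
  have hP0 : P ≠ 0 := V3_prod_ne
  have h1 : A * V3_y0 n = P • 1 := V3_mul_y0 hn
  have hdet : A.det ≠ 0 := V3_det_ne hP0 h1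
  have h2 : V3_y0 n * A = P • 1 := by
    apply V3_cancel_left hdet
    rw [← Matrix.mul_assoc, h1, Matrix.smul_mul, Matrix.mul_smul, Matrix.one_mul, Matrix.mul_one]
  have h3 : sd (V3_y0 n) = - V3_y0 n := by
    have h4 : sd (A * V3_y0 n) = sd (P • 1) := by rw [h1]
    rw [sd_mul, sd_smul, sd_one, hA, V3_sd_A, ← hA] at h4
    apply V3_cancel_right hdet
    rw [Matrix.neg_mul, h2, ← h4, Matrix.mul_neg, neg_neg]
  have hp := px_sd hn
  have hp' : pxD n * sd (pxD n) = 1 := mul_eq_one_comm.1 hp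
  have hc : pxD n * A = sxD n * pxD n := px_conj0 hn
  have hc' : sd (pxD n) * sxD n = A * sd (pxD n) := by
    calc sd (pxD n) * sxD n = sd (pxD n) * (sxD n * pxD n) * sd (pxD n) := by
          rw [Matrix.mul_assoc, Matrix.mul_assoc (sxD n), hp', Matrix.mul_one]
      _ = (sd (pxD n) * pxD n) * A * sd (pxD n) := by
          rw [← hc]; simp only [Matrix.mul_assoc]
      _ = A * sd (pxD n) := by rw [hp, Matrix.one_mul]
  refine ⟨pxD n * V3_y0 n * sd (pxD n), ?_, ?_, ?_, ?_⟩
  · calc pxD n * V3_y0 n * sd (pxD n) * sxD n = pxD n * (V3_y0 n * (sd (pxD n) * sxD n)) := by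
          simp only [Matrix.mul_assoc]
      _ = pxD n * ((V3_y0 n * A) * sd (pxD n)) := by
          rw [hc']; simp only [Matrix.mul_assoc]
      _ = P • 1 := by
          rw [h2, Matrix.smul_mul, Matrix.one_mul, Matrix.mul_smul, hp']
  · calc sxD n * (pxD n * V3_y0 n * sd (pxD n)) = ((sxD n * pxD n) * V3_y0 n) * sd (pxD n) := by
          simp only [Matrix.mul_assoc]
      _ = pxD n * (A * V3_y0 n) * sd (pxD n) := by
          rw [← hc]; simp only [Matrix.mul_assoc]
      _ = P • 1 := by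
          rw [h1, Matrix.mul_smul, Matrix.mul_one, Matrix.smul_mul, hp']
  · rw [sd_mul, sd_mul, sd_sd, h3, Matrix.neg_mul, Matrix.mul_neg, Matrix.mul_assoc]
  · intro i j hij
    have h5 : sd (pxD n) * (pxD n * V3_y0 n * sd (pxD n)) * pxD n = V3_y0 n := by
      calc sd (pxD n) * (pxD n * V3_y0 n * sd (pxD n)) * pxD n =
          (sd (pxD n) * pxD n) * V3_y0 n * (sd (pxD n) * pxD n) := by
            simp only [Matrix.mul_assoc]
        _ = V3_y0 n := by rw [hp, Matrix.one_mul, Matrix.mul_one]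
    rw [h5]
    exact V3_y0_up i j hij

open Classical in
/-- The matrix `𝓎`. -/
noncomputable def yy (n : ℕ) : Matrix (Fin (2 * n)) (Fin (2 * n)) (MvPolynomial (Fin n) ℂ) :=
  if hn : 2 ≤ n then (exists_yy hn).choose else 0

theorem yy_sx (hn : 2 ≤ n) :
    yy n * sxD n = (∏ k, MvPolynomial.X k : MvPolynomial (Fin n) ℂ) • 1 := by
  unfold yy
  rw [dif_pos hn]
  exact (exists_yy hn).choose_spec.1

theorem sx_yy (hn : 2 ≤ n) :
    sxD n * yy n = (∏ k, MvPolynomial.X k : MvPolynomial (Fin n) ℂ) • 1 := by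
  unfold yy
  rw [dif_pos hn]
  exact (exists_yy hn).choose_spec.2.1

theorem sd_yy (hn : 2 ≤ n) : sd (yy n) = - yy n := by
  unfold yy
  rw [dif_pos hn]
  exact (exists_yy hn).choose_spec.2.2.1

theorem yy_up (hn : 2 ≤ n) (i j : Fin (2 * n)) (h : j < i) :
    (sd (pxD n) * yy n * pxD n) i j = 0 := by
  unfold yy
  rw [dif_pos hn]
  exact (exists_yy hn).choose_spec.2.2.2 i j h

/-- `𝓎 w_a = pl_a w_a`: multiply by `yl X a` and cancel. -/
theorem yy_wv (hn : 2 ≤ n) (a : Lab n) :
    (yy n).mulVec (wv a) = pl (XP n) a • wv a := by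
  have h1 : (yy n).mulVec ((sxD n).mulVec (wv a)) =
      (∏ k, MvPolynomial.X k : MvPolynomial (Fin n) ℂ) • wv a := by
    rw [Matrix.mulVec_mulVec, yy_sx hn, Matrix.smul_mulVec, Matrix.one_mulVec]
  rw [wv_eig hn, Matrix.mulVec_smul] at h1
  have h2 : (∏ k, MvPolynomial.X k : MvPolynomial (Fin n) ℂ) = yl (XP n) a * pl (XP n) a :=
    (yl_mul_pl (XP n) a).symm
  rw [h2] at h1
  have h3 : yl (XP n) a ≠ 0 := by
    intro h0
    rw [h0, zero_mul] at h2
    exact V3_prod_ne h2
  funext i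
  have h4 := congrFun h1 i
  rw [Pi.smul_apply, Pi.smul_apply, smul_eq_mul, smul_eq_mul, mul_assoc] at h4
  rw [Pi.smul_apply, smul_eq_mul]
  exact mul_left_cancel₀ h3 h4

/-- `𝓎` is invariant under the reflections. -/
theorem yy_sr (hn : 2 ≤ n) (β : RD n) :
    (yy n).map (MvPolynomial.aeval ((DD n).sr β (XP n)) :
      MvPolynomial (Fin n) ℂ →ₐ[ℂ] MvPolynomial (Fin n) ℂ) = yy n := by
  set φ : MvPolynomial (Fin n) ℂ →ₐ[ℂ] MvPolynomial (Fin n) ℂ :=
    MvPolynomial.aeval ((DD n).sr β (XP n)) with hφ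
  have hdet : (sxD n).det ≠ 0 := V3_det_ne V3_prod_ne (sx_yy hn)
  apply V3_cancel_right hdet
  have h1 : ((yy n) * sxD n).map φ = ((∏ k, MvPolynomial.X k : MvPolynomial (Fin n) ℂ) •
      (1 : Matrix (Fin (2 * n)) (Fin (2 * n)) (MvPolynomial (Fin n) ℂ))).map φ := by
    rw [yy_sx hn]
  rw [Matrix.map_mul] at h1
  have h2 : (sxD n).map φ = sxD n := sxD_sr hn β
  have h3 : φ (∏ k, MvPolynomial.X k : MvPolynomial (Fin n) ℂ) = ∏ k, MvPolynomial.X k := by
    rw [map_prod, hφ]
    simp only [MvPolynomial.aeval_X]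
    exact prod_sr hn β (XP n)
  have h4 : ((∏ k, MvPolynomial.X k : MvPolynomial (Fin n) ℂ) •
      (1 : Matrix (Fin (2 * n)) (Fin (2 * n)) (MvPolynomial (Fin n) ℂ))).map φ =
      (∏ k, MvPolynomial.X k : MvPolynomial (Fin n) ℂ) • 1 := by
    ext1 i j
    have e1 : (((∏ k, MvPolynomial.X k : MvPolynomial (Fin n) ℂ) •
      (1 : Matrix (Fin (2 * n)) (Fin (2 * n)) (MvPolynomial (Fin n) ℂ)) :
        Matrix (Fin (2 * n)) (Fin (2 * n)) (MvPolynomial (Fin n) ℂ))) i j =
        (∏ k, MvPolynomial.X k : MvPolynomial (Fin n) ℂ) * if i = j then 1 else 0 := by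
      rw [Matrix.smul_apply, smul_eq_mul, Matrix.one_apply]
    rw [Matrix.map_apply, e1, map_mul, h3]
    split_ifs
    · rw [map_one]
    · rw [map_zero]
  rw [h2, h4] at h1
  rw [h1, yy_sx hn]

/-- The matrix `𝓎` at a point. -/
noncomputable def yyC (n : ℕ) (x : Fin n → ℂ) : Matrix (Fin (2 * n)) (Fin (2 * n)) ℂ :=
  (yy n).map (MvPolynomial.eval x)

/-- `𝓎` in the basis `qC x`: it is diagonal.  Proof: the diagonal entries of the upper triangular
matrix `M = sd px * yy * px` satisfy `M_ii * ev (wtD i) X = ∏ X`, so `M_ii = pl X (lb i)`.  At a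
regular point `x`, `N = ueC⁻¹ M(x) ueC = qC⁻¹ yyC qC` is upper triangular with the same diagonal,
`sd N = -N`, and it commutes with `Dx x`; so `N i j = 0` for `i ≠ j` unless
`ev (wtD i) x = ev (wtD j) x`, which by regularity happens only for `j = rev i`; and
`N i (rev i) = 0` since `sd N = - N`. -/
theorem yy_q (hn : 2 ≤ n) {x : Fin n → ℂ} (hx : (DD n).Reg x) :
    yyC n x * (DD n).qC x = (DD n).qC x * Matrix.diagonal fun i => pl x (lb i) := by
  have A := ax hn
  -- the polynomial matrix `M`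
  set M : Matrix (Fin (2 * n)) (Fin (2 * n)) (MvPolynomial (Fin n) ℂ) :=
    sd (pxD n) * yy n * pxD n with hM
  have hup : Up M := fun i j h => yy_up hn i j h
  have hp := px_sd hn
  set B : Matrix (Fin (2 * n)) (Fin (2 * n)) (MvPolynomial (Fin n) ℂ) :=
    (eD n).map MvPolynomial.C + Matrix.diagonal fun i => ev (wtD i) MvPolynomial.X with hB
  have hc : pxD n * B = sxD n * pxD n := px_conj0 hn
  have hMB : M * B = (∏ k, MvPolynomial.X k : MvPolynomial (Fin n) ℂ) • 1 := by
    calc M * B = sd (pxD n) * (yy n * (pxD n * B)) := by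
          rw [hM]; simp only [Matrix.mul_assoc]
      _ = sd (pxD n) * ((yy n * sxD n) * pxD n) := by
          rw [hc]; simp only [Matrix.mul_assoc]
      _ = (∏ k, MvPolynomial.X k : MvPolynomial (Fin n) ℂ) • 1 := by
          rw [yy_sx hn, Matrix.smul_mul, Matrix.one_mul, Matrix.mul_smul, hp]
  have he0 : ∀ i j : Fin (2 * n), j ≤ i → eD n i j = 0 := by
    intro i j hij
    have hij' : (j : ℕ) ≤ i := hij
    simp only [eD, Matrix.of_apply]
    rw [if_neg (by omega), if_neg (by omega)]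
  have hBup : Up B := by
    intro i j hij
    rw [hB, Matrix.add_apply, Matrix.map_apply, he0 i j (le_of_lt hij), map_zero, zero_add,
      Matrix.diagonal_apply_ne _ (ne_of_gt hij)]
  have hMd : ∀ i, M i i = pl (XP n) (lb i) := by
    intro i
    have h1 := hup.diag_mul hBup i
    have h2 : B i i = yl (XP n) (lb i) := by
      rw [hB, Matrix.add_apply, Matrix.map_apply, he0 i i le_rfl, map_zero, zero_add,
        Matrix.diagonal_apply_eq, ← ev_ix, ix_lb]
    have h5 : (∏ k, MvPolynomial.X k : MvPolynomial (Fin n) ℂ) =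
        yl (XP n) (lb i) * pl (XP n) (lb i) := (yl_mul_pl (XP n) (lb i)).symm
    have h6 : yl (XP n) (lb i) ≠ 0 := by
      intro h0
      rw [h0, zero_mul] at h5
      exact V3_prod_ne h5
    rw [hMB, Matrix.smul_apply, Matrix.one_apply_eq, smul_eq_mul, mul_one, h2, h5, mul_comm] at h1
    exact (mul_right_cancel₀ h6 h1).symm
  -- specialisation
  set Mx : Matrix (Fin (2 * n)) (Fin (2 * n)) ℂ := M.map (MvPolynomial.eval x) with hMx
  have hMxd : ∀ i, Mx i i = pl x (lb i) := by
    intro i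
    rw [hMx, Matrix.map_apply, hMd i, ← pl_map (MvPolynomial.eval x) (XP n) (lb i)]
    congr 1
    funext k
    exact MvPolynomial.eval_X k
  have hMxup : Up Mx := by
    intro i j hij
    rw [hMx, Matrix.map_apply, hup i j hij, map_zero]
  have hMxe : Mx = sd ((DD n).pC x) * yyC n x * (DD n).pC x := by
    rw [hMx, hM, Matrix.map_mul, Matrix.map_mul]
    rfl
  have hpC : sd ((DD n).pC x) * (DD n).pC x = 1 := ((isG_iff _).1 (A.pC_isG x)).1
  have huC : sd ((DD n).ueC x) * (DD n).ueC x = 1 := ((isG_iff _).1 (A.ueC_isG x)).1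
  have hqC : sd ((DD n).qC x) * (DD n).qC x = 1 := ((isG_iff _).1 (A.qC_isG x)).1
  have hqC' : (DD n).qC x * sd ((DD n).qC x) = 1 := mul_eq_one_comm.1 hqC
  have huU := A.ueC_upUni x
  have huUp : Up ((DD n).ueC x) := huU.1
  have hsuUp : Up (sd ((DD n).ueC x)) := fun i j hij => huUp _ _ (Fin.rev_lt_rev.2 hij)
  set N : Matrix (Fin (2 * n)) (Fin (2 * n)) ℂ := sd ((DD n).qC x) * yyC n x * (DD n).qC x with hN
  have hN1 : N = sd ((DD n).ueC x) * Mx * (DD n).ueC x := by
    rw [hN, hMxe]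
    unfold Dat.qC
    rw [sd_mul]
    simp only [Matrix.mul_assoc]
  have hNup : Up N := by
    rw [hN1]
    exact (hsuUp.mul hMxup).mul huUp
  have hNd : ∀ i, N i i = pl x (lb i) := by
    intro i
    rw [hN1, (hsuUp.mul hMxup).diag_mul huUp, hsuUp.diag_mul hMxup, hMxd, huU.2, sd_apply, huU.2,
      one_mul, mul_one]
  -- `N` is skew
  have hyC : sd (yyC n x) = - yyC n x := by
    unfold yyC
    rw [sd_map, sd_yy hn]
    ext1 i j
    rw [Matrix.map_apply, Matrix.neg_apply, Matrix.neg_apply, Matrix.map_apply, map_neg]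
  have hNs : sd N = -N := by
    rw [hN, sd_mul, sd_mul, sd_sd, hyC, Matrix.neg_mul, Matrix.mul_neg, Matrix.mul_assoc]
  -- `N` commutes with `x`
  have hcom : yyC n x * (DD n).sC x = (DD n).sC x * yyC n x := by
    have h1 : yy n * sxD n = sxD n * yy n := by rw [yy_sx hn, sx_yy hn]
    have h2 := congrArg (fun T : Matrix (Fin (2 * n)) (Fin (2 * n)) (MvPolynomial (Fin n) ℂ) =>
      T.map (MvPolynomial.eval x)) h1
    simp only [Matrix.map_mul] at h2
    exact h2
  have hq := A.qC_conj hx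
  have hq2 : sd ((DD n).qC x) * (DD n).sC x = (DD n).Dx x * sd ((DD n).qC x) := by
    calc sd ((DD n).qC x) * (DD n).sC x =
        sd ((DD n).qC x) * ((DD n).sC x * (DD n).qC x) * sd ((DD n).qC x) := by
          rw [Matrix.mul_assoc, Matrix.mul_assoc ((DD n).sC x), hqC', Matrix.mul_one]
      _ = (sd ((DD n).qC x) * (DD n).qC x) * (DD n).Dx x * sd ((DD n).qC x) := by
          rw [← hq]; simp only [Matrix.mul_assoc]
      _ = (DD n).Dx x * sd ((DD n).qC x) := by rw [hqC, Matrix.one_mul]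
  have hNc : N * (DD n).Dx x = (DD n).Dx x * N := by
    calc N * (DD n).Dx x = sd ((DD n).qC x) * yyC n x * ((DD n).qC x * (DD n).Dx x) := by
          rw [hN]; simp only [Matrix.mul_assoc]
      _ = sd ((DD n).qC x) * (yyC n x * (DD n).sC x) * (DD n).qC x := by
          rw [hq]; simp only [Matrix.mul_assoc]
      _ = (sd ((DD n).qC x) * (DD n).sC x) * yyC n x * (DD n).qC x := by
          rw [hcom]; simp only [Matrix.mul_assoc]
      _ = (DD n).Dx x * N := by
          rw [hq2, hN]; simp only [Matrix.mul_assoc]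
  have hNdiag : N = Matrix.diagonal fun i => pl x (lb i) := by
    ext1 i j
    by_cases hij : i = j
    · subst hij
      rw [Matrix.diagonal_apply_eq, hNd]
    · rw [Matrix.diagonal_apply_ne _ hij]
      by_cases hir : i = Fin.rev j
      · have h1 := congrFun (congrFun hNs i) j
        have h2 : Fin.rev i = j := by rw [hir, Fin.rev_rev]
        rw [sd_apply, ← hir, h2, Matrix.neg_apply] at h1
        have h3 : (2 : ℂ) * N i j = 0 := by linear_combination h1
        exact (mul_eq_zero.1 h3).resolve_left two_ne_zero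
      · have h1 := congrFun (congrFun hNc i) j
        unfold Dat.Dx at h1
        rw [Matrix.mul_diagonal, Matrix.diagonal_mul] at h1
        obtain ⟨γ, hγ⟩ := exists_rt i j hij hir
        have h2 : ev ((DD n).rt γ) x ≠ 0 := hx γ
        have h3 : ev ((DD n).wt i) x - ev ((DD n).wt j) x ≠ 0 := by
          rw [← ev_sub_left]
          change ev (wtD i - wtD j) x ≠ 0
          rcases hγ with h | h
          · rw [h]
            exact h2
          · rw [h, ev_neg_left]
            exact neg_ne_zero.2 h2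
        have h4 : (ev ((DD n).wt i) x - ev ((DD n).wt j) x) * N i j = 0 := by
          linear_combination -h1
        exact (mul_eq_zero.1 h4).resolve_left h3
  calc yyC n x * (DD n).qC x = (DD n).qC x * N := by
        rw [hN, ← Matrix.mul_assoc, ← Matrix.mul_assoc, hqC', Matrix.one_mul]
    _ = (DD n).qC x * Matrix.diagonal fun i => pl x (lb i) := by rw [hNdiag]

end Pool.Agent.MTD.TD
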