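import Pool.Agent.MTD.Weyl

/-! # MTD : leading weights, walls, clearing denominators

Port of `Pool/Agent/MP_c45d35_ag/Walls.lean` and `PoleA.lean`. -/

namespace Pool.Agent.MTD

open Matrix Filter Topology
open Pool.Agent.MP_c45d35_ag (chi UpUni LowUni chi_add chi_mul chi_zero chi_one chi_inv chi_map)

section lead
variable {n N : ℕ} {ι : Type} [Fintype ι] {D : Dat n N ι} {b : ℕ}

theorem ev_cr_sub_smul (A : Ax D) (β : ι) (μ : Fin n → ℤ) (k : ℤ) :
    ev (D.cr β) (μ - k • D.rt β) = ev (D.cr β) μ - k * 2 := by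
  rw [ev_sub]
  have : ev (D.cr β) (k • D.rt β) = k * ev (D.cr β) (D.rt β) := ev_smul _ _ _
  rw [this, A.cr_rt]

/-- adding a positive multiple of a root increases the lexicographic order -/
theorem lex_lt_add (A : Ax D) (β : ι) (μ : Fin n → ℤ) (k : ℤ) (hk : 0 < k) :
    toLex μ < toLex (μ + k • D.rt β) := by
  have h1 := A.lexpos β
  obtain ⟨j, rfl⟩ : ∃ j : ℕ, k = j := ⟨k.toNat, by rw [Int.toNat_of_nonneg hk.le]⟩
  have hj : j ≠ 0 := by
    rintro rfl
    exact lt_irrefl _ hk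
  have h2 : 0 < toLex ((j : ℤ) • D.rt β) := by
    rw [natCast_zsmul]
    have : toLex (j • D.rt β) = j • toLex (D.rt β) := rfl
    rw [this]
    exact nsmul_pos h1 hj
  have h3 : toLex μ + 0 < toLex μ + toLex ((j : ℤ) • D.rt β) := add_lt_add_right h2 _
  rw [add_zero, ← toLex_add] at h3
  exact h3

/-- the leading weight -/
def IsLead (D : Dat n N ι) (P : MvPolynomial (Idx N (b + 1)) ℂ) (μ : Fin n → ℤ) : Prop :=
  ∀ κ ∈ supp D P, toLex κ ≤ toLex μ

/-- if `μ` bounds the support lexicographically, then the string `μ - k α` in the support has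
`k ≤ ⟨μ, α^∨⟩` -/
theorem string_bound (A : Ax D) {P : MvPolynomial (Idx N (b + 1)) ℂ} {μ : Fin n → ℤ}
    (hμ : IsLead D P μ) (β : ι) (k : ℤ) (hk : μ - k • D.rt β ∈ supp D P) :
    0 ≤ k ∧ k ≤ ev (D.cr β) μ := by
  constructor
  · by_contra h
    push Not at h
    have h1 := lex_lt_add A β μ (-k) (by linarith)
    have h2 := hμ _ hk
    rw [neg_smul, ← sub_eq_add_neg] at h1
    exact absurd h2 (not_le.2 h1)
  · by_contra h
    push Not at h
    have h1 := sw_mem_supp A β hk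
    unfold Dat.sw at h1
    rw [ev_cr_sub_smul A] at h1
    have h2 : μ - k • D.rt β - (ev (D.cr β) μ - k * 2) • D.rt β =
        μ + (k - ev (D.cr β) μ) • D.rt β := by
      module
    rw [h2] at h1
    exact absurd (hμ _ h1) (not_le.2 (lex_lt_add A β μ _ (by linarith)))

theorem dom_of_lead (A : Ax D) {P : MvPolynomial (Idx N (b + 1)) ℂ} {μ : Fin n → ℤ}
    (hμ : IsLead D P μ) (hm : μ ∈ supp D P) : D.Dom μ := fun β =>
  (string_bound A hμ β 0 (by simpa using hm)).2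

end lead

section walls
variable {n N : ℕ} {ι : Type} {D : Dat n N ι}

/-- the linear form of a wall, as a polynomial -/
noncomputable def ell (D : Dat n N ι) (β : ι) : MvPolynomial (Fin n) ℂ :=
  ev (D.rt β) MvPolynomial.X

/-- projection to the wall -/
noncomputable def phiW (D : Dat n N ι) (β : ι) (k : Fin n) : MvPolynomial (Fin n) ℂ :=
  MvPolynomial.X k - ell D β * MvPolynomial.C ((D.cr β k : ℂ) / 2)

theorem eval_ell (β : ι) (x : Fin n → ℂ) : MvPolynomial.eval x (ell D β) = ev (D.rt β) x := by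
  unfold ell
  rw [ev_map]
  simp

theorem phiW_dvd (β : ι) (k : Fin n) : ∃ q, MvPolynomial.X k - phiW D β k = ell D β * q :=
  ⟨MvPolynomial.C ((D.cr β k : ℂ) / 2), by unfold phiW; ring⟩

theorem ev_cr_cast (A : ∀ β, ev (D.cr β) (D.rt β) = 2) (β : ι) :
    ev (D.rt β) (fun k => (D.cr β k : ℂ)) = 2 := by
  have h := A β
  rw [ev_comm] at h
  have h2 := ev_map (Int.castRingHom ℂ) (D.rt β) (D.cr β)
  rw [h] at h2
  simpa using h2.symm

theorem phiW_ell (A : ∀ β, ev (D.cr β) (D.rt β) = 2) (β : ι) :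
    MvPolynomial.aeval (phiW D β) (ell D β) = 0 := by
  have h1 : MvPolynomial.aeval (phiW D β) (ell D β) = ev (D.rt β) (phiW D β) := by
    unfold ell
    have := ev_map (MvPolynomial.aeval (phiW D β) : MvPolynomial (Fin n) ℂ →ₐ[ℂ] _).toRingHom
      (D.rt β) MvPolynomial.X
    simp only [AlgHom.toRingHom_eq_coe, RingHom.coe_coe, MvPolynomial.aeval_X] at this
    exact this
  rw [h1]
  have h2 : phiW D β = (MvPolynomial.X : Fin n → MvPolynomial (Fin n) ℂ) -
      (ell D β) • fun k => MvPolynomial.C ((D.cr β k : ℂ) / 2) := by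
    funext k
    rfl
  rw [h2, ev_sub, ev_smul]
  have h3 : ev (D.rt β) (fun k => (MvPolynomial.C ((D.cr β k : ℂ) / 2) : MvPolynomial (Fin n) ℂ)) =
      1 := by
    have h4 := ev_map (MvPolynomial.C : ℂ →+* MvPolynomial (Fin n) ℂ) (D.rt β)
      (fun k => (D.cr β k : ℂ) / 2)
    rw [← h4]
    have h5 : ev (D.rt β) (fun k => (D.cr β k : ℂ) / 2) = 1 := by
      have h6 : (fun k => (D.cr β k : ℂ) / 2) = (1 / 2 : ℂ) • fun k => (D.cr β k : ℂ) := by
        funext k
        simp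
        ring
      rw [h6, ev_smul, ev_cr_cast A]
      norm_num
    rw [h5, map_one]
  rw [h3, mul_one]
  exact sub_self _

/-- clearing denominators -/
theorem Rt_clear {Y : Type} {σ : Type*} {X : Y → D.RegX} {S : Set (Y → ℂ)} (v : Y → σ → ℂ)
    (hS : ∀ f ∈ S, ∃ i, f = fun y => v y i) (f : Y → ℂ) (hf : f ∈ Rt D X S) :
    ∃ (L : List ι) (P : MvPolynomial (σ ⊕ Fin n) ℂ), ∀ y,
      (L.map fun β => MvPolynomial.eval (X y).1 (ell D β)).prod * f y =
        MvPolynomial.eval (Sum.elim (v y) (X y).1) P := by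
  classical
  have hlist : ∀ L : List ι, ∀ y,
      MvPolynomial.eval (Sum.elim (v y) (X y).1)
        ((L.map fun β => MvPolynomial.rename (Sum.inr : Fin n → σ ⊕ Fin n) (ell D β)).prod) =
      (L.map fun β => MvPolynomial.eval (X y).1 (ell D β)).prod := by
    intro L y
    induction L with
    | nil => simp
    | cons β L ih =>
      simp only [List.map_cons, List.prod_cons, map_mul, ih, MvPolynomial.eval_rename,
        Sum.elim_comp_inr]
  refine Algebra.adjoin_induction (p := fun f _ => ∃ (L : List ι)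
    (P : MvPolynomial (σ ⊕ Fin n) ℂ), ∀ y,
      (L.map fun β => MvPolynomial.eval (X y).1 (ell D β)).prod * f y =
        MvPolynomial.eval (Sum.elim (v y) (X y).1) P) ?_ ?_ ?_ ?_ hf
  · rintro f ((hf | ⟨k, rfl⟩) | ⟨β, rfl⟩)
    · obtain ⟨i, rfl⟩ := hS f hf
      exact ⟨[], MvPolynomial.X (Sum.inl i), fun y => by simp⟩
    · exact ⟨[], MvPolynomial.X (Sum.inr k), fun y => by simp⟩
    · refine ⟨[β], MvPolynomial.C 1, fun y => ?_⟩
      have h1 := (X y).2 β
      simp only [List.map_cons, List.map_nil, List.prod_cons, List.prod_nil, mul_one, eval_ell,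
        MvPolynomial.eval_C]
      exact mul_inv_cancel₀ h1
  · intro r
    exact ⟨[], MvPolynomial.C r, fun y => by simp [Pi.algebraMap_apply]⟩
  · rintro f g _ _ ⟨L, P, hP⟩ ⟨L', P', hP'⟩
    refine ⟨L ++ L', P * (L'.map fun β => MvPolynomial.rename Sum.inr (ell D β)).prod +
      P' * (L.map fun β => MvPolynomial.rename Sum.inr (ell D β)).prod, fun y => ?_⟩
    rw [map_add, map_mul, map_mul, hlist, hlist, ← hP, ← hP', List.map_append, List.prod_append,
      Pi.add_apply]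
    ring
  · rintro f g _ _ ⟨L, P, hP⟩ ⟨L', P', hP'⟩
    refine ⟨L ++ L', P * P', fun y => ?_⟩
    rw [map_mul, ← hP, ← hP', List.map_append, List.prod_append, Pi.mul_apply]
    ring

/-! ## Generic points of a wall -/

theorem exists_generic {E : Type*} [AddCommGroup E] [Module ℂ E] {κ : Type*} [Finite κ]
    (f : κ → (E →ₗ[ℂ] ℂ)) (hf : ∀ i, f i ≠ 0) : ∃ x, ∀ i, f i x ≠ 0 := by
  by_contra h
  push Not at h
  have : ⋃ i, ((LinearMap.ker (f i) : Submodule ℂ E) : Set E) = Set.univ := by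
    rw [Set.eq_univ_iff_forall]
    intro x
    obtain ⟨i, hi⟩ := h x
    exact Set.mem_iUnion.2 ⟨i, hi⟩
  obtain ⟨i, hi⟩ := Subspace.exists_eq_top_of_iUnion_eq_univ this
  exact hf i (LinearMap.ker_eq_top.1 hi)

/-- `ev μ` as a linear form -/
noncomputable def evLin (μ : Fin n → ℤ) : (Fin n → ℂ) →ₗ[ℂ] ℂ where
  toFun x := ev μ x
  map_add' x y := ev_add μ x y
  map_smul' c x := ev_smul μ c x

theorem evLin_apply (μ : Fin n → ℤ) (x : Fin n → ℂ) : evLin μ x = ev μ x := rfl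

theorem evLin_ne_zero {μ : Fin n → ℤ} (h : μ ≠ 0) : evLin μ ≠ 0 := by
  intro h0
  apply h
  funext k
  have h1 := LinearMap.congr_fun h0 (Pi.single k 1)
  rw [evLin_apply] at h1
  simp only [ev, LinearMap.zero_apply] at h1
  rw [Finset.sum_eq_single k] at h1
  · simpa using h1
  · intro l _ hl
    simp [hl]
  · simp

/-- a weight which vanishes on the wall of `β` is rationally proportional to `β` -/
theorem prop_of_vanish (A : ∀ β, ev (D.cr β) (D.rt β) = 2) (β : ι) (ν : Fin n → ℤ)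
    (h : ∀ x : Fin n → ℂ, ev (D.rt β) x = 0 → ev ν x = 0) :
    ∃ a b : ℤ, a ≠ 0 ∧ a • ν = b • D.rt β := by
  refine ⟨2, ev (D.cr β) ν, two_ne_zero, ?_⟩
  -- apply to `x = 2 y - β(y) cr β`
  by_contra hne
  have h1 : (2 : ℤ) • ν - ev (D.cr β) ν • D.rt β ≠ 0 := fun h0 => hne (sub_eq_zero.1 h0)
  apply evLin_ne_zero h1
  refine LinearMap.ext fun y => ?_
  show ev ((2 : ℤ) • ν - ev (D.cr β) ν • D.rt β) y = 0
  have h2 := h ((2 : ℂ) • y - ev (D.rt β) y • fun k => (D.cr β k : ℂ)) (by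
    rw [ev_sub, ev_smul, ev_smul, ev_cr_cast A]; ring)
  rw [ev_sub, ev_smul, ev_smul] at h2
  have h3 : ev ν (fun k => (D.cr β k : ℂ)) = ((ev (D.cr β) ν : ℤ) : ℂ) := by
    rw [ev_comm]
    have := ev_map (Int.castRingHom ℂ) ν (D.cr β)
    simpa using this.symm
  rw [h3] at h2
  rw [ev_sub_left, ev_smul_left, ev_smul_left]
  push_cast
  linear_combination h2

/-- points of the wall of `β` which are generic also with respect to the weights in `M` -/
def GenM (D : Dat n N ι) (β : ι) (M : Finset (Fin n → ℤ)) (x : Fin n → ℂ) : Prop :=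
  D.GenW β x ∧ ∀ ν ∈ M, (¬ ∃ a b : ℤ, a ≠ 0 ∧ a • ν = b • D.rt β) → ev ν x ≠ 0

variable [Fintype ι]

theorem exists_genM (A : Ax D) (β : ι) (M : Finset (Fin n → ℤ)) : ∃ x, GenM D β M x := by
  classical
  let κ := {γ : ι // γ ≠ β} ⊕ {ν : M // ¬ ∃ a b : ℤ, a ≠ 0 ∧ a • (ν : Fin n → ℤ) = b • D.rt β}
  let w : κ → Fin n → ℤ := Sum.elim (fun γ => D.rt γ.1) (fun ν => ν.1)
  have hw : ∀ i : κ, ¬ ∃ a b : ℤ, a ≠ 0 ∧ a • w i = b • D.rt β := by
    rintro (γ | ν)
    · rintro ⟨a, b, ha, h⟩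
      exact ha (A.rt_indep γ.1 β a b γ.2 h).1
    · exact ν.2
  obtain ⟨x, hx⟩ := exists_generic (E := LinearMap.ker (evLin (D.rt β))) (κ := κ)
    (fun i => (evLin (w i)).comp (LinearMap.ker (evLin (D.rt β))).subtype) (by
      intro i h0
      apply hw i
      refine prop_of_vanish A.cr_rt β (w i) fun x hx => ?_
      exact LinearMap.congr_fun h0 ⟨x, hx⟩)
  refine ⟨x.1, ⟨x.2, fun γ hγ => ?_⟩, fun ν hν h => ?_⟩
  · exact hx (Sum.inl ⟨γ, hγ⟩)
  · exact hx (Sum.inr ⟨⟨ν, hν⟩, h⟩)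

/-- a regular vector exists -/
theorem exists_reg (A : Ax D) : ∃ x : Fin n → ℂ, D.Reg x :=
  exists_generic (κ := ι) (fun β => evLin (D.rt β)) fun β => evLin_ne_zero (A.ne_zero_rt β)

omit [Fintype ι] in
theorem ev_affine_ne (a c : ℂ) (hc : c ≠ 0) : ∀ᶠ t in 𝓝[≠] (0 : ℂ), a + t * c ≠ 0 := by
  by_cases ha : a = 0
  · subst ha
    filter_upwards [self_mem_nhdsWithin] with t ht
    rw [zero_add]
    exact mul_ne_zero ht hc
  · have : ContinuousAt (fun t : ℂ => a + t * c) 0 := by fun_prop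
    have h2 : ∀ᶠ t in 𝓝 (0 : ℂ), a + t * c ≠ 0 :=
      this.eventually_ne (by simpa using ha)
    exact h2.filter_mono nhdsWithin_le_nhds

theorem eventually_reg (x0 v : Fin n → ℂ) (hv : D.Reg v) :
    ∀ᶠ t in 𝓝[≠] (0 : ℂ), D.Reg (x0 + t • v) := by
  unfold Dat.Reg
  rw [eventually_all]
  intro β
  filter_upwards [ev_affine_ne (ev (D.rt β) x0) (ev (D.rt β) v) (hv β)] with t ht
  rw [ev_add_smul]
  exact ht

theorem eventually_genM (β : ι) (M : Finset (Fin n → ℤ)) (x x1 : Fin n → ℂ)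
    (hx : ev (D.rt β) x = 0) (hx1 : GenM D β M x1) :
    ∀ᶠ t in 𝓝[≠] (0 : ℂ), GenM D β M (x + t • x1) := by
  have h1 : ∀ᶠ t in 𝓝[≠] (0 : ℂ), ∀ γ, γ ≠ β → ev (D.rt γ) (x + t • x1) ≠ 0 := by
    rw [eventually_all]
    intro γ
    rw [eventually_imp_distrib_left]
    intro h
    filter_upwards [ev_affine_ne (ev (D.rt γ) x) (ev (D.rt γ) x1) (hx1.1.2 γ h)] with t ht
    rw [ev_add_smul]
    exact ht
  have h2 : ∀ᶠ t in 𝓝[≠] (0 : ℂ), ∀ ν ∈ M, (¬ ∃ a b : ℤ, a ≠ 0 ∧ a • ν = b • D.rt β) →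
      ev ν (x + t • x1) ≠ 0 := by
    rw [Filter.eventually_all_finset]
    intro ν hν
    rw [eventually_imp_distrib_left]
    intro h
    filter_upwards [ev_affine_ne (ev ν x) (ev ν x1) (hx1.2 ν hν h)] with t ht
    rw [ev_add_smul]
    exact ht
  filter_upwards [h1, h2] with t ht ht2
  exact ⟨⟨by rw [ev_add_smul, hx, hx1.1.1]; simp, ht⟩, ht2⟩

/-! ## The Euler class `Eu` -/

/-- `Eu_λ(x) = ∏_β β(x)^{⟨λ, β^∨⟩}`. -/
def Eu (D : Dat n N ι) (lam : Fin n → ℤ) (x : Fin n → ℂ) : ℂ :=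
  ∏ β, ev (D.rt β) x ^ (ev (D.cr β) lam).toNat

theorem Eu_ne_zero (lam : Fin n → ℤ) {x : Fin n → ℂ} (hx : D.Reg x) : Eu D lam x ≠ 0 :=
  Finset.prod_ne_zero_iff.2 fun β _ => pow_ne_zero _ (hx β)

theorem Eu_zero (x : Fin n → ℂ) : Eu D 0 x = 1 := by
  unfold Eu
  refine Finset.prod_eq_one fun β _ => ?_
  have : ev (D.cr β) (0 : Fin n → ℤ) = 0 := ev_zero _
  rw [this]
  simp

theorem Eu_add {lam lam' : Fin n → ℤ} (h : D.Dom lam) (h' : D.Dom lam') (x : Fin n → ℂ) :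
    Eu D (lam + lam') x = Eu D lam x * Eu D lam' x := by
  unfold Eu
  rw [← Finset.prod_mul_distrib]
  refine Finset.prod_congr rfl fun β _ => ?_
  rw [← pow_add]
  congr 1
  have : ev (D.cr β) (lam + lam') = ev (D.cr β) lam + ev (D.cr β) lam' := ev_add _ _ _
  rw [this]
  exact Int.toNat_add (h β) (h' β)

/-- order of vanishing of `Eu` along a wall -/
theorem Eu_order (β : ι) (lam : Fin n → ℤ) (x v : Fin n → ℂ) (hx : ev (D.rt β) x = 0) :
    ∃ E : ℂ → ℂ, Continuous E ∧ ∀ t, Eu D lam (x + t • v) =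
      t ^ (ev (D.cr β) lam).toNat * E t := by
  classical
  refine ⟨fun t => ev (D.rt β) v ^ (ev (D.cr β) lam).toNat *
    ∏ γ ∈ Finset.univ.erase β, (ev (D.rt γ) x + t * ev (D.rt γ) v) ^ (ev (D.cr γ) lam).toNat,
    by fun_prop, fun t => ?_⟩
  unfold Eu
  rw [← Finset.mul_prod_erase Finset.univ _ (Finset.mem_univ β)]
  simp only [ev_add_smul]
  rw [hx, zero_add, mul_pow, mul_assoc]

theorem Rt_Eu {Y : Type} (X : Y → D.RegX) (S : Set (Y → ℂ)) (lam : Fin n → ℤ) :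
    (fun y => Eu D lam (X y).1) ∈ Rt D X S := by
  have : (fun y => Eu D lam (X y).1) =
      ∏ β, (fun y => ev (D.rt β) (X y).1) ^ (ev (D.cr β) lam).toNat := by
    funext y
    rw [Finset.prod_apply]
    rfl
  rw [this]
  exact Subalgebra.prod_mem _ fun β _ => Subalgebra.pow_mem _ (Rt_ev X S _) _

end walls

end Pool.Agent.MTD
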