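import Pool.Agent.MTD.X0

/-! # MTD : `G_2`, finite checks (row X1) -/

namespace Pool.Agent.MTD.G2

open Matrix
open Pool.Agent.MP_c45d35_ag (chi UpUni LowUni IsHess Jm em fm)

theorem wt_inj : Function.Injective wtG := by
  decide

theorem wt_std (k : Fin 2) : ∃ i, wtG i = Pi.single k 1 := by
  revert k
  decide

theorem rt_indep (β γ : Fin 6) (a b : ℤ) (hne : β ≠ γ) (h : a • rtG β = b • rtG γ) :
    a = 0 ∧ b = 0 := by
  have h0 : a * rtG β 0 = b * rtG γ 0 := congrFun h 0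
  have h1 : a * rtG β 1 = b * rtG γ 1 := congrFun h 1
  have hd : rtG β 0 * rtG γ 1 - rtG β 1 * rtG γ 0 ≠ 0 := by
    clear h h0 h1
    revert β γ
    decide
  constructor
  · have h2 : a * (rtG β 0 * rtG γ 1 - rtG β 1 * rtG γ 0) = 0 := by
      linear_combination rtG γ 1 * h0 - rtG γ 0 * h1
    exact (mul_eq_zero.1 h2).resolve_right hd
  · have h2 : b * (rtG β 0 * rtG γ 1 - rtG β 1 * rtG γ 0) = 0 := by
      linear_combination rtG β 1 * h0 - rtG β 0 * h1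
    exact (mul_eq_zero.1 h2).resolve_right hd

theorem lexpos (β : Fin 6) : 0 < toLex (rtG β) := by
  have h : ∃ k : Fin 2, (∀ j, j < k → 0 = rtG β j) ∧ 0 < rtG β k := by
    revert β
    decide
  obtain ⟨k, h1, h2⟩ := h
  exact ⟨k, h1, h2⟩

theorem cr_rt (β : Fin 6) : ev (crG β) (rtG β) = 2 := by
  revert β
  decide

theorem cr_sep (μ : Fin 2 → ℤ) (h : ∀ β, ev (crG β) μ = 0) : μ = 0 := by
  have h0 := h 0
  have h1 := h 1
  simp only [ev, Fin.sum_univ_two, crG] at h0 h1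
  norm_num at h0 h1
  funext k
  fin_cases k
  · simp only [Fin.zero_eta, Pi.zero_apply]
    rw [h1] at h0
    simpa using h0
  · simpa using h1

theorem refl_rt (β γ : Fin 6) :
    ∃ γ' : Fin 6, DG.sw β (rtG γ) = rtG γ' ∨ DG.sw β (rtG γ) = - rtG γ' := by
  change ∃ γ' : Fin 6, rtG γ - ev (crG β) (rtG γ) • rtG β = rtG γ' ∨
    rtG γ - ev (crG β) (rtG γ) • rtG β = - rtG γ'
  revert β γ
  decide

/-- The root vectors over `ℤ`. -/
def x1_E : Fin 6 → Fin 7 → Fin 7 → ℤ := ![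
  fun i j => if (i, j) = (0, 1) ∨ (i, j) = (2, 3) ∨ (i, j) = (3, 4) ∨ (i, j) = (5, 6) then 1
    else 0,
  fun i j => if (i, j) = (1, 2) ∨ (i, j) = (4, 5) then 1 else 0,
  fun i j => if (i, j) = (1, 3) ∨ (i, j) = (4, 6) then 1
    else if (i, j) = (0, 2) ∨ (i, j) = (3, 5) then -1 else 0,
  fun i j => if (i, j) = (0, 3) ∨ (i, j) = (3, 6) then 2
    else if (i, j) = (1, 4) ∨ (i, j) = (2, 5) then -1 else 0,
  fun i j => if (i, j) = (2, 6) then 1 else if (i, j) = (0, 4) then -1 else 0,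
  fun i j => if (i, j) = (0, 5) ∨ (i, j) = (1, 6) then 1 else 0]

theorem x1_EG (β : Fin 6) (i j : Fin 7) : EG β i j = (x1_E β i j : ℂ) := by
  fin_cases β
  · change (if (i, j) = (0, 1) ∨ (i, j) = (2, 3) ∨ (i, j) = (3, 4) ∨ (i, j) = (5, 6) then (1 : ℂ)
      else 0) = ((if (i, j) = (0, 1) ∨ (i, j) = (2, 3) ∨ (i, j) = (3, 4) ∨ (i, j) = (5, 6) then 1
      else 0 : ℤ) : ℂ)
    push_cast
    rfl
  · change (if (i, j) = (1, 2) ∨ (i, j) = (4, 5) then (1 : ℂ) else 0) =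
      ((if (i, j) = (1, 2) ∨ (i, j) = (4, 5) then 1 else 0 : ℤ) : ℂ)
    push_cast
    rfl
  · change (if (i, j) = (1, 3) ∨ (i, j) = (4, 6) then (1 : ℂ)
      else if (i, j) = (0, 2) ∨ (i, j) = (3, 5) then -1 else 0) =
      ((if (i, j) = (1, 3) ∨ (i, j) = (4, 6) then 1
      else if (i, j) = (0, 2) ∨ (i, j) = (3, 5) then -1 else 0 : ℤ) : ℂ)
    push_cast
    rfl
  · change (if (i, j) = (0, 3) ∨ (i, j) = (3, 6) then (2 : ℂ)
      else if (i, j) = (1, 4) ∨ (i, j) = (2, 5) then -1 else 0) =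
      ((if (i, j) = (0, 3) ∨ (i, j) = (3, 6) then 2
      else if (i, j) = (1, 4) ∨ (i, j) = (2, 5) then -1 else 0 : ℤ) : ℂ)
    push_cast
    rfl
  · change (if (i, j) = (2, 6) then (1 : ℂ) else if (i, j) = (0, 4) then -1 else 0) =
      ((if (i, j) = (2, 6) then 1 else if (i, j) = (0, 4) then -1 else 0 : ℤ) : ℂ)
    push_cast
    rfl
  · change (if (i, j) = (0, 5) ∨ (i, j) = (1, 6) then (1 : ℂ) else 0) =
      ((if (i, j) = (0, 5) ∨ (i, j) = (1, 6) then 1 else 0 : ℤ) : ℂ)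
    push_cast
    rfl

theorem E_supp (β : Fin 6) (i j : Fin 7) (h : EG β i j ≠ 0) :
    (j : ℕ) = (i : ℕ) + depG β ∧ wtG i - wtG j = rtG β := by
  have h1 : x1_E β i j ≠ 0 := by
    intro h2
    apply h
    rw [x1_EG, h2, Int.cast_zero]
  clear h
  revert β i j
  decide +kernel

theorem E_ne (β : Fin 6) : EG β ≠ 0 := by
  have h : ∃ i j, x1_E β i j ≠ 0 := by
    revert β
    decide
  obtain ⟨i, j, hij⟩ := h
  intro h0
  apply hij
  have h1 : EG β i j = 0 := by rw [h0]; rfl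
  rw [x1_EG] at h1
  exact_mod_cast h1

theorem dep_pos (β : Fin 6) : 0 < depG β := by
  revert β
  decide

/-- The roots are primitive vectors of `ℤ^2`: `z = 1`. -/
theorem zc (β : Fin 6) : ∃ z : Fin 2 → ℂˣ, (∀ γ, chi (rtG γ) z = 1) ∧
    ∀ ν : Fin 2 → ℤ, (∃ a b : ℤ, a ≠ 0 ∧ a • ν = b • rtG β) → chi ν z = 1 →
      ∃ k : ℤ, ν = k • rtG β := by
  refine ⟨1, fun γ => by simp [chi], ?_⟩
  rintro ν ⟨a, b, ha, hab⟩ -
  have h0 : a * ν 0 = b * rtG β 0 := congrFun hab 0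
  have h1 : a * ν 1 = b * rtG β 1 := congrFun hab 1
  -- a linear form which is 1 on the root
  have hc : ∃ u v : Fin 3, ((u : ℕ) - 1 : ℤ) * rtG β 0 + ((v : ℕ) - 1 : ℤ) * rtG β 1 = 1 := by
    clear h0 h1 hab
    revert β
    decide
  obtain ⟨u, v, huv⟩ := hc
  set U : ℤ := (u : ℕ) - 1 with hU
  set V : ℤ := (v : ℕ) - 1 with hV
  refine ⟨U * ν 0 + V * ν 1, ?_⟩
  have h2 : ν 0 * rtG β 1 - ν 1 * rtG β 0 = 0 := by
    have h3 : a * (ν 0 * rtG β 1 - ν 1 * rtG β 0) = 0 := by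
      linear_combination rtG β 1 * h0 - rtG β 0 * h1
    exact (mul_eq_zero.1 h3).resolve_left ha
  funext k
  fin_cases k
  · change ν 0 = (U * ν 0 + V * ν 1) * rtG β 0
    linear_combination -ν 0 * huv + V * h2
  · change ν 1 = (U * ν 0 + V * ν 1) * rtG β 1
    linear_combination -ν 1 * huv - U * h2

/-- Distinct weights differ by a multiple of a root. -/
theorem wt_sub (i j : Fin 7) (h : i ≠ j) : ∃ (β : Fin 6) (c : ℤ), c ≠ 0 ∧
    wtG i - wtG j = c • rtG β := by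
  have h1 : ∃ β : Fin 6, ∃ c : Fin 5, ((c : ℕ) - 2 : ℤ) ≠ 0 ∧
      wtG i - wtG j = ((c : ℕ) - 2 : ℤ) • rtG β := by
    revert i j
    decide +kernel
  obtain ⟨β, c, h2, h3⟩ := h1
  exact ⟨β, _, h2, h3⟩

/-- Every positive root is a difference of two distinct weights. -/
theorem rt_eq (β : Fin 6) : ∃ i j : Fin 7, i ≠ j ∧ rtG β = wtG i - wtG j := by
  revert β
  decide

/-- For regular `x` the eigenvalues are distinct. -/
theorem ev_inj (x : Fin 2 → ℂ) (hx : ∀ β, ev (rtG β) x ≠ 0) :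
    Function.Injective fun i => ev (wtG i) x := by
  intro i j hij
  by_contra hne
  obtain ⟨β, c, hc, hβ⟩ := wt_sub i j hne
  have h1 : ev (wtG i - wtG j) x = 0 := by
    rw [ev_sub_left]
    exact sub_eq_zero.2 hij
  rw [hβ, ev_smul_left] at h1
  rcases mul_eq_zero.1 h1 with h2 | h2
  · exact hc (by exact_mod_cast h2)
  · exact hx β h2

theorem x1_Y {R : Type*} [CommRing R] [Algebra ℂ R] (Z : Fin 6 → R) (i j : Fin 7) :
    DG.Y Z i j = ∑ β, Z β * (x1_E β i j : R) := by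
  unfold Dat.Y
  rw [Matrix.sum_apply]
  refine Finset.sum_congr rfl fun β _ => ?_
  rw [Matrix.smul_apply, Matrix.map_apply, smul_eq_mul]
  change Z β * algebraMap ℂ R (EG β i j) = _
  rw [x1_EG, map_intCast]

/-- Entries of `Y Z`. -/
theorem x1_Y_eq {R : Type*} [CommRing R] [Algebra ℂ R] (Z : Fin 6 → R) : DG.Y Z =
    !![0, Z 0, -Z 2, 2 * Z 3, -Z 4, Z 5, 0;
       0, 0, Z 1, Z 2, -Z 3, 0, Z 5;
       0, 0, 0, Z 0, 0, -Z 3, Z 4;
       0, 0, 0, 0, Z 0, -Z 2, 2 * Z 3;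
       0, 0, 0, 0, 0, Z 1, Z 2;
       0, 0, 0, 0, 0, 0, Z 0;
       0, 0, 0, 0, 0, 0, 0] := by
  ext i j
  rw [x1_Y, Fin.sum_univ_six]
  fin_cases i <;> fin_cases j <;> simp [x1_E, mul_comm]

/-- The principal nilpotent of the data is `em`. -/
theorem e_eq {R : Type*} [CommRing R] [Algebra ℂ R] :
    DG.Y (fun β => algebraMap ℂ R (DG.ze β)) = em R 7 := by
  have hz : (fun β => algebraMap ℂ R (DG.ze β)) = ![1, 1, 0, 0, 0, 0] := by
    funext β
    change algebraMap ℂ R ((![1, 1, 0, 0, 0, 0] : Fin 6 → ℂ) β) = _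
    fin_cases β <;> simp
  rw [hz, x1_Y_eq]
  ext i j
  fin_cases i <;> fin_cases j <;> simp [Pool.Agent.MP_c45d35_ag.em]

/-- Entries of `Y Z`. -/
theorem Y_eq {R : Type*} [CommRing R] [Algebra ℂ R] (Z : Fin 6 → R) : DG.Y Z =
    !![0, Z 0, -Z 2, 2 * Z 3, -Z 4, Z 5, 0;
       0, 0, Z 1, Z 2, -Z 3, 0, Z 5;
       0, 0, 0, Z 0, 0, -Z 3, Z 4;
       0, 0, 0, 0, Z 0, -Z 2, 2 * Z 3;
       0, 0, 0, 0, 0, Z 1, Z 2;
       0, 0, 0, 0, 0, 0, Z 0;
       0, 0, 0, 0, 0, 0, 0] :=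
  x1_Y_eq Z

end Pool.Agent.MTD.G2
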