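import Pool.Agent.MTD.X2

/-! # MTD : `G_2`, exponentials (row X3) -/

namespace Pool.Agent.MTD.G2

open Matrix
open Pool.Agent.MP_c45d35_ag (chi UpUni LowUni IsHess Jm em fm)

/-! ### Integral models -/

/-- The root vectors as integral matrices. -/
def EZ : Fin 6 → Matrix (Fin 7) (Fin 7) ℤ := ![
  Matrix.of fun i j => if (i, j) = (0, 1) ∨ (i, j) = (2, 3) ∨ (i, j) = (3, 4) ∨ (i, j) = (5, 6) then 1
    else 0,
  Matrix.of fun i j => if (i, j) = (1, 2) ∨ (i, j) = (4, 5) then 1 else 0,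
  Matrix.of fun i j => if (i, j) = (1, 3) ∨ (i, j) = (4, 6) then 1
    else if (i, j) = (0, 2) ∨ (i, j) = (3, 5) then -1 else 0,
  Matrix.of fun i j => if (i, j) = (0, 3) ∨ (i, j) = (3, 6) then 2
    else if (i, j) = (1, 4) ∨ (i, j) = (2, 5) then -1 else 0,
  Matrix.of fun i j => if (i, j) = (2, 6) then 1 else if (i, j) = (0, 4) then -1 else 0,
  Matrix.of fun i j => if (i, j) = (0, 5) ∨ (i, j) = (1, 6) then 1 else 0]

/-- The negative root vectors as integral matrices. -/
def FZ : Fin 6 → Matrix (Fin 7) (Fin 7) ℤ := ![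
  Matrix.of fun i j => if (i, j) = (1, 0) ∨ (i, j) = (6, 5) then 1
    else if (i, j) = (3, 2) ∨ (i, j) = (4, 3) then 2 else 0,
  Matrix.of fun i j => if (i, j) = (2, 1) ∨ (i, j) = (5, 4) then 1 else 0,
  Matrix.of fun i j => if (i, j) = (2, 0) then -1 else if (i, j) = (6, 4) then 1
    else if (i, j) = (3, 1) then 2 else if (i, j) = (5, 3) then -2 else 0,
  Matrix.of fun i j => if (i, j) = (3, 0) ∨ (i, j) = (6, 3) then 2
    else if (i, j) = (4, 1) ∨ (i, j) = (5, 2) then -2 else 0,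
  Matrix.of fun i j => if (i, j) = (4, 0) then -1 else if (i, j) = (6, 2) then 1 else 0,
  Matrix.of fun i j => if (i, j) = (5, 0) ∨ (i, j) = (6, 1) then 1 else 0]

/-- Half of the squares of the negative root vectors. -/
def F2Z : Fin 6 → Matrix (Fin 7) (Fin 7) ℤ := ![
  Matrix.of fun i j => if (i, j) = (4, 2) then 2 else 0,
  0,
  Matrix.of fun i j => if (i, j) = (5, 1) then -2 else 0,
  Matrix.of fun i j => if (i, j) = (6, 0) then 2 else 0,
  0,
  0]

/-- The matrix entries of the derivative of the form. -/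
def JL {R : Type*} [CommRing R] (X : Matrix (Fin 7) (Fin 7) R) (i j : Fin 7) : R :=
  (Xᵀ * Jm R 7 + Jm R 7 * X) i j

/-- An entry of a matrix. -/
def ent {R : Type*} (X : Matrix (Fin 7) (Fin 7) R) (i j : Fin 7) : R := X i j

/-- The weights as diagonal matrices. -/
def DZ (k : Fin 2) : Matrix (Fin 7) (Fin 7) ℤ := Matrix.diagonal fun i => wtG i k

theorem DZ_D3 : ∀ (n : Fin 2) (i j k : Fin 7), D3 (DZ n) i j k = 0 := by
  decide +kernel

theorem DZ_J : ∀ (n : Fin 2) (i j : Fin 7), JL (DZ n) i j = 0 := by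
  decide +kernel

theorem EZ_D3 : ∀ (n : Fin 6) (i j k : Fin 7), D3 (EZ n) i j k = 0 := by
  decide +kernel

theorem FZ_D3 : ∀ (n : Fin 6) (i j k : Fin 7), D3 (FZ n) i j k = 0 := by
  decide +kernel

theorem EZ_J : ∀ (n : Fin 6) (i j : Fin 7), JL (EZ n) i j = 0 := by
  decide +kernel

theorem FZ_J : ∀ (n : Fin 6) (i j : Fin 7), JL (FZ n) i j = 0 := by
  decide +kernel

theorem EZ_up : ∀ (n : Fin 6) (i j : Fin 7), j ≤ i → ent (EZ n) i j = 0 := by
  decide +kernel

theorem FZ_low : ∀ (n : Fin 6) (i j : Fin 7), i ≤ j → ent (FZ n) i j = 0 ∧ ent (F2Z n) i j = 0 := by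
  decide +kernel

theorem FZ_sq : ∀ (n : Fin 6) (i j : Fin 7), ent (FZ n * FZ n) i j = 2 * ent (F2Z n) i j := by
  decide +kernel

theorem FZ_cube : ∀ (n : Fin 6) (i j : Fin 7), ent (FZ n * FZ n * FZ n) i j = 0 := by
  decide +kernel

section
variable {R : Type*} [CommRing R]

theorem D3_smul (c : R) (X : Matrix (Fin 7) (Fin 7) R) (i j k : Fin 7) :
    D3 (c • X) i j k = c * D3 X i j k := by
  unfold D3
  rw [Finset.mul_sum]
  refine Finset.sum_congr rfl fun a _ => ?_
  simp only [Matrix.smul_apply, smul_eq_mul]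
  ring

theorem D3_add (X Y : Matrix (Fin 7) (Fin 7) R) (i j k : Fin 7) :
    D3 (X + Y) i j k = D3 X i j k + D3 Y i j k := by
  unfold D3
  rw [← Finset.sum_add_distrib]
  refine Finset.sum_congr rfl fun a _ => ?_
  simp only [Matrix.add_apply]
  ring

theorem D3_zero (i j k : Fin 7) : D3 (0 : Matrix (Fin 7) (Fin 7) R) i j k = 0 := by
  unfold D3
  simp

theorem D3_sum {ι : Type*} (s : Finset ι) (X : ι → Matrix (Fin 7) (Fin 7) R) (i j k : Fin 7) :
    D3 (∑ m ∈ s, X m) i j k = ∑ m ∈ s, D3 (X m) i j k := by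
  classical
  induction s using Finset.induction_on with
  | empty => simp [D3_zero]
  | insert m s hm ih => rw [Finset.sum_insert hm, Finset.sum_insert hm, D3_add, ih]

theorem D3_map (M : Matrix (Fin 7) (Fin 7) ℤ) (i j k : Fin 7) :
    D3 (M.map (Int.cast : ℤ → R)) i j k = ((D3 M i j k : ℤ) : R) := by
  unfold D3
  simp

theorem Jm_map : (Jm ℤ 7).map (Int.cast : ℤ → R) = Jm R 7 := by
  ext i j
  simp only [Jm, Matrix.map_apply, Matrix.of_apply]
  split_ifs <;> simp

theorem JL_map (M : Matrix (Fin 7) (Fin 7) ℤ) (i j : Fin 7) :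
    JL (M.map (Int.cast : ℤ → R)) i j = ((JL M i j : ℤ) : R) := by
  unfold JL
  rw [← Jm_map (R := R)]
  simp [Matrix.mul_apply]

end

section
variable {R : Type*} [CommRing R]

theorem isL_smul (c : R) {X : Matrix (Fin 7) (Fin 7) R} (hX : IsL X) : IsL (c • X) := by
  refine ⟨?_, fun i j k => ?_⟩
  · rw [Matrix.transpose_smul, Matrix.smul_mul, Matrix.mul_smul, ← smul_add, hX.1, smul_zero]
  · rw [D3_smul, hX.2, mul_zero]

theorem isL_map (M : Matrix (Fin 7) (Fin 7) ℤ) (hM : ∀ i j, JL M i j = 0)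
    (hM' : ∀ i j k, D3 M i j k = 0) : IsL (M.map (Int.cast : ℤ → R)) := by
  refine ⟨?_, fun i j k => ?_⟩
  · ext i j
    have h := JL_map (R := R) M i j
    rw [hM, Int.cast_zero] at h
    exact h
  · rw [D3_map, hM', Int.cast_zero]

theorem isL_zero : IsL (0 : Matrix (Fin 7) (Fin 7) R) := by
  refine ⟨by simp, fun i j k => D3_zero i j k⟩

theorem isL_add' {X Y : Matrix (Fin 7) (Fin 7) R} (hX : IsL X) (hY : IsL Y) : IsL (X + Y) := by
  refine ⟨?_, fun i j k => ?_⟩
  · rw [Matrix.transpose_add, Matrix.add_mul, Matrix.mul_add]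
    have h : Xᵀ * Jm R 7 + Yᵀ * Jm R 7 + (Jm R 7 * X + Jm R 7 * Y) =
      (Xᵀ * Jm R 7 + Jm R 7 * X) + (Yᵀ * Jm R 7 + Jm R 7 * Y) := by abel
    rw [h, hX.1, hY.1, add_zero]
  · rw [D3_add, hX.2, hY.2, add_zero]

theorem isL_sum {ι : Type*} (s : Finset ι) (X : ι → Matrix (Fin 7) (Fin 7) R)
    (h : ∀ m ∈ s, IsL (X m)) : IsL (∑ m ∈ s, X m) := by
  classical
  induction s using Finset.induction_on with
  | empty => simpa using isL_zero
  | insert m s hm ih =>
    rw [Finset.sum_insert hm]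
    exact isL_add' (h m (Finset.mem_insert_self _ _))
      (ih fun k hk => h k (Finset.mem_insert_of_mem hk))

end

section
variable {R : Type*} [CommRing R] [Algebra ℂ R]

theorem EG_map (β : Fin 6) : (EG β).map (algebraMap ℂ R) = (EZ β).map (Int.cast : ℤ → R) := by
  have h : EG β = (EZ β).map (Int.cast : ℤ → ℂ) := by
    ext i j
    fin_cases β <;> simp only [EG, EZ, Matrix.map_apply] <;> simp
  rw [h, Matrix.map_map]
  congr 1
  funext z
  simp

/-- The Lie algebra element `Y Z`. -/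
theorem isL_Y (Z : Fin 6 → R) : IsL (DG.Y Z : Matrix (Fin 7) (Fin 7) R) := by
  refine isL_sum _ _ fun β _ => isL_smul _ ?_
  show IsL ((EG β).map (algebraMap ℂ R))
  rw [EG_map]
  exact isL_map _ (EZ_J β) (EZ_D3 β)

theorem isL_Dx (x : Fin 2 → R) : IsL (DG.Dx x : Matrix (Fin 7) (Fin 7) R) := by
  have h : (DG.Dx x : Matrix (Fin 7) (Fin 7) R) =
      ∑ k, x k • (DZ k).map (Int.cast : ℤ → R) := by
    ext i j
    rw [Matrix.sum_apply]
    simp only [Matrix.smul_apply, Matrix.map_apply, smul_eq_mul, DZ]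
    show Matrix.diagonal (fun i => ev (wtG i) x) i j = _
    by_cases hij : i = j
    · subst hij
      simp only [Matrix.diagonal_apply_eq, ev]
      exact Finset.sum_congr rfl fun k _ => mul_comm _ _
    · simp only [Matrix.diagonal_apply_ne _ hij, Int.cast_zero, mul_zero, Finset.sum_const_zero]
  rw [h]
  exact isL_sum _ _ fun k _ => isL_smul _ (isL_map _ (DZ_J k) (DZ_D3 k))

theorem isL_add {X Y : Matrix (Fin 7) (Fin 7) R} (hX : IsL X) (hY : IsL Y) : IsL (X + Y) :=
  isL_add' hX hY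

theorem isL_sub {X Y : Matrix (Fin 7) (Fin 7) R} (hX : IsL X) (hY : IsL Y) : IsL (X - Y) := by
  have h : X - Y = X + (-1 : R) • Y := by rw [neg_one_smul, sub_eq_add_neg]
  rw [h]
  exact isL_add' hX (isL_smul _ hY)

/-- `expN` is the exponential of Mathlib. -/
theorem expN_eq [Module ℚ (Matrix (Fin 7) (Fin 7) R)] {A : Matrix (Fin 7) (Fin 7) R}
    (hn : A ^ 7 = 0) : expN A = IsNilpotent.exp A := by
  rw [IsNilpotent.exp_eq_sum hn]
  unfold expN
  refine Finset.sum_congr rfl fun k _ => ?_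
  have hf : (k.factorial : ℚ) ≠ 0 := by exact_mod_cast k.factorial_ne_zero
  have h1 : (k.factorial : ℚ) • ((algebraMap ℂ R (1 / (k.factorial : ℂ))) • A ^ k) = A ^ k := by
    rw [Nat.cast_smul_eq_nsmul, ← Nat.cast_smul_eq_nsmul R, smul_smul]
    have h2 : ((k.factorial : ℕ) : R) * algebraMap ℂ R (1 / (k.factorial : ℂ)) = 1 := by
      have hc : (k.factorial : ℂ) ≠ 0 := by exact_mod_cast k.factorial_ne_zero
      rw [← map_natCast (algebraMap ℂ R), ← map_mul, mul_one_div_cancel hc, map_one]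
    rw [h2, one_smul]
  rw [← h1, smul_smul, inv_mul_cancel₀ hf, one_smul, h1]

/-- The exponential of a nilpotent element of the Lie algebra preserves the form `J`:
`Aᵀ J = - J A` gives `(expN A)ᵀ J = J expN(-A)`, and `expN(-A) expN(A) = 1` (compare the proof for
`SO_{2n}` in TD3a.lean / the lemmas on `expN` in Exp1.lean). -/
theorem exp_J (A : Matrix (Fin 7) (Fin 7) R) (hA : Aᵀ * Jm R 7 + Jm R 7 * A = 0) (hn : A ^ 7 = 0) :
    (expN A)ᵀ * Jm R 7 * expN A = Jm R 7 := by
  let _ : Algebra ℚ R := ((algebraMap ℂ R).comp (algebraMap ℚ ℂ)).toAlgebra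
  have hn' : (-A) ^ 7 = 0 := by rw [neg_pow, hn, mul_zero]
  have h1 : Aᵀ * Jm R 7 = Jm R 7 * (-A) := by
    rw [Matrix.mul_neg]
    exact eq_neg_of_add_eq_zero_left hA
  have h2 : ∀ k : ℕ, (Aᵀ) ^ k * Jm R 7 = Jm R 7 * (-A) ^ k := by
    intro k
    induction k with
    | zero => rw [pow_zero, pow_zero, Matrix.one_mul, Matrix.mul_one]
    | succ k ih => rw [pow_succ, Matrix.mul_assoc, h1, ← Matrix.mul_assoc, ih, Matrix.mul_assoc,
        ← pow_succ]
  have h3 : (expN A)ᵀ * Jm R 7 = Jm R 7 * expN (-A) := by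
    unfold expN
    rw [Matrix.transpose_sum, Finset.sum_mul, Finset.mul_sum]
    refine Finset.sum_congr rfl fun k _ => ?_
    rw [Matrix.transpose_smul, Matrix.transpose_pow, Matrix.smul_mul, h2, Matrix.mul_smul]
  have h4 : expN (-A) * expN A = 1 := by
    rw [expN_eq hn', expN_eq hn]
    exact IsNilpotent.exp_neg_mul_exp_self ⟨7, hn⟩
  rw [h3, Matrix.mul_assoc, h4, Matrix.mul_one]

/-! ### The three operators on functions of three indices -/

/-- Action on the first index. -/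
def L1 (A : Matrix (Fin 7) (Fin 7) R) : Module.End R (Fin 7 → Fin 7 → Fin 7 → R) where
  toFun Φ i j k := ∑ a, Φ a j k * A a i
  map_add' Φ Ψ := by
    funext i j k
    simp only [Pi.add_apply, add_mul, Finset.sum_add_distrib]
  map_smul' c Φ := by
    funext i j k
    simp only [Pi.smul_apply, smul_eq_mul, RingHom.id_apply, Finset.mul_sum, mul_assoc]

/-- Action on the second index. -/
def L2 (A : Matrix (Fin 7) (Fin 7) R) : Module.End R (Fin 7 → Fin 7 → Fin 7 → R) where
  toFun Φ i j k := ∑ a, Φ i a k * A a j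
  map_add' Φ Ψ := by
    funext i j k
    simp only [Pi.add_apply, add_mul, Finset.sum_add_distrib]
  map_smul' c Φ := by
    funext i j k
    simp only [Pi.smul_apply, smul_eq_mul, RingHom.id_apply, Finset.mul_sum, mul_assoc]

/-- Action on the third index. -/
def L3 (A : Matrix (Fin 7) (Fin 7) R) : Module.End R (Fin 7 → Fin 7 → Fin 7 → R) where
  toFun Φ i j k := ∑ a, Φ i j a * A a k
  map_add' Φ Ψ := by
    funext i j k
    simp only [Pi.add_apply, add_mul, Finset.sum_add_distrib]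
  map_smul' c Φ := by
    funext i j k
    simp only [Pi.smul_apply, smul_eq_mul, RingHom.id_apply, Finset.mul_sum, mul_assoc]

omit [Algebra ℂ R] in
theorem L1_apply (A : Matrix (Fin 7) (Fin 7) R) (Φ : Fin 7 → Fin 7 → Fin 7 → R) (i j k : Fin 7) :
    L1 A Φ i j k = ∑ a, Φ a j k * A a i := rfl

omit [Algebra ℂ R] in
theorem L2_apply (A : Matrix (Fin 7) (Fin 7) R) (Φ : Fin 7 → Fin 7 → Fin 7 → R) (i j k : Fin 7) :
    L2 A Φ i j k = ∑ a, Φ i a k * A a j := rfl

omit [Algebra ℂ R] in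
theorem L3_apply (A : Matrix (Fin 7) (Fin 7) R) (Φ : Fin 7 → Fin 7 → Fin 7 → R) (i j k : Fin 7) :
    L3 A Φ i j k = ∑ a, Φ i j a * A a k := rfl

omit [Algebra ℂ R] in
theorem comm12 (A B : Matrix (Fin 7) (Fin 7) R) : Commute (L1 A) (L2 B) := by
  refine LinearMap.ext fun Φ => ?_
  funext i j k
  rw [Module.End.mul_apply, Module.End.mul_apply, L1_apply, L2_apply]
  simp only [L1_apply, L2_apply, Finset.sum_mul]
  rw [Finset.sum_comm]
  refine Finset.sum_congr rfl fun a _ => Finset.sum_congr rfl fun b _ => ?_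
  ring

omit [Algebra ℂ R] in
theorem comm13 (A B : Matrix (Fin 7) (Fin 7) R) : Commute (L1 A) (L3 B) := by
  refine LinearMap.ext fun Φ => ?_
  funext i j k
  rw [Module.End.mul_apply, Module.End.mul_apply, L1_apply, L3_apply]
  simp only [L1_apply, L3_apply, Finset.sum_mul]
  rw [Finset.sum_comm]
  refine Finset.sum_congr rfl fun a _ => Finset.sum_congr rfl fun b _ => ?_
  ring

omit [Algebra ℂ R] in
theorem comm23 (A B : Matrix (Fin 7) (Fin 7) R) : Commute (L2 A) (L3 B) := by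
  refine LinearMap.ext fun Φ => ?_
  funext i j k
  rw [Module.End.mul_apply, Module.End.mul_apply, L2_apply, L3_apply]
  simp only [L2_apply, L3_apply, Finset.sum_mul]
  rw [Finset.sum_comm]
  refine Finset.sum_congr rfl fun a _ => Finset.sum_congr rfl fun b _ => ?_
  ring

omit [Algebra ℂ R] in
theorem L1_pow (A : Matrix (Fin 7) (Fin 7) R) (m : ℕ) : (L1 A) ^ m = L1 (A ^ m) := by
  induction m with
  | zero =>
    refine LinearMap.ext fun Φ => ?_
    funext i j k
    rw [pow_zero, pow_zero, L1_apply]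
    simp [Matrix.one_apply]
  | succ m ih =>
    rw [pow_succ, ih]
    refine LinearMap.ext fun Φ => ?_
    funext i j k
    rw [Module.End.mul_apply, L1_apply, L1_apply, pow_succ']
    simp only [L1_apply, Matrix.mul_apply, Finset.sum_mul, Finset.mul_sum]
    rw [Finset.sum_comm]
    refine Finset.sum_congr rfl fun a _ => Finset.sum_congr rfl fun b _ => ?_
    ring

omit [Algebra ℂ R] in
theorem L2_pow (A : Matrix (Fin 7) (Fin 7) R) (m : ℕ) : (L2 A) ^ m = L2 (A ^ m) := by
  induction m with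
  | zero =>
    refine LinearMap.ext fun Φ => ?_
    funext i j k
    rw [pow_zero, pow_zero, L2_apply]
    simp [Matrix.one_apply]
  | succ m ih =>
    rw [pow_succ, ih]
    refine LinearMap.ext fun Φ => ?_
    funext i j k
    rw [Module.End.mul_apply, L2_apply, L2_apply, pow_succ']
    simp only [L2_apply, Matrix.mul_apply, Finset.sum_mul, Finset.mul_sum]
    rw [Finset.sum_comm]
    refine Finset.sum_congr rfl fun a _ => Finset.sum_congr rfl fun b _ => ?_
    ring

omit [Algebra ℂ R] in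
theorem L3_pow (A : Matrix (Fin 7) (Fin 7) R) (m : ℕ) : (L3 A) ^ m = L3 (A ^ m) := by
  induction m with
  | zero =>
    refine LinearMap.ext fun Φ => ?_
    funext i j k
    rw [pow_zero, pow_zero, L3_apply]
    simp [Matrix.one_apply]
  | succ m ih =>
    rw [pow_succ, ih]
    refine LinearMap.ext fun Φ => ?_
    funext i j k
    rw [Module.End.mul_apply, L3_apply, L3_apply, pow_succ']
    simp only [L3_apply, Matrix.mul_apply, Finset.sum_mul, Finset.mul_sum]
    rw [Finset.sum_comm]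
    refine Finset.sum_congr rfl fun a _ => Finset.sum_congr rfl fun b _ => ?_
    ring

omit [Algebra ℂ R] in
theorem L_zero : L1 (0 : Matrix (Fin 7) (Fin 7) R) = 0 ∧ L2 (0 : Matrix (Fin 7) (Fin 7) R) = 0 ∧
    L3 (0 : Matrix (Fin 7) (Fin 7) R) = 0 := by
  refine ⟨LinearMap.ext fun Φ => ?_, LinearMap.ext fun Φ => ?_, LinearMap.ext fun Φ => ?_⟩ <;>
    funext i j k
  · rw [L1_apply]; simp
  · rw [L2_apply]; simp
  · rw [L3_apply]; simp

/-- `(k!)⁻¹ • x = algebraMap (1 / k!) • x`. -/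
theorem fac_smul {M : Type*} [AddCommGroup M] [Module R M] [Module ℚ M] (k : ℕ) (x : M) :
    ((k.factorial : ℚ)⁻¹) • x = (algebraMap ℂ R (1 / (k.factorial : ℂ))) • x := by
  have hf : (k.factorial : ℚ) ≠ 0 := by exact_mod_cast k.factorial_ne_zero
  have h1 : (k.factorial : ℚ) • ((algebraMap ℂ R (1 / (k.factorial : ℂ))) • x) = x := by
    rw [Nat.cast_smul_eq_nsmul, ← Nat.cast_smul_eq_nsmul R, smul_smul]
    have h2 : ((k.factorial : ℕ) : R) * algebraMap ℂ R (1 / (k.factorial : ℂ)) = 1 := by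
      have hc : (k.factorial : ℂ) ≠ 0 := by exact_mod_cast k.factorial_ne_zero
      rw [← map_natCast (algebraMap ℂ R), ← map_mul, mul_one_div_cancel hc, map_one]
    rw [h2, one_smul]
  rw [← h1, smul_smul, inv_mul_cancel₀ hf, one_smul, h1]

/-- The exponential of a nilpotent element of the Lie algebra preserves the 3-form.

PROOF.  On the module of functions `Φ : Fin 7 → Fin 7 → Fin 7 → R` let `L₁, L₂, L₃` be the
endomorphisms `(L₁ Φ) i j k = ∑ a, Φ a j k * A a i`, etc.  They commute, `L_s ^ 7 = 0`, and for the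
truncated exponentials `T3 (expN A) = exp(L₁) exp(L₂) exp(L₃) ph`.  Now
`exp(L₁) exp(L₂) exp(L₃) = exp(L₁ + L₂ + L₃)` (`IsNilpotent.exp_add_of_commute` in Mathlib) and
`(L₁ + L₂ + L₃) ph = D3 A = 0`.  (Alternative: in the polynomial ring `R[t]` the function
`T3 (expN (t A))` of `t` has derivative `0`.) -/
theorem exp_T3 (A : Matrix (Fin 7) (Fin 7) R) (hA : ∀ i j k, D3 A i j k = 0) (hn : A ^ 7 = 0)
    (i j k : Fin 7) : T3 (expN A) i j k = (ph i j k : R) := by
  let _ : Algebra ℚ R := ((algebraMap ℂ R).comp (algebraMap ℚ ℂ)).toAlgebra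
  have n1 : (L1 A) ^ 7 = 0 := by rw [L1_pow, hn, L_zero.1]
  have n2 : (L2 A) ^ 7 = 0 := by rw [L2_pow, hn, L_zero.2.1]
  have n3 : (L3 A) ^ 7 = 0 := by rw [L3_pow, hn, L_zero.2.2]
  have e1 : ∀ Φ : Fin 7 → Fin 7 → Fin 7 → R, ∀ i j k,
      IsNilpotent.exp (L1 A) Φ i j k = ∑ a, Φ a j k * expN A a i := by
    intro Φ i j k
    rw [IsNilpotent.exp_eq_sum n1]
    simp only [LinearMap.sum_apply, LinearMap.smul_apply, Finset.sum_apply, fac_smul (R := R),
      Pi.smul_apply, smul_eq_mul, L1_pow, L1_apply, expN, Matrix.sum_apply, Matrix.smul_apply,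
      Finset.mul_sum]
    rw [Finset.sum_comm]
    refine Finset.sum_congr rfl fun a _ => Finset.sum_congr rfl fun b _ => ?_
    ring
  have e2 : ∀ Φ : Fin 7 → Fin 7 → Fin 7 → R, ∀ i j k,
      IsNilpotent.exp (L2 A) Φ i j k = ∑ a, Φ i a k * expN A a j := by
    intro Φ i j k
    rw [IsNilpotent.exp_eq_sum n2]
    simp only [LinearMap.sum_apply, LinearMap.smul_apply, Finset.sum_apply, fac_smul (R := R),
      Pi.smul_apply, smul_eq_mul, L2_pow, L2_apply, expN, Matrix.sum_apply, Matrix.smul_apply,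
      Finset.mul_sum]
    rw [Finset.sum_comm]
    refine Finset.sum_congr rfl fun a _ => Finset.sum_congr rfl fun b _ => ?_
    ring
  have e3 : ∀ Φ : Fin 7 → Fin 7 → Fin 7 → R, ∀ i j k,
      IsNilpotent.exp (L3 A) Φ i j k = ∑ a, Φ i j a * expN A a k := by
    intro Φ i j k
    rw [IsNilpotent.exp_eq_sum n3]
    simp only [LinearMap.sum_apply, LinearMap.smul_apply, Finset.sum_apply, fac_smul (R := R),
      Pi.smul_apply, smul_eq_mul, L3_pow, L3_apply, expN, Matrix.sum_apply, Matrix.smul_apply,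
      Finset.mul_sum]
    rw [Finset.sum_comm]
    refine Finset.sum_congr rfl fun a _ => Finset.sum_congr rfl fun b _ => ?_
    ring
  have c23 := comm23 A A
  have hn23 : IsNilpotent (L2 A + L3 A) := c23.isNilpotent_add ⟨7, n2⟩ ⟨7, n3⟩
  have c1 : Commute (L1 A) (L2 A + L3 A) := (comm12 A A).add_right (comm13 A A)
  have hsum : IsNilpotent.exp (L1 A + (L2 A + L3 A)) =
      IsNilpotent.exp (L1 A) * (IsNilpotent.exp (L2 A) * IsNilpotent.exp (L3 A)) := by
    rw [IsNilpotent.exp_add_of_commute c1 ⟨7, n1⟩ hn23,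
      IsNilpotent.exp_add_of_commute c23 ⟨7, n2⟩ ⟨7, n3⟩]
  obtain ⟨N, hN⟩ : IsNilpotent (L1 A + (L2 A + L3 A)) := c1.isNilpotent_add ⟨7, n1⟩ hn23
  have hkill : (L1 A + (L2 A + L3 A)) (fun i j k => (ph i j k : R)) = 0 := by
    funext i j k
    have h := hA i j k
    unfold D3 at h
    simp only [LinearMap.add_apply, Pi.add_apply, L1_apply, L2_apply, L3_apply, Pi.zero_apply]
    rw [← Finset.sum_add_distrib, ← Finset.sum_add_distrib]
    rw [← h]
    exact Finset.sum_congr rfl fun a _ => by ring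
  have hfix : IsNilpotent.exp (L1 A + (L2 A + L3 A)) (fun i j k => (ph i j k : R)) =
      fun i j k => (ph i j k : R) := by
    have hN' : (L1 A + (L2 A + L3 A)) ^ (N + 1) = 0 := by rw [pow_succ, hN, zero_mul]
    rw [IsNilpotent.exp_eq_sum hN', Finset.sum_range_succ', LinearMap.add_apply,
      LinearMap.sum_apply, Finset.sum_eq_zero]
    · simp
    · intro m _
      rw [LinearMap.smul_apply, pow_succ, Module.End.mul_apply, hkill, map_zero, smul_zero]
  rw [hsum, Module.End.mul_apply, Module.End.mul_apply] at hfix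
  have h := congrFun (congrFun (congrFun hfix i) j) k
  rw [e1] at h
  simp only [e2, e3] at h
  rw [← h]
  unfold T3
  refine Finset.sum_congr rfl fun a _ => ?_
  rw [Finset.sum_mul]
  refine Finset.sum_congr rfl fun b _ => ?_
  rw [Finset.sum_mul, Finset.sum_mul]
  refine Finset.sum_congr rfl fun c _ => ?_
  ring

theorem Y_Dp (Z : Fin 6 → R) : Dp 1 (DG.Y Z : Matrix (Fin 7) (Fin 7) R) := by
  intro i j hij
  have hji : j ≤ i := by
    have : (j : ℕ) ≤ (i : ℕ) := by omega
    exact this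
  unfold Dat.Y
  rw [Matrix.sum_apply]
  refine Finset.sum_eq_zero fun β _ => ?_
  show (Z β • (EG β).map (algebraMap ℂ R)) i j = 0
  rw [EG_map, Matrix.smul_apply, Matrix.map_apply]
  have h := EZ_up β i j hji
  unfold ent at h
  rw [h, Int.cast_zero, smul_zero]

theorem exp_Y (Z : Fin 6 → R) : Gc (expN (DG.Y Z) : Matrix (Fin 7) (Fin 7) R) := by
  have hn : (DG.Y Z : Matrix (Fin 7) (Fin 7) R) ^ 7 = 0 := by
    ext i j
    exact (Y_Dp Z).pow 7 i j (by have := j.2; omega)
  exact ⟨exp_J _ (isL_Y Z).1 hn, exp_T3 _ (isL_Y Z).2 hn, TA.det_upUni (expN_upUni (Y_Dp Z))⟩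

theorem Lo_eq (t : R) (n : Fin 6) : Lo t n = 1 + (t • (FZ n).map (Int.cast : ℤ → R) +
    t ^ 2 • (F2Z n).map (Int.cast : ℤ → R)) := by
  ext i j
  fin_cases n <;> simp only [Lo, FZ, F2Z] <;> fin_cases i <;> fin_cases j <;> simp <;> ring

theorem Lo_lowUni (t : R) (n : Fin 6) : LowUni (Lo t n) := by
  have h : ∀ i j : Fin 7, i ≤ j → Lo t n i j = (1 : Matrix (Fin 7) (Fin 7) R) i j := by
    intro i j hij
    obtain ⟨h1, h2⟩ := FZ_low n i j hij
    unfold ent at h1 h2
    rw [Lo_eq, Matrix.add_apply, Matrix.add_apply, Matrix.smul_apply, Matrix.smul_apply,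
      Matrix.map_apply, Matrix.map_apply, h1, h2, Int.cast_zero, smul_zero, smul_zero, add_zero,
      add_zero]
  refine ⟨fun i j hij => ?_, fun i => ?_⟩
  · rw [h i j hij.le, Matrix.one_apply_ne hij.ne]
  · rw [h i i le_rfl, Matrix.one_apply_eq]

/-- The root subgroups of the negative roots: `Lo t n = expN (A)` for the strictly lower triangular
matrix `A` which is linear in `t`, and `A` is in the Lie algebra; `det = 1` by `Lo_lowUni`. -/
theorem Lo_mem (t : R) (n : Fin 6) : Gc (Lo t n) := by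
  set F : Matrix (Fin 7) (Fin 7) R := (FZ n).map (Int.cast : ℤ → R) with hF
  have hLF : IsL (t • F) := isL_smul _ (isL_map _ (FZ_J n) (FZ_D3 n))
  have hcast : ∀ M N : Matrix (Fin 7) (Fin 7) ℤ, M.map (Int.cast : ℤ → R) * N.map (Int.cast : ℤ → R) =
      (M * N).map (Int.cast : ℤ → R) := by
    intro M N
    ext i j
    simp [Matrix.mul_apply]
  have h2 : F * F = (2 : R) • (F2Z n).map (Int.cast : ℤ → R) := by
    rw [hF, hcast]
    ext i j
    have h := FZ_sq n i j
    unfold ent at h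
    rw [Matrix.map_apply, h, Matrix.smul_apply, Matrix.map_apply]
    push_cast
    rfl
  have h3 : F * F * F = 0 := by
    rw [hF, hcast, hcast]
    ext i j
    have h := FZ_cube n i j
    unfold ent at h
    rw [Matrix.map_apply, h, Int.cast_zero, Matrix.zero_apply]
  have hA3 : (t • F) ^ 3 = 0 := by
    have h3' : F ^ 3 = 0 := by rw [pow_succ, pow_two, h3]
    rw [smul_pow, h3', smul_zero]
  have hAk : ∀ k : ℕ, 3 ≤ k → (t • F) ^ k = 0 := fun k hk => pow_eq_zero_of_le hk hA3
  have hexp : expN (t • F) = Lo t n := by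
    rw [Lo_eq]
    unfold expN
    rw [Finset.sum_range_succ, Finset.sum_range_succ, Finset.sum_range_succ,
      Finset.sum_range_succ, Finset.sum_range_succ, Finset.sum_range_succ, Finset.sum_range_succ,
      Finset.sum_range_zero, hAk 3 (by norm_num), hAk 4 (by norm_num), hAk 5 (by norm_num),
      hAk 6 (by norm_num)]
    simp only [smul_zero, add_zero, zero_add, pow_zero, pow_one, Nat.factorial_zero,
      Nat.factorial_one, Nat.cast_one, div_one, map_one, one_smul]
    rw [add_assoc]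
    congr 2
    rw [smul_pow, pow_two F, h2, smul_smul, smul_smul]
    congr 1
    have h4 : algebraMap ℂ R (1 / ((Nat.factorial 2 : ℕ) : ℂ)) * 2 = 1 := by
      have h5 : (2 : R) = algebraMap ℂ R 2 := by rw [map_ofNat]
      rw [h5, ← map_mul]
      norm_num [Nat.factorial]
    linear_combination t ^ 2 * h4
  rw [← hexp]
  refine ⟨exp_J _ hLF.1 (hAk 7 (by norm_num)), exp_T3 _ hLF.2 (hAk 7 (by norm_num)), ?_⟩
  rw [hexp]
  exact TA.det_lowUni (Lo_lowUni t n)

end

end Pool.Agent.MTD.G2
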