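import Pool.Agent.MTD.X3

/-! # MTD : `G_2`, conjugation in the Borel subalgebra (row X4) -/

namespace Pool.Agent.MTD.G2

open Matrix
open Pool.Agent.MP_c45d35_ag (chi UpUni LowUni IsHess Jm em fm)

section
variable {R : Type*} [CommRing R]

/-- The trilinear form on the columns of three matrices. -/
def x4T (A B C : Matrix (Fin 7) (Fin 7) R) (i j k : Fin 7) : R :=
  ∑ a, ∑ b, ∑ c, (ph a b c : R) * A a i * B b j * C c k

theorem x4T_one (A B C h : Matrix (Fin 7) (Fin 7) R) (i j k : Fin 7) :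
    x4T (A * h) B C i j k = ∑ p, x4T A B C p j k * h p i := by
  have key : ∀ (A : Matrix (Fin 7) (Fin 7) R) (i : Fin 7), x4T A B C i j k =
      ((fun a => ∑ b, ∑ c, (ph a b c : R) * B b j * C c k) ᵥ* A) i := by
    intro A i
    unfold x4T
    simp only [Matrix.vecMul, dotProduct, Finset.sum_mul]
    refine Finset.sum_congr rfl fun a _ => Finset.sum_congr rfl fun b _ =>
      Finset.sum_congr rfl fun c _ => ?_
    ring
  rw [key, ← Matrix.vecMul_vecMul]
  conv_lhs => rw [Matrix.vecMul, dotProduct]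
  refine Finset.sum_congr rfl fun p _ => ?_
  rw [key]

theorem x4T_two (A B C h : Matrix (Fin 7) (Fin 7) R) (i j k : Fin 7) :
    x4T A (B * h) C i j k = ∑ q, x4T A B C i q k * h q j := by
  have key : ∀ (B : Matrix (Fin 7) (Fin 7) R) (j : Fin 7), x4T A B C i j k =
      ((fun b => ∑ a, ∑ c, (ph a b c : R) * A a i * C c k) ᵥ* B) j := by
    intro B j
    unfold x4T
    rw [Finset.sum_comm]
    simp only [Matrix.vecMul, dotProduct, Finset.sum_mul]
    refine Finset.sum_congr rfl fun a _ => Finset.sum_congr rfl fun b _ =>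
      Finset.sum_congr rfl fun c _ => ?_
    ring
  rw [key, ← Matrix.vecMul_vecMul]
  conv_lhs => rw [Matrix.vecMul, dotProduct]
  refine Finset.sum_congr rfl fun p _ => ?_
  rw [key]

theorem x4T_three (A B C h : Matrix (Fin 7) (Fin 7) R) (i j k : Fin 7) :
    x4T A B (C * h) i j k = ∑ r, x4T A B C i j r * h r k := by
  have key : ∀ (C : Matrix (Fin 7) (Fin 7) R) (k : Fin 7), x4T A B C i j k =
      ((fun c => ∑ a, ∑ b, (ph a b c : R) * A a i * B b j) ᵥ* C) k := by
    intro C k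
    unfold x4T
    simp only [Matrix.vecMul, dotProduct, Finset.sum_mul]
    rw [Finset.sum_comm' (t' := Finset.univ) (s' := fun _ => Finset.univ) (by simp)]
    have : ∀ b : Fin 7, ∑ a, ∑ c, (ph a b c : R) * A a i * B b j * C c k =
        ∑ c, ∑ a, (ph a b c : R) * A a i * B b j * C c k := fun b => Finset.sum_comm
    rw [Finset.sum_congr rfl fun b _ => this b, Finset.sum_comm]
    refine Finset.sum_congr rfl fun c _ => ?_
    rw [Finset.sum_comm]
  rw [key, ← Matrix.vecMul_vecMul]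
  conv_lhs => rw [Matrix.vecMul, dotProduct]
  refine Finset.sum_congr rfl fun p _ => ?_
  rw [key]

theorem x4T_mul (A B C h : Matrix (Fin 7) (Fin 7) R) (i j k : Fin 7) :
    x4T (A * h) (B * h) (C * h) i j k =
      ∑ p, ∑ q, ∑ r, x4T A B C p q r * h r k * h q j * h p i := by
  rw [x4T_one]
  refine Finset.sum_congr rfl fun p _ => ?_
  rw [x4T_two, Finset.sum_mul]
  refine Finset.sum_congr rfl fun q _ => ?_
  rw [x4T_three, Finset.sum_mul, Finset.sum_mul]

theorem x4_s1 (f : Fin 7 → R) (j : Fin 7) :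
    ∑ b, f b * (1 : Matrix (Fin 7) (Fin 7) R) b j = f j := by
  rw [Finset.sum_eq_single j]
  · rw [Matrix.one_apply_eq, mul_one]
  · intro b _ hb
    rw [Matrix.one_apply_ne hb, mul_zero]
  · intro h
    exact absurd (Finset.mem_univ _) h

theorem x4_A (X : Matrix (Fin 7) (Fin 7) R) (i j k : Fin 7) :
    x4T X 1 1 i j k = ∑ a, (ph a j k : R) * X a i := by
  unfold x4T
  refine Finset.sum_congr rfl fun a _ => ?_
  rw [Finset.sum_congr rfl fun b _ =>
    x4_s1 (fun c => (ph a b c : R) * X a i * (1 : Matrix (Fin 7) (Fin 7) R) b j) k]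
  exact x4_s1 (fun b => (ph a b k : R) * X a i) j

theorem x4_B (X : Matrix (Fin 7) (Fin 7) R) (i j k : Fin 7) :
    x4T 1 X 1 i j k = ∑ b, (ph i b k : R) * X b j := by
  unfold x4T
  rw [Finset.sum_comm]
  refine Finset.sum_congr rfl fun b _ => ?_
  rw [Finset.sum_congr rfl fun a _ =>
    x4_s1 (fun c => (ph a b c : R) * (1 : Matrix (Fin 7) (Fin 7) R) a i * X b j) k]
  have h : ∀ a, (ph a b k : R) * (1 : Matrix (Fin 7) (Fin 7) R) a i * X b j =
      ((ph a b k : R) * X b j) * (1 : Matrix (Fin 7) (Fin 7) R) a i := fun a => by ring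
  rw [Finset.sum_congr rfl fun a _ => h a]
  exact x4_s1 (fun a => (ph a b k : R) * X b j) i

theorem x4_C (X : Matrix (Fin 7) (Fin 7) R) (i j k : Fin 7) :
    x4T 1 1 X i j k = ∑ c, (ph i j c : R) * X c k := by
  unfold x4T
  have h : ∀ a b, ∑ c, (ph a b c : R) * (1 : Matrix (Fin 7) (Fin 7) R) a i *
      (1 : Matrix (Fin 7) (Fin 7) R) b j * X c k =
      ((∑ c, (ph a b c : R) * X c k) * (1 : Matrix (Fin 7) (Fin 7) R) a i) *
        (1 : Matrix (Fin 7) (Fin 7) R) b j := by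
    intro a b
    rw [Finset.sum_mul, Finset.sum_mul]
    refine Finset.sum_congr rfl fun c _ => ?_
    ring
  rw [Finset.sum_congr rfl fun a _ => Finset.sum_congr rfl fun b _ => h a b]
  rw [Finset.sum_congr rfl fun a _ => x4_s1 (fun b => (∑ c, (ph a b c : R) * X c k) *
    (1 : Matrix (Fin 7) (Fin 7) R) a i) j]
  exact x4_s1 (fun a => ∑ c, (ph a j c : R) * X c k) i

theorem x4_one (i j k : Fin 7) : x4T (1 : Matrix (Fin 7) (Fin 7) R) 1 1 i j k = (ph i j k : R) := by
  rw [x4_A]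
  exact x4_s1 (fun a => (ph a j k : R)) i

theorem x4T_D3 (X : Matrix (Fin 7) (Fin 7) R) (i j k : Fin 7) :
    D3 X i j k = x4T X 1 1 i j k + x4T 1 X 1 i j k + x4T 1 1 X i j k := by
  unfold D3
  rw [Finset.sum_add_distrib, Finset.sum_add_distrib, x4_A, x4_B, x4_C]

theorem x4T_T3 (g : Matrix (Fin 7) (Fin 7) R) (i j k : Fin 7) : x4T g g g i j k = T3 g i j k := rfl

end

section
variable {R : Type*} [CommRing R] [Algebra ℂ R]

omit [Algebra ℂ R] in
/-- The Lie algebra is stable under conjugation.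

PROOF.  `J`: as usual.  3-form: with `X' = g X g⁻¹`, `X' g = g X`,
`∑_{p,q,r} D3 X' p q r * g p i * g q j * g r k = ∑_a (T3 g a j k * X a i + …) = D3 X i j k = 0`;
multiply by the entries of `g⁻¹` and sum. -/
theorem x4_isL_conj {g X : Matrix (Fin 7) (Fin 7) R} (hg : Gc g) (hX : IsL X) :
    IsL (g * X * g⁻¹) := by
  obtain ⟨hJ, hT, hd⟩ := hg
  have hu : IsUnit g.det := by rw [hd]; exact isUnit_one
  have h1 : g * g⁻¹ = 1 := Matrix.mul_nonsing_inv g hu
  have h2 : g⁻¹ * g = 1 := Matrix.nonsing_inv_mul g hu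
  refine ⟨?_, ?_⟩
  · have h3 : gᵀ * Jm R 7 = Jm R 7 * g⁻¹ := by
      calc gᵀ * Jm R 7 = gᵀ * Jm R 7 * (g * g⁻¹) := by rw [h1, Matrix.mul_one]
        _ = (gᵀ * Jm R 7 * g) * g⁻¹ := by simp only [Matrix.mul_assoc]
        _ = _ := by rw [hJ]
    have h4 : (g⁻¹)ᵀ * gᵀ = 1 := by rw [← Matrix.transpose_mul, h1, Matrix.transpose_one]
    have h5 : Jm R 7 * g = (g⁻¹)ᵀ * Jm R 7 := by
      calc Jm R 7 * g = ((g⁻¹)ᵀ * gᵀ) * (Jm R 7 * g) := by rw [h4, Matrix.one_mul]
        _ = (g⁻¹)ᵀ * (gᵀ * Jm R 7 * g) := by simp only [Matrix.mul_assoc]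
        _ = _ := by rw [hJ]
    rw [Matrix.transpose_mul, Matrix.transpose_mul]
    have h6 : (g⁻¹)ᵀ * (Xᵀ * gᵀ) * Jm R 7 + Jm R 7 * (g * X * g⁻¹) =
        (g⁻¹)ᵀ * (Xᵀ * (gᵀ * Jm R 7)) + (Jm R 7 * g) * X * g⁻¹ := by
      simp only [Matrix.mul_assoc]
    rw [h6, h3, h5]
    have h7 : (g⁻¹)ᵀ * (Xᵀ * (Jm R 7 * g⁻¹)) + (g⁻¹)ᵀ * Jm R 7 * X * g⁻¹ =
        (g⁻¹)ᵀ * (Xᵀ * Jm R 7 + Jm R 7 * X) * g⁻¹ := by
      rw [Matrix.mul_add, Matrix.add_mul]
      simp only [Matrix.mul_assoc]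
    rw [h7, hX.1, Matrix.mul_zero, Matrix.zero_mul]
  · intro i j k
    have hone : (1 : Matrix (Fin 7) (Fin 7) R) = g * g⁻¹ := h1.symm
    have hT' : ∀ p q r, x4T g g g p q r = x4T 1 1 1 p q r := by
      intro p q r
      rw [x4T_T3, hT, x4_one]
    have e1 : ∀ p q r, x4T (g * X) g g p q r = x4T X 1 1 p q r := by
      intro p q r
      rw [x4T_one, Finset.sum_congr rfl fun a _ => by rw [hT' a q r], ← x4T_one, Matrix.one_mul]
    have e2 : ∀ p q r, x4T g (g * X) g p q r = x4T 1 X 1 p q r := by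
      intro p q r
      rw [x4T_two, Finset.sum_congr rfl fun a _ => by rw [hT' p a r], ← x4T_two, Matrix.one_mul]
    have e3 : ∀ p q r, x4T g g (g * X) p q r = x4T 1 1 X p q r := by
      intro p q r
      rw [x4T_three, Finset.sum_congr rfl fun a _ => by rw [hT' p q a], ← x4T_three,
        Matrix.one_mul]
    rw [x4T_D3]
    have f1 : x4T (g * X * g⁻¹) 1 1 i j k =
        ∑ p, ∑ q, ∑ r, x4T X 1 1 p q r * g⁻¹ r k * g⁻¹ q j * g⁻¹ p i := by
      conv_lhs => rw [hone]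
      rw [x4T_mul]
      simp only [e1]
    have f2 : x4T 1 (g * X * g⁻¹) 1 i j k =
        ∑ p, ∑ q, ∑ r, x4T 1 X 1 p q r * g⁻¹ r k * g⁻¹ q j * g⁻¹ p i := by
      conv_lhs => rw [hone]
      rw [x4T_mul]
      simp only [e2]
    have f3 : x4T 1 1 (g * X * g⁻¹) i j k =
        ∑ p, ∑ q, ∑ r, x4T 1 1 X p q r * g⁻¹ r k * g⁻¹ q j * g⁻¹ p i := by
      conv_lhs => rw [hone]
      rw [x4T_mul]
      simp only [e3]
    rw [f1, f2, f3, ← Finset.sum_add_distrib, ← Finset.sum_add_distrib]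
    refine Finset.sum_eq_zero fun p _ => ?_
    rw [← Finset.sum_add_distrib, ← Finset.sum_add_distrib]
    refine Finset.sum_eq_zero fun q _ => ?_
    rw [← Finset.sum_add_distrib, ← Finset.sum_add_distrib]
    refine Finset.sum_eq_zero fun r _ => ?_
    have h3 := hX.2 p q r
    rw [x4T_D3] at h3
    rw [← add_mul, ← add_mul, ← add_mul, ← add_mul, ← add_mul, ← add_mul, h3]
    ring

/-- The Lie algebra is stable under conjugation.

PROOF.  `J`: as usual.  3-form: with `X' = g X g⁻¹`, `X' g = g X`,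
`∑_{p,q,r} D3 X' p q r * g p i * g q j * g r k = ∑_a (T3 g a j k * X a i + …) = D3 X i j k = 0`;
multiply by the entries of `g⁻¹` and sum. -/
theorem isL_conj {g X : Matrix (Fin 7) (Fin 7) R} (hg : Gc g) (hX : IsL X) :
    IsL (g * X * g⁻¹) := x4_isL_conj hg hX

theorem x4_two {a b : R} (h : 2 * a = 2 * b) : a = b := by
  have h1 : algebraMap ℂ R (1 / 2) * 2 = 1 := by
    have : (2 : R) = algebraMap ℂ R 2 := (map_ofNat (algebraMap ℂ R) 2).symm
    rw [this, ← map_mul]
    norm_num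
  calc a = (algebraMap ℂ R (1 / 2) * 2) * a := by rw [h1, one_mul]
    _ = algebraMap ℂ R (1 / 2) * (2 * a) := by ring
    _ = algebraMap ℂ R (1 / 2) * (2 * b) := by rw [h]
    _ = (algebraMap ℂ R (1 / 2) * 2) * b := by ring
    _ = b := by rw [h1, one_mul]

/-- Strictly upper triangular elements of the Lie algebra: take
`Z = (X 0 1, X 1 2, X 1 3, - X 2 5, X 2 6, X 0 5)`; the other entries are determined by the
equations (`2` is invertible). -/
theorem exists_Y {X : Matrix (Fin 7) (Fin 7) R} (hX : IsL X) (hup : ∀ i j, j ≤ i → X i j = 0) :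
    ∃ Z : Fin 6 → R, X = DG.Y Z := by
  have h046 := hX.2 0 4 6
  have h056 := hX.2 0 5 6
  have h136 := hX.2 1 3 6
  have h145 := hX.2 1 4 5
  have h146 := hX.2 1 4 6
  have h156 := hX.2 1 5 6
  have h235 := hX.2 2 3 5
  have h236 := hX.2 2 3 6
  have h245 := hX.2 2 4 5
  have h246 := hX.2 2 4 6
  have h256 := hX.2 2 5 6
  have h345 := hX.2 3 4 5
  have h346 := hX.2 3 4 6
  have h356 := hX.2 3 5 6
  have h456 := hX.2 4 5 6
  have u : ∀ i j : Fin 7, j ≤ i → X i j = 0 := hup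
  simp [D3, ph, ph0_eq, ph0', Fin.sum_univ_seven] at h046 h056 h136 h145 h146 h156 h235 h236 h245 h246 h256 h345 h346 h356 h456
  have e34 : X 3 4 = X 0 1 := by linear_combination h145
  have e56 : X 5 6 = X 0 1 := by linear_combination h145 - h046
  have e23 : X 2 3 = X 0 1 := x4_two (by linear_combination e56 - h136)
  have e45 : X 4 5 = X 1 2 := by linear_combination -h235
  have e35' : X 3 5 = X 0 2 := by linear_combination h245
  have e46' : X 4 6 = - X 0 2 := by linear_combination h056 - h245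
  have e02 : X 0 2 = - X 1 3 := x4_two (by linear_combination h236 + e46')
  have e35 : X 3 5 = - X 1 3 := by rw [e35', e02]
  have e46 : X 4 6 = X 1 3 := by rw [e46', e02, neg_neg]
  have e24 : X 2 4 = 0 := x4_two (by rw [mul_zero]; exact h146)
  have e15 : X 1 5 = 0 := x4_two (by rw [mul_zero]; exact h256)
  have e36 : X 3 6 = -(2 * X 2 5) := by linear_combination -h156
  have e14 : X 1 4 = X 2 5 := x4_two (by linear_combination h246 - e36)
  have e03 : X 0 3 = -(2 * X 2 5) := by linear_combination -h345 - e14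
  have e04 : X 0 4 = - X 2 6 := by linear_combination -h346
  have e16 : X 1 6 = X 0 5 := by linear_combination h356
  refine ⟨![X 0 1, X 1 2, X 1 3, - X 2 5, X 2 6, X 0 5], ?_⟩
  rw [Y_eq]
  ext i j
  fin_cases i <;> fin_cases j <;>
    simp [e34, e56, e23, e45, e02, e35, e46, e24, e15, e36, e14, e03, e04, e16, h456, hup]

end

open Pool.Agent.MP_c45d35_ag.BlockD (Up) in
/-- Axiom `conj` (`up_conj` of TA2.lean for the diagonal of `g (D_x + Y) g⁻¹`). -/
theorem conj' {R : Type} [CommRing R] [Algebra ℂ R] (g : Matrix (Fin 7) (Fin 7) R) (x : Fin 2 → R)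
    (Z : Fin 6 → R) (hg : Gc g) (hup : ∀ i j, j < i → g i j = 0) :
    ∃ Z' : Fin 6 → R, g * (DG.Dx x + DG.Y Z) = (DG.Dx x + DG.Y Z') * g := by
  have hd : IsUnit g.det := by rw [hg.2.2]; exact isUnit_one
  have hY : ∀ (Z : Fin 6 → R) (i j : Fin 7), j ≤ i →
      (DG.Y Z : Matrix (Fin 7) (Fin 7) R) i j = 0 := by
    intro Z i j hij
    rw [Y_eq]
    revert hij
    fin_cases i <;> fin_cases j <;> simp
  have hDx : ∀ i j : Fin 7, i ≠ j → (DG.Dx x : Matrix (Fin 7) (Fin 7) R) i j = 0 := by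
    intro i j hij
    rw [Dat.Dx, Matrix.diagonal_apply_ne _ hij]
  have hUp : Up (DG.Dx x + DG.Y Z : Matrix (Fin 7) (Fin 7) R) := by
    intro i j hij
    rw [Matrix.add_apply, hDx i j (ne_of_gt hij), hY Z i j hij.le, add_zero]
  obtain ⟨h1, h2⟩ := up_conj g _ hup hd hUp
  have hL : IsL (g * (DG.Dx x + DG.Y Z) * g⁻¹) := isL_conj hg (isL_add (isL_Dx x) (isL_Y Z))
  have hL' := isL_sub hL (isL_Dx x)
  obtain ⟨Z', hZ'⟩ := exists_Y hL' (by
    intro i j hij
    rw [Matrix.sub_apply]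
    rcases lt_or_eq_of_le hij with h | h
    · rw [h1 i j h, hDx i j (ne_of_gt h), sub_zero]
    · subst h
      rw [h2, Matrix.add_apply, hY Z j j le_rfl, add_zero, sub_self])
  refine ⟨Z', ?_⟩
  rw [← hZ', add_sub_cancel, Matrix.mul_assoc, Matrix.nonsing_inv_mul g hd, Matrix.mul_one]

end Pool.Agent.MTD.G2
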