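import Pool.Agent.MTD.X3

/-! # MTD : `G_2`, the conjugator (row X7) -/

namespace Pool.Agent.MTD.G2

open Matrix
open Pool.Agent.MP_c45d35_ag (chi UpUni LowUni IsHess Jm em fm)

/-! ### The conjugation in six steps -/

/-- Intermediate matrix. -/
noncomputable def MM1 (a b : ℂ) : Matrix (Fin 7) (Fin 7) ℂ := !![0, 1, 0, 0, 0, 0, 0;
  -(a ^ 2) + a * b, 2 * a - b, 1, 0, 0, 0, 0;
  0, 0, -(2 * a) + b, 1, 0, 0, 0;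
  0, 0, -(2 * a ^ 2) + 2 * a * b, 0, 1, 0, 0;
  0, 0, 0, -(2 * a ^ 2) + 2 * a * b, 2 * a - b, 1, 0;
  0, 0, 0, 0, 0, -(2 * a) + b, 1;
  0, 0, 0, 0, 0, -(a ^ 2) + a * b, 0]

/-- Intermediate matrix. -/
noncomputable def MM2 (a b : ℂ) : Matrix (Fin 7) (Fin 7) ℂ := !![0, 1, 0, 0, 0, 0, 0;
  -(a ^ 2) + a * b, 0, 1, 0, 0, 0, 0;
  -(2 * a ^ 3) + 3 * a ^ 2 * b - a * b ^ 2, 4 * a ^ 2 - 4 * a * b + b ^ 2, 0, 1, 0, 0, 0;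
  0, 4 * a ^ 3 - 6 * a ^ 2 * b + 2 * a * b ^ 2, -(2 * a ^ 2) + 2 * a * b, 0, 1, 0, 0;
  0, 0, 0, -(2 * a ^ 2) + 2 * a * b, 0, 1, 0;
  0, 0, 0, -(4 * a ^ 3) + 6 * a ^ 2 * b - 2 * a * b ^ 2, 4 * a ^ 2 - 4 * a * b + b ^ 2, 0, 1;
  0, 0, 0, 0, 2 * a ^ 3 - 3 * a ^ 2 * b + a * b ^ 2, -(a ^ 2) + a * b, 0]

/-- Intermediate matrix. -/
noncomputable def MM3 (a b : ℂ) : Matrix (Fin 7) (Fin 7) ℂ := !![0, 1, 0, 0, 0, 0, 0;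
  3 / 14 * a ^ 2 - 3 / 14 * a * b + 3 / 14 * b ^ 2, 0, 1, 0, 0, 0, 0;
  -(2 * a ^ 3) + 3 * a ^ 2 * b - a * b ^ 2, 5 / 14 * a ^ 2 - 5 / 14 * a * b + 5 / 14 * b ^ 2, 0, 1, 0, 0, 0;
  -(187 / 98 * a ^ 4) + 187 / 49 * a ^ 3 * b - 169 / 98 * a ^ 2 * b ^ 2 - 9 / 49 * a * b ^ 3 + 9 / 98 * b ^ 4, 4 * a ^ 3 - 6 * a ^ 2 * b + 2 * a * b ^ 2, 3 / 7 * a ^ 2 - 3 / 7 * a * b + 3 / 7 * b ^ 2, 0, 1, 0, 0;
  0, 187 / 98 * a ^ 4 - 187 / 49 * a ^ 3 * b + 169 / 98 * a ^ 2 * b ^ 2 + 9 / 49 * a * b ^ 3 - 9 / 98 * b ^ 4, 0, 3 / 7 * a ^ 2 - 3 / 7 * a * b + 3 / 7 * b ^ 2, 0, 1, 0;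
  7225 / 1372 * a ^ 6 - 21675 / 1372 * a ^ 5 * b + 11679 / 686 * a ^ 4 * b ^ 2 - 1513 / 196 * a ^ 3 * b ^ 3 + 801 / 686 * a ^ 2 * b ^ 4 + 81 / 1372 * a * b ^ 5 - 27 / 1372 * b ^ 6, 0, 187 / 98 * a ^ 4 - 187 / 49 * a ^ 3 * b + 169 / 98 * a ^ 2 * b ^ 2 + 9 / 49 * a * b ^ 3 - 9 / 98 * b ^ 4, -(4 * a ^ 3) + 6 * a ^ 2 * b - 2 * a * b ^ 2, 5 / 14 * a ^ 2 - 5 / 14 * a * b + 5 / 14 * b ^ 2, 0, 1;
  0, 7225 / 1372 * a ^ 6 - 21675 / 1372 * a ^ 5 * b + 11679 / 686 * a ^ 4 * b ^ 2 - 1513 / 196 * a ^ 3 * b ^ 3 + 801 / 686 * a ^ 2 * b ^ 4 + 81 / 1372 * a * b ^ 5 - 27 / 1372 * b ^ 6, 0, -(187 / 98 * a ^ 4) + 187 / 49 * a ^ 3 * b - 169 / 98 * a ^ 2 * b ^ 2 - 9 / 49 * a * b ^ 3 + 9 / 98 * b ^ 4, 2 * a ^ 3 - 3 * a ^ 2 * b + a * b ^ 2, 3 / 14 * a ^ 2 - 3 / 14 * a * b + 3 / 14 * b ^ 2, 0]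

/-- Intermediate matrix. -/
noncomputable def MM4 (a b : ℂ) : Matrix (Fin 7) (Fin 7) ℂ := !![0, 1, 0, 0, 0, 0, 0;
  3 / 14 * a ^ 2 - 3 / 14 * a * b + 3 / 14 * b ^ 2, 0, 1, 0, 0, 0, 0;
  0, 5 / 14 * a ^ 2 - 5 / 14 * a * b + 5 / 14 * b ^ 2, 0, 1, 0, 0, 0;
  -(187 / 98 * a ^ 4) + 187 / 49 * a ^ 3 * b - 169 / 98 * a ^ 2 * b ^ 2 - 9 / 49 * a * b ^ 3 + 9 / 98 * b ^ 4, 0, 3 / 7 * a ^ 2 - 3 / 7 * a * b + 3 / 7 * b ^ 2, 0, 1, 0, 0;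
  9 / 7 * a ^ 5 - 45 / 14 * a ^ 4 * b + 27 / 7 * a ^ 3 * b ^ 2 - 18 / 7 * a ^ 2 * b ^ 3 + 9 / 14 * a * b ^ 4, 187 / 98 * a ^ 4 - 187 / 49 * a ^ 3 * b + 169 / 98 * a ^ 2 * b ^ 2 + 9 / 49 * a * b ^ 3 - 9 / 98 * b ^ 4, 0, 3 / 7 * a ^ 2 - 3 / 7 * a * b + 3 / 7 * b ^ 2, 0, 1, 0;
  -(1007 / 1372 * a ^ 6) + 3021 / 1372 * a ^ 5 * b - 849 / 343 * a ^ 4 * b ^ 2 + 251 / 196 * a ^ 3 * b ^ 3 - 114 / 343 * a ^ 2 * b ^ 4 + 81 / 1372 * a * b ^ 5 - 27 / 1372 * b ^ 6, 0, 187 / 98 * a ^ 4 - 187 / 49 * a ^ 3 * b + 169 / 98 * a ^ 2 * b ^ 2 + 9 / 49 * a * b ^ 3 - 9 / 98 * b ^ 4, 0, 5 / 14 * a ^ 2 - 5 / 14 * a * b + 5 / 14 * b ^ 2, 0, 1;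
  0, -(1007 / 1372 * a ^ 6) + 3021 / 1372 * a ^ 5 * b - 849 / 343 * a ^ 4 * b ^ 2 + 251 / 196 * a ^ 3 * b ^ 3 - 114 / 343 * a ^ 2 * b ^ 4 + 81 / 1372 * a * b ^ 5 - 27 / 1372 * b ^ 6, -(9 / 7 * a ^ 5) + 45 / 14 * a ^ 4 * b - 27 / 7 * a ^ 3 * b ^ 2 + 18 / 7 * a ^ 2 * b ^ 3 - 9 / 14 * a * b ^ 4, -(187 / 98 * a ^ 4) + 187 / 49 * a ^ 3 * b - 169 / 98 * a ^ 2 * b ^ 2 - 9 / 49 * a * b ^ 3 + 9 / 98 * b ^ 4, 0, 3 / 14 * a ^ 2 - 3 / 14 * a * b + 3 / 14 * b ^ 2, 0]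

/-- Intermediate matrix. -/
noncomputable def MM5 (a b : ℂ) : Matrix (Fin 7) (Fin 7) ℂ := !![0, 1, 0, 0, 0, 0, 0;
  3 / 14 * a ^ 2 - 3 / 14 * a * b + 3 / 14 * b ^ 2, 0, 1, 0, 0, 0, 0;
  0, 5 / 14 * a ^ 2 - 5 / 14 * a * b + 5 / 14 * b ^ 2, 0, 1, 0, 0, 0;
  0, 0, 3 / 7 * a ^ 2 - 3 / 7 * a * b + 3 / 7 * b ^ 2, 0, 1, 0, 0;
  9 / 7 * a ^ 5 - 45 / 14 * a ^ 4 * b + 27 / 7 * a ^ 3 * b ^ 2 - 18 / 7 * a ^ 2 * b ^ 3 + 9 / 14 * a * b ^ 4, 0, 0, 3 / 7 * a ^ 2 - 3 / 7 * a * b + 3 / 7 * b ^ 2, 0, 1, 0;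
  -(18 / 343 * a ^ 6) + 54 / 343 * a ^ 5 * b + 127 / 686 * a ^ 4 * b ^ 2 - 31 / 49 * a ^ 3 * b ^ 3 + 127 / 686 * a ^ 2 * b ^ 4 + 54 / 343 * a * b ^ 5 - 18 / 343 * b ^ 6, 0, 0, 0, 5 / 14 * a ^ 2 - 5 / 14 * a * b + 5 / 14 * b ^ 2, 0, 1;
  0, -(18 / 343 * a ^ 6) + 54 / 343 * a ^ 5 * b + 127 / 686 * a ^ 4 * b ^ 2 - 31 / 49 * a ^ 3 * b ^ 3 + 127 / 686 * a ^ 2 * b ^ 4 + 54 / 343 * a * b ^ 5 - 18 / 343 * b ^ 6, -(9 / 7 * a ^ 5) + 45 / 14 * a ^ 4 * b - 27 / 7 * a ^ 3 * b ^ 2 + 18 / 7 * a ^ 2 * b ^ 3 - 9 / 14 * a * b ^ 4, 0, 0, 3 / 14 * a ^ 2 - 3 / 14 * a * b + 3 / 14 * b ^ 2, 0]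

/-- Intermediate matrix. -/
noncomputable def MM6 (a b : ℂ) : Matrix (Fin 7) (Fin 7) ℂ := !![0, 1, 0, 0, 0, 0, 0;
  3 / 14 * a ^ 2 - 3 / 14 * a * b + 3 / 14 * b ^ 2, 0, 1, 0, 0, 0, 0;
  0, 5 / 14 * a ^ 2 - 5 / 14 * a * b + 5 / 14 * b ^ 2, 0, 1, 0, 0, 0;
  0, 0, 3 / 7 * a ^ 2 - 3 / 7 * a * b + 3 / 7 * b ^ 2, 0, 1, 0, 0;
  0, 0, 0, 3 / 7 * a ^ 2 - 3 / 7 * a * b + 3 / 7 * b ^ 2, 0, 1, 0;
  -(18 / 343 * a ^ 6) + 54 / 343 * a ^ 5 * b + 127 / 686 * a ^ 4 * b ^ 2 - 31 / 49 * a ^ 3 * b ^ 3 + 127 / 686 * a ^ 2 * b ^ 4 + 54 / 343 * a * b ^ 5 - 18 / 343 * b ^ 6, 0, 0, 0, 5 / 14 * a ^ 2 - 5 / 14 * a * b + 5 / 14 * b ^ 2, 0, 1;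
  0, -(18 / 343 * a ^ 6) + 54 / 343 * a ^ 5 * b + 127 / 686 * a ^ 4 * b ^ 2 - 31 / 49 * a ^ 3 * b ^ 3 + 127 / 686 * a ^ 2 * b ^ 4 + 54 / 343 * a * b ^ 5 - 18 / 343 * b ^ 6, 0, 0, 0, 3 / 14 * a ^ 2 - 3 / 14 * a * b + 3 / 14 * b ^ 2, 0]

/-- The six lower unipotent factors as explicit matrices. -/
theorem Lo0 (t : ℂ) : Lo t 0 = !![1, 0, 0, 0, 0, 0, 0;
    t, 1, 0, 0, 0, 0, 0;
    0, 0, 1, 0, 0, 0, 0;
    0, 0, 2 * t, 1, 0, 0, 0;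
    0, 0, 2 * t ^ 2, 2 * t, 1, 0, 0;
    0, 0, 0, 0, 0, 1, 0;
    0, 0, 0, 0, 0, t, 1] := by
  ext i j
  simp only [Lo]
  fin_cases i <;> fin_cases j <;> simp

theorem Lo1 (t : ℂ) : Lo t 1 = !![1, 0, 0, 0, 0, 0, 0;
    0, 1, 0, 0, 0, 0, 0;
    0, t, 1, 0, 0, 0, 0;
    0, 0, 0, 1, 0, 0, 0;
    0, 0, 0, 0, 1, 0, 0;
    0, 0, 0, 0, t, 1, 0;
    0, 0, 0, 0, 0, 0, 1] := by
  ext i j
  simp only [Lo]
  fin_cases i <;> fin_cases j <;> simp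

theorem Lo2 (t : ℂ) : Lo t 2 = !![1, 0, 0, 0, 0, 0, 0;
    0, 1, 0, 0, 0, 0, 0;
    -t, 0, 1, 0, 0, 0, 0;
    0, 2 * t, 0, 1, 0, 0, 0;
    0, 0, 0, 0, 1, 0, 0;
    0, -(2 * t ^ 2), 0, -(2 * t), 0, 1, 0;
    0, 0, 0, 0, t, 0, 1] := by
  ext i j
  simp only [Lo]
  fin_cases i <;> fin_cases j <;> simp

theorem Lo3 (t : ℂ) : Lo t 3 = !![1, 0, 0, 0, 0, 0, 0;
    0, 1, 0, 0, 0, 0, 0;
    0, 0, 1, 0, 0, 0, 0;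
    2 * t, 0, 0, 1, 0, 0, 0;
    0, -(2 * t), 0, 0, 1, 0, 0;
    0, 0, -(2 * t), 0, 0, 1, 0;
    2 * t ^ 2, 0, 0, 2 * t, 0, 0, 1] := by
  ext i j
  simp only [Lo]
  fin_cases i <;> fin_cases j <;> simp

theorem Lo4 (t : ℂ) : Lo t 4 = !![1, 0, 0, 0, 0, 0, 0;
    0, 1, 0, 0, 0, 0, 0;
    0, 0, 1, 0, 0, 0, 0;
    0, 0, 0, 1, 0, 0, 0;
    -t, 0, 0, 0, 1, 0, 0;
    0, 0, 0, 0, 0, 1, 0;
    0, 0, t, 0, 0, 0, 1] := by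
  ext i j
  simp only [Lo]
  fin_cases i <;> fin_cases j <;> simp

theorem Lo5 (t : ℂ) : Lo t 5 = !![1, 0, 0, 0, 0, 0, 0;
    0, 1, 0, 0, 0, 0, 0;
    0, 0, 1, 0, 0, 0, 0;
    0, 0, 0, 1, 0, 0, 0;
    0, 0, 0, 0, 1, 0, 0;
    t, 0, 0, 0, 0, 1, 0;
    0, t, 0, 0, 0, 0, 1] := by
  ext i j
  simp only [Lo]
  fin_cases i <;> fin_cases j <;> simp

/-- The matrix `e + x`. -/
noncomputable def MM0 (a b : ℂ) : Matrix (Fin 7) (Fin 7) ℂ := !![a, 1, 0, 0, 0, 0, 0;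
  0, a - b, 1, 0, 0, 0, 0;
  0, 0, b, 1, 0, 0, 0;
  0, 0, 0, 0, 1, 0, 0;
  0, 0, 0, 0, -b, 1, 0;
  0, 0, 0, 0, 0, b - a, 1;
  0, 0, 0, 0, 0, 0, -a]

theorem step0 (a b : ℂ) : Lo (a) 0 * MM0 a b = MM1 a b * Lo (a) 0 := by
  rw [Lo0, MM0, MM1]
  ext i j
  fin_cases i <;> fin_cases j <;> simp [Matrix.mul_apply, Fin.sum_univ_succ] <;> ring

theorem step1 (a b : ℂ) : Lo (2 * a - b) 1 * MM1 a b = MM2 a b * Lo (2 * a - b) 1 := by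
  rw [Lo1, MM1, MM2]
  ext i j
  fin_cases i <;> fin_cases j <;> simp [Matrix.mul_apply, Fin.sum_univ_succ] <;> ring

theorem step2 (a b : ℂ) : Lo (1 / 14 * (17 * a ^ 2 - 17 * a * b + 3 * b ^ 2)) 2 * MM2 a b = MM3 a b * Lo (1 / 14 * (17 * a ^ 2 - 17 * a * b + 3 * b ^ 2)) 2 := by
  rw [Lo2, MM2, MM3]
  ext i j
  fin_cases i <;> fin_cases j <;> simp [Matrix.mul_apply, Fin.sum_univ_succ] <;> ring

theorem step3 (a b : ℂ) : Lo (1 / 2 * (-(2 * a ^ 3) + 3 * a ^ 2 * b - a * b ^ 2)) 3 * MM3 a b = MM4 a b * Lo (1 / 2 * (-(2 * a ^ 3) + 3 * a ^ 2 * b - a * b ^ 2)) 3 := by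
  rw [Lo3, MM3, MM4]
  ext i j
  fin_cases i <;> fin_cases j <;> simp [Matrix.mul_apply, Fin.sum_univ_succ] <;> ring

theorem step4 (a b : ℂ) : Lo (187 / 98 * a ^ 4 - 187 / 49 * a ^ 3 * b + 169 / 98 * a ^ 2 * b ^ 2 + 9 / 49 * a * b ^ 3 - 9 / 98 * b ^ 4) 4 * MM4 a b = MM5 a b * Lo (187 / 98 * a ^ 4 - 187 / 49 * a ^ 3 * b + 169 / 98 * a ^ 2 * b ^ 2 + 9 / 49 * a * b ^ 3 - 9 / 98 * b ^ 4) 4 := by
  rw [Lo4, MM4, MM5]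
  ext i j
  fin_cases i <;> fin_cases j <;> simp [Matrix.mul_apply, Fin.sum_univ_succ] <;> ring

theorem step5 (a b : ℂ) : Lo (9 / 7 * a ^ 5 - 45 / 14 * a ^ 4 * b + 27 / 7 * a ^ 3 * b ^ 2 - 18 / 7 * a ^ 2 * b ^ 3 + 9 / 14 * a * b ^ 4) 5 * MM5 a b = MM6 a b * Lo (9 / 7 * a ^ 5 - 45 / 14 * a ^ 4 * b + 27 / 7 * a ^ 3 * b ^ 2 - 18 / 7 * a ^ 2 * b ^ 3 + 9 / 14 * a * b ^ 4) 5 := by
  rw [Lo5, MM5, MM6]
  ext i j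
  fin_cases i <;> fin_cases j <;> simp [Matrix.mul_apply, Fin.sum_univ_succ] <;> ring

section
variable {R : Type*} [CommRing R] [Algebra ℂ R]

theorem pG_mem (x : Fin 2 → R) : Gc (pG x) := by
  unfold pG
  exact Gc_mul (Lo_mem _ _) (Gc_mul (Lo_mem _ _) (Gc_mul (Lo_mem _ _) (Gc_mul (Lo_mem _ _)
    (Gc_mul (Lo_mem _ _) (Lo_mem _ _)))))

theorem pG_lowUni (x : Fin 2 → R) : LowUni (pG x) := by
  unfold pG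
  exact (Lo_lowUni _ _).mul ((Lo_lowUni _ _).mul ((Lo_lowUni _ _).mul ((Lo_lowUni _ _).mul
    ((Lo_lowUni _ _).mul (Lo_lowUni _ _)))))

theorem Lo_map {S : Type*} [CommRing S] [Algebra ℂ S] (φ : R →ₐ[ℂ] S) (t : R) (n : Fin 6) :
    (Lo t n).map φ = Lo (φ t) n := by
  rw [Lo_eq, Lo_eq]
  ext i j
  simp only [Matrix.map_apply, Matrix.add_apply, Matrix.smul_apply, smul_eq_mul, map_add, map_mul,
    map_pow, map_intCast, Matrix.one_apply]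
  split_ifs <;> simp

theorem pG_map {S : Type*} [CommRing S] [Algebra ℂ S] (φ : R →ₐ[ℂ] S) (x : Fin 2 → R) :
    (pG x).map φ = pG fun k => φ (x k) := by
  have hm : ∀ M N : Matrix (Fin 7) (Fin 7) R, (M * N).map φ = M.map φ * N.map φ := fun M N =>
    Matrix.map_mul (f := (φ : R →+* S))
  unfold pG
  rw [hm, hm, hm, hm, hm]
  simp only [Lo_map, map_add, map_sub, map_neg, map_mul, map_pow, AlgHom.commutes, map_ofNat]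

theorem sG_map {S : Type*} [CommRing S] [Algebra ℂ S] (φ : R →ₐ[ℂ] S) (x : Fin 2 → R) :
    (sG x).map φ = sG fun k => φ (x k) := by
  unfold sG
  have h := Slk_map (N := 7) (κ := ![1, 5]) (φ : R →+* S) (aG x)
  have h2 : (fun m => (φ : R →+* S) (aG x m)) = aG fun k => φ (x k) := by
    funext m
    fin_cases m <;> simp [aG, qG, dG]
  rw [h2] at h
  exact h

end

/-- The entries of the slice element over `ℂ`. -/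
theorem sG_eq (x : Fin 2 → ℂ) : sG x =
    !![0, 1, 0, 0, 0, 0, 0;
       3 / 14 * qG x, 0, 1, 0, 0, 0, 0;
       0, 5 / 14 * qG x, 0, 1, 0, 0, 0;
       0, 0, 3 / 7 * qG x, 0, 1, 0, 0;
       0, 0, 0, 3 / 7 * qG x, 0, 1, 0;
       1 / 2 * dG x - 18 / 343 * qG x ^ 3, 0, 0, 0, 5 / 14 * qG x, 0, 1;
       0, 1 / 2 * dG x - 18 / 343 * qG x ^ 3, 0, 0, 0, 3 / 14 * qG x, 0] := by
  ext i j
  unfold sG
  rw [Slk_apply, Fin.sum_univ_two]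
  simp only [Pool.Agent.MP_c45d35_ag.em, Matrix.of_apply, aG, Matrix.cons_val_zero, Matrix.cons_val_one]
  fin_cases i <;> fin_cases j <;>
    simp [Pool.Agent.MP_c45d35_ag.SL.Fk, Finset.prod_range_succ] <;> ring

/-- The conjugation identity over `ℂ` (checked numerically): explicit 7 × 7 matrices, entrywise
`ring`.  It may be convenient to conjugate `e + x` successively by the factors of `pG`: with
`M₀ = e + x`, `Lo(t₁) 0 * M₀ = M₁ * Lo(t₁) 0`, …; the matrices `M_i` are (a = x 0, b = x 1)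
given in the comment at the end of the file (`Lo t_i n_i * M_{i-1} = M_i * Lo t_i n_i`).  Or compute
the product `pG x` explicitly first (also given there). -/
theorem conjC (x : Fin 2 → ℂ) :
    pG x * (em ℂ 7 + Matrix.diagonal fun i => ev (wtG i) x) = sG x * pG x := by
  set a := x 0 with ha
  set b := x 1 with hb
  have h0 : (em ℂ 7 + Matrix.diagonal fun i => ev (wtG i) x) = MM0 a b := by
    rw [MM0]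
    ext i j
    rw [Matrix.add_apply]
    fin_cases i <;> fin_cases j <;>
      simp [Pool.Agent.MP_c45d35_ag.em, ev, wtG, Fin.sum_univ_two, ha, hb] <;> ring
  have h6 : sG x = MM6 a b := by
    rw [sG_eq, MM6]
    ext i j
    fin_cases i <;> fin_cases j <;> simp [qG, dG, ← ha, ← hb] <;> ring
  have hp : pG x = Lo (9 / 7 * a ^ 5 - 45 / 14 * a ^ 4 * b + 27 / 7 * a ^ 3 * b ^ 2 -
        18 / 7 * a ^ 2 * b ^ 3 + 9 / 14 * a * b ^ 4) 5 *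
      (Lo (187 / 98 * a ^ 4 - 187 / 49 * a ^ 3 * b + 169 / 98 * a ^ 2 * b ^ 2 +
        9 / 49 * a * b ^ 3 - 9 / 98 * b ^ 4) 4 *
      (Lo (1 / 2 * (-(2 * a ^ 3) + 3 * a ^ 2 * b - a * b ^ 2)) 3 *
      (Lo (1 / 14 * (17 * a ^ 2 - 17 * a * b + 3 * b ^ 2)) 2 *
      (Lo (2 * a - b) 1 * Lo a 0)))) := by
    unfold pG
    simp only [Algebra.algebraMap_self, RingHom.id_apply, ← ha, ← hb]
  have key : ∀ A B C D E F M0 M1 M2 M3 M4 M5 M6 : Matrix (Fin 7) (Fin 7) ℂ,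
      F * M0 = M1 * F → E * M1 = M2 * E → D * M2 = M3 * D → C * M3 = M4 * C → B * M4 = M5 * B →
      A * M5 = M6 * A → (A * (B * (C * (D * (E * F))))) * M0 = M6 * (A * (B * (C * (D * (E * F))))) := by
    intro A B C D E F M0 M1 M2 M3 M4 M5 M6 k1 k2 k3 k4 k5 k6
    simp only [Matrix.mul_assoc]
    rw [k1, ← Matrix.mul_assoc E, k2, Matrix.mul_assoc, ← Matrix.mul_assoc D, k3, Matrix.mul_assoc,
      ← Matrix.mul_assoc C, k4, Matrix.mul_assoc, ← Matrix.mul_assoc B, k5, Matrix.mul_assoc,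
      ← Matrix.mul_assoc A, k6, Matrix.mul_assoc]
  rw [h0, h6, hp]
  exact key _ _ _ _ _ _ _ _ _ _ _ _ _ (step0 a b) (step1 a b) (step2 a b) (step3 a b) (step4 a b)
    (step5 a b)

/-- The identity over the polynomial ring (`MvPolynomial.funext` and `pG_map`, `sG_map`). -/
theorem conjP : pG (R := MvPolynomial (Fin 2) ℂ) MvPolynomial.X *
    (em (MvPolynomial (Fin 2) ℂ) 7 + Matrix.diagonal fun i => ev (wtG i) MvPolynomial.X) =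
    sG MvPolynomial.X * pG MvPolynomial.X := by
  have hmap : ∀ (x : Fin 2 → ℂ) (M N : Matrix (Fin 7) (Fin 7) (MvPolynomial (Fin 2) ℂ)),
      (M * N).map (MvPolynomial.aeval x : MvPolynomial (Fin 2) ℂ →ₐ[ℂ] ℂ) =
        M.map (MvPolynomial.aeval x : MvPolynomial (Fin 2) ℂ →ₐ[ℂ] ℂ) *
          N.map (MvPolynomial.aeval x : MvPolynomial (Fin 2) ℂ →ₐ[ℂ] ℂ) := fun x M N =>
    Matrix.map_mul (f := ((MvPolynomial.aeval x : MvPolynomial (Fin 2) ℂ →ₐ[ℂ] ℂ) :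
      MvPolynomial (Fin 2) ℂ →+* ℂ))
  have h : ∀ x : Fin 2 → ℂ, (pG (R := MvPolynomial (Fin 2) ℂ) MvPolynomial.X *
      (em (MvPolynomial (Fin 2) ℂ) 7 + Matrix.diagonal fun i => ev (wtG i) MvPolynomial.X)).map
        (MvPolynomial.aeval x : MvPolynomial (Fin 2) ℂ →ₐ[ℂ] ℂ) =
      (sG MvPolynomial.X * pG MvPolynomial.X).map
        (MvPolynomial.aeval x : MvPolynomial (Fin 2) ℂ →ₐ[ℂ] ℂ) := by
    intro x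
    have hx : (fun k => (MvPolynomial.aeval x : MvPolynomial (Fin 2) ℂ →ₐ[ℂ] ℂ)
        (MvPolynomial.X k)) = x := by
      funext k
      rw [MvPolynomial.aeval_X]
    rw [hmap, hmap, pG_map, sG_map, hx, ← conjC x]
    congr 1
    ext i j
    rw [Matrix.map_apply, Matrix.add_apply, Matrix.add_apply, map_add]
    congr 1
    · simp only [Pool.Agent.MP_c45d35_ag.em, Matrix.of_apply]
      split_ifs
      · rw [map_one]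
      · rw [map_zero]
    · by_cases hij : i = j
      · subst hij
        rw [Matrix.diagonal_apply_eq, Matrix.diagonal_apply_eq]
        simp only [ev, map_sum, map_mul, map_intCast, MvPolynomial.aeval_X]
      · rw [Matrix.diagonal_apply_ne _ hij, Matrix.diagonal_apply_ne _ hij, map_zero]
  ext1 i j
  refine MvPolynomial.funext fun x => ?_
  have h1 := congrFun (congrFun (h x) i) j
  rw [Matrix.map_apply, Matrix.map_apply] at h1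
  have h2 : ∀ p : MvPolynomial (Fin 2) ℂ, MvPolynomial.eval x p =
      (MvPolynomial.aeval x : MvPolynomial (Fin 2) ℂ →ₐ[ℂ] ℂ) p := fun p =>
    (RingHom.congr_fun (MvPolynomial.coe_aeval_eq_eval x) p).symm
  rw [h2, h2]
  exact h1

end Pool.Agent.MTD.G2

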